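import Pool.Agent.helper58.L9.KgStep
import Pool.Agent.helper33.L9.T1

/-!
# The region theorem for K4
-/

set_option autoImplicit false
set_option linter.unusedSectionVars false
set_option linter.unusedVariables false

namespace Pool.Agent.helper58.L9

open Finset Classical Helper33.L9
open Helper42.L9 hiding near
open K4

theorem five_odd (p q r s : ℕ) : ∃ a, (a % 2 = 1 ∧ a ≤ 9) ∧ a ≠ p ∧ a ≠ q ∧ a ≠ r ∧ a ≠ s := by
  by_contra hcon
  push Not at hcon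
  have h1 := hcon 1
  have h3 := hcon 3
  have h5 := hcon 5
  have h7 := hcon 7
  have h9 := hcon 9
  omega

variable {V : Type*} [Fintype V] {G : SimpleGraph V} {X : V → Prop} {K : Cfg V}

/-- the partner -/
theorem partner_ex (hX : NoMono G X) {w v : V} (hv : G.Adj w v) :
    ∃ q, ∀ x, G.Adj w x → (X x ↔ X v) → x ≠ v → x = q := by
  by_cases h : ∃ q, G.Adj w q ∧ (X q ↔ X v) ∧ q ≠ v
  · obtain ⟨q, h1, h2, h3⟩ := h
    refine ⟨q, fun x h4 h5 h6 => ?_⟩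
    by_contra hne
    exact hX w v q x hv h1 h4 h3.symm h6.symm (Ne.symm hne) ⟨h2.symm, h5.symm⟩
  · exact ⟨v, fun x h4 h5 h6 => absurd ⟨x, h4, h5, h6⟩ h⟩

/-- a vertex with an unlabelled cross neighbour can be labelled -/
theorem St.add_b {L E : V → Prop} {f : V → ℕ} (hX : NoMono G X) {y b c d t s : V}
    (st : StG G X L E f) (hb : Nb G b y c d) (hy : Nb G y t s b) (Yb : ¬ X b) (Yy : ¬ X y)
    (Yc : ¬ X c) (Xt : X t) (Xs : X s) (hL : ¬ L b) (hd : ¬ L d) :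
    ∃ g : V → ℕ, StG G X (fun v => L v ∨ v = b) E g := by
  obtain ⟨q1, h1⟩ := partner_ex hX hb.hb.symm
  obtain ⟨q2, h2⟩ := partner_ex hX hb.hc.symm
  obtain ⟨a, ⟨ho, h9⟩, a1, a2, a3, a4⟩ := five_odd (f y) (f c) (f q1) (f q2)
  obtain ⟨g, _, _, st'⟩ := st.one relG qadj_irr b a hL h9
    ⟨fun hh => absurd hh Yb, fun hh => by rw [Nat.even_iff] at hh; omega⟩
    (by
      rintro x ⟨hs, hne, hadj | ⟨w, hw1, hw2⟩⟩ hl _
      · rcases hb.all x hadj with h3 | h3 | h3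
        · rw [h3]; exact a1.symm
        · rw [h3]; exact a2.symm
        · exact absurd (h3 ▸ hl) hd
      · rcases hb.all w hw1 with h3 | h3 | h3
        · rw [h3] at hw2
          rcases hy.all x hw2 with h4 | h4 | h4
          · exact absurd (hs.mpr (by rw [h4]; exact Xt)) Yb
          · exact absurd (hs.mpr (by rw [h4]; exact Xs)) Yb
          · exact absurd h4.symm hne
        · rw [h3] at hw2
          rw [h1 x hw2 hs.symm hne.symm]
          exact a3.symm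
        · rw [h3] at hw2
          rw [h2 x hw2 hs.symm hne.symm]
          exact a4.symm)
    (by
      intro x hadj hs hl _
      rcases hb.all x hadj with h3 | h3 | h3
      · exact absurd (iff_of_false Yb (by rw [h3]; exact Yy)) hs
      · exact absurd (iff_of_false Yb (by rw [h3]; exact Yc)) hs
      · exact absurd (h3 ▸ hl) hd)
  exact ⟨g, st'⟩

/-- **Regions with rungs with two or three vertices.** -/
theorem Good.ext_23 (hX : NoMono G X) (hcub : ∀ v, (univ.filter fun b => G.Adj v b).card = 3)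
    (h : Good G X K) (hXt : X K.t)
    (hr : (K.r = Rn.two ∧ (K.r' = Rn.two ∨ ∃ v, K.r' = Rn.three v)) ∨
      ((∃ u, K.r = Rn.three u) ∧ ∃ v, K.r' = Rn.three v)) {Z : Finset V}
    (hsub : ∀ v, K.Lam v → v ∈ Z) :
    ExtZ G X Z K.Lam ∨ (K.b1 ∈ Z ∧ (∃ c, G.Adj K.b1 c ∧ (X c ↔ X K.b1) ∧ c ≠ K.y1) ∧
      ExtZ G X Z (fun v => K.Lam v ∨ v = K.b1)) := by
  obtain ⟨B1, B2, B3, B4, C1, C2, C3, C4, ho⟩ := h.out hX hXt
  have hM : ∀ x, (K.r.M x ∨ K.r'.M x) → K.Lam x := by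
    rintro x (hx | hx)
    · exact Or.inr (Or.inl (Rn.M_inn _ _ hx))
    · exact Or.inr (Or.inr (Rn.M_inn _ _ hx))
  have hX8 : ∀ x, K.Lam x → ¬ X x → Ys K.y1 K.y2 K.y3 K.y4 x := by
    have hu : ∀ x, K.r.inn x ∨ K.r'.inn x → X x := by
      rcases hr with ⟨h1, h2 | ⟨v, h2⟩⟩ | ⟨⟨u, h1⟩, v, h2⟩
      · rw [h1, h2]
        rintro x (hx | hx) <;> exact hx.elim
      · have Xv := (h.mid' hX hXt h2).1
        rw [h1, h2]
        rintro x (hx | hx)
        · exact hx.elim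
        · simp only [Rn.inn] at hx
          rw [hx]
          exact Xv
      · have Xu := (h.mid hX hXt h1).1
        have Xv := (h.mid' hX hXt h2).1
        rw [h1, h2]
        rintro x (hx | hx)
        · simp only [Rn.inn] at hx
          rw [hx]
          exact Xu
        · simp only [Rn.inn] at hx
          rw [hx]
          exact Xv
    intro x hx hXx
    rcases hx with (h1 | h1 | h1 | h1 | h1 | h1 | h1 | h1) | h1
    · exact absurd (by rw [h1]; exact ho.reg.Xt) hXx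
    · exact absurd (by rw [h1]; exact ho.reg.Xt') hXx
    · exact absurd (by rw [h1]; exact ho.reg.Xs) hXx
    · exact absurd (by rw [h1]; exact ho.reg.Xs') hXx
    · exact Or.inl h1
    · exact Or.inr (Or.inl h1)
    · exact Or.inr (Or.inr (Or.inl h1))
    · exact Or.inr (Or.inr (Or.inr h1))
    · exact absurd (hu x h1) hXx
  by_cases hall : (B1 ≠ C1 ∧ B1 ∈ Z ∧ C1 ∈ Z) ∧ (B2 ≠ C2 ∧ B2 ∈ Z ∧ C2 ∈ Z) ∧
      (B3 ≠ C3 ∧ B3 ∈ Z ∧ C3 ∈ Z) ∧ (B4 ≠ C4 ∧ B4 ∈ Z ∧ C4 ∈ Z)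
  · obtain ⟨⟨n1, zB1, zC1⟩, ⟨n2, zB2, zC2⟩, ⟨n3, zB3, zC3⟩, n4, zB4, zC4⟩ := hall
    obtain ⟨e1, yb1, adj1, Xc1, cy1, yc1⟩ := ho.i1 n1
    obtain ⟨d, hd⟩ := nb_third hcub h.fr.n1.hc.symm adj1 cy1.symm
    by_cases hdZ : d ∈ Z
    · -- everything is labelled
      left
      apply extZ_of_kext hsub
      intro E f st0
      obtain ⟨f1, hn, st⟩ := norm_st st0
      have hL : ∀ v, K.Lam v → ¬ (v ∈ Z ∧ ¬ K.Lam v) := fun v hv hh => hh.2 hv
      obtain ⟨zz, l1, l2, hs⟩ := h.sel hX hcub hXt hr hL st hn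
      obtain ⟨e2, yb2, -, -, -, yc2⟩ := ho.i2 n2
      obtain ⟨e3, yb3, -, -, -, yc3⟩ := ho.i3 n3
      obtain ⟨e4, yb4, -, -, -, yc4⟩ := ho.i4 n4
      have out : ∀ x, x ∈ Z → ¬ X x → ¬ Ys K.y1 K.y2 K.y3 K.y4 x → x ∈ Z ∧ ¬ K.Lam x :=
        fun x h1 h2 h3 => ⟨h1, fun h4 => h3 (hX8 x h4 h2)⟩
      exact h.stepF hX hcub hXt ho hL st hs n1 n2 n3 n4
        (out _ zB1 ho.reg.B1 (by rw [e1]; exact yb1)) (out _ zC1 ho.reg.C1 yc1)
        (out _ zB2 ho.reg.B2 (by rw [e2]; exact yb2)) (out _ zC2 ho.reg.C2 yc2)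
        (out _ zB3 ho.reg.B3 (by rw [e3]; exact yb3)) (out _ zC3 ho.reg.C3 yc3)
        (out _ zB4 ho.reg.B4 (by rw [e4]; exact yb4)) (out _ zC4 ho.reg.C4 yc4) hd
        (by
          by_cases hl : K.Lam d
          · exact Or.inr hl
          · exact Or.inl ⟨hdZ, hl⟩)
    · -- `b1` belongs to the region
      right
      refine ⟨e1 ▸ zB1, ⟨C1, adj1, Xc1, cy1⟩, ?_⟩
      have Yb : ¬ X K.b1 := e1 ▸ ho.reg.B1
      have hsub' : ∀ v, (K.Lam v ∨ v = K.b1) → v ∈ Z := by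
        rintro v (hv | hv)
        · exact hsub v hv
        · rw [hv]; exact e1 ▸ zB1
      apply extZ_of_kext hsub'
      intro E f st0
      obtain ⟨f1, hn, st⟩ := norm_st st0
      have hL : ∀ v, K.Lam v → ¬ (v ∈ Z ∧ ¬ (K.Lam v ∨ v = K.b1)) :=
        fun v hv hh => hh.2 (Or.inl hv)
      obtain ⟨zz, l1, l2, hs⟩ := h.sel hX hcub hXt hr hL st hn
      have hbL : ¬ K.Lam K.b1 := fun hh => yb1 (hX8 _ hh Yb)
      obtain ⟨g, st1⟩ := h.stepP hX hcub ho hL hs (by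
        rintro ⟨⟨hh, _⟩, _⟩
        rw [e1] at hh
        rcases hh with hh | hh
        · exact hh.2 (Or.inr rfl)
        · exact hbL (hM _ hh))
      obtain ⟨g', st2⟩ := st1.add_b hX hd h.fr.n1 Yb ho.reg.Y1 ho.reg.C1 ho.reg.Xt ho.reg.Xs
        (by
          rintro (hh | hh)
          · exact hh.2 (Or.inr rfl)
          · exact hbL hh)
        (by
          rintro (hh | hh)
          · exact hdZ hh.1
          · exact hdZ (hsub _ hh))
      exact ⟨g', E, st2.congr (fun v => or_assoc) (fun v => Iff.rfl)⟩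
  · -- parity
    left
    apply extZ_of_kext hsub
    intro E f st0
    obtain ⟨f1, hn, st⟩ := norm_st st0
    have hL : ∀ v, K.Lam v → ¬ (v ∈ Z ∧ ¬ K.Lam v) := fun v hv hh => hh.2 hv
    obtain ⟨zz, l1, l2, hs⟩ := h.sel hX hcub hXt hr hL st hn
    have hT : ∀ x, ((x ∈ Z ∧ ¬ K.Lam x) ∨ K.r.M x ∨ K.r'.M x) → x ∈ Z := by
      rintro x (hx | hx)
      · exact hx.1
      · exact hsub x (hM x hx)
    obtain ⟨g, st1⟩ := h.stepP hX hcub ho hL hs (by
      rintro ⟨⟨p1, p2, p3⟩, ⟨q1, q2, q3⟩, ⟨r1, r2, r3⟩, s1, s2, s3⟩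
      exact hall ⟨⟨p3, hT _ p1, hT _ p2⟩, ⟨q3, hT _ q1, hT _ q2⟩, ⟨r3, hT _ r1, hT _ r2⟩,
        s3, hT _ s1, hT _ s2⟩)
    exact ⟨g, E, st1⟩

/-- the alternative for a configuration -/
def Alt (G : SimpleGraph V) (X : V → Prop) (K : Cfg V) (Z : Finset V) : Prop :=
  ExtZ G X Z K.Lam ∨ (K.b1 ∈ Z ∧ (∃ c, G.Adj K.b1 c ∧ (X c ↔ X K.b1) ∧ c ≠ K.y1) ∧
      ExtZ G X Z (fun v => K.Lam v ∨ v = K.b1))

/-- all types, `t` in `X` -/
theorem Good.alt_X (hX : NoMono G X) (hcub : ∀ v, (univ.filter fun b => G.Adj v b).card = 3)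
    (hst : ∀ v, StarAt G X v) (h : Good G X K) (hXt : X K.t) {Z : Finset V}
    (hsub : ∀ v, K.Lam v → v ∈ Z) : Alt G X K Z ∨ Alt G X K.sw3 Z := by
  have hXs : X K.sw3.t := h.fr.Xs.mpr hXt
  have hsub3 : ∀ v, K.sw3.Lam v → v ∈ Z := fun v hv => hsub v ((lam_sw3 K v).mp hv)
  cases hr : K.r with
  | two =>
    cases hr' : K.r' with
    | two => exact Or.inl (h.ext_23 hX hcub hXt (Or.inl ⟨hr, Or.inl hr'⟩) hsub)
    | three v => exact Or.inl (h.ext_23 hX hcub hXt (Or.inl ⟨hr, Or.inr ⟨v, hr'⟩⟩) hsub)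
    | six v2 v3 v4 v5 y =>
      exact Or.inr (Or.inl (h.sw3.ext_six hX hcub hst hXs (K := K.sw3) hr' hsub3))
  | three u =>
    cases hr' : K.r' with
    | two =>
      exact Or.inr (h.sw3.ext_23 hX hcub hXs (K := K.sw3) (Or.inl ⟨hr', Or.inr ⟨u, hr⟩⟩) hsub3)
    | three v => exact Or.inl (h.ext_23 hX hcub hXt (Or.inr ⟨⟨u, hr⟩, v, hr'⟩) hsub)
    | six v2 v3 v4 v5 y =>
      exact Or.inr (Or.inl (h.sw3.ext_six hX hcub hst hXs (K := K.sw3) hr' hsub3))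
  | six v2 v3 v4 v5 y => exact Or.inl (Or.inl (h.ext_six hX hcub hst hXt hr hsub))

theorem Alt.refl {Z : Finset V} (h : Alt G (fun v => ¬ X v) K Z) : Alt G X K Z := by
  rcases h with h | ⟨h1, ⟨c, h2, h3, h4⟩, h5⟩
  · exact Or.inl h.refl
  · exact Or.inr ⟨h1, ⟨c, h2, not_iff_not.mp h3, h4⟩, h5.refl⟩

/-- all types -/
theorem Good.alt (hX : NoMono G X) (hcub : ∀ v, (univ.filter fun b => G.Adj v b).card = 3)
    (hst : ∀ v, StarAt G X v) (h : Good G X K) {Z : Finset V}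
    (hsub : ∀ v, K.Lam v → v ∈ Z) : Alt G X K Z ∨ Alt G X K.sw3 Z := by
  by_cases hXt : X K.t
  · exact h.alt_X hX hcub hst hXt hsub
  · rcases h.refl.alt_X (noMono_refl hX) hcub (fun v => starAt_refl (hst v)) hXt hsub with h1 | h1
    · exact Or.inl h1.refl
    · exact Or.inr h1.refl

/-- a region from a closed set -/
theorem region_of {Z : Finset V} {Lm : V → Prop} (hI : InvZ G X Z) (hsub : ∀ v, Lm v → v ∈ Z)
    {t : V} (ht : Lm t)
    (ha : ∀ w, Lm w → ∀ a b, ownR G X w a → ownR G X w b → ¬ Lm a → ¬ Lm b → a = b)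
    (hb : ∀ y, Lm y → cc G X y = 2 → ∃ x, G.Adj y x ∧ ¬ (X x ↔ X y) ∧ Lm x)
    (he : ExtZ G X Z Lm) : ∃ Lam, Region G X Z Lam := by
  have mem : ∀ v, v ∈ Z \ (univ.filter Lm) ↔ (v ∈ Z ∧ ¬ Lm v) := by
    intro v
    simp
  refine ⟨univ.filter Lm, ?_, ⟨t, by simpa using ht⟩, ⟨?_, ?_, ?_⟩, ?_⟩
  · intro v hv
    exact hsub v (by simpa using hv)
  · intro c hc i hi
    exact hI.C c hc i ((mem _).mp hi).1
  · intro w hw a b h1 h2 h3 h4
    rw [mem] at hw h3 h4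
    by_cases hl : Lm w
    · exact ha w hl a b h1 h2 h3.2 h4.2
    · exact hI.own1 w (fun hh => hw ⟨hh, hl⟩) a b h1 h2 h3.1 h4.1
  · intro y hy h2
    rw [mem] at hy
    by_cases hl : Lm y
    · obtain ⟨x, h3, h4, h5⟩ := hb y hl h2
      exact ⟨x, h3, h4, fun hh => ((mem _).mp hh).2 h5⟩
    · obtain ⟨x, h3, h4, h5⟩ := hI.crs y (fun hh => hy ⟨hh, hl⟩) h2
      exact ⟨x, h3, h4, fun hh => h5 ((mem _).mp hh).1⟩
  · intro E f st
    exact he E f (st.congr (fun v => mem v) (fun v => Iff.rfl))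

theorem cc_23 (G : SimpleGraph V) (X : V → Prop) (w : V) : cc G X w = 2 ∨ cc G X w = 3 := by
  unfold cc
  split_ifs
  · exact Or.inl rfl
  · exact Or.inr rfl

/-- **A configuration gives a region.** -/
theorem Good.region (hX : NoMono G X) (hcub : ∀ v, (univ.filter fun b => G.Adj v b).card = 3)
    (h : Good G X K) {Z : Finset V} (hI : InvZ G X Z) (hsub : ∀ v, K.Lam v → v ∈ Z)
    (ha : Alt G X K Z) : ∃ Lam, Region G X Z Lam := by
  have hcl := h.cl hX hcub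
  have k1 : ∀ w, K.Lam w → ∀ a b, ownR G X w a → ownR G X w b → ¬ K.Lam a → ¬ K.Lam b → a = b := by
    intro w hw a b h1 h2 h3 h4
    rcases cc_23 G X w with h5 | h5
    · exact own_one hX hcub h5 h1 h2
    · exact absurd ((hcl w hw).2 h5 a h1.1 h1.2.symm) h3
  have k2 : ∀ y, K.Lam y → cc G X y = 2 → ∃ x, G.Adj y x ∧ ¬ (X x ↔ X y) ∧ K.Lam x := by
    intro y hy h2
    have h3 := (cc_two hX hcub).mp h2
    have h4 : (cr G X y).Nonempty := by
      rw [← Finset.card_pos]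
      omega
    obtain ⟨x, hx⟩ := h4
    rw [mem_cr] at hx
    exact ⟨x, hx.1, hx.2, (hcl y hy).1 h2 x hx.1 hx.2⟩
  rcases ha with he | ⟨h1, ⟨c, h2, h3, h4⟩, he⟩
  · exact region_of hI hsub K.lam_t k1 k2 he
  · have Yy : X K.y1 ↔ X K.b1 := (h.fr.sb1 hX).symm
    refine region_of hI ?_ (Or.inl K.lam_t) ?_ ?_ he
    · rintro v (hv | hv)
      · exact hsub v hv
      · rw [hv]; exact h1
    · rintro w (hw | hw) a b h5 h6 h7 h8
      · exact k1 w hw a b h5 h6 (fun hh => h7 (Or.inl hh)) (fun hh => h8 (Or.inl hh))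
      · rw [hw] at h5 h6
        by_contra hne
        have ya : K.y1 ≠ a := fun hh => h7 (Or.inl (hh ▸ K.lam_y1))
        have yb : K.y1 ≠ b := fun hh => h8 (Or.inl (hh ▸ K.lam_y1))
        exact hX K.b1 K.y1 a b h.fr.n1.hc.symm h5.1 h6.1 ya yb hne
          ⟨Yy.trans h5.2, Yy.trans h6.2⟩
    · rintro y (hy | hy) h5
      · obtain ⟨x, h6, h7, h8⟩ := k2 y hy h5
        exact ⟨x, h6, h7, Or.inl h8⟩
      · exfalso
        rw [hy] at h5
        have := cc_inner hX hcub h.fr.n1.hc.symm h2 h4.symm Yy h3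
        omega

/-- **The region theorem for K4.** -/
theorem k4_region (hX : NoMono G X) (hcub : ∀ v, (univ.filter fun b => G.Adj v b).card = 3)
    (hst : ∀ v, StarAt G X v) : K4Region G X := by
  intro Z S hI hS a b d e ha hb hd he hnd h1 h2 h3 h4 h5 h6
  obtain ⟨K, hK, ⟨st, st', ss, ss'⟩, m1, m2⟩ :=
    find_k4 hX hcub hst hI hS ha hb hd he hnd h1 h2 h3 h4 h5 h6
  have hsub := hK.lam_sub hX hcub hI (hS.1 st) (hS.1 st') (hS.1 ss) (hS.1 ss') m1 m2
  rcases hK.alt hX hcub hst hsub with h | h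
  · exact hK.region hX hcub hI hsub h
  · exact hK.sw3.region hX hcub hI (fun v hv => hsub v ((lam_sw3 K v).mp hv)) h

end Pool.Agent.helper58.L9
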