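import Pool.Agent.helper58.L9.K4Types

/-!
# The K4 obstacle labelled last: reflection, families, final combination
-/

set_option autoImplicit false

namespace Pool.Agent.helper58.L9

open Pool.Agent.helper40.L9 (ParOK)

variable {V : Type*} {A Q N : V → V → Prop} {X L E W : V → Prop} {f f0 : V → ℕ}

/-- only the labels of `L` matter -/
theorem St.congrf (hR : Rel A Q N X) (h : St A Q N X L E f) {g : V → ℕ}
    (hg : ∀ v, L v → g v = f v) : St A Q N X L E g := by
  refine ⟨⟨?_, ?_, ?_, ?_⟩, h.sub, ?_, h.inv, ?_, ?_⟩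
  · intro v hv
    rw [hg v hv.1]
    exact h.par.le v hv
  · intro v hv
    rw [hg v hv.1]
    exact h.par.par v hv
  · intro u v hu hv huv
    rw [hg u hu.1, hg v hv.1]
    exact h.par.q u v hu hv huv
  · intro u v hu hv huv hX
    rw [hg u hu.1, hg v hv.1]
    exact h.par.cross u v hu hv huv hX
  · intro e he
    rw [hg e (h.sub e he)]
    exact h.le e he
  · intro e v he hev
    rw [hg e (h.sub e he), hg v (h.inv e v he (hR.AN _ _ hev))]
    exact h.adj e v he hev
  · intro e v he hev
    rw [hg e (h.sub e he), hg v (h.inv e v he hev)]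
    exact h.ne e v he hev

/-- labels are at most nine -/
theorem St.le9 (h : St A Q N X L E f) {v : V} (hv : L v) : f v ≤ 9 := by
  by_cases he : E v
  · exact h.le v he
  · exact h.par.le v ⟨hv, he⟩

/-- reflection `x ↦ 9 - x` -/
theorem St.refl (hR : Rel A Q N X) (h : St A Q N X L E f) :
    St A Q N (fun v => ¬ X v) L E (fun v => 9 - f v) := by
  refine ⟨⟨?_, ?_, ?_, ?_⟩, h.sub, ?_, h.inv, ?_, ?_⟩
  · intro v _
    exact Nat.sub_le _ _
  · intro v hv
    have h1 := h.par.par v hv
    have h2 := h.par.le v hv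
    rw [Nat.even_sub h2]
    have h9 : ¬ Even 9 := by decide
    tauto
  · intro u v hu hv huv
    have h1 := h.par.q u v hu hv huv
    have h2 := h.par.le u hu
    have h3 := h.par.le v hv
    omega
  · intro u v hu hv huv hX
    have h1 := h.par.cross v u hv hu (hR.As _ _ huv) (fun hh => hX (by tauto))
    have h2 := h.par.le u hu
    have h3 := h.par.le v hv
    omega
  · intro e _
    exact Nat.sub_le _ _
  · intro e v he hev
    have h1 := h.adj e v he hev
    have h2 := h.le e he
    have h3 := h.le9 (h.inv e v he (hR.AN _ _ hev))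
    omega
  · intro e v he hev
    have h1 := h.ne e v he hev
    have h2 := h.le e he
    have h3 := h.le9 (h.inv e v he hev)
    omega

theorem Rel.refl (hR : Rel A Q N X) : Rel A Q N (fun v => ¬ X v) := by
  refine ⟨hR.As, hR.Qs, hR.Ns, hR.AN, ?_⟩
  intro u v huv
  have := hR.QX u v huv
  tauto

/-- a region on the other side -/
theorem KExt.refl (hR : Rel A Q N X) {Lam : V → Prop}
    (h : KExt A Q N (fun v => ¬ X v) W (fun v => 9 - f0 v) Lam) : KExt A Q N X W f0 Lam := by
  classical
  intro L E f hst hW hL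
  obtain ⟨g, E', st, g0, g1, g2⟩ := h L E (fun v => 9 - f v) (hst.refl hR)
    (fun v hv => ⟨(hW v hv).1, (hW v hv).2.1, by simp only [(hW v hv).2.2]⟩) hL
  have st2 := st.refl hR.refl
  have e : (fun v => ¬ ¬ X v) = X := by
    funext v
    simp
  rw [e] at st2
  refine ⟨fun v => if Lam v then 9 - g v else f v, E', st2.congrf hR ?_, ?_, g1, g2⟩
  · intro v hv
    by_cases hl : Lam v
    · simp [hl]
    · have hLv : L v := by
        rcases hv with hv | hv
        · exact hv
        · exact absurd hv hl
      have h1 := hst.le9 hLv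
      simp only [hl, if_false, g0 v hl]
      omega
  · intro v hv
    simp [hv]

/-- **A family of pairwise disjoint regions.** -/
theorem kfamily {ι : Type*} (Lam : ι → V → Prop) (T : Finset ι)
    (hdisj : ∀ i ∈ T, ∀ j ∈ T, i ≠ j → ∀ v, Lam i v → ¬ Lam j v)
    (hW : ∀ i ∈ T, ∀ v, Lam i v → ¬ W v)
    (hext : ∀ i ∈ T, KExt A Q N X W f0 (Lam i)) :
    ∀ (L E : V → Prop) (f : V → ℕ), St A Q N X L E f →
      (∀ v, W v → L v ∧ ¬ E v ∧ f v = f0 v) → (∀ i ∈ T, ∀ v, Lam i v → ¬ L v) →
      ∃ (g : V → ℕ) (E' : V → Prop), St A Q N X (fun v => L v ∨ ∃ i ∈ T, Lam i v) E' g ∧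
        (∀ v, (∀ i ∈ T, ¬ Lam i v) → g v = f v) ∧ (∀ v, E v → E' v) ∧
        (∀ v, E' v → E v ∨ ∃ i ∈ T, Lam i v) := by
  classical
  induction T using Finset.induction_on with
  | empty =>
    intro L E f h _ _
    refine ⟨f, E, h.congr (fun v => by simp) (fun v => Iff.rfl), fun _ _ => rfl,
      fun _ h => h, fun _ h => Or.inl h⟩
  | insert a T ha ih =>
    intro L E f h hWL hL
    obtain ⟨g, E', st, g0, g1, g2⟩ := hext a (Finset.mem_insert_self a T) L E f h hWL
      (hL a (Finset.mem_insert_self a T))
    obtain ⟨g', E'', st', g0', g1', g2'⟩ := ih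
      (fun i hi j hj => hdisj i (Finset.mem_insert_of_mem hi) j (Finset.mem_insert_of_mem hj))
      (fun i hi => hW i (Finset.mem_insert_of_mem hi))
      (fun i hi => hext i (Finset.mem_insert_of_mem hi)) (fun v => L v ∨ Lam a v) E' g st
      (by
        intro v hv
        have hla : ¬ Lam a v := fun hla => hW a (Finset.mem_insert_self a T) v hla hv
        obtain ⟨h1, h2, h3⟩ := hWL v hv
        refine ⟨Or.inl h1, ?_, by rw [g0 v hla]; exact h3⟩
        intro he
        rcases g2 v he with h4 | h4
        · exact h2 h4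
        · exact hla h4)
      (by
        intro i hi v hv hv2
        rcases hv2 with hv2 | hv2
        · exact hL i (Finset.mem_insert_of_mem hi) v hv hv2
        · exact hdisj i (Finset.mem_insert_of_mem hi) a (Finset.mem_insert_self a T)
            (fun h => ha (h ▸ hi)) v hv hv2)
    refine ⟨g', E'', st'.congr (fun v => ?_) (fun v => Iff.rfl), ?_, ?_, ?_⟩
    · simp only [Finset.mem_insert, exists_eq_or_imp]
      tauto
    · intro v hv
      rw [g0' v (fun i hi => hv i (Finset.mem_insert_of_mem hi)),
        g0 v (hv a (Finset.mem_insert_self a T))]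
    · intro v hv
      exact g1' v (g1 v hv)
    · intro v hv
      simp only [Finset.mem_insert, exists_eq_or_imp]
      rcases g2' v hv with h1 | h1
      · rcases g2 v h1 with h2 | h2
        · exact Or.inl h2
        · exact Or.inr (Or.inl h2)
      · exact Or.inr (Or.inr h1)

/-- a parity labelling of `W` is a state without invisible vertices -/
theorem St.start (h : ParOK A Q X W f0) : St A Q N X W (fun _ => False) f0 := by
  refine ⟨h.congr (fun v => by simp), fun _ h => h.elim, fun _ h => h.elim,
    fun _ _ h => h.elim, fun _ _ h => h.elim, fun _ _ h => h.elim⟩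

/-- **All regions, starting from the labelling of `W`.** -/
theorem kstage {ι : Type*} (Lam : ι → V → Prop) (T : Finset ι)
    (hdisj : ∀ i ∈ T, ∀ j ∈ T, i ≠ j → ∀ v, Lam i v → ¬ Lam j v)
    (hW : ∀ i ∈ T, ∀ v, Lam i v → ¬ W v)
    (hext : ∀ i ∈ T, KExt A Q N X W f0 (Lam i)) (h : ParOK A Q X W f0) :
    ∃ (g : V → ℕ) (E : V → Prop), St A Q N X (fun v => W v ∨ ∃ i ∈ T, Lam i v) E g ∧
      (∀ v, W v → g v = f0 v) ∧ (∀ v, E v → ∃ i ∈ T, Lam i v) := by
  obtain ⟨g, E, st, g0, _, g2⟩ := kfamily Lam T hdisj hW hext W (fun _ => False) f0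
    (St.start h) (fun v hv => ⟨hv, fun hh => hh, rfl⟩) hW
  refine ⟨g, E, st, ?_, ?_⟩
  · intro v hv
    exact g0 v (fun i hi hl => hW i hi v hl hv)
  · intro v hv
    rcases g2 v hv with h1 | h1
    · exact h1.elim
    · exact h1

/-- **Final combination**: everything outside `E` gets a labelling `F` which agrees with `f` on
`L`; then the invisible vertices are put back. -/
theorem St.final (hR : Rel A Q N X) (h : St A Q N X L E f) (F : V → ℕ)
    (hF : ∀ v, L v → ¬ E v → F v = f v) (hle : ∀ v, ¬ E v → F v ≤ 9)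
    (hA : ∀ u v, ¬ E u → ¬ E v → A u v → F u + 2 ≤ F v ∨ F v + 2 ≤ F u)
    (hN : ∀ u v, ¬ E u → ¬ E v → N u v → F u ≠ F v) :
    ∃ g : V → ℕ, (∀ v, g v ≤ 9) ∧ (∀ u v, A u v → g u + 2 ≤ g v ∨ g v + 2 ≤ g u) ∧
      (∀ u v, N u v → g u ≠ g v) := by
  classical
  have key : ∀ e v, E e → L v → (if E v then f v else F v) = f v := by
    intro e v _ hLv
    by_cases he : E v
    · simp [he]
    · simp only [he, if_false]
      exact hF v hLv he
  refine ⟨fun v => if E v then f v else F v, ?_, ?_, ?_⟩
  · intro v
    by_cases he : E v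
    · simp only [he, if_true]
      exact h.le v he
    · simp only [he, if_false]
      exact hle v he
  · intro u v huv
    by_cases hu : E u
    · have h1 := key u v hu (h.inv u v hu (hR.AN _ _ huv))
      have h2 := key u u hu (h.sub u hu)
      simp only [h1, h2]
      exact h.adj u v hu huv
    · by_cases hv : E v
      · have h1 := key v u hv (h.inv v u hv (hR.AN _ _ (hR.As _ _ huv)))
        have h2 := key v v hv (h.sub v hv)
        simp only [h1, h2]
        exact (h.adj v u hv (hR.As _ _ huv)).symm
      · simp only [hu, hv, if_false]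
        exact hA u v hu hv huv
  · intro u v huv
    by_cases hu : E u
    · have h1 := key u v hu (h.inv u v hu huv)
      have h2 := key u u hu (h.sub u hu)
      simp only [h1, h2]
      exact h.ne u v hu huv
    · by_cases hv : E v
      · have h1 := key v u hv (h.inv v u hv (hR.Ns _ _ huv))
        have h2 := key v v hv (h.sub v hv)
        simp only [h1, h2]
        exact (h.ne v u hv (hR.Ns _ _ huv)).symm
      · simp only [hu, hv, if_false]
        exact hN u v hu hv huv

end Pool.Agent.helper58.L9
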