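import Mathlib.Combinatorics.SimpleGraph.Basic
import Mathlib.Data.Fintype.Card
import Mathlib.Data.Finset.Sum
import Mathlib.Data.Finset.Lattice.Fold
import Mathlib.Algebra.Ring.Parity
import Mathlib.Algebra.Order.Ring.Int
import Mathlib.Tactic.Linarith
import Mathlib.Tactic.Push

/-!
# The two-sided greedy engine for L(2,1)-labellings with labels 0..9

`G` any graph on a finite set `V`, `X` a side.  The side `X` gets even labels, its complement odd
labels.  `Q u v`: distinct vertices of the same side, adjacent or with a common neighbour.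
`J` is a set without two `Q`-adjacent members; its members in `X` get the label `0`, the other ones
the label `9`.  If every nonempty set `S` of vertices outside `J`, all on the same side, contains a
vertex `v` with

`#{u ∈ S, Q u v} + (number of neighbours on the other side) + (1 if `v` has a `Q`-neighbour in `J`)
  ≤ 4`

then there is an `L(2,1)`-labelling with labels `0..9`.  Proof: the labels `0,1,...,9` are given in
stages; a stage is a greedy maximal independent set with respect to one fixed rank; a vertex outside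
`J` is rejected at most once per neighbour on the other side, once per earlier `Q`-neighbour, and
once for the whole set `J`.
-/

set_option autoImplicit false

namespace Pool.Agent.helper58.L9

open Finset
open scoped Classical

/-- greedy independent set with respect to a rank, below `n` -/
theorem greedy_aux {V : Type*} (Q : V → V → Prop) (A : V → Prop) (r : V → ℕ)
    (hs : ∀ u v, Q u v → Q v u) (hr : ∀ u v, A u → A v → Q u v → r u ≠ r v) (n : ℕ) :
    ∃ S : V → Prop, (∀ v, S v → A v ∧ r v < n) ∧ (∀ u v, S u → S v → ¬ Q u v) ∧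
      ∀ v, r v < n → A v → ¬ S v → ∃ u, S u ∧ Q u v ∧ r u < r v := by
  induction n with
  | zero =>
    refine ⟨fun _ => False, ?_, ?_, ?_⟩
    · intro v h
      exact h.elim
    · intro u v h
      exact h.elim
    · intro v h
      omega
  | succ n ih =>
    obtain ⟨S, h1, h2, h3⟩ := ih
    refine ⟨fun v => S v ∨ (r v = n ∧ A v ∧ ∀ u, S u → ¬ Q u v), ?_, ?_, ?_⟩
    · rintro v (h | h)
      · exact ⟨(h1 v h).1, by have := (h1 v h).2; omega⟩
      · exact ⟨h.2.1, by have := h.1; omega⟩
    · rintro u v (hu | hu) (hv | hv) hq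
      · exact h2 u v hu hv hq
      · exact hv.2.2 u hu hq
      · exact hu.2.2 v hv (hs _ _ hq)
      · exact hr u v hu.2.1 hv.2.1 hq (by rw [hu.1, hv.1])
    · intro v hv hA hS
      rw [not_or] at hS
      by_cases hvn : r v = n
      · have h4 : ¬ ∀ u, S u → ¬ Q u v := fun h => hS.2 ⟨hvn, hA, h⟩
        push Not at h4
        obtain ⟨u, hu, hq⟩ := h4
        exact ⟨u, Or.inl hu, hq, by have := (h1 u hu).2; omega⟩
      · obtain ⟨u, hu, hq, hlt⟩ := h3 v (by omega) hA hS.1
        exact ⟨u, Or.inl hu, hq, hlt⟩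

theorem greedy {V : Type*} [Fintype V] (Q : V → V → Prop) (A : V → Prop) (r : V → ℕ)
    (hs : ∀ u v, Q u v → Q v u) (hr : ∀ u v, A u → A v → Q u v → r u ≠ r v) :
    ∃ S : V → Prop, (∀ v, S v → A v) ∧ (∀ u v, S u → S v → ¬ Q u v) ∧
      ∀ v, A v → ¬ S v → ∃ u, S u ∧ Q u v ∧ r u < r v := by
  obtain ⟨S, h1, h2, h3⟩ := greedy_aux Q A r hs hr ((univ.sup r) + 1)
  refine ⟨S, fun v hv => (h1 v hv).1, h2, fun v hA hS => h3 v ?_ hA hS⟩
  have : r v ≤ univ.sup r := Finset.le_sup (mem_univ v)
  omega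

/-- a degenerate system has a rank -/
theorem rank_aux {V : Type*} (Q : V → V → Prop) (R : V → Prop) (g : V → ℕ)
    (h : ∀ S : Finset V, S.Nonempty → (∀ v ∈ S, R v) →
      ∃ v ∈ S, (S.filter fun u => Q u v).card < g v) (n : ℕ) :
    ∀ S : Finset V, S.card = n → (∀ v ∈ S, R v) →
      ∃ r : V → ℕ, (∀ v ∈ S, r v < n) ∧ (∀ u ∈ S, ∀ v ∈ S, r u = r v → u = v) ∧
        ∀ v ∈ S, (S.filter fun u => Q u v ∧ r u < r v).card < g v := by
  induction n with
  | zero =>
    intro S hS _
    rw [card_eq_zero] at hS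
    subst hS
    exact ⟨fun _ => 0, by simp, by simp, by simp⟩
  | succ n ih =>
    intro S hS hR
    have hne : S.Nonempty := by
      rw [← card_pos]
      omega
    obtain ⟨v, hv, hvc⟩ := h S hne hR
    obtain ⟨r, r1, r2, r3⟩ := ih (S.erase v) (by rw [card_erase_of_mem hv]; omega)
      (fun u hu => hR u (mem_of_mem_erase hu))
    refine ⟨fun u => if u = v then n else r u, ?_, ?_, ?_⟩
    · intro u hu
      by_cases huv : u = v
      · simp [huv]
      · have := r1 u (mem_erase.mpr ⟨huv, hu⟩)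
        simp only [huv, if_false]
        omega
    · intro a ha b hb hab
      by_cases hav : a = v <;> by_cases hbv : b = v
      · rw [hav, hbv]
      · have := r1 b (mem_erase.mpr ⟨hbv, hb⟩)
        simp only [hav, hbv, if_true, if_false] at hab
        omega
      · have := r1 a (mem_erase.mpr ⟨hav, ha⟩)
        simp only [hav, hbv, if_true, if_false] at hab
        omega
      · simp only [hav, hbv, if_false] at hab
        exact r2 a (mem_erase.mpr ⟨hav, ha⟩) b (mem_erase.mpr ⟨hbv, hb⟩) hab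
    · intro u hu
      by_cases huv : u = v
      · subst huv
        refine lt_of_le_of_lt (card_le_card ?_) hvc
        intro w hw
        rw [mem_filter] at hw ⊢
        exact ⟨hw.1, hw.2.1⟩
      · refine lt_of_le_of_lt (card_le_card ?_) (r3 u (mem_erase.mpr ⟨huv, hu⟩))
        intro w hw
        rw [mem_filter] at hw ⊢
        obtain ⟨hw1, hw2, hw3⟩ := hw
        have hru := r1 u (mem_erase.mpr ⟨huv, hu⟩)
        by_cases hwv : w = v
        · simp only [hwv, huv, if_true, if_false] at hw3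
          omega
        · simp only [hwv, huv, if_false] at hw3
          exact ⟨mem_erase.mpr ⟨hwv, hw1⟩, hw2, hw3⟩

section Abstract

variable {V : Type*} [Fintype V]

/-- the number of `A`-neighbours on the other side -/
noncomputable def kA (A : V → V → Prop) (X : V → Prop) (v : V) : ℕ :=
  (univ.filter fun w => A v w ∧ ¬ (X w ↔ X v)).card

/-- available at stage `s` -/
def Av (A Q : V → V → Prop) (X J : V → Prop) (S : ℕ → V → Prop) (s : ℕ) (v : V) : Prop :=
  ¬ J v ∧ (X v ↔ Even s) ∧ (∀ t, t < s → ¬ S t v) ∧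
    (∀ w, A v w → ∀ t, t + 1 = s → ¬ S t w) ∧
    (s = 1 ∨ s = 8 → ∀ w, A v w → J w → (X w ↔ X v)) ∧
    (s = 0 ∨ s = 9 → ∀ w, Q w v → ¬ J w)

omit [Fintype V] in
theorem Av_congr (A Q : V → V → Prop) (X J : V → Prop) {S S' : ℕ → V → Prop} {s : ℕ}
    (h : ∀ t, t < s → S t = S' t) (v : V) : Av A Q X J S s v ↔ Av A Q X J S' s v := by
  unfold Av
  have e1 : (∀ t, t < s → ¬ S t v) ↔ (∀ t, t < s → ¬ S' t v) := by
    constructor
    · intro a t ht
      rw [← h t ht]
      exact a t ht
    · intro a t ht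
      rw [h t ht]
      exact a t ht
  have e2 : (∀ w, A v w → ∀ t, t + 1 = s → ¬ S t w) ↔
      (∀ w, A v w → ∀ t, t + 1 = s → ¬ S' t w) := by
    constructor
    · intro a w hw t ht
      rw [← h t (by omega)]
      exact a w hw t ht
    · intro a w hw t ht
      rw [h t (by omega)]
      exact a w hw t ht
  rw [e1, e2]

/-- the sequence of stages -/
theorem stages (A Q : V → V → Prop) (X J : V → Prop) (hQs : ∀ u v, Q u v → Q v u) (r : V → ℕ)
    (hr : ∀ u v, ¬ J u → ¬ J v → Q u v → r u ≠ r v) (n : ℕ) :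
    ∃ S : ℕ → V → Prop, ∀ s, s < n → (∀ v, S s v → Av A Q X J S s v) ∧
      (∀ u v, S s u → S s v → ¬ Q u v) ∧
      ∀ v, Av A Q X J S s v → ¬ S s v → ∃ u, S s u ∧ Q u v ∧ r u < r v := by
  induction n with
  | zero => exact ⟨fun _ _ => False, by intro s hs; omega⟩
  | succ n ih =>
    obtain ⟨S, hS⟩ := ih
    obtain ⟨T, t1, t2, t3⟩ := greedy Q (Av A Q X J S n) r hQs
      (fun u v hu hv hq => hr u v hu.1 hv.1 hq)
    refine ⟨fun t => if t = n then T else S t, ?_⟩
    intro s hs
    have hcong : ∀ v, Av A Q X J (fun t => if t = n then T else S t) s v ↔ Av A Q X J S s v := by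
      intro v
      refine Av_congr A Q X J (fun t ht => ?_) v
      have : t ≠ n := by omega
      simp [this]
    by_cases hsn : s = n
    · subst hsn
      simp only [if_true]
      refine ⟨fun v hv => (hcong v).mpr (t1 v hv), t2, fun v hv => t3 v ((hcong v).mp hv)⟩
    · obtain ⟨a1, a2, a3⟩ := hS s (by omega)
      simp only [hsn, if_false]
      refine ⟨fun v hv => (hcong v).mpr (a1 v hv), a2, fun v hv => a3 v ((hcong v).mp hv)⟩

/-- **The abstract engine.** -/
theorem engine_abs (A Q : V → V → Prop) (X J : V → Prop)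
    (hAs : ∀ u v, A u v → A v u) (hQs : ∀ u v, Q u v → Q v u) (hQne : ∀ v, ¬ Q v v)
    (hQX : ∀ u v, Q u v → (X u ↔ X v)) (hAQ : ∀ u v, A u v → (X u ↔ X v) → Q u v)
    (hJ : ∀ u v, J u → J v → ¬ Q u v)
    (hdeg : ∀ S : Finset V, S.Nonempty → (∀ v ∈ S, ¬ J v) → (∀ u ∈ S, ∀ v ∈ S, (X u ↔ X v)) →
      ∃ v ∈ S, (S.filter fun u => Q u v).card + kA A X v +
        (if ∃ w, J w ∧ Q w v then 1 else 0) ≤ 4) :
    ∃ f : V → ℕ, (∀ v, f v ≤ 9) ∧ (∀ v, (X v ↔ Even (f v))) ∧
      (∀ u v, A u v → 2 ≤ |(f u : ℤ) - (f v : ℤ)|) ∧ (∀ u v, Q u v → f u ≠ f v) := by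
  -- the rank
  have hdeg2 : ∀ S : Finset V, S.Nonempty → (∀ v ∈ S, ¬ J v) →
      ∃ v ∈ S, (S.filter fun u => Q u v).card <
        5 - (kA A X v + (if ∃ w, J w ∧ Q w v then 1 else 0)) := by
    intro S hne hSJ
    obtain ⟨a, ha⟩ := hne
    obtain ⟨v, hv, hvc⟩ := hdeg (S.filter fun u => (X u ↔ X a)) ⟨a, by simp [ha]⟩
      (fun v hv => hSJ v (mem_filter.mp hv).1)
      (fun u hu v hv => ((mem_filter.mp hu).2).trans ((mem_filter.mp hv).2).symm)
    rw [mem_filter] at hv
    refine ⟨v, hv.1, ?_⟩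
    have e : S.filter (fun u => Q u v) =
        (S.filter fun u => (X u ↔ X a)).filter (fun u => Q u v) := by
      ext u
      simp only [mem_filter]
      constructor
      · rintro ⟨h1, h2⟩
        exact ⟨⟨h1, (hQX u v h2).trans hv.2⟩, h2⟩
      · rintro ⟨⟨h1, _⟩, h2⟩
        exact ⟨h1, h2⟩
    rw [e]
    omega
  obtain ⟨r, -, r2, r3⟩ := rank_aux Q (fun v => ¬ J v)
    (fun v => 5 - (kA A X v + (if ∃ w, J w ∧ Q w v then 1 else 0))) hdeg2 _
    (univ.filter fun v => ¬ J v) rfl (fun v hv => (mem_filter.mp hv).2)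
  have hinj : ∀ u v, ¬ J u → ¬ J v → Q u v → r u ≠ r v := by
    intro u v hu hv hq he
    have := r2 u (by simp [hu]) v (by simp [hv]) he
    rw [this] at hq
    exact hQne v hq
  obtain ⟨S, hS⟩ := stages A Q X J hQs r hinj 10
  -- at most one stage
  have huniq : ∀ s t v, s < 10 → t < 10 → S s v → S t v → s = t := by
    intro s t v hs ht h1 h2
    rcases lt_trichotomy s t with h | h | h
    · exact absurd h1 (((hS t ht).1 v h2).2.2.1 s h)
    · exact h
    · exact absurd h2 (((hS s hs).1 v h1).2.2.1 t h)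
  -- every vertex outside `J` is labelled
  have hall : ∀ v, ¬ J v → ∃ s, s < 10 ∧ S s v := by
    intro v hv
    by_contra hno
    push Not at hno
    set b : ℕ := if X v then 0 else 1 with hb
    set tok : ℕ := if X v then 0 else 9 with htok
    have hpar : ∀ i : ℕ, (X v ↔ Even (2 * i + b)) := by
      intro i
      by_cases hX : X v
      · simp [hb, hX]
      · simp only [hb, hX, if_false, false_iff]
        rw [Nat.not_even_iff_odd]
        exact ⟨i, rfl⟩
    -- reasons
    have hreason : ∀ i : ℕ, i < 5 →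
        (∃ w, A v w ∧ ¬ (X w ↔ X v) ∧
          ((∃ t, t < 10 ∧ t + 1 = 2 * i + b ∧ S t w) ∨
            (J w ∧ (2 * i + b = 1 ∨ 2 * i + b = 8)))) ∨
        (∃ u, S (2 * i + b) u ∧ Q u v ∧ r u < r v ∧ ¬ J u) ∨
        ((∃ w, J w ∧ Q w v) ∧ 2 * i + b = tok) := by
      intro i hi
      have hlt : 2 * i + b < 10 := by
        have : b ≤ 1 := by
          rw [hb]
          split_ifs <;> omega
        omega
      have hns := hno _ hlt
      by_cases hav : Av A Q X J S (2 * i + b) v
      · obtain ⟨u, h1, h2, h3⟩ := (hS _ hlt).2.2 v hav hns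
        exact Or.inr (Or.inl ⟨u, h1, h2, h3, ((hS _ hlt).1 u h1).1⟩)
      · by_cases c1 : ∀ w, A v w → ∀ t, t + 1 = 2 * i + b → ¬ S t w
        · by_cases c2 : (2 * i + b = 1 ∨ 2 * i + b = 8 → ∀ w, A v w → J w → (X w ↔ X v))
          · by_cases c3 : (2 * i + b = 0 ∨ 2 * i + b = 9 → ∀ w, Q w v → ¬ J w)
            · exact absurd ⟨hv, hpar i, fun t ht => hno t (by omega), c1, c2, c3⟩ hav
            · push Not at c3
              obtain ⟨h1, w, h2, h3⟩ := c3
              refine Or.inr (Or.inr ⟨⟨w, h3, h2⟩, ?_⟩)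
              by_cases hX : X v
              · simp only [htok, hX, if_true]
                simp only [hb, hX, if_true] at h1 ⊢
                omega
              · simp only [htok, hX, if_false]
                simp only [hb, hX, if_false] at h1 ⊢
                omega
          · push Not at c2
            obtain ⟨h1, w, h2, h3, h4⟩ := c2
            refine Or.inl ⟨w, h2, ?_, Or.inr ⟨h3, h1⟩⟩
            tauto
        · push Not at c1
          obtain ⟨w, h1, t, h2, h3⟩ := c1
          refine Or.inl ⟨w, h1, ?_, Or.inl ⟨t, by omega, h2, h3⟩⟩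
          have p1 := ((hS t (by omega)).1 w h3).2.1
          have p2 := hpar i
          rw [← h2, Nat.even_add_one] at p2
          intro hc
          tauto
    -- pigeonhole
    have hex : ∀ i : ℕ, ∃ x : V ⊕ V ⊕ Unit, i < 5 →
        (∃ w, x = Sum.inl w ∧ A v w ∧ ¬ (X w ↔ X v) ∧
          ((∃ t, t < 10 ∧ t + 1 = 2 * i + b ∧ S t w) ∨
            (J w ∧ (2 * i + b = 1 ∨ 2 * i + b = 8)))) ∨
        (∃ u, x = Sum.inr (Sum.inl u) ∧ S (2 * i + b) u ∧ Q u v ∧ r u < r v ∧ ¬ J u) ∨
        (x = Sum.inr (Sum.inr ()) ∧ (∃ w, J w ∧ Q w v) ∧ 2 * i + b = tok) := by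
      intro i
      by_cases hi : i < 5
      · rcases hreason i hi with ⟨w, hw⟩ | ⟨u, hu⟩ | h
        · exact ⟨Sum.inl w, fun _ => Or.inl ⟨w, rfl, hw⟩⟩
        · exact ⟨Sum.inr (Sum.inl u), fun _ => Or.inr (Or.inl ⟨u, rfl, hu⟩)⟩
        · exact ⟨Sum.inr (Sum.inr ()), fun _ => Or.inr (Or.inr ⟨rfl, h⟩)⟩
      · exact ⟨Sum.inl v, fun h => absurd h hi⟩
    choose φ hφ using hex
    have hcard := card_le_card_of_injOn (s := range 5)
      (t := (univ.filter fun w => A v w ∧ ¬ (X w ↔ X v)).disjSum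
        (((univ.filter fun u => ¬ J u).filter fun u => Q u v ∧ r u < r v).disjSum
          (if ∃ w, J w ∧ Q w v then {()} else ∅))) φ ?_ ?_
    · rw [card_range, card_disjSum, card_disjSum] at hcard
      have h3 := r3 v (by simp [hv])
      have h4 : (if ∃ w, J w ∧ Q w v then ({()} : Finset Unit) else ∅).card =
          (if ∃ w, J w ∧ Q w v then 1 else 0) := by
        split_ifs <;> simp
      rw [h4] at hcard
      unfold kA at h3
      omega
    · intro i hi
      rw [mem_coe, mem_range] at hi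
      rw [mem_coe, mem_disjSum]
      rcases hφ i hi with ⟨w, h1, h2, h3, _⟩ | ⟨u, h1, _, h3, h4, h5⟩ | ⟨h1, h2, _⟩
      · exact Or.inl ⟨w, by simp [h2, h3], h1.symm⟩
      · refine Or.inr ⟨Sum.inl u, ?_, h1.symm⟩
        rw [mem_disjSum]
        exact Or.inl ⟨u, by simp [h3, h4, h5], rfl⟩
      · refine Or.inr ⟨Sum.inr (), ?_, h1.symm⟩
        rw [mem_disjSum]
        exact Or.inr ⟨(), by simp [h2], rfl⟩
    · intro i hi j hj hij
      rw [mem_coe, mem_range] at hi hj
      have hb1 : b ≤ 1 := by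
        rw [hb]
        split_ifs <;> omega
      rcases hφ i hi with ⟨w, h1, h2, h3, h4⟩ | ⟨u, h1, h2, h3, h4, h5⟩ | ⟨h1, h2, h3⟩ <;>
      rcases hφ j hj with ⟨w', k1, k2, k3, k4⟩ | ⟨u', k1, k2, k3, k4, k5⟩ | ⟨k1, k2, k3⟩ <;>
      rw [h1, k1] at hij
      · have hw : w = w' := Sum.inl.inj hij
        subst hw
        rcases h4 with ⟨t, t1, t2, t3⟩ | ⟨j1, j2⟩ <;> rcases k4 with ⟨t', t1', t2', t3'⟩ | ⟨j1', j2'⟩
        · have := huniq t t' w t1 t1' t3 t3'
          omega
        · exact absurd j1' ((hS t t1).1 w t3).1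
        · exact absurd j1 ((hS t' t1').1 w t3').1
        · omega
      · cases hij
      · cases hij
      · cases hij
      · have hu : u = u' := Sum.inl.inj (Sum.inr.inj hij)
        subst hu
        have := huniq _ _ u (by omega) (by omega) h2 k2
        omega
      · cases hij
      · cases hij
      · cases hij
      · omega
  -- the labelling
  have hlab : ∀ v, ∃ s : ℕ, (J v ∧ X v ∧ s = 0) ∨ (J v ∧ ¬ X v ∧ s = 9) ∨
      (¬ J v ∧ s < 10 ∧ S s v) := by
    intro v
    by_cases hv : J v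
    · by_cases hX : X v
      · exact ⟨0, Or.inl ⟨hv, hX, rfl⟩⟩
      · exact ⟨9, Or.inr (Or.inl ⟨hv, hX, rfl⟩)⟩
    · obtain ⟨s, h1, h2⟩ := hall v hv
      exact ⟨s, Or.inr (Or.inr ⟨hv, h1, h2⟩)⟩
  choose f hf using hlab
  have hle : ∀ v, f v ≤ 9 := by
    intro v
    rcases hf v with h | h | h <;> omega
  have hpar : ∀ v, (X v ↔ Even (f v)) := by
    intro v
    rcases hf v with ⟨_, h2, h3⟩ | ⟨_, h2, h3⟩ | ⟨_, h2, h3⟩
    · rw [h3]
      simp [h2]
    · rw [h3]
      simp only [h2, false_iff]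
      decide
    · exact ((hS _ h2).1 v h3).2.1
  -- Q-adjacent vertices get different labels
  have hQ : ∀ u v, Q u v → f u ≠ f v := by
    have main : ∀ u v, Q u v → f u = f v → J u → False := by
      intro u v hq he hu
      have hv : ¬ J v := fun hv => hJ u v hu hv hq
      rcases hf v with h | h | ⟨_, h2, h3⟩
      · exact hv h.1
      · exact hv h.1
      · have hav := (hS _ h2).1 v h3
        have h09 : f v = 0 ∨ f v = 9 := by
          rcases hf u with h | h | h
          · left
            rw [← he]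
            exact h.2.2
          · right
            rw [← he]
            exact h.2.2
          · exact absurd hu h.1
        exact hav.2.2.2.2.2 h09 u hq hu
    intro u v hq he
    by_cases hu : J u
    · exact main u v hq he hu
    · by_cases hv : J v
      · exact main v u (hQs _ _ hq) he.symm hv
      · rcases hf u with h | h | ⟨_, h2, h3⟩
        · exact hu h.1
        · exact hu h.1
        · rcases hf v with k | k | ⟨_, k2, k3⟩
          · exact hv k.1
          · exact hv k.1
          · rw [← he] at k3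
            exact (hS _ h2).2.1 u v h3 k3 hq
  -- adjacent vertices on different sides
  have hcross : ∀ u v, A u v → ¬ (X u ↔ X v) → f u + 1 ≠ f v := by
    intro u v hadj hX he
    rcases hf v with ⟨_, _, h3⟩ | ⟨h1, h2, h3⟩ | ⟨_, h2, h3⟩
    · omega
    · have hu8 : f u = 8 := by omega
      rcases hf u with ⟨_, _, k3⟩ | ⟨_, _, k3⟩ | ⟨_, k2, k3⟩
      · omega
      · omega
      · have hav := (hS _ k2).1 u k3
        exact hX (hav.2.2.2.2.1 (Or.inr hu8) v hadj h1).symm
    · have hav := (hS _ h2).1 v h3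
      rcases hf u with ⟨k1, _, k3⟩ | ⟨_, _, k3⟩ | ⟨_, k2, k3⟩
      · exact hX (hav.2.2.2.2.1 (Or.inl (by omega)) u (hAs _ _ hadj) k1)
      · omega
      · exact hav.2.2.2.1 u (hAs _ _ hadj) (f u) he k3
  refine ⟨f, hle, hpar, ?_, hQ⟩
  · intro u v hadj
    by_cases hX : X u ↔ X v
    · have h1 : f u ≠ f v := hQ u v (hAQ u v hadj hX)
      have h2 : Even (f u) ↔ Even (f v) := (hpar u).symm.trans (hX.trans (hpar v))
      rw [Nat.even_iff, Nat.even_iff] at h2
      have : f u + 2 ≤ f v ∨ f v + 2 ≤ f u := by omega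
      rcases this with h | h
      · rw [abs_sub_comm, le_abs]
        left
        have : ((f u + 2 : ℕ) : ℤ) ≤ ((f v : ℕ) : ℤ) := by exact_mod_cast h
        push_cast at this
        linarith
      · rw [le_abs]
        left
        have : ((f v + 2 : ℕ) : ℤ) ≤ ((f u : ℕ) : ℤ) := by exact_mod_cast h
        push_cast at this
        linarith
    · have h1 := hcross u v hadj hX
      have h2 := hcross v u (hAs _ _ hadj) (fun h => hX h.symm)
      have h3 : ¬ (Even (f u) ↔ Even (f v)) := by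
        rw [← hpar u, ← hpar v]
        exact hX
      have h4 : f u ≠ f v := by
        intro h
        rw [h] at h3
        exact h3 Iff.rfl
      have : f u + 2 ≤ f v ∨ f v + 2 ≤ f u := by omega
      rcases this with h | h
      · rw [abs_sub_comm, le_abs]
        left
        have : ((f u + 2 : ℕ) : ℤ) ≤ ((f v : ℕ) : ℤ) := by exact_mod_cast h
        push_cast at this
        linarith
      · rw [le_abs]
        left
        have : ((f v + 2 : ℕ) : ℤ) ≤ ((f u : ℕ) : ℤ) := by exact_mod_cast h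
        push_cast at this
        linarith

end Abstract

variable {V : Type*} [Fintype V]

/-- same side, distinct, at distance one or two -/
def Q (G : SimpleGraph V) (X : V → Prop) (u v : V) : Prop :=
  u ≠ v ∧ (X u ↔ X v) ∧ (G.Adj u v ∨ ∃ w, G.Adj u w ∧ G.Adj w v)

omit [Fintype V] in
theorem Q_symm {G : SimpleGraph V} {X : V → Prop} {u v : V} (h : Q G X u v) : Q G X v u := by
  obtain ⟨h1, h2, h3⟩ := h
  refine ⟨h1.symm, h2.symm, ?_⟩
  rcases h3 with h3 | ⟨w, h3, h4⟩
  · exact Or.inl h3.symm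
  · exact Or.inr ⟨w, h4.symm, h3.symm⟩

/-- the number of neighbours on the other side -/
noncomputable def kk (G : SimpleGraph V) (X : V → Prop) (v : V) : ℕ :=
  (univ.filter fun w => G.Adj v w ∧ ¬ (X w ↔ X v)).card

/-- the number of neighbours in `W` on the other side -/
noncomputable def kkW (G : SimpleGraph V) (X W : V → Prop) (v : V) : ℕ :=
  (univ.filter fun w => W w ∧ G.Adj v w ∧ ¬ (X w ↔ X v)).card

/-- **The engine** with a set `W` of vertices to be labelled (the vertices outside `W` are left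
unlabelled; conflicts at distance two through vertices outside `W` are respected). -/
theorem engineW (G : SimpleGraph V) (X J W : V → Prop)
    (hJ : ∀ u v, J u → J v → ¬ Q G X u v)
    (hdeg : ∀ S : Finset V, S.Nonempty → (∀ v ∈ S, ¬ J v) → (∀ v ∈ S, W v) →
      (∀ u ∈ S, ∀ v ∈ S, (X u ↔ X v)) →
      ∃ v ∈ S, (S.filter fun u => Q G X u v).card + kkW G X W v +
        (if ∃ w, J w ∧ Q G X w v then 1 else 0) ≤ 4) :
    ∃ f : V → ℕ, (∀ v, W v → f v ≤ 9) ∧ (∀ v, W v → (X v ↔ Even (f v))) ∧
      (∀ u v, W u → W v → G.Adj u v → 2 ≤ |(f u : ℤ) - (f v : ℤ)|) ∧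
      (∀ u v w, W u → W v → u ≠ v → G.Adj u w → G.Adj w v → f u ≠ f v) := by
  have key := engine_abs (V := {v : V // W v}) (fun u v => G.Adj u.1 v.1)
    (fun u v => Q G X u.1 v.1) (fun v => X v.1) (fun v => J v.1)
    (fun _ _ h => h.symm) (fun _ _ h => Q_symm h) (fun v h => h.1 rfl) (fun _ _ h => h.2.1)
    (fun u v h hX => ⟨h.ne, hX, Or.inl h⟩) (fun u v hu hv => hJ u.1 v.1 hu hv) ?_
  · obtain ⟨f, f1, f2, f3, f4⟩ := key
    refine ⟨fun v => if h : W v then f ⟨v, h⟩ else 0, ?_, ?_, ?_, ?_⟩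
    · intro v hv
      simp only [hv, dif_pos]
      exact f1 _
    · intro v hv
      simp only [hv, dif_pos]
      exact f2 ⟨v, hv⟩
    · intro u v hu hv h
      simp only [hu, hv, dif_pos]
      exact f3 ⟨u, hu⟩ ⟨v, hv⟩ h
    · intro u v w hu hv huv h1 h2
      simp only [hu, hv, dif_pos]
      by_cases hX : X u ↔ X v
      · exact f4 ⟨u, hu⟩ ⟨v, hv⟩ ⟨huv, hX, Or.inr ⟨w, h1, h2⟩⟩
      · intro h
        apply hX
        have e1 := f2 ⟨u, hu⟩
        have e2 := f2 ⟨v, hv⟩
        rw [h] at e1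
        exact e1.trans e2.symm
  · intro S hne hSJ hSX
    obtain ⟨v, hv, hvc⟩ := hdeg (S.map (Function.Embedding.subtype _)) (by simpa using hne)
      (by
        intro v hv
        rw [mem_map] at hv
        obtain ⟨a, ha, rfl⟩ := hv
        exact hSJ a ha)
      (by
        intro v hv
        rw [mem_map] at hv
        obtain ⟨a, ha, rfl⟩ := hv
        exact a.2)
      (by
        intro u hu v hv
        rw [mem_map] at hu hv
        obtain ⟨a, ha, rfl⟩ := hu
        obtain ⟨b, hb, rfl⟩ := hv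
        exact hSX a ha b hb)
    rw [mem_map] at hv
    obtain ⟨a, ha, rfl⟩ := hv
    refine ⟨a, ha, le_trans ?_ hvc⟩
    have e1 : (S.filter fun u => Q G X u.1 a.1).card =
        ((S.map (Function.Embedding.subtype _)).filter fun u =>
          Q G X u ((Function.Embedding.subtype _) a)).card := by
      rw [filter_map, card_map]
      rfl
    have e2 : kA (fun u v : {v : V // W v} => G.Adj u.1 v.1) (fun v => X v.1) a =
        kkW G X W ((Function.Embedding.subtype _) a) := by
      unfold kA kkW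
      rw [← card_map (Function.Embedding.subtype _)]
      congr 1
      ext w
      rw [mem_map, mem_filter]
      constructor
      · rintro ⟨b, hb, rfl⟩
        rw [mem_filter] at hb
        exact ⟨mem_univ _, b.2, hb.2⟩
      · rintro ⟨_, hw, h⟩
        exact ⟨⟨w, hw⟩, by rw [mem_filter]; exact ⟨mem_univ _, h⟩, rfl⟩
    have e3 : (if ∃ w : {v : V // W v}, J w.1 ∧ Q G X w.1 a.1 then 1 else 0) ≤
        (if ∃ w, J w ∧ Q G X w ((Function.Embedding.subtype _) a) then 1 else 0) := by
      by_cases h : ∃ w : {v : V // W v}, J w.1 ∧ Q G X w.1 a.1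
      · obtain ⟨w, hw⟩ := h
        rw [if_pos (show ∃ w : {v : V // W v}, J w.1 ∧ Q G X w.1 a.1 from ⟨w, hw⟩),
          if_pos (show ∃ w, J w ∧ Q G X w ((Function.Embedding.subtype _) a) from ⟨w.1, hw⟩)]
      · rw [if_neg h]
        omega
    rw [e1, e2]
    omega

/-- **The engine.** -/
theorem engine (G : SimpleGraph V) (X J : V → Prop)
    (hJ : ∀ u v, J u → J v → ¬ Q G X u v)
    (hdeg : ∀ S : Finset V, S.Nonempty → (∀ v ∈ S, ¬ J v) → (∀ u ∈ S, ∀ v ∈ S, (X u ↔ X v)) →
      ∃ v ∈ S, (S.filter fun u => Q G X u v).card + kk G X v +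
        (if ∃ w, J w ∧ Q G X w v then 1 else 0) ≤ 4) :
    ∃ f : V → ℕ, (∀ v, f v ≤ 9) ∧
      (∀ u v, G.Adj u v → 2 ≤ |(f u : ℤ) - (f v : ℤ)|) ∧
      (∀ u v w, u ≠ v → G.Adj u w → G.Adj w v → f u ≠ f v) := by
  obtain ⟨f, f1, f2, f3, f4⟩ := engine_abs G.Adj (Q G X) X J (fun _ _ h => h.symm)
    (fun _ _ h => Q_symm h) (fun v h => h.1 rfl) (fun _ _ h => h.2.1)
    (fun u v h hX => ⟨h.ne, hX, Or.inl h⟩) hJ hdeg
  refine ⟨f, f1, f3, ?_⟩
  intro u v w huv h1 h2
  by_cases hX : X u ↔ X v
  · exact f4 u v ⟨huv, hX, Or.inr ⟨w, h1, h2⟩⟩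
  · intro h
    apply hX
    rw [f2 u, f2 v, h]

end Pool.Agent.helper58.L9
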