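import Pool.Agent.helper58.L9.Engine

/-!
# The two-sided greedy engine with static lists, artificial pairs and an unlabelled rest

`A` symmetric (adjacency), `Q` symmetric, only between vertices of one side, `X` the side, `W` the
set of vertices to be labelled, `J ⊆ W` prelabelled (`0` on `X`, `9` on the other side),
`Fb v` a list of forbidden labels of `v`.  If every nonempty set `S` of vertices of `W` outside `J`,
all on the same side, contains a vertex `v` with

`#{u ∈ S, Q u v} + #(neighbours in W on the other side) + #(Fb v ∩ labels of the side)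
  + (1 if v has a Q-neighbour in J) ≤ 4`

then `W` has a labelling in parity.
-/

set_option autoImplicit false

namespace Pool.Agent.helper58.L9

open Finset
open scoped Classical

variable {V : Type*}

/-- the labels of the side of `v` -/
noncomputable def labsP (X : V → Prop) (v : V) : Finset ℕ :=
  (range 10).filter fun l => (X v ↔ Even l)

/-- available at stage `s` -/
def AvF (A Q : V → V → Prop) (X J W : V → Prop) (Fb : V → Finset ℕ) (S : ℕ → V → Prop) (s : ℕ)
    (v : V) : Prop :=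
  (W v ∧ ¬ J v ∧ s ∉ Fb v) ∧ (X v ↔ Even s) ∧ (∀ t, t < s → ¬ S t v) ∧
    (∀ w, A v w → ∀ t, t + 1 = s → ¬ S t w) ∧
    (s = 1 ∨ s = 8 → ∀ w, A v w → J w → (X w ↔ X v)) ∧
    (s = 0 ∨ s = 9 → ∀ w, Q w v → ¬ J w)

theorem AvF_congr (A Q : V → V → Prop) (X J W : V → Prop) (Fb : V → Finset ℕ)
    {S S' : ℕ → V → Prop} {s : ℕ}
    (h : ∀ t, t < s → S t = S' t) (v : V) : AvF A Q X J W Fb S s v ↔ AvF A Q X J W Fb S' s v := by
  unfold AvF
  have e1 : (∀ t, t < s → ¬ S t v) ↔ (∀ t, t < s → ¬ S' t v) := by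
    constructor
    · intro a t ht
      rw [← h t ht]
      exact a t ht
    · intro a t ht
      rw [h t ht]
      exact a t ht
  have e2 : (∀ w, A v w → ∀ t, t + 1 = s → ¬ S t w) ↔
      (∀ w, A v w → ∀ t, t + 1 = s → ¬ S' t w) := by
    constructor
    · intro a w hw t ht
      rw [← h t (by omega)]
      exact a w hw t ht
    · intro a w hw t ht
      rw [h t (by omega)]
      exact a w hw t ht
  rw [e1, e2]

/-- the sequence of stages -/
theorem stagesF [Fintype V] (A Q : V → V → Prop) (X J W : V → Prop) (Fb : V → Finset ℕ)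
    (hQs : ∀ u v, Q u v → Q v u) (r : V → ℕ)
    (hr : ∀ u v, W u → W v → ¬ J u → ¬ J v → Q u v → r u ≠ r v) (n : ℕ) :
    ∃ S : ℕ → V → Prop, ∀ s, s < n → (∀ v, S s v → AvF A Q X J W Fb S s v) ∧
      (∀ u v, S s u → S s v → ¬ Q u v) ∧
      ∀ v, AvF A Q X J W Fb S s v → ¬ S s v → ∃ u, S s u ∧ Q u v ∧ r u < r v := by
  induction n with
  | zero => exact ⟨fun _ _ => False, by intro s hs; omega⟩
  | succ n ih =>
    obtain ⟨S, hS⟩ := ih
    obtain ⟨T, t1, t2, t3⟩ := greedy Q (AvF A Q X J W Fb S n) r hQs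
      (fun u v hu hv hq => hr u v hu.1.1 hv.1.1 hu.1.2.1 hv.1.2.1 hq)
    refine ⟨fun t => if t = n then T else S t, ?_⟩
    intro s hs
    have hcong : ∀ v, AvF A Q X J W Fb (fun t => if t = n then T else S t) s v ↔
        AvF A Q X J W Fb S s v := by
      intro v
      refine AvF_congr A Q X J W Fb (fun t ht => ?_) v
      have : t ≠ n := by omega
      simp [this]
    by_cases hsn : s = n
    · subst hsn
      simp only [if_true]
      refine ⟨fun v hv => (hcong v).mpr (t1 v hv), t2, fun v hv => t3 v ((hcong v).mp hv)⟩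
    · obtain ⟨a1, a2, a3⟩ := hS s (by omega)
      simp only [hsn, if_false]
      refine ⟨fun v hv => (hcong v).mpr (a1 v hv), a2, fun v hv => a3 v ((hcong v).mp hv)⟩

/-- **The engine with static lists.** -/
theorem engineF [Fintype V] (A Q : V → V → Prop) (X J W : V → Prop) (Fb : V → Finset ℕ)
    (hAs : ∀ u v, A u v → A v u) (hQs : ∀ u v, Q u v → Q v u) (hQne : ∀ v, ¬ Q v v)
    (hQX : ∀ u v, Q u v → (X u ↔ X v)) (hJW : ∀ v, J v → W v)
    (hJ : ∀ u v, J u → J v → ¬ Q u v)
    (hJ0 : ∀ v, J v → X v → 0 ∉ Fb v) (hJ9 : ∀ v, J v → ¬ X v → 9 ∉ Fb v)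
    (hdeg : ∀ S : Finset V, S.Nonempty → (∀ v ∈ S, W v) → (∀ v ∈ S, ¬ J v) →
      (∀ u ∈ S, ∀ v ∈ S, (X u ↔ X v)) →
      ∃ v ∈ S, (S.filter fun u => Q u v).card +
        (univ.filter fun w => W w ∧ A v w ∧ ¬ (X w ↔ X v)).card +
        (labsP X v ∩ Fb v).card +
        (if ∃ w, J w ∧ Q w v then 1 else 0) ≤ 4) :
    ∃ f : V → ℕ, (∀ v, W v → f v ≤ 9) ∧ (∀ v, W v → (X v ↔ Even (f v))) ∧
      (∀ v, W v → f v ∉ Fb v) ∧ (∀ v, J v → X v → f v = 0) ∧ (∀ v, J v → ¬ X v → f v = 9) ∧
      (∀ u v, W u → W v → Q u v → f u ≠ f v) ∧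
      (∀ u v, W u → W v → A u v → ¬ (X u ↔ X v) → f u + 1 ≠ f v) := by
  set c : V → ℕ := fun v => (univ.filter fun w => W w ∧ A v w ∧ ¬ (X w ↔ X v)).card +
        (labsP X v ∩ Fb v).card +
        (if ∃ w, J w ∧ Q w v then 1 else 0) with hc
  -- the rank
  have hdeg2 : ∀ S : Finset V, S.Nonempty → (∀ v ∈ S, W v ∧ ¬ J v) →
      ∃ v ∈ S, (S.filter fun u => Q u v).card < 5 - c v := by
    intro S hne hSJ
    obtain ⟨a, ha⟩ := hne
    obtain ⟨v, hv, hvc⟩ := hdeg (S.filter fun u => (X u ↔ X a)) ⟨a, by simp [ha]⟩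
      (fun v hv => (hSJ v (mem_filter.mp hv).1).1)
      (fun v hv => (hSJ v (mem_filter.mp hv).1).2)
      (fun u hu v hv => ((mem_filter.mp hu).2).trans ((mem_filter.mp hv).2).symm)
    rw [mem_filter] at hv
    refine ⟨v, hv.1, ?_⟩
    have e : S.filter (fun u => Q u v) =
        (S.filter fun u => (X u ↔ X a)).filter (fun u => Q u v) := by
      ext u
      simp only [mem_filter]
      constructor
      · rintro ⟨h1, h2⟩
        exact ⟨⟨h1, (hQX u v h2).trans hv.2⟩, h2⟩
      · rintro ⟨⟨h1, _⟩, h2⟩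
        exact ⟨h1, h2⟩
    rw [e]
    simp only [hc]
    omega
  obtain ⟨r, -, r2, r3⟩ := rank_aux Q (fun v => W v ∧ ¬ J v) (fun v => 5 - c v) hdeg2 _
    (univ.filter fun v => W v ∧ ¬ J v) rfl (fun v hv => (mem_filter.mp hv).2)
  have hinj : ∀ u v, W u → W v → ¬ J u → ¬ J v → Q u v → r u ≠ r v := by
    intro u v hu hv hu' hv' hq he
    have := r2 u (by simp [hu, hu']) v (by simp [hv, hv']) he
    rw [this] at hq
    exact hQne v hq
  obtain ⟨S, hS⟩ := stagesF A Q X J W Fb hQs r hinj 10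
  -- at most one stage
  have huniq : ∀ s t v, s < 10 → t < 10 → S s v → S t v → s = t := by
    intro s t v hs ht h1 h2
    rcases lt_trichotomy s t with h | h | h
    · exact absurd h1 (((hS t ht).1 v h2).2.2.1 s h)
    · exact h
    · exact absurd h2 (((hS s hs).1 v h1).2.2.1 t h)
  -- every vertex outside `J` is labelled
  have hall : ∀ v, W v → ¬ J v → ∃ s, s < 10 ∧ S s v := by
    intro v hvW hv
    by_contra hno
    push Not at hno
    set b : ℕ := if X v then 0 else 1 with hb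
    set tok : ℕ := if X v then 0 else 9 with htok
    have hpar : ∀ i : ℕ, (X v ↔ Even (2 * i + b)) := by
      intro i
      by_cases hX : X v
      · simp [hb, hX]
      · simp only [hb, hX, if_false, false_iff]
        rw [Nat.not_even_iff_odd]
        exact ⟨i, rfl⟩
    -- reasons
    have hreason : ∀ i : ℕ, i < 5 →
        (∃ w, W w ∧ A v w ∧ ¬ (X w ↔ X v) ∧
          ((∃ t, t < 10 ∧ t + 1 = 2 * i + b ∧ S t w) ∨
            (J w ∧ (2 * i + b = 1 ∨ 2 * i + b = 8)))) ∨
        (∃ u, S (2 * i + b) u ∧ Q u v ∧ r u < r v ∧ W u ∧ ¬ J u) ∨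
        ((∃ w, J w ∧ Q w v) ∧ 2 * i + b = tok) ∨ 2 * i + b ∈ labsP X v ∩ Fb v := by
      intro i hi
      have hlt : 2 * i + b < 10 := by
        have : b ≤ 1 := by
          rw [hb]
          split_ifs <;> omega
        omega
      have hns := hno _ hlt
      by_cases hfb : 2 * i + b ∈ Fb v
      · refine Or.inr (Or.inr (Or.inr ?_))
        rw [mem_inter]
        refine ⟨?_, hfb⟩
        unfold labsP
        rw [mem_filter, mem_range]
        exact ⟨hlt, hpar i⟩
      by_cases hav : AvF A Q X J W Fb S (2 * i + b) v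
      · obtain ⟨u, h1, h2, h3⟩ := (hS _ hlt).2.2 v hav hns
        exact Or.inr (Or.inl ⟨u, h1, h2, h3, ((hS _ hlt).1 u h1).1.1, ((hS _ hlt).1 u h1).1.2.1⟩)
      · by_cases c1 : ∀ w, A v w → ∀ t, t + 1 = 2 * i + b → ¬ S t w
        · by_cases c2 : (2 * i + b = 1 ∨ 2 * i + b = 8 → ∀ w, A v w → J w → (X w ↔ X v))
          · by_cases c3 : (2 * i + b = 0 ∨ 2 * i + b = 9 → ∀ w, Q w v → ¬ J w)
            · exact absurd ⟨⟨hvW, hv, hfb⟩, hpar i, fun t ht => hno t (by omega), c1, c2, c3⟩ hav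
            · push Not at c3
              obtain ⟨h1, w, h2, h3⟩ := c3
              refine Or.inr (Or.inr (Or.inl ⟨⟨w, h3, h2⟩, ?_⟩))
              by_cases hX : X v
              · simp only [htok, hX, if_true]
                simp only [hb, hX, if_true] at h1 ⊢
                omega
              · simp only [htok, hX, if_false]
                simp only [hb, hX, if_false] at h1 ⊢
                omega
          · push Not at c2
            obtain ⟨h1, w, h2, h3, h4⟩ := c2
            refine Or.inl ⟨w, hJW w h3, h2, ?_, Or.inr ⟨h3, h1⟩⟩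
            tauto
        · push Not at c1
          obtain ⟨w, h1, t, h2, h3⟩ := c1
          refine Or.inl ⟨w, ((hS t (by omega)).1 w h3).1.1, h1, ?_, Or.inl ⟨t, by omega, h2, h3⟩⟩
          have p1 := ((hS t (by omega)).1 w h3).2.1
          have p2 := hpar i
          rw [← h2, Nat.even_add_one] at p2
          intro hc
          tauto
    -- pigeonhole
    have hex : ∀ i : ℕ, ∃ x : V ⊕ V ⊕ Unit ⊕ ℕ, i < 5 →
        (∃ w, x = Sum.inl w ∧ W w ∧ A v w ∧ ¬ (X w ↔ X v) ∧
          ((∃ t, t < 10 ∧ t + 1 = 2 * i + b ∧ S t w) ∨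
            (J w ∧ (2 * i + b = 1 ∨ 2 * i + b = 8)))) ∨
        (∃ u, x = Sum.inr (Sum.inl u) ∧ S (2 * i + b) u ∧ Q u v ∧ r u < r v ∧ W u ∧ ¬ J u) ∨
        (x = Sum.inr (Sum.inr (Sum.inl ())) ∧ (∃ w, J w ∧ Q w v) ∧ 2 * i + b = tok) ∨
        (x = Sum.inr (Sum.inr (Sum.inr (2 * i + b))) ∧ 2 * i + b ∈ labsP X v ∩ Fb v) := by
      intro i
      by_cases hi : i < 5
      · rcases hreason i hi with ⟨w, hw⟩ | ⟨u, hu⟩ | h | h
        · exact ⟨Sum.inl w, fun _ => Or.inl ⟨w, rfl, hw⟩⟩
        · exact ⟨Sum.inr (Sum.inl u), fun _ => Or.inr (Or.inl ⟨u, rfl, hu⟩)⟩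
        · exact ⟨Sum.inr (Sum.inr (Sum.inl ())), fun _ => Or.inr (Or.inr (Or.inl ⟨rfl, h⟩))⟩
        · exact ⟨Sum.inr (Sum.inr (Sum.inr (2 * i + b))),
            fun _ => Or.inr (Or.inr (Or.inr ⟨rfl, h⟩))⟩
      · exact ⟨Sum.inl v, fun h => absurd h hi⟩
    choose φ hφ using hex
    have hcard := card_le_card_of_injOn (s := range 5)
      (t := (univ.filter fun w => W w ∧ A v w ∧ ¬ (X w ↔ X v)).disjSum
        (((univ.filter fun u => W u ∧ ¬ J u).filter fun u => Q u v ∧ r u < r v).disjSum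
          ((if ∃ w, J w ∧ Q w v then {()} else ∅ : Finset Unit).disjSum
            (labsP X v ∩ Fb v)))) φ ?_ ?_
    · rw [card_range, card_disjSum, card_disjSum, card_disjSum] at hcard
      have h3 := r3 v (by simp [hv, hvW])
      have h4 : (if ∃ w, J w ∧ Q w v then ({()} : Finset Unit) else ∅).card =
          (if ∃ w, J w ∧ Q w v then 1 else 0) := by
        split_ifs <;> simp
      rw [h4] at hcard
      simp only [hc] at h3
      omega
    · intro i hi
      rw [mem_coe, mem_range] at hi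
      rw [mem_coe, mem_disjSum]
      rcases hφ i hi with ⟨w, h1, h0, h2, h3, _⟩ | ⟨u, h1, _, h3, h4, h5, h6⟩ | ⟨h1, h2, _⟩ |
        ⟨h1, h2⟩
      · exact Or.inl ⟨w, by simp [h0, h2, h3], h1.symm⟩
      · refine Or.inr ⟨Sum.inl u, ?_, h1.symm⟩
        rw [mem_disjSum]
        exact Or.inl ⟨u, by simp [h3, h4, h5, h6], rfl⟩
      · refine Or.inr ⟨Sum.inr (Sum.inl ()), ?_, h1.symm⟩
        rw [mem_disjSum]
        refine Or.inr ⟨Sum.inl (), ?_, rfl⟩
        rw [mem_disjSum]
        exact Or.inl ⟨(), by simp [h2], rfl⟩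
      · refine Or.inr ⟨Sum.inr (Sum.inr (2 * i + b)), ?_, h1.symm⟩
        rw [mem_disjSum]
        refine Or.inr ⟨Sum.inr (2 * i + b), ?_, rfl⟩
        rw [mem_disjSum]
        exact Or.inr ⟨2 * i + b, h2, rfl⟩
    · intro i hi j hj hij
      rw [mem_coe, mem_range] at hi hj
      have hb1 : b ≤ 1 := by
        rw [hb]
        split_ifs <;> omega
      rcases hφ i hi with ⟨w, h1, h0, h2, h3, h4⟩ | ⟨u, h1, h2, h3, h4, h5⟩ | ⟨h1, h2, h3⟩ |
        ⟨h1, h2⟩ <;>
      rcases hφ j hj with ⟨w', k1, k0, k2, k3, k4⟩ | ⟨u', k1, k2, k3, k4, k5⟩ | ⟨k1, k2, k3⟩ |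
        ⟨k1, k2⟩ <;>
      rw [h1, k1] at hij
      · have hw : w = w' := Sum.inl.inj hij
        subst hw
        rcases h4 with ⟨t, t1, t2, t3⟩ | ⟨j1, j2⟩ <;> rcases k4 with ⟨t', t1', t2', t3'⟩ | ⟨j1', j2'⟩
        · have := huniq t t' w t1 t1' t3 t3'
          omega
        · exact absurd j1' ((hS t t1).1 w t3).1.2.1
        · exact absurd j1 ((hS t' t1').1 w t3').1.2.1
        · omega
      · cases hij
      · cases hij
      · cases hij
      · cases hij
      · have hu : u = u' := Sum.inl.inj (Sum.inr.inj hij)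
        subst hu
        have := huniq _ _ u (by omega) (by omega) h2 k2
        omega
      · cases hij
      · cases hij
      · cases hij
      · cases hij
      · omega
      · cases hij
      · cases hij
      · cases hij
      · cases hij
      · have := Sum.inr.inj (Sum.inr.inj (Sum.inr.inj hij))
        omega
  -- the labelling
  have hlab : ∀ v, ∃ s : ℕ, W v → ((J v ∧ X v ∧ s = 0) ∨ (J v ∧ ¬ X v ∧ s = 9) ∨
      (¬ J v ∧ s < 10 ∧ S s v)) := by
    intro v
    by_cases hW : W v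
    · by_cases hv : J v
      · by_cases hX : X v
        · exact ⟨0, fun _ => Or.inl ⟨hv, hX, rfl⟩⟩
        · exact ⟨9, fun _ => Or.inr (Or.inl ⟨hv, hX, rfl⟩)⟩
      · obtain ⟨s, h1, h2⟩ := hall v hW hv
        exact ⟨s, fun _ => Or.inr (Or.inr ⟨hv, h1, h2⟩)⟩
    · exact ⟨0, fun h => absurd h hW⟩
  choose f hf using hlab
  have hle : ∀ v, W v → f v ≤ 9 := by
    intro v hv
    rcases hf v hv with h | h | h <;> omega
  have hpar : ∀ v, W v → (X v ↔ Even (f v)) := by
    intro v hv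
    rcases hf v hv with ⟨_, h2, h3⟩ | ⟨_, h2, h3⟩ | ⟨_, h2, h3⟩
    · rw [h3]
      simp [h2]
    · rw [h3]
      simp only [h2, false_iff]
      decide
    · exact ((hS _ h2).1 v h3).2.1
  -- Q-adjacent vertices get different labels
  have hQ : ∀ u v, W u → W v → Q u v → f u ≠ f v := by
    have main : ∀ u v, W u → W v → Q u v → f u = f v → J u → False := by
      intro u v hWu hWv hq he hu
      have hv : ¬ J v := fun hv => hJ u v hu hv hq
      rcases hf v hWv with h | h | ⟨_, h2, h3⟩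
      · exact hv h.1
      · exact hv h.1
      · have hav := (hS _ h2).1 v h3
        have h09 : f v = 0 ∨ f v = 9 := by
          rcases hf u hWu with h | h | h
          · left
            rw [← he]
            exact h.2.2
          · right
            rw [← he]
            exact h.2.2
          · exact absurd hu h.1
        exact hav.2.2.2.2.2 h09 u hq hu
    intro u v hWu hWv hq he
    by_cases hu : J u
    · exact main u v hWu hWv hq he hu
    · by_cases hv : J v
      · exact main v u hWv hWu (hQs _ _ hq) he.symm hv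
      · rcases hf u hWu with h | h | ⟨_, h2, h3⟩
        · exact hu h.1
        · exact hu h.1
        · rcases hf v hWv with k | k | ⟨_, k2, k3⟩
          · exact hv k.1
          · exact hv k.1
          · rw [← he] at k3
            exact (hS _ h2).2.1 u v h3 k3 hq
  -- adjacent vertices on different sides
  have hcross : ∀ u v, W u → W v → A u v → ¬ (X u ↔ X v) → f u + 1 ≠ f v := by
    intro u v hWu hWv hadj hX he
    rcases hf v hWv with ⟨_, _, h3⟩ | ⟨h1, h2, h3⟩ | ⟨_, h2, h3⟩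
    · omega
    · have hu8 : f u = 8 := by omega
      rcases hf u hWu with ⟨_, _, k3⟩ | ⟨_, _, k3⟩ | ⟨_, k2, k3⟩
      · omega
      · omega
      · have hav := (hS _ k2).1 u k3
        exact hX (hav.2.2.2.2.1 (Or.inr hu8) v hadj h1).symm
    · have hav := (hS _ h2).1 v h3
      rcases hf u hWu with ⟨k1, _, k3⟩ | ⟨_, _, k3⟩ | ⟨_, k2, k3⟩
      · exact hX (hav.2.2.2.2.1 (Or.inl (by omega)) u (hAs _ _ hadj) k1)
      · omega
      · exact hav.2.2.2.1 u (hAs _ _ hadj) (f u) he k3
  refine ⟨f, hle, hpar, ?_, ?_, ?_, hQ, hcross⟩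
  · intro v hv
    rcases hf v hv with ⟨h1, h2, h3⟩ | ⟨h1, h2, h3⟩ | ⟨_, h2, h3⟩
    · rw [h3]
      exact hJ0 v h1 h2
    · rw [h3]
      exact hJ9 v h1 h2
    · exact ((hS _ h2).1 v h3).1.2.2
  · intro v hv hX
    rcases hf v (hJW v hv) with ⟨_, _, h3⟩ | ⟨_, h2, _⟩ | ⟨h1, _⟩
    · exact h3
    · exact absurd hX h2
    · exact absurd hv h1
  · intro v hv hX
    rcases hf v (hJW v hv) with ⟨_, h2, _⟩ | ⟨_, _, h3⟩ | ⟨h1, _⟩
    · exact absurd h2 hX
    · exact h3
    · exact absurd hv h1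

end Pool.Agent.helper58.L9
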