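import Mathlib.Data.Nat.Bitwise
import Mathlib.Data.List.Basic
import Mathlib.Tactic.Linarith

/-!
# Box covers by bit masks

A row carries eight numbers and four masks.  If the masks are correct (`bitsOK`) and `coverM` is
true, then every quadruple `(c1, c2, c3, c4)` is accepted by a row.
-/

set_option autoImplicit false

namespace Pool.Agent.helper58.L9.K4

/-- eight labels and four masks -/
structure Row where
  t : ℕ
  t' : ℕ
  s : ℕ
  s' : ℕ
  y1 : ℕ
  y2 : ℕ
  y3 : ℕ
  y4 : ℕ
  a : ℕ
  b : ℕ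
  c : ℕ
  d : ℕ

/-- bit `j` of `m` -/
def tb (m j : ℕ) : Bool := Nat.beq (Nat.land (Nat.shiftRight m j) 1) 1

theorem tb_eq (m j : ℕ) : tb m j = Nat.testBit m j := by
  unfold tb
  rw [Nat.testBit_eq_decide_div_mod_eq]
  have h1 : Nat.land (Nat.shiftRight m j) 1 = (m / 2 ^ j) % 2 := by
    have : Nat.land (Nat.shiftRight m j) 1 = (m >>> j) &&& 1 := rfl
    rw [this, Nat.and_one_is_mod, Nat.shiftRight_eq_div_pow]
  rw [h1]
  by_cases h : m / 2 ^ j % 2 = 1
  · rw [h]
    decide
  · have h0 : m / 2 ^ j % 2 = 0 := by omega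
    rw [h0]
    decide

/-- union of the last masks of the rows with bit `r` in the third one -/
def f3 (r : ℕ) : List Row → ℕ → ℕ
  | [], acc => acc
  | m :: l, acc => f3 r l (bif tb m.c r then Nat.lor acc m.d else acc)

/-- the cover check -/
def coverM (L : List Row) (J1 J2 J3 : List ℕ) (full : ℕ) : Bool :=
  J1.all fun p => let L1 := L.filter (fun m => tb m.a p)
    J2.all fun q => let L2 := L1.filter (fun m => tb m.b q)
      J3.all fun r => Nat.beq (f3 r L2 0) full

/-- every bit of the mask is justified -/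
def bitsOK {β : Type} (g : β → Bool) : List β → ℕ → Bool
  | [], _ => true
  | c :: cs, m => (Nat.beq (m % 2) 0 || g c) && bitsOK g cs (m / 2)

theorem bitsOK_sound {β : Type} (g : β → Bool) : ∀ (C : List β) (m : ℕ), bitsOK g C m = true →
    ∀ (j : ℕ) (h : j < C.length), Nat.testBit m j = true → g C[j] = true := by
  intro C
  induction C with
  | nil =>
    intro m _ j h
    simp at h
  | cons c cs ih =>
    intro m hm j h hb
    unfold bitsOK at hm
    rw [Bool.and_eq_true, Bool.or_eq_true] at hm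
    cases j with
    | zero =>
      rw [Nat.testBit_zero] at hb
      have hb' : m % 2 = 1 := by simpa using hb
      rcases hm.1 with h1 | h1
      · rw [hb'] at h1
        exact absurd h1 (by decide)
      · simpa using h1
    | succ j =>
      rw [Nat.testBit_succ] at hb
      have := ih (m / 2) hm.2 j (by simpa using h) hb
      simpa using this

theorem f3_sound (r : ℕ) : ∀ (l : List Row) (acc j : ℕ), Nat.testBit (f3 r l acc) j = true →
    Nat.testBit acc j = true ∨ ∃ m ∈ l, Nat.testBit m.c r = true ∧ Nat.testBit m.d j = true := by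
  intro l
  induction l with
  | nil =>
    intro acc j h
    exact Or.inl h
  | cons m l ih =>
    intro acc j h
    unfold f3 at h
    rcases ih _ j h with h1 | ⟨m', hm', h1⟩
    · by_cases hc : tb m.c r = true
      · rw [hc, cond_true] at h1
        have e : Nat.lor acc m.d = acc ||| m.d := rfl
        rw [e, Nat.testBit_or, Bool.or_eq_true] at h1
        rcases h1 with h1 | h1
        · exact Or.inl h1
        · exact Or.inr ⟨m, List.mem_cons_self, by rw [← tb_eq]; exact hc, h1⟩
      · have hc' : tb m.c r = false := by simpa using hc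
        rw [hc', cond_false] at h1
        exact Or.inl h1
    · exact Or.inr ⟨m', List.mem_cons_of_mem _ hm', h1⟩

/-- all rows are correct -/
def dataOK {β1 β2 β3 β4 : Type} (L : List Row) (base : Row → Bool) (C1 : List β1) (C2 : List β2)
    (C3 : List β3) (C4 : List β4) (g1 : Row → β1 → Bool) (g2 : Row → β2 → Bool)
    (g3 : Row → β3 → Bool) (g4 : Row → β4 → Bool) : Bool :=
  L.all fun x => base x && (bitsOK (g1 x) C1 x.a && (bitsOK (g2 x) C2 x.b &&
    (bitsOK (g3 x) C3 x.c && bitsOK (g4 x) C4 x.d)))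

theorem coverM_append (L : List Row) (J J' J2 J3 : List ℕ) (full : ℕ) :
    coverM L (J ++ J') J2 J3 full = (coverM L J J2 J3 full && coverM L J' J2 J3 full) := by
  unfold coverM
  exact List.all_append

theorem coverM_congr {L : List Row} {J J' J2 J3 : List ℕ} {full : ℕ} (e : J = J')
    (h : coverM L J' J2 J3 full = true) : coverM L J J2 J3 full = true := by
  subst e
  exact h

theorem dataOK_append {β1 β2 β3 β4 : Type} (L L' : List Row) (base : Row → Bool) (C1 : List β1)
    (C2 : List β2) (C3 : List β3) (C4 : List β4) (g1 : Row → β1 → Bool) (g2 : Row → β2 → Bool)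
    (g3 : Row → β3 → Bool) (g4 : Row → β4 → Bool) :
    dataOK (L ++ L') base C1 C2 C3 C4 g1 g2 g3 g4 =
      (dataOK L base C1 C2 C3 C4 g1 g2 g3 g4 && dataOK L' base C1 C2 C3 C4 g1 g2 g3 g4) := by
  unfold dataOK
  exact List.all_append

theorem cover_main {β1 β2 β3 β4 : Type} (L : List Row) (base : Row → Bool) (C1 : List β1)
    (C2 : List β2) (C3 : List β3) (C4 : List β4) (g1 : Row → β1 → Bool) (g2 : Row → β2 → Bool)
    (g3 : Row → β3 → Bool) (g4 : Row → β4 → Bool)
    (hD : dataOK L base C1 C2 C3 C4 g1 g2 g3 g4 = true)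
    (hc : coverM L (List.range C1.length) (List.range C2.length) (List.range C3.length)
      (2 ^ C4.length - 1) = true) :
    ∀ c1 ∈ C1, ∀ c2 ∈ C2, ∀ c3 ∈ C3, ∀ c4 ∈ C4, ∃ x : Row, base x = true ∧ g1 x c1 = true ∧
      g2 x c2 = true ∧ g3 x c3 = true ∧ g4 x c4 = true := by
  intro c1 h1 c2 h2 c3 h3 c4 h4
  obtain ⟨j1, hj1, rfl⟩ := List.getElem_of_mem h1
  obtain ⟨j2, hj2, rfl⟩ := List.getElem_of_mem h2
  obtain ⟨j3, hj3, rfl⟩ := List.getElem_of_mem h3
  obtain ⟨j4, hj4, rfl⟩ := List.getElem_of_mem h4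
  unfold coverM at hc
  rw [List.all_eq_true] at hc
  have hc1 := hc j1 (List.mem_range.mpr hj1)
  rw [List.all_eq_true] at hc1
  have hc2 := hc1 j2 (List.mem_range.mpr hj2)
  rw [List.all_eq_true] at hc2
  have hc3 := hc2 j3 (List.mem_range.mpr hj3)
  have hc4 := Nat.eq_of_beq_eq_true hc3
  have hb : Nat.testBit (2 ^ C4.length - 1) j4 = true := by
    rw [Nat.testBit_two_pow_sub_one]
    simpa using hj4
  rw [← hc4] at hb
  rcases f3_sound _ _ _ _ hb with h | ⟨x, hx, hx3, hx4⟩
  · rw [Nat.zero_testBit] at h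
    exact absurd h (by decide)
  · rw [List.mem_filter] at hx
    obtain ⟨hx, hx2⟩ := hx
    rw [List.mem_filter] at hx
    obtain ⟨hx, hx1⟩ := hx
    rw [tb_eq] at hx1 hx2
    unfold dataOK at hD
    rw [List.all_eq_true] at hD
    have hDx := hD x hx
    rw [Bool.and_eq_true, Bool.and_eq_true, Bool.and_eq_true, Bool.and_eq_true] at hDx
    obtain ⟨k0, k1, k2, k3, k4⟩ := hDx
    exact ⟨x, k0, bitsOK_sound _ _ _ k1 j1 hj1 hx1, bitsOK_sound _ _ _ k2 j2 hj2 hx2,
      bitsOK_sound _ _ _ k3 j3 hj3 hx3, bitsOK_sound _ _ _ k4 j4 hj4 hx4⟩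

end Pool.Agent.helper58.L9.K4
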