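import Pool.Agent.helper58.L9.P6Num

/-!
# The finite lemmas for K4 regions with a rung P6(25), final form
-/

set_option autoImplicit false

namespace Pool.Agent.helper58.L9.K4

theorem rows_of_mask {β1 β2 β3 β4 : Type} (L : List Row) (base : Row → Bool) (C1 : List β1)
    (C2 : List β2) (C3 : List β3) (C4 : List β4) (g1 : Row → β1 → Bool) (g2 : Row → β2 → Bool)
    (g3 : Row → β3 → Bool) (g4 : Row → β4 → Bool)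
    (hD : dataOK L base C1 C2 C3 C4 g1 g2 g3 g4 = true)
    (j1 j2 j3 j4 : ℕ) (hj1 : j1 < C1.length) (hj2 : j2 < C2.length) (hj3 : j3 < C3.length)
    (hj4 : j4 < C4.length)
    (hb : Nat.testBit (f3 j3 ((L.filter (fun m => tb m.a j1)).filter (fun m => tb m.b j2)) 0) j4
      = true) :
    ∃ x : Row, base x = true ∧ g1 x C1[j1] = true ∧
      g2 x C2[j2] = true ∧ g3 x C3[j3] = true ∧ g4 x C4[j4] = true := by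
  rcases f3_sound _ _ _ _ hb with h | ⟨x, hx, hx3, hx4⟩
  · rw [Nat.zero_testBit] at h
    exact absurd h (by decide)
  · rw [List.mem_filter] at hx
    obtain ⟨hx, hx2⟩ := hx
    rw [List.mem_filter] at hx
    obtain ⟨hx, hx1⟩ := hx
    rw [tb_eq] at hx1 hx2
    unfold dataOK at hD
    rw [List.all_eq_true] at hD
    have hDx := hD x hx
    rw [Bool.and_eq_true, Bool.and_eq_true, Bool.and_eq_true, Bool.and_eq_true] at hDx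
    obtain ⟨k0, k1, k2, k3, k4⟩ := hDx
    exact ⟨x, k0, bitsOK_sound _ _ _ k1 j1 hj1 hx1, bitsOK_sound _ _ _ k2 j2 hj2 hx2,
      bitsOK_sound _ _ _ k3 j3 hj3 hx3, bitsOK_sound _ _ _ k4 j4 hj4 hx4⟩

/-- solutions of the pentagon -/
structure PeSol (Z3 Z4 B C l1 l6 p2 p3 p4 p5 m : ℕ) : Prop where
  e2 : p2 % 2 = 0 ∧ p2 ≤ 8
  e3 : p3 % 2 = 0 ∧ p3 ≤ 8
  e4 : p4 % 2 = 0 ∧ p4 ≤ 8
  e5 : p5 % 2 = 0 ∧ p5 ≤ 8
  mo : m % 2 = 1 ∧ m ≤ 9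
  d23 : p2 ≠ p3
  d24 : p2 ≠ p4
  d25 : p2 ≠ p5
  d34 : p3 ≠ p4
  d35 : p3 ≠ p5
  d45 : p4 ≠ p5
  m2 : m + 2 ≤ p2 ∨ p2 + 2 ≤ m
  m5 : m + 2 ≤ p5 ∨ p5 + 2 ≤ m
  z3 : p3 + 1 ≠ Z3 ∧ Z3 + 1 ≠ p3
  z4 : p4 + 1 ≠ Z4 ∧ Z4 + 1 ≠ p4
  mB : m ≠ B
  mC : m ≠ C
  l12 : p2 + 2 ≤ l1 ∨ l1 + 2 ≤ p2
  l13 : p3 ≠ l1
  l1m : m ≠ l1
  l65 : p5 + 2 ≤ l6 ∨ l6 + 2 ≤ p5
  l64 : p4 ≠ l6
  l6m : m ≠ l6

theorem normz (Z : ℕ) : ∃ z ∈ odds, ∀ p, p % 2 = 0 ∧ p ≤ 8 → far p z = true →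
    p + 1 ≠ Z ∧ Z + 1 ≠ p := by
  by_cases h : Z ∈ odds
  · refine ⟨Z, h, fun p _ hp => ?_⟩
    rw [far_iff] at hp
    omega
  · refine ⟨1, by decide, fun p hp _ => ?_⟩
    rw [mem_odds] at h
    omega

theorem mem_labs {a : ℕ} : a ∈ labs ↔ a ≤ 9 := by
  unfold labs
  simp only [List.mem_cons, List.not_mem_nil, or_false]
  omega

theorem mem_evs {a : ℕ} : a ∈ evs ↔ a % 2 = 0 ∧ a ≤ 8 := by
  unfold evs
  simp only [List.mem_cons, List.not_mem_nil, or_false]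
  omega

/-- **The pentagon.** -/
theorem num_pent (Z3 Z4 B C : ℕ) : ∃ k ∈ [0, 1, 2], ∀ l1 l6, l1 ≤ 9 → l6 % 2 = 0 ∧ l6 ≤ 8 →
    (l1, l6) ∉ cmp6 k → ∃ p2 p3 p4 p5 m, PeSol Z3 Z4 B C l1 l6 p2 p3 p4 p5 m := by
  obtain ⟨z3, hz3, hz3'⟩ := normz Z3
  obtain ⟨z4, hz4, hz4'⟩ := normz Z4
  obtain ⟨c, hc, hc'⟩ := norm2 B C
  obtain ⟨j1, hj1, e1⟩ := List.getElem_of_mem hz3
  obtain ⟨j2, hj2, e2⟩ := List.getElem_of_mem hz4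
  obtain ⟨j3, hj3, e3⟩ := List.getElem_of_mem hc
  have hcov := cP
  unfold coverP at hcov
  rw [List.all_eq_true] at hcov
  have hc1 := hcov j1 (List.mem_range.mpr hj1)
  rw [List.all_eq_true] at hc1
  have hc2 := hc1 j2 (List.mem_range.mpr hj2)
  rw [List.all_eq_true] at hc2
  have hc3 := hc2 j3 (List.mem_range.mpr hj3)
  have hk : ∃ k ∈ [0, 1, 2], (f3 j3 ((rowsP.filter (fun m => tb m.a j1)).filter
      (fun m => tb m.b j2)) 0) &&& (full6 k) = full6 k := by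
    rw [Bool.or_eq_true, Bool.or_eq_true] at hc3
    rcases hc3 with h | h | h
    · exact ⟨0, by decide, Nat.eq_of_beq_eq_true h⟩
    · exact ⟨1, by decide, Nat.eq_of_beq_eq_true h⟩
    · exact ⟨2, by decide, Nat.eq_of_beq_eq_true h⟩
  obtain ⟨k, hk, hM⟩ := hk
  refine ⟨k, hk, fun l1 l6 h1 h6 hn => ?_⟩
  obtain ⟨j4, hj4, e4⟩ := List.getElem_of_mem (mem_lprod (mem_labs.mpr h1) (mem_evs.mpr h6))
  have hf := fP k hk j4 (List.mem_range.mpr hj4) (by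
    rw [List.getElem?_eq_getElem hj4, e4]
    intro hmem
    rw [List.mem_map] at hmem
    obtain ⟨q, hq, hq'⟩ := hmem
    injection hq' with hq'
    exact hn (hq' ▸ hq))
  rw [← hM, Nat.testBit_and, Bool.and_eq_true] at hf
  obtain ⟨x, x0, x1, x2, x3, x4⟩ := rows_of_mask rowsP basePe odds odds pairs (lprod labs evs)
    _ _ _ _ dP j1 j2 j3 j4 hj1 hj2 hj3 hj4 hf.1
  rw [e1] at x1
  rw [e2] at x2
  rw [e3] at x3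
  rw [e4] at x4
  unfold basePe at x0
  simp only [Bool.and_eq_true, far_iff, nq_iff, odd9_iff, ev8_iff] at x0
  unfold peOK at x4
  simp only [Bool.and_eq_true, far_iff, nq_iff] at x4
  obtain ⟨⟨a1, a2, a3, a4, a5⟩, ⟨b1, b2, b3, b4, b5, b6⟩, c1, c2⟩ := x0
  obtain ⟨⟨g1, g2, g3⟩, g4, g5, g6⟩ := x4
  have hy := hc' x.y1 a5 x3
  exact ⟨x.t, x.t', x.s, x.s', x.y1, ⟨a1, a2, a3, a4, a5, b1, b2, b3, b4, b5, b6, c1, c2,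
    hz3' _ a2 x1, hz4' _ a3 x2, hy.1, hy.2, g1, g2, g3, g4, g5, g6⟩⟩

/-- the pentagon between different even labels -/
theorem num_pent_par (Z3 Z4 B C : ℕ) {l1 l6 : ℕ} (h1 : l1 % 2 = 0 ∧ l1 ≤ 8)
    (h6 : l6 % 2 = 0 ∧ l6 ≤ 8) (h : l1 ≠ l6) :
    ∃ p2 p3 p4 p5 m, PeSol Z3 Z4 B C l1 l6 p2 p3 p4 p5 m := by
  obtain ⟨k, hk, hall⟩ := num_pent Z3 Z4 B C
  refine hall l1 l6 (by omega) h6 ?_
  have aux : ∀ k ∈ [0, 1, 2], ∀ a ∈ evs, ∀ b ∈ evs, a ≠ b → (a, b) ∉ cmp6 k := by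
    decide +kernel
  exact aux k hk l1 (mem_evs.mpr h1) l6 (mem_evs.mpr h6) h

theorem mem_ops {a b : ℕ} (ha : a ∈ odds) (hb : b ∈ odds) (h : a ≠ b) : (a, b) ∈ ops := by
  have aux : ∀ a ∈ odds, ∀ b ∈ odds, a ≠ b → (a, b) ∈ ops := by
    decide +kernel
  exact aux a ha b hb h

/-- **The region with a rung P6(25)**, all outer neighbours of the `y`'s labelled. -/
theorem num6 (Z3 Z4 B C : ℕ) {V B1 C1 B2 C2 : ℕ} (hV : V ∈ evs) (h1 : B1 ∈ odds)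
    (k1 : C1 ∈ odds) (n1 : B1 ≠ C1) (h2 : B2 ∈ odds) (k2 : C2 ∈ odds) (n2 : B2 ≠ C2)
    (B3 C3 B4 C4 : ℕ) :
    ∃ t t' s s' y1 y2 y3 y4, Sol t t' s s' y1 y2 y3 y4 ∧ t' % 2 = 0 ∧ (y1 ≠ B1 ∧ y1 ≠ C1) ∧
      (y2 ≠ B2 ∧ y2 ≠ C2) ∧ (y3 ≠ B3 ∧ y3 ≠ C3) ∧ (y4 ≠ B4 ∧ y4 ≠ C4) ∧
      (t ≠ B1 ∧ t ≠ B2) ∧ s ≠ V ∧ s' ≠ V ∧
      ∃ p2 p3 p4 p5 m, PeSol Z3 Z4 B C t t' p2 p3 p4 p5 m := by
  obtain ⟨k, hk, hall⟩ := num_pent Z3 Z4 B C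
  obtain ⟨c3, h3, h3'⟩ := norm2 B3 C3
  obtain ⟨c4, h4, h4'⟩ := norm2 B4 C4
  obtain ⟨x, x0, x1, x2, x3, x4⟩ := cover_main rows6 base6 ops ops pairs
    (lprod pairs (lprod evs [0, 1, 2])) _ _ _ _ d6 c6 (B1, C1) (mem_ops h1 k1 n1) (B2, C2)
    (mem_ops h2 k2 n2) c3 h3 (c4, (V, k)) (mem_lprod h4 (mem_lprod hV hk))
  rw [avb_iff] at x1 x2
  unfold vk6 at x4
  simp only [Bool.and_eq_true, nq_iff, Bool.not_eq_true', List.contains_eq_mem,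
    decide_eq_false_iff_not] at x4
  unfold base6 at x0
  rw [Bool.and_eq_true, Nat.beq_eq] at x0
  obtain ⟨q0, q1⟩ := x0
  have hs := Sol.of_base0 q1
  obtain ⟨q2, ⟨q3, q4⟩, q5⟩ := x4
  have ht' : x.t' ≤ 8 := by
    have := hs.t9'
    omega
  exact ⟨_, _, _, _, _, _, _, _, hs, q0, ⟨x1.1, x1.2.1⟩, ⟨x2.1, x2.2.1⟩, h3' _ hs.y3o x3,
    h4' _ hs.y4o q2, ⟨x1.2.2, x2.2.2⟩, q3, q4, hall x.t x.t' hs.t9 ⟨q0, ht'⟩ q5⟩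

end Pool.Agent.helper58.L9.K4
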