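import Pool.Agent.helper58.L9.K4Family
import Pool.Agent.helper58.L9.P6Fin

/-!
# K4 regions with a rung P6(25), labelled last

The rung `t = v1, v2, ..., v6 = t'` is an own path with `v2`, `v5` adjacent to a common cross
neighbour `y`; the ends `v1`, `v6` form a K4 with the other rung `s, s'`.  `v1` may get any label.
-/

set_option autoImplicit false

namespace Pool.Agent.helper58.L9

open Pool.Agent.helper40.L9 (ParOK)
open K4

variable {V : Type*}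

/-- the pentagon -/
def P5 (v2 v3 v4 v5 y : V) (v : V) : Prop := v = v2 ∨ v = v3 ∨ v = v4 ∨ v = v5 ∨ v = y

/-- the local structure at the pentagon -/
structure Pent (A Q : V → V → Prop) (X : V → Prop) (v1 v6 v2 v3 v4 v5 y z3 z4 b c : V) :
    Prop where
  X2 : X v2
  X3 : X v3
  X4 : X v4
  X5 : X v5
  Yy : ¬ X y
  d23 : v2 ≠ v3
  d24 : v2 ≠ v4
  d25 : v2 ≠ v5
  d34 : v3 ≠ v4
  d35 : v3 ≠ v5
  d45 : v4 ≠ v5
  q2 : ∀ x, Q v2 x → x = v1 ∨ x = v3 ∨ x = v4 ∨ x = v5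
  q3 : ∀ x, Q v3 x → x = v1 ∨ x = v2 ∨ x = v4 ∨ x = v5
  q4 : ∀ x, Q v4 x → x = v6 ∨ x = v2 ∨ x = v3 ∨ x = v5
  q5 : ∀ x, Q v5 x → x = v6 ∨ x = v2 ∨ x = v3 ∨ x = v4
  qy : ∀ x, Q y x → (x = b ∨ x = c) ∧ x ≠ y
  c2 : ∀ x, A v2 x → ¬ X x → x = y
  c3 : ∀ x, A v3 x → ¬ X x → x = z3
  c4 : ∀ x, A v4 x → ¬ X x → x = z4
  c5 : ∀ x, A v5 x → ¬ X x → x = y
  cy : ∀ x, A y x → X x → x = v2 ∨ x = v5

variable {A Q N : V → V → Prop} {X L E W : V → Prop} {f f0 : V → ℕ}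

theorem exists_g5 (f : V → ℕ) {v2 v3 v4 v5 y : V} (d23 : v2 ≠ v3) (d24 : v2 ≠ v4)
    (d25 : v2 ≠ v5) (d34 : v3 ≠ v4) (d35 : v3 ≠ v5) (d45 : v4 ≠ v5) {X : V → Prop}
    (X2 : X v2) (X3 : X v3) (X4 : X v4) (X5 : X v5) (Yy : ¬ X y) (a2 a3 a4 a5 m : ℕ) :
    ∃ g : V → ℕ, (∀ v, ¬ P5 v2 v3 v4 v5 y v → g v = f v) ∧ g v2 = a2 ∧ g v3 = a3 ∧
      g v4 = a4 ∧ g v5 = a5 ∧ g y = m := by
  classical
  have h : ∀ a, X a → y ≠ a := fun a ha he => Yy (he ▸ ha)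
  refine ⟨fun v => if v = v2 then a2 else if v = v3 then a3 else if v = v4 then a4 else
    if v = v5 then a5 else if v = y then m else f v, ?_, ?_, ?_, ?_, ?_, ?_⟩
  · intro v hv
    unfold P5 at hv
    push Not at hv
    obtain ⟨h1, h2, h3, h4, h5⟩ := hv
    simp [h1, h2, h3, h4, h5]
  · simp
  · simp [d23.symm]
  · simp [d24.symm, d34.symm]
  · simp [d25.symm, d35.symm, d45.symm]
  · simp [h v2 X2, h v3 X3, h v4 X4, h v5 X5]

section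

variable {v1 v6 v2 v3 v4 v5 y z3 z4 b c : V}

/-- **Labelling the pentagon.** -/
theorem Pent.core (hR : Rel A Q N X) (hp : Pent A Q X v1 v6 v2 v3 v4 v5 y z3 z4 b c)
    (h : St A Q N X L E f) (h5 : ∀ v, P5 v2 v3 v4 v5 y v → ¬ L v) {l1 l6 p2 p3 p4 p5 m : ℕ}
    (hs : PeSol (f z3) (f z4) (f b) (f c) l1 l6 p2 p3 p4 p5 m)
    (h1 : L v1 → ¬ E v1 → f v1 = l1) (h6 : L v6 → ¬ E v6 → f v6 = l6)
    (n1 : ¬ P5 v2 v3 v4 v5 y v1) (n6 : ¬ P5 v2 v3 v4 v5 y v6) :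
    ∃ g : V → ℕ, (∀ v, ¬ P5 v2 v3 v4 v5 y v → g v = f v) ∧
      (g v2 = p2 ∧ g v3 = p3 ∧ g v4 = p4 ∧ g v5 = p5 ∧ g y = m) ∧
      St A Q N X (fun v => L v ∨ P5 v2 v3 v4 v5 y v) E g := by
  obtain ⟨g, g0, g2, g3, g4, g5, gy⟩ := exists_g5 f hp.d23 hp.d24 hp.d25 hp.d34 hp.d35 hp.d45
    hp.X2 hp.X3 hp.X4 hp.X5 hp.Yy p2 p3 p4 p5 m
  refine ⟨g, g0, ⟨g2, g3, g4, g5, gy⟩, ?_⟩
  have key2 : p2 + 1 ≠ m ∧ m + 1 ≠ p2 := by
    have := hs.m2
    omega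
  have key5 : p5 + 1 ≠ m ∧ m + 1 ≠ p5 := by
    have := hs.m5
    omega
  have l12 : p2 ≠ l1 := by
    have := hs.l12
    omega
  have l65 : p5 ≠ l6 := by
    have := hs.l65
    omega
  have k1 : (L v1 ∧ ¬ E v1) ∨ P5 v2 v3 v4 v5 y v1 → p2 ≠ g v1 ∧ p3 ≠ g v1 := by
    rintro (hv | hv)
    · rw [g0 v1 n1, h1 hv.1 hv.2]
      exact ⟨l12, hs.l13⟩
    · exact absurd hv n1
  have k6 : (L v6 ∧ ¬ E v6) ∨ P5 v2 v3 v4 v5 y v6 → p5 ≠ g v6 ∧ p4 ≠ g v6 := by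
    rintro (hv | hv)
    · rw [g0 v6 n6, h6 hv.1 hv.2]
      exact ⟨l65, hs.l64⟩
    · exact absurd hv n6
  have outy : ∀ x, Q y x → g x = f x := by
    intro x hq
    have hXx : ¬ X x := fun hh => hp.Yy ((hR.QX _ _ hq).mpr hh)
    apply g0
    rintro (rfl | rfl | rfl | rfl | rfl)
    · exact hXx hp.X2
    · exact hXx hp.X3
    · exact hXx hp.X4
    · exact hXx hp.X5
    · exact (hp.qy _ hq).2 rfl
  have st := h.extend hR (P5 v2 v3 v4 v5 y) (fun _ => False) g h5 (fun _ h => h.elim)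
    (fun v hv _ => g0 v hv) ?_ ?_ ?_ ?_ (fun _ _ h => h.elim)
    (fun _ _ h => h.elim) (fun _ _ h => h.elim)
  · refine st.congr (fun v => ?_) (fun v => ?_)
    · simp
    · simp
  · rintro v (hv | hv)
    · rcases hv with rfl | rfl | rfl | rfl | rfl
      · rw [g2]; exact hs.e2.2.trans (by decide)
      · rw [g3]; exact hs.e3.2.trans (by decide)
      · rw [g4]; exact hs.e4.2.trans (by decide)
      · rw [g5]; exact hs.e5.2.trans (by decide)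
      · rw [gy]; exact hs.mo.2
    · exact hv.elim
  · rintro v (rfl | rfl | rfl | rfl | rfl)
    · rw [g2, Nat.even_iff]
      exact ⟨fun _ => hs.e2.1, fun _ => hp.X2⟩
    · rw [g3, Nat.even_iff]
      exact ⟨fun _ => hs.e3.1, fun _ => hp.X3⟩
    · rw [g4, Nat.even_iff]
      exact ⟨fun _ => hs.e4.1, fun _ => hp.X4⟩
    · rw [g5, Nat.even_iff]
      exact ⟨fun _ => hs.e5.1, fun _ => hp.X5⟩
    · rw [gy, Nat.even_iff]
      have mo := hs.mo.1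
      exact ⟨fun hh => absurd hh hp.Yy, fun hh => by omega⟩
  · rintro p q (rfl | rfl | rfl | rfl | rfl) hpq hq
    · rw [g2]
      rcases hp.q2 q hpq with rfl | rfl | rfl | rfl
      · exact (k1 hq).1
      · rw [g3]; exact hs.d23
      · rw [g4]; exact hs.d24
      · rw [g5]; exact hs.d25
    · rw [g3]
      rcases hp.q3 q hpq with rfl | rfl | rfl | rfl
      · exact (k1 hq).2
      · rw [g2]; exact hs.d23.symm
      · rw [g4]; exact hs.d34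
      · rw [g5]; exact hs.d35
    · rw [g4]
      rcases hp.q4 q hpq with rfl | rfl | rfl | rfl
      · exact (k6 hq).2
      · rw [g2]; exact hs.d24.symm
      · rw [g3]; exact hs.d34.symm
      · rw [g5]; exact hs.d45
    · rw [g5]
      rcases hp.q5 q hpq with rfl | rfl | rfl | rfl
      · exact (k6 hq).1
      · rw [g2]; exact hs.d25.symm
      · rw [g3]; exact hs.d35.symm
      · rw [g4]; exact hs.d45.symm
    · rw [gy, outy q hpq]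
      rcases (hp.qy q hpq).1 with rfl | rfl
      · exact hs.mB
      · exact hs.mC
  · have outz : ∀ z, ¬ X z → z ≠ y → g z = f z := by
      intro z hz hzy
      apply g0
      rintro (rfl | rfl | rfl | rfl | rfl)
      · exact hz hp.X2
      · exact hz hp.X3
      · exact hz hp.X4
      · exact hz hp.X5
      · exact hzy rfl
    rintro p q (rfl | rfl | rfl | rfl | rfl) hpq hX hq
    · have hXq : ¬ X q := fun hh => hX (iff_of_true hp.X2 hh)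
      rw [g2, hp.c2 q hpq hXq, gy]
      exact key2
    · have hXq : ¬ X q := fun hh => hX (iff_of_true hp.X3 hh)
      have e := hp.c3 q hpq hXq
      have hqy : q ≠ y := by
        rintro rfl
        rcases hp.cy _ (hR.As _ _ hpq) hp.X3 with hh | hh
        · exact hp.d23 hh.symm
        · exact hp.d35 hh
      rw [g3, outz q hXq hqy, e]
      exact hs.z3
    · have hXq : ¬ X q := fun hh => hX (iff_of_true hp.X4 hh)
      have e := hp.c4 q hpq hXq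
      have hqy : q ≠ y := by
        rintro rfl
        rcases hp.cy _ (hR.As _ _ hpq) hp.X4 with hh | hh
        · exact hp.d24 hh.symm
        · exact hp.d45 hh
      rw [g4, outz q hXq hqy, e]
      exact hs.z4
    · have hXq : ¬ X q := fun hh => hX (iff_of_true hp.X5 hh)
      rw [g5, hp.c5 q hpq hXq, gy]
      exact key5
    · have hXq : X q := by
        by_contra hh
        exact hX (iff_of_false hp.Yy hh)
      rw [gy]
      rcases hp.cy q hpq hXq with rfl | rfl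
      · rw [g2]; exact ⟨key2.2, key2.1⟩
      · rw [g5]; exact ⟨key5.2, key5.1⟩

/-- the pentagon between different even labels -/
theorem Pent.par (hR : Rel A Q N X) (hp : Pent A Q X v1 v6 v2 v3 v4 v5 y z3 z4 b c)
    (h : St A Q N X L E f) (h5 : ∀ v, P5 v2 v3 v4 v5 y v → ¬ L v) {l1 l6 : ℕ}
    (h1 : f v1 = l1) (h6 : f v6 = l6) (e1 : l1 % 2 = 0 ∧ l1 ≤ 8) (e6 : l6 % 2 = 0 ∧ l6 ≤ 8)
    (hne : l1 ≠ l6) (n1 : ¬ P5 v2 v3 v4 v5 y v1) (n6 : ¬ P5 v2 v3 v4 v5 y v6) :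
    ∃ g : V → ℕ, (∀ v, ¬ P5 v2 v3 v4 v5 y v → g v = f v) ∧
      St A Q N X (fun v => L v ∨ P5 v2 v3 v4 v5 y v) E g := by
  obtain ⟨p2, p3, p4, p5, m, hs⟩ := num_pent_par (f z3) (f z4) (f b) (f c) e1 e6 hne
  obtain ⟨g, g0, _, st⟩ := hp.core hR h h5 hs (fun _ _ => h1) (fun _ _ => h6) n1 n6
  exact ⟨g, g0, st⟩

end

theorem normBC (b c : ℕ) : ∃ B C, (∀ y, y % 2 = 1 ∧ y ≤ 9 → y ≠ B ∧ y ≠ C → y ≠ b ∧ y ≠ c) ∧
    (¬ (b ∈ odds ∧ c ∈ odds ∧ b ≠ c) → B = C) ∧ (b = c → B = b ∧ C = b) := by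
  classical
  by_cases hb : b ∈ odds
  · by_cases hc : c ∈ odds
    · refine ⟨b, c, fun y _ h => h, fun h => ?_, fun h => ⟨rfl, h.symm⟩⟩
      by_contra hne
      exact h ⟨hb, hc, hne⟩
    · refine ⟨b, b, fun y hy h => ⟨h.1, ?_⟩, fun _ => rfl, fun _ => ⟨rfl, rfl⟩⟩
      rintro rfl
      exact hc (mem_odds.mpr hy)
  · refine ⟨c, c, fun y hy h => ⟨?_, h.1⟩, fun _ => rfl, fun h => ⟨h.symm, h.symm⟩⟩
    rintro rfl
    exact hb (mem_odds.mpr hy)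

/-- what `t = v1`, `t' = v6` see -/
structure Near6 (A N : V → V → Prop) (t t' s s' y1 y2 y3 y4 b1 b2 b3 b4 v2 v3 v4 v5 y : V) :
    Prop where
  nt : ∀ x, N t x → x = s ∨ x = s' ∨ x = y1 ∨ x = y2 ∨ x = b1 ∨ x = b2 ∨ x = v2 ∨ x = v3 ∨ x = y
  nt' : ∀ x, N t' x → x = s ∨ x = s' ∨ x = y3 ∨ x = y4 ∨ x = b3 ∨ x = b4 ∨ x = v5 ∨ x = v4 ∨
    x = y
  a_t : ∀ x, A t x → x = y1 ∨ x = y2 ∨ x = v2
  a_t' : ∀ x, A t' x → x = y3 ∨ x = y4 ∨ x = v5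

section

variable {M2 : V → Prop} {e14 e23 : Prop}
  {t t' s s' y1 y2 y3 y4 b1 b2 b3 b4 c1 c2 c3 c4 v2 v3 v4 v5 y z3 z4 b c : V}

/-- **The region with a rung P6(25).** -/
theorem K4Reg.core6 (hR : Rel A Q N X)
    (hr : K4Reg A Q X (fun x => x = v2 ∨ x = v3 ∨ x = v4 ∨ x = v5) M2 e14 e23 t t' s s'
      y1 y2 y3 y4 b1 b2 b3 b4 c1 c2 c3 c4)
    (hp : Pent A Q X t t' v2 v3 v4 v5 y z3 z4 b c)
    (hn : b1 ≠ c1 → b2 ≠ c2 → b3 ≠ c3 → b4 ≠ c4 →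
      Near6 A N t t' s s' y1 y2 y3 y4 b1 b2 b3 b4 v2 v3 v4 v5 y)
    (h14 : e14 → b1 = c1 ∧ b4 = c4 ∧ b1 = b4) (h23 : e23 → b2 = c2 ∧ b3 = c3 ∧ b2 = b3)
    (hd : ∀ x, P5 v2 v3 v4 v5 y x → ¬ R8 t t' s s' y1 y2 y3 y4 x)
    (hM2' : ∀ x, M2 x → ¬ R8 t t' s s' y1 y2 y3 y4 x ∧ ¬ P5 v2 v3 v4 v5 y x)
    (h : St A Q N X L E f)
    (hL : ∀ v, R8 t t' s s' y1 y2 y3 y4 v ∨ P5 v2 v3 v4 v5 y v → ¬ L v) {V' : ℕ}
    (hV : V' ∈ evs) (hM2 : ∀ x, M2 x → L x → ¬ E x → f x = V') :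
    ∃ (g : V → ℕ) (E' : V → Prop),
      St A Q N X (fun v => L v ∨ R8 t t' s s' y1 y2 y3 y4 v ∨ P5 v2 v3 v4 v5 y v) E' g ∧
      (∀ v, ¬ (R8 t t' s s' y1 y2 y3 y4 v ∨ P5 v2 v3 v4 v5 y v) → g v = f v) ∧
      (∀ v, E v → E' v) ∧ (∀ v, E' v → E v ∨ v = t ∨ v = t') ∧
      (g s % 2 = 0 ∧ g s ≤ 8) ∧ (g s' % 2 = 0 ∧ g s' ≤ 8) ∧ g s ≠ g s' := by
  classical
  obtain ⟨f1, fL, fN⟩ : ∃ f1 : V → ℕ, (∀ v, L v → f1 v = f v) ∧ (∀ v, ¬ L v → f1 v = 100) :=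
    ⟨fun v => if L v then f v else 100, fun v hv => by simp [hv], fun v hv => by simp [hv]⟩
  have st0 : St A Q N X L E f1 := h.congrf hR fL
  have lab : ∀ v, f1 v ∈ odds → L v := by
    intro v hv
    by_contra hnl
    rw [fN v hnl] at hv
    exact absurd hv (by decide)
  have r_s : R8 t t' s s' y1 y2 y3 y4 s := Or.inr (Or.inr (Or.inl rfl))
  have r_s' : R8 t t' s s' y1 y2 y3 y4 s' := Or.inr (Or.inr (Or.inr (Or.inl rfl)))
  have r_t : R8 t t' s s' y1 y2 y3 y4 t := Or.inl rfl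
  have r_t' : R8 t t' s s' y1 y2 y3 y4 t' := Or.inr (Or.inl rfl)
  have nP : ∀ x, R8 t t' s s' y1 y2 y3 y4 x → ¬ P5 v2 v3 v4 v5 y x := fun x hx hx' => hd x hx' hx
  have p_2 : P5 v2 v3 v4 v5 y v2 := Or.inl rfl
  have p_3 : P5 v2 v3 v4 v5 y v3 := Or.inr (Or.inl rfl)
  have p_4 : P5 v2 v3 v4 v5 y v4 := Or.inr (Or.inr (Or.inl rfl))
  have p_5 : P5 v2 v3 v4 v5 y v5 := Or.inr (Or.inr (Or.inr (Or.inl rfl)))
  have p_y : P5 v2 v3 v4 v5 y y := Or.inr (Or.inr (Or.inr (Or.inr rfl)))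
  have hM1' : ∀ x, (x = v2 ∨ x = v3 ∨ x = v4 ∨ x = v5) → ¬ R8 t t' s s' y1 y2 y3 y4 x := by
    rintro x (rfl | rfl | rfl | rfl)
    · exact hd _ p_2
    · exact hd _ p_3
    · exact hd _ p_4
    · exact hd _ p_5
  suffices H : ∃ (g : V → ℕ) (E' : V → Prop),
      St A Q N X (fun v => L v ∨ R8 t t' s s' y1 y2 y3 y4 v ∨ P5 v2 v3 v4 v5 y v) E' g ∧
      (∀ v, ¬ (R8 t t' s s' y1 y2 y3 y4 v ∨ P5 v2 v3 v4 v5 y v) → g v = f1 v) ∧
      (∀ v, E v → E' v) ∧ (∀ v, E' v → E v ∨ v = t ∨ v = t') ∧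
      (g s % 2 = 0 ∧ g s ≤ 8) ∧ (g s' % 2 = 0 ∧ g s' ≤ 8) ∧ g s ≠ g s' by
    obtain ⟨g, E', st, g0, g1, g2, g3, g4, g5⟩ := H
    refine ⟨fun v => if R8 t t' s s' y1 y2 y3 y4 v ∨ P5 v2 v3 v4 v5 y v then g v else f v, E',
      st.congrf hR ?_, fun v hv => by simp only [hv, if_false], g1, g2, ?_, ?_, ?_⟩
    · intro v hv
      by_cases hr8 : R8 t t' s s' y1 y2 y3 y4 v ∨ P5 v2 v3 v4 v5 y v
      · simp only [hr8, if_true]
      · simp only [hr8, if_false]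
        rcases hv with hv | hv
        · rw [g0 v hr8, fL v hv]
        · exact absurd hv hr8
    · simp only [r_s, true_or, if_true]
      exact g3
    · simp only [r_s', true_or, if_true]
      exact g4
    · simp only [r_s, r_s', true_or, if_true]
      exact g5
  by_cases hcase : (¬ e14 ∧ ¬ e23) ∧ (f1 b1 ∈ odds ∧ f1 c1 ∈ odds ∧ f1 b1 ≠ f1 c1) ∧
      (f1 b2 ∈ odds ∧ f1 c2 ∈ odds ∧ f1 b2 ≠ f1 c2) ∧
      (f1 b3 ∈ odds ∧ f1 c3 ∈ odds ∧ f1 b3 ≠ f1 c3) ∧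
      (f1 b4 ∈ odds ∧ f1 c4 ∈ odds ∧ f1 b4 ≠ f1 c4)
  · -- everything outside is labelled
    obtain ⟨⟨n14, n23⟩, ⟨ob1, oc1, ne1⟩, ⟨ob2, oc2, ne2⟩, ⟨ob3, oc3, ne3⟩, ob4, oc4, ne4⟩ := hcase
    have hn := hn (fun hh => ne1 (by rw [hh])) (fun hh => ne2 (by rw [hh]))
      (fun hh => ne3 (by rw [hh])) (fun hh => ne4 (by rw [hh]))
    obtain ⟨n1, n2, n3, n4, m1, m2, m3, m4, hs, he, k1, k2, k3, k4, ⟨d1, d2⟩, dV, dV', q2, q3,
      q4, q5, m, hps⟩ := num6 (f1 z3) (f1 z4) (f1 b) (f1 c) hV ob1 oc1 ne1 ob2 oc2 ne2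
        (f1 b3) (f1 c3) (f1 b4) (f1 c4)
    obtain ⟨g1, g10, ⟨w2, w3, w4, w5, wy⟩, st1⟩ := hp.core hR st0
      (fun v hv => hL v (Or.inr hv)) hps (fun hl _ => absurd hl (hL t (Or.inl r_t)))
      (fun hl _ => absurd hl (hL t' (Or.inl r_t'))) (nP t r_t) (nP t' r_t')
    have g1L : ∀ v, L v → g1 v = f1 v := fun v hv => g10 v (fun hp5 => hL v (Or.inr hp5) hv)
    have u1 := lab b1 ob1
    have u2 := lab b2 ob2
    have u3 := lab b3 ob3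
    have u4 := lab b4 ob4
    have e3 : n2 ≠ g1 b3 := by
      rw [g1L b3 u3]
      rw [mem_odds] at ob3
      omega
    have e4 : n2 ≠ g1 b4 := by
      rw [g1L b4 u4]
      rw [mem_odds] at ob4
      omega
    obtain ⟨g2, g20, ⟨_, _, ws, ws'⟩, st2⟩ := hr.core1' hR st1
      (fun v hv hv2 => hv2.elim (fun hl => hL v (Or.inl hv) hl) (fun hp5 => hd v hp5 hv)) hs
      (fun x hx hx1 hx2 => by
        have hlx : L x := hx1.resolve_right (hM2' x hx).2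
        rw [g1L x hlx, fL x hlx, hM2 x hx hlx hx2]
        exact ⟨dV.symm, dV'.symm⟩) hM1' (fun x hx => (hM2' x hx).1)
      (by rw [g1L b1 u1, g1L c1 (lab c1 oc1)]; exact k1)
      (by rw [g1L b2 u2, g1L c2 (lab c2 oc2)]; exact k2)
      (by rw [g1L b3 u3, g1L c3 (lab c3 oc3)]; exact k3)
      (by rw [g1L b4 u4, g1L c4 (lab c4 oc4)]; exact k4)
      (fun he14 => absurd he14 n14) (fun he23 => absurd he23 n23)
      (by
        intro x hx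
        rcases hn.nt x hx with rfl | rfl | rfl | rfl | rfl | rfl | rfl | rfl | rfl
        · exact Or.inr (Or.inl rfl)
        · exact Or.inr (Or.inr (Or.inl rfl))
        · exact Or.inr (Or.inr (Or.inr (Or.inl rfl)))
        · exact Or.inr (Or.inr (Or.inr (Or.inr (Or.inl rfl))))
        · exact Or.inr (Or.inr (Or.inr (Or.inr (Or.inr (Or.inr (Or.inr
            ⟨Or.inl u1, by rw [g1L _ u1]; exact d1⟩))))))
        · exact Or.inr (Or.inr (Or.inr (Or.inr (Or.inr (Or.inr (Or.inr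
            ⟨Or.inl u2, by rw [g1L _ u2]; exact d2⟩))))))
        · exact Or.inr (Or.inr (Or.inr (Or.inr (Or.inr (Or.inr (Or.inr
            ⟨Or.inr p_2, by rw [w2]; have := hps.l12; omega⟩))))))
        · exact Or.inr (Or.inr (Or.inr (Or.inr (Or.inr (Or.inr (Or.inr
            ⟨Or.inr p_3, by rw [w3]; exact hps.l13.symm⟩))))))
        · exact Or.inr (Or.inr (Or.inr (Or.inr (Or.inr (Or.inr (Or.inr
            ⟨Or.inr p_y, by rw [wy]; exact hps.l1m.symm⟩)))))))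
      (by
        intro x hx
        rcases hn.nt' x hx with rfl | rfl | rfl | rfl | rfl | rfl | rfl | rfl | rfl
        · exact Or.inr (Or.inl rfl)
        · exact Or.inr (Or.inr (Or.inl rfl))
        · exact Or.inr (Or.inr (Or.inr (Or.inl rfl)))
        · exact Or.inr (Or.inr (Or.inr (Or.inr (Or.inl rfl))))
        · exact Or.inr (Or.inr (Or.inr (Or.inr (Or.inr (Or.inr (Or.inr
            ⟨Or.inl u3, e3⟩))))))
        · exact Or.inr (Or.inr (Or.inr (Or.inr (Or.inr (Or.inr (Or.inr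
            ⟨Or.inl u4, e4⟩))))))
        · exact Or.inr (Or.inr (Or.inr (Or.inr (Or.inr (Or.inr (Or.inr
            ⟨Or.inr p_5, by rw [w5]; have := hps.l65; omega⟩))))))
        · exact Or.inr (Or.inr (Or.inr (Or.inr (Or.inr (Or.inr (Or.inr
            ⟨Or.inr p_4, by rw [w4]; exact hps.l64.symm⟩))))))
        · exact Or.inr (Or.inr (Or.inr (Or.inr (Or.inr (Or.inr (Or.inr
            ⟨Or.inr p_y, by rw [wy]; exact hps.l6m.symm⟩)))))))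
      (by
        intro x hx
        rcases hn.a_t x hx with h1 | h1 | h1
        · exact Or.inl h1
        · exact Or.inr (Or.inl h1)
        · subst h1
          exact Or.inr (Or.inr (Or.inr ⟨Or.inr p_2, by rw [w2]; exact hps.l12.symm⟩)))
      (by
        intro x hx
        rcases hn.a_t' x hx with h1 | h1 | h1
        · exact Or.inl h1
        · exact Or.inr (Or.inl h1)
        · subst h1
          exact Or.inr (Or.inr (Or.inr ⟨Or.inr p_5, by rw [w5]; exact hps.l65.symm⟩)))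
    refine ⟨g2, fun v => E v ∨ v = t ∨ v = t', st2.congr (fun v =>
      ⟨fun hv => hv.elim (fun hv => hv.elim Or.inl (fun h => Or.inr (Or.inr h)))
        (fun h => Or.inr (Or.inl h)), fun hv => hv.elim (fun h => Or.inl (Or.inl h))
        (fun hv => hv.elim Or.inr (fun h => Or.inl (Or.inr h)))⟩) (fun v => Iff.rfl),
      ?_, fun v hv => Or.inl hv, fun v hv => hv, ?_, ?_, ?_⟩
    · intro v hv
      rw [g20 v (fun h8 => hv (Or.inl h8)), g10 v (fun h5 => hv (Or.inr h5))]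
    · rw [ws]; exact hs.s8
    · rw [ws']; exact hs.s8'
    · rw [ws, ws']; exact hs.ss
  · -- a list of size four
    obtain ⟨B1, C1, a1, a1', a1''⟩ := normBC (f1 b1) (f1 c1)
    obtain ⟨B2, C2, a2, a2', a2''⟩ := normBC (f1 b2) (f1 c2)
    obtain ⟨B3, C3, a3, a3', a3''⟩ := normBC (f1 b3) (f1 c3)
    obtain ⟨B4, C4, a4, a4', a4''⟩ := normBC (f1 b4) (f1 c4)
    obtain ⟨U, hU⟩ : ∃ U, (U, V') ∈ uvs := by
      have aux : ∀ v ∈ evs, ∃ u ∈ evs, (u, v) ∈ uvs := by decide +kernel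
      obtain ⟨u, _, hu⟩ := aux V' hV
      exact ⟨u, hu⟩
    have i14 : e14 → B1 = C1 ∧ B4 = C4 ∧ B1 = B4 := by
      intro he
      obtain ⟨h1, h2, h3⟩ := h14 he
      obtain ⟨r1, r2⟩ := a1'' (by rw [h1])
      obtain ⟨r3, r4⟩ := a4'' (by rw [h2])
      rw [r1, r2, r3, r4, h3]
      exact ⟨rfl, rfl, rfl⟩
    have i23 : e23 → B2 = C2 ∧ B3 = C3 ∧ B2 = B3 := by
      intro he
      obtain ⟨h1, h2, h3⟩ := h23 he
      obtain ⟨r1, r2⟩ := a2'' (by rw [h1])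
      obtain ⟨r3, r4⟩ := a3'' (by rw [h2])
      rw [r1, r2, r3, r4, h3]
      exact ⟨rfl, rfl, rfl⟩
    have hex : B1 = C1 ∨ B2 = C2 ∨ B3 = C3 ∨ B4 = C4 := by
      by_contra hcon
      push Not at hcon
      obtain ⟨x1, x2, x3, x4⟩ := hcon
      apply hcase
      refine ⟨⟨fun he => x1 (i14 he).1, fun he => x2 (i23 he).1⟩, ?_, ?_, ?_, ?_⟩
      · by_contra hh; exact x1 (a1' hh)
      · by_contra hh; exact x2 (a2' hh)
      · by_contra hh; exact x3 (a3' hh)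
      · by_contra hh; exact x4 (a4' hh)
    obtain ⟨n1, n2, n3, n4, m1, m2, m3, m4, ⟨hs, e1, e2, o1, o2, o3, o4⟩, k1, k2, k3, k4, k5,
      k6⟩ := num_par hU B1 C1 B2 C2 B3 C3 B4 C4 e14 e23 i14 i23 hex
    obtain ⟨g1, g10, ⟨wt, wt', ws, ws'⟩, st1⟩ := hr.coreP' hR st0
      (fun v hv => hL v (Or.inl hv)) hs e1 e2
      (fun x hx hx1 _ => by
        exfalso
        rcases hx with rfl | rfl | rfl | rfl
        · exact hL _ (Or.inr p_2) hx1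
        · exact hL _ (Or.inr p_3) hx1
        · exact hL _ (Or.inr p_4) hx1
        · exact hL _ (Or.inr p_5) hx1)
      (fun x hx hx1 hx2 => by
        rw [fL x hx1, hM2 x hx hx1 hx2]
        exact ⟨o3.symm, o4.symm⟩) hM1' (fun x hx => (hM2' x hx).1)
      (a1 m1 hs.y1o k1) (a2 m2 hs.y2o k2) (a3 m3 hs.y3o k3) (a4 m4 hs.y4o k4) k5 k6
    have b1' : n1 ≤ 8 := by
      have := hs.t9
      omega
    have b2' : n2 ≤ 8 := by
      have := hs.t9'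
      omega
    obtain ⟨g2, g20, st2⟩ := hp.par hR st1
      (fun v hv hv2 => hv2.elim (fun hl => hL v (Or.inr hv) hl) (fun h8 => hd v hv h8)) wt wt'
      ⟨e1, b1'⟩ ⟨e2, b2'⟩ hs.tt (nP t r_t) (nP t' r_t')
    refine ⟨g2, E, st2.congr (fun v => or_assoc) (fun v => Iff.rfl), ?_, fun v hv => hv,
      fun v hv => Or.inl hv, ?_, ?_, ?_⟩
    · intro v hv
      rw [g20 v (fun h5 => hv (Or.inr h5)), g10 v (fun h8 => hv (Or.inl h8))]
    · rw [g20 s (nP s r_s), ws]; exact hs.s8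
    · rw [g20 s' (nP s' r_s'), ws']; exact hs.s8'
    · rw [g20 s (nP s r_s), g20 s' (nP s' r_s'), ws, ws']; exact hs.ss

/-- **P6(25) and P2.** -/
theorem K4Reg.kext62 (hR : Rel A Q N X)
    (hr : K4Reg A Q X (fun x => x = v2 ∨ x = v3 ∨ x = v4 ∨ x = v5) (fun _ => False) e14 e23
      t t' s s' y1 y2 y3 y4 b1 b2 b3 b4 c1 c2 c3 c4)
    (hp : Pent A Q X t t' v2 v3 v4 v5 y z3 z4 b c)
    (hn : b1 ≠ c1 → b2 ≠ c2 → b3 ≠ c3 → b4 ≠ c4 →
      Near6 A N t t' s s' y1 y2 y3 y4 b1 b2 b3 b4 v2 v3 v4 v5 y)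
    (h14 : e14 → b1 = c1 ∧ b4 = c4 ∧ b1 = b4) (h23 : e23 → b2 = c2 ∧ b3 = c3 ∧ b2 = b3)
    (hd : ∀ x, P5 v2 v3 v4 v5 y x → ¬ R8 t t' s s' y1 y2 y3 y4 x) :
    KExt A Q N X W f0 (fun x => R8 t t' s s' y1 y2 y3 y4 x ∨ P5 v2 v3 v4 v5 y x) := by
  intro L E f h _ hL
  obtain ⟨g, E', st, g0, g1, g2, _⟩ := hr.core6 hR hp hn h14 h23 hd (fun _ hx => hx.elim) h hL
    (V' := 0) (by decide) (fun _ hx => hx.elim)
  refine ⟨g, E', st, g0, g1, fun v hv => ?_⟩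
  rcases g2 v hv with h1 | rfl | rfl
  · exact Or.inl h1
  · exact Or.inr (Or.inl (Or.inl rfl))
  · exact Or.inr (Or.inl (Or.inr (Or.inl rfl)))

/-- **P6(25) and P3**, the middle `v` is not in the region. -/
theorem K4Reg.kext63 (hR : Rel A Q N X) {v : V}
    (hr : K4Reg A Q X (fun x => x = v2 ∨ x = v3 ∨ x = v4 ∨ x = v5) (fun x => x = v) e14 e23
      t t' s s' y1 y2 y3 y4 b1 b2 b3 b4 c1 c2 c3 c4)
    (hp : Pent A Q X t t' v2 v3 v4 v5 y z3 z4 b c)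
    (hn : b1 ≠ c1 → b2 ≠ c2 → b3 ≠ c3 → b4 ≠ c4 →
      Near6 A N t t' s s' y1 y2 y3 y4 b1 b2 b3 b4 v2 v3 v4 v5 y)
    (h14 : e14 → b1 = c1 ∧ b4 = c4 ∧ b1 = b4) (h23 : e23 → b2 = c2 ∧ b3 = c3 ∧ b2 = b3)
    (hd : ∀ x, P5 v2 v3 v4 v5 y x → ¬ R8 t t' s s' y1 y2 y3 y4 x) (Xv : X v)
    (hv8 : ¬ R8 t t' s s' y1 y2 y3 y4 v) (hv5 : ¬ P5 v2 v3 v4 v5 y v) :
    KExt A Q N X W f0 (fun x => R8 t t' s s' y1 y2 y3 y4 x ∨ P5 v2 v3 v4 v5 y x) := by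
  intro L E f h _ hL
  obtain ⟨V', hV', hV''⟩ : ∃ V' ∈ evs, L v → ¬ E v → f v = V' := by
    by_cases hl : L v ∧ ¬ E v
    · refine ⟨f v, ?_, fun _ _ => rfl⟩
      have h1 := (h.par.par v hl).mp Xv
      have h2 := h.par.le v hl
      rw [Nat.even_iff] at h1
      rw [mem_evs]
      omega
    · exact ⟨0, by decide, fun h1 h2 => absurd ⟨h1, h2⟩ hl⟩
  obtain ⟨g, E', st, g0, g1, g2, _⟩ := hr.core6 hR hp hn h14 h23 hd
    (fun x hx => by subst hx; exact ⟨hv8, hv5⟩) h hL hV' (fun x hx => by subst hx; exact hV'')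
  refine ⟨g, E', st, g0, g1, fun v hv => ?_⟩
  rcases g2 v hv with h1 | rfl | rfl
  · exact Or.inl h1
  · exact Or.inr (Or.inl (Or.inl rfl))
  · exact Or.inr (Or.inl (Or.inr (Or.inl rfl)))

/-- **P6(25) and P6(25).** -/
theorem K4Reg.kext66 (hR : Rel A Q N X) {v2' v3' v4' v5' y' z3' z4' b' c' : V}
    (hr : K4Reg A Q X (fun x => x = v2 ∨ x = v3 ∨ x = v4 ∨ x = v5)
      (fun x => x = v2' ∨ x = v3' ∨ x = v4' ∨ x = v5') e14 e23
      t t' s s' y1 y2 y3 y4 b1 b2 b3 b4 c1 c2 c3 c4)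
    (hp : Pent A Q X t t' v2 v3 v4 v5 y z3 z4 b c)
    (hp' : Pent A Q X s s' v2' v3' v4' v5' y' z3' z4' b' c')
    (hn : b1 ≠ c1 → b2 ≠ c2 → b3 ≠ c3 → b4 ≠ c4 →
      Near6 A N t t' s s' y1 y2 y3 y4 b1 b2 b3 b4 v2 v3 v4 v5 y)
    (h14 : e14 → b1 = c1 ∧ b4 = c4 ∧ b1 = b4) (h23 : e23 → b2 = c2 ∧ b3 = c3 ∧ b2 = b3)
    (hd : ∀ x, P5 v2 v3 v4 v5 y x → ¬ R8 t t' s s' y1 y2 y3 y4 x)
    (hd' : ∀ x, P5 v2' v3' v4' v5' y' x → ¬ R8 t t' s s' y1 y2 y3 y4 x)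
    (hdd : ∀ x, P5 v2' v3' v4' v5' y' x → ¬ P5 v2 v3 v4 v5 y x) :
    KExt A Q N X W f0 (fun x => R8 t t' s s' y1 y2 y3 y4 x ∨ P5 v2 v3 v4 v5 y x ∨
      P5 v2' v3' v4' v5' y' x) := by
  intro L E f h _ hL
  have hin : ∀ x, (x = v2' ∨ x = v3' ∨ x = v4' ∨ x = v5') → P5 v2' v3' v4' v5' y' x := by
    rintro x (rfl | rfl | rfl | rfl)
    · exact Or.inl rfl
    · exact Or.inr (Or.inl rfl)
    · exact Or.inr (Or.inr (Or.inl rfl))
    · exact Or.inr (Or.inr (Or.inr (Or.inl rfl)))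
  have r_s : R8 t t' s s' y1 y2 y3 y4 s := Or.inr (Or.inr (Or.inl rfl))
  have r_s' : R8 t t' s s' y1 y2 y3 y4 s' := Or.inr (Or.inr (Or.inr (Or.inl rfl)))
  obtain ⟨g, E', st, g0, g1, g2, w1, w2, w3⟩ := hr.core6 hR hp hn h14 h23 hd
    (fun x hx => ⟨hd' x (hin x hx), hdd x (hin x hx)⟩) h
    (fun v hv => hL v (hv.elim Or.inl (fun h1 => Or.inr (Or.inl h1))))
    (V' := 0) (by decide) (fun x hx hx1 _ => absurd hx1 (hL x (Or.inr (Or.inr (hin x hx)))))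
  obtain ⟨g', g0', st'⟩ := hp'.par hR st (fun v hv hv2 => by
    rcases hv2 with h1 | h1 | h1
    · exact hL v (Or.inr (Or.inr hv)) h1
    · exact hd' v hv h1
    · exact hdd v hv h1) rfl rfl w1 w2 w3 (fun hx => hd' s hx r_s) (fun hx => hd' s' hx r_s')
  refine ⟨g', E', st'.congr (fun v => ?_) (fun v => Iff.rfl), ?_, g1, fun v hv => ?_⟩
  · constructor
    · rintro ((h1 | h1 | h1) | h1)
      · exact Or.inl h1
      · exact Or.inr (Or.inl h1)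
      · exact Or.inr (Or.inr (Or.inl h1))
      · exact Or.inr (Or.inr (Or.inr h1))
    · rintro (h1 | h1 | h1 | h1)
      · exact Or.inl (Or.inl h1)
      · exact Or.inl (Or.inr (Or.inl h1))
      · exact Or.inl (Or.inr (Or.inr h1))
      · exact Or.inr h1
  · intro v hv
    rw [g0' v (fun h1 => hv (Or.inr (Or.inr h1))),
      g0 v (fun h1 => hv (h1.elim Or.inl (fun h2 => Or.inr (Or.inl h2))))]
  · rcases g2 v hv with h1 | rfl | rfl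
    · exact Or.inl h1
    · exact Or.inr (Or.inl (Or.inl rfl))
    · exact Or.inr (Or.inl (Or.inr (Or.inl rfl)))

end

end Pool.Agent.helper58.L9
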