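import Pool.Agent.helper58.L9.K4YFin
import Pool.Agent.helper58.L9.P6Ext

/-!
# K4 regions in stack order: the labelling steps
-/

set_option autoImplicit false

namespace Pool.Agent.helper58.L9

open Pool.Agent.helper40.L9 (ParOK)
open K4

variable {V : Type*} {A Q N : V → V → Prop} {X L E : V → Prop} {f : V → ℕ}
  {M1 M2 : V → Prop} {e14 e23 : Prop}
  {t t' s s' y1 y2 y3 y4 b1 b2 b3 b4 c1 c2 c3 c4 : V}

/-- **Parity step**: some outer pair is not completely labelled. -/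
theorem K4Reg.dynP (hR : Rel A Q N X)
    (hr : K4Reg A Q X M1 M2 e14 e23 t t' s s' y1 y2 y3 y4 b1 b2 b3 b4 c1 c2 c3 c4)
    (h14 : e14 → b1 = c1 ∧ b4 = c4 ∧ b1 = b4) (h23 : e23 → b2 = c2 ∧ b3 = c3 ∧ b2 = b3)
    (h : St A Q N X L E f) (h8 : ∀ v, R8 t t' s s' y1 y2 y3 y4 v → ¬ L v) {U V' : ℕ}
    (hUV : (U, V') ∈ uvs) (hM1 : ∀ x, M1 x → L x → ¬ E x → f x = U)
    (hM2 : ∀ x, M2 x → L x → ¬ E x → f x = V')
    (hM1' : ∀ x, M1 x → ¬ R8 t t' s s' y1 y2 y3 y4 x)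
    (hM2' : ∀ x, M2 x → ¬ R8 t t' s s' y1 y2 y3 y4 x)
    (hex : ¬ ((L b1 ∧ L c1 ∧ b1 ≠ c1) ∧ (L b2 ∧ L c2 ∧ b2 ≠ c2) ∧ (L b3 ∧ L c3 ∧ b3 ≠ c3) ∧
      (L b4 ∧ L c4 ∧ b4 ≠ c4))) :
    ∃ g : V → ℕ, (∀ v, ¬ R8 t t' s s' y1 y2 y3 y4 v → g v = f v) ∧
      ((g t % 2 = 0 ∧ g t ≤ 8) ∧ (g t' % 2 = 0 ∧ g t' ≤ 8) ∧ g t ≠ g t') ∧
      ((g s % 2 = 0 ∧ g s ≤ 8) ∧ (g s' % 2 = 0 ∧ g s' ≤ 8) ∧ g s ≠ g s') ∧
      St A Q N X (fun v => L v ∨ R8 t t' s s' y1 y2 y3 y4 v) E g := by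
  classical
  obtain ⟨f1, fL, fN⟩ : ∃ f1 : V → ℕ, (∀ v, L v → f1 v = f v) ∧ (∀ v, ¬ L v → f1 v = 100) :=
    ⟨fun v => if L v then f v else 100, fun v hv => by simp [hv], fun v hv => by simp [hv]⟩
  have st0 : St A Q N X L E f1 := h.congrf hR fL
  have lab : ∀ v, f1 v ∈ odds → L v := by
    intro v hv
    by_contra hnl
    rw [fN v hnl] at hv
    exact absurd hv (by decide)
  obtain ⟨B1, C1, a1, a1', a1''⟩ := normBC (f1 b1) (f1 c1)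
  obtain ⟨B2, C2, a2, a2', a2''⟩ := normBC (f1 b2) (f1 c2)
  obtain ⟨B3, C3, a3, a3', a3''⟩ := normBC (f1 b3) (f1 c3)
  obtain ⟨B4, C4, a4, a4', a4''⟩ := normBC (f1 b4) (f1 c4)
  have i14 : e14 → B1 = C1 ∧ B4 = C4 ∧ B1 = B4 := by
    intro he
    obtain ⟨h1, h2, h3⟩ := h14 he
    obtain ⟨r1, r2⟩ := a1'' (by rw [h1])
    obtain ⟨r3, r4⟩ := a4'' (by rw [h2])
    rw [r1, r2, r3, r4, h3]
    exact ⟨rfl, rfl, rfl⟩
  have i23 : e23 → B2 = C2 ∧ B3 = C3 ∧ B2 = B3 := by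
    intro he
    obtain ⟨h1, h2, h3⟩ := h23 he
    obtain ⟨r1, r2⟩ := a2'' (by rw [h1])
    obtain ⟨r3, r4⟩ := a3'' (by rw [h2])
    rw [r1, r2, r3, r4, h3]
    exact ⟨rfl, rfl, rfl⟩
  have tool : ∀ b c : V, ¬ (L b ∧ L c ∧ b ≠ c) →
      ¬ (f1 b ∈ odds ∧ f1 c ∈ odds ∧ f1 b ≠ f1 c) := by
    rintro b c hn ⟨h1, h2, h3⟩
    exact hn ⟨lab b h1, lab c h2, fun hh => h3 (by rw [hh])⟩
  have hexB : B1 = C1 ∨ B2 = C2 ∨ B3 = C3 ∨ B4 = C4 := by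
    by_contra hcon
    push Not at hcon
    obtain ⟨x1, x2, x3, x4⟩ := hcon
    apply hex
    refine ⟨?_, ?_, ?_, ?_⟩
    · by_contra hh; exact x1 (a1' (tool _ _ hh))
    · by_contra hh; exact x2 (a2' (tool _ _ hh))
    · by_contra hh; exact x3 (a3' (tool _ _ hh))
    · by_contra hh; exact x4 (a4' (tool _ _ hh))
  obtain ⟨n1, n2, n3, n4, m1, m2, m3, m4, ⟨hs, e1, e2, o1, o2, o3, o4⟩, k1, k2, k3, k4, k5,
    k6⟩ := num_par hUV B1 C1 B2 C2 B3 C3 B4 C4 e14 e23 i14 i23 hexB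
  obtain ⟨g1, g10, ⟨wt, wt', ws, ws'⟩, st1⟩ := hr.coreP' hR st0 h8 hs e1 e2
    (fun x hx hx1 hx2 => by
      rw [fL x hx1, hM1 x hx hx1 hx2]
      exact ⟨o1.symm, o2.symm⟩)
    (fun x hx hx1 hx2 => by
      rw [fL x hx1, hM2 x hx hx1 hx2]
      exact ⟨o3.symm, o4.symm⟩) hM1' hM2'
    (a1 m1 hs.y1o k1) (a2 m2 hs.y2o k2) (a3 m3 hs.y3o k3) (a4 m4 hs.y4o k4) k5 k6
  have r_t : R8 t t' s s' y1 y2 y3 y4 t := Or.inl rfl
  have r_t' : R8 t t' s s' y1 y2 y3 y4 t' := Or.inr (Or.inl rfl)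
  have r_s : R8 t t' s s' y1 y2 y3 y4 s := Or.inr (Or.inr (Or.inl rfl))
  have r_s' : R8 t t' s s' y1 y2 y3 y4 s' := Or.inr (Or.inr (Or.inr (Or.inl rfl)))
  have b1' : n1 ≤ 8 := by
    have := hs.t9
    omega
  have b2' : n2 ≤ 8 := by
    have := hs.t9'
    omega
  refine ⟨fun v => if R8 t t' s s' y1 y2 y3 y4 v then g1 v else f v,
    fun v hv => by simp only [hv, if_false], ?_, ?_, st1.congrf hR ?_⟩
  · simp only [r_t, r_t', if_true, wt, wt']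
    exact ⟨⟨e1, b1'⟩, ⟨e2, b2'⟩, hs.tt⟩
  · simp only [r_s, r_s', if_true, ws, ws']
    exact ⟨hs.s8, hs.s8', hs.ss⟩
  · intro v hv
    by_cases hr8 : R8 t t' s s' y1 y2 y3 y4 v
    · simp only [hr8, if_true]
    · simp only [hr8, if_false]
      rcases hv with hv | hv
      · rw [g10 v hr8, fL v hv]
      · exact absurd hv hr8

/-- **`y1` even.** -/
theorem K4Reg.coreY (hR : Rel A Q N X)
    (hr : K4Reg A Q X M1 M2 e14 e23 t t' s s' y1 y2 y3 y4 b1 b2 b3 b4 c1 c2 c3 c4)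
    (h : St A Q N X L E f) (h8 : ∀ v, R8 t t' s s' y1 y2 y3 y4 v → ¬ L v)
    {n1 n2 n3 n4 m1 m2 m3 m4 : ℕ} (hs : SolY n1 n2 n3 n4 m1 m2 m3 m4)
    (hM1 : ∀ x, M1 x → L x → ¬ E x → f x ≠ n1 ∧ f x ≠ n2)
    (hM2 : ∀ x, M2 x → L x → ¬ E x → f x ≠ n3 ∧ f x ≠ n4)
    (hM1' : ∀ x, M1 x → ¬ R8 t t' s s' y1 y2 y3 y4 x)
    (hM2' : ∀ x, M2 x → ¬ R8 t t' s s' y1 y2 y3 y4 x)
    (k2 : m2 ≠ f b2 ∧ m2 ≠ f c2) (k3 : m3 ≠ f b3 ∧ m3 ≠ f c3)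
    (k4 : m4 ≠ f b4 ∧ m4 ≠ f c4) (h23 : ¬ e23)
    (hN : ∀ x, N y1 x → x = t ∨ x = s ∨ x = y2 ∨ x = y3 ∨ (x = t' ∧ m1 ≠ n2) ∨
      (x = s' ∧ m1 ≠ n4) ∨ (L x ∧ m1 ≠ f x))
    (hA : ∀ x, A y1 x → x = t ∨ x = s ∨ (L x ∧ (m1 + 2 ≤ f x ∨ f x + 2 ≤ m1))) :
    ∃ (g : V → ℕ) (E' : V → Prop), St A Q N X (fun v => L v ∨ R8 t t' s s' y1 y2 y3 y4 v) E' g ∧
      (∀ v, ¬ R8 t t' s s' y1 y2 y3 y4 v → g v = f v) ∧ (∀ v, E v → E' v) ∧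
      (∀ v, E' v → E v ∨ R8 t t' s s' y1 y2 y3 y4 v) := by
  obtain ⟨g, g7, ⟨gt, gt', gs, gs'⟩, ⟨gy2, gy3⟩, st⟩ := hr.coreR7 hR h h8 hs.t8 hs.t8' hs.s8 hs.s8'
    hs.y2o hs.y3o hs.y4o hs.tt hs.ss hs.ts hs.ts' hs.t's hs.t's' hs.ty2 hs.ty3 hs.ty4 hs.sy3
    hs.sy2 hs.sy4 hs.y24 hs.y34 hM1 hM2 hM1' hM2' k2 k3 k4 (fun hh => absurd hh h23)
  have r1 : R8 t t' s s' y1 y2 y3 y4 y1 := Or.inr (Or.inr (Or.inr (Or.inr (Or.inl rfl))))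
  have h78 : ∀ v, R7 t t' s s' y2 y3 y4 v → R8 t t' s s' y1 y2 y3 y4 v := by
    rintro v (h1 | h1 | h1 | h1 | h1 | h1 | h1)
    · exact Or.inl h1
    · exact Or.inr (Or.inl h1)
    · exact Or.inr (Or.inr (Or.inl h1))
    · exact Or.inr (Or.inr (Or.inr (Or.inl h1)))
    · exact Or.inr (Or.inr (Or.inr (Or.inr (Or.inr (Or.inl h1)))))
    · exact Or.inr (Or.inr (Or.inr (Or.inr (Or.inr (Or.inr (Or.inl h1))))))
    · exact Or.inr (Or.inr (Or.inr (Or.inr (Or.inr (Or.inr (Or.inr h1))))))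
  have h87 : ∀ v, R8 t t' s s' y1 y2 y3 y4 v → R7 t t' s s' y2 y3 y4 v ∨ v = y1 := by
    rintro v (h1 | h1 | h1 | h1 | h1 | h1 | h1 | h1)
    · exact Or.inl (Or.inl h1)
    · exact Or.inl (Or.inr (Or.inl h1))
    · exact Or.inl (Or.inr (Or.inr (Or.inl h1)))
    · exact Or.inl (Or.inr (Or.inr (Or.inr (Or.inl h1))))
    · exact Or.inr h1
    · exact Or.inl (Or.inr (Or.inr (Or.inr (Or.inr (Or.inl h1)))))
    · exact Or.inl (Or.inr (Or.inr (Or.inr (Or.inr (Or.inr (Or.inl h1))))))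
    · exact Or.inl (Or.inr (Or.inr (Or.inr (Or.inr (Or.inr (Or.inr h1))))))
  have n71 : ¬ R7 t t' s s' y2 y3 y4 y1 := by
    rintro (h1 | h1 | h1 | h1 | h1 | h1 | h1)
    · exact hr.Y1 (h1 ▸ hr.Xt)
    · exact hr.Y1 (h1 ▸ hr.Xt')
    · exact hr.Y1 (h1 ▸ hr.Xs)
    · exact hr.Y1 (h1 ▸ hr.Xs')
    · exact hr.y12 h1
    · exact hr.y13 h1
    · exact hr.y14 h1
  have gL : ∀ x, L x → g x = f x := fun x hx => g7 x (fun h7 => h8 x (h78 x h7) hx)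
  have p1 : m1 ≠ n1 := by have := hs.te; omega
  have p2 : m1 ≠ n3 := by have := hs.se; omega
  have p3 : m1 ≠ m2 := by have := hs.ee.1; have := hs.y2o.1; omega
  have p4 : m1 ≠ m3 := by have := hs.ee.1; have := hs.y3o.1; omega
  obtain ⟨g', gy, g'x, st'⟩ := st.oneE hR y1 m1
    (by
      rintro (h1 | h1)
      · exact h8 y1 r1 h1
      · exact n71 h1)
    hs.ee.2
    (by
      intro x hx
      rcases hN x hx with rfl | rfl | rfl | rfl | ⟨rfl, h1⟩ | ⟨rfl, h1⟩ | ⟨h1, h2⟩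
      · exact ⟨Or.inr (Or.inl rfl), by rw [gt]; exact p1⟩
      · exact ⟨Or.inr (Or.inr (Or.inr (Or.inl rfl))), by rw [gs]; exact p2⟩
      · exact ⟨Or.inr (Or.inr (Or.inr (Or.inr (Or.inr (Or.inl rfl))))), by rw [gy2]; exact p3⟩
      · exact ⟨Or.inr (Or.inr (Or.inr (Or.inr (Or.inr (Or.inr (Or.inl rfl)))))),
          by rw [gy3]; exact p4⟩
      · exact ⟨Or.inr (Or.inr (Or.inl rfl)), by rw [gt']; exact h1⟩
      · exact ⟨Or.inr (Or.inr (Or.inr (Or.inr (Or.inl rfl)))), by rw [gs']; exact h1⟩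
      · exact ⟨Or.inl h1, by rw [gL x h1]; exact h2⟩)
    (by
      intro x hx
      rcases hA x hx with rfl | rfl | ⟨h1, h2⟩
      · rw [gt]; exact hs.te.symm
      · rw [gs]; exact hs.se.symm
      · rw [gL x h1]; exact h2)
  refine ⟨g', fun v => E v ∨ v = y1, st'.congr (fun v => ?_) (fun v => Iff.rfl), ?_,
    fun v hv => Or.inl hv, ?_⟩
  · constructor
    · rintro ((h1 | h1) | h1)
      · exact Or.inl h1
      · exact Or.inr (h78 v h1)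
      · exact Or.inr (by rw [h1]; exact r1)
    · rintro (h1 | h1)
      · exact Or.inl (Or.inl h1)
      · rcases h87 v h1 with h2 | h2
        · exact Or.inl (Or.inr h2)
        · exact Or.inr h2
  · intro v hv
    rw [g'x v (fun hh => hv (by rw [hh]; exact r1)), g7 v (fun h7 => hv (h78 v h7))]
  · rintro v (hv | rfl)
    · exact Or.inl hv
    · exact Or.inr r1

end Pool.Agent.helper58.L9
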