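import Pool.Agent.helper58.L9.K4Step

/-!
# The K4 obstacle labelled last: the types

`KExt W f0 Λ`: whenever `W` is labelled in parity by `f0` and `Λ` is unlabelled, the labelling
extends to `Λ`.  Types of the two rungs: `t`, `t'` adjacent (P2) or with a middle `u` (P3); the
middle is labelled before (`W`) or belongs to `Λ`.
-/

set_option autoImplicit false

namespace Pool.Agent.helper58.L9

open Pool.Agent.helper40.L9 (ParOK)
open K4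

variable {V : Type*}

/-- the set `Λ` can be labelled after `W` -/
def KExt (A Q N : V → V → Prop) (X W : V → Prop) (f0 : V → ℕ) (Lam : V → Prop) : Prop :=
  ∀ (L E : V → Prop) (f : V → ℕ), St A Q N X L E f → (∀ v, W v → L v ∧ ¬ E v ∧ f v = f0 v) →
    (∀ v, Lam v → ¬ L v) →
    ∃ (g : V → ℕ) (E' : V → Prop), St A Q N X (fun v => L v ∨ Lam v) E' g ∧
      (∀ v, ¬ Lam v → g v = f v) ∧ (∀ v, E v → E' v) ∧ (∀ v, E' v → E v ∨ Lam v)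

/-- regime 1: some list has four elements -/
structure Reg1 (e14 e23 : Prop) (b1 b2 b3 b4 c1 c2 c3 c4 : V) : Prop where
  ex : b1 = c1 ∨ b2 = c2 ∨ b3 = c3 ∨ b4 = c4
  h14 : e14 → b1 = c1 ∧ b4 = c4 ∧ b1 = b4
  h23 : e23 → b2 = c2 ∧ b3 = c3 ∧ b2 = b3

/-- regime 2: the outer neighbours of the `y`'s are labelled, with static forbids -/
structure Reg2 (W : V → Prop) (f0 : V → ℕ) (e14 e23 : Prop) (b1 b2 b3 b4 : V) : Prop where
  h14 : ¬ e14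
  h23 : ¬ e23
  W1 : W b1
  W2 : W b2
  W3 : W b3
  W4 : W b4
  f1 : f0 b1 ≠ 9
  f2 : f0 b2 ≠ 9
  f3 : f0 b3 ≠ 7
  f4 : f0 b4 ≠ 7

/-- what `t`, `t'` see, adjacent case -/
structure Near2 (A N : V → V → Prop) (t t' s s' y1 y2 y3 y4 b1 b2 b3 b4 : V) : Prop where
  nt : ∀ x, N t x → x = t' ∨ x = s ∨ x = s' ∨ x = y1 ∨ x = y2 ∨ x = y3 ∨ x = y4 ∨ x = b1 ∨ x = b2
  nt' : ∀ x, N t' x → x = t ∨ x = s ∨ x = s' ∨ x = y3 ∨ x = y4 ∨ x = y1 ∨ x = y2 ∨ x = b3 ∨ x = b4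
  a_t : ∀ x, A t x → x = y1 ∨ x = y2 ∨ x = t'
  a_t' : ∀ x, A t' x → x = y3 ∨ x = y4 ∨ x = t

/-- what `t`, `t'` see, with a middle `u` -/
structure Near3 (A N : V → V → Prop) (t t' s s' y1 y2 y3 y4 b1 b2 b3 b4 u z : V) : Prop where
  nt : ∀ x, N t x → x = t' ∨ x = s ∨ x = s' ∨ x = y1 ∨ x = y2 ∨ x = b1 ∨ x = b2 ∨ x = u ∨ x = z
  nt' : ∀ x, N t' x → x = t ∨ x = s ∨ x = s' ∨ x = y3 ∨ x = y4 ∨ x = b3 ∨ x = b4 ∨ x = u ∨ x = z
  a_t : ∀ x, A t x → x = y1 ∨ x = y2 ∨ x = u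
  a_t' : ∀ x, A t' x → x = y3 ∨ x = y4 ∨ x = u

/-- a middle -/
structure Mid (A Q : V → V → Prop) (X : V → Prop) (t t' u z w : V) : Prop where
  Xu : X u
  q : ∀ x, Q u x → x = t ∨ x = t' ∨ x = w
  c : ∀ x, A u x → ¬ X x → x = z

variable {A Q N : V → V → Prop} {X L E W : V → Prop} {f f0 : V → ℕ}

theorem St.congr {L' E' : V → Prop} (h : St A Q N X L E f) (hL : ∀ v, L v ↔ L' v)
    (hE : ∀ v, E v ↔ E' v) : St A Q N X L' E' f := by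
  have e1 : L = L' := by
    funext v
    exact propext (hL v)
  have e2 : E = E' := by
    funext v
    exact propext (hE v)
  rw [← e1, ← e2]
  exact h

/-- the label `a` is admissible for a middle -/
def Adm (Z w a : ℕ) : Prop := a % 2 = 0 ∧ a ≤ 8 ∧ a + 1 ≠ Z ∧ Z + 1 ≠ a ∧ a ≠ w

theorem adm_ex (Z w b : ℕ) : ∃ a, Adm Z w a ∧ a ≠ b := by
  unfold Adm
  by_contra hcon
  push Not at hcon
  have h0 := hcon 0
  have h2 := hcon 2
  have h4 := hcon 4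
  have h6 := hcon 6
  have h8 := hcon 8
  omega

theorem sv2_ex (Z w : ℕ) : ∃ S ∈ sv2, ∀ a ∈ S, Adm Z w a := by
  have key : Adm Z w 0 ∨ Adm Z w 2 ∨ (Adm Z w 4 ∧ Adm Z w 6) ∨ (Adm Z w 4 ∧ Adm Z w 8) ∨
      (Adm Z w 6 ∧ Adm Z w 8) := by
    unfold Adm
    omega
  rcases key with h | h | h | h | h
  · exact ⟨[0], by decide, by simpa using h⟩
  · exact ⟨[2], by decide, by simpa using h⟩
  · exact ⟨[4, 6], by decide, by simpa using h⟩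
  · exact ⟨[4, 8], by decide, by simpa using h⟩
  · exact ⟨[6, 8], by decide, by simpa using h⟩

/-- the lists of `v` in the last type -/
def sv3 : List (List ℕ) := [[4], [6], [8], [0, 2]]

theorem sv3_ex (Z w : ℕ) : ∃ S ∈ sv3, ∀ a ∈ S, Adm Z w a := by
  have key : Adm Z w 4 ∨ Adm Z w 6 ∨ Adm Z w 8 ∨ (Adm Z w 0 ∧ Adm Z w 2) := by
    unfold Adm
    omega
  rcases key with h | h | h | h
  · exact ⟨[4], by decide, by simpa using h⟩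
  · exact ⟨[6], by decide, by simpa using h⟩
  · exact ⟨[8], by decide, by simpa using h⟩
  · exact ⟨[0, 2], by decide, by simpa using h⟩

theorem kaps_sv3_aux : ∀ p ∈ ([(1, [4, 6]), (1, [4, 8]), (1, [6, 8]), (3, [0, 6]), (3, [0, 8]),
    (3, [6, 8]), (5, [0, 2]), (5, [0, 8]), (5, [2, 8]), (7, [0, 2]), (7, [0, 4]), (7, [2, 4]),
    (9, [0, 2, 4]), (9, [0, 2, 6]), (9, [0, 4, 6]), (9, [2, 4, 6])] : List (ℕ × List ℕ)),
    ∀ S ∈ sv3, (p.1, p.2, S) ∈ kaps := by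
  decide +kernel

theorem su_ex {Z : ℕ} (hZ : Z ∈ odds) (w : ℕ) :
    ∃ Su : List ℕ, (∀ S ∈ sv3, (Z, Su, S) ∈ kaps) ∧ ∀ a ∈ Su, Adm Z w a := by
  rw [mem_odds] at hZ
  have hZ' : Z = 1 ∨ Z = 3 ∨ Z = 5 ∨ Z = 7 ∨ Z = 9 := by omega
  have aux := kaps_sv3_aux
  rcases hZ' with rfl | rfl | rfl | rfl | rfl
  · have key : (Adm 1 w 4 ∧ Adm 1 w 6) ∨ (Adm 1 w 4 ∧ Adm 1 w 8) ∨ (Adm 1 w 6 ∧ Adm 1 w 8) := by
      unfold Adm
      omega
    rcases key with h | h | h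
    · exact ⟨[4, 6], aux (1, [4, 6]) (by decide), by simpa using h⟩
    · exact ⟨[4, 8], aux (1, [4, 8]) (by decide), by simpa using h⟩
    · exact ⟨[6, 8], aux (1, [6, 8]) (by decide), by simpa using h⟩
  · have key : (Adm 3 w 0 ∧ Adm 3 w 6) ∨ (Adm 3 w 0 ∧ Adm 3 w 8) ∨ (Adm 3 w 6 ∧ Adm 3 w 8) := by
      unfold Adm
      omega
    rcases key with h | h | h
    · exact ⟨[0, 6], aux (3, [0, 6]) (by decide), by simpa using h⟩
    · exact ⟨[0, 8], aux (3, [0, 8]) (by decide), by simpa using h⟩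
    · exact ⟨[6, 8], aux (3, [6, 8]) (by decide), by simpa using h⟩
  · have key : (Adm 5 w 0 ∧ Adm 5 w 2) ∨ (Adm 5 w 0 ∧ Adm 5 w 8) ∨ (Adm 5 w 2 ∧ Adm 5 w 8) := by
      unfold Adm
      omega
    rcases key with h | h | h
    · exact ⟨[0, 2], aux (5, [0, 2]) (by decide), by simpa using h⟩
    · exact ⟨[0, 8], aux (5, [0, 8]) (by decide), by simpa using h⟩
    · exact ⟨[2, 8], aux (5, [2, 8]) (by decide), by simpa using h⟩
  · have key : (Adm 7 w 0 ∧ Adm 7 w 2) ∨ (Adm 7 w 0 ∧ Adm 7 w 4) ∨ (Adm 7 w 2 ∧ Adm 7 w 4) := by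
      unfold Adm
      omega
    rcases key with h | h | h
    · exact ⟨[0, 2], aux (7, [0, 2]) (by decide), by simpa using h⟩
    · exact ⟨[0, 4], aux (7, [0, 4]) (by decide), by simpa using h⟩
    · exact ⟨[2, 4], aux (7, [2, 4]) (by decide), by simpa using h⟩
  · have key : (Adm 9 w 0 ∧ Adm 9 w 2 ∧ Adm 9 w 4) ∨ (Adm 9 w 0 ∧ Adm 9 w 2 ∧ Adm 9 w 6) ∨
        (Adm 9 w 0 ∧ Adm 9 w 4 ∧ Adm 9 w 6) ∨ (Adm 9 w 2 ∧ Adm 9 w 4 ∧ Adm 9 w 6) := by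
      unfold Adm
      omega
    rcases key with h | h | h | h
    · exact ⟨[0, 2, 4], aux (9, [0, 2, 4]) (by decide), by simpa using h⟩
    · exact ⟨[0, 2, 6], aux (9, [0, 2, 6]) (by decide), by simpa using h⟩
    · exact ⟨[0, 4, 6], aux (9, [0, 4, 6]) (by decide), by simpa using h⟩
    · exact ⟨[2, 4, 6], aux (9, [2, 4, 6]) (by decide), by simpa using h⟩

theorem kaps_W_aux : ∀ U ∈ ([0, 4] : List ℕ), ∀ V ∈ ([2, 6] : List ℕ), ∀ Z ∈ odds,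
    U + 1 ≠ Z → Z + 1 ≠ U → (Z, [U], [V]) ∈ kaps := by
  decide +kernel

theorem uvs_mem {U V : ℕ} (hU : U % 2 = 0 ∧ U ≤ 8) (hV : V % 2 = 0 ∧ V ≤ 8) (h : U ≠ V) :
    (U, V) ∈ uvs := by
  have aux : ∀ U ∈ ([0, 2, 4, 6, 8] : List ℕ), ∀ V ∈ ([0, 2, 4, 6, 8] : List ℕ), U ≠ V →
      (U, V) ∈ uvs := by
    decide +kernel
  refine aux U ?_ V ?_ h
  · simp only [List.mem_cons, List.not_mem_nil, or_false]
    omega
  · simp only [List.mem_cons, List.not_mem_nil, or_false]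
    omega

/-- a labelled vertex of the other side has an odd label -/
theorem St.odd (h : St A Q N X L E f) (hW : ∀ v, W v → L v ∧ ¬ E v ∧ f v = f0 v) {b : V}
    (hb : W b) (hX : ¬ X b) : f b ∈ odds := by
  obtain ⟨h1, h2, _⟩ := hW b hb
  have h3 := h.par.le b ⟨h1, h2⟩
  have h4 := h.par.par b ⟨h1, h2⟩
  rw [mem_odds]
  have h5 : ¬ Even (f b) := fun hh => hX (h4.mpr hh)
  rw [Nat.not_even_iff] at h5
  exact ⟨h5, h3⟩

section Types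

variable {M1 M2 : V → Prop} {e14 e23 : Prop}
  {t t' s s' y1 y2 y3 y4 b1 b2 b3 b4 c1 c2 c3 c4 : V}

/-- regime 1, the middles are labelled (if they exist) -/
theorem K4Reg.fin1 (hR : Rel A Q N X)
    (hr : K4Reg A Q X M1 M2 e14 e23 t t' s s' y1 y2 y3 y4 b1 b2 b3 b4 c1 c2 c3 c4)
    (hreg : Reg1 e14 e23 b1 b2 b3 b4 c1 c2 c3 c4) (h : St A Q N X L E f)
    (h8 : ∀ v, R8 t t' s s' y1 y2 y3 y4 v → ¬ L v) {U V' : ℕ} (hUV : (U, V') ∈ uvs)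
    (hM1 : ∀ x, M1 x → f x = U) (hM2 : ∀ x, M2 x → f x = V')
    (hM1' : ∀ x, M1 x → ¬ R8 t t' s s' y1 y2 y3 y4 x)
    (hM2' : ∀ x, M2 x → ¬ R8 t t' s s' y1 y2 y3 y4 x) :
    ∃ (g : V → ℕ) (E' : V → Prop), St A Q N X (fun v => L v ∨ R8 t t' s s' y1 y2 y3 y4 v) E' g ∧
      (∀ v, ¬ R8 t t' s s' y1 y2 y3 y4 v → g v = f v) ∧ (∀ v, E v → E' v) ∧
      (∀ v, E' v → E v ∨ R8 t t' s s' y1 y2 y3 y4 v) := by
  obtain ⟨n1, n2, n3, n4, m1, m2, m3, m4, ⟨hs, e1, e2, u1, u2, u3, u4⟩, k1, k2, k3, k4, k5,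
      k6⟩ :=
    num_par hUV (f b1) (f c1) (f b2) (f c2) (f b3) (f c3) (f b4)
      (f c4) e14 e23
      (fun he => by
        obtain ⟨h1, h2, h3⟩ := hreg.h14 he
        exact ⟨by rw [h1], by rw [h2], by rw [h3]⟩)
      (fun he => by
        obtain ⟨h1, h2, h3⟩ := hreg.h23 he
        exact ⟨by rw [h1], by rw [h2], by rw [h3]⟩)
      (by
        rcases hreg.ex with h1 | h1 | h1 | h1
        · exact Or.inl (by rw [h1])
        · exact Or.inr (Or.inl (by rw [h1]))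
        · exact Or.inr (Or.inr (Or.inl (by rw [h1])))
        · exact Or.inr (Or.inr (Or.inr (by rw [h1]))))
  obtain ⟨g, g0, st⟩ := hr.coreP hR h h8 hs e1 e2
    (fun x hx _ _ => by
      rw [hM1 x hx]
      exact ⟨u1.symm, u2.symm⟩)
    (fun x hx _ _ => by
      rw [hM2 x hx]
      exact ⟨u3.symm, u4.symm⟩) hM1' hM2' k1 k2 k3 k4 k5 k6
  exact ⟨g, E, st, g0, fun _ hv => hv, fun _ hv => Or.inl hv⟩

/-- regime 2, `t`, `t'` adjacent -/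
theorem K4Reg.fin2 (hR : Rel A Q N X)
    (hr : K4Reg A Q X (fun _ => False) M2 e14 e23 t t' s s' y1 y2 y3 y4 b1 b2 b3 b4
      c1 c2 c3 c4)
    (hn : Near2 A N t t' s s' y1 y2 y3 y4 b1 b2 b3 b4) (h : St A Q N X L E f)
    (h8 : ∀ v, R8 t t' s s' y1 y2 y3 y4 v → ¬ L v) (h14 : ¬ e14) (h23 : ¬ e23)
    {n1 n2 n3 n4 m1 m2 m3 m4 : ℕ} (hs : Sol n1 n2 n3 n4 m1 m2 m3 m4)
    (hM2 : ∀ x, M2 x → L x → ¬ E x → f x ≠ n3 ∧ f x ≠ n4)
    (hM2' : ∀ x, M2 x → ¬ R8 t t' s s' y1 y2 y3 y4 x)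
    (k1 : m1 ≠ f b1 ∧ m1 ≠ f c1) (k2 : m2 ≠ f b2 ∧ m2 ≠ f c2) (k3 : m3 ≠ f b3 ∧ m3 ≠ f c3)
    (k4 : m4 ≠ f b4 ∧ m4 ≠ f c4) (l1 : L b1) (l2 : L b2) (l3 : L b3) (l4 : L b4)
    (d : n1 ≠ f b1 ∧ n1 ≠ f b2 ∧ n2 ≠ f b3 ∧ n2 ≠ f b4) (d5 : n1 + 2 ≤ n2 ∨ n2 + 2 ≤ n1)
    (d6 : n1 ≠ m3 ∧ n1 ≠ m4 ∧ n2 ≠ m1 ∧ n2 ≠ m2) :
    ∃ (g : V → ℕ) (E' : V → Prop), St A Q N X (fun v => L v ∨ R8 t t' s s' y1 y2 y3 y4 v) E' g ∧
      (∀ v, ¬ R8 t t' s s' y1 y2 y3 y4 v → g v = f v) ∧ (∀ v, E v → E' v) ∧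
      (∀ v, E' v → E v ∨ R8 t t' s s' y1 y2 y3 y4 v) := by
  obtain ⟨d1, d2, d3, d4⟩ := d
  obtain ⟨d6, d7, d8, d9⟩ := d6
  obtain ⟨g, g0, st⟩ := hr.core1 hR h h8 hs hM2
    (fun _ hx => hx.elim) hM2' k1 k2 k3 k4 (fun he => absurd he h14)
    (fun he => absurd he h23)
    (by
      intro x hx
      rcases hn.nt x hx with h1 | h1 | h1 | h1 | h1 | h1 | h1 | h1 | h1
      · exact Or.inl h1
      · exact Or.inr (Or.inl h1)
      · exact Or.inr (Or.inr (Or.inl h1))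
      · exact Or.inr (Or.inr (Or.inr (Or.inl h1)))
      · exact Or.inr (Or.inr (Or.inr (Or.inr (Or.inl h1))))
      · exact Or.inr (Or.inr (Or.inr (Or.inr (Or.inr (Or.inl ⟨h1, d6⟩)))))
      · exact Or.inr (Or.inr (Or.inr (Or.inr (Or.inr (Or.inr (Or.inl ⟨h1, d7⟩))))))
      · exact Or.inr (Or.inr (Or.inr (Or.inr (Or.inr (Or.inr (Or.inr
          ⟨by rw [h1]; exact l1, by rw [h1]; exact d1⟩))))))
      · exact Or.inr (Or.inr (Or.inr (Or.inr (Or.inr (Or.inr (Or.inr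
          ⟨by rw [h1]; exact l2, by rw [h1]; exact d2⟩)))))))
    (by
      intro x hx
      rcases hn.nt' x hx with h1 | h1 | h1 | h1 | h1 | h1 | h1 | h1 | h1
      · exact Or.inl h1
      · exact Or.inr (Or.inl h1)
      · exact Or.inr (Or.inr (Or.inl h1))
      · exact Or.inr (Or.inr (Or.inr (Or.inl h1)))
      · exact Or.inr (Or.inr (Or.inr (Or.inr (Or.inl h1))))
      · exact Or.inr (Or.inr (Or.inr (Or.inr (Or.inr (Or.inl ⟨h1, d8⟩)))))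
      · exact Or.inr (Or.inr (Or.inr (Or.inr (Or.inr (Or.inr (Or.inl ⟨h1, d9⟩))))))
      · exact Or.inr (Or.inr (Or.inr (Or.inr (Or.inr (Or.inr (Or.inr
          ⟨by rw [h1]; exact l3, by rw [h1]; exact d3⟩))))))
      · exact Or.inr (Or.inr (Or.inr (Or.inr (Or.inr (Or.inr (Or.inr
          ⟨by rw [h1]; exact l4, by rw [h1]; exact d4⟩)))))))
    (by
      intro x hx
      rcases hn.a_t x hx with h1 | h1 | h1
      · exact Or.inl h1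
      · exact Or.inr (Or.inl h1)
      · exact Or.inr (Or.inr (Or.inl ⟨h1, d5⟩)))
    (by
      intro x hx
      rcases hn.a_t' x hx with h1 | h1 | h1
      · exact Or.inl h1
      · exact Or.inr (Or.inl h1)
      · exact Or.inr (Or.inr (Or.inl ⟨h1, d5⟩)))
  refine ⟨g, fun v => E v ∨ v = t ∨ v = t', st, g0, fun _ hv => Or.inl hv, ?_⟩
  rintro v (hv | rfl | rfl)
  · exact Or.inl hv
  · exact Or.inr (Or.inl rfl)
  · exact Or.inr (Or.inr (Or.inl rfl))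

/-- regime 2, `t`, `t'` with a labelled middle `u` -/
theorem K4Reg.fin3 (hR : Rel A Q N X) {u z : V}
    (hr : K4Reg A Q X M1 M2 e14 e23 t t' s s' y1 y2 y3 y4 b1 b2 b3 b4
      c1 c2 c3 c4)
    (hn : Near3 A N t t' s s' y1 y2 y3 y4 b1 b2 b3 b4 u z) (h : St A Q N X L E f)
    (h8 : ∀ v, R8 t t' s s' y1 y2 y3 y4 v → ¬ L v) (h14 : ¬ e14) (h23 : ¬ e23)
    {n1 n2 n3 n4 m1 m2 m3 m4 : ℕ} (hs : Sol n1 n2 n3 n4 m1 m2 m3 m4)
    (hM2 : ∀ x, M2 x → L x → ¬ E x → f x ≠ n3 ∧ f x ≠ n4)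
    (hM1' : ∀ x, M1 x → ¬ R8 t t' s s' y1 y2 y3 y4 x)
    (hM2' : ∀ x, M2 x → ¬ R8 t t' s s' y1 y2 y3 y4 x)
    (k1 : m1 ≠ f b1 ∧ m1 ≠ f c1) (k2 : m2 ≠ f b2 ∧ m2 ≠ f c2) (k3 : m3 ≠ f b3 ∧ m3 ≠ f c3)
    (k4 : m4 ≠ f b4 ∧ m4 ≠ f c4) (l1 : L b1) (l2 : L b2) (l3 : L b3) (l4 : L b4) (lu : L u)
    (lz : L z) (d : n1 ≠ f b1 ∧ n1 ≠ f b2 ∧ n2 ≠ f b3 ∧ n2 ≠ f b4)
    (dz : n1 ≠ f z ∧ n2 ≠ f z) (du : n1 + 2 ≤ f u ∨ f u + 2 ≤ n1)
    (du' : n2 + 2 ≤ f u ∨ f u + 2 ≤ n2) :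
    ∃ (g : V → ℕ) (E' : V → Prop), St A Q N X (fun v => L v ∨ R8 t t' s s' y1 y2 y3 y4 v) E' g ∧
      (∀ v, ¬ R8 t t' s s' y1 y2 y3 y4 v → g v = f v) ∧ (∀ v, E v → E' v) ∧
      (∀ v, E' v → E v ∨ R8 t t' s s' y1 y2 y3 y4 v) := by
  obtain ⟨d1, d2, d3, d4⟩ := d
  obtain ⟨g, g0, st⟩ := hr.core1 hR h h8 hs hM2
    hM1' hM2' k1 k2 k3 k4 (fun he => absurd he h14)
    (fun he => absurd he h23)
    (by
      intro x hx
      rcases hn.nt x hx with h1 | h1 | h1 | h1 | h1 | h1 | h1 | h1 | h1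
      · exact Or.inl h1
      · exact Or.inr (Or.inl h1)
      · exact Or.inr (Or.inr (Or.inl h1))
      · exact Or.inr (Or.inr (Or.inr (Or.inl h1)))
      · exact Or.inr (Or.inr (Or.inr (Or.inr (Or.inl h1))))
      · exact Or.inr (Or.inr (Or.inr (Or.inr (Or.inr (Or.inr (Or.inr
          ⟨by rw [h1]; exact l1, by rw [h1]; exact d1⟩))))))
      · exact Or.inr (Or.inr (Or.inr (Or.inr (Or.inr (Or.inr (Or.inr
          ⟨by rw [h1]; exact l2, by rw [h1]; exact d2⟩))))))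
      · exact Or.inr (Or.inr (Or.inr (Or.inr (Or.inr (Or.inr (Or.inr
          ⟨by rw [h1]; exact lu, by rw [h1]; omega⟩))))))
      · exact Or.inr (Or.inr (Or.inr (Or.inr (Or.inr (Or.inr (Or.inr
          ⟨by rw [h1]; exact lz, by rw [h1]; exact dz.1⟩)))))))
    (by
      intro x hx
      rcases hn.nt' x hx with h1 | h1 | h1 | h1 | h1 | h1 | h1 | h1 | h1
      · exact Or.inl h1
      · exact Or.inr (Or.inl h1)
      · exact Or.inr (Or.inr (Or.inl h1))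
      · exact Or.inr (Or.inr (Or.inr (Or.inl h1)))
      · exact Or.inr (Or.inr (Or.inr (Or.inr (Or.inl h1))))
      · exact Or.inr (Or.inr (Or.inr (Or.inr (Or.inr (Or.inr (Or.inr
          ⟨by rw [h1]; exact l3, by rw [h1]; exact d3⟩))))))
      · exact Or.inr (Or.inr (Or.inr (Or.inr (Or.inr (Or.inr (Or.inr
          ⟨by rw [h1]; exact l4, by rw [h1]; exact d4⟩))))))
      · exact Or.inr (Or.inr (Or.inr (Or.inr (Or.inr (Or.inr (Or.inr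
          ⟨by rw [h1]; exact lu, by rw [h1]; omega⟩))))))
      · exact Or.inr (Or.inr (Or.inr (Or.inr (Or.inr (Or.inr (Or.inr
          ⟨by rw [h1]; exact lz, by rw [h1]; exact dz.2⟩)))))))
    (by
      intro x hx
      rcases hn.a_t x hx with h1 | h1 | h1
      · exact Or.inl h1
      · exact Or.inr (Or.inl h1)
      · exact Or.inr (Or.inr (Or.inr ⟨by rw [h1]; exact lu, by rw [h1]; exact du⟩)))
    (by
      intro x hx
      rcases hn.a_t' x hx with h1 | h1 | h1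
      · exact Or.inl h1
      · exact Or.inr (Or.inl h1)
      · exact Or.inr (Or.inr (Or.inr ⟨by rw [h1]; exact lu, by rw [h1]; exact du'⟩)))
  refine ⟨g, fun v => E v ∨ v = t ∨ v = t', st, g0, fun _ hv => Or.inl hv, ?_⟩
  rintro v (hv | rfl | rfl)
  · exact Or.inl hv
  · exact Or.inr (Or.inl rfl)
  · exact Or.inr (Or.inr (Or.inl rfl))

/-- a middle can be labelled by an admissible label -/
theorem Mid.add (hR : Rel A Q N X) (hQne : ∀ v, ¬ Q v v) {u z w : V} {p p' : V}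
    (hu : Mid A Q X p p' u z w) (h : St A Q N X L E f) (hLu : ¬ L u) (hp : ¬ L p) (hp' : ¬ L p')
    {a : ℕ} (ha : Adm (f z) (f w) a) :
    ∃ g : V → ℕ, g u = a ∧ (∀ v, v ≠ u → g v = f v) ∧ St A Q N X (fun v => L v ∨ v = u) E g := by
  obtain ⟨a1, a2, a3, a4, a5⟩ := ha
  refine h.one hR hQne u a hLu (by omega) ?_ ?_ ?_
  · rw [Nat.even_iff]
    exact ⟨fun _ => a1, fun _ => hu.Xu⟩
  · intro x hx hLx _
    rcases hu.q x hx with rfl | rfl | rfl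
    · exact absurd hLx hp
    · exact absurd hLx hp'
    · exact a5.symm
  · intro x hx hX _ _
    have hXx : ¬ X x := fun hh => hX (iff_of_true hu.Xu hh)
    rw [hu.c x hx hXx]
    exact ⟨a3, a4⟩

/-- **P2, P2.** -/
theorem K4Reg.kext22 (hR : Rel A Q N X)
    (hr : K4Reg A Q X (fun _ => False) (fun _ => False) e14 e23 t t' s s' y1 y2 y3 y4
      b1 b2 b3 b4 c1 c2 c3 c4)
    (hreg : Reg1 e14 e23 b1 b2 b3 b4 c1 c2 c3 c4 ∨ (Reg2 W f0 e14 e23 b1 b2 b3 b4 ∧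
      Near2 A N t t' s s' y1 y2 y3 y4 b1 b2 b3 b4)) :
    KExt A Q N X W f0 (R8 t t' s s' y1 y2 y3 y4) := by
  intro L E f h hW h8
  rcases hreg with hreg | ⟨hreg, hn⟩
  · exact hr.fin1 hR hreg h h8 (U := 0) (V' := 2) (by decide) (fun _ hx => hx.elim)
      (fun _ hx => hx.elim) (fun _ hx => hx.elim) (fun _ hx => hx.elim)
  · have l1 := hW _ hreg.W1
    have l2 := hW _ hreg.W2
    have l3 := hW _ hreg.W3
    have l4 := hW _ hreg.W4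
    obtain ⟨n1, n2, n3, n4, m1, m2, m3, m4, V', hs, k1, k2, k3, k4, d, d5,
      d6, _⟩ := num2 (S := [0]) (by decide) (h.odd hW hreg.W1 hr.B1)
        (h.odd hW hreg.W2 hr.B2) (h.odd hW hreg.W3 hr.B3) (h.odd hW hreg.W4 hr.B4)
        (by rw [l1.2.2]; exact hreg.f1) (by rw [l2.2.2]; exact hreg.f2)
        (by rw [l3.2.2]; exact hreg.f3) (by rw [l4.2.2]; exact hreg.f4) (f c1) (f c2) (f c3) (f c4)
    exact hr.fin2 hR hn h h8 hreg.h14 hreg.h23 hs (fun _ hx => hx.elim) (fun _ hx => hx.elim)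
      k1 k2 k3 k4 l1.1 l2.1 l3.1 l4.1 d d5 d6

end Types

end Pool.Agent.helper58.L9
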