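import Pool.Agent.helper58.L9.K4Num

/-!
# The finite lemmas for the K4 obstacle, final form
-/

set_option autoImplicit false

namespace Pool.Agent.helper58.L9.K4

theorem far_iff {a b : ℕ} : far a b = true ↔ a + 2 ≤ b ∨ b + 2 ≤ a := by
  unfold far
  rw [Bool.or_eq_true, Nat.ble_eq, Nat.ble_eq]

theorem nq_iff {a b : ℕ} : nq a b = true ↔ a ≠ b := by
  unfold nq
  rw [Bool.not_eq_true', ← Bool.not_eq_true, Nat.beq_eq]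

theorem odd9_iff {a : ℕ} : odd9 a = true ↔ a % 2 = 1 ∧ a ≤ 9 := by
  unfold odd9
  rw [Bool.and_eq_true, Nat.beq_eq, Nat.ble_eq]

theorem ev8_iff {a : ℕ} : ev8 a = true ↔ a % 2 = 0 ∧ a ≤ 8 := by
  unfold ev8
  rw [Bool.and_eq_true, Nat.beq_eq, Nat.ble_eq]

/-- the constraints inside the region -/
structure Sol (t t' s s' y1 y2 y3 y4 : ℕ) : Prop where
  t9 : t ≤ 9
  t9' : t' ≤ 9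
  s8 : s % 2 = 0 ∧ s ≤ 8
  s8' : s' % 2 = 0 ∧ s' ≤ 8
  y1o : y1 % 2 = 1 ∧ y1 ≤ 9
  y2o : y2 % 2 = 1 ∧ y2 ≤ 9
  y3o : y3 % 2 = 1 ∧ y3 ≤ 9
  y4o : y4 % 2 = 1 ∧ y4 ≤ 9
  tt : t ≠ t'
  ss : s ≠ s'
  ts : t ≠ s
  ts' : t ≠ s'
  t's : t' ≠ s
  t's' : t' ≠ s'
  ty1 : t + 2 ≤ y1 ∨ y1 + 2 ≤ t
  ty2 : t + 2 ≤ y2 ∨ y2 + 2 ≤ t
  ty3 : t' + 2 ≤ y3 ∨ y3 + 2 ≤ t'
  ty4 : t' + 2 ≤ y4 ∨ y4 + 2 ≤ t'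
  sy1 : s + 2 ≤ y1 ∨ y1 + 2 ≤ s
  sy3 : s + 2 ≤ y3 ∨ y3 + 2 ≤ s
  sy2 : s' + 2 ≤ y2 ∨ y2 + 2 ≤ s'
  sy4 : s' + 2 ≤ y4 ∨ y4 + 2 ≤ s'
  y12 : y1 ≠ y2
  y13 : y1 ≠ y3
  y24 : y2 ≠ y4
  y34 : y3 ≠ y4

theorem Sol.of_base0 {x : Row} (h : base0 x = true) :
    Sol x.t x.t' x.s x.s' x.y1 x.y2 x.y3 x.y4 := by
  unfold base0 at h
  simp only [Bool.and_eq_true, far_iff, nq_iff, odd9_iff, ev8_iff, Nat.ble_eq] at h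
  obtain ⟨⟨h1, h2, h3, h4⟩, ⟨h5, h6, h7, h8⟩, ⟨h9, h10, h11, h12, h13, h14⟩,
    ⟨h15, h16, h17, h18⟩, ⟨h19, h20, h21, h22⟩, h23, h24, h25, h26⟩ := h
  exact ⟨h1, h2, h3, h4, h5, h6, h7, h8, h9, h10, h11, h12, h13, h14, h15, h16, h17, h18, h19,
    h20, h21, h22, h23, h24, h25, h26⟩

theorem Sol.swapT {t t' s s' y1 y2 y3 y4 : ℕ} (h : Sol t t' s s' y1 y2 y3 y4) :
    Sol t' t s s' y3 y4 y1 y2 :=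
  ⟨h.t9', h.t9, h.s8, h.s8', h.y3o, h.y4o, h.y1o, h.y2o, h.tt.symm, h.ss, h.t's, h.t's', h.ts,
    h.ts', h.ty3, h.ty4, h.ty1, h.ty2, h.sy3, h.sy1, h.sy4, h.sy2, h.y34, h.y13.symm, h.y24.symm,
    h.y12⟩

theorem Sol.swapS {t t' s s' y1 y2 y3 y4 : ℕ} (h : Sol t t' s s' y1 y2 y3 y4) :
    Sol t t' s' s y2 y1 y4 y3 :=
  ⟨h.t9, h.t9', h.s8', h.s8, h.y2o, h.y1o, h.y4o, h.y3o, h.tt, h.ss.symm, h.ts', h.ts, h.t's',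
    h.t's, h.ty2, h.ty1, h.ty4, h.ty3, h.sy2, h.sy4, h.sy1, h.sy3, h.y12.symm, h.y24, h.y13,
    h.y34.symm⟩

/-- the parity solutions -/
def PSol (U V t t' s s' y1 y2 y3 y4 : ℕ) : Prop :=
  Sol t t' s s' y1 y2 y3 y4 ∧ t % 2 = 0 ∧ t' % 2 = 0 ∧ t ≠ U ∧ t' ≠ U ∧ s ≠ V ∧ s' ≠ V

theorem PSol.of_base {x : Row} {k : ℕ × ℕ} (h : baseP x = true) (hk : uvOK x k = true) :
    PSol k.1 k.2 x.t x.t' x.s x.s' x.y1 x.y2 x.y3 x.y4 := by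
  unfold baseP at h
  unfold uvOK at hk
  rw [Bool.and_eq_true, Bool.and_eq_true, ev8_iff, ev8_iff] at h
  simp only [Bool.and_eq_true, nq_iff] at hk
  exact ⟨Sol.of_base0 h.2, h.1.1.1, h.1.2.1, hk.1, hk.2.1, hk.2.2.1, hk.2.2.2⟩

theorem PSol.swapT {U V t t' s s' y1 y2 y3 y4 : ℕ} (h : PSol U V t t' s s' y1 y2 y3 y4) :
    PSol U V t' t s s' y3 y4 y1 y2 :=
  ⟨h.1.swapT, h.2.2.1, h.2.1, h.2.2.2.2.1, h.2.2.2.1, h.2.2.2.2.2.1, h.2.2.2.2.2.2⟩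

theorem PSol.swapS {U V t t' s s' y1 y2 y3 y4 : ℕ} (h : PSol U V t t' s s' y1 y2 y3 y4) :
    PSol U V t t' s' s y2 y1 y4 y3 :=
  ⟨h.1.swapS, h.2.1, h.2.2.1, h.2.2.2.1, h.2.2.2.2.1, h.2.2.2.2.2.2, h.2.2.2.2.2.1⟩

theorem mem_odds {a : ℕ} : a ∈ odds ↔ a % 2 = 1 ∧ a ≤ 9 := by
  unfold odds
  simp only [List.mem_cons, List.not_mem_nil, or_false]
  omega

theorem norm1 (B : ℕ) : ∃ p ∈ odds, ∀ y, y % 2 = 1 ∧ y ≤ 9 → y ≠ p → y ≠ B := by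
  by_cases h : B ∈ odds
  · exact ⟨B, h, fun y _ hy => hy⟩
  · refine ⟨1, by decide, fun y hy _ he => ?_⟩
    subst he
    exact h (mem_odds.mpr hy)

theorem norm2_aux : ∀ p ∈ odds, ∀ q ∈ odds, ∃ c ∈ pairs, ∀ y ∈ odds, av y c = true →
    y ≠ p ∧ y ≠ q := by
  decide +kernel

theorem norm2 (B C : ℕ) : ∃ c ∈ pairs, ∀ y, y % 2 = 1 ∧ y ≤ 9 → av y c = true →
    y ≠ B ∧ y ≠ C := by
  obtain ⟨p, hp, hp'⟩ := norm1 B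
  obtain ⟨q, hq, hq'⟩ := norm1 C
  obtain ⟨c, hc, hc'⟩ := norm2_aux p hp q hq
  refine ⟨c, hc, fun y hy ha => ?_⟩
  have := hc' y (mem_odds.mpr hy) ha
  exact ⟨hp' y hy this.1, hq' y hy this.2⟩

/-- one list of size four, no coincidence -/
theorem par1 {U V : ℕ} (hUV : (U, V) ∈ uvs) (B1 B2 C2 B3 C3 B4 C4 : ℕ) :
    ∃ t t' s s' y1 y2 y3 y4, PSol U V t t' s s' y1 y2 y3 y4 ∧ y1 ≠ B1 ∧ (y2 ≠ B2 ∧ y2 ≠ C2) ∧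
      (y3 ≠ B3 ∧ y3 ≠ C3) ∧ (y4 ≠ B4 ∧ y4 ≠ C4) := by
  obtain ⟨p, hp, hp'⟩ := norm1 B1
  obtain ⟨c2, h2, h2'⟩ := norm2 B2 C2
  obtain ⟨c3, h3, h3'⟩ := norm2 B3 C3
  obtain ⟨c4, h4, h4'⟩ := norm2 B4 C4
  obtain ⟨x, x0, x1, x2, x3, x4⟩ := cover_main rowsR1 baseP odds pairs pairs (lprod pairs uvs)
    (fun x p => nq x.y1 p) (fun x c => av x.y2 c) (fun x c => av x.y3 c)
    (fun x l => av x.y4 l.1 && uvOK x l.2) dR1 cR1 p hp c2 h2 c3 h3 (c4, (U, V))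
    (mem_lprod h4 hUV)
  rw [Bool.and_eq_true] at x4
  have hs := PSol.of_base x0 x4.2
  exact ⟨_, _, _, _, _, _, _, _, hs, hp' _ hs.1.y1o (nq_iff.mp x1), h2' _ hs.1.y2o x2,
    h3' _ hs.1.y3o x3, h4' _ hs.1.y4o x4.1⟩

/-- `y1`, `y4` see each other -/
theorem par2 {U V : ℕ} (hUV : (U, V) ∈ uvs) (B1 B2 C2 B3 C3 : ℕ) :
    ∃ t t' s s' y1 y2 y3 y4, PSol U V t t' s s' y1 y2 y3 y4 ∧ y1 ≠ B1 ∧ (y2 ≠ B2 ∧ y2 ≠ C2) ∧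
      (y3 ≠ B3 ∧ y3 ≠ C3) ∧ y4 ≠ B1 ∧ y1 ≠ y4 := by
  obtain ⟨p, hp, hp'⟩ := norm1 B1
  obtain ⟨c2, h2, h2'⟩ := norm2 B2 C2
  obtain ⟨c3, h3, h3'⟩ := norm2 B3 C3
  obtain ⟨x, x0, x1, x2, x3, x4⟩ := cover_main rowsR2 baseP odds pairs pairs uvs
    (fun x p => nq x.y1 p && (nq x.y4 p && nq x.y1 x.y4)) (fun x c => av x.y2 c)
    (fun x c => av x.y3 c) (fun x k => uvOK x k) dR2 cR2 p hp c2 h2 c3 h3 (U, V) hUV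
  rw [Bool.and_eq_true, Bool.and_eq_true, nq_iff, nq_iff, nq_iff] at x1
  have hs := PSol.of_base x0 x4
  exact ⟨_, _, _, _, _, _, _, _, hs, hp' _ hs.1.y1o x1.1, h2' _ hs.1.y2o x2,
    h3' _ hs.1.y3o x3, hp' _ hs.1.y4o x1.2.1, x1.2.2⟩

/-- `y1`, `y4` see each other, and `y2`, `y3` -/
theorem par4 {U V : ℕ} (hUV : (U, V) ∈ uvs) (B1 B2 : ℕ) :
    ∃ t t' s s' y1 y2 y3 y4, PSol U V t t' s s' y1 y2 y3 y4 ∧ y1 ≠ B1 ∧ y2 ≠ B2 ∧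
      y3 ≠ B2 ∧ y4 ≠ B1 ∧ y1 ≠ y4 ∧ y2 ≠ y3 := by
  obtain ⟨p, hp, hp'⟩ := norm1 B1
  obtain ⟨q, hq, hq'⟩ := norm1 B2
  obtain ⟨x, x0, x1, x2, x3, x4⟩ := cover_main rowsR4 baseP odds odds [0] uvs
    (fun x p => nq x.y1 p && (nq x.y4 p && nq x.y1 x.y4))
    (fun x p => nq x.y2 p && (nq x.y3 p && nq x.y2 x.y3))
    (fun _ _ => true) (fun x k => uvOK x k) dR4 cR4 p hp q hq 0 (by decide) (U, V) hUV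
  rw [Bool.and_eq_true, Bool.and_eq_true, nq_iff, nq_iff, nq_iff] at x1 x2
  have hs := PSol.of_base x0 x4
  exact ⟨_, _, _, _, _, _, _, _, hs, hp' _ hs.1.y1o x1.1, hq' _ hs.1.y2o x2.1,
    hq' _ hs.1.y3o x2.2.1, hp' _ hs.1.y4o x1.2.1, x1.2.2, x2.2.2⟩

/-- **Parity, final form.**  `e14`: `y1`, `y4` see each other; `e23`: `y2`, `y3` see each
other. -/
theorem num_par {U V : ℕ} (hUV : (U, V) ∈ uvs) (B1 C1 B2 C2 B3 C3 B4 C4 : ℕ) (e14 e23 : Prop)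
    (h14 : e14 → B1 = C1 ∧ B4 = C4 ∧ B1 = B4) (h23 : e23 → B2 = C2 ∧ B3 = C3 ∧ B2 = B3)
    (h : B1 = C1 ∨ B2 = C2 ∨ B3 = C3 ∨ B4 = C4) :
    ∃ t t' s s' y1 y2 y3 y4, PSol U V t t' s s' y1 y2 y3 y4 ∧ (y1 ≠ B1 ∧ y1 ≠ C1) ∧
      (y2 ≠ B2 ∧ y2 ≠ C2) ∧ (y3 ≠ B3 ∧ y3 ≠ C3) ∧ (y4 ≠ B4 ∧ y4 ≠ C4) ∧
      (e14 → y1 ≠ y4) ∧ (e23 → y2 ≠ y3) := by
  by_cases he14 : e14
  · obtain ⟨rfl, rfl, rfl⟩ := h14 he14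
    by_cases he23 : e23
    · obtain ⟨rfl, rfl, rfl⟩ := h23 he23
      obtain ⟨t, t', s, s', y1, y2, y3, y4, h0, h1, h2, h3, h4, h5, h6⟩ := par4 hUV B1 B2
      exact ⟨t, t', s, s', y1, y2, y3, y4, h0, ⟨h1, h1⟩, ⟨h2, h2⟩, ⟨h3, h3⟩, ⟨h4, h4⟩,
        fun _ => h5, fun _ => h6⟩
    · obtain ⟨t, t', s, s', y1, y2, y3, y4, h0, h1, h2, h3, h4, h5⟩ := par2 hUV B1 B2 C2 B3 C3
      exact ⟨t, t', s, s', y1, y2, y3, y4, h0, ⟨h1, h1⟩, h2, h3, ⟨h4, h4⟩,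
        fun _ => h5, fun h => absurd h he23⟩
  · by_cases he23 : e23
    · obtain ⟨rfl, rfl, rfl⟩ := h23 he23
      obtain ⟨t, t', s, s', y1, y2, y3, y4, h0, h1, h2, h3, h4, h5⟩ := par2 hUV B2 B4 C4 B1 C1
      -- apply the swap of `t` and `t'`: (y1,y2,y3,y4) -> (y3,y4,y1,y2)
      exact ⟨t', t, s, s', y3, y4, y1, y2, h0.swapT, h3, ⟨h4, h4⟩, ⟨h1, h1⟩, h2,
        fun h => absurd h he14, fun _ => h5.symm⟩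
    · rcases h with rfl | rfl | rfl | rfl
      · obtain ⟨t, t', s, s', y1, y2, y3, y4, h0, h1, h2, h3, h4⟩ :=
          par1 hUV B1 B2 C2 B3 C3 B4 C4
        exact ⟨t, t', s, s', y1, y2, y3, y4, h0, ⟨h1, h1⟩, h2, h3, h4,
          fun h => absurd h he14, fun h => absurd h he23⟩
      · obtain ⟨t, t', s, s', y1, y2, y3, y4, h0, h1, h2, h3, h4⟩ :=
          par1 hUV B2 B1 C1 B4 C4 B3 C3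
        exact ⟨t, t', s', s, y2, y1, y4, y3, h0.swapS, h2, ⟨h1, h1⟩, h4, h3,
          fun h => absurd h he14, fun h => absurd h he23⟩
      · obtain ⟨t, t', s, s', y1, y2, y3, y4, h0, h1, h2, h3, h4⟩ :=
          par1 hUV B3 B4 C4 B1 C1 B2 C2
        exact ⟨t', t, s, s', y3, y4, y1, y2, h0.swapT, h3, h4, ⟨h1, h1⟩, h2,
          fun h => absurd h he14, fun h => absurd h he23⟩
      · obtain ⟨t, t', s, s', y1, y2, y3, y4, h0, h1, h2, h3, h4⟩ :=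
          par1 hUV B4 B3 C3 B2 C2 B1 C1
        exact ⟨t', t, s', s, y4, y3, y2, y1, h0.swapT.swapS, h4, h3, h2, ⟨h1, h1⟩,
          fun h => absurd h he14, fun h => absurd h he23⟩

/-! ### regime 2 -/

theorem norm9_aux : ∀ B ∈ odds, B ≠ 9 → ∀ q ∈ odds, ∃ c' ∈ odds, (B, c') ∈ cel9 ∧
    ∀ y ∈ odds, y ≠ B → y ≠ c' → y ≠ q := by
  decide +kernel

theorem norm7_aux : ∀ B ∈ odds, B ≠ 7 → ∀ q ∈ odds, ∃ c' ∈ odds, (B, c') ∈ cel7 ∧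
    ∀ y ∈ odds, y ≠ B → y ≠ c' → y ≠ q := by
  decide +kernel

theorem norm9 {B : ℕ} (hB : B ∈ odds) (h9 : B ≠ 9) (C : ℕ) : ∃ c' : ℕ, (B, c') ∈ cel9 ∧
    ∀ y, y % 2 = 1 ∧ y ≤ 9 → y ≠ B → y ≠ c' → y ≠ C := by
  obtain ⟨q, hq, hq'⟩ := norm1 C
  obtain ⟨c', _, h1, h2⟩ := norm9_aux B hB h9 q hq
  exact ⟨c', h1, fun y hy a b => hq' y hy (h2 y (mem_odds.mpr hy) a b)⟩

theorem norm7 {B : ℕ} (hB : B ∈ odds) (h7 : B ≠ 7) (C : ℕ) : ∃ c' : ℕ, (B, c') ∈ cel7 ∧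
    ∀ y, y % 2 = 1 ∧ y ≤ 9 → y ≠ B → y ≠ c' → y ≠ C := by
  obtain ⟨q, hq, hq'⟩ := norm1 C
  obtain ⟨c', _, h1, h2⟩ := norm7_aux B hB h7 q hq
  exact ⟨c', h1, fun y hy a b => hq' y hy (h2 y (mem_odds.mpr hy) a b)⟩

theorem avb_iff {y t : ℕ} {c : ℕ × ℕ} : avb y t c = true ↔ y ≠ c.1 ∧ y ≠ c.2 ∧ t ≠ c.1 := by
  unfold avb
  rw [Bool.and_eq_true, Bool.and_eq_true, nq_iff, nq_iff, nq_iff]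

theorem svOK_iff {x : Row} {S : List ℕ} : svOK x S = true ↔ ∃ v ∈ S, x.s ≠ v ∧ x.s' ≠ v := by
  unfold svOK
  rw [List.any_eq_true]
  simp only [Bool.and_eq_true, nq_iff]

/-- **Regime 2, `t`, `t'` adjacent.** -/
theorem num2 {S : List ℕ} (hS : S ∈ sv2) {B1 B2 B3 B4 : ℕ} (h1 : B1 ∈ odds) (h2 : B2 ∈ odds)
    (h3 : B3 ∈ odds) (h4 : B4 ∈ odds) (k1 : B1 ≠ 9) (k2 : B2 ≠ 9) (k3 : B3 ≠ 7) (k4 : B4 ≠ 7)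
    (C1 C2 C3 C4 : ℕ) :
    ∃ t t' s s' y1 y2 y3 y4 V, Sol t t' s s' y1 y2 y3 y4 ∧ (y1 ≠ B1 ∧ y1 ≠ C1) ∧
      (y2 ≠ B2 ∧ y2 ≠ C2) ∧ (y3 ≠ B3 ∧ y3 ≠ C3) ∧ (y4 ≠ B4 ∧ y4 ≠ C4) ∧
      (t ≠ B1 ∧ t ≠ B2 ∧ t' ≠ B3 ∧ t' ≠ B4) ∧ (t + 2 ≤ t' ∨ t' + 2 ≤ t) ∧
      (t ≠ y3 ∧ t ≠ y4 ∧ t' ≠ y1 ∧ t' ≠ y2) ∧ V ∈ S ∧ s ≠ V ∧ s' ≠ V := by
  obtain ⟨c1, m1, n1⟩ := norm9 h1 k1 C1
  obtain ⟨c2, m2, n2⟩ := norm9 h2 k2 C2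
  obtain ⟨c3, m3, n3⟩ := norm7 h3 k3 C3
  obtain ⟨c4, m4, n4⟩ := norm7 h4 k4 C4
  obtain ⟨x, x0, x1, x2, x3, x4⟩ := cover_main rowsN2 base2 cel9 cel9 cel7 (lprod cel7 sv2)
    (fun x c => avb x.y1 x.t c) (fun x c => avb x.y2 x.t c) (fun x c => avb x.y3 x.t' c)
    (fun x l => avb x.y4 x.t' l.1 && svOK x l.2) dN2 cN2 (B1, c1) m1 (B2, c2) m2 (B3, c3) m3
    ((B4, c4), S) (mem_lprod m4 hS)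
  rw [Bool.and_eq_true, svOK_iff, avb_iff] at x4
  rw [avb_iff] at x1 x2 x3
  unfold base2 at x0
  simp only [Bool.and_eq_true, far_iff, nq_iff] at x0
  obtain ⟨⟨p1, p2, p3, p4, p5⟩, p6⟩ := x0
  have hs := Sol.of_base0 p6
  obtain ⟨⟨q1, q2, q3⟩, V, hV, q4, q5⟩ := x4
  exact ⟨_, _, _, _, _, _, _, _, V, hs, ⟨x1.1, n1 _ hs.y1o x1.1 x1.2.1⟩,
    ⟨x2.1, n2 _ hs.y2o x2.1 x2.2.1⟩, ⟨x3.1, n3 _ hs.y3o x3.1 x3.2.1⟩,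
    ⟨q1, n4 _ hs.y4o q1 q2⟩, ⟨x1.2.2, x2.2.2, x3.2.2, q3⟩, p1, ⟨p2, p3, p4, p5⟩, hV, q4, q5⟩

/-- **Regime 2, `t`, `t'` with a middle.** -/
theorem num3 {Z : ℕ} {Su Sv : List ℕ} (hS : (Z, Su, Sv) ∈ kaps) {B1 B2 B3 B4 : ℕ}
    (h1 : B1 ∈ odds) (h2 : B2 ∈ odds) (h3 : B3 ∈ odds) (h4 : B4 ∈ odds) (k1 : B1 ≠ 9)
    (k2 : B2 ≠ 9) (k3 : B3 ≠ 7) (k4 : B4 ≠ 7) (C1 C2 C3 C4 : ℕ) :
    ∃ t t' s s' y1 y2 y3 y4 U V, Sol t t' s s' y1 y2 y3 y4 ∧ (y1 ≠ B1 ∧ y1 ≠ C1) ∧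
      (y2 ≠ B2 ∧ y2 ≠ C2) ∧ (y3 ≠ B3 ∧ y3 ≠ C3) ∧ (y4 ≠ B4 ∧ y4 ≠ C4) ∧
      (t ≠ B1 ∧ t ≠ B2 ∧ t' ≠ B3 ∧ t' ≠ B4) ∧ (t ≠ Z ∧ t' ≠ Z) ∧
      (U ∈ Su ∧ (t + 2 ≤ U ∨ U + 2 ≤ t) ∧ (t' + 2 ≤ U ∨ U + 2 ≤ t')) ∧
      V ∈ Sv ∧ s ≠ V ∧ s' ≠ V := by
  obtain ⟨c1, m1, n1⟩ := norm9 h1 k1 C1
  obtain ⟨c2, m2, n2⟩ := norm9 h2 k2 C2
  obtain ⟨c3, m3, n3⟩ := norm7 h3 k3 C3
  obtain ⟨c4, m4, n4⟩ := norm7 h4 k4 C4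
  obtain ⟨x, x0, x1, x2, x3, x4⟩ := cover_main rowsN3 base0 cel9 cel9 cel7 (lprod cel7 kaps)
    (fun x c => avb x.y1 x.t c) (fun x c => avb x.y2 x.t c) (fun x c => avb x.y3 x.t' c)
    (fun x l => avb x.y4 x.t' l.1 && kapOK x l.2) dN3 cN3 (B1, c1) m1 (B2, c2) m2 (B3, c3) m3
    ((B4, c4), (Z, Su, Sv)) (mem_lprod m4 hS)
  unfold kapOK at x4
  rw [Bool.and_eq_true, Bool.and_eq_true, Bool.and_eq_true, Bool.and_eq_true, svOK_iff, avb_iff,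
    List.any_eq_true, nq_iff, nq_iff] at x4
  rw [avb_iff] at x1 x2 x3
  have hs := Sol.of_base0 x0
  obtain ⟨⟨q1, q2, q3⟩, z1, z2, ⟨U, hU, u1⟩, V, hV, q4, q5⟩ := x4
  rw [Bool.and_eq_true, far_iff, far_iff] at u1
  exact ⟨_, _, _, _, _, _, _, _, U, V, hs, ⟨x1.1, n1 _ hs.y1o x1.1 x1.2.1⟩,
    ⟨x2.1, n2 _ hs.y2o x2.1 x2.2.1⟩, ⟨x3.1, n3 _ hs.y3o x3.1 x3.2.1⟩,
    ⟨q1, n4 _ hs.y4o q1 q2⟩, ⟨x1.2.2, x2.2.2, x3.2.2, q3⟩, ⟨z1, z2⟩, ⟨hU, u1.1, u1.2⟩, hV, q4,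
    q5⟩

end Pool.Agent.helper58.L9.K4
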