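import Pool.Agent.helper58.L9.K4QNum

/-!
# The finite lemma without `b1`, final form
-/

set_option autoImplicit false

namespace Pool.Agent.helper58.L9.K4

/-- equal pairs -/
def SP (b c b' c' : ℕ) : Prop := (b = b' ∧ c = c') ∨ (b = c' ∧ c = b')

instance (b c b' c' : ℕ) : Decidable (SP b c b' c') := by
  unfold SP
  infer_instance

theorem midL_iff {l : List ℕ} {a b : ℕ} (h : midL l a b = true) : MidP l a b := by
  unfold midL at h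
  cases l with
  | nil => exact Or.inl rfl
  | cons u l =>
    right
    simp only [List.any_eq_true] at h
    obtain ⟨v, hv, hv'⟩ := h
    simp only [Bool.and_eq_true, nq_iff] at hv'
    exact ⟨v, hv, hv'⟩

set_option maxRecDepth 100000 in
theorem c14_pair : ∀ b ∈ odds, ∀ c ∈ odds, b ≠ c → ∃ p ∈ pairs, p = (b, c) ∨ p = (c, b) := by
  decide +kernel

set_option maxRecDepth 100000 in
theorem c14_mem : ∀ p ∈ pairs, ∀ p' ∈ pairs, p ≠ p' → (p, p') ∈ c14 := by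
  decide +kernel

theorem c14_av {y b c : ℕ} {p : ℕ × ℕ} (h : p = (b, c) ∨ p = (c, b)) (ha : av y p = true) :
    y ≠ b ∧ y ≠ c := by
  unfold av at ha
  rw [Bool.and_eq_true, nq_iff, nq_iff] at ha
  rcases h with rfl | rfl
  · exact ha
  · exact ⟨ha.2, ha.1⟩

theorem c14_aux : ∀ b ∈ odds, ∀ c ∈ odds, b ≠ c → ∀ b' ∈ odds, ∀ c' ∈ odds, b' ≠ c' →
    ¬ SP b c b' c' → ∃ e ∈ c14, ∀ y ∈ odds, (av y e.1 = true → y ≠ b ∧ y ≠ c) ∧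
      (av y e.2 = true → y ≠ b' ∧ y ≠ c') := by
  intro b hb c hc n b' hb' c' hc' n' hS
  obtain ⟨p, hp, h⟩ := c14_pair b hb c hc n
  obtain ⟨p', hp', h'⟩ := c14_pair b' hb' c' hc' n'
  have hne : p ≠ p' := by
    rintro rfl
    apply hS
    unfold SP
    rcases h with rfl | rfl
    · rcases h' with h' | h'
      · rw [Prod.mk.injEq] at h'
        exact Or.inl h'
      · rw [Prod.mk.injEq] at h'
        exact Or.inr h'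
    · rcases h' with h' | h'
      · rw [Prod.mk.injEq] at h'
        exact Or.inr ⟨h'.2, h'.1⟩
      · rw [Prod.mk.injEq] at h'
        exact Or.inl ⟨h'.2, h'.1⟩
  exact ⟨(p, p'), c14_mem p hp p' hp' hne, fun y _ => ⟨c14_av h, c14_av h'⟩⟩

set_option maxRecDepth 100000 in
theorem cab_aux_1 : ∀ c ∈ odds, (1 : ℕ) ≠ c → ∀ b' ∈ odds, ∀ c' ∈ odds, b' ≠ c' →
    ¬ SP 1 c b' c' → (1, c, b', c') ∈ cab := by
  decide +kernel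

set_option maxRecDepth 100000 in
theorem cab_aux_3 : ∀ c ∈ odds, (3 : ℕ) ≠ c → ∀ b' ∈ odds, ∀ c' ∈ odds, b' ≠ c' →
    ¬ SP 3 c b' c' → (3, c, b', c') ∈ cab := by
  decide +kernel

set_option maxRecDepth 100000 in
theorem cab_aux_5 : ∀ c ∈ odds, (5 : ℕ) ≠ c → ∀ b' ∈ odds, ∀ c' ∈ odds, b' ≠ c' →
    ¬ SP 5 c b' c' → (5, c, b', c') ∈ cab := by
  decide +kernel

set_option maxRecDepth 100000 in
theorem cab_aux_7 : ∀ c ∈ odds, (7 : ℕ) ≠ c → ∀ b' ∈ odds, ∀ c' ∈ odds, b' ≠ c' →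
    ¬ SP 7 c b' c' → (7, c, b', c') ∈ cab := by
  decide +kernel

set_option maxRecDepth 100000 in
theorem cab_aux_9 : ∀ c ∈ odds, (9 : ℕ) ≠ c → ∀ b' ∈ odds, ∀ c' ∈ odds, b' ≠ c' →
    ¬ SP 9 c b' c' → (9, c, b', c') ∈ cab := by
  decide +kernel

theorem cab_aux : ∀ b ∈ odds, ∀ c ∈ odds, b ≠ c → ∀ b' ∈ odds, ∀ c' ∈ odds, b' ≠ c' →
    ¬ SP b c b' c' → (b, c, b', c') ∈ cab := by
  intro b hb
  simp only [odds, List.mem_cons, List.not_mem_nil, or_false] at hb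
  rcases hb with rfl | rfl | rfl | rfl | rfl
  exacts [cab_aux_1, cab_aux_3, cab_aux_5, cab_aux_7, cab_aux_9]

set_option maxRecDepth 100000 in
theorem kql_aux : ∀ k ∈ kndQ, (k.2.1, k.2.2) ∈ kql := by
  decide +kernel

theorem table1 {l1 l2 : List ℕ} (hk : (l1, l2) ∈ kql) {b1 c1 b4 c4 : ℕ} (hb1 : b1 ∈ odds)
    (hc1 : c1 ∈ odds) (n1 : b1 ≠ c1) (hb4 : b4 ∈ odds) (hc4 : c4 ∈ odds) (n4 : b4 ≠ c4)
    (hne : ¬ SP b1 c1 b4 c4) (b2 c2 b3 c3 : ℕ) :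
    ∃ t t' s s' y1 y2 y3 y4, (Sol t t' s s' y1 y2 y3 y4 ∧ t % 2 = 0 ∧ t' % 2 = 0) ∧
      (y1 ≠ b1 ∧ y1 ≠ c1) ∧ (y2 ≠ b2 ∧ y2 ≠ c2) ∧ (y3 ≠ b3 ∧ y3 ≠ c3) ∧ (y4 ≠ b4 ∧ y4 ≠ c4) ∧
      MidP l1 t t' ∧ MidP l2 s s' := by
  obtain ⟨e, he, he'⟩ := c14_aux b1 hb1 c1 hc1 n1 b4 hb4 c4 hc4 n4 hne
  obtain ⟨p2, h2, h2'⟩ := norm2 b2 c2
  obtain ⟨p3, h3, h3'⟩ := norm2 b3 c3
  obtain ⟨x, x0, x1, x2, x3, x4⟩ := cover_main rowsQ1 baseP c14 pairs pairs kql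
    (fun x c => av x.y1 c.1 && av x.y4 c.2) (fun x c => av x.y2 c) (fun x c => av x.y3 c)
    (fun x l => midL l.1 x.t x.t' && midL l.2 x.s x.s') dQ1 cQ1 e he p2 h2 p3 h3 (l1, l2) hk
  rw [Bool.and_eq_true] at x1 x4
  unfold baseP at x0
  rw [Bool.and_eq_true, Bool.and_eq_true, ev8_iff, ev8_iff] at x0
  have hs := Sol.of_base0 x0.2
  exact ⟨_, _, _, _, _, _, _, _, ⟨hs, x0.1.1.1, x0.1.2.1⟩,
    (he' _ (mem_odds.mpr hs.y1o)).1 x1.1, h2' _ hs.y2o x2, h3' _ hs.y3o x3,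
    (he' _ (mem_odds.mpr hs.y4o)).2 x1.2, midL_iff x4.1, midL_iff x4.2⟩

theorem MidP.swap {l : List ℕ} {a b : ℕ} (h : MidP l a b) : MidP l b a := by
  rcases h with h | ⟨U, h1, h2, h3⟩
  · exact Or.inl h
  · exact Or.inr ⟨U, h1, h3, h2⟩

/-- **The finite lemma.** -/
theorem numQ {k : ℕ × List ℕ × List ℕ} (hk : k ∈ kndQ) {b1 c1 b2 c2 b3 c3 b4 c4 : ℕ}
    (hb1 : b1 ∈ odds) (hc1 : c1 ∈ odds) (n1 : b1 ≠ c1) (hb2 : b2 ∈ odds) (hc2 : c2 ∈ odds)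
    (n2 : b2 ≠ c2) (hb3 : b3 ∈ odds) (hc3 : c3 ∈ odds) (n3 : b3 ≠ c3) (hb4 : b4 ∈ odds)
    (hc4 : c4 ∈ odds) (n4 : b4 ≠ c4)
    (hne : ¬ (SP b1 c1 b4 c4 ∧ SP b2 c2 b3 c3 ∧ SP b1 c1 b2 c2)) :
    ∃ n1 n2 n3 n4 m1 m2 m3 m4 : ℕ, (m2 ≠ b2 ∧ m2 ≠ c2) ∧ (m3 ≠ b3 ∧ m3 ≠ c3) ∧
      (m4 ≠ b4 ∧ m4 ≠ c4) ∧
      (AltP b1 c1 k.2.1 k.2.2 n1 n2 n3 n4 m1 m2 m3 m4 ∨
        AltT b1 c1 b2 k.1 k.2.1 k.2.2 n1 n2 n3 n4 m1 m2 m3 m4) := by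
  by_cases h14 : SP b1 c1 b4 c4
  · by_cases h23 : SP b2 c2 b3 c3
    · have h12 : ¬ SP b1 c1 b2 c2 := fun hh => hne ⟨h14, h23, hh⟩
      obtain ⟨x, x0, x1, _, _, x4⟩ := cover_main rowsQ2 (fun x => odd9 x.y1 && baseY x) cab [0]
        [0] kndQ gab (fun _ _ => true) (fun _ _ => true) (fun x k => kok x k) dQ2 cQ2
        (b1, c1, b2, c2) (cab_aux b1 hb1 c1 hc1 n1 b2 hb2 c2 hc2 n2 h12) 0 (by simp) 0
        (by simp) k hk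
      unfold gab at x1
      rw [Bool.and_eq_true, Bool.and_eq_true, Bool.and_eq_true, Bool.and_eq_true] at x1
      rw [Bool.and_eq_true, odd9_iff] at x0
      obtain ⟨g1, g2, g4, g5, g6⟩ := x1
      have av_iff : ∀ {y : ℕ} {c : ℕ × ℕ}, av y c = true → y ≠ c.1 ∧ y ≠ c.2 := by
        intro y c h
        unfold av at h
        rw [Bool.and_eq_true, nq_iff, nq_iff] at h
        exact h
      have k4 := av_iff g4
      have k5 := av_iff g5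
      have k6 := av_iff g6
      simp only at k4 k5 k6
      have halt := row_alt (b2 := b2) (d1 := 0) x0.2 g1 g2 (fun y _ ha => (av_iff ha).1) x4
      refine ⟨x.t, x.t', x.s, x.s', x.y1, x.y2, x.y3, x.y4, k5, ?_, ?_, ?_⟩
      · rcases h23 with ⟨e1, e2⟩ | ⟨e1, e2⟩
        · rw [← e1, ← e2]; exact k6
        · rw [← e1, ← e2]; exact ⟨k6.2, k6.1⟩
      · rcases h14 with ⟨e1, e2⟩ | ⟨e1, e2⟩
        · rw [← e1, ← e2]; exact k4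
        · rw [← e1, ← e2]; exact ⟨k4.2, k4.1⟩
      · rcases halt with h | h | h
        · exact Or.inl h
        · exfalso
          have := h.1.ee
          omega
        · exact Or.inr h
    · obtain ⟨t, t', s, s', y1, y2, y3, y4, ⟨hs, e1, e2⟩, k1, k2, k3, k4, k5, k6⟩ :=
        table1 (kql_aux k hk) hb3 hc3 n3 hb2 hc2 n2 (fun hh => h23 (by
          rcases hh with ⟨e1, e2⟩ | ⟨e1, e2⟩
          · exact Or.inl ⟨e1.symm, e2.symm⟩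
          · exact Or.inr ⟨e2.symm, e1.symm⟩)) b4 c4 b1 c1
      exact ⟨t', t, s, s', y3, y4, y1, y2, k4, k1, k2, Or.inl ⟨hs.swapT, ⟨e2, e1⟩, k3, k5.swap, k6⟩⟩
  · obtain ⟨t, t', s, s', y1, y2, y3, y4, ⟨hs, e1, e2⟩, k1, k2, k3, k4, k5, k6⟩ :=
      table1 (kql_aux k hk) hb1 hc1 n1 hb4 hc4 n4 h14 b2 c2 b3 c3
    exact ⟨t, t', s, s', y1, y2, y3, y4, k2, k3, k4, Or.inl ⟨hs, ⟨e1, e2⟩, k1, k5, k6⟩⟩

end Pool.Agent.helper58.L9.K4
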