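import Pool.Agent.helper58.L9.K4Dyn

/-!
# The lists of the middles
-/

set_option autoImplicit false

namespace Pool.Agent.helper58.L9

open K4

namespace K4

/-- the lists of a middle -/
def Ls : List (List ℕ) :=
  [[4, 6], [4, 8], [6, 8], [0, 6], [0, 8], [0, 2], [2, 8], [0, 4], [2, 4], [2, 4, 6]]

theorem sel_list (Z w : ℕ) (hZ : Z ∈ odds ∨ Z = 100) :
    ∃ l ∈ Ls, (∀ a ∈ l, Adm Z w a) ∧ (l = [2, 4] → Z = 7) ∧ (l = [4, 6] → Z = 1) ∧
      (l = [6, 8] → Z = 1 ∨ Z = 3) := by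
  rw [mem_odds] at hZ
  have hZ' : Z = 1 ∨ Z = 3 ∨ Z = 5 ∨ Z = 7 ∨ Z = 9 ∨ Z = 100 := by omega
  rcases hZ' with rfl | rfl | rfl | rfl | rfl | rfl
  · have key : (Adm 1 w 4 ∧ Adm 1 w 6) ∨ (Adm 1 w 4 ∧ Adm 1 w 8) ∨ (Adm 1 w 6 ∧ Adm 1 w 8) := by
      unfold Adm
      omega
    rcases key with h | h | h
    · exact ⟨[4, 6], by decide, by simpa using h, by decide, by decide, by decide⟩
    · exact ⟨[4, 8], by decide, by simpa using h, by decide, by decide, by decide⟩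
    · exact ⟨[6, 8], by decide, by simpa using h, by decide, by decide, by decide⟩
  · have key : (Adm 3 w 0 ∧ Adm 3 w 6) ∨ (Adm 3 w 0 ∧ Adm 3 w 8) ∨ (Adm 3 w 6 ∧ Adm 3 w 8) := by
      unfold Adm
      omega
    rcases key with h | h | h
    · exact ⟨[0, 6], by decide, by simpa using h, by decide, by decide, by decide⟩
    · exact ⟨[0, 8], by decide, by simpa using h, by decide, by decide, by decide⟩
    · exact ⟨[6, 8], by decide, by simpa using h, by decide, by decide, by decide⟩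
  · have key : (Adm 5 w 0 ∧ Adm 5 w 2) ∨ (Adm 5 w 0 ∧ Adm 5 w 8) ∨ (Adm 5 w 2 ∧ Adm 5 w 8) := by
      unfold Adm
      omega
    rcases key with h | h | h
    · exact ⟨[0, 2], by decide, by simpa using h, by decide, by decide, by decide⟩
    · exact ⟨[0, 8], by decide, by simpa using h, by decide, by decide, by decide⟩
    · exact ⟨[2, 8], by decide, by simpa using h, by decide, by decide, by decide⟩
  · have key : (Adm 7 w 0 ∧ Adm 7 w 2) ∨ (Adm 7 w 0 ∧ Adm 7 w 4) ∨ (Adm 7 w 2 ∧ Adm 7 w 4) := by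
      unfold Adm
      omega
    rcases key with h | h | h
    · exact ⟨[0, 2], by decide, by simpa using h, by decide, by decide, by decide⟩
    · exact ⟨[0, 4], by decide, by simpa using h, by decide, by decide, by decide⟩
    · exact ⟨[2, 4], by decide, by simpa using h, by decide, by decide, by decide⟩
  · have key : (Adm 9 w 0 ∧ Adm 9 w 2) ∨ (Adm 9 w 0 ∧ Adm 9 w 4) ∨
        (Adm 9 w 2 ∧ Adm 9 w 4 ∧ Adm 9 w 6) := by
      unfold Adm
      omega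
    rcases key with h | h | h
    · exact ⟨[0, 2], by decide, by simpa using h, by decide, by decide, by decide⟩
    · exact ⟨[0, 4], by decide, by simpa using h, by decide, by decide, by decide⟩
    · exact ⟨[2, 4, 6], by decide, by simpa using h, by decide, by decide, by decide⟩
  · have key : (Adm 100 w 0 ∧ Adm 100 w 2) ∨ (Adm 100 w 0 ∧ Adm 100 w 4) ∨
        (Adm 100 w 2 ∧ Adm 100 w 8) := by
      unfold Adm
      omega
    rcases key with h | h | h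
    · exact ⟨[0, 2], by decide, by simpa using h, by decide, by decide, by decide⟩
    · exact ⟨[0, 4], by decide, by simpa using h, by decide, by decide, by decide⟩
    · exact ⟨[2, 8], by decide, by simpa using h, by decide, by decide, by decide⟩

theorem ls_ne : ∀ l ∈ Ls, l ≠ [] := by decide

theorem ls_knd : ∀ l ∈ Ls, ∀ l' ∈ Ls, (21, l, l') ∈ knd ∨
    (l = l' ∧ (l = [2, 4] ∨ l = [4, 6] ∨ l = [6, 8])) := by
  decide +kernel

/-- the exceptional kinds -/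
def xk : List (ℕ × List ℕ × List ℕ) :=
  [(7, [2, 4], [2, 4]), (1, [4, 6], [4, 6]), (1, [6, 8], [6, 8]), (3, [6, 8], [6, 8]),
   (21, [0], [2, 4]), (21, [0], [2, 8]), (21, [0], [6, 8]), (21, [4], [6, 8])]

theorem xk_knd : ∀ k ∈ xk, k ∈ knd := by
  decide +kernel

theorem eq_knd : (7, [2, 4], [2, 4]) ∈ knd ∧ (1, [4, 6], [4, 6]) ∈ knd ∧
    (1, [6, 8], [6, 8]) ∈ knd ∧ (3, [6, 8], [6, 8]) ∈ knd ∧ (21, [0], [2, 4]) ∈ knd ∧
    (21, [0], [2, 8]) ∈ knd ∧ (21, [0], [6, 8]) ∈ knd ∧ (21, [4], [6, 8]) ∈ knd := by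
  refine ⟨?_, ?_, ?_, ?_, ?_, ?_, ?_, ?_⟩ <;> (apply xk_knd; simp [xk])

theorem one_knd : ∀ a ∈ ([0, 2, 4, 6, 8] : List ℕ), (21, [], [a]) ∈ knd := by
  decide +kernel

theorem knd_uv : ∀ k ∈ knd, ∃ U V : ℕ, (k.2.1 ≠ [] → U ∈ k.2.1) ∧ (k.2.2 ≠ [] → V ∈ k.2.2) ∧
    (U, V) ∈ uvs := by
  have aux : ∀ k ∈ knd, ∃ U ∈ ([0, 2, 4, 6, 8] : List ℕ), ∃ V ∈ ([0, 2, 4, 6, 8] : List ℕ),
      (k.2.1 ≠ [] → U ∈ k.2.1) ∧ (k.2.2 ≠ [] → V ∈ k.2.2) ∧ (U, V) ∈ uvs := by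
    decide +kernel
  intro k hk
  obtain ⟨U, _, V, _, h⟩ := aux k hk
  exact ⟨U, V, h⟩

/-- lists for two middles with a common cross neighbour -/
theorem sel_link (Z : ℕ) (hZ : Z ∈ odds ∨ Z = 100) :
    ∃ l l' : List ℕ, (21, l, l') ∈ knd ∧ (l ≠ [] ∧ l' ≠ []) ∧ (∀ b ∈ l', Adm Z 100 b) ∧
      ∀ a ∈ l, ∀ b ∈ l', Adm Z b a := by
  obtain ⟨_, _, _, _, k5, k6, k7, k8⟩ := eq_knd
  rw [mem_odds] at hZ
  have hZ' : Z = 1 ∨ Z = 3 ∨ Z = 5 ∨ Z = 7 ∨ Z = 9 ∨ Z = 100 := by omega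
  rcases hZ' with rfl | rfl | rfl | rfl | rfl | rfl
  · exact ⟨_, _, k8, by simp, by simp [Adm], by simp [Adm]⟩
  · exact ⟨_, _, k7, by simp, by simp [Adm], by simp [Adm]⟩
  · exact ⟨_, _, k6, by simp, by simp [Adm], by simp [Adm]⟩
  · exact ⟨_, _, k5, by simp, by simp [Adm], by simp [Adm]⟩
  · exact ⟨_, _, k5, by simp, by simp [Adm], by simp [Adm]⟩
  · exact ⟨_, _, k5, by simp, by simp [Adm], by simp [Adm]⟩

end K4

end Pool.Agent.helper58.L9
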