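import Pool.Agent.helper58.L9.K4QFin
import Pool.Agent.helper58.L9.KgLists

/-!
# Kinds: the properties which are used
-/

set_option autoImplicit false

namespace Pool.Agent.helper58.L9.K4

/-- the properties of a list of kinds -/
structure KOK (kn0 : List (ℕ × List ℕ × List ℕ)) : Prop where
  e : (21, [], []) ∈ kn0
  one : ∀ a ∈ ([0, 2, 4, 6, 8] : List ℕ), (21, [], [a]) ∈ kn0
  link : ∀ Z : ℕ, (Z ∈ odds ∨ Z = 100) → ∃ l l' : List ℕ, (21, l, l') ∈ kn0 ∧
    (l ≠ [] ∧ l' ≠ []) ∧ (∀ b ∈ l', Adm Z 100 b) ∧ ∀ a ∈ l, ∀ b ∈ l', Adm Z b a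
  two : ∀ Z w Z' w' : ℕ, (Z ∈ odds ∨ Z = 100) → (Z' ∈ odds ∨ Z' = 100) →
    ∃ (zz : ℕ) (l l' : List ℕ), (zz, l, l') ∈ kn0 ∧ (l ≠ [] ∧ l' ≠ []) ∧ (∀ a ∈ l, Adm Z w a) ∧
      (∀ a ∈ l', Adm Z' w' a) ∧ (zz ≠ 21 → Z = zz ∧ Z ≠ 100)
  uv : ∀ k ∈ kn0, ∃ U V : ℕ, (k.2.1 ≠ [] → U ∈ k.2.1) ∧ (k.2.2 ≠ [] → V ∈ k.2.2) ∧ (U, V) ∈ uvs

theorem kok_knd : KOK knd where
  e := by decide +kernel
  one := one_knd
  link := sel_link
  uv := knd_uv
  two := by
    intro Z w Z' w' hZ hZ'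
    obtain ⟨l, hl, l1, l2, l3, l4⟩ := sel_list Z w hZ
    obtain ⟨l', hl', l1', _⟩ := sel_list Z' w' hZ'
    obtain ⟨k1, k2, k3, k4, _⟩ := eq_knd
    have ne := ls_ne l hl
    have ne' := ls_ne l' hl'
    rcases ls_knd l hl l' hl' with hk | ⟨he, hk | hk | hk⟩
    · exact ⟨21, l, l', hk, ⟨ne, ne'⟩, l1, l1', fun hh => absurd rfl hh⟩
    · have e := l2 hk
      refine ⟨7, l, l', ?_, ⟨ne, ne'⟩, l1, l1', fun _ => ⟨e, by omega⟩⟩
      rw [← he, hk]
      exact k1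
    · have e := l3 hk
      refine ⟨1, l, l', ?_, ⟨ne, ne'⟩, l1, l1', fun _ => ⟨e, by omega⟩⟩
      rw [← he, hk]
      exact k2
    · rcases l4 hk with e | e
      · refine ⟨1, l, l', ?_, ⟨ne, ne'⟩, l1, l1', fun _ => ⟨e, by omega⟩⟩
        rw [← he, hk]
        exact k3
      · refine ⟨3, l, l', ?_, ⟨ne, ne'⟩, l1, l1', fun _ => ⟨e, by omega⟩⟩
        rw [← he, hk]
        exact k4

theorem sel_listQ (Z w : ℕ) (hZ : Z ∈ odds ∨ Z = 100) :
    ∃ l ∈ Ls, (∀ a ∈ l, Adm Z w a) ∧ (l = [2, 4] → Z = 7) ∧ (l = [4, 6] → Z = 1) ∧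
      (l = [6, 8] → Z = 1 ∨ Z = 3) ∧ (l = [4, 8] → Z = 1) ∧ (l = [0, 8] → Z = 3 ∨ Z = 5) ∧
      (l = [0, 2] → Z = 5 ∨ Z = 7 ∨ Z = 9) := by
  rw [mem_odds] at hZ
  have hZ' : Z = 1 ∨ Z = 3 ∨ Z = 5 ∨ Z = 7 ∨ Z = 9 ∨ Z = 100 := by omega
  rcases hZ' with rfl | rfl | rfl | rfl | rfl | rfl
  · have key : (Adm 1 w 4 ∧ Adm 1 w 6) ∨ (Adm 1 w 4 ∧ Adm 1 w 8) ∨ (Adm 1 w 6 ∧ Adm 1 w 8) := by
      unfold Adm
      omega
    rcases key with h | h | h
    · exact ⟨[4, 6], by decide, by simpa using h, by decide, by decide, by decide, by decide,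
        by decide, by decide⟩
    · exact ⟨[4, 8], by decide, by simpa using h, by decide, by decide, by decide, by decide,
        by decide, by decide⟩
    · exact ⟨[6, 8], by decide, by simpa using h, by decide, by decide, by decide, by decide,
        by decide, by decide⟩
  · have key : (Adm 3 w 0 ∧ Adm 3 w 6) ∨ (Adm 3 w 0 ∧ Adm 3 w 8) ∨ (Adm 3 w 6 ∧ Adm 3 w 8) := by
      unfold Adm
      omega
    rcases key with h | h | h
    · exact ⟨[0, 6], by decide, by simpa using h, by decide, by decide, by decide, by decide,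
        by decide, by decide⟩
    · exact ⟨[0, 8], by decide, by simpa using h, by decide, by decide, by decide, by decide,
        by decide, by decide⟩
    · exact ⟨[6, 8], by decide, by simpa using h, by decide, by decide, by decide, by decide,
        by decide, by decide⟩
  · have key : (Adm 5 w 0 ∧ Adm 5 w 2) ∨ (Adm 5 w 0 ∧ Adm 5 w 8) ∨ (Adm 5 w 2 ∧ Adm 5 w 8) := by
      unfold Adm
      omega
    rcases key with h | h | h
    · exact ⟨[0, 2], by decide, by simpa using h, by decide, by decide, by decide, by decide,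
        by decide, by decide⟩
    · exact ⟨[0, 8], by decide, by simpa using h, by decide, by decide, by decide, by decide,
        by decide, by decide⟩
    · exact ⟨[2, 8], by decide, by simpa using h, by decide, by decide, by decide, by decide,
        by decide, by decide⟩
  · have key : (Adm 7 w 0 ∧ Adm 7 w 2) ∨ (Adm 7 w 0 ∧ Adm 7 w 4) ∨ (Adm 7 w 2 ∧ Adm 7 w 4) := by
      unfold Adm
      omega
    rcases key with h | h | h
    · exact ⟨[0, 2], by decide, by simpa using h, by decide, by decide, by decide, by decide,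
        by decide, by decide⟩
    · exact ⟨[0, 4], by decide, by simpa using h, by decide, by decide, by decide, by decide,
        by decide, by decide⟩
    · exact ⟨[2, 4], by decide, by simpa using h, by decide, by decide, by decide, by decide,
        by decide, by decide⟩
  · have key : (Adm 9 w 0 ∧ Adm 9 w 2) ∨ (Adm 9 w 0 ∧ Adm 9 w 4) ∨
        (Adm 9 w 2 ∧ Adm 9 w 4 ∧ Adm 9 w 6) := by
      unfold Adm
      omega
    rcases key with h | h | h
    · exact ⟨[0, 2], by decide, by simpa using h, by decide, by decide, by decide, by decide,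
        by decide, by decide⟩
    · exact ⟨[0, 4], by decide, by simpa using h, by decide, by decide, by decide, by decide,
        by decide, by decide⟩
    · exact ⟨[2, 4, 6], by decide, by simpa using h, by decide, by decide, by decide, by decide,
        by decide, by decide⟩
  · have key : (Adm 100 w 0 ∧ Adm 100 w 4) ∨ (Adm 100 w 2 ∧ Adm 100 w 8) := by
      unfold Adm
      omega
    rcases key with h | h
    · exact ⟨[0, 4], by decide, by simpa using h, by decide, by decide, by decide, by decide,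
        by decide, by decide⟩
    · exact ⟨[2, 8], by decide, by simpa using h, by decide, by decide, by decide, by decide,
        by decide, by decide⟩

theorem ls_kndQ : ∀ l ∈ Ls, ∀ l' ∈ Ls, (21, l, l') ∈ kndQ ∨
    (l = l' ∧ (l = [2, 4] ∨ l = [4, 6] ∨ l = [6, 8] ∨ l = [4, 8] ∨ l = [0, 8] ∨ l = [0, 2])) := by
  decide +kernel

theorem kq_mem : (7, [2, 4], [2, 4]) ∈ kndQ ∧ (1, [4, 6], [4, 6]) ∈ kndQ ∧
    (1, [6, 8], [6, 8]) ∈ kndQ ∧ (3, [6, 8], [6, 8]) ∈ kndQ ∧ (1, [4, 8], [4, 8]) ∈ kndQ ∧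
    (3, [0, 8], [0, 8]) ∈ kndQ ∧ (5, [0, 8], [0, 8]) ∈ kndQ ∧ (5, [0, 2], [0, 2]) ∈ kndQ ∧
    (7, [0, 2], [0, 2]) ∈ kndQ ∧ (9, [0, 2], [0, 2]) ∈ kndQ := by
  have key : ∀ k ∈ ([(7, [2, 4], [2, 4]), (1, [4, 6], [4, 6]), (1, [6, 8], [6, 8]),
    (3, [6, 8], [6, 8]), (1, [4, 8], [4, 8]), (3, [0, 8], [0, 8]), (5, [0, 8], [0, 8]),
    (5, [0, 2], [0, 2]), (7, [0, 2], [0, 2]), (9, [0, 2], [0, 2])] :
      List (ℕ × List ℕ × List ℕ)), k ∈ kndQ := by decide +kernel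
  refine ⟨?_, ?_, ?_, ?_, ?_, ?_, ?_, ?_, ?_, ?_⟩ <;> (apply key; simp)

theorem kok_kndQ : KOK kndQ where
  e := by decide +kernel
  one := by decide +kernel
  link := by
    intro Z hZ
    have key : ∀ k ∈ ([(21, [0], [2, 4]), (21, [0], [2, 8]), (21, [0], [6, 8]),
      (21, [4], [6, 8])] : List (ℕ × List ℕ × List ℕ)), k ∈ kndQ := by decide +kernel
    rw [mem_odds] at hZ
    have hZ' : Z = 1 ∨ Z = 3 ∨ Z = 5 ∨ Z = 7 ∨ Z = 9 ∨ Z = 100 := by omega
    rcases hZ' with rfl | rfl | rfl | rfl | rfl | rfl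
    · exact ⟨[4], [6, 8], key _ (by simp), by simp, by simp [Adm], by simp [Adm]⟩
    · exact ⟨[0], [6, 8], key _ (by simp), by simp, by simp [Adm], by simp [Adm]⟩
    · exact ⟨[0], [2, 8], key _ (by simp), by simp, by simp [Adm], by simp [Adm]⟩
    · exact ⟨[0], [2, 4], key _ (by simp), by simp, by simp [Adm], by simp [Adm]⟩
    · exact ⟨[0], [2, 4], key _ (by simp), by simp, by simp [Adm], by simp [Adm]⟩
    · exact ⟨[0], [2, 4], key _ (by simp), by simp, by simp [Adm], by simp [Adm]⟩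
  uv := by
    have aux : ∀ k ∈ kndQ, ∃ U ∈ ([0, 2, 4, 6, 8] : List ℕ), ∃ V ∈ ([0, 2, 4, 6, 8] : List ℕ),
        (k.2.1 ≠ [] → U ∈ k.2.1) ∧ (k.2.2 ≠ [] → V ∈ k.2.2) ∧ (U, V) ∈ uvs := by
      decide +kernel
    intro k hk
    obtain ⟨U, _, V, _, h⟩ := aux k hk
    exact ⟨U, V, h⟩
  two := by
    intro Z w Z' w' hZ hZ'
    obtain ⟨l, hl, l1, l2, l3, l4, l5, l6, l7⟩ := sel_listQ Z w hZ
    obtain ⟨l', hl', l1', _⟩ := sel_listQ Z' w' hZ'
    obtain ⟨k1, k2, k3, k4, k5, k6, k7, k8, k9, k10⟩ := kq_mem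
    have ne := ls_ne l hl
    have ne' := ls_ne l' hl'
    rcases ls_kndQ l hl l' hl' with hk | ⟨he, hk | hk | hk | hk | hk | hk⟩
    · exact ⟨21, l, l', hk, ⟨ne, ne'⟩, l1, l1', fun hh => absurd rfl hh⟩
    · have e := l2 hk
      refine ⟨7, l, l', ?_, ⟨ne, ne'⟩, l1, l1', fun _ => ⟨e, by omega⟩⟩
      rw [← he, hk]
      exact k1
    · have e := l3 hk
      refine ⟨1, l, l', ?_, ⟨ne, ne'⟩, l1, l1', fun _ => ⟨e, by omega⟩⟩
      rw [← he, hk]
      exact k2
    · rcases l4 hk with e | e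
      · refine ⟨1, l, l', ?_, ⟨ne, ne'⟩, l1, l1', fun _ => ⟨e, by omega⟩⟩
        rw [← he, hk]
        exact k3
      · refine ⟨3, l, l', ?_, ⟨ne, ne'⟩, l1, l1', fun _ => ⟨e, by omega⟩⟩
        rw [← he, hk]
        exact k4
    · have e := l5 hk
      refine ⟨1, l, l', ?_, ⟨ne, ne'⟩, l1, l1', fun _ => ⟨e, by omega⟩⟩
      rw [← he, hk]
      exact k5
    · rcases l6 hk with e | e
      · refine ⟨3, l, l', ?_, ⟨ne, ne'⟩, l1, l1', fun _ => ⟨e, by omega⟩⟩
        rw [← he, hk]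
        exact k6
      · refine ⟨5, l, l', ?_, ⟨ne, ne'⟩, l1, l1', fun _ => ⟨e, by omega⟩⟩
        rw [← he, hk]
        exact k7
    · rcases l7 hk with e | e | e
      · refine ⟨5, l, l', ?_, ⟨ne, ne'⟩, l1, l1', fun _ => ⟨e, by omega⟩⟩
        rw [← he, hk]
        exact k8
      · refine ⟨7, l, l', ?_, ⟨ne, ne'⟩, l1, l1', fun _ => ⟨e, by omega⟩⟩
        rw [← he, hk]
        exact k9
      · refine ⟨9, l, l', ?_, ⟨ne, ne'⟩, l1, l1', fun _ => ⟨e, by omega⟩⟩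
        rw [← he, hk]
        exact k10

end Pool.Agent.helper58.L9.K4
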