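import Pool.Agent.helper58.L9.K4Fin
import Pool.Agent.helper40.L9.ParLast

/-!
# The K4 obstacle labelled last

`St A Q N X L E f`: `L` is labelled by `f`; `E ⊆ L` is a set of invisible vertices (everything
within distance two of `E` is labelled, `N` is the relation: at distance one or two); outside `E`
the labels are in parity.

`K4Reg`: the region `t, t' | s, s'`, `y1 = (t,s)`, `y2 = (t,s')`, `y3 = (t',s)`, `y4 = (t',s')`.
-/

set_option autoImplicit false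

namespace Pool.Agent.helper58.L9

open Pool.Agent.helper40.L9 (ParOK)
open K4

variable {V : Type*}

/-- labelled set `L` with an invisible part `E` -/
structure St (A Q N : V → V → Prop) (X : V → Prop) (L E : V → Prop) (f : V → ℕ) : Prop where
  par : ParOK A Q X (fun v => L v ∧ ¬ E v) f
  sub : ∀ e, E e → L e
  le : ∀ e, E e → f e ≤ 9
  inv : ∀ e v, E e → N e v → L v
  adj : ∀ e v, E e → A e v → f e + 2 ≤ f v ∨ f v + 2 ≤ f e
  ne : ∀ e v, E e → N e v → f e ≠ f v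

/-- the standing hypotheses on the relations -/
structure Rel (A Q N : V → V → Prop) (X : V → Prop) : Prop where
  As : ∀ u v, A u v → A v u
  Qs : ∀ u v, Q u v → Q v u
  Ns : ∀ u v, N u v → N v u
  AN : ∀ u v, A u v → N u v
  QX : ∀ u v, Q u v → (X u ↔ X v)

variable {A Q N : V → V → Prop} {X L E : V → Prop} {f : V → ℕ}

theorem St.extend (hR : Rel A Q N X) (h : St A Q N X L E f) (P F : V → Prop) (g : V → ℕ)
    (hPL : ∀ v, P v → ¬ L v) (hFL : ∀ v, F v → ¬ L v)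
    (hg : ∀ v, ¬ P v → ¬ F v → g v = f v)
    (hle : ∀ v, P v ∨ F v → g v ≤ 9) (hpar : ∀ v, P v → (X v ↔ Even (g v)))
    (hq : ∀ p q, P p → Q p q → (L q ∧ ¬ E q) ∨ P q → g p ≠ g q)
    (hc : ∀ p q, P p → A p q → ¬ (X p ↔ X q) → (L q ∧ ¬ E q) ∨ P q →
      g p + 1 ≠ g q ∧ g q + 1 ≠ g p)
    (hN : ∀ e x, F e → N e x → L x ∨ P x ∨ F x)
    (hne : ∀ e x, F e → N e x → g e ≠ g x)
    (hadj : ∀ e x, F e → A e x → g e + 2 ≤ g x ∨ g x + 2 ≤ g e) :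
    St A Q N X (fun v => L v ∨ P v ∨ F v) (fun v => E v ∨ F v) g := by
  have gL : ∀ v, L v → g v = f v := fun v hv =>
    hg v (fun hp => hPL v hp hv) (fun hf => hFL v hf hv)
  have key : ∀ v, ((L v ∨ P v ∨ F v) ∧ ¬ (E v ∨ F v)) → (L v ∧ ¬ E v) ∨ P v := by
    rintro v ⟨h1 | h1 | h1, h2⟩
    · exact Or.inl ⟨h1, fun he => h2 (Or.inl he)⟩
    · exact Or.inr h1
    · exact absurd (Or.inr h1) h2
  refine ⟨⟨?_, ?_, ?_, ?_⟩, ?_, ?_, ?_, ?_, ?_⟩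
  · intro v hv
    rcases key v hv with h1 | h1
    · rw [gL v h1.1]
      exact h.par.le v h1
    · exact hle v (Or.inl h1)
  · intro v hv
    rcases key v hv with h1 | h1
    · rw [gL v h1.1]
      exact h.par.par v h1
    · exact hpar v h1
  · intro u v hu hv huv
    rcases key u hu with h1 | h1
    · rcases key v hv with h2 | h2
      · rw [gL u h1.1, gL v h2.1]
        exact h.par.q u v h1 h2 huv
      · exact (hq v u h2 (hR.Qs _ _ huv) (Or.inl h1)).symm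
    · exact hq u v h1 huv (key v hv)
  · intro u v hu hv huv hX
    rcases key u hu with h1 | h1
    · rcases key v hv with h2 | h2
      · rw [gL u h1.1, gL v h2.1]
        exact h.par.cross u v h1 h2 huv hX
      · exact (hc v u h2 (hR.As _ _ huv) (fun h => hX h.symm) (Or.inl h1)).2
    · exact (hc u v h1 huv hX (key v hv)).1
  · rintro e (he | he)
    · exact Or.inl (h.sub e he)
    · exact Or.inr (Or.inr he)
  · rintro e (he | he)
    · rw [gL e (h.sub e he)]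
      exact h.le e he
    · exact hle e (Or.inr he)
  · rintro e v (he | he) hev
    · exact Or.inl (h.inv e v he hev)
    · exact hN e v he hev
  · rintro e v (he | he) hev
    · rw [gL e (h.sub e he), gL v (h.inv e v he (hR.AN _ _ hev))]
      exact h.adj e v he hev
    · exact hadj e v he hev
  · rintro e v (he | he) hev
    · rw [gL e (h.sub e he), gL v (h.inv e v he hev)]
      exact h.ne e v he hev
    · exact hne e v he hev

/-- one more vertex in parity -/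
theorem St.one (hR : Rel A Q N X) (hQne : ∀ v, ¬ Q v v) (h : St A Q N X L E f) (u : V) (a : ℕ)
    (hu : ¬ L u) (ha : a ≤ 9) (hpar : X u ↔ Even a)
    (hq : ∀ x, Q u x → L x → ¬ E x → f x ≠ a)
    (hc : ∀ x, A u x → ¬ (X u ↔ X x) → L x → ¬ E x → a + 1 ≠ f x ∧ f x + 1 ≠ a) :
    ∃ g : V → ℕ, g u = a ∧ (∀ v, v ≠ u → g v = f v) ∧
      St A Q N X (fun v => L v ∨ v = u) E g := by
  classical
  refine ⟨fun v => if v = u then a else f v, by simp, fun v hv => by simp [hv], ?_⟩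
  have hLu : ∀ x, L x → x ≠ u := fun x hx he => hu (he ▸ hx)
  have := h.extend hR (fun v => v = u) (fun _ => False) (fun v => if v = u then a else f v)
    (by rintro v rfl; exact hu) (fun v hv => hv.elim)
    (fun v hv _ => by simp [hv]) (by rintro v (rfl | hv); · simpa using ha
                                     · exact hv.elim)
    (by rintro v rfl; simpa using hpar)
    (by
      rintro p q rfl hpq (hq1 | rfl)
      · have := hq q hpq hq1.1 hq1.2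
        simp only [if_true, hLu q hq1.1, if_false]
        exact this.symm
      · exact absurd hpq (hQne _))
    (by
      rintro p q rfl hpq hX (hq1 | rfl)
      · simp only [if_true, hLu q hq1.1, if_false]
        exact hc q hpq hX hq1.1 hq1.2
      · exact absurd Iff.rfl hX)
    (fun _ _ h => h.elim) (fun _ _ h => h.elim) (fun _ _ h => h.elim)
  have e1 : (fun v => L v ∨ v = u ∨ False) = (fun v => L v ∨ v = u) := by
    funext v
    simp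
  have e2 : (fun v => E v ∨ False) = E := by
    funext v
    simp
  rw [e1, e2] at this
  exact this

/-- the region -/
structure K4Reg (A Q : V → V → Prop) (X : V → Prop) (M1 M2 : V → Prop) (e14 e23 : Prop)
    (t t' s s' y1 y2 y3 y4 b1 b2 b3 b4 c1 c2 c3 c4 : V) : Prop where
  Xt : X t
  Xt' : X t'
  Xs : X s
  Xs' : X s'
  Y1 : ¬ X y1
  Y2 : ¬ X y2
  Y3 : ¬ X y3
  Y4 : ¬ X y4
  B1 : ¬ X b1
  B2 : ¬ X b2
  B3 : ¬ X b3
  B4 : ¬ X b4
  C1 : ¬ X c1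
  C2 : ¬ X c2
  C3 : ¬ X c3
  C4 : ¬ X c4
  tt : t ≠ t'
  ts : t ≠ s
  ts' : t ≠ s'
  t's : t' ≠ s
  t's' : t' ≠ s'
  ss : s ≠ s'
  y12 : y1 ≠ y2
  y13 : y1 ≠ y3
  y14 : y1 ≠ y4
  y23 : y2 ≠ y3
  y24 : y2 ≠ y4
  y34 : y3 ≠ y4
  qt : ∀ x, Q t x → x = t' ∨ x = s ∨ x = s' ∨ M1 x
  qt' : ∀ x, Q t' x → x = t ∨ x = s ∨ x = s' ∨ M1 x
  qs : ∀ x, Q s x → x = s' ∨ x = t ∨ x = t' ∨ M2 x
  qs' : ∀ x, Q s' x → x = s ∨ x = t ∨ x = t' ∨ M2 x
  qy1 : ∀ x, Q y1 x → x = y2 ∨ x = y3 ∨ (x = y4 ∧ e14) ∨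
    ((x = b1 ∨ x = c1) ∧ x ≠ y1 ∧ x ≠ y2 ∧ x ≠ y3 ∧ x ≠ y4)
  qy2 : ∀ x, Q y2 x → x = y1 ∨ x = y4 ∨ (x = y3 ∧ e23) ∨
    ((x = b2 ∨ x = c2) ∧ x ≠ y1 ∧ x ≠ y2 ∧ x ≠ y3 ∧ x ≠ y4)
  qy3 : ∀ x, Q y3 x → x = y1 ∨ x = y4 ∨ (x = y2 ∧ e23) ∨
    ((x = b3 ∨ x = c3) ∧ x ≠ y1 ∧ x ≠ y2 ∧ x ≠ y3 ∧ x ≠ y4)
  qy4 : ∀ x, Q y4 x → x = y2 ∨ x = y3 ∨ (x = y1 ∧ e14) ∨
    ((x = b4 ∨ x = c4) ∧ x ≠ y1 ∧ x ≠ y2 ∧ x ≠ y3 ∧ x ≠ y4)
  ct : ∀ x, A t x → ¬ X x → x = y1 ∨ x = y2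
  ct' : ∀ x, A t' x → ¬ X x → x = y3 ∨ x = y4
  cs : ∀ x, A s x → ¬ X x → x = y1 ∨ x = y3
  cs' : ∀ x, A s' x → ¬ X x → x = y2 ∨ x = y4
  cy1 : ∀ x, A y1 x → X x → x = t ∨ x = s
  cy2 : ∀ x, A y2 x → X x → x = t ∨ x = s'
  cy3 : ∀ x, A y3 x → X x → x = t' ∨ x = s
  cy4 : ∀ x, A y4 x → X x → x = t' ∨ x = s'

/-- the eight vertices -/
def R8 (t t' s s' y1 y2 y3 y4 : V) (v : V) : Prop :=
  v = t ∨ v = t' ∨ v = s ∨ v = s' ∨ v = y1 ∨ v = y2 ∨ v = y3 ∨ v = y4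

theorem exists_g8 (f : V → ℕ) {t t' s s' y1 y2 y3 y4 : V} (tt : t ≠ t') (ts : t ≠ s)
    (ts' : t ≠ s') (t's : t' ≠ s) (t's' : t' ≠ s') (ss : s ≠ s') (y12 : y1 ≠ y2) (y13 : y1 ≠ y3)
    (y14 : y1 ≠ y4) (y23 : y2 ≠ y3) (y24 : y2 ≠ y4) (y34 : y3 ≠ y4) {X : V → Prop}
    (Xt : X t) (Xt' : X t') (Xs : X s) (Xs' : X s') (Y1 : ¬ X y1) (Y2 : ¬ X y2) (Y3 : ¬ X y3)
    (Y4 : ¬ X y4) (a1 a2 a3 a4 b1 b2 b3 b4 : ℕ) :
    ∃ g : V → ℕ, (∀ v, ¬ R8 t t' s s' y1 y2 y3 y4 v → g v = f v) ∧ g t = a1 ∧ g t' = a2 ∧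
      g s = a3 ∧ g s' = a4 ∧ g y1 = b1 ∧ g y2 = b2 ∧ g y3 = b3 ∧ g y4 = b4 := by
  classical
  have h : ∀ a b, X a → ¬ X b → b ≠ a := fun a b ha hb he => hb (he ▸ ha)
  refine ⟨fun v => if v = t then a1 else if v = t' then a2 else if v = s then a3 else
    if v = s' then a4 else if v = y1 then b1 else if v = y2 then b2 else if v = y3 then b3 else
    if v = y4 then b4 else f v, ?_, ?_, ?_, ?_, ?_, ?_, ?_, ?_, ?_⟩
  · intro v hv
    unfold R8 at hv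
    push Not at hv
    obtain ⟨h1, h2, h3, h4, h5, h6, h7, h8⟩ := hv
    simp [h1, h2, h3, h4, h5, h6, h7, h8]
  · simp
  · simp [tt.symm]
  · simp [ts.symm, t's.symm]
  · simp [ts'.symm, t's'.symm, ss.symm]
  · simp [h t y1 Xt Y1, h t' y1 Xt' Y1, h s y1 Xs Y1, h s' y1 Xs' Y1]
  · simp [h t y2 Xt Y2, h t' y2 Xt' Y2, h s y2 Xs Y2, h s' y2 Xs' Y2, y12.symm]
  · simp [h t y3 Xt Y3, h t' y3 Xt' Y3, h s y3 Xs Y3, h s' y3 Xs' Y3, y13.symm, y23.symm]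
  · simp [h t y4 Xt Y4, h t' y4 Xt' Y4, h s y4 Xs Y4, h s' y4 Xs' Y4, y14.symm, y24.symm,
      y34.symm]

section Core

variable {M1 M2 : V → Prop} {e14 e23 : Prop}
  {t t' s s' y1 y2 y3 y4 b1 b2 b3 b4 c1 c2 c3 c4 : V}

/-- **Extension with everything in parity.** -/
theorem K4Reg.coreP' (hR : Rel A Q N X)
    (hr : K4Reg A Q X M1 M2 e14 e23 t t' s s' y1 y2 y3 y4 b1 b2 b3 b4 c1 c2 c3 c4)
    (h : St A Q N X L E f) (h8 : ∀ v, R8 t t' s s' y1 y2 y3 y4 v → ¬ L v)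
    {n1 n2 n3 n4 m1 m2 m3 m4 : ℕ} (hs : Sol n1 n2 n3 n4 m1 m2 m3 m4)
    (e1 : n1 % 2 = 0) (e2 : n2 % 2 = 0)
    (hM1 : ∀ x, M1 x → L x → ¬ E x → f x ≠ n1 ∧ f x ≠ n2)
    (hM2 : ∀ x, M2 x → L x → ¬ E x → f x ≠ n3 ∧ f x ≠ n4)
    (hM1' : ∀ x, M1 x → ¬ R8 t t' s s' y1 y2 y3 y4 x)
    (hM2' : ∀ x, M2 x → ¬ R8 t t' s s' y1 y2 y3 y4 x)
    (k1 : m1 ≠ f b1 ∧ m1 ≠ f c1) (k2 : m2 ≠ f b2 ∧ m2 ≠ f c2) (k3 : m3 ≠ f b3 ∧ m3 ≠ f c3)
    (k4 : m4 ≠ f b4 ∧ m4 ≠ f c4) (h14 : e14 → m1 ≠ m4) (h23 : e23 → m2 ≠ m3) :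
    ∃ g : V → ℕ, (∀ v, ¬ R8 t t' s s' y1 y2 y3 y4 v → g v = f v) ∧
      (g t = n1 ∧ g t' = n2 ∧ g s = n3 ∧ g s' = n4) ∧
      St A Q N X (fun v => L v ∨ R8 t t' s s' y1 y2 y3 y4 v) E g := by
  obtain ⟨g, g0, gt, gt', gs, gs', gy1, gy2, gy3, gy4⟩ := exists_g8 f hr.tt hr.ts hr.ts' hr.t's
    hr.t's' hr.ss hr.y12 hr.y13 hr.y14 hr.y23 hr.y24 hr.y34 hr.Xt hr.Xt' hr.Xs hr.Xs' hr.Y1
    hr.Y2 hr.Y3 hr.Y4 n1 n2 n3 n4 m1 m2 m3 m4
  refine ⟨g, g0, ⟨gt, gt', gs, gs'⟩, ?_⟩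
  have gL : ∀ x, L x → g x = f x := fun x hx => g0 x (fun hx8 => h8 x hx8 hx)
  -- an outer own neighbour of a y
  have out : ∀ y x, ¬ X y → Q y x → x ≠ y1 ∧ x ≠ y2 ∧ x ≠ y3 ∧ x ≠ y4 → g x = f x := by
    intro y x hy hq hx
    have hXx : ¬ X x := fun hh => hy ((hR.QX _ _ hq).mpr hh)
    apply g0
    rintro (rfl | rfl | rfl | rfl | rfl | rfl | rfl | rfl)
    · exact hXx hr.Xt
    · exact hXx hr.Xt'
    · exact hXx hr.Xs
    · exact hXx hr.Xs'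
    · exact hx.1 rfl
    · exact hx.2.1 rfl
    · exact hx.2.2.1 rfl
    · exact hx.2.2.2 rfl
  have mid1 : ∀ x, M1 x → (L x ∧ ¬ E x) ∨ R8 t t' s s' y1 y2 y3 y4 x →
      g x ≠ n1 ∧ g x ≠ n2 := by
    rintro x hx (hx1 | hx1)
    · rw [gL x hx1.1]
      exact hM1 x hx hx1.1 hx1.2
    · exact absurd hx1 (hM1' x hx)
  have mid2 : ∀ x, M2 x → (L x ∧ ¬ E x) ∨ R8 t t' s s' y1 y2 y3 y4 x →
      g x ≠ n3 ∧ g x ≠ n4 := by
    rintro x hx (hx1 | hx1)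
    · rw [gL x hx1.1]
      exact hM2 x hx hx1.1 hx1.2
    · exact absurd hx1 (hM2' x hx)
  have st := h.extend hR (R8 t t' s s' y1 y2 y3 y4) (fun _ => False) g h8 (fun _ h => h.elim)
    (fun v hv _ => g0 v hv) ?_ ?_ ?_ ?_ (fun _ _ h => h.elim)
    (fun _ _ h => h.elim) (fun _ _ h => h.elim)
  · have q1 : (fun v => L v ∨ R8 t t' s s' y1 y2 y3 y4 v ∨ False) =
        (fun v => L v ∨ R8 t t' s s' y1 y2 y3 y4 v) := by
      funext v
      simp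
    have q2 : (fun v => E v ∨ False) = E := by
      funext v
      simp
    rw [q1, q2] at st
    exact st
  · rintro v (hv | hv)
    · have := hs.t9
      have := hs.t9'
      have := hs.s8
      have := hs.s8'
      have := hs.y1o
      have := hs.y2o
      have := hs.y3o
      have := hs.y4o
      rcases hv with rfl | rfl | rfl | rfl | rfl | rfl | rfl | rfl <;> omega
    · exact hv.elim
  · have := hs.s8
    have := hs.s8'
    have := hs.y1o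
    have := hs.y2o
    have := hs.y3o
    have := hs.y4o
    rintro v (rfl | rfl | rfl | rfl | rfl | rfl | rfl | rfl)
    · rw [gt, Nat.even_iff]
      exact ⟨fun _ => e1, fun _ => hr.Xt⟩
    · rw [gt', Nat.even_iff]
      exact ⟨fun _ => e2, fun _ => hr.Xt'⟩
    · rw [gs, Nat.even_iff]
      exact ⟨fun _ => hs.s8.1, fun _ => hr.Xs⟩
    · rw [gs', Nat.even_iff]
      exact ⟨fun _ => hs.s8'.1, fun _ => hr.Xs'⟩
    · rw [gy1, Nat.even_iff]
      exact ⟨fun hh => absurd hh hr.Y1, fun hh => by omega⟩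
    · rw [gy2, Nat.even_iff]
      exact ⟨fun hh => absurd hh hr.Y2, fun hh => by omega⟩
    · rw [gy3, Nat.even_iff]
      exact ⟨fun hh => absurd hh hr.Y3, fun hh => by omega⟩
    · rw [gy4, Nat.even_iff]
      exact ⟨fun hh => absurd hh hr.Y4, fun hh => by omega⟩
  · rintro p q (rfl | rfl | rfl | rfl | rfl | rfl | rfl | rfl) hpq hq
    · rw [gt]
      rcases hr.qt q hpq with rfl | rfl | rfl | hm
      · rw [gt']; exact hs.tt
      · rw [gs]; exact hs.ts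
      · rw [gs']; exact hs.ts'
      · exact (mid1 q hm hq).1.symm
    · rw [gt']
      rcases hr.qt' q hpq with rfl | rfl | rfl | hm
      · rw [gt]; exact hs.tt.symm
      · rw [gs]; exact hs.t's
      · rw [gs']; exact hs.t's'
      · exact (mid1 q hm hq).2.symm
    · rw [gs]
      rcases hr.qs q hpq with rfl | rfl | rfl | hm
      · rw [gs']; exact hs.ss
      · rw [gt]; exact hs.ts.symm
      · rw [gt']; exact hs.t's.symm
      · exact (mid2 q hm hq).1.symm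
    · rw [gs']
      rcases hr.qs' q hpq with rfl | rfl | rfl | hm
      · rw [gs]; exact hs.ss.symm
      · rw [gt]; exact hs.ts'.symm
      · rw [gt']; exact hs.t's'.symm
      · exact (mid2 q hm hq).2.symm
    · rw [gy1]
      rcases hr.qy1 q hpq with rfl | rfl | ⟨rfl, he⟩ | ⟨hx, ho⟩
      · rw [gy2]; exact hs.y12
      · rw [gy3]; exact hs.y13
      · rw [gy4]; exact h14 he
      · rw [out _ _ hr.Y1 hpq ho]
        rcases hx with rfl | rfl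
        · exact k1.1
        · exact k1.2
    · rw [gy2]
      rcases hr.qy2 q hpq with rfl | rfl | ⟨rfl, he⟩ | ⟨hx, ho⟩
      · rw [gy1]; exact hs.y12.symm
      · rw [gy4]; exact hs.y24
      · rw [gy3]; exact h23 he
      · rw [out _ _ hr.Y2 hpq ho]
        rcases hx with rfl | rfl
        · exact k2.1
        · exact k2.2
    · rw [gy3]
      rcases hr.qy3 q hpq with rfl | rfl | ⟨rfl, he⟩ | ⟨hx, ho⟩
      · rw [gy1]; exact hs.y13.symm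
      · rw [gy4]; exact hs.y34
      · rw [gy2]; exact (h23 he).symm
      · rw [out _ _ hr.Y3 hpq ho]
        rcases hx with rfl | rfl
        · exact k3.1
        · exact k3.2
    · rw [gy4]
      rcases hr.qy4 q hpq with rfl | rfl | ⟨rfl, he⟩ | ⟨hx, ho⟩
      · rw [gy2]; exact hs.y24.symm
      · rw [gy3]; exact hs.y34.symm
      · rw [gy1]; exact (h14 he).symm
      · rw [out _ _ hr.Y4 hpq ho]
        rcases hx with rfl | rfl
        · exact k4.1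
        · exact k4.2
  · have a1 := hs.ty1
    have a2 := hs.ty2
    have a3 := hs.ty3
    have a4 := hs.ty4
    have a5 := hs.sy1
    have a6 := hs.sy2
    have a7 := hs.sy3
    have a8 := hs.sy4
    rintro p q (rfl | rfl | rfl | rfl | rfl | rfl | rfl | rfl) hpq hX _
    · have hXq : ¬ X q := fun hh => hX (iff_of_true hr.Xt hh)
      rw [gt]
      rcases hr.ct q hpq hXq with rfl | rfl
      · rw [gy1]; omega
      · rw [gy2]; omega
    · have hXq : ¬ X q := fun hh => hX (iff_of_true hr.Xt' hh)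
      rw [gt']
      rcases hr.ct' q hpq hXq with rfl | rfl
      · rw [gy3]; omega
      · rw [gy4]; omega
    · have hXq : ¬ X q := fun hh => hX (iff_of_true hr.Xs hh)
      rw [gs]
      rcases hr.cs q hpq hXq with rfl | rfl
      · rw [gy1]; omega
      · rw [gy3]; omega
    · have hXq : ¬ X q := fun hh => hX (iff_of_true hr.Xs' hh)
      rw [gs']
      rcases hr.cs' q hpq hXq with rfl | rfl
      · rw [gy2]; omega
      · rw [gy4]; omega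
    · have hXq : X q := by
        by_contra hh
        exact hX (iff_of_false hr.Y1 hh)
      rw [gy1]
      rcases hr.cy1 q hpq hXq with rfl | rfl
      · rw [gt]; omega
      · rw [gs]; omega
    · have hXq : X q := by
        by_contra hh
        exact hX (iff_of_false hr.Y2 hh)
      rw [gy2]
      rcases hr.cy2 q hpq hXq with rfl | rfl
      · rw [gt]; omega
      · rw [gs']; omega
    · have hXq : X q := by
        by_contra hh
        exact hX (iff_of_false hr.Y3 hh)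
      rw [gy3]
      rcases hr.cy3 q hpq hXq with rfl | rfl
      · rw [gt']; omega
      · rw [gs]; omega
    · have hXq : X q := by
        by_contra hh
        exact hX (iff_of_false hr.Y4 hh)
      rw [gy4]
      rcases hr.cy4 q hpq hXq with rfl | rfl
      · rw [gt']; omega
      · rw [gs']; omega

/-- the same without the values -/
theorem K4Reg.coreP (hR : Rel A Q N X)
    (hr : K4Reg A Q X M1 M2 e14 e23 t t' s s' y1 y2 y3 y4 b1 b2 b3 b4 c1 c2 c3 c4)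
    (h : St A Q N X L E f) (h8 : ∀ v, R8 t t' s s' y1 y2 y3 y4 v → ¬ L v)
    {n1 n2 n3 n4 m1 m2 m3 m4 : ℕ} (hs : Sol n1 n2 n3 n4 m1 m2 m3 m4)
    (e1 : n1 % 2 = 0) (e2 : n2 % 2 = 0)
    (hM1 : ∀ x, M1 x → L x → ¬ E x → f x ≠ n1 ∧ f x ≠ n2)
    (hM2 : ∀ x, M2 x → L x → ¬ E x → f x ≠ n3 ∧ f x ≠ n4)
    (hM1' : ∀ x, M1 x → ¬ R8 t t' s s' y1 y2 y3 y4 x)
    (hM2' : ∀ x, M2 x → ¬ R8 t t' s s' y1 y2 y3 y4 x)
    (k1 : m1 ≠ f b1 ∧ m1 ≠ f c1) (k2 : m2 ≠ f b2 ∧ m2 ≠ f c2) (k3 : m3 ≠ f b3 ∧ m3 ≠ f c3)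
    (k4 : m4 ≠ f b4 ∧ m4 ≠ f c4) (h14 : e14 → m1 ≠ m4) (h23 : e23 → m2 ≠ m3) :
    ∃ g : V → ℕ, (∀ v, ¬ R8 t t' s s' y1 y2 y3 y4 v → g v = f v) ∧
      St A Q N X (fun v => L v ∨ R8 t t' s s' y1 y2 y3 y4 v) E g := by
  obtain ⟨g, g0, _, st⟩ := hr.coreP' hR h h8 hs e1 e2 hM1 hM2 hM1' hM2' k1 k2 k3 k4 h14 h23
  exact ⟨g, g0, st⟩

/-- **Extension with `t`, `t'` arbitrary (they become invisible).** -/
theorem K4Reg.core1' (hR : Rel A Q N X)
    (hr : K4Reg A Q X M1 M2 e14 e23 t t' s s' y1 y2 y3 y4 b1 b2 b3 b4 c1 c2 c3 c4)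
    (h : St A Q N X L E f) (h8 : ∀ v, R8 t t' s s' y1 y2 y3 y4 v → ¬ L v)
    {n1 n2 n3 n4 m1 m2 m3 m4 : ℕ} (hs : Sol n1 n2 n3 n4 m1 m2 m3 m4)
    (hM2 : ∀ x, M2 x → L x → ¬ E x → f x ≠ n3 ∧ f x ≠ n4)
    (hM1' : ∀ x, M1 x → ¬ R8 t t' s s' y1 y2 y3 y4 x)
    (hM2' : ∀ x, M2 x → ¬ R8 t t' s s' y1 y2 y3 y4 x)
    (k1 : m1 ≠ f b1 ∧ m1 ≠ f c1) (k2 : m2 ≠ f b2 ∧ m2 ≠ f c2) (k3 : m3 ≠ f b3 ∧ m3 ≠ f c3)
    (k4 : m4 ≠ f b4 ∧ m4 ≠ f c4) (h14 : e14 → m1 ≠ m4) (h23 : e23 → m2 ≠ m3)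
    (hNt : ∀ x, N t x → x = t' ∨ x = s ∨ x = s' ∨ x = y1 ∨ x = y2 ∨ (x = y3 ∧ n1 ≠ m3) ∨
      (x = y4 ∧ n1 ≠ m4) ∨ (L x ∧ n1 ≠ f x))
    (hNt' : ∀ x, N t' x → x = t ∨ x = s ∨ x = s' ∨ x = y3 ∨ x = y4 ∨ (x = y1 ∧ n2 ≠ m1) ∨
      (x = y2 ∧ n2 ≠ m2) ∨ (L x ∧ n2 ≠ f x))
    (hAt : ∀ x, A t x → x = y1 ∨ x = y2 ∨ (x = t' ∧ (n1 + 2 ≤ n2 ∨ n2 + 2 ≤ n1)) ∨
      (L x ∧ (n1 + 2 ≤ f x ∨ f x + 2 ≤ n1)))
    (hAt' : ∀ x, A t' x → x = y3 ∨ x = y4 ∨ (x = t ∧ (n1 + 2 ≤ n2 ∨ n2 + 2 ≤ n1)) ∨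
      (L x ∧ (n2 + 2 ≤ f x ∨ f x + 2 ≤ n2))) :
    ∃ g : V → ℕ, (∀ v, ¬ R8 t t' s s' y1 y2 y3 y4 v → g v = f v) ∧
      (g t = n1 ∧ g t' = n2 ∧ g s = n3 ∧ g s' = n4) ∧
      St A Q N X (fun v => L v ∨ R8 t t' s s' y1 y2 y3 y4 v) (fun v => E v ∨ v = t ∨ v = t') g := by
  obtain ⟨g, g0, gt, gt', gs, gs', gy1, gy2, gy3, gy4⟩ := exists_g8 f hr.tt hr.ts hr.ts' hr.t's
    hr.t's' hr.ss hr.y12 hr.y13 hr.y14 hr.y23 hr.y24 hr.y34 hr.Xt hr.Xt' hr.Xs hr.Xs' hr.Y1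
    hr.Y2 hr.Y3 hr.Y4 n1 n2 n3 n4 m1 m2 m3 m4
  refine ⟨g, g0, ⟨gt, gt', gs, gs'⟩, ?_⟩
  set P : V → Prop := fun v => v = s ∨ v = s' ∨ v = y1 ∨ v = y2 ∨ v = y3 ∨ v = y4 with hP
  set F : V → Prop := fun v => v = t ∨ v = t' with hF
  have h8P : ∀ v, P v → R8 t t' s s' y1 y2 y3 y4 v := fun v hv => Or.inr (Or.inr hv)
  have h8F : ∀ v, F v → R8 t t' s s' y1 y2 y3 y4 v := by
    rintro v (hv | hv)
    · exact Or.inl hv
    · exact Or.inr (Or.inl hv)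
  have hPF8 : ∀ v, ¬ P v → ¬ F v → ¬ R8 t t' s s' y1 y2 y3 y4 v := by
    rintro v h1 h2 (h3 | h3 | h3)
    · exact h2 (Or.inl h3)
    · exact h2 (Or.inr h3)
    · exact h1 h3
  have gL : ∀ x, L x → g x = f x := fun x hx => g0 x (fun hx8 => h8 x hx8 hx)
  -- an outer own neighbour of a y
  have out : ∀ y x, ¬ X y → Q y x → x ≠ y1 ∧ x ≠ y2 ∧ x ≠ y3 ∧ x ≠ y4 → g x = f x := by
    intro y x hy hq hx
    have hXx : ¬ X x := fun hh => hy ((hR.QX _ _ hq).mpr hh)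
    apply g0
    rintro (rfl | rfl | rfl | rfl | rfl | rfl | rfl | rfl)
    · exact hXx hr.Xt
    · exact hXx hr.Xt'
    · exact hXx hr.Xs
    · exact hXx hr.Xs'
    · exact hx.1 rfl
    · exact hx.2.1 rfl
    · exact hx.2.2.1 rfl
    · exact hx.2.2.2 rfl
  have mid2 : ∀ x, M2 x → (L x ∧ ¬ E x) ∨ P x → g x ≠ n3 ∧ g x ≠ n4 := by
    rintro x hx (hx1 | hx1)
    · rw [gL x hx1.1]
      exact hM2 x hx hx1.1 hx1.2
    · exact absurd (h8P x hx1) (hM2' x hx)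
  have a1 := hs.ty1
  have a2 := hs.ty2
  have a3 := hs.ty3
  have a4 := hs.ty4
  have a5 := hs.sy1
  have a6 := hs.sy2
  have a7 := hs.sy3
  have a8 := hs.sy4
  have st := h.extend hR P F g (fun v hv => h8 v (h8P v hv)) (fun v hv => h8 v (h8F v hv))
    (fun v h1 h2 => g0 v (hPF8 v h1 h2)) ?_ ?_ ?_ ?_ ?_ ?_ ?_
  · have q1 : (fun v => L v ∨ P v ∨ F v) =
        (fun v => L v ∨ R8 t t' s s' y1 y2 y3 y4 v) := by
      funext v
      apply propext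
      constructor
      · rintro (h1 | h1 | h1)
        · exact Or.inl h1
        · exact Or.inr (h8P v h1)
        · exact Or.inr (h8F v h1)
      · rintro (h1 | h1 | h1 | h1)
        · exact Or.inl h1
        · exact Or.inr (Or.inr (Or.inl h1))
        · exact Or.inr (Or.inr (Or.inr h1))
        · exact Or.inr (Or.inl h1)
    rw [q1] at st
    exact st
  · have := hs.t9
    have := hs.t9'
    have := hs.s8
    have := hs.s8'
    have := hs.y1o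
    have := hs.y2o
    have := hs.y3o
    have := hs.y4o
    rintro v ((rfl | rfl | rfl | rfl | rfl | rfl) | (rfl | rfl)) <;> omega
  · have := hs.s8
    have := hs.s8'
    have := hs.y1o
    have := hs.y2o
    have := hs.y3o
    have := hs.y4o
    rintro v (rfl | rfl | rfl | rfl | rfl | rfl)
    · rw [gs, Nat.even_iff]
      exact ⟨fun _ => hs.s8.1, fun _ => hr.Xs⟩
    · rw [gs', Nat.even_iff]
      exact ⟨fun _ => hs.s8'.1, fun _ => hr.Xs'⟩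
    · rw [gy1, Nat.even_iff]
      exact ⟨fun hh => absurd hh hr.Y1, fun hh => by omega⟩
    · rw [gy2, Nat.even_iff]
      exact ⟨fun hh => absurd hh hr.Y2, fun hh => by omega⟩
    · rw [gy3, Nat.even_iff]
      exact ⟨fun hh => absurd hh hr.Y3, fun hh => by omega⟩
    · rw [gy4, Nat.even_iff]
      exact ⟨fun hh => absurd hh hr.Y4, fun hh => by omega⟩
  · rintro p q (rfl | rfl | rfl | rfl | rfl | rfl) hpq hq
    · rw [gs]
      rcases hr.qs q hpq with rfl | rfl | rfl | hm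
      · rw [gs']; exact hs.ss
      · rw [gt]; exact hs.ts.symm
      · rw [gt']; exact hs.t's.symm
      · exact (mid2 q hm hq).1.symm
    · rw [gs']
      rcases hr.qs' q hpq with rfl | rfl | rfl | hm
      · rw [gs]; exact hs.ss.symm
      · rw [gt]; exact hs.ts'.symm
      · rw [gt']; exact hs.t's'.symm
      · exact (mid2 q hm hq).2.symm
    · rw [gy1]
      rcases hr.qy1 q hpq with rfl | rfl | ⟨rfl, he⟩ | ⟨hx, ho⟩
      · rw [gy2]; exact hs.y12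
      · rw [gy3]; exact hs.y13
      · rw [gy4]; exact h14 he
      · rw [out _ _ hr.Y1 hpq ho]
        rcases hx with rfl | rfl
        · exact k1.1
        · exact k1.2
    · rw [gy2]
      rcases hr.qy2 q hpq with rfl | rfl | ⟨rfl, he⟩ | ⟨hx, ho⟩
      · rw [gy1]; exact hs.y12.symm
      · rw [gy4]; exact hs.y24
      · rw [gy3]; exact h23 he
      · rw [out _ _ hr.Y2 hpq ho]
        rcases hx with rfl | rfl
        · exact k2.1
        · exact k2.2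
    · rw [gy3]
      rcases hr.qy3 q hpq with rfl | rfl | ⟨rfl, he⟩ | ⟨hx, ho⟩
      · rw [gy1]; exact hs.y13.symm
      · rw [gy4]; exact hs.y34
      · rw [gy2]; exact (h23 he).symm
      · rw [out _ _ hr.Y3 hpq ho]
        rcases hx with rfl | rfl
        · exact k3.1
        · exact k3.2
    · rw [gy4]
      rcases hr.qy4 q hpq with rfl | rfl | ⟨rfl, he⟩ | ⟨hx, ho⟩
      · rw [gy2]; exact hs.y24.symm
      · rw [gy3]; exact hs.y34.symm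
      · rw [gy1]; exact (h14 he).symm
      · rw [out _ _ hr.Y4 hpq ho]
        rcases hx with rfl | rfl
        · exact k4.1
        · exact k4.2
  · rintro p q (rfl | rfl | rfl | rfl | rfl | rfl) hpq hX _
    · have hXq : ¬ X q := fun hh => hX (iff_of_true hr.Xs hh)
      rw [gs]
      rcases hr.cs q hpq hXq with rfl | rfl
      · rw [gy1]; omega
      · rw [gy3]; omega
    · have hXq : ¬ X q := fun hh => hX (iff_of_true hr.Xs' hh)
      rw [gs']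
      rcases hr.cs' q hpq hXq with rfl | rfl
      · rw [gy2]; omega
      · rw [gy4]; omega
    · have hXq : X q := by
        by_contra hh
        exact hX (iff_of_false hr.Y1 hh)
      rw [gy1]
      rcases hr.cy1 q hpq hXq with rfl | rfl
      · rw [gt]; omega
      · rw [gs]; omega
    · have hXq : X q := by
        by_contra hh
        exact hX (iff_of_false hr.Y2 hh)
      rw [gy2]
      rcases hr.cy2 q hpq hXq with rfl | rfl
      · rw [gt]; omega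
      · rw [gs']; omega
    · have hXq : X q := by
        by_contra hh
        exact hX (iff_of_false hr.Y3 hh)
      rw [gy3]
      rcases hr.cy3 q hpq hXq with rfl | rfl
      · rw [gt']; omega
      · rw [gs]; omega
    · have hXq : X q := by
        by_contra hh
        exact hX (iff_of_false hr.Y4 hh)
      rw [gy4]
      rcases hr.cy4 q hpq hXq with rfl | rfl
      · rw [gt']; omega
      · rw [gs']; omega
  · rintro e x (rfl | rfl) hex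
    · rcases hNt x hex with rfl | rfl | rfl | rfl | rfl | ⟨rfl, _⟩ | ⟨rfl, _⟩ | ⟨h1, _⟩
      · exact Or.inr (Or.inr (Or.inr rfl))
      · exact Or.inr (Or.inl (Or.inl rfl))
      · exact Or.inr (Or.inl (Or.inr (Or.inl rfl)))
      · exact Or.inr (Or.inl (Or.inr (Or.inr (Or.inl rfl))))
      · exact Or.inr (Or.inl (Or.inr (Or.inr (Or.inr (Or.inl rfl)))))
      · exact Or.inr (Or.inl (Or.inr (Or.inr (Or.inr (Or.inr (Or.inl rfl))))))
      · exact Or.inr (Or.inl (Or.inr (Or.inr (Or.inr (Or.inr (Or.inr rfl))))))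
      · exact Or.inl h1
    · rcases hNt' x hex with rfl | rfl | rfl | rfl | rfl | ⟨rfl, _⟩ | ⟨rfl, _⟩ | ⟨h1, _⟩
      · exact Or.inr (Or.inr (Or.inl rfl))
      · exact Or.inr (Or.inl (Or.inl rfl))
      · exact Or.inr (Or.inl (Or.inr (Or.inl rfl)))
      · exact Or.inr (Or.inl (Or.inr (Or.inr (Or.inr (Or.inr (Or.inl rfl))))))
      · exact Or.inr (Or.inl (Or.inr (Or.inr (Or.inr (Or.inr (Or.inr rfl))))))
      · exact Or.inr (Or.inl (Or.inr (Or.inr (Or.inl rfl))))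
      · exact Or.inr (Or.inl (Or.inr (Or.inr (Or.inr (Or.inl rfl)))))
      · exact Or.inl h1
  · rintro e x (rfl | rfl) hex
    · rw [gt]
      rcases hNt x hex with rfl | rfl | rfl | rfl | rfl | ⟨rfl, h1⟩ | ⟨rfl, h1⟩ | ⟨h1, h2⟩
      · rw [gt']; exact hs.tt
      · rw [gs]; exact hs.ts
      · rw [gs']; exact hs.ts'
      · rw [gy1]; omega
      · rw [gy2]; omega
      · rw [gy3]; exact h1
      · rw [gy4]; exact h1
      · rw [gL x h1]; exact h2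
    · rw [gt']
      rcases hNt' x hex with rfl | rfl | rfl | rfl | rfl | ⟨rfl, h1⟩ | ⟨rfl, h1⟩ | ⟨h1, h2⟩
      · rw [gt]; exact hs.tt.symm
      · rw [gs]; exact hs.t's
      · rw [gs']; exact hs.t's'
      · rw [gy3]; omega
      · rw [gy4]; omega
      · rw [gy1]; exact h1
      · rw [gy2]; exact h1
      · rw [gL x h1]; exact h2
  · rintro e x (rfl | rfl) hex
    · rw [gt]
      rcases hAt x hex with rfl | rfl | ⟨rfl, h1⟩ | ⟨h1, h2⟩
      · rw [gy1]; omega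
      · rw [gy2]; omega
      · rw [gt']; omega
      · rw [gL x h1]; omega
    · rw [gt']
      rcases hAt' x hex with rfl | rfl | ⟨rfl, h1⟩ | ⟨h1, h2⟩
      · rw [gy3]; omega
      · rw [gy4]; omega
      · rw [gt]; omega
      · rw [gL x h1]; omega

/-- the same without the values -/
theorem K4Reg.core1 (hR : Rel A Q N X)
    (hr : K4Reg A Q X M1 M2 e14 e23 t t' s s' y1 y2 y3 y4 b1 b2 b3 b4 c1 c2 c3 c4)
    (h : St A Q N X L E f) (h8 : ∀ v, R8 t t' s s' y1 y2 y3 y4 v → ¬ L v)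
    {n1 n2 n3 n4 m1 m2 m3 m4 : ℕ} (hs : Sol n1 n2 n3 n4 m1 m2 m3 m4)
    (hM2 : ∀ x, M2 x → L x → ¬ E x → f x ≠ n3 ∧ f x ≠ n4)
    (hM1' : ∀ x, M1 x → ¬ R8 t t' s s' y1 y2 y3 y4 x)
    (hM2' : ∀ x, M2 x → ¬ R8 t t' s s' y1 y2 y3 y4 x)
    (k1 : m1 ≠ f b1 ∧ m1 ≠ f c1) (k2 : m2 ≠ f b2 ∧ m2 ≠ f c2) (k3 : m3 ≠ f b3 ∧ m3 ≠ f c3)
    (k4 : m4 ≠ f b4 ∧ m4 ≠ f c4) (h14 : e14 → m1 ≠ m4) (h23 : e23 → m2 ≠ m3)
    (hNt : ∀ x, N t x → x = t' ∨ x = s ∨ x = s' ∨ x = y1 ∨ x = y2 ∨ (x = y3 ∧ n1 ≠ m3) ∨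
      (x = y4 ∧ n1 ≠ m4) ∨ (L x ∧ n1 ≠ f x))
    (hNt' : ∀ x, N t' x → x = t ∨ x = s ∨ x = s' ∨ x = y3 ∨ x = y4 ∨ (x = y1 ∧ n2 ≠ m1) ∨
      (x = y2 ∧ n2 ≠ m2) ∨ (L x ∧ n2 ≠ f x))
    (hAt : ∀ x, A t x → x = y1 ∨ x = y2 ∨ (x = t' ∧ (n1 + 2 ≤ n2 ∨ n2 + 2 ≤ n1)) ∨
      (L x ∧ (n1 + 2 ≤ f x ∨ f x + 2 ≤ n1)))
    (hAt' : ∀ x, A t' x → x = y3 ∨ x = y4 ∨ (x = t ∧ (n1 + 2 ≤ n2 ∨ n2 + 2 ≤ n1)) ∨
      (L x ∧ (n2 + 2 ≤ f x ∨ f x + 2 ≤ n2))) :
    ∃ g : V → ℕ, (∀ v, ¬ R8 t t' s s' y1 y2 y3 y4 v → g v = f v) ∧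
      St A Q N X (fun v => L v ∨ R8 t t' s s' y1 y2 y3 y4 v) (fun v => E v ∨ v = t ∨ v = t') g := by
  obtain ⟨g, g0, _, st⟩ := hr.core1' hR h h8 hs hM2 hM1' hM2' k1 k2 k3 k4 h14 h23 hNt hNt' hAt hAt'
  exact ⟨g, g0, st⟩

end Core

end Pool.Agent.helper58.L9
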