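import Pool.Agent.helper58.L9.K4Ext

/-!
# The K4 obstacle labelled last: the remaining types
-/

set_option autoImplicit false

namespace Pool.Agent.helper58.L9

open Pool.Agent.helper40.L9 (ParOK)
open K4

variable {V : Type*} {A Q N : V → V → Prop} {X L E W : V → Prop} {f f0 : V → ℕ}

section Types

variable {e14 e23 : Prop}
  {t t' s s' y1 y2 y3 y4 b1 b2 b3 b4 c1 c2 c3 c4 : V}

/-- **P2, P3, the middle `v` labelled before**, `f0 v ∈ {0, 2}`. -/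
theorem K4Reg.kext23W (hR : Rel A Q N X) {v : V}
    (hr : K4Reg A Q X (fun _ => False) (fun x => x = v) e14 e23 t t' s s' y1 y2 y3 y4
      b1 b2 b3 b4 c1 c2 c3 c4)
    (hv8 : ¬ R8 t t' s s' y1 y2 y3 y4 v) (hWv : W v) (hfv : f0 v = 0 ∨ f0 v = 2)
    (hreg : Reg1 e14 e23 b1 b2 b3 b4 c1 c2 c3 c4 ∨ (Reg2 W f0 e14 e23 b1 b2 b3 b4 ∧
      Near2 A N t t' s s' y1 y2 y3 y4 b1 b2 b3 b4)) :
    KExt A Q N X W f0 (R8 t t' s s' y1 y2 y3 y4) := by
  intro L E f h hW h8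
  have lv := hW v hWv
  rcases hreg with hreg | ⟨hreg, hn⟩
  · have hU : ∃ U, (U, f v) ∈ uvs := by
      rw [lv.2.2]
      rcases hfv with h1 | h1
      · rw [h1]
        exact ⟨2, by decide⟩
      · rw [h1]
        exact ⟨0, by decide⟩
    obtain ⟨U, hU⟩ := hU
    exact hr.fin1 hR hreg h h8 hU (fun _ hx => hx.elim)
      (by rintro x rfl; rfl) (fun _ hx => hx.elim) (by rintro x rfl; exact hv8)
  · have l1 := hW _ hreg.W1
    have l2 := hW _ hreg.W2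
    have l3 := hW _ hreg.W3
    have l4 := hW _ hreg.W4
    have hS : [f v] ∈ sv2 := by
      rw [lv.2.2]
      rcases hfv with h1 | h1
      · rw [h1]
        decide
      · rw [h1]
        decide
    obtain ⟨n1, n2, n3, n4, m1, m2, m3, m4, V', hs, k1, k2, k3, k4, d, d5,
      d6, q1, q2, q3⟩ := num2 hS (h.odd hW hreg.W1 hr.B1)
        (h.odd hW hreg.W2 hr.B2) (h.odd hW hreg.W3 hr.B3) (h.odd hW hreg.W4 hr.B4)
        (by rw [l1.2.2]; exact hreg.f1) (by rw [l2.2.2]; exact hreg.f2)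
        (by rw [l3.2.2]; exact hreg.f3) (by rw [l4.2.2]; exact hreg.f4) (f c1) (f c2) (f c3) (f c4)
    rw [List.mem_singleton] at q1
    subst q1
    exact hr.fin2 hR hn h h8 hreg.h14 hreg.h23 hs
      (by rintro x rfl _ _; exact ⟨q2.symm, q3.symm⟩) (by rintro x rfl; exact hv8)
      k1 k2 k3 k4 l1.1 l2.1 l3.1 l4.1 d d5 d6

/-- **P2, P3, the middle `v` labelled together with the region.** -/
theorem K4Reg.kext23L (hR : Rel A Q N X) (hQne : ∀ v, ¬ Q v v) {v z' w' : V}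
    (hr : K4Reg A Q X (fun _ => False) (fun x => x = v) e14 e23 t t' s s' y1 y2 y3 y4
      b1 b2 b3 b4 c1 c2 c3 c4)
    (hm : Mid A Q X s s' v z' w')
    (hv8 : ¬ R8 t t' s s' y1 y2 y3 y4 v)
    (hreg : Reg1 e14 e23 b1 b2 b3 b4 c1 c2 c3 c4 ∨ (Reg2 W f0 e14 e23 b1 b2 b3 b4 ∧
      Near2 A N t t' s s' y1 y2 y3 y4 b1 b2 b3 b4)) :
    KExt A Q N X W f0 (fun x => R8 t t' s s' y1 y2 y3 y4 x ∨ x = v) := by
  intro L E f h hW h8
  have hLv : ¬ L v := h8 v (Or.inr rfl)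
  have hLs : ¬ L s := h8 s (Or.inl (Or.inr (Or.inr (Or.inl rfl))))
  have hLs' : ¬ L s' := h8 s' (Or.inl (Or.inr (Or.inr (Or.inr (Or.inl rfl)))))
  have bv : ∀ b, ¬ X b → b ≠ v := fun b hb he => hb (he ▸ hm.Xu)
  -- the common end of both regimes
  have fin : ∀ (V' : ℕ) (f1 : V → ℕ), f1 v = V' → (∀ x, x ≠ v → f1 x = f x) →
      (∃ (g : V → ℕ) (E' : V → Prop),
        St A Q N X (fun x => (L x ∨ x = v) ∨ R8 t t' s s' y1 y2 y3 y4 x) E' g ∧
        (∀ x, ¬ R8 t t' s s' y1 y2 y3 y4 x → g x = f1 x) ∧ (∀ x, E x → E' x) ∧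
        (∀ x, E' x → E x ∨ R8 t t' s s' y1 y2 y3 y4 x)) →
      ∃ (g : V → ℕ) (E' : V → Prop),
        St A Q N X (fun x => L x ∨ (R8 t t' s s' y1 y2 y3 y4 x ∨ x = v)) E' g ∧
        (∀ x, ¬ (R8 t t' s s' y1 y2 y3 y4 x ∨ x = v) → g x = f x) ∧ (∀ x, E x → E' x) ∧
        (∀ x, E' x → E x ∨ (R8 t t' s s' y1 y2 y3 y4 x ∨ x = v)) := by
    rintro V' f1 _ hf1 ⟨g, E', st, g0, g1, g2⟩
    refine ⟨g, E', st.congr (fun x => by tauto) (fun x => Iff.rfl), ?_, g1, ?_⟩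
    · intro x hx
      rw [not_or] at hx
      rw [g0 x hx.1, hf1 x hx.2]
    · intro x hx
      rcases g2 x hx with h1 | h1
      · exact Or.inl h1
      · exact Or.inr (Or.inl h1)
  have h8' : ∀ x, R8 t t' s s' y1 y2 y3 y4 x → ¬ (L x ∨ x = v) := by
    rintro x hx (h1 | rfl)
    · exact h8 x (Or.inl hx) h1
    · exact hv8 hx
  rcases hreg with hreg | ⟨hreg, hn⟩
  · obtain ⟨V', hV, _⟩ := adm_ex (f z') (f w') 0
    obtain ⟨U, hU⟩ : ∃ U, (U, V') ∈ uvs := by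
      by_cases h0 : V' = 0
      · exact ⟨2, uvs_mem (by omega) ⟨hV.1, hV.2.1⟩ (by omega)⟩
      · exact ⟨0, uvs_mem (by omega) ⟨hV.1, hV.2.1⟩ (by omega)⟩
    obtain ⟨f1, f1v, f1x, st1⟩ := hm.add hR hQne h hLv hLs hLs' hV
    exact fin V' f1 f1v f1x (hr.fin1 hR hreg st1 h8' hU (fun _ hx => hx.elim)
      (by rintro x rfl; exact f1v) (fun _ hx => hx.elim) (by rintro x rfl; exact hv8))
  · have l1 := hW _ hreg.W1
    have l2 := hW _ hreg.W2
    have l3 := hW _ hreg.W3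
    have l4 := hW _ hreg.W4
    obtain ⟨S, hS, hSa⟩ := sv2_ex (f z') (f w')
    obtain ⟨n1, n2, n3, n4, m1, m2, m3, m4, V', hs, k1, k2, k3, k4, d, d5,
      d6, q1, q2, q3⟩ := num2 hS (h.odd hW hreg.W1 hr.B1)
        (h.odd hW hreg.W2 hr.B2) (h.odd hW hreg.W3 hr.B3) (h.odd hW hreg.W4 hr.B4)
        (by rw [l1.2.2]; exact hreg.f1) (by rw [l2.2.2]; exact hreg.f2)
        (by rw [l3.2.2]; exact hreg.f3) (by rw [l4.2.2]; exact hreg.f4) (f c1) (f c2) (f c3) (f c4)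
    obtain ⟨f1, f1v, f1x, st1⟩ := hm.add hR hQne h hLv hLs hLs' (hSa V' q1)
    refine fin V' f1 f1v f1x (hr.fin2 hR hn st1 h8' hreg.h14 hreg.h23 hs
      (by rintro x rfl _ _; rw [f1v]; exact ⟨q2.symm, q3.symm⟩) (by rintro x rfl; exact hv8)
      ?_ ?_ ?_ ?_ (Or.inl l1.1) (Or.inl l2.1) (Or.inl l3.1) (Or.inl l4.1) ?_ d5 d6)
    · rw [f1x _ (bv _ hr.B1), f1x _ (bv _ hr.C1)]
      exact k1
    · rw [f1x _ (bv _ hr.B2), f1x _ (bv _ hr.C2)]
      exact k2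
    · rw [f1x _ (bv _ hr.B3), f1x _ (bv _ hr.C3)]
      exact k3
    · rw [f1x _ (bv _ hr.B4), f1x _ (bv _ hr.C4)]
      exact k4
    · rw [f1x _ (bv _ hr.B1), f1x _ (bv _ hr.B2), f1x _ (bv _ hr.B3), f1x _ (bv _ hr.B4)]
      exact d

/-- **P3, P3, both middles labelled before**, `f0 u ∈ {0, 4}`, `f0 v ∈ {2, 6}`. -/
theorem K4Reg.kext33WW (hR : Rel A Q N X) {u v z : V}
    (hr : K4Reg A Q X (fun x => x = u) (fun x => x = v) e14 e23 t t' s s' y1 y2 y3 y4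
      b1 b2 b3 b4 c1 c2 c3 c4)
    (hu8 : ¬ R8 t t' s s' y1 y2 y3 y4 u) (hWu : W u) (hfu : f0 u = 0 ∨ f0 u = 4)
    (hv8 : ¬ R8 t t' s s' y1 y2 y3 y4 v) (hWv : W v) (hfv : f0 v = 2 ∨ f0 v = 6)
    (Xu : X u) (Xz : ¬ X z) (Auz : A u z) (Wz : W z)
    (hreg : Reg1 e14 e23 b1 b2 b3 b4 c1 c2 c3 c4 ∨ (Reg2 W f0 e14 e23 b1 b2 b3 b4 ∧
      Near3 A N t t' s s' y1 y2 y3 y4 b1 b2 b3 b4 u z)) :
    KExt A Q N X W f0 (R8 t t' s s' y1 y2 y3 y4) := by
  intro L E f h hW h8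
  have lu := hW u hWu
  have lv := hW v hWv
  have lz := hW z Wz
  rcases hreg with hreg | ⟨hreg, hn⟩
  · have hU : (f u, f v) ∈ uvs := by
      rw [lv.2.2, lu.2.2]
      rcases hfu with h1 | h1 <;> rcases hfv with h2 | h2 <;> rw [h1, h2] <;> decide
    exact hr.fin1 hR hreg h h8 hU (by rintro x rfl; rfl)
      (by rintro x rfl; rfl) (by rintro x rfl; exact hu8) (by rintro x rfl; exact hv8)
  · have l1 := hW _ hreg.W1
    have l2 := hW _ hreg.W2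
    have l3 := hW _ hreg.W3
    have l4 := hW _ hreg.W4
    have hXuz : ¬ (X u ↔ X z) := fun hh => Xz (hh.mp Xu)
    have hS : (f z, [f u], [f v]) ∈ kaps := by
      refine kaps_W_aux _ ?_ _ ?_ _ (h.odd hW Wz Xz) ?_ ?_
      · rw [lu.2.2]
        rcases hfu with h1 | h1 <;> rw [h1] <;> decide
      · rw [lv.2.2]
        rcases hfv with h1 | h1 <;> rw [h1] <;> decide
      · exact h.par.cross u z ⟨lu.1, lu.2.1⟩ ⟨lz.1, lz.2.1⟩ Auz hXuz
      · exact h.par.cross z u ⟨lz.1, lz.2.1⟩ ⟨lu.1, lu.2.1⟩ (hR.As _ _ Auz)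
          (fun hh => hXuz hh.symm)
    obtain ⟨n1, n2, n3, n4, m1, m2, m3, m4, U, V', hs, k1, k2, k3, k4, d, dz,
      ⟨p1, p2, p3⟩, q1, q2, q3⟩ := num3 hS (h.odd hW hreg.W1 hr.B1)
        (h.odd hW hreg.W2 hr.B2) (h.odd hW hreg.W3 hr.B3) (h.odd hW hreg.W4 hr.B4)
        (by rw [l1.2.2]; exact hreg.f1) (by rw [l2.2.2]; exact hreg.f2)
        (by rw [l3.2.2]; exact hreg.f3) (by rw [l4.2.2]; exact hreg.f4) (f c1) (f c2) (f c3) (f c4)
    rw [List.mem_singleton] at q1 p1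
    subst q1
    subst p1
    exact hr.fin3 hR hn h h8 hreg.h14 hreg.h23 hs
      (by rintro x rfl _ _; exact ⟨q2.symm, q3.symm⟩) (by rintro x rfl; exact hu8)
      (by rintro x rfl; exact hv8)
      k1 k2 k3 k4 l1.1 l2.1 l3.1 l4.1 lu.1 lz.1 d dz p2 p3

/-- **P3, P3, the middle `u` labelled together with the region, `v` before**,
`f0 v ∈ {4, 6}`. -/
theorem K4Reg.kext33LW (hR : Rel A Q N X) (hQne : ∀ v, ¬ Q v v) {u v z w : V}
    (hr : K4Reg A Q X (fun x => x = u) (fun x => x = v) e14 e23 t t' s s' y1 y2 y3 y4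
      b1 b2 b3 b4 c1 c2 c3 c4)
    (hm : Mid A Q X t t' u z w) (huv : u ≠ v)
    (hu8 : ¬ R8 t t' s s' y1 y2 y3 y4 u)
    (hv8 : ¬ R8 t t' s s' y1 y2 y3 y4 v) (hWv : W v) (hfv : f0 v = 4 ∨ f0 v = 6)
    (Xz : ¬ X z)
    (hreg : Reg1 e14 e23 b1 b2 b3 b4 c1 c2 c3 c4 ∨ (Reg2 W f0 e14 e23 b1 b2 b3 b4 ∧ W z ∧
      Near3 A N t t' s s' y1 y2 y3 y4 b1 b2 b3 b4 u z)) :
    KExt A Q N X W f0 (fun x => R8 t t' s s' y1 y2 y3 y4 x ∨ x = u) := by
  intro L E f h hW h8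
  have lv := hW v hWv
  have hLu : ¬ L u := h8 u (Or.inr rfl)
  have hLt : ¬ L t := h8 t (Or.inl (Or.inl rfl))
  have hLt' : ¬ L t' := h8 t' (Or.inl (Or.inr (Or.inl rfl)))
  have bv : ∀ b, ¬ X b → b ≠ u := fun b hb he => hb (he ▸ hm.Xu)
  -- the common end of both regimes
  have fin : ∀ (f1 : V → ℕ), (∀ x, x ≠ u → f1 x = f x) →
      (∃ (g : V → ℕ) (E' : V → Prop),
        St A Q N X (fun x => (L x ∨ x = u) ∨ R8 t t' s s' y1 y2 y3 y4 x) E' g ∧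
        (∀ x, ¬ R8 t t' s s' y1 y2 y3 y4 x → g x = f1 x) ∧ (∀ x, E x → E' x) ∧
        (∀ x, E' x → E x ∨ R8 t t' s s' y1 y2 y3 y4 x)) →
      ∃ (g : V → ℕ) (E' : V → Prop),
        St A Q N X (fun x => L x ∨ (R8 t t' s s' y1 y2 y3 y4 x ∨ x = u)) E' g ∧
        (∀ x, ¬ (R8 t t' s s' y1 y2 y3 y4 x ∨ x = u) → g x = f x) ∧ (∀ x, E x → E' x) ∧
        (∀ x, E' x → E x ∨ (R8 t t' s s' y1 y2 y3 y4 x ∨ x = u)) := by
    rintro f1 hf1 ⟨g, E', st, g0, g1, g2⟩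
    refine ⟨g, E', st.congr (fun x => by tauto) (fun x => Iff.rfl), ?_, g1, ?_⟩
    · intro x hx
      rw [not_or] at hx
      rw [g0 x hx.1, hf1 x hx.2]
    · intro x hx
      rcases g2 x hx with h1 | h1
      · exact Or.inl h1
      · exact Or.inr (Or.inl h1)
  have h8' : ∀ x, R8 t t' s s' y1 y2 y3 y4 x → ¬ (L x ∨ x = u) := by
    rintro x hx (h1 | rfl)
    · exact h8 x (Or.inl hx) h1
    · exact hu8 hx
  rcases hreg with hreg | ⟨hreg, Wz, hn⟩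
  · obtain ⟨U, hU, hUV⟩ := adm_ex (f z) (f w) (f v)
    have hUV' : (U, f v) ∈ uvs := by
      refine uvs_mem ⟨hU.1, hU.2.1⟩ ?_ hUV
      rw [lv.2.2]
      rcases hfv with h1 | h1 <;> rw [h1] <;> decide
    obtain ⟨f1, f1u, f1x, st1⟩ := hm.add hR hQne h hLu hLt hLt' hU
    exact fin f1 f1x (hr.fin1 hR hreg st1 h8' hUV' (by rintro x rfl; exact f1u)
      (by rintro x rfl; exact f1x _ huv.symm) (by rintro x rfl; exact hu8)
      (by rintro x rfl; exact hv8))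
  · have l1 := hW _ hreg.W1
    have l2 := hW _ hreg.W2
    have l3 := hW _ hreg.W3
    have l4 := hW _ hreg.W4
    have lz := hW _ Wz
    obtain ⟨Su, hSu, hSa⟩ := su_ex (h.odd hW Wz Xz) (f w)
    have hS : (f z, Su, [f v]) ∈ kaps := by
      apply hSu
      rw [lv.2.2]
      rcases hfv with h1 | h1 <;> rw [h1] <;> decide
    obtain ⟨n1, n2, n3, n4, m1, m2, m3, m4, U, V', hs, k1, k2, k3, k4, d, dz,
      ⟨p1, p2, p3⟩, q1, q2, q3⟩ := num3 hS (h.odd hW hreg.W1 hr.B1)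
        (h.odd hW hreg.W2 hr.B2) (h.odd hW hreg.W3 hr.B3) (h.odd hW hreg.W4 hr.B4)
        (by rw [l1.2.2]; exact hreg.f1) (by rw [l2.2.2]; exact hreg.f2)
        (by rw [l3.2.2]; exact hreg.f3) (by rw [l4.2.2]; exact hreg.f4) (f c1) (f c2) (f c3) (f c4)
    rw [List.mem_singleton] at q1
    subst q1
    obtain ⟨f1, f1u, f1x, st1⟩ := hm.add hR hQne h hLu hLt hLt' (hSa U p1)
    refine fin f1 f1x (hr.fin3 hR hn st1 h8' hreg.h14 hreg.h23 hs
      (by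
        rintro x rfl _ _
        rw [f1x _ huv.symm]
        exact ⟨q2.symm, q3.symm⟩) (by rintro x rfl; exact hu8)
      (by rintro x rfl; exact hv8)
      ?_ ?_ ?_ ?_ (Or.inl l1.1) (Or.inl l2.1) (Or.inl l3.1) (Or.inl l4.1) (Or.inr rfl)
      (Or.inl lz.1) ?_ ?_ ?_ ?_)
    · rw [f1x _ (bv _ hr.B1), f1x _ (bv _ hr.C1)]
      exact k1
    · rw [f1x _ (bv _ hr.B2), f1x _ (bv _ hr.C2)]
      exact k2
    · rw [f1x _ (bv _ hr.B3), f1x _ (bv _ hr.C3)]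
      exact k3
    · rw [f1x _ (bv _ hr.B4), f1x _ (bv _ hr.C4)]
      exact k4
    · rw [f1x _ (bv _ hr.B1), f1x _ (bv _ hr.B2), f1x _ (bv _ hr.B3), f1x _ (bv _ hr.B4)]
      exact d
    · rw [f1x _ (bv _ Xz)]
      exact dz
    · rw [f1u]
      exact p2
    · rw [f1u]
      exact p3

/-- **P3, P3, both middles labelled together with the region.** -/
theorem K4Reg.kext33LL (hR : Rel A Q N X) (hQne : ∀ v, ¬ Q v v) {u v z z' w w' : V}
    (hr : K4Reg A Q X (fun x => x = u) (fun x => x = v) e14 e23 t t' s s' y1 y2 y3 y4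
      b1 b2 b3 b4 c1 c2 c3 c4)
    (hm : Mid A Q X t t' u z w) (hm' : Mid A Q X s s' v z' w') (huv : u ≠ v)
    (hu8 : ¬ R8 t t' s s' y1 y2 y3 y4 u)
    (hv8 : ¬ R8 t t' s s' y1 y2 y3 y4 v)
    (Xz : ¬ X z)
    (hreg : Reg1 e14 e23 b1 b2 b3 b4 c1 c2 c3 c4 ∨ (Reg2 W f0 e14 e23 b1 b2 b3 b4 ∧ W z ∧
      Near3 A N t t' s s' y1 y2 y3 y4 b1 b2 b3 b4 u z)) :
    KExt A Q N X W f0 (fun x => R8 t t' s s' y1 y2 y3 y4 x ∨ x = u ∨ x = v) := by
  intro L E f h hW h8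
  have hLu : ¬ L u := h8 u (Or.inr (Or.inl rfl))
  have hLv : ¬ L v := h8 v (Or.inr (Or.inr rfl))
  have hLt : ¬ L t := h8 t (Or.inl (Or.inl rfl))
  have hLt' : ¬ L t' := h8 t' (Or.inl (Or.inr (Or.inl rfl)))
  have hLs : ¬ L s := h8 s (Or.inl (Or.inr (Or.inr (Or.inl rfl))))
  have hLs' : ¬ L s' := h8 s' (Or.inl (Or.inr (Or.inr (Or.inr (Or.inl rfl)))))
  have bu : ∀ b, ¬ X b → b ≠ u := fun b hb he => hb (he ▸ hm.Xu)
  have bv : ∀ b, ¬ X b → b ≠ v := fun b hb he => hb (he ▸ hm'.Xu)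
  -- the common end of both regimes
  have fin : ∀ (f2 : V → ℕ), (∀ x, x ≠ u → x ≠ v → f2 x = f x) →
      (∃ (g : V → ℕ) (E' : V → Prop),
        St A Q N X (fun x => ((L x ∨ x = v) ∨ x = u) ∨ R8 t t' s s' y1 y2 y3 y4 x) E' g ∧
        (∀ x, ¬ R8 t t' s s' y1 y2 y3 y4 x → g x = f2 x) ∧ (∀ x, E x → E' x) ∧
        (∀ x, E' x → E x ∨ R8 t t' s s' y1 y2 y3 y4 x)) →
      ∃ (g : V → ℕ) (E' : V → Prop),
        St A Q N X (fun x => L x ∨ (R8 t t' s s' y1 y2 y3 y4 x ∨ x = u ∨ x = v)) E' g ∧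
        (∀ x, ¬ (R8 t t' s s' y1 y2 y3 y4 x ∨ x = u ∨ x = v) → g x = f x) ∧
        (∀ x, E x → E' x) ∧
        (∀ x, E' x → E x ∨ (R8 t t' s s' y1 y2 y3 y4 x ∨ x = u ∨ x = v)) := by
    rintro f2 hf2 ⟨g, E', st, g0, g1, g2⟩
    refine ⟨g, E', st.congr (fun x => by tauto) (fun x => Iff.rfl), ?_, g1, ?_⟩
    · intro x hx
      rw [not_or, not_or] at hx
      rw [g0 x hx.1, hf2 x hx.2.1 hx.2.2]
    · intro x hx
      rcases g2 x hx with h1 | h1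
      · exact Or.inl h1
      · exact Or.inr (Or.inl h1)
  have h8' : ∀ x, R8 t t' s s' y1 y2 y3 y4 x → ¬ ((L x ∨ x = v) ∨ x = u) := by
    rintro x hx ((h1 | rfl) | rfl)
    · exact h8 x (Or.inl hx) h1
    · exact hv8 hx
    · exact hu8 hx
  have tv : ∀ x, x = t ∨ x = t' → ¬ (L x ∨ x = v) := by
    rintro x (rfl | rfl) (h1 | h1)
    · exact hLt h1
    · exact hv8 (Or.inl h1.symm)
    · exact hLt' h1
    · exact hv8 (Or.inr (Or.inl h1.symm))
  have huLv : ¬ (L u ∨ u = v) := by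
    rintro (h1 | h1)
    · exact hLu h1
    · exact huv h1
  rcases hreg with hreg | ⟨hreg, Wz, hn⟩
  · obtain ⟨V', hV, _⟩ := adm_ex (f z') (f w') 0
    obtain ⟨f1, f1v, f1x, st1⟩ := hm'.add hR hQne h hLv hLs hLs' hV
    obtain ⟨U, hU, hUV⟩ := adm_ex (f1 z) (f1 w) V'
    obtain ⟨f2, f2u, f2x, st2⟩ := hm.add hR hQne st1 huLv (tv t (Or.inl rfl))
      (tv t' (Or.inr rfl)) hU
    have hUV' : (U, V') ∈ uvs := uvs_mem ⟨hU.1, hU.2.1⟩ ⟨hV.1, hV.2.1⟩ hUV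
    exact fin f2 (fun x h1 h2 => by rw [f2x x h1, f1x x h2]) (hr.fin1 hR hreg st2 h8' hUV'
      (by rintro x rfl; exact f2u)
      (by rintro x rfl; rw [f2x _ huv.symm]; exact f1v) (by rintro x rfl; exact hu8)
      (by rintro x rfl; exact hv8))
  · have l1 := hW _ hreg.W1
    have l2 := hW _ hreg.W2
    have l3 := hW _ hreg.W3
    have l4 := hW _ hreg.W4
    have lz := hW _ Wz
    -- the labels of the middles
    have numbers : ∃ n1 n2 n3 n4 m1 m2 m3 m4 U V', Sol n1 n2 n3 n4 m1 m2 m3 m4 ∧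
        (m1 ≠ f b1 ∧ m1 ≠ f c1) ∧
        (m2 ≠ f b2 ∧ m2 ≠ f c2) ∧ (m3 ≠ f b3 ∧ m3 ≠ f c3) ∧ (m4 ≠ f b4 ∧ m4 ≠ f c4) ∧
        (n1 ≠ f b1 ∧ n1 ≠ f b2 ∧ n2 ≠ f b3 ∧ n2 ≠ f b4) ∧ (n1 ≠ f z ∧ n2 ≠ f z) ∧
        (n1 + 2 ≤ U ∨ U + 2 ≤ n1) ∧ (n2 + 2 ≤ U ∨ U + 2 ≤ n2) ∧ n3 ≠ V' ∧ n4 ≠ V' ∧
        (∃ f2 : V → ℕ, f2 u = U ∧ f2 v = V' ∧ (∀ x, x ≠ u → x ≠ v → f2 x = f x) ∧
          St A Q N X (fun x => (L x ∨ x = v) ∨ x = u) E f2) := by
      by_cases hquv : Q u v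
      · -- `z = z'`
        have hw : w = v := by
          rcases hm.q v hquv with h1 | h1 | h1
          · exact absurd (Or.inl h1) hv8
          · exact absurd (Or.inr (Or.inl h1)) hv8
          · exact h1.symm
        have hw' : w' = u := by
          rcases hm'.q u (hR.Qs _ _ hquv) with h1 | h1 | h1
          · exact absurd (Or.inr (Or.inr (Or.inl h1))) hu8
          · exact absurd (Or.inr (Or.inr (Or.inr (Or.inl h1)))) hu8
          · exact h1.symm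
        obtain ⟨V', hV', hVa⟩ : ∃ V', [V'] ∈ sv3 ∧ (V' % 2 = 0 ∧ V' ≤ 8 ∧ V' + 1 ≠ f z' ∧
            f z' + 1 ≠ V') := by
          have key : (4 + 1 ≠ f z' ∧ f z' + 1 ≠ 4) ∨ (6 + 1 ≠ f z' ∧ f z' + 1 ≠ 6) ∨
              (8 + 1 ≠ f z' ∧ f z' + 1 ≠ 8) := by omega
          rcases key with h1 | h1 | h1
          · exact ⟨4, by decide, by omega, by omega, h1.1, h1.2⟩
          · exact ⟨6, by decide, by omega, by omega, h1.1, h1.2⟩
          · exact ⟨8, by decide, by omega, by omega, h1.1, h1.2⟩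
        obtain ⟨Su, hSu, hSa⟩ := su_ex (h.odd hW Wz Xz) V'
        obtain ⟨n1, n2, n3, n4, m1, m2, m3, m4, U, V'', hs, k1, k2, k3, k4, d, dz,
          ⟨p1, p2, p3⟩, q1, q2, q3⟩ := num3 (hSu _ hV') (h.odd hW hreg.W1 hr.B1)
            (h.odd hW hreg.W2 hr.B2) (h.odd hW hreg.W3 hr.B3) (h.odd hW hreg.W4 hr.B4)
            (by rw [l1.2.2]; exact hreg.f1) (by rw [l2.2.2]; exact hreg.f2)
            (by rw [l3.2.2]; exact hreg.f3) (by rw [l4.2.2]; exact hreg.f4)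
            (f c1) (f c2) (f c3) (f c4)
        rw [List.mem_singleton] at q1
        subst q1
        -- add `v`
        obtain ⟨f1, f1v, f1x, st1⟩ := h.one hR hQne v V'' hLv (by omega)
          (by
            rw [Nat.even_iff]
            exact ⟨fun _ => hVa.1, fun _ => hm'.Xu⟩)
          (by
            intro x hx hLx _
            rcases hm'.q x hx with rfl | rfl | rfl
            · exact absurd hLx hLs
            · exact absurd hLx hLs'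
            · exact absurd (hw' ▸ hLx) hLu)
          (by
            intro x hx hX _ _
            have hXx : ¬ X x := fun hh => hX (iff_of_true hm'.Xu hh)
            rw [hm'.c x hx hXx]
            exact hVa.2.2)
        have hfz : f1 z = f z := f1x _ (bv _ Xz)
        obtain ⟨f2, f2u, f2x, st2⟩ := hm.add hR hQne st1 huLv (tv t (Or.inl rfl))
          (tv t' (Or.inr rfl)) (a := U) (by
            rw [hfz, hw, f1v]
            exact hSa U p1)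
        exact ⟨n1, n2, n3, n4, m1, m2, m3, m4, U, V'', hs, k1, k2, k3, k4, d, dz, p2, p3, q2,
          q3, f2, f2u, by rw [f2x _ huv.symm]; exact f1v,
          fun x h1 h2 => by rw [f2x x h1, f1x x h2], st2⟩
      · obtain ⟨Sv, hSv, hSb⟩ := sv3_ex (f z') (f w')
        obtain ⟨Su, hSu, hSa⟩ := su_ex (h.odd hW Wz Xz) (f w)
        obtain ⟨n1, n2, n3, n4, m1, m2, m3, m4, U, V', hs, k1, k2, k3, k4, d, dz,
          ⟨p1, p2, p3⟩, q1, q2, q3⟩ := num3 (hSu _ hSv) (h.odd hW hreg.W1 hr.B1)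
            (h.odd hW hreg.W2 hr.B2) (h.odd hW hreg.W3 hr.B3) (h.odd hW hreg.W4 hr.B4)
            (by rw [l1.2.2]; exact hreg.f1) (by rw [l2.2.2]; exact hreg.f2)
            (by rw [l3.2.2]; exact hreg.f3) (by rw [l4.2.2]; exact hreg.f4)
            (f c1) (f c2) (f c3) (f c4)
        obtain ⟨f1, f1v, f1x, st1⟩ := hm'.add hR hQne h hLv hLs hLs' (hSb V' q1)
        have ha := hSa U p1
        obtain ⟨f2, f2u, f2x, st2⟩ := st1.one hR hQne u U huLv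
          (by
            obtain ⟨_, h1, _⟩ := ha
            omega)
          (by
            rw [Nat.even_iff]
            exact ⟨fun _ => ha.1, fun _ => hm.Xu⟩)
          (by
            intro x hx hLx _
            rcases hm.q x hx with rfl | rfl | rfl
            · exact absurd hLx (tv _ (Or.inl rfl))
            · exact absurd hLx (tv _ (Or.inr rfl))
            · have hxv : x ≠ v := by
                rintro rfl
                exact hquv hx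
              rw [f1x x hxv]
              exact ha.2.2.2.2.symm)
          (by
            intro x hx hX _ _
            have hXx : ¬ X x := fun hh => hX (iff_of_true hm.Xu hh)
            rw [hm.c x hx hXx, f1x _ (bv _ Xz)]
            exact ⟨ha.2.2.1, ha.2.2.2.1⟩)
        exact ⟨n1, n2, n3, n4, m1, m2, m3, m4, U, V', hs, k1, k2, k3, k4, d, dz, p2, p3, q2,
          q3, f2, f2u, by rw [f2x _ huv.symm]; exact f1v,
          fun x h1 h2 => by rw [f2x x h1, f1x x h2], st2⟩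
    obtain ⟨n1, n2, n3, n4, m1, m2, m3, m4, U, V', hs, k1, k2, k3, k4, d, dz, p2, p3, q2, q3,
      f2, f2u, f2v, f2x, st2⟩ := numbers
    have fb : ∀ b, ¬ X b → f2 b = f b := fun b hb => f2x b (bu b hb) (bv b hb)
    refine fin f2 f2x (hr.fin3 hR hn st2 h8' hreg.h14 hreg.h23 hs
      (by
        rintro x rfl _ _
        rw [f2v]
        exact ⟨q2.symm, q3.symm⟩) (by rintro x rfl; exact hu8)
      (by rintro x rfl; exact hv8)
      ?_ ?_ ?_ ?_ (Or.inl (Or.inl l1.1)) (Or.inl (Or.inl l2.1)) (Or.inl (Or.inl l3.1))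
      (Or.inl (Or.inl l4.1)) (Or.inr rfl) (Or.inl (Or.inl lz.1)) ?_ ?_ ?_ ?_)
    · rw [fb _ hr.B1, fb _ hr.C1]
      exact k1
    · rw [fb _ hr.B2, fb _ hr.C2]
      exact k2
    · rw [fb _ hr.B3, fb _ hr.C3]
      exact k3
    · rw [fb _ hr.B4, fb _ hr.C4]
      exact k4
    · rw [fb _ hr.B1, fb _ hr.B2, fb _ hr.B3, fb _ hr.B4]
      exact d
    · rw [fb _ Xz]
      exact dz
    · rw [f2u]
      exact p2
    · rw [f2u]
      exact p3

end Types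

end Pool.Agent.helper58.L9
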