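import Pool.Agent.helper58.L9.K4YStep

/-!
# The finite lemma for K4 regions in stack order, final form
-/

set_option autoImplicit false

namespace Pool.Agent.helper58.L9.K4

/-- the middle conditions, parity -/
def MidP (l : List ℕ) (n n' : ℕ) : Prop := l = [] ∨ ∃ U ∈ l, n ≠ U ∧ n' ≠ U

/-- the middle conditions, `y1` even with label `e` -/
def MidY (l : List ℕ) (n n' e : ℕ) : Prop := (l = [] ∧ e ≠ n') ∨ ∃ U ∈ l, n ≠ U ∧ n' ≠ U ∧ e ≠ U

/-- all labels in parity -/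
def AltP (b1 c1 : ℕ) (l1 l2 : List ℕ) (n1 n2 n3 n4 m1 m2 m3 m4 : ℕ) : Prop :=
  Sol n1 n2 n3 n4 m1 m2 m3 m4 ∧ (n1 % 2 = 0 ∧ n2 % 2 = 0) ∧ (m1 ≠ b1 ∧ m1 ≠ c1) ∧
    MidP l1 n1 n2 ∧ MidP l2 n3 n4

/-- `y1` even -/
def AltY (b1 d1 : ℕ) (l1 l2 : List ℕ) (n1 n2 n3 n4 m1 m2 m3 m4 : ℕ) : Prop :=
  SolY n1 n2 n3 n4 m1 m2 m3 m4 ∧ (m1 + 2 ≤ b1 ∨ b1 + 2 ≤ m1) ∧ m1 ≠ d1 ∧
    MidY l1 n1 n2 m1 ∧ MidY l2 n3 n4 m1

/-- `t` odd -/
def AltT (b1 c1 b2 z : ℕ) (l1 l2 : List ℕ) (n1 n2 n3 n4 m1 m2 m3 m4 : ℕ) : Prop :=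
  Sol n1 n2 n3 n4 m1 m2 m3 m4 ∧ (n1 % 2 = 1 ∧ n2 % 2 = 0) ∧ (m1 ≠ b1 ∧ m1 ≠ c1) ∧
    (n1 ≠ b1 ∧ n1 ≠ b2) ∧ (z ≠ 21 ∧ n1 ≠ z) ∧
    (∃ U ∈ l1, (n1 + 2 ≤ U ∨ U + 2 ≤ n1) ∧ n2 ≠ U) ∧ MidP l2 n3 n4

theorem yev_iff {x : Row} : yev x = true ↔ x.y1 % 2 = 0 := by
  unfold yev
  rw [Nat.beq_eq]

theorem tev_iff {x : Row} : tev x = true ↔ x.t % 2 = 0 := by
  unfold tev
  rw [Nat.beq_eq]

theorem cyl_mem : ∀ b ∈ odds, ∀ c ∈ odds, b ≠ c → ∀ d ∈ ([0, 2, 4, 6, 8] : List ℕ),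
    d + 1 ≠ b → b + 1 ≠ d → (b, c, d) ∈ cyl := by
  decide +kernel

theorem row_alt {x : Row} {b1 c1 d1 b2 : ℕ} {c2 : ℕ × ℕ} {k : ℕ × List ℕ × List ℕ}
    (h0 : baseY x = true) (h1 : gy1 x (b1, c1, d1) = true) (h2 : gy2 x c2 = true)
    (hb2 : ∀ y, y % 2 = 1 ∧ y ≤ 9 → av y c2 = true → y ≠ b2) (h4 : kok x k = true) :
    AltP b1 c1 k.2.1 k.2.2 x.t x.t' x.s x.s' x.y1 x.y2 x.y3 x.y4 ∨
    AltY b1 d1 k.2.1 k.2.2 x.t x.t' x.s x.s' x.y1 x.y2 x.y3 x.y4 ∨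
    AltT b1 c1 b2 k.1 k.2.1 k.2.2 x.t x.t' x.s x.s' x.y1 x.y2 x.y3 x.y4 := by
  obtain ⟨z, l1, l2⟩ := k
  unfold baseY base7 at h0
  simp only [Bool.and_eq_true, far_iff, nq_iff, odd9_iff, ev8_iff, Nat.ble_eq, Bool.or_eq_true,
    yev_iff, Bool.not_eq_true', ← Bool.not_eq_true, tev_iff] at h0
  obtain ⟨hy, ⟨hy9, hyt⟩, ⟨a1, a2, a3, a4⟩, ⟨a5, a6, a7⟩, ⟨a8, a9, a10, a11, a12, a13⟩,
    ⟨a14, a15, a16, a17⟩, ⟨a18, a19, a20, a21⟩, a22, a23, a24, a25⟩ := h0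
  unfold gy1 at h1
  unfold gy2 at h2
  unfold kok at h4
  simp only [Bool.and_eq_true, Bool.or_eq_true, nq_iff, tev_iff, Bool.not_eq_true',
    ← Bool.not_eq_true, Nat.beq_eq] at h1 h2 h4
  have second : x.y1 % 2 ≠ 0 → MidP l2 x.s x.s' := by
    intro hodd
    obtain ⟨_, _, h6⟩ := h4
    cases l2 with
    | nil => exact Or.inl rfl
    | cons u l =>
      right
      simp only [List.any_eq_true] at h6
      obtain ⟨v, hv, hv'⟩ := h6
      unfold vok at hv'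
      simp only [Bool.and_eq_true, nq_iff] at hv'
      exact ⟨v, hv, hv'.1, hv'.2.1⟩
  by_cases hye : x.y1 % 2 = 0
  · -- `y1` even
    right
    left
    have hte : x.t % 2 = 0 := by
      rcases hyt with h | h
      · exact absurd hye h
      · exact h
    have hyb : yev x = true := yev_iff.mpr hye
    rw [hyb, cond_true, Bool.and_eq_true, far_iff, nq_iff] at h1
    obtain ⟨_, h5, h6⟩ := h4
    refine ⟨⟨⟨hte, by omega⟩, a2, a3, a4, ⟨hye, hy9⟩, a5, a6, a7, a8, a9, a10, a11, a12, a13, a14,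
      a18, a15, a16, a17, a19, a20, a21, a24, a25⟩, h1.2.1, h1.2.2, ?_, ?_⟩
    · cases l1 with
      | nil =>
        left
        simp only [Bool.and_eq_true, Bool.or_eq_true, hyb, Bool.not_true, Bool.false_eq_true,
          false_or, nq_iff] at h5
        exact ⟨rfl, h5.2⟩
      | cons u l =>
        right
        simp only [List.any_eq_true] at h5
        obtain ⟨v, hv, hv'⟩ := h5
        unfold uok at hv'
        rw [tev_iff.mpr hte, cond_true] at hv'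
        simp only [Bool.and_eq_true, nq_iff, hyb, Bool.not_true, Bool.false_or] at hv'
        exact ⟨v, hv, hv'.1, hv'.2.1, hv'.2.2⟩
    · cases l2 with
      | nil =>
        left
        simp only [Bool.or_eq_true, hyb, Bool.not_true, Bool.false_eq_true,
          false_or, nq_iff] at h6
        exact ⟨rfl, h6⟩
      | cons u l =>
        right
        simp only [List.any_eq_true] at h6
        obtain ⟨v, hv, hv'⟩ := h6
        unfold vok at hv'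
        simp only [Bool.and_eq_true, nq_iff, hyb, Bool.not_true, Bool.false_or] at hv'
        exact ⟨v, hv, hv'.1, hv'.2.1, hv'.2.2⟩
  · have hyo : x.y1 % 2 = 1 ∧ x.y1 ≤ 9 := by omega
    have hyb : yev x = false := by
      rw [← Bool.not_eq_true, yev_iff]
      exact hye
    rw [hyb, cond_false, Bool.and_eq_true, nq_iff, nq_iff] at h1
    have sol : Sol x.t x.t' x.s x.s' x.y1 x.y2 x.y3 x.y4 :=
      ⟨a1, by omega, a3, a4, hyo, a5, a6, a7, a8, a9, a10, a11, a12, a13, a14, a15, a16, a17, a18,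
        a19, a20, a21, a22, a23, a24, a25⟩
    by_cases hte : x.t % 2 = 0
    · left
      refine ⟨sol, ⟨hte, a2.1⟩, h1.2, ?_, second hye⟩
      obtain ⟨_, h5, _⟩ := h4
      cases l1 with
      | nil => exact Or.inl rfl
      | cons u l =>
        right
        simp only [List.any_eq_true] at h5
        obtain ⟨v, hv, hv'⟩ := h5
        unfold uok at hv'
        rw [tev_iff.mpr hte, cond_true] at hv'
        simp only [Bool.and_eq_true, nq_iff] at hv'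
        exact ⟨v, hv, hv'.1, hv'.2.1⟩
    · right
      right
      have hto : x.t % 2 = 1 ∧ x.t ≤ 9 := by omega
      have htb : tev x = false := by
        rw [← Bool.not_eq_true, tev_iff]
        exact hte
      obtain ⟨hz, h5, _⟩ := h4
      refine ⟨sol, ⟨hto.1, a2.1⟩, h1.2, ⟨?_, ?_⟩, ?_, ?_, second hye⟩
      · rcases h1.1 with h | h
        · exact absurd h hte
        · exact h
      · rcases h2.2 with h | h
        · exact absurd h hte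
        · exact hb2 _ hto h
      · rcases hz with h | h
        · exact absurd h hte
        · exact h
      · cases l1 with
        | nil =>
          simp only [htb, Bool.false_and, Bool.false_eq_true] at h5
        | cons u l =>
          simp only [List.any_eq_true] at h5
          obtain ⟨v, hv, hv'⟩ := h5
          unfold uok at hv'
          rw [htb, cond_false] at hv'
          simp only [Bool.and_eq_true, nq_iff, far_iff] at hv'
          exact ⟨v, hv, hv'.1, hv'.2.1⟩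

/-- **The finite lemma.** -/
theorem numY {k : ℕ × List ℕ × List ℕ} (hk : k ∈ knd) {b1 c1 d1 : ℕ} (h1 : b1 ∈ odds)
    (h1' : c1 ∈ odds) (hne : b1 ≠ c1) (hd : d1 ∈ ([0, 2, 4, 6, 8] : List ℕ)) (hd1 : d1 + 1 ≠ b1)
    (hd2 : b1 + 1 ≠ d1) (b2 c2 b3 c3 b4 c4 : ℕ) :
    ∃ n1 n2 n3 n4 m1 m2 m3 m4 : ℕ, (m2 ≠ b2 ∧ m2 ≠ c2) ∧ (m3 ≠ b3 ∧ m3 ≠ c3) ∧
      (m4 ≠ b4 ∧ m4 ≠ c4) ∧
      (AltP b1 c1 k.2.1 k.2.2 n1 n2 n3 n4 m1 m2 m3 m4 ∨
        AltY b1 d1 k.2.1 k.2.2 n1 n2 n3 n4 m1 m2 m3 m4 ∨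
        AltT b1 c1 b2 k.1 k.2.1 k.2.2 n1 n2 n3 n4 m1 m2 m3 m4) := by
  obtain ⟨q2, h2, h2'⟩ := norm2 b2 c2
  obtain ⟨q3, h3, h3'⟩ := norm2 b3 c3
  obtain ⟨q4, h4, h4'⟩ := norm2 b4 c4
  obtain ⟨x, x0, x1, x2, x3, x4⟩ := cover_main rowsY baseY cyl pairs pairs (lprod pairs knd)
    gy1 gy2 (fun x c => av x.y3 c) (fun x l => av x.y4 l.1 && kok x l.2) dY cY (b1, c1, d1)
    (cyl_mem b1 h1 c1 h1' hne d1 hd hd1 hd2) q2 h2 q3 h3 (q4, k) (mem_lprod h4 hk)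
  rw [Bool.and_eq_true] at x4
  have halt := row_alt x0 x1 x2 (fun y hy ha => (h2' y hy ha).1) x4.2
  have o2 : x.y2 % 2 = 1 ∧ x.y2 ≤ 9 := by
    rcases halt with h | h | h
    · exact h.1.y2o
    · exact h.1.y2o
    · exact h.1.y2o
  have o3 : x.y3 % 2 = 1 ∧ x.y3 ≤ 9 := by
    rcases halt with h | h | h
    · exact h.1.y3o
    · exact h.1.y3o
    · exact h.1.y3o
  have o4 : x.y4 % 2 = 1 ∧ x.y4 ≤ 9 := by
    rcases halt with h | h | h
    · exact h.1.y4o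
    · exact h.1.y4o
    · exact h.1.y4o
  have g2 : av x.y2 q2 = true := by
    unfold gy2 at x2
    rw [Bool.and_eq_true] at x2
    exact x2.1
  exact ⟨_, _, _, _, _, _, _, _, h2' _ o2 g2, h3' _ o3 x3, h4' _ o4 x4.1, halt⟩

end Pool.Agent.helper58.L9.K4
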