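import Pool.Agent.helper58.L9.K4Family
import Pool.Agent.helper58.L9.K4YNum

/-!
# K4 regions in stack order: `y1` invisible
-/

set_option autoImplicit false

namespace Pool.Agent.helper58.L9

open Pool.Agent.helper40.L9 (ParOK)
open K4

/-- the constraints inside the region when `y1` has the even label `e` -/
structure K4.SolY (t t' s s' e y2 y3 y4 : ℕ) : Prop where
  t8 : t % 2 = 0 ∧ t ≤ 8
  t8' : t' % 2 = 0 ∧ t' ≤ 8
  s8 : s % 2 = 0 ∧ s ≤ 8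
  s8' : s' % 2 = 0 ∧ s' ≤ 8
  ee : e % 2 = 0 ∧ e ≤ 9
  y2o : y2 % 2 = 1 ∧ y2 ≤ 9
  y3o : y3 % 2 = 1 ∧ y3 ≤ 9
  y4o : y4 % 2 = 1 ∧ y4 ≤ 9
  tt : t ≠ t'
  ss : s ≠ s'
  ts : t ≠ s
  ts' : t ≠ s'
  t's : t' ≠ s
  t's' : t' ≠ s'
  te : t + 2 ≤ e ∨ e + 2 ≤ t
  se : s + 2 ≤ e ∨ e + 2 ≤ s
  ty2 : t + 2 ≤ y2 ∨ y2 + 2 ≤ t
  ty3 : t' + 2 ≤ y3 ∨ y3 + 2 ≤ t'
  ty4 : t' + 2 ≤ y4 ∨ y4 + 2 ≤ t'
  sy3 : s + 2 ≤ y3 ∨ y3 + 2 ≤ s
  sy2 : s' + 2 ≤ y2 ∨ y2 + 2 ≤ s'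
  sy4 : s' + 2 ≤ y4 ∨ y4 + 2 ≤ s'
  y24 : y2 ≠ y4
  y34 : y3 ≠ y4

variable {V : Type*} {A Q N : V → V → Prop} {X L E : V → Prop} {f : V → ℕ}

/-- the region without `y1` -/
def R7 (t t' s s' y2 y3 y4 : V) (v : V) : Prop :=
  v = t ∨ v = t' ∨ v = s ∨ v = s' ∨ v = y2 ∨ v = y3 ∨ v = y4

/-- forget a labelled vertex which is not near `E` -/
theorem St.forget {y : V} {L' : V → Prop} (h : St A Q N X L E f)
    (hL : ∀ v, L' v ↔ (L v ∧ v ≠ y)) (hE : ¬ E y) (hN : ∀ e, E e → ¬ N e y) :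
    St A Q N X L' E f := by
  refine ⟨⟨?_, ?_, ?_, ?_⟩, ?_, h.le, ?_, h.adj, h.ne⟩
  · intro v hv
    exact h.par.le v ⟨((hL v).mp hv.1).1, hv.2⟩
  · intro v hv
    exact h.par.par v ⟨((hL v).mp hv.1).1, hv.2⟩
  · intro u v hu hv huv
    exact h.par.q u v ⟨((hL u).mp hu.1).1, hu.2⟩ ⟨((hL v).mp hv.1).1, hv.2⟩ huv
  · intro u v hu hv huv hX
    exact h.par.cross u v ⟨((hL u).mp hu.1).1, hu.2⟩ ⟨((hL v).mp hv.1).1, hv.2⟩ huv hX
  · intro e he
    exact (hL e).mpr ⟨h.sub e he, fun hh => hE (hh ▸ he)⟩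
  · intro e v he hev
    exact (hL v).mpr ⟨h.inv e v he hev, fun hh => hN e he (hh ▸ hev)⟩

theorem fc {a b : ℕ} (h : a + 2 ≤ b ∨ b + 2 ≤ a) : a + 1 ≠ b ∧ b + 1 ≠ a := by omega

theorem fc' {a b : ℕ} (h : a + 2 ≤ b ∨ b + 2 ≤ a) : b + 1 ≠ a ∧ a + 1 ≠ b := by omega

/-- one more vertex, invisible, with any label -/
theorem St.oneE (hR : Rel A Q N X) (h : St A Q N X L E f) (u : V) (a : ℕ)
    (hu : ¬ L u) (ha : a ≤ 9) (hN : ∀ x, N u x → L x ∧ a ≠ f x)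
    (hA : ∀ x, A u x → a + 2 ≤ f x ∨ f x + 2 ≤ a) :
    ∃ g : V → ℕ, g u = a ∧ (∀ v, v ≠ u → g v = f v) ∧
      St A Q N X (fun v => L v ∨ v = u) (fun v => E v ∨ v = u) g := by
  classical
  refine ⟨fun v => if v = u then a else f v, by simp, fun v hv => by simp [hv], ?_⟩
  have hLu : ∀ x, L x → x ≠ u := fun x hx he => hu (he ▸ hx)
  have key : ∀ x, N u x → (if x = u then a else f x) = f x := by
    intro x hx
    simp only [hLu x (hN x hx).1, if_false]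
  have st := h.extend hR (fun _ => False) (fun v => v = u) (fun v => if v = u then a else f v)
    (fun v hv => hv.elim) (by rintro v rfl; exact hu)
    (fun v _ hv => by simp [hv])
    (by
      rintro v (hv | rfl)
      · exact hv.elim
      · simpa using ha)
    (fun v hv => hv.elim) (fun _ _ h => h.elim) (fun _ _ h => h.elim)
    (by
      rintro e x rfl hx
      exact Or.inl (hN x hx).1)
    (by
      rintro e x rfl hx
      simp only [if_true, key x hx]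
      exact (hN x hx).2)
    (by
      rintro e x rfl hx
      simp only [if_true, key x (hR.AN _ _ hx)]
      exact hA x hx)
  have e1 : (fun v => L v ∨ False ∨ v = u) = (fun v => L v ∨ v = u) := by
    funext v
    simp
  rw [e1] at st
  exact st

variable {M1 M2 : V → Prop} {e14 e23 : Prop}
  {t t' s s' y1 y2 y3 y4 b1 b2 b3 b4 c1 c2 c3 c4 : V}

/-- **The region without `y1`, in parity.** -/
theorem K4Reg.coreR7 (hR : Rel A Q N X)
    (hr : K4Reg A Q X M1 M2 e14 e23 t t' s s' y1 y2 y3 y4 b1 b2 b3 b4 c1 c2 c3 c4)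
    (h : St A Q N X L E f) (h8 : ∀ v, R8 t t' s s' y1 y2 y3 y4 v → ¬ L v)
    {n1 n2 n3 n4 m2 m3 m4 : ℕ}
    (e1 : n1 % 2 = 0 ∧ n1 ≤ 8) (e2 : n2 % 2 = 0 ∧ n2 ≤ 8) (e3 : n3 % 2 = 0 ∧ n3 ≤ 8)
    (e4 : n4 % 2 = 0 ∧ n4 ≤ 8) (o2 : m2 % 2 = 1 ∧ m2 ≤ 9) (o3 : m3 % 2 = 1 ∧ m3 ≤ 9)
    (o4 : m4 % 2 = 1 ∧ m4 ≤ 9) (tt : n1 ≠ n2) (ss : n3 ≠ n4) (ts : n1 ≠ n3) (ts' : n1 ≠ n4)
    (t's : n2 ≠ n3) (t's' : n2 ≠ n4)
    (ty2 : n1 + 2 ≤ m2 ∨ m2 + 2 ≤ n1) (ty3 : n2 + 2 ≤ m3 ∨ m3 + 2 ≤ n2)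
    (ty4 : n2 + 2 ≤ m4 ∨ m4 + 2 ≤ n2) (sy3 : n3 + 2 ≤ m3 ∨ m3 + 2 ≤ n3)
    (sy2 : n4 + 2 ≤ m2 ∨ m2 + 2 ≤ n4) (sy4 : n4 + 2 ≤ m4 ∨ m4 + 2 ≤ n4) (y24 : m2 ≠ m4)
    (y34 : m3 ≠ m4)
    (hM1 : ∀ x, M1 x → L x → ¬ E x → f x ≠ n1 ∧ f x ≠ n2)
    (hM2 : ∀ x, M2 x → L x → ¬ E x → f x ≠ n3 ∧ f x ≠ n4)
    (hM1' : ∀ x, M1 x → ¬ R8 t t' s s' y1 y2 y3 y4 x)
    (hM2' : ∀ x, M2 x → ¬ R8 t t' s s' y1 y2 y3 y4 x)
    (k2 : m2 ≠ f b2 ∧ m2 ≠ f c2) (k3 : m3 ≠ f b3 ∧ m3 ≠ f c3)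
    (k4 : m4 ≠ f b4 ∧ m4 ≠ f c4) (h23 : e23 → m2 ≠ m3) :
    ∃ g : V → ℕ, (∀ v, ¬ R7 t t' s s' y2 y3 y4 v → g v = f v) ∧
      (g t = n1 ∧ g t' = n2 ∧ g s = n3 ∧ g s' = n4) ∧ (g y2 = m2 ∧ g y3 = m3) ∧
      St A Q N X (fun v => L v ∨ R7 t t' s s' y2 y3 y4 v) E g := by
  obtain ⟨g, g0, gt, gt', gs, gs', gy1, gy2, gy3, gy4⟩ := exists_g8 f hr.tt hr.ts hr.ts' hr.t's
    hr.t's' hr.ss hr.y12 hr.y13 hr.y14 hr.y23 hr.y24 hr.y34 hr.Xt hr.Xt' hr.Xs hr.Xs' hr.Y1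
    hr.Y2 hr.Y3 hr.Y4 n1 n2 n3 n4 (f y1) m2 m3 m4
  have g7 : ∀ v, ¬ R7 t t' s s' y2 y3 y4 v → g v = f v := by
    intro v hv
    by_cases hv1 : v = y1
    · rw [hv1]; exact gy1
    · apply g0
      rintro (h1 | h1 | h1 | h1 | h1 | h1 | h1 | h1)
      · exact hv (Or.inl h1)
      · exact hv (Or.inr (Or.inl h1))
      · exact hv (Or.inr (Or.inr (Or.inl h1)))
      · exact hv (Or.inr (Or.inr (Or.inr (Or.inl h1))))
      · exact hv1 h1
      · exact hv (Or.inr (Or.inr (Or.inr (Or.inr (Or.inl h1)))))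
      · exact hv (Or.inr (Or.inr (Or.inr (Or.inr (Or.inr (Or.inl h1))))))
      · exact hv (Or.inr (Or.inr (Or.inr (Or.inr (Or.inr (Or.inr h1))))))
  refine ⟨g, g7, ⟨gt, gt', gs, gs'⟩, ⟨gy2, gy3⟩, ?_⟩
  have gL : ∀ x, L x → g x = f x := fun x hx => g0 x (fun hx8 => h8 x hx8 hx)
  have h78 : ∀ v, R7 t t' s s' y2 y3 y4 v → R8 t t' s s' y1 y2 y3 y4 v := by
    rintro v (h1 | h1 | h1 | h1 | h1 | h1 | h1)
    · exact Or.inl h1
    · exact Or.inr (Or.inl h1)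
    · exact Or.inr (Or.inr (Or.inl h1))
    · exact Or.inr (Or.inr (Or.inr (Or.inl h1)))
    · exact Or.inr (Or.inr (Or.inr (Or.inr (Or.inr (Or.inl h1)))))
    · exact Or.inr (Or.inr (Or.inr (Or.inr (Or.inr (Or.inr (Or.inl h1))))))
    · exact Or.inr (Or.inr (Or.inr (Or.inr (Or.inr (Or.inr (Or.inr h1))))))
  have r1 : R8 t t' s s' y1 y2 y3 y4 y1 := Or.inr (Or.inr (Or.inr (Or.inr (Or.inl rfl))))
  -- `y1` is not there
  have no1 : ¬ ((L y1 ∧ ¬ E y1) ∨ R7 t t' s s' y2 y3 y4 y1) := by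
    rintro (h1 | h1 | h1 | h1 | h1 | h1 | h1 | h1)
    · exact h8 y1 r1 h1.1
    · exact hr.Y1 (h1 ▸ hr.Xt)
    · exact hr.Y1 (h1 ▸ hr.Xt')
    · exact hr.Y1 (h1 ▸ hr.Xs)
    · exact hr.Y1 (h1 ▸ hr.Xs')
    · exact hr.y12 h1
    · exact hr.y13 h1
    · exact hr.y14 h1
  -- an outer own neighbour of a y
  have out : ∀ y x, ¬ X y → Q y x → x ≠ y1 ∧ x ≠ y2 ∧ x ≠ y3 ∧ x ≠ y4 → g x = f x := by
    intro y x hy hq hx
    have hXx : ¬ X x := fun hh => hy ((hR.QX _ _ hq).mpr hh)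
    apply g0
    rintro (rfl | rfl | rfl | rfl | rfl | rfl | rfl | rfl)
    · exact hXx hr.Xt
    · exact hXx hr.Xt'
    · exact hXx hr.Xs
    · exact hXx hr.Xs'
    · exact hx.1 rfl
    · exact hx.2.1 rfl
    · exact hx.2.2.1 rfl
    · exact hx.2.2.2 rfl
  have mid1 : ∀ x, M1 x → (L x ∧ ¬ E x) ∨ R7 t t' s s' y2 y3 y4 x →
      g x ≠ n1 ∧ g x ≠ n2 := by
    rintro x hx (hx1 | hx1)
    · rw [gL x hx1.1]
      exact hM1 x hx hx1.1 hx1.2
    · exact absurd (h78 x hx1) (hM1' x hx)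
  have mid2 : ∀ x, M2 x → (L x ∧ ¬ E x) ∨ R7 t t' s s' y2 y3 y4 x →
      g x ≠ n3 ∧ g x ≠ n4 := by
    rintro x hx (hx1 | hx1)
    · rw [gL x hx1.1]
      exact hM2 x hx hx1.1 hx1.2
    · exact absurd (h78 x hx1) (hM2' x hx)
  have st := h.extend hR (R7 t t' s s' y2 y3 y4) (fun _ => False) g
    (fun v hv => h8 v (h78 v hv)) (fun _ h => h.elim)
    (fun v hv _ => g7 v hv) ?_ ?_ ?_ ?_ (fun _ _ h => h.elim)
    (fun _ _ h => h.elim) (fun _ _ h => h.elim)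
  · have q1 : (fun v => L v ∨ R7 t t' s s' y2 y3 y4 v ∨ False) =
        (fun v => L v ∨ R7 t t' s s' y2 y3 y4 v) := by
      funext v
      simp
    have q2 : (fun v => E v ∨ False) = E := by
      funext v
      simp
    rw [q1, q2] at st
    exact st
  · rintro v ((rfl | rfl | rfl | rfl | rfl | rfl | rfl) | hv)
    · rw [gt]; exact e1.2.trans (by decide)
    · rw [gt']; exact e2.2.trans (by decide)
    · rw [gs]; exact e3.2.trans (by decide)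
    · rw [gs']; exact e4.2.trans (by decide)
    · rw [gy2]; exact o2.2
    · rw [gy3]; exact o3.2
    · rw [gy4]; exact o4.2
    · exact hv.elim
  · rintro v (rfl | rfl | rfl | rfl | rfl | rfl | rfl)
    · rw [gt, Nat.even_iff]
      exact ⟨fun _ => e1.1, fun _ => hr.Xt⟩
    · rw [gt', Nat.even_iff]
      exact ⟨fun _ => e2.1, fun _ => hr.Xt'⟩
    · rw [gs, Nat.even_iff]
      exact ⟨fun _ => e3.1, fun _ => hr.Xs⟩
    · rw [gs', Nat.even_iff]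
      exact ⟨fun _ => e4.1, fun _ => hr.Xs'⟩
    · rw [gy2, Nat.even_iff]
      exact ⟨fun hh => absurd hh hr.Y2, fun hh => absurd (hh.symm.trans o2.1) (by decide)⟩
    · rw [gy3, Nat.even_iff]
      exact ⟨fun hh => absurd hh hr.Y3, fun hh => absurd (hh.symm.trans o3.1) (by decide)⟩
    · rw [gy4, Nat.even_iff]
      exact ⟨fun hh => absurd hh hr.Y4, fun hh => absurd (hh.symm.trans o4.1) (by decide)⟩
  · rintro p q (rfl | rfl | rfl | rfl | rfl | rfl | rfl) hpq hq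
    · rw [gt]
      rcases hr.qt q hpq with rfl | rfl | rfl | hm
      · rw [gt']; exact tt
      · rw [gs]; exact ts
      · rw [gs']; exact ts'
      · exact (mid1 q hm hq).1.symm
    · rw [gt']
      rcases hr.qt' q hpq with rfl | rfl | rfl | hm
      · rw [gt]; exact tt.symm
      · rw [gs]; exact t's
      · rw [gs']; exact t's'
      · exact (mid1 q hm hq).2.symm
    · rw [gs]
      rcases hr.qs q hpq with rfl | rfl | rfl | hm
      · rw [gs']; exact ss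
      · rw [gt]; exact ts.symm
      · rw [gt']; exact t's.symm
      · exact (mid2 q hm hq).1.symm
    · rw [gs']
      rcases hr.qs' q hpq with rfl | rfl | rfl | hm
      · rw [gs]; exact ss.symm
      · rw [gt]; exact ts'.symm
      · rw [gt']; exact t's'.symm
      · exact (mid2 q hm hq).2.symm
    · rw [gy2]
      rcases hr.qy2 q hpq with rfl | rfl | ⟨rfl, he⟩ | ⟨hx, ho⟩
      · exact absurd hq no1
      · rw [gy4]; exact y24
      · rw [gy3]; exact h23 he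
      · rw [out _ _ hr.Y2 hpq ho]
        rcases hx with rfl | rfl
        · exact k2.1
        · exact k2.2
    · rw [gy3]
      rcases hr.qy3 q hpq with rfl | rfl | ⟨rfl, he⟩ | ⟨hx, ho⟩
      · exact absurd hq no1
      · rw [gy4]; exact y34
      · rw [gy2]; exact (h23 he).symm
      · rw [out _ _ hr.Y3 hpq ho]
        rcases hx with rfl | rfl
        · exact k3.1
        · exact k3.2
    · rw [gy4]
      rcases hr.qy4 q hpq with rfl | rfl | ⟨rfl, he⟩ | ⟨hx, ho⟩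
      · rw [gy2]; exact y24.symm
      · rw [gy3]; exact y34.symm
      · exact absurd hq no1
      · rw [out _ _ hr.Y4 hpq ho]
        rcases hx with rfl | rfl
        · exact k4.1
        · exact k4.2
  · rintro p q (rfl | rfl | rfl | rfl | rfl | rfl | rfl) hpq hX hq
    · have hXq : ¬ X q := fun hh => hX (iff_of_true hr.Xt hh)
      rw [gt]
      rcases hr.ct q hpq hXq with rfl | rfl
      · exact absurd hq no1
      · rw [gy2]; exact fc ty2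
    · have hXq : ¬ X q := fun hh => hX (iff_of_true hr.Xt' hh)
      rw [gt']
      rcases hr.ct' q hpq hXq with rfl | rfl
      · rw [gy3]; exact fc ty3
      · rw [gy4]; exact fc ty4
    · have hXq : ¬ X q := fun hh => hX (iff_of_true hr.Xs hh)
      rw [gs]
      rcases hr.cs q hpq hXq with rfl | rfl
      · exact absurd hq no1
      · rw [gy3]; exact fc sy3
    · have hXq : ¬ X q := fun hh => hX (iff_of_true hr.Xs' hh)
      rw [gs']
      rcases hr.cs' q hpq hXq with rfl | rfl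
      · rw [gy2]; exact fc sy2
      · rw [gy4]; exact fc sy4
    · have hXq : X q := by
        by_contra hh
        exact hX (iff_of_false hr.Y2 hh)
      rw [gy2]
      rcases hr.cy2 q hpq hXq with rfl | rfl
      · rw [gt]; exact fc' ty2
      · rw [gs']; exact fc' sy2
    · have hXq : X q := by
        by_contra hh
        exact hX (iff_of_false hr.Y3 hh)
      rw [gy3]
      rcases hr.cy3 q hpq hXq with rfl | rfl
      · rw [gt']; exact fc' ty3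
      · rw [gs]; exact fc' sy3
    · have hXq : X q := by
        by_contra hh
        exact hX (iff_of_false hr.Y4 hh)
      rw [gy4]
      rcases hr.cy4 q hpq hXq with rfl | rfl
      · rw [gt']; exact fc' ty4
      · rw [gs']; exact fc' sy4

end Pool.Agent.helper58.L9
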