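import Mathlib.Data.Nat.Bitwise
import Mathlib.Tactic.Linarith

/-!
# Bit-parallel games

A natural number is a vector of truth values.  `o5`: disjunction of five vectors, `th`: at least
three of five, `blk`: vectors in blocks, `thb w`: at least three of the first five blocks.
-/

set_option autoImplicit false

namespace Pool.Agent.helper58.L9.K5

/-- keep `m` if `b` -/
def sl (b : Bool) (m : ℕ) : ℕ := bif b then m else 0

/-- disjunction -/
def o5 (f : ℕ → ℕ) : ℕ :=
  Nat.lor (f 0) (Nat.lor (f 1) (Nat.lor (f 2) (Nat.lor (f 3) (f 4))))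

/-- at least three -/
def th (a b c d e : ℕ) : ℕ :=
  Nat.lor
    (Nat.land (Nat.lor (Nat.land a b) (Nat.land c (Nat.lor a b))) (Nat.land d e))
    (Nat.land
      (Nat.lor (Nat.lor (Nat.land a b) (Nat.land c (Nat.lor a b))) (Nat.land d e))
      (Nat.lor (Nat.xor a (Nat.xor b c)) (Nat.xor d e)))

/-- at least three of the first five blocks -/
def thb (w m : ℕ) : ℕ :=
  th m (Nat.shiftRight m w) (Nat.shiftRight m (2 * w)) (Nat.shiftRight m (3 * w))
    (Nat.shiftRight m (4 * w))

/-- the vector with the blocks `f 0, ..., f (n-1)` -/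
def blk (w : ℕ) (f : ℕ → ℕ) : ℕ → ℕ
  | 0 => 0
  | n + 1 => Nat.lor (blk w f n) (Nat.shiftLeft (Nat.mod (f n) (2 ^ w)) (w * n))

theorem tb_lor (a b i : ℕ) : (Nat.lor a b).testBit i = (a.testBit i || b.testBit i) :=
  Nat.testBit_or a b i

theorem tb_land (a b i : ℕ) : (Nat.land a b).testBit i = (a.testBit i && b.testBit i) :=
  Nat.testBit_and a b i

theorem tb_xor (a b i : ℕ) : (Nat.xor a b).testBit i = (a.testBit i ^^ b.testBit i) :=
  Nat.testBit_xor a b i

theorem tb_shr (a k i : ℕ) : (Nat.shiftRight a k).testBit i = a.testBit (k + i) :=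
  Nat.testBit_shiftRight a

theorem sl_tb {b : Bool} {m i : ℕ} (h : (sl b m).testBit i = true) :
    b = true ∧ m.testBit i = true := by
  cases b with
  | true => exact ⟨rfl, h⟩
  | false =>
    have h0 : sl false m = 0 := rfl
    rw [h0, Nat.zero_testBit] at h
    exact absurd h (by decide)

theorem o5_tb {f : ℕ → ℕ} {i : ℕ} (h : (o5 f).testBit i = true) :
    ∃ j, j < 5 ∧ (f j).testBit i = true := by
  unfold o5 at h
  rw [tb_lor, tb_lor, tb_lor, tb_lor, Bool.or_eq_true, Bool.or_eq_true, Bool.or_eq_true,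
    Bool.or_eq_true] at h
  rcases h with h | h | h | h | h
  · exact ⟨0, by omega, h⟩
  · exact ⟨1, by omega, h⟩
  · exact ⟨2, by omega, h⟩
  · exact ⟨3, by omega, h⟩
  · exact ⟨4, by omega, h⟩

/-- at least three of five truth values -/
def b3 (a b c d e : Bool) : Bool :=
  (((a && b) || (c && (a || b))) && (d && e)) ||
    ((((a && b) || (c && (a || b))) || (d && e)) && ((a ^^ (b ^^ c)) || (d ^^ e)))

theorem th_tb (a b c d e i : ℕ) : (th a b c d e).testBit i =
    b3 (a.testBit i) (b.testBit i) (c.testBit i) (d.testBit i) (e.testBit i) := by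
  unfold th b3
  simp only [tb_lor, tb_land, tb_xor]

theorem b3_pick {f : ℕ → Bool} (h : b3 (f 0) (f 1) (f 2) (f 3) (f 4) = true) (p q : ℕ) :
    ∃ j, j < 5 ∧ j ≠ p ∧ j ≠ q ∧ f j = true := by
  by_contra hcon
  push Not at hcon
  have h0 := hcon 0 (by omega)
  have h1 := hcon 1 (by omega)
  have h2 := hcon 2 (by omega)
  have h3 := hcon 3 (by omega)
  have h4 := hcon 4 (by omega)
  revert h h0 h1 h2 h3 h4
  generalize f 0 = a
  generalize f 1 = b
  generalize f 2 = c
  generalize f 3 = d
  generalize f 4 = e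
  intro h h0 h1 h2 h3 h4
  by_cases ep0 : 0 = p
  · subst ep0
    cases a <;> cases b <;> cases c <;> cases d <;> cases e <;> simp [b3] at h <;> simp at h1 h2 h3 h4 <;> omega
  · by_cases ep1 : 1 = p
    · subst ep1
      cases a <;> cases b <;> cases c <;> cases d <;> cases e <;> simp [b3] at h <;>
        simp at h0 h2 h3 h4 <;> omega
    · by_cases ep2 : 2 = p
      · subst ep2
        cases a <;> cases b <;> cases c <;> cases d <;> cases e <;> simp [b3] at h <;>
          simp at h0 h1 h3 h4 <;> omega
      · by_cases ep3 : 3 = p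
        · subst ep3
          cases a <;> cases b <;> cases c <;> cases d <;> cases e <;> simp [b3] at h <;>
            simp at h0 h1 h2 h4 <;> omega
        · cases a <;> cases b <;> cases c <;> cases d <;> cases e <;> simp [b3] at h <;>
            simp [ep0, ep1, ep2, ep3] at h0 h1 h2 h3 h4 <;> omega

/-- choose an element of a vector of the game -/
theorem th_pick {f : ℕ → ℕ} {i : ℕ}
    (h : (th (f 0) (f 1) (f 2) (f 3) (f 4)).testBit i = true) (p q : ℕ) :
    ∃ j, j < 5 ∧ j ≠ p ∧ j ≠ q ∧ (f j).testBit i = true := by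
  rw [th_tb] at h
  exact b3_pick (f := fun j => (f j).testBit i) h p q

/-- choose a block -/
theorem thb_pick {w m i : ℕ} (h : (thb w m).testBit i = true) (p q : ℕ) :
    ∃ j, j < 5 ∧ j ≠ p ∧ j ≠ q ∧ m.testBit (w * j + i) = true := by
  unfold thb at h
  rw [th_tb, tb_shr, tb_shr, tb_shr, tb_shr] at h
  refine b3_pick (f := fun j => m.testBit (w * j + i)) ?_ p q
  have e0 : w * 0 + i = i := by omega
  have e1 : w * 1 + i = w + i := by omega
  have e2 : w * 2 + i = 2 * w + i := by omega
  have e3 : w * 3 + i = 3 * w + i := by omega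
  have e4 : w * 4 + i = 4 * w + i := by omega
  rw [e0, e1, e2, e3, e4]
  exact h

theorem blk_tb {w : ℕ} {f : ℕ → ℕ} {n d r : ℕ} (hr : r < w)
    (h : (blk w f n).testBit (w * d + r) = true) : (f d).testBit r = true := by
  induction n with
  | zero =>
    unfold blk at h
    rw [Nat.zero_testBit] at h
    exact absurd h (by decide)
  | succ n ih =>
    unfold blk at h
    rw [tb_lor, Bool.or_eq_true] at h
    rcases h with h | h
    · exact ih h
    · have e1 : (Nat.shiftLeft (Nat.mod (f n) (2 ^ w)) (w * n)).testBit (w * d + r) =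
          (decide (w * d + r ≥ w * n) && (f n % 2 ^ w).testBit (w * d + r - w * n)) :=
        Nat.testBit_shiftLeft _
      rw [e1, Nat.testBit_mod_two_pow, Bool.and_eq_true, Bool.and_eq_true, decide_eq_true_eq,
        decide_eq_true_eq] at h
      obtain ⟨h1, h2, h3⟩ := h
      have h4 : w * n < w * (d + 1) := by
        rw [Nat.mul_add]
        omega
      have h5 : w * d < w * (n + 1) := by
        rw [Nat.mul_add]
        omega
      have h6 := Nat.lt_of_mul_lt_mul_left h4
      have h7 := Nat.lt_of_mul_lt_mul_left h5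
      have h8 : n = d := by omega
      subst h8
      rwa [Nat.add_sub_cancel_left] at h3

end Pool.Agent.helper58.L9.K5
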