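import Pool.Agent.helper58.L9.K5Step
import Pool.Agent.helper33.L9.Config

/-!
# The neighbourhoods of a `U_5` with `z1 = z5`
-/

set_option autoImplicit false
set_option linter.unusedSectionVars false

namespace Pool.Agent.helper58.L9

open Finset Classical Helper33.L9 Helper17.L9
open Helper42.L9 hiding near
open Pool.Agent.helper40.L9 (ParOK JSt Bad Tol LamU)

variable {V : Type*} [Fintype V] {G : SimpleGraph V} {X : V → Prop}

/-- the path of a `U_5` with `z1 = z5 = z`: `ak, z` are the cross neighbours of `v1`, ..., `s`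
and `t` are the other ends of the links `a0`, `ak` -/
structure K5S (G : SimpleGraph V) (X : V → Prop) (v1 v2 v3 v4 v5 z z3 a0 ak b0 bk s t s' t' : V) :
    Prop where
  n1 : Nb G v1 v2 ak z
  n2 : Nb G v2 v1 v3 b0
  n3 : Nb G v3 v2 v4 z3
  n4 : Nb G v4 v3 v5 a0
  n5 : Nb G v5 v4 bk z
  nz : ∃ w, Nb G z v1 v5 w ∧ ¬ X w ∧ NMAt G X w
  nak : ∃ w, Nb G ak t v1 w ∧ ¬ X w ∧ NMAt G X w
  na0 : ∃ w, Nb G a0 v4 s w ∧ ¬ X w ∧ NMAt G X w
  nbk : ∃ w, Nb G bk t' v5 w ∧ ¬ X w ∧ NMAt G X w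
  nb0 : ∃ w, Nb G b0 v2 s' w ∧ ¬ X w ∧ NMAt G X w
  X1 : X v1
  X2 : X v2
  X3 : X v3
  X4 : X v4
  X5 : X v5
  Xs : X s
  Xt : X t
  Xs' : X s'
  Xt' : X t'
  Yz : ¬ X z
  Yz3 : ¬ X z3
  Ya0 : ¬ X a0
  Yak : ¬ X ak
  Yb0 : ¬ X b0
  Ybk : ¬ X bk
  c3 : ∀ r, G.Adj z3 r → X r → r = v3
  ct : ∀ r, G.Adj t r → ¬ X r → r = ak
  ct' : ∀ r, G.Adj t' r → ¬ X r → r = bk

/-- conflicts of a link -/
theorem two_of {y p q b : V} {P : V → Prop} (nY : Nb G y p q b) (Yy : ¬ X y) (Xp : X p) (Xq : X q)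
    (_Yb : ¬ X b) (hb : NMAt G X b) (hp : ∀ r, G.Adj p r → ¬ X r → r = y ∨ P r)
    (hq : ∀ r, G.Adj q r → ¬ X r → r = y ∨ P r) : Two G X y P := by
  obtain ⟨c, hc, _⟩ := second_at hb nY.hc.symm
  refine ⟨b, c, fun r hr => ?_⟩
  obtain ⟨h1, h2, h3⟩ := q_cases nY hr
  have Yr : ¬ X r := fun hh => Yy (h1.mpr hh)
  rcases h3 with h3 | h3 | h3 | h3 | h3 | h3
  · exact absurd (h3 ▸ Xp) Yr
  · exact absurd (h3 ▸ Xq) Yr
  · exact Or.inr (Or.inl h3)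
  · rcases hp r h3 Yr with h4 | h4
    · exact absurd h4.symm h2
    · exact Or.inl h4
  · rcases hq r h3 Yr with h4 | h4
    · exact absurd h4.symm h2
    · exact Or.inl h4
  · exact Or.inr (Or.inr (hc r h3 (iff_of_false Yr Yy) h2.symm))

namespace K5S

variable {v1 v2 v3 v4 v5 z z3 a0 ak b0 bk s t s' t' : V}

section

variable (h : K5S G X v1 v2 v3 v4 v5 z z3 a0 ak b0 bk s t s' t')

include h

theorem rev : K5S G X v5 v4 v3 v2 v1 z z3 b0 bk a0 ak s' t' s t where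
  n1 := h.n5
  n2 := by
    have := h.n4
    exact this.swap
  n3 := h.n3.swap
  n4 := h.n2.swap
  n5 := h.n1
  nz := by
    obtain ⟨w, h1, h2⟩ := h.nz
    exact ⟨w, h1.swap, h2⟩
  nak := h.nbk
  na0 := h.nb0
  nbk := h.nak
  nb0 := h.na0
  X1 := h.X5
  X2 := h.X4
  X3 := h.X3
  X4 := h.X2
  X5 := h.X1
  Xs := h.Xs'
  Xt := h.Xt'
  Xs' := h.Xs
  Xt' := h.Xt
  Yz := h.Yz
  Yz3 := h.Yz3
  Ya0 := h.Yb0
  Yak := h.Ybk
  Yb0 := h.Ya0
  Ybk := h.Yak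
  c3 := h.c3
  ct := h.ct'
  ct' := h.ct

theorem A1 {r : V} (hr : G.Adj v1 r) (Yr : ¬ X r) : r = ak ∨ r = z := by
  rcases h.n1.all r hr with h1 | h1 | h1
  · exact absurd (h1 ▸ h.X2) Yr
  · exact Or.inl h1
  · exact Or.inr h1

theorem A2 {r : V} (hr : G.Adj v2 r) (Yr : ¬ X r) : r = b0 := by
  rcases h.n2.all r hr with h1 | h1 | h1
  · exact absurd (h1 ▸ h.X1) Yr
  · exact absurd (h1 ▸ h.X3) Yr
  · exact h1

theorem A3 {r : V} (hr : G.Adj v3 r) (Yr : ¬ X r) : r = z3 := by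
  rcases h.n3.all r hr with h1 | h1 | h1
  · exact absurd (h1 ▸ h.X2) Yr
  · exact absurd (h1 ▸ h.X4) Yr
  · exact h1

theorem cz : Two G X z (fun r => r = ak ∨ r = bk) := by
  obtain ⟨w, h1, h2, h3⟩ := h.nz
  refine two_of h1 h.Yz h.X1 h.X5 h2 h3 ?_ ?_
  · intro r hr Yr
    rcases h.A1 hr Yr with h4 | h4
    · exact Or.inr (Or.inl h4)
    · exact Or.inl h4
  · intro r hr Yr
    rcases h.rev.A1 hr Yr with h4 | h4
    · exact Or.inr (Or.inr h4)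
    · exact Or.inl h4

theorem cak : Two G X ak (fun r => r = z) := by
  obtain ⟨w, h1, h2, h3⟩ := h.nak
  refine two_of h1 h.Yak h.Xt h.X1 h2 h3 ?_ ?_
  · intro r hr Yr
    exact Or.inl (h.ct r hr Yr)
  · intro r hr Yr
    exact h.A1 hr Yr

theorem ca0 (hs : ∀ r, G.Adj s r → ¬ X r → r = a0) : Two G X a0 (fun _ => False) := by
  obtain ⟨w, h1, h2, h3⟩ := h.na0
  refine two_of h1 h.Ya0 h.X4 h.Xs h2 h3 ?_ ?_
  · intro r hr Yr
    exact Or.inl (h.rev.A2 hr Yr)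
  · intro r hr Yr
    exact Or.inl (hs r hr Yr)

/-- cross neighbours of the links -/
theorem Nz {r : V} (hr : G.Adj z r) (Xr : X r) : r = v1 ∨ r = v5 := by
  obtain ⟨w, h1, h2, h3⟩ := h.nz
  rcases h1.all r hr with h4 | h4 | h4
  · exact Or.inl h4
  · exact Or.inr h4
  · exact absurd (h4 ▸ Xr) h2

theorem Nak {r : V} (hr : G.Adj ak r) (Xr : X r) : r = t ∨ r = v1 := by
  obtain ⟨w, h1, h2, h3⟩ := h.nak
  rcases h1.all r hr with h4 | h4 | h4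
  · exact Or.inl h4
  · exact Or.inr h4
  · exact absurd (h4 ▸ Xr) h2

theorem Na0 {r : V} (hr : G.Adj a0 r) (Xr : X r) : r = v4 ∨ r = s := by
  obtain ⟨w, h1, h2, h3⟩ := h.na0
  rcases h1.all r hr with h4 | h4 | h4
  · exact Or.inl h4
  · exact Or.inr h4
  · exact absurd (h4 ▸ Xr) h2

/-- what `v1` sees -/
theorem Q1 {r : V} (hr : qadj G X v1 r) : r = v2 ∨ r = v3 ∨ r = v5 ∨ r = t := by
  obtain ⟨h1, h2, h3⟩ := q_cases h.n1 hr
  have Xr : X r := h1.mp h.X1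
  rcases h3 with h3 | h3 | h3 | h3 | h3 | h3
  · exact Or.inl h3
  · exact absurd (h3 ▸ Xr) h.Yak
  · exact absurd (h3 ▸ Xr) h.Yz
  · rcases h.n2.all r h3 with h4 | h4 | h4
    · exact absurd h4.symm h2
    · exact Or.inr (Or.inl h4)
    · exact absurd (h4 ▸ Xr) h.Yb0
  · rcases h.Nak h3 Xr with h4 | h4
    · exact Or.inr (Or.inr (Or.inr h4))
    · exact absurd h4.symm h2
  · rcases h.Nz h3 Xr with h4 | h4
    · exact absurd h4.symm h2
    · exact Or.inr (Or.inr (Or.inl h4))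

/-- what `v2` sees -/
theorem Q2 {r : V} (hr : qadj G X v2 r) : r = v1 ∨ r = v3 ∨ r = v4 ∨ r = s' := by
  obtain ⟨h1, h2, h3⟩ := q_cases h.n2 hr
  have Xr : X r := h1.mp h.X2
  rcases h3 with h3 | h3 | h3 | h3 | h3 | h3
  · exact Or.inl h3
  · exact Or.inr (Or.inl h3)
  · exact absurd (h3 ▸ Xr) h.Yb0
  · rcases h.n1.all r h3 with h4 | h4 | h4
    · exact absurd h4.symm h2
    · exact absurd (h4 ▸ Xr) h.Yak
    · exact absurd (h4 ▸ Xr) h.Yz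
  · rcases h.n3.all r h3 with h4 | h4 | h4
    · exact absurd h4.symm h2
    · exact Or.inr (Or.inr (Or.inl h4))
    · exact absurd (h4 ▸ Xr) h.Yz3
  · rcases h.rev.Na0 h3 Xr with h4 | h4
    · exact absurd h4.symm h2
    · exact Or.inr (Or.inr (Or.inr h4))

/-- what `v3` sees -/
theorem Q3 {r : V} (hr : qadj G X v3 r) : r = v1 ∨ r = v2 ∨ r = v4 ∨ r = v5 := by
  obtain ⟨h1, h2, h3⟩ := q_cases h.n3 hr
  have Xr : X r := h1.mp h.X3
  rcases h3 with h3 | h3 | h3 | h3 | h3 | h3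
  · exact Or.inr (Or.inl h3)
  · exact Or.inr (Or.inr (Or.inl h3))
  · exact absurd (h3 ▸ Xr) h.Yz3
  · rcases h.n2.all r h3 with h4 | h4 | h4
    · exact Or.inl h4
    · exact absurd h4.symm h2
    · exact absurd (h4 ▸ Xr) h.Yb0
  · rcases h.n4.all r h3 with h4 | h4 | h4
    · exact absurd h4.symm h2
    · exact Or.inr (Or.inr (Or.inr h4))
    · exact absurd (h4 ▸ Xr) h.Ya0
  · exact absurd (h.c3 r h3 Xr).symm h2

end

end K5S

end Pool.Agent.helper58.L9
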