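import Pool.Agent.helper58.L9.K5Cfg

/-!
# The labels of the path
-/

set_option autoImplicit false
set_option linter.unusedSectionVars false

namespace Pool.Agent.helper58.L9

open Finset Classical Helper33.L9 Helper17.L9
open Helper42.L9 hiding near
open Pool.Agent.helper40.L9 (ParOK JSt Bad Tol LamU)

variable {V : Type*} [Fintype V] {G : SimpleGraph V} {X L E : V → Prop} {f : V → ℕ}

/-- the vertices of the path -/
def Pth (v1 v2 v3 v4 v5 x : V) : Prop := x = v1 ∨ x = v2 ∨ x = v3 ∨ x = v4 ∨ x = v5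

theorem fun5 {v1 v2 v3 v4 v5 : V} (nd : [v1, v2, v3, v4, v5].Nodup) (i1 i2 i3 i4 i5 : ℕ) :
    ∃ a : V → ℕ, a v1 = i1 ∧ a v2 = i2 ∧ a v3 = i3 ∧ a v4 = i4 ∧ a v5 = i5 := by
  simp only [List.nodup_cons, List.mem_cons, List.not_mem_nil, or_false, not_or,
    List.nodup_nil, and_true, not_false_eq_true] at nd
  obtain ⟨⟨a1, a2, a3, a4⟩, ⟨b1, b2, b3⟩, ⟨c1, c2⟩, d1⟩ := nd
  refine ⟨fun x => if x = v1 then i1 else if x = v2 then i2 else if x = v3 then i3 else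
    if x = v4 then i4 else i5, ?_, ?_, ?_, ?_, ?_⟩
  · simp
  · simp [Ne.symm a1]
  · simp [Ne.symm a2, Ne.symm b1]
  · simp [Ne.symm a3, Ne.symm b2, Ne.symm c1]
  · simp [Ne.symm a4, Ne.symm b3, Ne.symm c2, Ne.symm d1]

/-- a label far from the label `2 j + 1` -/
theorem far_num {i j l : ℕ} (h : K5.far i j = true) (hl : l = 2 * j + 1) :
    2 * i + 1 ≠ l ∧ l + 1 ≠ 2 * i := by
  rw [K5.far_iff] at h
  omega

namespace K5S

variable {v1 v2 v3 v4 v5 z z3 a0 ak b0 bk s t s' t' : V}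

/-- **The path can be labelled.** -/
theorem evens (h : K5S G X v1 v2 v3 v4 v5 z z3 a0 ak b0 bk s t s' t') (st : StG G X L E f)
    (nd : [v1, v2, v3, v4, v5].Nodup) (hL : ∀ x, Pth v1 v2 v3 v4 v5 x → ¬ L x)
    (hs : ¬ L s) (ht : ¬ L t) (hs' : ¬ L s') (ht' : ¬ L t') {i1 i2 i3 i4 i5 : ℕ}
    (b1 : i1 < 5) (b2 : i2 < 5) (b3 : i3 < 5) (b4 : i4 < 5) (b5 : i5 < 5) (n12 : i1 ≠ i2)
    (n13 : i1 ≠ i3) (n15 : i1 ≠ i5) (n23 : i2 ≠ i3) (n24 : i2 ≠ i4) (n34 : i3 ≠ i4)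
    (n35 : i3 ≠ i5) (n45 : i4 ≠ i5)
    (pt : Pth v1 v2 v3 v4 v5 t → t = v4 ∧ i1 ≠ i4) (ps : Pth v1 v2 v3 v4 v5 s → s = v1 ∧ i1 ≠ i4)
    (pt' : Pth v1 v2 v3 v4 v5 t' → t' = v2 ∧ i2 ≠ i5)
    (ps' : Pth v1 v2 v3 v4 v5 s' → s' = v5 ∧ i2 ≠ i5)
    (f1 : 2 * i1 + 1 ≠ f ak ∧ f ak + 1 ≠ 2 * i1) (f1' : 2 * i1 + 1 ≠ f z ∧ f z + 1 ≠ 2 * i1)
    (f2 : 2 * i2 + 1 ≠ f b0 ∧ f b0 + 1 ≠ 2 * i2)
    (f3 : L z3 → 2 * i3 + 1 ≠ f z3 ∧ f z3 + 1 ≠ 2 * i3)
    (f4 : 2 * i4 + 1 ≠ f a0 ∧ f a0 + 1 ≠ 2 * i4)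
    (f5 : 2 * i5 + 1 ≠ f bk ∧ f bk + 1 ≠ 2 * i5) (f5' : 2 * i5 + 1 ≠ f z ∧ f z + 1 ≠ 2 * i5) :
    ∃ g : V → ℕ, (g v1 = 2 * i1 ∧ g v2 = 2 * i2 ∧ g v3 = 2 * i3 ∧ g v4 = 2 * i4 ∧
      g v5 = 2 * i5) ∧ (∀ x, ¬ Pth v1 v2 v3 v4 v5 x → g x = f x) ∧
      StG G X (fun x => L x ∨ Pth v1 v2 v3 v4 v5 x) E g := by
  obtain ⟨a, a1, a2, a3, a4, a5⟩ := fun5 nd i1 i2 i3 i4 i5
  have m1 : Pth v1 v2 v3 v4 v5 v1 := Or.inl rfl
  have m2 : Pth v1 v2 v3 v4 v5 v2 := Or.inr (Or.inl rfl)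
  have m3 : Pth v1 v2 v3 v4 v5 v3 := Or.inr (Or.inr (Or.inl rfl))
  have m4 : Pth v1 v2 v3 v4 v5 v4 := Or.inr (Or.inr (Or.inr (Or.inl rfl)))
  have m5 : Pth v1 v2 v3 v4 v5 v5 := Or.inr (Or.inr (Or.inr (Or.inr rfl)))
  obtain ⟨g, g1, g2, st'⟩ := stepX st (P := Pth v1 v2 v3 v4 v5) hL
    (by
      rintro x (rfl | rfl | rfl | rfl | rfl)
      · exact h.X1
      · exact h.X2
      · exact h.X3
      · exact h.X4
      · exact h.X5) a
    (by
      rintro x (rfl | rfl | rfl | rfl | rfl)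
      · rw [a1]; exact b1
      · rw [a2]; exact b2
      · rw [a3]; exact b3
      · rw [a4]; exact b4
      · rw [a5]; exact b5)
    (by
      rintro p r (rfl | rfl | rfl | rfl | rfl) hr hq
      · rcases h.Q1 hq with rfl | rfl | rfl | rfl
        · rw [a1, a2]; exact n12
        · rw [a1, a3]; exact n13
        · rw [a1, a5]; exact n15
        · obtain ⟨e, ne⟩ := pt hr
          rw [e, a1, a4]; exact ne
      · rcases h.Q2 hq with rfl | rfl | rfl | rfl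
        · rw [a1, a2]; exact n12.symm
        · rw [a2, a3]; exact n23
        · rw [a2, a4]; exact n24
        · obtain ⟨e, ne⟩ := ps' hr
          rw [e, a2, a5]; exact ne
      · rcases h.Q3 hq with rfl | rfl | rfl | rfl
        · rw [a1, a3]; exact n13.symm
        · rw [a2, a3]; exact n23.symm
        · rw [a3, a4]; exact n34
        · rw [a3, a5]; exact n35
      · rcases h.rev.Q2 hq with rfl | rfl | rfl | rfl
        · rw [a4, a5]; exact n45
        · rw [a3, a4]; exact n34.symm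
        · rw [a2, a4]; exact n24.symm
        · obtain ⟨e, ne⟩ := ps hr
          rw [e, a1, a4]; exact ne.symm
      · rcases h.rev.Q1 hq with rfl | rfl | rfl | rfl
        · rw [a4, a5]; exact n45.symm
        · rw [a3, a5]; exact n35.symm
        · rw [a1, a5]; exact n15.symm
        · obtain ⟨e, ne⟩ := pt' hr
          rw [e, a2, a5]; exact ne.symm)
    (by
      rintro p r (rfl | rfl | rfl | rfl | rfl) hq hr
      · rcases h.Q1 hq with rfl | rfl | rfl | rfl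
        · exact hL _ m2 hr
        · exact hL _ m3 hr
        · exact hL _ m5 hr
        · exact ht hr
      · rcases h.Q2 hq with rfl | rfl | rfl | rfl
        · exact hL _ m1 hr
        · exact hL _ m3 hr
        · exact hL _ m4 hr
        · exact hs' hr
      · rcases h.Q3 hq with rfl | rfl | rfl | rfl
        · exact hL _ m1 hr
        · exact hL _ m2 hr
        · exact hL _ m4 hr
        · exact hL _ m5 hr
      · rcases h.rev.Q2 hq with rfl | rfl | rfl | rfl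
        · exact hL _ m5 hr
        · exact hL _ m3 hr
        · exact hL _ m2 hr
        · exact hs hr
      · rcases h.rev.Q1 hq with rfl | rfl | rfl | rfl
        · exact hL _ m4 hr
        · exact hL _ m3 hr
        · exact hL _ m1 hr
        · exact ht' hr)
    (by
      rintro p r (rfl | rfl | rfl | rfl | rfl) hr Yr hLr
      · rcases h.A1 hr Yr with rfl | rfl
        · rw [a1]; exact f1
        · rw [a1]; exact f1'
      · have := h.A2 hr Yr
        subst this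
        rw [a2]; exact f2
      · have := h.A3 hr Yr
        subst this
        rw [a3]; exact f3 hLr
      · have := h.rev.A2 hr Yr
        subst this
        rw [a4]; exact f4
      · rcases h.rev.A1 hr Yr with rfl | rfl
        · rw [a5]; exact f5
        · rw [a5]; exact f5')
  refine ⟨g, ⟨?_, ?_, ?_, ?_, ?_⟩, g2, st'⟩
  · rw [g1 _ m1, a1]
  · rw [g1 _ m2, a2]
  · rw [g1 _ m3, a3]
  · rw [g1 _ m4, a4]
  · rw [g1 _ m5, a5]

end K5S

end Pool.Agent.helper58.L9
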