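import Pool.Agent.helper58.L9.K5Evn

/-!
# The links and the path: the three cases
-/

set_option autoImplicit false
set_option linter.unusedSectionVars false

namespace Pool.Agent.helper58.L9

open Finset Classical Helper33.L9 Helper17.L9
open Helper42.L9 hiding near
open Pool.Agent.helper40.L9 (ParOK JSt Bad Tol LamU)

variable {V : Type*} [Fintype V] {G : SimpleGraph V} {X L E : V → Prop} {f : V → ℕ}

/-- the labels at the ends of a virtual wire -/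
def WV (g : V → ℕ) (l k : ℕ) (a0 ak σ τ : V) : Prop :=
  ∃ a y i j, g a0 = 2 * a + 1 ∧ g ak = 2 * y + 1 ∧ g σ = 2 * i ∧ g τ = 2 * j ∧
    K5.WB l k a y i j

theorem WB_far {l k a y i j : ℕ} (h : K5.WB l k a y i j) :
    K5.far i a = true ∧ K5.far j y = true := by
  unfold K5.WB at h
  obtain ⟨_, _, _, _, _, _, h1⟩ := h
  exact h1

/-- an odd vertex near an unlabelled one -/
theorem odd_lab (st : StG G X L E f) {x v : V} (Yx : ¬ X x) (hx : L x) (hv : ¬ L v)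
    (hn : Helper33.L9.near G x v) : f x = 2 * (f x / 2) + 1 ∧ f x / 2 < 5 := by
  have he : ¬ E x := fun he => hv (st.inv x v he hn)
  have h1 := st.par.par x ⟨hx, he⟩
  have h2 := st.par.le x ⟨hx, he⟩
  have h3 : ¬ Even (f x) := fun hh => Yx (h1.mpr hh)
  rw [Nat.even_iff] at h3
  omega

namespace K5S

variable {v1 v2 v3 v4 v5 z z3 a0 ak b0 bk s t s' t' : V}

/-- what is unlabelled -/
structure Un (L : V → Prop) (v1 v2 v3 v4 v5 z a0 ak b0 bk s t s' t' : V) : Prop where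
  p : ∀ x, Pth v1 v2 v3 v4 v5 x → ¬ L x
  z : ¬ L z
  a0 : ¬ L a0
  ak : ¬ L ak
  b0 : ¬ L b0
  bk : ¬ L bk
  s : ¬ L s
  t : ¬ L t
  s' : ¬ L s'
  t' : ¬ L t'

/-- one more odd vertex -/
theorem Un.add {x : V} (Yx : ¬ X x) (h : K5S G X v1 v2 v3 v4 v5 z z3 a0 ak b0 bk s t s' t')
    (hp : ∀ x, Pth v1 v2 v3 v4 v5 x → ¬ L x) (hs : ¬ L s) (ht : ¬ L t) (hs' : ¬ L s')
    (ht' : ¬ L t') :
    (∀ y, Pth v1 v2 v3 v4 v5 y → ¬ (L y ∨ y = x)) ∧ ¬ (L s ∨ s = x) ∧ ¬ (L t ∨ t = x) ∧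
      ¬ (L s' ∨ s' = x) ∧ ¬ (L t' ∨ t' = x) := by
  refine ⟨?_, ?_, ?_, ?_, ?_⟩
  · rintro y hy (h1 | h1)
    · exact hp y hy h1
    · rw [← h1] at Yx
      rcases hy with rfl | rfl | rfl | rfl | rfl
      · exact Yx h.X1
      · exact Yx h.X2
      · exact Yx h.X3
      · exact Yx h.X4
      · exact Yx h.X5
  · rintro (h1 | h1)
    · exact hs h1
    · exact Yx (h1 ▸ h.Xs)
  · rintro (h1 | h1)
    · exact ht h1
    · exact Yx (h1 ▸ h.Xt)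
  · rintro (h1 | h1)
    · exact hs' h1
    · exact Yx (h1 ▸ h.Xs')
  · rintro (h1 | h1)
    · exact ht' h1
    · exact Yx (h1 ▸ h.Xt')

/-- **Both wires virtual: the links and the path.** -/
theorem extV (h : K5S G X v1 v2 v3 v4 v5 z z3 a0 ak b0 bk s t s' t') (st : StG G X L E f)
    (nd : [v1, v2, v3, v4, v5].Nodup) (ny : [ak, z, bk, a0, b0].Nodup)
    (un : Un L v1 v2 v3 v4 v5 z a0 ak b0 bk s t s' t')
    (cs : ∀ r, G.Adj s r → ¬ X r → r = a0) (cs' : ∀ r, G.Adj s' r → ¬ X r → r = b0)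
    (ps : ¬ Pth v1 v2 v3 v4 v5 s) (pt : ¬ Pth v1 v2 v3 v4 v5 t)
    (ps' : ¬ Pth v1 v2 v3 v4 v5 s') (pt' : ¬ Pth v1 v2 v3 v4 v5 t') {l k l' k' : ℕ}
    (hl : l < 10) (hk : k < 10) (hl' : l' < 10) (hk' : k' < 10) (z3z : z3 ≠ ak ∧ z3 ≠ z ∧
      z3 ≠ bk ∧ z3 ≠ a0 ∧ z3 ≠ b0) :
    ∃ g : V → ℕ, StG G X (fun x => L x ∨ x ∈ [ak, z, bk, a0, b0] ∨ Pth v1 v2 v3 v4 v5 x) E g ∧
      (∀ x, x ∉ [ak, z, bk, a0, b0] → ¬ Pth v1 v2 v3 v4 v5 x → g x = f x) ∧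
      WV g l k a0 ak v4 v1 ∧ WV g l' k' b0 bk v2 v5 := by
  simp only [List.nodup_cons, List.mem_cons, List.not_mem_nil, or_false, not_or,
    List.nodup_nil, and_true, not_false_eq_true] at ny
  obtain ⟨⟨c1, c2, c3, c4⟩, ⟨c5, c6, c7⟩, ⟨c8, c9⟩, c10⟩ := ny
  obtain ⟨up, uz, ua0, uak, ub0, ubk, us, ut, us', ut'⟩ := un
  have m1 : Pth v1 v2 v3 v4 v5 v1 := Or.inl rfl
  have m2 : Pth v1 v2 v3 v4 v5 v2 := Or.inr (Or.inl rfl)
  have m3 : Pth v1 v2 v3 v4 v5 v3 := Or.inr (Or.inr (Or.inl rfl))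
  have m4 : Pth v1 v2 v3 v4 v5 v4 := Or.inr (Or.inr (Or.inr (Or.inl rfl)))
  have m5 : Pth v1 v2 v3 v4 v5 v5 := Or.inr (Or.inr (Or.inr (Or.inr rfl)))
  -- the label of `z3`
  obtain ⟨j3, hj3, e3⟩ : ∃ j3, j3 < 5 ∧ (L z3 → f z3 = 2 * j3 + 1) := by
    by_cases h3 : L z3
    · have h4 := odd_lab st h.Yz3 h3 (up v3 m3) ⟨fun he => h.Yz3 (he ▸ h.X3),
        Or.inl h.n3.hc.symm⟩
      exact ⟨f z3 / 2, h4.2, fun _ => h4.1⟩
    · exact ⟨0, by omega, fun hh => absurd hh h3⟩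
  -- `ak`
  obtain ⟨o1, o1', q1⟩ := h.cak
  obtain ⟨y, hy, y1, y2, hG⟩ := K5.game_V hl hk hl' hk' hj3 (f o1 / 2) (f o1' / 2)
  obtain ⟨f1, e1, d1, st1⟩ := stepY st q1 uak h.Yak
    (by
      intro r hr Xr
      rcases h.Nak hr Xr with rfl | rfl
      · exact ut
      · exact up _ m1) hy y1 y2
    (by
      rintro r rfl hr
      exact absurd hr uz)
  obtain ⟨up, us, ut, us', ut'⟩ := Un.add h.Yak h up us ut us' ut'
  -- `z`
  obtain ⟨o2, o2', q2⟩ := h.cz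
  obtain ⟨jz, hz, z1, z2, z4, hG⟩ := hG (f1 o2 / 2) (f1 o2' / 2)
  obtain ⟨f2, e2, d2, st2⟩ := stepY st1 q2
    (by
      rintro (hh | hh)
      · exact uz hh
      · exact c1 hh.symm) h.Yz
    (by
      intro r hr Xr
      rcases h.Nz hr Xr with rfl | rfl
      · exact up _ m1
      · exact up _ m5) hz z1 z2
    (by
      rintro r (rfl | rfl) hr
      · rw [e1]
        omega
      · rcases hr with hr | hr
        · exact absurd hr ubk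
        · exact absurd hr.symm c2)
  obtain ⟨up, us, ut, us', ut'⟩ := Un.add h.Yz h up us ut us' ut'
  -- `bk`
  obtain ⟨o3, o3', q3⟩ := h.rev.cak
  obtain ⟨y', hy', w1, w2, w3, hG⟩ := hG (f2 o3 / 2) (f2 o3' / 2)
  obtain ⟨f3, e3', d3, st3⟩ := stepY st2 q3
    (by
      rintro ((hh | hh) | hh)
      · exact ubk hh
      · exact c2 hh.symm
      · exact c5 hh.symm) h.Ybk
    (by
      intro r hr Xr
      rcases h.rev.Nak hr Xr with rfl | rfl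
      · exact ut'
      · exact up _ m5) hy' w1 w2
    (by
      rintro r rfl hr
      rw [e2]
      omega)
  obtain ⟨up, us, ut, us', ut'⟩ := Un.add h.Ybk h up us ut us' ut'
  -- `a0`
  obtain ⟨o4, o4', q4⟩ := h.ca0 cs
  obtain ⟨a, ha, a1, a2, hG⟩ := hG (f3 o4 / 2) (f3 o4' / 2)
  obtain ⟨f4, e4, d4, st4⟩ := stepY st3 q4
    (by
      rintro (((hh | hh) | hh) | hh)
      · exact ua0 hh
      · exact c3 hh.symm
      · exact c6 hh.symm
      · exact c8 hh.symm) h.Ya0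
    (by
      intro r hr Xr
      rcases h.Na0 hr Xr with rfl | rfl
      · exact up _ m4
      · exact us) ha a1 a2
    (by
      rintro r hh
      exact hh.elim)
  obtain ⟨up, us, ut, us', ut'⟩ := Un.add h.Ya0 h up us ut us' ut'
  -- `b0`
  obtain ⟨o5, o5', q5⟩ := h.rev.ca0 cs'
  obtain ⟨b, hb, b1, b2, hG⟩ := hG (f4 o5 / 2) (f4 o5' / 2)
  obtain ⟨f5, e5, d5, st5⟩ := stepY st4 q5
    (by
      rintro ((((hh | hh) | hh) | hh) | hh)
      · exact ub0 hh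
      · exact c4 hh.symm
      · exact c7 hh.symm
      · exact c9 hh.symm
      · exact c10 hh.symm) h.Yb0
    (by
      intro r hr Xr
      rcases h.rev.Na0 hr Xr with rfl | rfl
      · exact up _ m2
      · exact us') hb b1 b2
    (by
      rintro r hh
      exact hh.elim)
  obtain ⟨up, us, ut, us', ut'⟩ := Un.add h.Yb0 h up us ut us' ut'
  -- the labels
  have lak : f5 ak = 2 * y + 1 := by
    rw [d5 _ c4, d4 _ c3, d3 _ c2, d2 _ c1, e1]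
  have lz : f5 z = 2 * jz + 1 := by
    rw [d5 _ c7, d4 _ c6, d3 _ c5, e2]
  have lbk : f5 bk = 2 * y' + 1 := by
    rw [d5 _ c9, d4 _ c8, e3']
  have la0 : f5 a0 = 2 * a + 1 := by
    rw [d5 _ c10, e4]
  have l3 : (((((L z3 ∨ z3 = ak) ∨ z3 = z) ∨ z3 = bk) ∨ z3 = a0) ∨ z3 = b0) →
      f5 z3 = 2 * j3 + 1 := by
    rintro (((((hh | hh) | hh) | hh) | hh) | hh)
    · rw [d5 _ z3z.2.2.2.2, d4 _ z3z.2.2.2.1, d3 _ z3z.2.2.1, d2 _ z3z.2.1, d1 _ z3z.1]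
      exact e3 hh
    · exact absurd hh z3z.1
    · exact absurd hh z3z.2.1
    · exact absurd hh z3z.2.2.1
    · exact absurd hh z3z.2.2.2.1
    · exact absurd hh z3z.2.2.2.2
  unfold K5.LfV K5.PR at hG
  obtain ⟨i4, i1, ⟨g4, g1⟩, wA, i2, i3, i5, ⟨g2, g3, g5⟩, wB, ⟨r1, r2⟩, ⟨r3, r4⟩,
    ⟨r5, r6, r7, r8⟩, r9, r10, r11⟩ := hG
  obtain ⟨x4, x1⟩ := WB_far wA
  obtain ⟨x2, x5⟩ := WB_far wB
  obtain ⟨g, ⟨k1, k2, k3, k4, k5⟩, gf, st6⟩ := h.evens st5 nd up us ut us' ut' (i1 := i1)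
    (i2 := i2) (i3 := i3) (i4 := i4) (i5 := i5) g1 g2 g3 g4 g5 r1.symm r5.symm r3.symm r6.symm
    r2 r7 r8 r4.symm (fun hh => absurd hh pt) (fun hh => absurd hh ps)
    (fun hh => absurd hh pt') (fun hh => absurd hh ps') (far_num x1 lak) (far_num r9 lz)
    (far_num x2 e5) (fun hh => far_num r11 (l3 hh)) (far_num x4 la0) (far_num x5 lbk)
    (far_num r10 lz)
  have nP : ∀ x, ¬ X x → ¬ Pth v1 v2 v3 v4 v5 x := by
    rintro x hx (rfl | rfl | rfl | rfl | rfl)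
    · exact hx h.X1
    · exact hx h.X2
    · exact hx h.X3
    · exact hx h.X4
    · exact hx h.X5
  refine ⟨g, st6.congr (fun x => ?_) (fun x => Iff.rfl), ?_, ?_, ?_⟩
  · simp only [List.mem_cons, List.not_mem_nil, or_false, or_assoc]
  · intro x hx hP
    simp only [List.mem_cons, List.not_mem_nil, or_false, not_or] at hx
    rw [gf x hP, d5 x hx.2.2.2.2, d4 x hx.2.2.2.1, d3 x hx.2.2.1, d2 x hx.2.1, d1 x hx.1]
  · refine ⟨a, y, i4, i1, ?_, ?_, k4, k1, wA⟩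
    · rw [gf _ (nP _ h.Ya0), la0]
    · rw [gf _ (nP _ h.Yak), lak]
  · refine ⟨b, y', i2, i5, ?_, ?_, k2, k5, wB⟩
    · rw [gf _ (nP _ h.Yb0), e5]
    · rw [gf _ (nP _ h.Ybk), lbk]

/-- **First wire real, second wire virtual: the links and the path.** -/
theorem extR (h : K5S G X v1 v2 v3 v4 v5 z z3 ak ak b0 bk v1 v4 s' t') (st : StG G X L E f)
    (nd : [v1, v2, v3, v4, v5].Nodup) (ny : [ak, z, bk, b0].Nodup)
    (un : Un L v1 v2 v3 v4 v5 z ak ak b0 bk v1 v4 s' t')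
    (cs' : ∀ r, G.Adj s' r → ¬ X r → r = b0)
    (ps' : ¬ Pth v1 v2 v3 v4 v5 s') (pt' : ¬ Pth v1 v2 v3 v4 v5 t') {l' k' : ℕ}
    (hl' : l' < 10) (hk' : k' < 10) (z3z : z3 ≠ ak ∧ z3 ≠ z ∧ z3 ≠ bk ∧ z3 ≠ b0) :
    ∃ g : V → ℕ, StG G X (fun x => L x ∨ x ∈ [ak, z, bk, b0] ∨ Pth v1 v2 v3 v4 v5 x) E g ∧
      (∀ x, x ∉ [ak, z, bk, b0] → ¬ Pth v1 v2 v3 v4 v5 x → g x = f x) ∧
      WV g l' k' b0 bk v2 v5 := by
  simp only [List.nodup_cons, List.mem_cons, List.not_mem_nil, or_false, not_or,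
    List.nodup_nil, and_true, not_false_eq_true] at ny
  obtain ⟨⟨c1, c2, c4⟩, ⟨c5, c7⟩, c9⟩ := ny
  obtain ⟨up, uz, _, uak, ub0, ubk, us, ut, us', ut'⟩ := un
  have m1 : Pth v1 v2 v3 v4 v5 v1 := Or.inl rfl
  have m2 : Pth v1 v2 v3 v4 v5 v2 := Or.inr (Or.inl rfl)
  have m3 : Pth v1 v2 v3 v4 v5 v3 := Or.inr (Or.inr (Or.inl rfl))
  have m4 : Pth v1 v2 v3 v4 v5 v4 := Or.inr (Or.inr (Or.inr (Or.inl rfl)))
  have m5 : Pth v1 v2 v3 v4 v5 v5 := Or.inr (Or.inr (Or.inr (Or.inr rfl)))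
  -- the label of `z3`
  obtain ⟨j3, hj3, e3⟩ : ∃ j3, j3 < 5 ∧ (L z3 → f z3 = 2 * j3 + 1) := by
    by_cases h3 : L z3
    · have h4 := odd_lab st h.Yz3 h3 (up v3 m3) ⟨fun he => h.Yz3 (he ▸ h.X3),
        Or.inl h.n3.hc.symm⟩
      exact ⟨f z3 / 2, h4.2, fun _ => h4.1⟩
    · exact ⟨0, by omega, fun hh => absurd hh h3⟩
  -- `ak`
  obtain ⟨o1, o1', q1⟩ := h.cak
  obtain ⟨y, hy, y1, y2, hG⟩ := K5.game_R hl' hk' hj3 (f o1 / 2) (f o1' / 2)
  obtain ⟨f1, e1, d1, st1⟩ := stepY st q1 uak h.Yak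
    (by
      intro r hr Xr
      rcases h.Nak hr Xr with rfl | rfl
      · exact ut
      · exact up _ m1) hy y1 y2
    (by
      rintro r rfl hr
      exact absurd hr uz)
  obtain ⟨up, us, ut, us', ut'⟩ := Un.add h.Yak h up us ut us' ut'
  -- `z`
  obtain ⟨o2, o2', q2⟩ := h.cz
  obtain ⟨jz, hz, z1, z2, z4, hG⟩ := hG (f1 o2 / 2) (f1 o2' / 2)
  obtain ⟨f2, e2, d2, st2⟩ := stepY st1 q2
    (by
      rintro (hh | hh)
      · exact uz hh
      · exact c1 hh.symm) h.Yz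
    (by
      intro r hr Xr
      rcases h.Nz hr Xr with rfl | rfl
      · exact up _ m1
      · exact up _ m5) hz z1 z2
    (by
      rintro r (rfl | rfl) hr
      · rw [e1]
        omega
      · rcases hr with hr | hr
        · exact absurd hr ubk
        · exact absurd hr.symm c2)
  obtain ⟨up, us, ut, us', ut'⟩ := Un.add h.Yz h up us ut us' ut'
  -- `bk`
  obtain ⟨o3, o3', q3⟩ := h.rev.cak
  obtain ⟨y', hy', w1, w2, w3, hG⟩ := hG (f2 o3 / 2) (f2 o3' / 2)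
  obtain ⟨f3, e3', d3, st3⟩ := stepY st2 q3
    (by
      rintro ((hh | hh) | hh)
      · exact ubk hh
      · exact c2 hh.symm
      · exact c5 hh.symm) h.Ybk
    (by
      intro r hr Xr
      rcases h.rev.Nak hr Xr with rfl | rfl
      · exact ut'
      · exact up _ m5) hy' w1 w2
    (by
      rintro r rfl hr
      rw [e2]
      omega)
  obtain ⟨up, us, ut, us', ut'⟩ := Un.add h.Ybk h up us ut us' ut'
  -- `b0`
  obtain ⟨o5, o5', q5⟩ := h.rev.ca0 cs'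
  obtain ⟨b, hb, b1, b2, hG⟩ := hG (f3 o5 / 2) (f3 o5' / 2)
  obtain ⟨f5, e5, d5, st5⟩ := stepY st3 q5
    (by
      rintro (((hh | hh) | hh) | hh)
      · exact ub0 hh
      · exact c4 hh.symm
      · exact c7 hh.symm
      · exact c9 hh.symm) h.Yb0
    (by
      intro r hr Xr
      rcases h.rev.Na0 hr Xr with rfl | rfl
      · exact up _ m2
      · exact us') hb b1 b2
    (by
      rintro r hh
      exact hh.elim)
  obtain ⟨up, us, ut, us', ut'⟩ := Un.add h.Yb0 h up us ut us' ut'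
  -- the labels
  have lak : f5 ak = 2 * y + 1 := by
    rw [d5 _ c4, d3 _ c2, d2 _ c1, e1]
  have lz : f5 z = 2 * jz + 1 := by
    rw [d5 _ c7, d3 _ c5, e2]
  have lbk : f5 bk = 2 * y' + 1 := by
    rw [d5 _ c9, e3']
  have l3 : ((((L z3 ∨ z3 = ak) ∨ z3 = z) ∨ z3 = bk) ∨ z3 = b0) →
      f5 z3 = 2 * j3 + 1 := by
    rintro ((((hh | hh) | hh) | hh) | hh)
    · rw [d5 _ z3z.2.2.2, d3 _ z3z.2.2.1, d2 _ z3z.2.1, d1 _ z3z.1]
      exact e3 hh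
    · exact absurd hh z3z.1
    · exact absurd hh z3z.2.1
    · exact absurd hh z3z.2.2.1
    · exact absurd hh z3z.2.2.2
  unfold K5.LfR K5.PR K5.RB at hG
  obtain ⟨i4, i1, ⟨g4, g1⟩, ⟨n41, x4, x1⟩, i2, i3, i5, ⟨g2, g3, g5⟩, wB, ⟨r1, r2⟩, ⟨r3, r4⟩,
    ⟨r5, r6, r7, r8⟩, r9, r10, r11⟩ := hG
  obtain ⟨x2, x5⟩ := WB_far wB
  obtain ⟨g, ⟨k1, k2, k3, k4, k5⟩, gf, st6⟩ := h.evens st5 nd up us ut us' ut' (i1 := i1)
    (i2 := i2) (i3 := i3) (i4 := i4) (i5 := i5) g1 g2 g3 g4 g5 r1.symm r5.symm r3.symm r6.symm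
    r2 r7 r8 r4.symm (fun _ => ⟨rfl, n41.symm⟩) (fun _ => ⟨rfl, n41.symm⟩)
    (fun hh => absurd hh pt') (fun hh => absurd hh ps') (far_num x1 lak) (far_num r9 lz)
    (far_num x2 e5) (fun hh => far_num r11 (l3 hh)) (far_num x4 lak) (far_num x5 lbk)
    (far_num r10 lz)
  have nP : ∀ x, ¬ X x → ¬ Pth v1 v2 v3 v4 v5 x := by
    rintro x hx (rfl | rfl | rfl | rfl | rfl)
    · exact hx h.X1
    · exact hx h.X2
    · exact hx h.X3
    · exact hx h.X4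
    · exact hx h.X5
  refine ⟨g, st6.congr (fun x => ?_) (fun x => Iff.rfl), ?_, ?_⟩
  · simp only [List.mem_cons, List.not_mem_nil, or_false, or_assoc]
  · intro x hx hP
    simp only [List.mem_cons, List.not_mem_nil, or_false, not_or] at hx
    rw [gf x hP, d5 x hx.2.2.2, d3 x hx.2.2.1, d2 x hx.2.1, d1 x hx.1]
  · refine ⟨b, y', i2, i5, ?_, ?_, k2, k5, wB⟩
    · rw [gf _ (nP _ h.Yb0), e5]
    · rw [gf _ (nP _ h.Ybk), lbk]

/-- **Both wires real.** -/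
theorem extRR (h : K5S G X v1 v2 v3 v4 v5 z z3 ak ak bk bk v1 v4 v5 v2) (st : StG G X L E f)
    (nd : [v1, v2, v3, v4, v5].Nodup) (ny : [ak, bk, z].Nodup)
    (un : Un L v1 v2 v3 v4 v5 z ak ak bk bk v1 v4 v5 v2)
    (z3z : z3 ≠ ak ∧ z3 ≠ bk ∧ z3 ≠ z) :
    ∃ g : V → ℕ, StG G X (fun x => L x ∨ x ∈ [ak, bk, z] ∨ Pth v1 v2 v3 v4 v5 x) E g := by
  simp only [List.nodup_cons, List.mem_cons, List.not_mem_nil, or_false, not_or,
    List.nodup_nil, and_true, not_false_eq_true] at ny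
  obtain ⟨⟨c2, c1⟩, c5⟩ := ny
  obtain ⟨up, uz, _, uak, _, ubk, us, ut, us', ut'⟩ := un
  have m1 : Pth v1 v2 v3 v4 v5 v1 := Or.inl rfl
  have m3 : Pth v1 v2 v3 v4 v5 v3 := Or.inr (Or.inr (Or.inl rfl))
  have m5 : Pth v1 v2 v3 v4 v5 v5 := Or.inr (Or.inr (Or.inr (Or.inr rfl)))
  -- the label of `z3`
  obtain ⟨j3, hj3, e3⟩ : ∃ j3, j3 < 5 ∧ (L z3 → f z3 = 2 * j3 + 1) := by
    by_cases h3 : L z3
    · have h4 := odd_lab st h.Yz3 h3 (up v3 m3) ⟨fun he => h.Yz3 (he ▸ h.X3),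
        Or.inl h.n3.hc.symm⟩
      exact ⟨f z3 / 2, h4.2, fun _ => h4.1⟩
    · exact ⟨0, by omega, fun hh => absurd hh h3⟩
  -- `ak`
  obtain ⟨o1, o1', q1⟩ := h.cak
  obtain ⟨y, hy, y1, y2, hG⟩ := K5.game_RR hj3 (f o1 / 2) (f o1' / 2)
  obtain ⟨f1, e1, d1, st1⟩ := stepY st q1 uak h.Yak
    (by
      intro r hr Xr
      rcases h.Nak hr Xr with rfl | rfl
      · exact ut
      · exact up _ m1) hy y1 y2
    (by
      rintro r rfl hr
      exact absurd hr uz)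
  obtain ⟨up, us, ut, us', ut'⟩ := Un.add h.Yak h up us ut us' ut'
  -- `bk`
  obtain ⟨o3, o3', q3⟩ := h.rev.cak
  obtain ⟨y', hy', w1, w2, hG⟩ := hG (f1 o3 / 2) (f1 o3' / 2)
  obtain ⟨f2, e2, d2, st2⟩ := stepY st1 q3
    (by
      rintro (hh | hh)
      · exact ubk hh
      · exact c2 hh.symm) h.Ybk
    (by
      intro r hr Xr
      rcases h.rev.Nak hr Xr with rfl | rfl
      · exact ut'
      · exact up _ m5) hy' w1 w2
    (by
      rintro r rfl hr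
      rcases hr with hr | hr
      · exact absurd hr uz
      · exact absurd hr.symm c1)
  obtain ⟨up, us, ut, us', ut'⟩ := Un.add h.Ybk h up us ut us' ut'
  -- `z`
  obtain ⟨o2, o2', q2⟩ := h.cz
  obtain ⟨jz, hz, z1, z2, z4, z5, hG⟩ := hG (f2 o2 / 2) (f2 o2' / 2)
  obtain ⟨f5, e5, d5, st5⟩ := stepY st2 q2
    (by
      rintro ((hh | hh) | hh)
      · exact uz hh
      · exact c1 hh.symm
      · exact c5 hh.symm) h.Yz
    (by
      intro r hr Xr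
      rcases h.Nz hr Xr with rfl | rfl
      · exact up _ m1
      · exact up _ m5) hz z1 z2
    (by
      rintro r (rfl | rfl) hr
      · rw [d2 _ c2, e1]
        omega
      · rw [e2]
        omega)
  obtain ⟨up, us, ut, us', ut'⟩ := Un.add h.Yz h up us ut us' ut'
  -- the labels
  have lak : f5 ak = 2 * y + 1 := by
    rw [d5 _ c1, d2 _ c2, e1]
  have lbk : f5 bk = 2 * y' + 1 := by
    rw [d5 _ c5, e2]
  have l3 : (((L z3 ∨ z3 = ak) ∨ z3 = bk) ∨ z3 = z) → f5 z3 = 2 * j3 + 1 := by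
    rintro (((hh | hh) | hh) | hh)
    · rw [d5 _ z3z.2.2, d2 _ z3z.2.1, d1 _ z3z.1]
      exact e3 hh
    · exact absurd hh z3z.1
    · exact absurd hh z3z.2.1
    · exact absurd hh z3z.2.2
  unfold K5.PR K5.RB at hG
  obtain ⟨i4, i1, ⟨g4, g1⟩, ⟨n41, x4, x1⟩, i2, i3, i5, ⟨g2, g3, g5⟩, ⟨n25, x2, x5⟩, ⟨r1, r2⟩,
    ⟨r3, r4⟩, ⟨r5, r6, r7, r8⟩, r9, r10, r11⟩ := hG
  obtain ⟨g, _, gf, st6⟩ := h.evens st5 nd up us ut us' ut' (i1 := i1)
    (i2 := i2) (i3 := i3) (i4 := i4) (i5 := i5) g1 g2 g3 g4 g5 r1.symm r5.symm r3.symm r6.symm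
    r2 r7 r8 r4.symm (fun _ => ⟨rfl, n41.symm⟩) (fun _ => ⟨rfl, n41.symm⟩)
    (fun _ => ⟨rfl, n25⟩) (fun _ => ⟨rfl, n25⟩) (far_num x1 lak) (far_num r9 e5)
    (far_num x2 lbk) (fun hh => far_num r11 (l3 hh)) (far_num x4 lak) (far_num x5 lbk)
    (far_num r10 e5)
  refine ⟨g, st6.congr (fun x => ?_) (fun x => Iff.rfl)⟩
  simp only [List.mem_cons, List.not_mem_nil, or_false, or_assoc]

end K5S

end Pool.Agent.helper58.L9
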