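import Pool.Agent.helper58.L9.K5Game
import Pool.Agent.helper17.L9.JWire

/-!
# Wires in parity states
-/

set_option autoImplicit false
set_option linter.unusedSectionVars false

namespace Pool.Agent.helper58.L9

open Finset Classical Helper33.L9 Helper17.L9
open Helper42.L9 hiding near
open Pool.Agent.helper40.L9 (ParOK JSt Bad Tol)

namespace K5

/-- the pairs with numbers -/
theorem idx_evp : ∀ pq ∈ evp, ∃ l ∈ List.range 10, ∀ c ∈ List.range 5,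
    (inL l c = true ↔ 2 * c ≠ pq.1 ∧ 2 * c ≠ pq.2) := by
  decide +kernel

/-- the labels at the ends of a wire, for given pairs -/
def Good (P K : ℕ × ℕ) (c d : ℕ) : Prop :=
  ∃ ab ∈ evp, (2 * c ≠ P.1 ∧ 2 * c ≠ P.2) ∧ (ab.1 ≠ 2 * c ∧ ab.1 ≠ P.1 ∧ ab.1 ≠ P.2) ∧
    (ab.2 ≠ 2 * c ∧ ab.2 ≠ P.1 ∧ ab.2 ≠ P.2) ∧ (2 * d ≠ K.1 ∧ 2 * d ≠ K.2) ∧
    (2 * d = ab.1 ∨ 2 * d = ab.2 ∨ ab.1 = K.1 ∨ ab.1 = K.2 ∨ ab.2 = K.1 ∨ ab.2 = K.2) ∧
    (P = K → d ≠ c)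

instance (P K : ℕ × ℕ) (c d : ℕ) : Decidable (Good P K c d) := by
  unfold Good
  infer_instance

theorem good_num : ∀ P ∈ evp, ∀ K ∈ evp, ∀ l ∈ List.range 10, ∀ m ∈ List.range 10,
    (∀ c ∈ List.range 5, (inL l c = true ↔ 2 * c ≠ P.1 ∧ 2 * c ≠ P.2)) →
    (∀ c ∈ List.range 5, (inL m c = true ↔ 2 * c ≠ K.1 ∧ 2 * c ≠ K.2)) →
    ∀ c ∈ List.range 5, ∀ d ∈ List.range 5, CH l m c d = true → Good P K c d := by
  decide +kernel

/-- numbers of the lists at the ends of a wire -/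
theorem ends (x0 y0 xk yk : ℕ) (one : Prop) (h1 : one → x0 = xk ∧ y0 = yk) :
    ∃ l m, l < 10 ∧ m < 10 ∧ ∀ c d, c < 5 → d < 5 → CH l m c d = true →
      ∃ a b, (a, b) ∈ evp ∧ 2 * c ∈ evs ∧ (2 * c ≠ x0 ∧ 2 * c ≠ y0) ∧
        (a ≠ 2 * c ∧ a ≠ x0 ∧ a ≠ y0) ∧ (b ≠ 2 * c ∧ b ≠ x0 ∧ b ≠ y0) ∧
        CndS a b xk yk (2 * d) ∧ (one → 2 * d ≠ 2 * c) := by
  obtain ⟨P, hP, K, hK, e0, ek, e1⟩ : ∃ P ∈ evp, ∃ K ∈ evp,
      (∀ w ∈ evs, w ≠ P.1 → w ≠ P.2 → w ≠ x0 ∧ w ≠ y0) ∧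
      (∀ w ∈ evs, w ≠ K.1 → w ≠ K.2 → w ≠ xk ∧ w ≠ yk) ∧ (one → P = K) := by
    obtain ⟨P, hP, e0⟩ := nrmE' x0 y0
    by_cases h : one
    · obtain ⟨r1, r2⟩ := h1 h
      subst r1
      subst r2
      exact ⟨P, hP, P, hP, e0, e0, fun _ => rfl⟩
    · obtain ⟨K, hK, ek⟩ := nrmE' xk yk
      exact ⟨P, hP, K, hK, e0, ek, fun hh => absurd hh h⟩
  obtain ⟨l, hl, il⟩ := idx_evp P hP
  obtain ⟨m, hm, im⟩ := idx_evp K hK
  refine ⟨l, m, List.mem_range.mp hl, List.mem_range.mp hm, fun c d hc hd h => ?_⟩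
  obtain ⟨ab, hab, g1, g2, g3, g4, g5, g6⟩ := good_num P hP K hK l hl m hm il im c
    (List.mem_range.mpr hc) d (List.mem_range.mpr hd) h
  have hc0 : 2 * c ∈ evs := by
    rw [mem_evs]
    omega
  have hd0 : 2 * d ∈ evs := by
    rw [mem_evs]
    omega
  obtain ⟨m1, m2, _⟩ := evp_evs (a := ab.1) (b := ab.2) hab
  have k1 := e0 _ hc0 g1.1 g1.2
  have k2 := e0 _ m1 g2.2.1 g2.2.2
  have k3 := e0 _ m2 g3.2.1 g3.2.2
  refine ⟨ab.1, ab.2, hab, hc0, k1, ⟨g2.1, k2⟩, ⟨g3.1, k3⟩, ⟨K, hK, ek, hd0, g4.1, g4.2, g5⟩,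
    fun hh => ?_⟩
  have := g6 (e1 hh)
  omega

end K5

variable {V : Type*} [Fintype V] {G : SimpleGraph V} {X L E : V → Prop} {f : V → ℕ}
  {Z S : Finset V} {k : ℕ} {p u v q y : ℕ → V} {σ τ : V}

/-- parity states as states of the joint stage -/
theorem jst_of (st : StG G X L E f) : JSt G X L f := by
  have par : ∀ v, L v → Bad X f v → E v := by
    intro v hv hb
    by_contra he
    exact hb (st.par.par v ⟨hv, he⟩)
  have ne : ∀ u v, L u → L v → Helper33.L9.near G u v → f u ≠ f v := by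
    intro u v hu hv hn
    by_cases eu : E u
    · exact st.ne u v eu hn
    · by_cases ev : E v
      · exact (st.ne v u ev (Helper33.L9.near_symm hn)).symm
      · have h1 := st.par.par u ⟨hu, eu⟩
        have h2 := st.par.par v ⟨hv, ev⟩
        by_cases hs : X u ↔ X v
        · exact st.par.q u v ⟨hu, eu⟩ ⟨hv, ev⟩ ⟨hs, hn⟩
        · intro he
          apply hs
          rw [h1, h2, he]
  refine ⟨fun v hv => st.le9 hv, ?_, ne, ?_, ?_⟩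
  · intro u v hu hv ha
    by_cases eu : E u
    · exact st.adj u v eu ha
    · by_cases ev : E v
      · exact (st.adj v u ev ha.symm).symm
      · have h0 := ne u v hu hv ⟨ha.ne, Or.inl ha⟩
        have h1 := st.par.par u ⟨hu, eu⟩
        have h2 := st.par.par v ⟨hv, ev⟩
        by_cases hs : X u ↔ X v
        · have h3 : Even (f u) ↔ Even (f v) := h1.symm.trans (hs.trans h2)
          rw [Nat.even_iff, Nat.even_iff] at h3
          omega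
        · have h4 := st.par.cross u v ⟨hu, eu⟩ ⟨hv, ev⟩ ha hs
          have h5 := st.par.cross v u ⟨hv, ev⟩ ⟨hu, eu⟩ ha.symm (fun hh => hs hh.symm)
          omega
  · intro e v he hb ha
    exact st.inv e v (par e he hb) ⟨ha.ne, Or.inl ha⟩
  · intro e v he hb hv hn
    exact absurd (st.inv e v (par e he hb) hn) hv

/-- back to parity states -/
theorem jst_back {L' : V → Prop} {g : V → ℕ} (st : StG G X L E f) (h : JSt G X L' g)
    (hLL : ∀ x, L x → L' x) (hg : ∀ x, L x → g x = f x)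
    (hpar : ∀ x, L' x → ¬ L x → (X x ↔ Even (g x))) : StG G X L' E g := by
  refine ⟨⟨fun v hv => h.le v hv.1, ?_, fun u v hu hv hq => h.ne u v hu.1 hv.1 hq.2, ?_⟩,
    fun e he => hLL e (st.sub e he), fun e he => h.le e (hLL e (st.sub e he)),
    fun e v he hn => hLL v (st.inv e v he hn), ?_, ?_⟩
  · intro v hv
    by_cases hL : L v
    · rw [hg v hL]
      exact st.par.par v ⟨hL, hv.2⟩
    · exact hpar v hv.1 hL
  · intro u v hu hv ha _ he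
    rcases h.adj u v hu.1 hv.1 ha with h1 | h1 <;> omega
  · intro e v he ha
    exact h.adj e v (hLL e (st.sub e he)) (hLL v (st.inv e v he ⟨ha.ne, Or.inl ha⟩)) ha
  · intro e v he hn
    exact h.ne e v (hLL e (st.sub e he)) (hLL v (st.inv e v he hn)) hn

/-- **Wires in parity states.** -/
theorem wire_fillG (hcub : ∀ v, (univ.filter fun b => G.Adj v b).card = 3)
    (hw : Helper33.L9.Wire G X Z S k p u v q y σ τ) (Xσ : X σ) (hk : 0 < k)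
    (st : StG G X L E f) (hu : ∀ i, i < k → ¬ L (u i) ∧ ¬ L (v i))
    (hy : ∀ i, 0 < i → i < k → ¬ L (y i))
    (hNM : ∀ i, 0 < i → i < k → ∀ b, ownR G X (y i) b → NMAt G X b) {a b c0 T : ℕ}
    (hab : (a, b) ∈ evp) (hc0 : c0 ∈ evs) (hcp : c0 ≠ f (p 0) ∧ c0 ≠ f (q 0))
    (ha : a ≠ c0 ∧ a ≠ f (p 0) ∧ a ≠ f (q 0)) (hb : b ≠ c0 ∧ b ≠ f (p 0) ∧ b ≠ f (q 0))
    (hT : CndS a b (f (p (k - 1))) (f (q (k - 1))) T) (hT1 : k = 1 → T ≠ c0)
    (hσ : L σ → f σ ≠ c0) (hτ : L τ → f τ ≠ T)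
    (hy0 : L (y 0) → c0 + 1 ≠ f (y 0) ∧ f (y 0) + 1 ≠ c0)
    (hyk : L (y k) → T + 1 ≠ f (y k) ∧ f (y k) + 1 ≠ T) :
    ∃ g : V → ℕ, StG G X (fun x => L x ∨ WS k u v y x) E g ∧
      (∀ x, ¬ WS k u v y x → g x = f x) := by
  obtain ⟨g, h1, h2, _, _, h5⟩ := wire_fill_jst hcub hw Xσ hk (jst_of st)
    (fun i hi => (hu i hi).1) (fun i hi => (hu i hi).2) hy hNM hab hc0 hcp ha hb hT hT1 hσ hτ
    hy0 hyk
  have nW : ∀ x, WS k u v y x → ¬ L x := by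
    rintro x (⟨i, hi, rfl | rfl⟩ | ⟨i, h0, hi, rfl⟩)
    · exact (hu i hi).1
    · exact (hu i hi).2
    · exact hy i h0 hi
  exact ⟨g, jst_back st h1 (fun x hx => Or.inl hx) (fun x hx => h2 x (fun hh => nW x hh hx))
    (fun x hx hn => h5 x (hx.resolve_left hn)), h2⟩

end Pool.Agent.helper58.L9
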