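import Pool.Agent.helper58.L9.K5Region
import Pool.Agent.helper17.L9.LoopRegion

/-!
# The region theorem for the `U_5`'s with `z1 = z5`
-/

set_option autoImplicit false
set_option linter.unusedSectionVars false

namespace Pool.Agent.helper58.L9

open Finset Classical Helper33.L9 Helper17.L9
open Helper42.L9 hiding near
open Pool.Agent.helper40.L9 (ParOK JSt Bad Tol LamU K5Region)

variable {V : Type*} [Fintype V] {G : SimpleGraph V} {X D : V → Prop}
  {Z S : Finset V} {v1 v2 v3 v4 v5 z z3 l1 l5 : V} {kA kB : ℕ}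
  {pA uA vA qA yA pB uB vB qB yB : ℕ → V}

/-! ## Reflection -/

theorem cr_refl : cr G (fun v => ¬ X v) = cr G X := by
  funext v
  unfold cr
  ext w
  simp only [Finset.mem_filter, Finset.mem_univ, true_and, not_iff_not]

theorem wire_refl {k : ℕ} {p u v q y : ℕ → V} {σ τ : V}
    (h : Helper33.L9.Wire G X Z S k p u v q y σ τ) :
    Helper33.L9.Wire G (fun v => ¬ X v) Z S k p u v q y σ τ where
  σS := h.σS
  τS := h.τS
  side := not_iff_not.mpr h.side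
  unit := fun i hi => by
    obtain ⟨h1, h2, h3, h4, h5, h6, h7, h8⟩ := h.unit i hi
    refine ⟨?_, ?_, ?_, ?_, ?_, ?_, ?_, h8⟩
    · rw [ownR_refl]; exact h1
    · rw [ownR_refl]; exact h2
    · rw [ownR_refl]; exact h3
    · rw [cc_refl]; exact h4
    · rw [cc_refl]; exact h5
    · rw [cc_refl]; exact h6
    · rw [cc_refl]; exact h7
  sides := fun i hi => not_iff_not.mpr (h.sides i hi)
  mem := h.mem
  cu := by rw [cr_refl]; exact h.cu
  cv := by rw [cr_refl]; exact h.cv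
  link := by rw [cr_refl]; exact h.link
  lne := h.lne
  yZ := h.yZ
  y2 := by rw [cc_refl]; exact h.y2
  nuu := h.nuu
  nvv := h.nvv
  nuv := h.nuv
  nσ := h.nσ
  nτ := h.nτ
  nyy := h.nyy
  p0 := h.p0
  pk := h.pk

theorem u5_refl {z1 z5 : V}
    (h : U5 G X Z S v1 v2 v3 v4 v5 z1 z3 z5 l1 l5 kA kB pA uA vA qA yA pB uB vB qB yB) :
    U5 G (fun v => ¬ X v) Z S v1 v2 v3 v4 v5 z1 z3 z5 l1 l5 kA kB pA uA vA qA yA
      pB uB vB qB yB where
  o12 := by rw [ownR_refl]; exact h.o12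
  o23 := by rw [ownR_refl]; exact h.o23
  o34 := by rw [ownR_refl]; exact h.o34
  o45 := by rw [ownR_refl]; exact h.o45
  c1 := by rw [cc_refl]; exact h.c1
  c2 := by rw [cc_refl]; exact h.c2
  c3 := by rw [cc_refl]; exact h.c3
  c4 := by rw [cc_refl]; exact h.c4
  c5 := by rw [cc_refl]; exact h.c5
  nd := h.nd
  mem := h.mem
  A := wire_refl h.A
  B := wire_refl h.B
  cr1 := by rw [cr_refl]; exact h.cr1
  cr2 := by rw [cr_refl]; exact h.cr2
  cr3 := by rw [cr_refl]; exact h.cr3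
  cr4 := by rw [cr_refl]; exact h.cr4
  cr5 := by rw [cr_refl]; exact h.cr5
  cz1 := by rw [cr_refl]; exact h.cz1
  cz3 := by rw [cr_refl]; exact h.cz3
  cz5 := by rw [cr_refl]; exact h.cz5
  e1 := by rw [cc_refl]; exact h.e1
  e3 := by rw [cc_refl]; exact h.e3
  e5 := by rw [cc_refl]; exact h.e5
  z1y := h.z1y
  z1y' := h.z1y'
  z5y := h.z5y
  z5y' := h.z5y'
  dAB := h.dAB
  dy := h.dy
  noA := h.noA
  noB := h.noB

theorem nm_refl {w : V} (h : NMAt G X w) : NMAt G (fun v => ¬ X v) w := by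
  intro a b c h1 h2 h3 h4 h5 h6 hh
  rw [not_iff_not, not_iff_not] at hh
  exact h a b c h1 h2 h3 h4 h5 h6 hh

theorem linkNM_refl (h : LinkNM G X z kA kB yA yB) :
    LinkNM G (fun v => ¬ X v) z kA kB yA yB := by
  intro y b hy hb
  rw [ownR_refl] at hb
  exact nm_refl (h y b hy hb)

/-! ## The region -/

section

variable (hcub : ∀ v, (univ.filter fun b => G.Adj v b).card = 3)
  (h : U5 G X Z S v1 v2 v3 v4 v5 z z3 z l1 l5 kA kB pA uA vA qA yA pB uB vB qB yB)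

include h

theorem lam_sub (hS : S ⊆ Z) :
    ∀ x, Lam5 v1 v2 v3 v4 v5 z kA kB uA vA yA uB vB yB x → x ∈ Z := by
  rintro x (h1 | h1 | h1 | h1 | h1 | h1 | ⟨i, hi, h1 | h1⟩ | ⟨i, hi, h1⟩ | ⟨i, hi, h1 | h1⟩ |
    ⟨i, hi, h1⟩)
  · rw [h1]; exact h.e1.1
  · rw [h1]; exact hS h.mem.1
  · rw [h1]; exact hS h.mem.2.1
  · rw [h1]; exact hS h.mem.2.2.1
  · rw [h1]; exact hS h.mem.2.2.2.1
  · rw [h1]; exact hS h.mem.2.2.2.2
  · rw [h1]; exact hS (h.A.mem i hi).2.1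
  · rw [h1]; exact hS (h.A.mem i hi).2.2.1
  · rw [h1]; exact h.A.yZ i hi
  · rw [h1]; exact hS (h.B.mem i hi).2.1
  · rw [h1]; exact hS (h.B.mem i hi).2.2.1
  · rw [h1]; exact h.B.yZ i hi

/-- cross neighbours of the ends in the region -/
theorem lam_crs (y : V) (hy : Lam5 v1 v2 v3 v4 v5 z kA kB uA vA yA uB vB yB y)
    (h2 : cc G X y = 2) :
    ∃ x, G.Adj y x ∧ ¬ (X x ↔ X y) ∧ Lam5 v1 v2 v3 v4 v5 z kA kB uA vA yA uB vB yB x := by
  have key : ∀ {a b : V}, b ∈ cr G X a → Lam5 v1 v2 v3 v4 v5 z kA kB uA vA yA uB vB yB b →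
      ∃ x, G.Adj a x ∧ ¬ (X x ↔ X a) ∧ Lam5 v1 v2 v3 v4 v5 z kA kB uA vA yA uB vB yB x :=
    fun hb hl => ⟨_, (mem_cr.mp hb).1, (mem_cr.mp hb).2, hl⟩
  rcases hy with h1 | h1 | h1 | h1 | h1 | h1 | ⟨i, hi, h1 | h1⟩ | ⟨i, hi, h1⟩ |
    ⟨i, hi, h1 | h1⟩ | ⟨i, hi, h1⟩
  · rw [h1]
    exact key (b := v1) (by rw [h.cz1]; simp) (lam_P (Or.inl rfl))
  · rw [h1]
    exact key (b := z) (by rw [h.cr1]; simp) lam_z
  · rw [h1] at h2
    have := h.c2
    omega
  · rw [h1] at h2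
    have := h.c3
    omega
  · rw [h1] at h2
    have := h.c4
    omega
  · rw [h1]
    exact key (b := z) (by rw [h.cr5]; simp) lam_z
  · rw [h1] at h2
    have := (h.A.unit i hi).cu
    omega
  · rw [h1] at h2
    have := (h.A.unit i hi).cv
    omega
  · rw [h1]
    refine key (b := if i = kA then v1 else uA i) (by rw [h.A.link i hi]; simp) ?_
    split_ifs with hk
    · exact lam_P (Or.inl rfl)
    · exact (lam_uA (by omega)).1
  · rw [h1] at h2
    have := (h.B.unit i hi).cu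
    omega
  · rw [h1] at h2
    have := (h.B.unit i hi).cv
    omega
  · rw [h1]
    refine key (b := if i = kB then v5 else uB i) (by rw [h.B.link i hi]; simp) ?_
    split_ifs with hk
    · exact lam_P (Or.inr (Or.inr (Or.inr (Or.inr rfl))))
    · exact (lam_uB (by omega)).1

include hcub

/-- own neighbours outside of the region -/
theorem lam_own (X1 : X v1) (hNM : LinkNM G X z kA kB yA yB) (w : V)
    (hw : Lam5 v1 v2 v3 v4 v5 z kA kB uA vA yA uB vB yB w) (a b : V) (ha : ownR G X w a)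
    (hb : ownR G X w b) (na : ¬ Lam5 v1 v2 v3 v4 v5 z kA kB uA vA yA uB vB yB a)
    (nb : ¬ Lam5 v1 v2 v3 v4 v5 z kA kB uA vA yA uB vB yB b) : a = b := by
  have hk := k5s_of hcub h X1 hNM
  have m1 : Pth v1 v2 v3 v4 v5 v1 := Or.inl rfl
  have m2 : Pth v1 v2 v3 v4 v5 v2 := Or.inr (Or.inl rfl)
  have m3 : Pth v1 v2 v3 v4 v5 v3 := Or.inr (Or.inr (Or.inl rfl))
  have m4 : Pth v1 v2 v3 v4 v5 v4 := Or.inr (Or.inr (Or.inr (Or.inl rfl)))
  have m5 : Pth v1 v2 v3 v4 v5 v5 := Or.inr (Or.inr (Or.inr (Or.inr rfl)))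
  have unit : ∀ {w p' x y' : V}, Nb G w p' x y' → X w → ¬ X y' →
      Lam5 v1 v2 v3 v4 v5 z kA kB uA vA yA uB vB yB x → ∀ c, ownR G X w c →
      ¬ Lam5 v1 v2 v3 v4 v5 z kA kB uA vA yA uB vB yB c → c = p' := by
    intro w p' x y' hn Xw Yy hx c hc hnc
    rcases hn.all c hc.1 with h1 | h1 | h1
    · exact h1
    · exact absurd (h1 ▸ hx) hnc
    · exact absurd (hc.2.mp Xw) (h1 ▸ Yy)
  rcases cc_23 G X w with h5 | h5
  · exact own_one' hcub h5 ha hb
  rcases hw with h1 | h1 | h1 | h1 | h1 | h1 | ⟨i, hi, h1 | h1⟩ | ⟨i, hi, h1⟩ |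
    ⟨i, hi, h1 | h1⟩ | ⟨i, hi, h1⟩
  · have := h.e1.2.1
    rw [h1] at h5
    omega
  · have := h.c1
    rw [h1] at h5
    omega
  · rw [h1] at ha hb
    have e1 := unit hk.n2 hk.X2 hk.Yb0 (lam_P m3) a ha na
    exact absurd (lam_P (e1 ▸ m1)) na
  · rw [h1] at ha hb
    have e1 := unit hk.n3 hk.X3 hk.Yz3 (lam_P m4) a ha na
    exact absurd (lam_P (e1 ▸ m2)) na
  · rw [h1] at ha hb
    have e1 := unit hk.n4 hk.X4 hk.Ya0 (lam_P m5) a ha na
    exact absurd (lam_P (e1 ▸ m3)) na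
  · have := h.c5
    rw [h1] at h5
    omega
  · rw [h1] at ha hb
    have X4 := (X24 h X1).2
    have hn := wN_u hcub h.A X4 hi
    have hY := yA_Y h X1 (i := i) (by omega)
    have hl := (lam_uA (v1 := v1) (v2 := v2) (v3 := v3) (v4 := v4) (v5 := v5) (z := z)
      (kB := kB) (uA := uA) (vA := vA) (yA := yA) (uB := uB) (vB := vB) (yB := yB) hi).2
    rw [unit hn (wX_u h.A X4 hi) hY hl a ha na, unit hn (wX_u h.A X4 hi) hY hl b hb nb]
  · rw [h1] at ha hb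
    have X4 := (X24 h X1).2
    have hn := (wN_v hcub h.A X4 hi).swap
    have hY := yA_Y h X1 (i := i + 1) (by omega)
    have hl := (lam_uA (v1 := v1) (v2 := v2) (v3 := v3) (v4 := v4) (v5 := v5) (z := z)
      (kB := kB) (uA := uA) (vA := vA) (yA := yA) (uB := uB) (vB := vB) (yB := yB) hi).1
    rw [unit hn (wX_v h.A X4 hi) hY hl a ha na, unit hn (wX_v h.A X4 hi) hY hl b hb nb]
  · have := h.A.y2 i hi
    rw [h1] at h5
    omega
  · rw [h1] at ha hb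
    have X2 := (X24 h X1).1
    have hn := wN_u hcub h.B X2 hi
    have hY := yB_Y h X1 (i := i) (by omega)
    have hl := (lam_uB (v1 := v1) (v2 := v2) (v3 := v3) (v4 := v4) (v5 := v5) (z := z)
      (kA := kA) (uA := uA) (vA := vA) (yA := yA) (uB := uB) (vB := vB) (yB := yB) hi).2
    rw [unit hn (wX_u h.B X2 hi) hY hl a ha na, unit hn (wX_u h.B X2 hi) hY hl b hb nb]
  · rw [h1] at ha hb
    have X2 := (X24 h X1).1
    have hn := (wN_v hcub h.B X2 hi).swap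
    have hY := yB_Y h X1 (i := i + 1) (by omega)
    have hl := (lam_uB (v1 := v1) (v2 := v2) (v3 := v3) (v4 := v4) (v5 := v5) (z := z)
      (kA := kA) (uA := uA) (vA := vA) (yA := yA) (uB := uB) (vB := vB) (yB := yB) hi).1
    rw [unit hn (wX_v h.B X2 hi) hY hl a ha na, unit hn (wX_v h.B X2 hi) hY hl b hb nb]
  · have := h.B.y2 i hi
    rw [h1] at h5
    omega

theorem region_pos (X1 : X v1) (hNM : LinkNM G X z kA kB yA yB) (hI : InvZ G X Z)
    (hS : S ⊆ Z) : ∃ Lam, Region G X Z Lam ∧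
      ∀ x, x ∈ Lam ↔ Lam5 v1 v2 v3 v4 v5 z kA kB uA vA yA uB vB yB x := by
  refine region_of' hI (lam_sub h hS) (t := z) lam_z (lam_own hcub h X1 hNM) (lam_crs h) ?_
  intro E f st
  obtain ⟨g, st'⟩ := ext_all hcub h X1 hNM st (fun x hx hh => hh.2 hx)
  refine ⟨E, g, st'.congr (fun x => ?_) (fun x => Iff.rfl)⟩
  constructor
  · rintro (hh | hh)
    · exact hh.1
    · exact lam_sub h hS x hh
  · intro hx
    by_cases hl : Lam5 v1 v2 v3 v4 v5 z kA kB uA vA yA uB vB yB x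
    · exact Or.inr hl
    · exact Or.inl ⟨hx, hl⟩

/-- **The region, local hypotheses.** -/
theorem k5_region_nm (hNM : LinkNM G X z kA kB yA yB) (hI : InvZ G X Z) (hS : S ⊆ Z) :
    ∃ Lam, Region G X Z Lam ∧
      ∀ x, x ∈ Lam ↔ Lam5 v1 v2 v3 v4 v5 z kA kB uA vA yA uB vB yB x := by
  by_cases X1 : X v1
  · exact region_pos hcub h X1 hNM hI hS
  · obtain ⟨Lam, h1, h2⟩ := region_pos hcub (u5_refl h) X1 (linkNM_refl hNM) (invZ_refl hI) hS
    exact ⟨Lam, region_refl h1, h2⟩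

/-- **The region off a set of roots.** -/
theorem k5_region_off (hW : OffW G X D) {N : V → Prop} (hN : ∀ v, N v → Helper33.Off.Far G D v)
    (n1 : N v1) (n2 : N v2) (n3 : N v3) (n4 : N v4) (n5 : N v5)
    (nA : ∀ i < kA, N (uA i) ∧ N (vA i)) (nB : ∀ i < kB, N (uB i) ∧ N (vB i))
    (hNM : LinkNM G X z kA kB yA yB) (hI : InvZ G X Z) (hS : S ⊆ Z) :
    ∃ Lam, Region G X Z Lam ∧ ∀ v ∈ Lam, Helper33.Off.Far G D v := by
  obtain ⟨Lam, h1, h2⟩ := k5_region_nm hcub h hNM hI hS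
  have lnk : ∀ y, (y = z ∨ (∃ i ≤ kA, y = yA i) ∨ ∃ i ≤ kB, y = yB i) →
      (∃ c, c ∈ cr G X y) → Helper33.Off.Far G D y := by
    rintro y hy ⟨c, hc⟩
    have hc' := mem_cr.mp hc
    refine ⟨hW.nD hc'.1 hc'.2, fun d hd hdy => ?_⟩
    have hs := hW.noc d hd y hdy
    have hnm := hNM y d hy ⟨hdy.symm, hs⟩
    obtain ⟨b1, b2, hn⟩ := nb_one hcub hdy
    have s1 := hW.noc d hd b1 hn.hb
    have s2 := hW.noc d hd b2 hn.hc
    exact hnm y b1 b2 hdy hn.hb hn.hc hn.ab hn.ac hn.bc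
      ⟨hs.trans s1.symm, hs.trans s2.symm⟩
  refine ⟨Lam, h1, fun v hv => ?_⟩
  rcases (h2 v).mp hv with e | e | e | e | e | e | ⟨i, hi, e | e⟩ | ⟨i, hi, e⟩ |
    ⟨i, hi, e | e⟩ | ⟨i, hi, e⟩
  · rw [e]
    exact lnk z (Or.inl rfl) ⟨v1, by rw [h.cz1]; simp⟩
  · rw [e]; exact hN _ n1
  · rw [e]; exact hN _ n2
  · rw [e]; exact hN _ n3
  · rw [e]; exact hN _ n4
  · rw [e]; exact hN _ n5
  · rw [e]; exact hN _ (nA i hi).1
  · rw [e]; exact hN _ (nA i hi).2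
  · rw [e]
    exact lnk _ (Or.inr (Or.inl ⟨i, hi, rfl⟩))
      ⟨if i = kA then v1 else uA i, by rw [h.A.link i hi]; simp⟩
  · rw [e]; exact hN _ (nB i hi).1
  · rw [e]; exact hN _ (nB i hi).2
  · rw [e]
    exact lnk _ (Or.inr (Or.inr ⟨i, hi, rfl⟩))
      ⟨if i = kB then v5 else uB i, by rw [h.B.link i hi]; simp⟩

end

/-- **The region theorem for the `U_5`'s with `z1 = z5`.** -/
theorem k5_region (hX : NoMono G X) (hcub : ∀ v, (univ.filter fun b => G.Adj v b).card = 3) :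
    K5Region G X := by
  intro Z S hI hS v1 v2 v3 v4 v5 z1 z3 z5 l1 l5 kA kB pA uA vA qA yA pB uB vB qB yB hU hz
  subst hz
  obtain ⟨Lam, h1, _⟩ := k5_region_nm hcub hU (fun _ b _ _ => hX b) hI hS.1
  exact ⟨Lam, h1⟩

end Pool.Agent.helper58.L9
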