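import Pool.Agent.helper58.L9.K5Wire

/-!
# A `U_5` with `z1 = z5`: the frame
-/

set_option autoImplicit false
set_option linter.unusedSectionVars false

namespace Pool.Agent.helper58.L9

open Finset Classical Helper33.L9 Helper17.L9
open Helper42.L9 hiding near
open Pool.Agent.helper40.L9 (ParOK JSt Bad Tol LamU)

variable {V : Type*} [Fintype V] {G : SimpleGraph V} {X : V → Prop} {Z S : Finset V}
  {v1 v2 v3 v4 v5 z z3 l1 l5 : V} {kA kB : ℕ} {pA uA vA qA yA pB uB vB qB yB : ℕ → V}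

/-- the neighbourhoods of the own neighbours of the links are not monochromatic -/
def LinkNM (G : SimpleGraph V) (X : V → Prop) (z : V) (kA kB : ℕ) (yA yB : ℕ → V) : Prop :=
  ∀ y b, (y = z ∨ (∃ i ≤ kA, y = yA i) ∨ ∃ i ≤ kB, y = yB i) → ownR G X y b → NMAt G X b

theorem LinkNM.rev (h : LinkNM G X z kA kB yA yB) : LinkNM G X z kB kA yB yA := by
  rintro y b (h1 | h1 | h1) hb
  · exact h y b (Or.inl h1) hb
  · exact h y b (Or.inr (Or.inr h1)) hb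
  · exact h y b (Or.inr (Or.inl h1)) hb

/-- the other end of the first link -/
def sOf (k : ℕ) (u : ℕ → V) (τ : V) : V := if 0 = k then τ else u 0
/-- the other end of the last link -/
def tOf (k : ℕ) (v : ℕ → V) (σ : V) : V := if k = 0 then σ else v (k - 1)

/-- a wire and its ends -/
theorem wire_ends {k : ℕ} {p u v q y : ℕ → V} {σ τ : V}
    (hcub : ∀ v, (univ.filter fun b => G.Adj v b).card = 3)
    (hw : Helper33.L9.Wire G X Z S k p u v q y σ τ) (Xσ : X σ) (cσ : cr G X σ = {y 0})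
    (hNM : ∀ i, i ≤ k → ∀ b, ownR G X (y i) b → NMAt G X b) :
    (∃ w, Nb G (y k) (tOf k v σ) τ w ∧ ¬ X w ∧ NMAt G X w) ∧
      (∃ w, Nb G (y 0) σ (sOf k u τ) w ∧ ¬ X w ∧ NMAt G X w) ∧
      X (sOf k u τ) ∧ X (tOf k v σ) ∧ (∀ r, G.Adj (tOf k v σ) r → ¬ X r → r = y k) ∧
      (0 < k → ∀ r, G.Adj (sOf k u τ) r → ¬ X r → r = y 0) := by
  have crs : ∀ {a b r : V}, cr G X a = {b} → X a → G.Adj a r → ¬ X r → r = b := by
    intro a b r h1 h2 h3 h4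
    have h5 : r ∈ cr G X a := mem_cr.mpr ⟨h3, fun hh => h4 (hh.mpr h2)⟩
    rw [h1, Finset.mem_singleton] at h5
    exact h5
  refine ⟨?_, ?_, ?_, ?_, ?_, ?_⟩
  · obtain ⟨b, Yb, hb⟩ := wN_y hcub hw Xσ (i := k) le_rfl
    rw [if_pos rfl] at hb
    exact ⟨b, hb, Yb, hNM k le_rfl b ⟨hb.hc, iff_of_false (wY hw Xσ le_rfl) Yb⟩⟩
  · obtain ⟨b, Yb, hb⟩ := wN_y hcub hw Xσ (i := 0) (Nat.zero_le _)
    rw [if_pos rfl] at hb
    exact ⟨b, hb, Yb, hNM 0 (Nat.zero_le _) b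
      ⟨hb.hc, iff_of_false (wY hw Xσ (Nat.zero_le _)) Yb⟩⟩
  · unfold sOf
    split_ifs with h
    · exact hw.side.mpr Xσ
    · exact wX_u hw Xσ (by omega)
  · unfold tOf
    split_ifs with h
    · exact Xσ
    · exact wX_v hw Xσ (by omega)
  · intro r hr Yr
    unfold tOf at hr
    split_ifs at hr with h
    · have := crs cσ Xσ hr Yr
      rw [this, h]
    · have := crs (hw.cv (k - 1) (by omega)) (wX_v hw Xσ (by omega)) hr Yr
      have e : k - 1 + 1 = k := by omega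
      rwa [e] at this
  · intro hk r hr Yr
    unfold sOf at hr
    rw [if_neg (by omega)] at hr
    exact crs (hw.cu 0 hk) (wX_u hw Xσ hk) hr Yr

/-- **The frame.** -/
theorem k5s_of (hcub : ∀ v, (univ.filter fun b => G.Adj v b).card = 3)
    (h : U5 G X Z S v1 v2 v3 v4 v5 z z3 z l1 l5 kA kB pA uA vA qA yA pB uB vB qB yB)
    (X1 : X v1) (hNM : LinkNM G X z kA kB yA yB) :
    K5S G X v1 v2 v3 v4 v5 z z3 (yA 0) (yA kA) (yB 0) (yB kB) (sOf kA uA v1) (tOf kA vA v4)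
      (sOf kB uB v5) (tOf kB vB v2) := by
  have hdeg : ∀ v, (univ.filter fun b => G.Adj v b).card ≤ 3 := fun v => (hcub v).le
  have X2 : X v2 := h.o12.2.mp X1
  have X3 : X v3 := h.o23.2.mp X2
  have X4 : X v4 := h.o34.2.mp X3
  have X5 : X v5 := h.o45.2.mp X4
  have nd := h.nd
  simp only [List.nodup_cons, List.mem_cons, List.not_mem_nil, or_false, not_or,
    List.nodup_nil, and_true, not_false_eq_true] at nd
  obtain ⟨⟨a1, a2, a3, a4⟩, ⟨b1, b2, b3⟩, ⟨c1, c2⟩, d1⟩ := nd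
  have ne : ∀ {a b : V}, X a → ¬ X b → a ≠ b := fun ha hb he => hb (he ▸ ha)
  have crY : ∀ {a y : V}, X a → y ∈ cr G X a → ¬ X y := by
    intro a y ha hy hh
    exact (mem_cr.mp hy).2 (iff_of_true hh ha)
  have m1 : yA kA ∈ cr G X v1 := by rw [h.cr1]; simp
  have m1z : z ∈ cr G X v1 := by rw [h.cr1]; simp
  have m2 : yB 0 ∈ cr G X v2 := by rw [h.cr2]; simp
  have m3 : z3 ∈ cr G X v3 := by rw [h.cr3]; simp
  have m4 : yA 0 ∈ cr G X v4 := by rw [h.cr4]; simp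
  have m5 : yB kB ∈ cr G X v5 := by rw [h.cr5]; simp
  have m5z : z ∈ cr G X v5 := by rw [h.cr5]; simp
  have Yz := crY X1 m1z
  have Yak := crY X1 m1
  have Yb0 := crY X2 m2
  have Yz3 := crY X3 m3
  have Ya0 := crY X4 m4
  have Ybk := crY X5 m5
  obtain ⟨⟨w1, wA1⟩, ⟨w2, wA2⟩, wA3, wA4, wA5, wA6⟩ := wire_ends hcub h.A X4 h.cr4
    (fun i hi b hb => hNM _ b (Or.inr (Or.inl ⟨i, hi, rfl⟩)) hb)
  obtain ⟨⟨w3, wB1⟩, ⟨w4, wB2⟩, wB3, wB4, wB5, wB6⟩ := wire_ends hcub h.B X2 h.cr2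
    (fun i hi b hb => hNM _ b (Or.inr (Or.inr ⟨i, hi, rfl⟩)) hb)
  have zk : yA kA ≠ z := (h.z1y kA le_rfl).symm
  have zk' : yB kB ≠ z := (h.z5y' kB le_rfl).symm
  refine
    { n1 := nb_of hdeg h.o12.1 (mem_cr.mp m1).1 (mem_cr.mp m1z).1 (ne X2 Yak) (ne X2 Yz) zk
      n2 := nb_of hdeg h.o12.1.symm h.o23.1 (mem_cr.mp m2).1 a2 (ne X1 Yb0) (ne X3 Yb0)
      n3 := nb_of hdeg h.o23.1.symm h.o34.1 (mem_cr.mp m3).1 b2 (ne X2 Yz3) (ne X4 Yz3)
      n4 := nb_of hdeg h.o34.1.symm h.o45.1 (mem_cr.mp m4).1 c2 (ne X3 Ya0) (ne X5 Ya0)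
      n5 := nb_of hdeg h.o45.1.symm (mem_cr.mp m5).1 (mem_cr.mp m5z).1 (ne X4 Ybk) (ne X4 Yz) zk'
      nz := ?_, nak := ⟨w1, wA1⟩, na0 := ⟨w2, wA2⟩, nbk := ⟨w3, wB1⟩, nb0 := ⟨w4, wB2⟩
      X1 := X1, X2 := X2, X3 := X3, X4 := X4, X5 := X5, Xs := wA3, Xt := wA4, Xs' := wB3
      Xt' := wB4, Yz := Yz, Yz3 := Yz3, Ya0 := Ya0, Yak := Yak, Yb0 := Yb0, Ybk := Ybk
      c3 := ?_, ct := wA5, ct' := wB5 }
  · obtain ⟨w, hw⟩ := nb_third hcub (mem_cr.mp m1z).1.symm (mem_cr.mp m5z).1.symm a4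
    have Yw : ¬ X w := by
      intro hh
      have k1 : w ∈ cr G X z := mem_cr.mpr ⟨hw.hc, fun h2 => Yz (h2.mp hh)⟩
      have k2 : v5 ∈ cr G X z := mem_cr.mpr ⟨(mem_cr.mp m5z).1.symm, fun h2 => Yz (h2.mp X5)⟩
      rw [h.cz1, Finset.mem_insert, Finset.mem_singleton] at k1 k2
      rcases k1 with k1 | k1
      · exact hw.ac k1.symm
      · rcases k2 with k2 | k2
        · exact a4 k2.symm
        · exact hw.bc (k2.trans k1.symm)
    exact ⟨w, hw, Yw, hNM z w (Or.inl rfl) ⟨hw.hc, iff_of_false Yz Yw⟩⟩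
  · intro r hr Xr
    have k1 : r ∈ cr G X z3 := mem_cr.mpr ⟨hr, fun h2 => Yz3 (h2.mp Xr)⟩
    rw [h.cz3, Finset.mem_singleton] at k1
    exact k1

end Pool.Agent.helper58.L9
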