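import Pool.Agent.helper58.L9.K5Num

/-!
# The game for the `U_5`'s with `z1 = z5`: soundness
-/

set_option autoImplicit false
set_option maxRecDepth 100000

namespace Pool.Agent.helper58.L9.K5

theorem ne_iff {i j : ℕ} : ne i j = true ↔ i ≠ j := by
  unfold ne
  rw [Bool.not_eq_true', ← Bool.not_eq_true, Nat.beq_eq]

theorem far_iff {i j : ℕ} : far i j = true ↔ i ≠ j ∧ i ≠ j + 1 := by
  unfold far
  rw [Bool.and_eq_true, ne_iff, ne_iff]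

theorem tb_eq (m j : ℕ) : tb m j = Nat.testBit m j := by
  unfold tb
  rw [Nat.testBit_eq_decide_div_mod_eq]
  have h1 : Nat.land (Nat.shiftRight m j) 1 = (m / 2 ^ j) % 2 := by
    have : Nat.land (Nat.shiftRight m j) 1 = (m >>> j) &&& 1 := rfl
    rw [this, Nat.and_one_is_mod, Nat.shiftRight_eq_div_pow]
  rw [h1]
  by_cases h : m / 2 ^ j % 2 = 1
  · rw [h]
    decide
  · have h0 : m / 2 ^ j % 2 = 0 := by omega
    rw [h0]
    decide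

variable {b y z l k t : ℕ}

/-- the position of a bit -/
def pos (b y z l k t : ℕ) : ℕ :=
  12500 * b + (2500 * y + (500 * z + (50 * l + (5 * k + (1 * t + 0)))))

/-- the digits are in range -/
structure Dig (y z l k t : ℕ) : Prop where
  y : y < 5
  z : z < 5
  l : l < 10
  k : k < 10
  t : t < 5

section

variable (hd : Dig y z l k t)

include hd

theorem Dig.r1 : 2500 * y + (500 * z + (50 * l + (5 * k + (1 * t + 0)))) < 12500 := by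
  obtain ⟨h1, h2, h3, h4, h5⟩ := hd
  omega

theorem Dig.r2 : 500 * z + (50 * l + (5 * k + (1 * t + 0))) < 2500 := by
  obtain ⟨h1, h2, h3, h4, h5⟩ := hd
  omega

theorem Dig.r3 : 50 * l + (5 * k + (1 * t + 0)) < 500 := by
  obtain ⟨h1, h2, h3, h4, h5⟩ := hd
  omega

theorem Dig.r4 : 5 * k + (1 * t + 0) < 50 := by
  obtain ⟨h1, h2, h3, h4, h5⟩ := hd
  omega

theorem Dig.r5 : 1 * t + 0 < 5 := by
  obtain ⟨h1, h2, h3, h4, h5⟩ := hd
  omega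

theorem FB_tb {c : ℕ} (h : (FB c).testBit (pos b y z l k t) = true) : far c b = true := by
  unfold FB pos at h
  have h := blk_tb hd.r1 h
  exact (sl_tb h).1

theorem FY_tb {c : ℕ} (h : (FY c).testBit (pos b y z l k t) = true) : far c y = true := by
  unfold FY pos at h
  have h := blk_tb hd.r1 h
  have h := blk_tb hd.r2 h
  exact (sl_tb h).1

theorem FZ_tb {c : ℕ} (h : (FZ c).testBit (pos b y z l k t) = true) : far c z = true := by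
  unfold FZ pos at h
  have h := blk_tb hd.r1 h
  have h := blk_tb hd.r2 h
  have h := blk_tb hd.r3 h
  exact (sl_tb h).1

theorem CM_tb {c e : ℕ} (h : (CM c e).testBit (pos b y z l k t) = true) :
    CH l k c e = true := by
  unfold CM pos at h
  have h := blk_tb hd.r1 h
  have h := blk_tb hd.r2 h
  have h := blk_tb hd.r3 h
  have h := blk_tb hd.r4 h
  have h := blk_tb hd.r5 h
  exact (sl_tb h).1

theorem F3_tb {c : ℕ} (h : (F3 c).testBit (pos b y z l k t) = true) : far c t = true := by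
  unfold F3 pos at h
  have h := blk_tb hd.r1 h
  have h := blk_tb hd.r2 h
  have h := blk_tb hd.r3 h
  have h := blk_tb hd.r4 h
  have h := blk_tb hd.r5 h
  have h := blk_tb (by omega) h
  exact (sl_tb h).1

/-- the wire of the second side -/
def WB (l k a y s e : ℕ) : Prop :=
  ∃ c d, (c < 5 ∧ d < 5) ∧ CH l k c d = true ∧ (c ≠ s ∧ d ≠ e) ∧
    (far c a = true ∧ far d y = true) ∧ (far s a = true ∧ far e y = true)

theorem BW_tb {v2 v5 : ℕ} (h : (BW v2 v5).testBit (pos b y z l k t) = true) :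
    WB l k b y v2 v5 := by
  unfold BW at h
  rw [tb_land, tb_land, Bool.and_eq_true, Bool.and_eq_true] at h
  obtain ⟨⟨h1, h2⟩, h3⟩ := h
  obtain ⟨c, hc, h3⟩ := o5_tb h3
  obtain ⟨h4, h5⟩ := sl_tb h3
  obtain ⟨d, hd', h5⟩ := o5_tb h5
  obtain ⟨h6, h7⟩ := sl_tb h5
  rw [tb_land, tb_land, Bool.and_eq_true, Bool.and_eq_true] at h7
  obtain ⟨⟨h8, h9⟩, h10⟩ := h7
  exact ⟨c, d, ⟨hc, hd'⟩, CM_tb hd h10, ⟨ne_iff.mp h4, ne_iff.mp h6⟩, ⟨FB_tb hd h8, FY_tb hd h9⟩,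
    FB_tb hd h1, FY_tb hd h2⟩

/-- the labels of the path, from `v4` and `v1` -/
def PR (W : ℕ → ℕ → Prop) (z t v4 v1 : ℕ) : Prop :=
  ∃ v2 v3 v5, (v2 < 5 ∧ v3 < 5 ∧ v5 < 5) ∧ W v2 v5 ∧ (v2 ≠ v1 ∧ v2 ≠ v4) ∧
    (v5 ≠ v1 ∧ v5 ≠ v4) ∧ (v3 ≠ v1 ∧ v3 ≠ v2 ∧ v3 ≠ v4 ∧ v3 ≠ v5) ∧
    (far v1 z = true ∧ far v5 z = true ∧ far v3 t = true)

theorem Row_tb {v4 v1 : ℕ} (h : (Row v4 v1).testBit (pos b y z l k t) = true) :
    PR (WB l k b y) z t v4 v1 := by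
  unfold Row at h
  obtain ⟨v2, h2, h⟩ := o5_tb h
  obtain ⟨e1, h⟩ := sl_tb h
  obtain ⟨v5, h5, h⟩ := o5_tb h
  obtain ⟨e2, h⟩ := sl_tb h
  rw [tb_land, tb_land, tb_land, Bool.and_eq_true, Bool.and_eq_true, Bool.and_eq_true] at h
  obtain ⟨⟨h6, h7, h8⟩, h9⟩ := h
  unfold R3 at h9
  obtain ⟨v3, h3, h9⟩ := o5_tb h9
  obtain ⟨e3, h10⟩ := sl_tb h9
  rw [Bool.and_eq_true, ne_iff, ne_iff] at e1 e2
  rw [Bool.and_eq_true, Bool.and_eq_true, Bool.and_eq_true, ne_iff, ne_iff, ne_iff, ne_iff] at e3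
  exact ⟨v2, v3, v5, ⟨h2, h3, h5⟩, BW_tb hd h6, e1, e2, ⟨e3.1.1, e3.1.2, e3.2.1, e3.2.2⟩,
    FZ_tb hd h7, FZ_tb hd h8, F3_tb hd h10⟩

end

theorem cm_tb {l k c t : ℕ} (ht : t < 5) (h : tb (cm l k) (5 * c + t) = true) :
    CH l k c t = true := by
  rw [tb_eq] at h
  unfold cm at h
  have h1 := blk_tb ht h
  have h2 : (blk 1 (fun t => sl (CH l k c t) 1) 5).testBit (1 * t + 0) = true := by
    rw [one_mul, add_zero]
    exact h1
  have h3 := blk_tb (by omega) h2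
  exact (sl_tb h3).1

/-- the final position, both wires virtual -/
def LfV (l k a y l' k' b y' z t : ℕ) : Prop :=
  ∃ v4 v1, (v4 < 5 ∧ v1 < 5) ∧ WB l k a y v4 v1 ∧ PR (WB l' k' b y') z t v4 v1

/-- the real wire -/
def RB (y s e : ℕ) : Prop := s ≠ e ∧ far s y = true ∧ far e y = true

/-- the final position, first wire real -/
def LfR (y l' k' b y' z t : ℕ) : Prop :=
  ∃ v4 v1, (v4 < 5 ∧ v1 < 5) ∧ RB y v4 v1 ∧ PR (WB l' k' b y') z t v4 v1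

theorem TT_tb {l k a y b y' z l' k' t : ℕ} (hd : Dig y' z l' k' t)
    (h : (TT l k y a).testBit (pos b y' z l' k' t) = true) : LfV l k a y l' k' b y' z t := by
  unfold TT at h
  obtain ⟨c, hc, h⟩ := o5_tb h
  obtain ⟨e1, h⟩ := sl_tb h
  obtain ⟨d, hd', h⟩ := o5_tb h
  obtain ⟨e2, h⟩ := sl_tb h
  rw [Bool.and_eq_true] at e2
  unfold SS at h
  obtain ⟨v4, h4, h⟩ := o5_tb h
  obtain ⟨e3, h⟩ := sl_tb h
  obtain ⟨v1, h1, h⟩ := o5_tb h
  obtain ⟨e4, h⟩ := sl_tb h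
  rw [Bool.and_eq_true, ne_iff] at e3 e4
  exact ⟨v4, v1, ⟨h4, h1⟩, ⟨c, d, ⟨hc, hd'⟩, cm_tb hd' e2.2, ⟨e3.1.symm, e4.1.symm⟩, ⟨e1, e2.1⟩,
    e3.2, e4.2⟩, Row_tb hd h⟩

theorem TR_tb {y b y' z l' k' t : ℕ} (hd : Dig y' z l' k' t)
    (h : (TR y).testBit (pos b y' z l' k' t) = true) : LfR y l' k' b y' z t := by
  unfold TR at h
  obtain ⟨v4, h4, h⟩ := o5_tb h
  obtain ⟨e3, h⟩ := sl_tb h
  obtain ⟨v1, h1, h⟩ := o5_tb h
  obtain ⟨e4, h⟩ := sl_tb h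
  rw [Bool.and_eq_true, ne_iff] at e4
  exact ⟨v4, v1, ⟨h4, h1⟩, ⟨e4.1.symm, e3, e4.2⟩, Row_tb hd h⟩

/-- the last steps of the game -/
theorem tail_tb {y l k t : ℕ} {M : ℕ} (hd : ∀ z y, z < 5 → y < 5 → Dig y z l k t)
    (h : (thb 500 (Nat.land (thb 2500 (Nat.land M NZ)) (NY y))).testBit
      (50 * l + (5 * k + (1 * t + 0))) = true) (hy : y < 5) (p q : ℕ) :
    ∃ z, z < 5 ∧ z ≠ p ∧ z ≠ q ∧ z ≠ y ∧ ∀ p q, ∃ y', y' < 5 ∧ y' ≠ p ∧ y' ≠ q ∧ y' ≠ z ∧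
      M.testBit (2500 * y' + (500 * z + (50 * l + (5 * k + (1 * t + 0))))) = true := by
  obtain ⟨z, hz, z1, z2, h⟩ := thb_pick h p q
  rw [tb_land, Bool.and_eq_true] at h
  have hzy : z ≠ y := by
    have h2 := h.2
    unfold NY at h2
    have h1 := blk_tb (hd z y hz hy).r3 h2
    exact ne_iff.mp (sl_tb h1).1
  refine ⟨z, hz, z1, z2, hzy, fun p q => ?_⟩
  obtain ⟨y', hy', y1, y2, h⟩ := thb_pick h.1 p q
  rw [tb_land, Bool.and_eq_true] at h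
  have h3 := h.2
  unfold NZ at h3
  have h3 := blk_tb (hd z y' hz hy').r2 h3
  have h2 := blk_tb (hd z y' hz hy').r3 h3
  exact ⟨y', hy', y1, y2, (ne_iff.mp (sl_tb h2).1).symm, h.1⟩

theorem full_tb {m w i : ℕ} (h : Nat.beq (Nat.land m (full w)) (full w) = true) (hi : i < w) :
    m.testBit i = true := by
  have h1 := Nat.eq_of_beq_eq_true h
  have h2 : (full w).testBit i = true := by
    unfold full
    rw [Nat.testBit_two_pow_sub_one]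
    exact decide_eq_true hi
  rw [← h1, tb_land, Bool.and_eq_true] at h2
  exact h2.1

theorem okR_true : okR = true := by decide +kernel

theorem okV_0 : ([0, 1, 2, 3, 4, 5, 6, 7, 8, 9].all fun k => okV 0 k) = true := by
  decide +kernel

theorem okV_1 : ([0, 1, 2, 3, 4, 5, 6, 7, 8, 9].all fun k => okV 1 k) = true := by
  decide +kernel

theorem okV_2 : ([0, 1, 2, 3, 4, 5, 6, 7, 8, 9].all fun k => okV 2 k) = true := by
  decide +kernel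

theorem okV_3 : ([0, 1, 2, 3, 4, 5, 6, 7, 8, 9].all fun k => okV 3 k) = true := by
  decide +kernel

theorem okV_4 : ([0, 1, 2, 3, 4, 5, 6, 7, 8, 9].all fun k => okV 4 k) = true := by
  decide +kernel

theorem okV_5 : ([0, 1, 2, 3, 4, 5, 6, 7, 8, 9].all fun k => okV 5 k) = true := by
  decide +kernel

theorem okV_6 : ([0, 1, 2, 3, 4, 5, 6, 7, 8, 9].all fun k => okV 6 k) = true := by
  decide +kernel

theorem okV_7 : ([0, 1, 2, 3, 4, 5, 6, 7, 8, 9].all fun k => okV 7 k) = true := by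
  decide +kernel

theorem okV_8 : ([0, 1, 2, 3, 4, 5, 6, 7, 8, 9].all fun k => okV 8 k) = true := by
  decide +kernel

theorem okV_9 : ([0, 1, 2, 3, 4, 5, 6, 7, 8, 9].all fun k => okV 9 k) = true := by
  decide +kernel

theorem okV_true :
    ([0, 1, 2, 3, 4, 5, 6, 7, 8, 9].all fun l =>
      [0, 1, 2, 3, 4, 5, 6, 7, 8, 9].all fun k => okV l k) = true := by
  rw [List.all_eq_true]
  intro l hl
  simp only [List.mem_cons, List.not_mem_nil, or_false] at hl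
  rcases hl with rfl | rfl | rfl | rfl | rfl | rfl | rfl | rfl | rfl | rfl
  exacts [okV_0, okV_1, okV_2, okV_3, okV_4, okV_5, okV_6, okV_7, okV_8, okV_9]

/-- **The game, both wires virtual.** -/
theorem game_V {l k l' k' t : ℕ} (hl : l < 10) (hk : k < 10) (hl' : l' < 10) (hk' : k' < 10)
    (ht : t < 5) (p q : ℕ) :
    ∃ y, y < 5 ∧ y ≠ p ∧ y ≠ q ∧ ∀ p q, ∃ z, z < 5 ∧ z ≠ p ∧ z ≠ q ∧ z ≠ y ∧
      ∀ p q, ∃ y', y' < 5 ∧ y' ≠ p ∧ y' ≠ q ∧ y' ≠ z ∧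
        ∀ p q, ∃ a, a < 5 ∧ a ≠ p ∧ a ≠ q ∧ ∀ p q, ∃ b, b < 5 ∧ b ≠ p ∧ b ≠ q ∧
          LfV l k a y l' k' b y' z t := by
  have h := okV_true
  rw [List.all_eq_true] at h
  have mem : ∀ x, x < 10 → x ∈ [0, 1, 2, 3, 4, 5, 6, 7, 8, 9] := by
    intro x hx
    simp only [List.mem_cons, List.not_mem_nil, or_false]
    omega
  have h := h l (mem l hl)
  rw [List.all_eq_true] at h
  have h := h k (mem k hk)
  have hi : 50 * l' + (5 * k' + (1 * t + 0)) < 500 := by omega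
  have h := full_tb h hi
  unfold FF at h
  obtain ⟨y, hy, y1, y2, h⟩ := th_pick (f := fun y => KK l k y) h p q
  refine ⟨y, hy, y1, y2, fun p q => ?_⟩
  have hdig : ∀ z y, z < 5 → y < 5 → Dig y z l' k' t := fun z y hz hy => ⟨hy, hz, hl', hk', ht⟩
  obtain ⟨z, hz, z1, z2, z3, hz4⟩ := tail_tb (y := y) hdig h hy p q
  refine ⟨z, hz, z1, z2, z3, fun p q => ?_⟩
  obtain ⟨y', hy', w1, w2, w3, h⟩ := hz4 p q
  refine ⟨y', hy', w1, w2, w3, fun p q => ?_⟩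
  unfold II at h
  obtain ⟨a, ha, a1, a2, h⟩ := th_pick (f := fun a => UU l k y a) h p q
  refine ⟨a, ha, a1, a2, fun p q => ?_⟩
  obtain ⟨b, hb, b1, b2, h⟩ := thb_pick h p q
  exact ⟨b, hb, b1, b2, TT_tb (hdig z y' hz hy') h⟩

/-- **The game, first wire real.** -/
theorem game_R {l' k' t : ℕ} (hl' : l' < 10) (hk' : k' < 10)
    (ht : t < 5) (p q : ℕ) :
    ∃ y, y < 5 ∧ y ≠ p ∧ y ≠ q ∧ ∀ p q, ∃ z, z < 5 ∧ z ≠ p ∧ z ≠ q ∧ z ≠ y ∧
      ∀ p q, ∃ y', y' < 5 ∧ y' ≠ p ∧ y' ≠ q ∧ y' ≠ z ∧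
        ∀ p q, ∃ b, b < 5 ∧ b ≠ p ∧ b ≠ q ∧ LfR y l' k' b y' z t := by
  have h := okR_true
  unfold okR at h
  have hi : 50 * l' + (5 * k' + (1 * t + 0)) < 500 := by omega
  have h := full_tb h hi
  generalize hKR : KR = K at h
  obtain ⟨y, hy, y1, y2, h⟩ := th_pick (f := K) h p q
  refine ⟨y, hy, y1, y2, fun p q => ?_⟩
  rw [← hKR] at h
  unfold KR at h
  have hdig : ∀ z y, z < 5 → y < 5 → Dig y z l' k' t := fun z y hz hy => ⟨hy, hz, hl', hk', ht⟩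
  obtain ⟨z, hz, z1, z2, z3, hz4⟩ := tail_tb (y := y) hdig h hy p q
  refine ⟨z, hz, z1, z2, z3, fun p q => ?_⟩
  obtain ⟨y', hy', w1, w2, w3, h⟩ := hz4 p q
  refine ⟨y', hy', w1, w2, w3, fun p q => ?_⟩
  obtain ⟨b, hb, b1, b2, h⟩ := thb_pick h p q
  exact ⟨b, hb, b1, b2, TR_tb (hdig z y' hz hy') h⟩

/-- at least three of five -/
def t3 (f : ℕ → Bool) : Bool := b3 (f 0) (f 1) (f 2) (f 3) (f 4)

/-- one of five -/
def a5 (f : ℕ → Bool) : Bool := f 0 || (f 1 || (f 2 || (f 3 || f 4)))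

theorem a5_iff {f : ℕ → Bool} (h : a5 f = true) : ∃ j, j < 5 ∧ f j = true := by
  unfold a5 at h
  rw [Bool.or_eq_true, Bool.or_eq_true, Bool.or_eq_true, Bool.or_eq_true] at h
  rcases h with h | h | h | h | h
  · exact ⟨0, by omega, h⟩
  · exact ⟨1, by omega, h⟩
  · exact ⟨2, by omega, h⟩
  · exact ⟨3, by omega, h⟩
  · exact ⟨4, by omega, h⟩

/-- the final position, both wires real -/
def fRR (y y' z t : ℕ) : Bool :=
  a5 fun v1 => far v1 y && far v1 z && a5 fun v5 => ne v5 v1 && far v5 y' && far v5 z &&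
    a5 fun v4 => ne v4 v1 && ne v4 v5 && far v4 y && a5 fun v2 => ne v2 v1 && ne v2 v4 &&
      ne v2 v5 && far v2 y' && a5 fun v3 => ne v3 v1 && ne v3 v2 && ne v3 v4 && ne v3 v5 &&
        far v3 t

def gRR (t : ℕ) : Bool :=
  t3 fun y => t3 fun y' => t3 fun z => ne z y && ne z y' && fRR y y' z t

theorem gRR_true : ([0, 1, 2, 3, 4].all gRR) = true := by decide +kernel

/-- **The game, both wires real.** -/
theorem game_RR {t : ℕ} (ht : t < 5) (p q : ℕ) :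
    ∃ y, y < 5 ∧ y ≠ p ∧ y ≠ q ∧ ∀ p q, ∃ y', y' < 5 ∧ y' ≠ p ∧ y' ≠ q ∧
      ∀ p q, ∃ z, z < 5 ∧ z ≠ p ∧ z ≠ q ∧ z ≠ y ∧ z ≠ y' ∧
        ∃ v4 v1, (v4 < 5 ∧ v1 < 5) ∧ RB y v4 v1 ∧ PR (RB y') z t v4 v1 := by
  have h := gRR_true
  rw [List.all_eq_true] at h
  have h := h t (by
    simp only [List.mem_cons, List.not_mem_nil, or_false]
    omega)
  unfold gRR t3 at h
  obtain ⟨y, hy, y1, y2, h⟩ := b3_pick (f := fun y => t3 fun y' => t3 fun z =>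
    ne z y && ne z y' && fRR y y' z t) h p q
  refine ⟨y, hy, y1, y2, fun p q => ?_⟩
  obtain ⟨y', hy', w1, w2, h⟩ := b3_pick (f := fun y' => t3 fun z =>
    ne z y && ne z y' && fRR y y' z t) h p q
  refine ⟨y', hy', w1, w2, fun p q => ?_⟩
  obtain ⟨z, hz, z1, z2, h⟩ := b3_pick (f := fun z => ne z y && ne z y' && fRR y y' z t) h p q
  rw [Bool.and_eq_true, Bool.and_eq_true, ne_iff, ne_iff] at h
  refine ⟨z, hz, z1, z2, h.1.1, h.1.2, ?_⟩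
  have h := h.2
  unfold fRR at h
  obtain ⟨v1, h1, h⟩ := a5_iff h
  rw [Bool.and_eq_true] at h
  obtain ⟨e1, h⟩ := h
  obtain ⟨v5, h5, h⟩ := a5_iff h
  rw [Bool.and_eq_true] at h
  obtain ⟨e5, h⟩ := h
  obtain ⟨v4, h4, h⟩ := a5_iff h
  rw [Bool.and_eq_true] at h
  obtain ⟨e4, h⟩ := h
  obtain ⟨v2, h2, h⟩ := a5_iff h
  rw [Bool.and_eq_true] at h
  obtain ⟨e2, h⟩ := h
  obtain ⟨v3, h3, e3⟩ := a5_iff h
  simp only [Bool.and_eq_true, ne_iff] at e1 e2 e3 e4 e5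
  exact ⟨v4, v1, ⟨h4, h1⟩, ⟨e4.1.1, e4.2, e1.1⟩, v2, v3, v5, ⟨h2, h3, h5⟩,
    ⟨e2.1.2, e2.2, e5.1.2⟩, ⟨e2.1.1.1, e2.1.1.2⟩, ⟨e5.1.1, e4.1.2.symm⟩,
    ⟨e3.1.1.1.1, e3.1.1.1.2, e3.1.1.2, e3.1.2⟩, e1.2, e5.2, e3.2⟩

end Pool.Agent.helper58.L9.K5
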