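import Pool.Agent.helper58.L9.K5Frame

/-!
# The region of a `U_5` with `z1 = z5`
-/

set_option autoImplicit false
set_option linter.unusedSectionVars false

namespace Pool.Agent.helper58.L9

open Finset Classical Helper33.L9 Helper17.L9
open Helper42.L9 hiding near
open Pool.Agent.helper40.L9 (ParOK JSt Bad Tol LamU)

variable {V : Type*} [Fintype V] {G : SimpleGraph V} {X L E : V → Prop} {f : V → ℕ}
  {Z S : Finset V} {v1 v2 v3 v4 v5 z z3 l1 l5 : V} {kA kB : ℕ}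
  {pA uA vA qA yA pB uB vB qB yB : ℕ → V}

/-- the region -/
def Lam5 (v1 v2 v3 v4 v5 z : V) (kA kB : ℕ) (uA vA yA uB vB yB : ℕ → V) (x : V) : Prop :=
  x = z ∨ LamU v1 v2 v3 v4 v5 kA kB uA vA yA uB vB yB x

theorem Lam5_rev (x : V) : Lam5 v5 v4 v3 v2 v1 z kB kA uB vB yB uA vA yA x ↔
    Lam5 v1 v2 v3 v4 v5 z kA kB uA vA yA uB vB yB x := by
  unfold Lam5 LamU
  constructor
  · rintro (h | h | h | h | h | h | h | h | h | h)
    · exact Or.inl h
    · exact Or.inr (Or.inr (Or.inr (Or.inr (Or.inr (Or.inl h)))))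
    · exact Or.inr (Or.inr (Or.inr (Or.inr (Or.inl h))))
    · exact Or.inr (Or.inr (Or.inr (Or.inl h)))
    · exact Or.inr (Or.inr (Or.inl h))
    · exact Or.inr (Or.inl h)
    · exact Or.inr (Or.inr (Or.inr (Or.inr (Or.inr (Or.inr (Or.inr (Or.inr (Or.inl h))))))))
    · exact Or.inr (Or.inr (Or.inr (Or.inr (Or.inr (Or.inr (Or.inr (Or.inr (Or.inr h))))))))
    · exact Or.inr (Or.inr (Or.inr (Or.inr (Or.inr (Or.inr (Or.inl h))))))
    · exact Or.inr (Or.inr (Or.inr (Or.inr (Or.inr (Or.inr (Or.inr (Or.inl h)))))))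
  · rintro (h | h | h | h | h | h | h | h | h | h)
    · exact Or.inl h
    · exact Or.inr (Or.inr (Or.inr (Or.inr (Or.inr (Or.inl h)))))
    · exact Or.inr (Or.inr (Or.inr (Or.inr (Or.inl h))))
    · exact Or.inr (Or.inr (Or.inr (Or.inl h)))
    · exact Or.inr (Or.inr (Or.inl h))
    · exact Or.inr (Or.inl h)
    · exact Or.inr (Or.inr (Or.inr (Or.inr (Or.inr (Or.inr (Or.inr (Or.inr (Or.inl h))))))))
    · exact Or.inr (Or.inr (Or.inr (Or.inr (Or.inr (Or.inr (Or.inr (Or.inr (Or.inr h))))))))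
    · exact Or.inr (Or.inr (Or.inr (Or.inr (Or.inr (Or.inr (Or.inl h))))))
    · exact Or.inr (Or.inr (Or.inr (Or.inr (Or.inr (Or.inr (Or.inr (Or.inl h)))))))

section

variable (hcub : ∀ v, (univ.filter fun b => G.Adj v b).card = 3)
  (h : U5 G X Z S v1 v2 v3 v4 v5 z z3 z l1 l5 kA kB pA uA vA qA yA pB uB vB qB yB)
  (X1 : X v1)

include h

theorem pth_nd : [v1, v2, v3, v4, v5].Nodup := h.nd

theorem z3_ne : z3 ≠ z ∧ (∀ i, i ≤ kA → z3 ≠ yA i) ∧ (∀ i, i ≤ kB → z3 ≠ yB i) := by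
  have h1 := h.e3.2
  refine ⟨?_, ?_, ?_⟩
  · intro he
    have := h.e1.2.1
    rw [he] at h1
    omega
  · intro i hi he
    have := h.A.y2 i hi
    rw [he] at h1
    omega
  · intro i hi he
    have := h.B.y2 i hi
    rw [he] at h1
    omega

include X1

theorem pX : ∀ x, Pth v1 v2 v3 v4 v5 x → X x := by
  have X2 : X v2 := h.o12.2.mp X1
  have X3 : X v3 := h.o23.2.mp X2
  have X4 : X v4 := h.o34.2.mp X3
  have X5 : X v5 := h.o45.2.mp X4
  rintro x (rfl | rfl | rfl | rfl | rfl) <;> assumption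

theorem X24 : X v2 ∧ X v4 := by
  have X2 : X v2 := h.o12.2.mp X1
  have X3 : X v3 := h.o23.2.mp X2
  exact ⟨X2, h.o34.2.mp X3⟩

include hcub

/-- the ends of the units are not on the path -/
theorem pA_ne {i : ℕ} (hi : i < kA) :
    (X (pA i) ∧ ¬ Pth v1 v2 v3 v4 v5 (pA i)) ∧ (X (qA i) ∧ ¬ Pth v1 v2 v3 v4 v5 (qA i)) := by
  have X4 := (X24 h X1).2
  have hn := h.noA i hi
  simp only [List.mem_cons, List.not_mem_nil, or_false, not_or] at hn
  obtain ⟨hu, hv⟩ := hn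
  have hun := h.A.unit i hi
  refine ⟨⟨wX_p h.A X4 hi, ?_⟩, wX_q h.A X4 hi, ?_⟩
  · rintro (h1 | h1 | h1 | h1 | h1)
    · have h2 := hun.pu
      rw [h1] at h2
      exact hu.2.1 (own_one' hcub h.c1 h2 h.o12)
    · have h2 := hun.cp
      have := h.c2
      rw [h1] at h2
      omega
    · have h2 := hun.cp
      have := h.c3
      rw [h1] at h2
      omega
    · have h2 := hun.cp
      have := h.c4
      rw [h1] at h2
      omega
    · have h2 := hun.pu
      rw [h1] at h2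
      exact hu.2.2.2.1 (own_one' hcub h.c5 h2 (Helper33.L9.ownR_symm h.o45))
  · rintro (h1 | h1 | h1 | h1 | h1)
    · have h2 := Helper33.L9.ownR_symm hun.vq
      rw [h1] at h2
      exact hv.2.1 (own_one' hcub h.c1 h2 h.o12)
    · have h2 := hun.cq
      have := h.c2
      rw [h1] at h2
      omega
    · have h2 := hun.cq
      have := h.c3
      rw [h1] at h2
      omega
    · have h2 := hun.cq
      have := h.c4
      rw [h1] at h2
      omega
    · have h2 := Helper33.L9.ownR_symm hun.vq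
      rw [h1] at h2
      exact hv.2.2.2.1 (own_one' hcub h.c5 h2 (Helper33.L9.ownR_symm h.o45))

theorem pB_ne {i : ℕ} (hi : i < kB) :
    (X (pB i) ∧ ¬ Pth v1 v2 v3 v4 v5 (pB i)) ∧ (X (qB i) ∧ ¬ Pth v1 v2 v3 v4 v5 (qB i)) := by
  have X5 := pX h X1 v5 (Or.inr (Or.inr (Or.inr (Or.inr rfl))))
  have rv : ∀ x, Pth v1 v2 v3 v4 v5 x → Pth v5 v4 v3 v2 v1 x := by
    rintro x (h1 | h1 | h1 | h1 | h1)
    · exact Or.inr (Or.inr (Or.inr (Or.inr h1)))
    · exact Or.inr (Or.inr (Or.inr (Or.inl h1)))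
    · exact Or.inr (Or.inr (Or.inl h1))
    · exact Or.inr (Or.inl h1)
    · exact Or.inl h1
  obtain ⟨⟨h1, h2⟩, h3, h4⟩ := pA_ne hcub (U5.rev h) X5 hi
  exact ⟨⟨h1, fun hh => h2 (rv _ hh)⟩, h3, fun hh => h4 (rv _ hh)⟩

omit hcub in
theorem yA_Y {i : ℕ} (hi : i ≤ kA) : ¬ X (yA i) := wY h.A (X24 h X1).2 hi

omit hcub in
theorem yB_Y {i : ℕ} (hi : i ≤ kB) : ¬ X (yB i) := wY h.B (X24 h X1).1 hi

omit hcub in
theorem z_Y : ¬ X z := by
  have m : z ∈ cr G X v1 := by rw [h.cr1]; simp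
  exact fun hh => (mem_cr.mp m).2 (iff_of_true hh X1)

omit hcub in
/-- the units of the first wire are not on the path -/
theorem uA_ne {i : ℕ} (hi : i < kA) :
    (X (uA i) ∧ ¬ Pth v1 v2 v3 v4 v5 (uA i)) ∧ (X (vA i) ∧ ¬ Pth v1 v2 v3 v4 v5 (vA i)) := by
  have X4 := (X24 h X1).2
  have hn := h.noA i hi
  simp only [List.mem_cons, List.not_mem_nil, or_false, not_or] at hn
  unfold Pth
  refine ⟨⟨wX_u h.A X4 hi, ?_⟩, wX_v h.A X4 hi, ?_⟩
  · tauto
  · tauto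

omit hcub in
theorem uB_ne {i : ℕ} (hi : i < kB) :
    (X (uB i) ∧ ¬ Pth v1 v2 v3 v4 v5 (uB i)) ∧ (X (vB i) ∧ ¬ Pth v1 v2 v3 v4 v5 (vB i)) := by
  have X2 := (X24 h X1).1
  have hn := h.noB i hi
  simp only [List.mem_cons, List.not_mem_nil, or_false, not_or] at hn
  unfold Pth
  refine ⟨⟨wX_u h.B X2 hi, ?_⟩, wX_v h.B X2 hi, ?_⟩
  · tauto
  · tauto

end

end Pool.Agent.helper58.L9
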