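import Pool.Agent.helper58.L9.K5Bit

/-!
# The finite check for the `U_5`'s with `z1 = z5`

Even labels `2 i`, odd labels `2 j + 1`, `i, j < 5`.  The lists `l < 10` are the complements of the
ten pairs.
-/

set_option autoImplicit false

namespace Pool.Agent.helper58.L9.K5

/-- different -/
def ne (i j : ℕ) : Bool := !(Nat.beq i j)
/-- the labels `2 i` and `2 j + 1` are not at distance one -/
def far (i j : ℕ) : Bool := ne i j && ne i (j + 1)

/-- bit of a number -/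
def tb (m j : ℕ) : Bool := Nat.beq (Nat.land (Nat.shiftRight m j) 1) 1

/-- the lists -/
def inL (l c : ℕ) : Bool := tb 259052757539676 (5 * l + c)

/-- the labels `c` and `t` at the ends of a wire -/
def CH (l k c t : ℕ) : Bool :=
  (inL l c && inL k t) && ((ne t c && inL l t) ||
    (((ne 0 c && inL l 0 && !inL k 0) || (ne 1 c && inL l 1 && !inL k 1)) ||
      ((ne 2 c && inL l 2 && !inL k 2) || ((ne 3 c && inL l 3 && !inL k 3) ||
        (ne 4 c && inL l 4 && !inL k 4)))))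

/-- all ones -/
def full (w : ℕ) : ℕ := 2 ^ w - 1

/-- the relation `CH l k` -/
def cm (l k : ℕ) : ℕ := blk 5 (fun c => blk 1 (fun t => sl (CH l k c t) 1) 5) 5

def FB (c : ℕ) : ℕ := blk 12500 (fun b => sl (far c b) (full 12500)) 5
def FY (t : ℕ) : ℕ := blk 12500 (fun _ => blk 2500 (fun y => sl (far t y) (full 2500)) 5) 5
def FZ (v : ℕ) : ℕ :=
  blk 12500 (fun _ => blk 2500 (fun _ => blk 500 (fun z => sl (far v z) (full 500)) 5) 5) 5
def CM (c t : ℕ) : ℕ :=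
  blk 12500 (fun _ => blk 2500 (fun _ => blk 500 (fun _ => blk 50 (fun l => blk 5 (fun k =>
    sl (CH l k c t) 31) 10) 10) 5) 5) 5
def F3 (v : ℕ) : ℕ :=
  blk 12500 (fun _ => blk 2500 (fun _ => blk 500 (fun _ => blk 50 (fun _ => blk 5 (fun _ =>
    blk 1 (fun z => sl (far v z) 1) 5) 10) 10) 5) 5) 5
def NZ : ℕ := blk 2500 (fun y => blk 500 (fun z => sl (ne z y) (full 500)) 5) 5
def NY (y : ℕ) : ℕ := blk 500 (fun z => sl (ne z y) (full 500)) 5

/-- the wire of the other side -/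
def BW (v2 v5 : ℕ) : ℕ :=
  Nat.land (Nat.land (FB v2) (FY v5)) (o5 fun c => sl (ne c v2) (o5 fun t => sl (ne t v5)
    (Nat.land (Nat.land (FB c) (FY t)) (CM c t))))

def R3 (v1 v2 v4 v5 : ℕ) : ℕ :=
  o5 fun v3 => sl ((ne v3 v1 && ne v3 v2) && (ne v3 v4 && ne v3 v5)) (F3 v3)

def Row (v4 v1 : ℕ) : ℕ :=
  o5 fun v2 => sl (ne v2 v1 && ne v2 v4) (o5 fun v5 => sl (ne v5 v1 && ne v5 v4)
    (Nat.land (Nat.land (BW v2 v5) (Nat.land (FZ v1) (FZ v5))) (R3 v1 v2 v4 v5)))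

def SS (a y c t : ℕ) : ℕ :=
  o5 fun v4 => sl (ne v4 c && far v4 a) (o5 fun v1 => sl (ne v1 t && far v1 y) (Row v4 v1))

def TT (l k y a : ℕ) : ℕ :=
  o5 fun c => sl (far c a) (o5 fun t => sl (far t y && tb (cm l k) (5 * c + t)) (SS a y c t))

/-- the real wire -/
def TR (y : ℕ) : ℕ :=
  o5 fun v4 => sl (far v4 y) (o5 fun v1 => sl (ne v1 v4 && far v1 y) (Row v4 v1))

def UU (l k y a : ℕ) : ℕ := thb 12500 (TT l k y a)

def II (l k y : ℕ) : ℕ := th (UU l k y 0) (UU l k y 1) (UU l k y 2) (UU l k y 3) (UU l k y 4)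

def JJ (l k y : ℕ) : ℕ := thb 2500 (Nat.land (II l k y) NZ)

def KK (l k y : ℕ) : ℕ := thb 500 (Nat.land (JJ l k y) (NY y))

def FF (l k : ℕ) : ℕ := th (KK l k 0) (KK l k 1) (KK l k 2) (KK l k 3) (KK l k 4)

def okV (l k : ℕ) : Bool := Nat.beq (Nat.land (FF l k) (full 500)) (full 500)

def KR (y : ℕ) : ℕ := thb 500 (Nat.land (thb 2500 (Nat.land (thb 12500 (TR y)) NZ)) (NY y))

def okR : Bool :=
  Nat.beq (Nat.land (th (KR 0) (KR 1) (KR 2) (KR 3) (KR 4)) (full 500)) (full 500)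

end Pool.Agent.helper58.L9.K5
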