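import Pool.Agent.helper58.L9.K5Main
import Pool.Agent.helper33.L9.OffFacts

/-!
# The region of a `U_5` with `z1 = z5`: extension and region theorem
-/

set_option autoImplicit false
set_option linter.unusedSectionVars false

namespace Pool.Agent.helper58.L9

open Finset Classical Helper33.L9 Helper17.L9
open Helper42.L9 hiding near
open Pool.Agent.helper40.L9 (ParOK JSt Bad Tol LamU K5Region)

variable {V : Type*} [Fintype V] {G : SimpleGraph V} {X L E : V → Prop} {f : V → ℕ}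
  {Z S : Finset V} {v1 v2 v3 v4 v5 z z3 l1 l5 : V} {kA kB : ℕ}
  {pA uA vA qA yA pB uB vB qB yB : ℕ → V}

section

variable (hcub : ∀ v, (univ.filter fun b => G.Adj v b).card = 3)
  (h : U5 G X Z S v1 v2 v3 v4 v5 z z3 z l1 l5 kA kB pA uA vA qA yA pB uB vB qB yB)
  (X1 : X v1) (hNM : LinkNM G X z kA kB yA yB)
  (st : StG G X L E f)
  (hL : ∀ x, Lam5 v1 v2 v3 v4 v5 z kA kB uA vA yA uB vB yB x → ¬ L x)

theorem lam_z : Lam5 v1 v2 v3 v4 v5 z kA kB uA vA yA uB vB yB z := Or.inl rfl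

theorem lam_P {x : V} (hx : Pth v1 v2 v3 v4 v5 x) :
    Lam5 v1 v2 v3 v4 v5 z kA kB uA vA yA uB vB yB x := by
  right
  unfold LamU
  rcases hx with h | h | h | h | h
  · exact Or.inl h
  · exact Or.inr (Or.inl h)
  · exact Or.inr (Or.inr (Or.inl h))
  · exact Or.inr (Or.inr (Or.inr (Or.inl h)))
  · exact Or.inr (Or.inr (Or.inr (Or.inr (Or.inl h))))

theorem lam_uA {i : ℕ} (hi : i < kA) :
    Lam5 v1 v2 v3 v4 v5 z kA kB uA vA yA uB vB yB (uA i) ∧
      Lam5 v1 v2 v3 v4 v5 z kA kB uA vA yA uB vB yB (vA i) := by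
  refine ⟨Or.inr ?_, Or.inr ?_⟩
  · exact Or.inr (Or.inr (Or.inr (Or.inr (Or.inr (Or.inl ⟨i, hi, Or.inl rfl⟩)))))
  · exact Or.inr (Or.inr (Or.inr (Or.inr (Or.inr (Or.inl ⟨i, hi, Or.inr rfl⟩)))))

theorem lam_yA {i : ℕ} (hi : i ≤ kA) :
    Lam5 v1 v2 v3 v4 v5 z kA kB uA vA yA uB vB yB (yA i) :=
  Or.inr (Or.inr (Or.inr (Or.inr (Or.inr (Or.inr (Or.inr (Or.inl ⟨i, hi, rfl⟩)))))))

theorem lam_uB {i : ℕ} (hi : i < kB) :
    Lam5 v1 v2 v3 v4 v5 z kA kB uA vA yA uB vB yB (uB i) ∧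
      Lam5 v1 v2 v3 v4 v5 z kA kB uA vA yA uB vB yB (vB i) := by
  refine ⟨Or.inr ?_, Or.inr ?_⟩
  · exact Or.inr (Or.inr (Or.inr (Or.inr (Or.inr (Or.inr (Or.inr (Or.inl
      ⟨i, hi, Or.inl rfl⟩)))))))
  · exact Or.inr (Or.inr (Or.inr (Or.inr (Or.inr (Or.inr (Or.inr (Or.inl
      ⟨i, hi, Or.inr rfl⟩)))))))

theorem lam_yB {i : ℕ} (hi : i ≤ kB) :
    Lam5 v1 v2 v3 v4 v5 z kA kB uA vA yA uB vB yB (yB i) :=
  Or.inr (Or.inr (Or.inr (Or.inr (Or.inr (Or.inr (Or.inr (Or.inr (Or.inr ⟨i, hi, rfl⟩))))))))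

theorem lam_iff (hA : 0 < kA) (hB : 0 < kB) (x : V) :
    Lam5 v1 v2 v3 v4 v5 z kA kB uA vA yA uB vB yB x ↔
      ((x ∈ [yA kA, z, yB kB, yA 0, yB 0] ∨ Pth v1 v2 v3 v4 v5 x) ∨ WS kA uA vA yA x) ∨
        WS kB uB vB yB x := by
  simp only [List.mem_cons, List.not_mem_nil, or_false]
  constructor
  · rintro (h | h | h | h | h | h | ⟨i, hi, h⟩ | ⟨i, hi, h⟩ | ⟨i, hi, h⟩ | ⟨i, hi, h⟩)
    · exact Or.inl (Or.inl (Or.inl (Or.inr (Or.inl h))))
    · exact Or.inl (Or.inl (Or.inr (Or.inl h)))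
    · exact Or.inl (Or.inl (Or.inr (Or.inr (Or.inl h))))
    · exact Or.inl (Or.inl (Or.inr (Or.inr (Or.inr (Or.inl h)))))
    · exact Or.inl (Or.inl (Or.inr (Or.inr (Or.inr (Or.inr (Or.inl h))))))
    · exact Or.inl (Or.inl (Or.inr (Or.inr (Or.inr (Or.inr (Or.inr h))))))
    · exact Or.inl (Or.inr (Or.inl ⟨i, hi, h⟩))
    · rcases Nat.eq_zero_or_pos i with h0 | h0
      · subst h0
        exact Or.inl (Or.inl (Or.inl (Or.inr (Or.inr (Or.inr (Or.inl h))))))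
      · by_cases h1 : i = kA
        · subst h1
          exact Or.inl (Or.inl (Or.inl (Or.inl h)))
        · exact Or.inl (Or.inr (Or.inr ⟨i, h0, by omega, h⟩))
    · exact Or.inr (Or.inl ⟨i, hi, h⟩)
    · rcases Nat.eq_zero_or_pos i with h0 | h0
      · subst h0
        exact Or.inl (Or.inl (Or.inl (Or.inr (Or.inr (Or.inr (Or.inr h))))))
      · by_cases h1 : i = kB
        · subst h1
          exact Or.inl (Or.inl (Or.inl (Or.inr (Or.inr (Or.inl h)))))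
        · exact Or.inr (Or.inr ⟨i, h0, by omega, h⟩)
  · rintro ((((h | h | h | h | h) | h) | (⟨i, hi, h | h⟩ | ⟨i, h0, hi, h⟩)) |
      (⟨i, hi, h | h⟩ | ⟨i, h0, hi, h⟩))
    · rw [h]; exact lam_yA le_rfl
    · rw [h]; exact lam_z
    · rw [h]; exact lam_yB le_rfl
    · rw [h]; exact lam_yA (Nat.zero_le _)
    · rw [h]; exact lam_yB (Nat.zero_le _)
    · exact lam_P h
    · rw [h]; exact (lam_uA hi).1
    · rw [h]; exact (lam_uA hi).2
    · rw [h]; exact lam_yA (by omega)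
    · rw [h]; exact (lam_uB hi).1
    · rw [h]; exact (lam_uB hi).2
    · rw [h]; exact lam_yB (by omega)

include hcub h X1 hNM st hL in
/-- **Extension, both wires virtual.** -/
theorem ext_VV (hA : 0 < kA) (hB : 0 < kB) :
    ∃ g : V → ℕ,
      StG G X (fun x => L x ∨ Lam5 v1 v2 v3 v4 v5 z kA kB uA vA yA uB vB yB x) E g := by
  have hk := k5s_of hcub h X1 hNM
  have eA : sOf kA uA v1 = uA 0 := by unfold sOf; rw [if_neg (by omega)]
  have eB : sOf kB uB v5 = uB 0 := by unfold sOf; rw [if_neg (by omega)]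
  have fA : tOf kA vA v4 = vA (kA - 1) := by unfold tOf; rw [if_neg (by omega)]
  have fB : tOf kB vB v2 = vB (kB - 1) := by unfold tOf; rw [if_neg (by omega)]
  have hA1 : kA - 1 < kA := by omega
  have hB1 : kB - 1 < kB := by omega
  rw [eA, eB, fA, fB] at hk
  obtain ⟨z3a, z3b, z3c⟩ := z3_ne h
  have Yz := z_Y h X1
  have YA : ∀ i, i ≤ kA → ¬ X (yA i) := fun i hi => yA_Y h X1 hi
  have YB : ∀ i, i ≤ kB → ¬ X (yB i) := fun i hi => yB_Y h X1 hi
  have X24' := X24 h X1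
  have nz : ∀ i, i ≤ kA → z ≠ yA i := h.z1y
  have nz' : ∀ i, i ≤ kB → z ≠ yB i := h.z1y'
  have nA : yA kA ≠ yA 0 := fun he => by
    have := h.A.nyy kA le_rfl 0 (Nat.zero_le _) he
    omega
  have nB : yB kB ≠ yB 0 := fun he => by
    have := h.B.nyy kB le_rfl 0 (Nat.zero_le _) he
    omega
  have ny : [yA kA, z, yB kB, yA 0, yB 0].Nodup := by
    simp only [List.nodup_cons, List.mem_cons, List.not_mem_nil, or_false, not_or,
      List.nodup_nil, and_true, not_false_eq_true]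
    exact ⟨⟨(nz kA le_rfl).symm, h.dy _ le_rfl _ le_rfl, nA, h.dy _ le_rfl _ (Nat.zero_le _)⟩,
      ⟨nz' _ le_rfl, nz _ (Nat.zero_le _), nz' _ (Nat.zero_le _)⟩,
      ⟨(h.dy _ (Nat.zero_le _) _ le_rfl).symm, nB⟩, h.dy _ (Nat.zero_le _) _ (Nat.zero_le _)⟩
  have crs : ∀ {a b r : V}, cr G X a = {b} → X a → G.Adj a r → ¬ X r → r = b := by
    intro a b r h1 h2 h3 h4
    have h5 : r ∈ cr G X a := mem_cr.mpr ⟨h3, fun hh => h4 (hh.mpr h2)⟩
    rw [h1, Finset.mem_singleton] at h5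
    exact h5
  obtain ⟨l, k, hl, hk', heA⟩ := ends_ex f kA pA qA
  obtain ⟨l', k', hl', hk'', heB⟩ := ends_ex f kB pB qB
  obtain ⟨g1, st1, g1f, wA, wB⟩ := hk.extV st h.nd ny
    ⟨fun x hx => hL x (lam_P hx), hL _ lam_z, hL _ (lam_yA (Nat.zero_le _)),
      hL _ (lam_yA le_rfl), hL _ (lam_yB (Nat.zero_le _)), hL _ (lam_yB le_rfl),
      hL _ (lam_uA hA).1, hL _ (lam_uA hA1).2, hL _ (lam_uB hB).1, hL _ (lam_uB hB1).2⟩
    (fun r hr Yr => crs (h.A.cu 0 hA) (uA_ne h X1 hA).1.1 hr Yr)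
    (fun r hr Yr => crs (h.B.cu 0 hB) (uB_ne h X1 hB).1.1 hr Yr)
    (uA_ne h X1 hA).1.2 (uA_ne h X1 hA1).2.2 (uB_ne h X1 hB).1.2 (uB_ne h X1 hB1).2.2
    hl hk' hl' hk'' ⟨z3b _ le_rfl, z3a, z3c _ le_rfl, z3b _ (Nat.zero_le _),
      z3c _ (Nat.zero_le _)⟩
  have nY : ∀ x, X x → x ∉ [yA kA, z, yB kB, yA 0, yB 0] := by
    intro x hx hm
    simp only [List.mem_cons, List.not_mem_nil, or_false] at hm
    rcases hm with rfl | rfl | rfl | rfl | rfl
    · exact YA _ le_rfl hx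
    · exact Yz hx
    · exact YB _ le_rfl hx
    · exact YA _ (Nat.zero_le _) hx
    · exact YB _ (Nat.zero_le _) hx
  have nP : ∀ x, ¬ X x → ¬ Pth v1 v2 v3 v4 v5 x := fun x hx hh => hx (pX h X1 x hh)
  -- first wire
  obtain ⟨g2, st2, g2f⟩ := fillW hcub h.A X24'.2 hA st1
    (by
      intro i hi
      obtain ⟨⟨k1, k2⟩, k3, k4⟩ := uA_ne h X1 hi
      constructor
      · rintro (hh | hh | hh)
        · exact hL _ (lam_uA hi).1 hh
        · exact nY _ k1 hh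
        · exact k2 hh
      · rintro (hh | hh | hh)
        · exact hL _ (lam_uA hi).2 hh
        · exact nY _ k3 hh
        · exact k4 hh)
    (by
      rintro i h0 hi (hh | hh | hh)
      · exact hL _ (lam_yA (by omega)) hh
      · simp only [List.mem_cons, List.not_mem_nil, or_false] at hh
        rcases hh with hh | hh | hh | hh | hh
        · have := h.A.nyy i (by omega) kA le_rfl hh
          omega
        · exact nz i (by omega) hh.symm
        · exact h.dy i (by omega) kB le_rfl hh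
        · have := h.A.nyy i (by omega) 0 (Nat.zero_le _) hh
          omega
        · exact h.dy i (by omega) 0 (Nat.zero_le _) hh
      · exact nP _ (YA i (by omega)) hh)
    (fun i hi b hb => hNM _ b (Or.inr (Or.inl ⟨i, hi, rfl⟩)) hb)
    (heA.congr (g1f _ (nY _ (pA_ne hcub h X1 hA).1.1) (pA_ne hcub h X1 hA).1.2)
      (g1f _ (nY _ (pA_ne hcub h X1 hA).2.1) (pA_ne hcub h X1 hA).2.2)
      (g1f _ (nY _ (pA_ne hcub h X1 hA1).1.1) (pA_ne hcub h X1 hA1).1.2)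
      (g1f _ (nY _ (pA_ne hcub h X1 hA1).2.1) (pA_ne hcub h X1 hA1).2.2)) wA
  have nWv : ∀ x, x = v2 ∨ x = v5 → ¬ WS kA uA vA yA x := by
    intro x hx hh
    have hx' : Pth v1 v2 v3 v4 v5 x := by
      rcases hx with rfl | rfl
      · exact Or.inr (Or.inl rfl)
      · exact Or.inr (Or.inr (Or.inr (Or.inr rfl)))
    rcases hh with ⟨i, hi, rfl | rfl⟩ | ⟨i, h0, hi, rfl⟩
    · exact (uA_ne h X1 hi).1.2 hx'
    · exact (uA_ne h X1 hi).2.2 hx'
    · exact nP _ (YA i (by omega)) hx'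
  have nWy : ∀ j, j ≤ kB → ¬ WS kA uA vA yA (yB j) := by
    rintro j hj (⟨i, hi, hh | hh⟩ | ⟨i, h0, hi, hh⟩)
    · exact YB j hj (hh ▸ (uA_ne h X1 hi).1.1)
    · exact YB j hj (hh ▸ (uA_ne h X1 hi).2.1)
    · exact h.dy i (by omega) j hj hh.symm
  have nWu : ∀ j, j < kB → ¬ WS kA uA vA yA (uB j) ∧ ¬ WS kA uA vA yA (vB j) := by
    intro j hj
    constructor
    · rintro (⟨i, hi, hh | hh⟩ | ⟨i, h0, hi, hh⟩)
      · exact (h.dAB i hi j hj).1 hh.symm
      · exact (h.dAB i hi j hj).2.2.1 hh.symm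
      · exact YA i (by omega) (hh ▸ (uB_ne h X1 hj).1.1)
    · rintro (⟨i, hi, hh | hh⟩ | ⟨i, h0, hi, hh⟩)
      · exact (h.dAB i hi j hj).2.1 hh.symm
      · exact (h.dAB i hi j hj).2.2.2 hh.symm
      · exact YA i (by omega) (hh ▸ (uB_ne h X1 hj).2.1)
  have nWp : ∀ j, j < kB → ¬ WS kA uA vA yA (pB j) ∧ ¬ WS kA uA vA yA (qB j) := by
    intro j hj
    have c1 := (h.B.unit j hj).cp
    have c2 := (h.B.unit j hj).cq
    obtain ⟨⟨x1, _⟩, x2, _⟩ := pB_ne hcub h X1 hj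
    constructor
    · rintro (⟨i, hi, hh | hh⟩ | ⟨i, h0, hi, hh⟩)
      · have := (h.A.unit i hi).cu
        rw [hh] at c1
        omega
      · have := (h.A.unit i hi).cv
        rw [hh] at c1
        omega
      · exact YA i (by omega) (hh ▸ x1)
    · rintro (⟨i, hi, hh | hh⟩ | ⟨i, h0, hi, hh⟩)
      · have := (h.A.unit i hi).cu
        rw [hh] at c2
        omega
      · have := (h.A.unit i hi).cv
        rw [hh] at c2
        omega
      · exact YA i (by omega) (hh ▸ x2)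
  -- second wire
  have hg : ∀ j, j < kB → g2 (pB j) = f (pB j) ∧ g2 (qB j) = f (qB j) := by
    intro j hj
    obtain ⟨⟨x1, x2⟩, x3, x4⟩ := pB_ne hcub h X1 hj
    obtain ⟨w1, w2⟩ := nWp j hj
    exact ⟨by rw [g2f _ w1, g1f _ (nY _ x1) x2], by rw [g2f _ w2, g1f _ (nY _ x3) x4]⟩
  obtain ⟨g3, st3, _⟩ := fillW hcub h.B X24'.1 hB st2
    (by
      intro i hi
      obtain ⟨⟨k1, k2⟩, k3, k4⟩ := uB_ne h X1 hi
      constructor
      · rintro ((hh | hh | hh) | hh)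
        · exact hL _ (lam_uB hi).1 hh
        · exact nY _ k1 hh
        · exact k2 hh
        · exact (nWu i hi).1 hh
      · rintro ((hh | hh | hh) | hh)
        · exact hL _ (lam_uB hi).2 hh
        · exact nY _ k3 hh
        · exact k4 hh
        · exact (nWu i hi).2 hh)
    (by
      rintro i h0 hi ((hh | hh | hh) | hh)
      · exact hL _ (lam_yB (by omega)) hh
      · simp only [List.mem_cons, List.not_mem_nil, or_false] at hh
        rcases hh with hh | hh | hh | hh | hh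
        · exact h.dy kA le_rfl i (by omega) hh.symm
        · exact nz' i (by omega) hh.symm
        · have := h.B.nyy i (by omega) kB le_rfl hh
          omega
        · exact h.dy 0 (Nat.zero_le _) i (by omega) hh.symm
        · have := h.B.nyy i (by omega) 0 (Nat.zero_le _) hh
          omega
      · exact nP _ (YB i (by omega)) hh
      · exact nWy i (by omega) hh)
    (fun i hi b hb => hNM _ b (Or.inr (Or.inr ⟨i, hi, rfl⟩)) hb)
    (heB.congr (hg 0 hB).1 (hg 0 hB).2 (hg _ hB1).1 (hg _ hB1).2)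
    (wB.congr (g2f _ (nWy 0 (Nat.zero_le _))) (g2f _ (nWy kB le_rfl))
      (g2f _ (nWv v2 (Or.inl rfl))) (g2f _ (nWv v5 (Or.inr rfl))))
  refine ⟨g3, st3.congr (fun x => ?_) (fun x => Iff.rfl)⟩
  rw [lam_iff hA hB x]
  simp only [or_assoc]

end

section

theorem lam_iff_R (hB : 0 < kB) (x : V) :
    Lam5 v1 v2 v3 v4 v5 z 0 kB uA vA yA uB vB yB x ↔
      ((x ∈ [yA 0, z, yB kB, yB 0] ∨ Pth v1 v2 v3 v4 v5 x) ∨ WS kB uB vB yB x) := by
  simp only [List.mem_cons, List.not_mem_nil, or_false]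
  constructor
  · rintro (h | h | h | h | h | h | ⟨i, hi, h⟩ | ⟨i, hi, h⟩ | ⟨i, hi, h⟩ | ⟨i, hi, h⟩)
    · exact Or.inl (Or.inl (Or.inr (Or.inl h)))
    · exact Or.inl (Or.inr (Or.inl h))
    · exact Or.inl (Or.inr (Or.inr (Or.inl h)))
    · exact Or.inl (Or.inr (Or.inr (Or.inr (Or.inl h))))
    · exact Or.inl (Or.inr (Or.inr (Or.inr (Or.inr (Or.inl h)))))
    · exact Or.inl (Or.inr (Or.inr (Or.inr (Or.inr (Or.inr h)))))
    · omega
    · have h0 : i = 0 := by omega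
      subst h0
      exact Or.inl (Or.inl (Or.inl h))
    · exact Or.inr (Or.inl ⟨i, hi, h⟩)
    · rcases Nat.eq_zero_or_pos i with h0 | h0
      · subst h0
        exact Or.inl (Or.inl (Or.inr (Or.inr (Or.inr h))))
      · by_cases h1 : i = kB
        · subst h1
          exact Or.inl (Or.inl (Or.inr (Or.inr (Or.inl h))))
        · exact Or.inr (Or.inr ⟨i, h0, by omega, h⟩)
  · rintro (((h | h | h | h) | h) | (⟨i, hi, h | h⟩ | ⟨i, h0, hi, h⟩))
    · rw [h]; exact lam_yA le_rfl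
    · rw [h]; exact lam_z
    · rw [h]; exact lam_yB le_rfl
    · rw [h]; exact lam_yB (Nat.zero_le _)
    · exact lam_P h
    · rw [h]; exact (lam_uB hi).1
    · rw [h]; exact (lam_uB hi).2
    · rw [h]; exact lam_yB (by omega)

theorem lam_iff_RR (x : V) :
    Lam5 v1 v2 v3 v4 v5 z 0 0 uA vA yA uB vB yB x ↔
      (x ∈ [yA 0, yB 0, z] ∨ Pth v1 v2 v3 v4 v5 x) := by
  simp only [List.mem_cons, List.not_mem_nil, or_false]
  constructor
  · rintro (h | h | h | h | h | h | ⟨i, hi, h⟩ | ⟨i, hi, h⟩ | ⟨i, hi, h⟩ | ⟨i, hi, h⟩)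
    · exact Or.inl (Or.inr (Or.inr h))
    · exact Or.inr (Or.inl h)
    · exact Or.inr (Or.inr (Or.inl h))
    · exact Or.inr (Or.inr (Or.inr (Or.inl h)))
    · exact Or.inr (Or.inr (Or.inr (Or.inr (Or.inl h))))
    · exact Or.inr (Or.inr (Or.inr (Or.inr (Or.inr h))))
    · omega
    · have h0 : i = 0 := by omega
      subst h0
      exact Or.inl (Or.inl h)
    · omega
    · have h0 : i = 0 := by omega
      subst h0
      exact Or.inl (Or.inr (Or.inl h))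
  · rintro ((h | h | h) | h)
    · rw [h]; exact lam_yA le_rfl
    · rw [h]; exact lam_yB le_rfl
    · rw [h]; exact lam_z
    · exact lam_P h

variable (hcub : ∀ v, (univ.filter fun b => G.Adj v b).card = 3)

include hcub in
/-- **Extension, first wire real, second wire virtual.** -/
theorem ext_RV (h : U5 G X Z S v1 v2 v3 v4 v5 z z3 z l1 l5 0 kB pA uA vA qA yA pB uB vB qB yB)
    (X1 : X v1) (hNM : LinkNM G X z 0 kB yA yB) (st : StG G X L E f)
    (hL : ∀ x, Lam5 v1 v2 v3 v4 v5 z 0 kB uA vA yA uB vB yB x → ¬ L x) (hB : 0 < kB) :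
    ∃ g : V → ℕ,
      StG G X (fun x => L x ∨ Lam5 v1 v2 v3 v4 v5 z 0 kB uA vA yA uB vB yB x) E g := by
  have hk := k5s_of hcub h X1 hNM
  have eA : sOf 0 uA v1 = v1 := by unfold sOf; rw [if_pos rfl]
  have eB : sOf kB uB v5 = uB 0 := by unfold sOf; rw [if_neg (by omega)]
  have fA : tOf 0 vA v4 = v4 := by unfold tOf; rw [if_pos rfl]
  have fB : tOf kB vB v2 = vB (kB - 1) := by unfold tOf; rw [if_neg (by omega)]
  have hB1 : kB - 1 < kB := by omega
  rw [eA, eB, fA, fB] at hk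
  obtain ⟨z3a, z3b, z3c⟩ := z3_ne h
  have Yz := z_Y h X1
  have YA : ∀ i, i ≤ 0 → ¬ X (yA i) := fun i hi => yA_Y h X1 hi
  have YB : ∀ i, i ≤ kB → ¬ X (yB i) := fun i hi => yB_Y h X1 hi
  have X24' := X24 h X1
  have nz : ∀ i, i ≤ 0 → z ≠ yA i := h.z1y
  have nz' : ∀ i, i ≤ kB → z ≠ yB i := h.z1y'
  have nB : yB kB ≠ yB 0 := fun he => by
    have := h.B.nyy kB le_rfl 0 (Nat.zero_le _) he
    omega
  have ny : [yA 0, z, yB kB, yB 0].Nodup := by
    simp only [List.nodup_cons, List.mem_cons, List.not_mem_nil, or_false, not_or,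
      List.nodup_nil, and_true, not_false_eq_true]
    exact ⟨⟨(nz 0 le_rfl).symm, h.dy _ le_rfl _ le_rfl, h.dy _ le_rfl _ (Nat.zero_le _)⟩,
      ⟨nz' _ le_rfl, nz' _ (Nat.zero_le _)⟩, nB⟩
  have crs : ∀ {a b r : V}, cr G X a = {b} → X a → G.Adj a r → ¬ X r → r = b := by
    intro a b r h1 h2 h3 h4
    have h5 : r ∈ cr G X a := mem_cr.mpr ⟨h3, fun hh => h4 (hh.mpr h2)⟩
    rw [h1, Finset.mem_singleton] at h5
    exact h5
  obtain ⟨l', k', hl', hk'', heB⟩ := ends_ex f kB pB qB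
  have m1 : Pth v1 v2 v3 v4 v5 v1 := Or.inl rfl
  have m4 : Pth v1 v2 v3 v4 v5 v4 := Or.inr (Or.inr (Or.inr (Or.inl rfl)))
  obtain ⟨g1, st1, g1f, wB⟩ := hk.extR st h.nd ny
    ⟨fun x hx => hL x (lam_P hx), hL _ lam_z, hL _ (lam_yA (Nat.zero_le _)),
      hL _ (lam_yA le_rfl), hL _ (lam_yB (Nat.zero_le _)), hL _ (lam_yB le_rfl),
      hL _ (lam_P m1), hL _ (lam_P m4), hL _ (lam_uB hB).1, hL _ (lam_uB hB1).2⟩
    (fun r hr Yr => crs (h.B.cu 0 hB) (uB_ne h X1 hB).1.1 hr Yr)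
    (uB_ne h X1 hB).1.2 (uB_ne h X1 hB1).2.2
    hl' hk'' ⟨z3b _ le_rfl, z3a, z3c _ le_rfl, z3c _ (Nat.zero_le _)⟩
  have nY : ∀ x, X x → x ∉ [yA 0, z, yB kB, yB 0] := by
    intro x hx hm
    simp only [List.mem_cons, List.not_mem_nil, or_false] at hm
    rcases hm with rfl | rfl | rfl | rfl
    · exact YA _ le_rfl hx
    · exact Yz hx
    · exact YB _ le_rfl hx
    · exact YB _ (Nat.zero_le _) hx
  have nP : ∀ x, ¬ X x → ¬ Pth v1 v2 v3 v4 v5 x := fun x hx hh => hx (pX h X1 x hh)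
  have hg : ∀ j, j < kB → g1 (pB j) = f (pB j) ∧ g1 (qB j) = f (qB j) := by
    intro j hj
    obtain ⟨⟨x1, x2⟩, x3, x4⟩ := pB_ne hcub h X1 hj
    exact ⟨by rw [g1f _ (nY _ x1) x2], by rw [g1f _ (nY _ x3) x4]⟩
  obtain ⟨g3, st3, _⟩ := fillW hcub h.B X24'.1 hB st1
    (by
      intro i hi
      obtain ⟨⟨k1, k2⟩, k3, k4⟩ := uB_ne h X1 hi
      constructor
      · rintro (hh | hh | hh)
        · exact hL _ (lam_uB hi).1 hh
        · exact nY _ k1 hh
        · exact k2 hh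
      · rintro (hh | hh | hh)
        · exact hL _ (lam_uB hi).2 hh
        · exact nY _ k3 hh
        · exact k4 hh)
    (by
      rintro i h0 hi (hh | hh | hh)
      · exact hL _ (lam_yB (by omega)) hh
      · simp only [List.mem_cons, List.not_mem_nil, or_false] at hh
        rcases hh with hh | hh | hh | hh
        · exact h.dy 0 le_rfl i (by omega) hh.symm
        · exact nz' i (by omega) hh.symm
        · have := h.B.nyy i (by omega) kB le_rfl hh
          omega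
        · have := h.B.nyy i (by omega) 0 (Nat.zero_le _) hh
          omega
      · exact nP _ (YB i (by omega)) hh)
    (fun i hi b hb => hNM _ b (Or.inr (Or.inr ⟨i, hi, rfl⟩)) hb)
    (heB.congr (hg 0 hB).1 (hg 0 hB).2 (hg _ hB1).1 (hg _ hB1).2) wB
  refine ⟨g3, st3.congr (fun x => ?_) (fun x => Iff.rfl)⟩
  rw [lam_iff_R hB x]
  simp only [or_assoc]

include hcub in
/-- **Extension, both wires real.** -/
theorem ext_RR (h : U5 G X Z S v1 v2 v3 v4 v5 z z3 z l1 l5 0 0 pA uA vA qA yA pB uB vB qB yB)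
    (X1 : X v1) (hNM : LinkNM G X z 0 0 yA yB) (st : StG G X L E f)
    (hL : ∀ x, Lam5 v1 v2 v3 v4 v5 z 0 0 uA vA yA uB vB yB x → ¬ L x) :
    ∃ g : V → ℕ,
      StG G X (fun x => L x ∨ Lam5 v1 v2 v3 v4 v5 z 0 0 uA vA yA uB vB yB x) E g := by
  have hk := k5s_of hcub h X1 hNM
  have eA : sOf 0 uA v1 = v1 := by unfold sOf; rw [if_pos rfl]
  have eB : sOf 0 uB v5 = v5 := by unfold sOf; rw [if_pos rfl]
  have fA : tOf 0 vA v4 = v4 := by unfold tOf; rw [if_pos rfl]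
  have fB : tOf 0 vB v2 = v2 := by unfold tOf; rw [if_pos rfl]
  rw [eA, eB, fA, fB] at hk
  obtain ⟨z3a, z3b, z3c⟩ := z3_ne h
  have ny : [yA 0, yB 0, z].Nodup := by
    simp only [List.nodup_cons, List.mem_cons, List.not_mem_nil, or_false, not_or,
      List.nodup_nil, and_true, not_false_eq_true]
    exact ⟨⟨h.dy _ le_rfl _ le_rfl, (h.z1y 0 le_rfl).symm⟩, (h.z1y' 0 le_rfl).symm⟩
  have m1 : Pth v1 v2 v3 v4 v5 v1 := Or.inl rfl
  have m2 : Pth v1 v2 v3 v4 v5 v2 := Or.inr (Or.inl rfl)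
  have m4 : Pth v1 v2 v3 v4 v5 v4 := Or.inr (Or.inr (Or.inr (Or.inl rfl)))
  have m5 : Pth v1 v2 v3 v4 v5 v5 := Or.inr (Or.inr (Or.inr (Or.inr rfl)))
  obtain ⟨g1, st1⟩ := hk.extRR st h.nd ny
    ⟨fun x hx => hL x (lam_P hx), hL _ lam_z, hL _ (lam_yA (Nat.zero_le _)),
      hL _ (lam_yA le_rfl), hL _ (lam_yB (Nat.zero_le _)), hL _ (lam_yB le_rfl),
      hL _ (lam_P m1), hL _ (lam_P m4), hL _ (lam_P m5), hL _ (lam_P m2)⟩
    ⟨z3b _ le_rfl, z3c _ le_rfl, z3a⟩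
  refine ⟨g1, st1.congr (fun x => ?_) (fun x => Iff.rfl)⟩
  rw [lam_iff_RR x]

include hcub in
/-- **Extension, all cases.** -/
theorem ext_all
    (h : U5 G X Z S v1 v2 v3 v4 v5 z z3 z l1 l5 kA kB pA uA vA qA yA pB uB vB qB yB)
    (X1 : X v1) (hNM : LinkNM G X z kA kB yA yB) (st : StG G X L E f)
    (hL : ∀ x, Lam5 v1 v2 v3 v4 v5 z kA kB uA vA yA uB vB yB x → ¬ L x) :
    ∃ g : V → ℕ,
      StG G X (fun x => L x ∨ Lam5 v1 v2 v3 v4 v5 z kA kB uA vA yA uB vB yB x) E g := by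
  rcases Nat.eq_zero_or_pos kA with h0 | hA
  · subst h0
    rcases Nat.eq_zero_or_pos kB with h0 | hB
    · subst h0
      exact ext_RR hcub h X1 hNM st hL
    · exact ext_RV hcub h X1 hNM st hL hB
  · rcases Nat.eq_zero_or_pos kB with h0 | hB
    · subst h0
      have X5 := pX h X1 v5 (Or.inr (Or.inr (Or.inr (Or.inr rfl))))
      obtain ⟨g, st'⟩ := ext_RV hcub (U5.rev h) X5 hNM.rev st
        (fun x hx => hL x ((Lam5_rev x).mp hx)) hA
      exact ⟨g, st'.congr (fun x => or_congr_right (Lam5_rev x)) (fun x => Iff.rfl)⟩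
    · exact ext_VV hcub h X1 hNM st hL hA hB

end

end Pool.Agent.helper58.L9
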