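import Pool.Agent.helper58.L9.K5Fill

/-!
# The steps of the extension to a `U_5` with `z1 = z5`
-/

set_option autoImplicit false
set_option linter.unusedSectionVars false

namespace Pool.Agent.helper58.L9

open Finset Classical Helper33.L9 Helper17.L9
open Helper42.L9 hiding near
open Pool.Agent.helper40.L9 (ParOK JSt Bad Tol)

variable {V : Type*} [Fintype V] {G : SimpleGraph V} {X L E : V → Prop} {f : V → ℕ}

/-- at most two conflicts besides those in `P` -/
def Two (G : SimpleGraph V) (X : V → Prop) (y : V) (P : V → Prop) : Prop :=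
  ∃ o o' : V, ∀ r, qadj G X y r → P r ∨ r = o ∨ r = o'

/-- one more link -/
theorem stepY (st : StG G X L E f) {y : V} {P : V → Prop} {o o' : V}
    (hC : ∀ r, qadj G X y r → P r ∨ r = o ∨ r = o') (hy : ¬ L y) (Yy : ¬ X y)
    (hadj : ∀ r, G.Adj y r → X r → ¬ L r) {j : ℕ} (hj : j < 5) (h1 : j ≠ f o / 2)
    (h2 : j ≠ f o' / 2) (hP : ∀ r, P r → L r → f r ≠ 2 * j + 1) :
    ∃ g : V → ℕ, g y = 2 * j + 1 ∧ (∀ x, x ≠ y → g x = f x) ∧
      StG G X (fun x => L x ∨ x = y) E g := by
  refine st.one relG qadj_irr y (2 * j + 1) hy (by omega) ?_ ?_ ?_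
  · constructor
    · intro hh
      exact absurd hh Yy
    · intro hh
      rw [Nat.even_iff] at hh
      omega
  · intro r hr hL _
    rcases hC r hr with h | h | h
    · exact hP r h hL
    · rw [h]
      omega
    · rw [h]
      omega
  · intro r hr hs hL _
    exfalso
    have hXr : X r := by
      by_contra hh
      exact hs (iff_of_false Yy hh)
    exact hadj r hr hXr hL

/-- more vertices on the side `X`, in parity -/
theorem stepX (st : StG G X L E f) {P : V → Prop} (hL : ∀ x, P x → ¬ L x)
    (hX : ∀ x, P x → X x) (a : V → ℕ) (ha : ∀ x, P x → a x < 5)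
    (hq : ∀ p r, P p → P r → qadj G X p r → a p ≠ a r)
    (hq' : ∀ p r, P p → qadj G X p r → L r → False)
    (hc : ∀ p r, P p → G.Adj p r → ¬ X r → L r → 2 * a p + 1 ≠ f r ∧ f r + 1 ≠ 2 * a p) :
    ∃ g : V → ℕ, (∀ x, P x → g x = 2 * a x) ∧ (∀ x, ¬ P x → g x = f x) ∧
      StG G X (fun x => L x ∨ P x) E g := by
  have e1 : ∀ x, P x → (if P x then 2 * a x else f x) = 2 * a x := fun x hx => if_pos hx
  have e2 : ∀ x, ¬ P x → (if P x then 2 * a x else f x) = f x := fun x hx => if_neg hx
  refine ⟨fun x => if P x then 2 * a x else f x, e1, e2, ?_⟩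
  have := St.extend (relG (G := G) (X := X)) st P (fun _ => False)
    (fun x => if P x then 2 * a x else f x) hL (fun v hv => hv.elim) (fun v hv _ => e2 v hv)
    (by
      rintro v (hv | hv)
      · have := ha v hv
        simp only [hv, if_true]
        omega
      · exact hv.elim)
    (by
      intro v hv
      simp only [hv, if_true]
      exact ⟨fun _ => even_two_mul _, fun _ => hX v hv⟩)
    (by
      intro p r hp hpr hr
      rcases hr with hr | hr
      · exact (hq' p r hp hpr hr.1).elim
      · have := hq p r hp hr hpr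
        simp only [hp, hr, if_true]
        omega)
    (by
      intro p r hp hpr hs hr
      rcases hr with hr | hr
      · have hPr : ¬ P r := fun hh => hL r hh hr.1
        have hXr : ¬ X r := fun hh => hs (iff_of_true (hX p hp) hh)
        simp only [hp, hPr, if_true, if_false]
        exact hc p r hp hpr hXr hr.1
      · exact absurd (iff_of_true (hX p hp) (hX r hr)) hs)
    (fun _ _ h => h.elim) (fun _ _ h => h.elim) (fun _ _ h => h.elim)
  have e3 : (fun v => L v ∨ P v ∨ False) = (fun v => L v ∨ P v) := by
    funext v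
    simp
  have e4 : (fun v => E v ∨ False) = E := by
    funext v
    simp
  rw [e3, e4] at this
  exact this

end Pool.Agent.helper58.L9
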