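import Pool.Agent.helper58.L9.K5Ext

/-!
# The wires of a `U_5` with `z1 = z5`
-/

set_option autoImplicit false
set_option linter.unusedSectionVars false

namespace Pool.Agent.helper58.L9

open Finset Classical Helper33.L9 Helper17.L9
open Helper42.L9 hiding near
open Pool.Agent.helper40.L9 (ParOK JSt Bad Tol LamU)

variable {V : Type*} [Fintype V] {G : SimpleGraph V} {X L E : V → Prop} {f g : V → ℕ}
  {Z S : Finset V} {k : ℕ} {p u v q y : ℕ → V} {σ τ : V}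

/-- the numbers of the lists of a wire -/
def Ends (f : V → ℕ) (k : ℕ) (p q : ℕ → V) (l m : ℕ) : Prop :=
  ∀ c d, c < 5 → d < 5 → K5.CH l m c d = true →
    ∃ a b, (a, b) ∈ evp ∧ 2 * c ∈ evs ∧ (2 * c ≠ f (p 0) ∧ 2 * c ≠ f (q 0)) ∧
      (a ≠ 2 * c ∧ a ≠ f (p 0) ∧ a ≠ f (q 0)) ∧ (b ≠ 2 * c ∧ b ≠ f (p 0) ∧ b ≠ f (q 0)) ∧
      CndS a b (f (p (k - 1))) (f (q (k - 1))) (2 * d) ∧ (k = 1 → 2 * d ≠ 2 * c)

theorem ends_ex (f : V → ℕ) (k : ℕ) (p q : ℕ → V) :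
    ∃ l m, l < 10 ∧ m < 10 ∧ Ends f k p q l m := by
  obtain ⟨l, m, h1, h2, h3⟩ := K5.ends (f (p 0)) (f (q 0)) (f (p (k - 1))) (f (q (k - 1)))
    (k = 1) (fun h => by subst h; exact ⟨rfl, rfl⟩)
  exact ⟨l, m, h1, h2, h3⟩

theorem Ends.congr {l m : ℕ} (h : Ends f k p q l m) (h1 : g (p 0) = f (p 0))
    (h2 : g (q 0) = f (q 0)) (h3 : g (p (k - 1)) = f (p (k - 1)))
    (h4 : g (q (k - 1)) = f (q (k - 1))) : Ends g k p q l m := by
  unfold Ends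
  rw [h1, h2, h3, h4]
  exact h

/-- a virtual wire is filled -/
theorem fillW (hcub : ∀ v, (univ.filter fun b => G.Adj v b).card = 3)
    (hw : Helper33.L9.Wire G X Z S k p u v q y σ τ) (Xσ : X σ) (hk : 0 < k)
    (st : StG G X L E g) (hu : ∀ i, i < k → ¬ L (u i) ∧ ¬ L (v i))
    (hy : ∀ i, 0 < i → i < k → ¬ L (y i))
    (hNM : ∀ i, i ≤ k → ∀ b, ownR G X (y i) b → NMAt G X b) {l m : ℕ}
    (he : Ends g k p q l m) (hW : WV g l m (y 0) (y k) σ τ) :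
    ∃ g' : V → ℕ, StG G X (fun x => L x ∨ WS k u v y x) E g' ∧
      (∀ x, ¬ WS k u v y x → g' x = g x) := by
  obtain ⟨a, y', i, j, e1, e2, e3, e4, hB⟩ := hW
  unfold K5.WB at hB
  obtain ⟨c, d, ⟨hc, hd⟩, hCH, ⟨n1, n2⟩, ⟨f1, f2⟩, _⟩ := hB
  obtain ⟨α, β, h1, h2, h3, h4, h5, h6, h7⟩ := he c d hc hd hCH
  exact wire_fillG hcub hw Xσ hk st hu hy (fun i _ hi => hNM i (by omega)) h1 h2 h3 h4 h5 h6 h7
    (fun _ => by rw [e3]; omega) (fun _ => by rw [e4]; omega)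
    (fun _ => far_num f1 e1) (fun _ => far_num f2 e2)

/-- `WV` for other labels of the rest -/
theorem WV.congr {g' : V → ℕ} {l m : ℕ} {a b s t : V} (h : WV g l m a b s t)
    (h1 : g' a = g a) (h2 : g' b = g b) (h3 : g' s = g s) (h4 : g' t = g t) :
    WV g' l m a b s t := by
  unfold WV
  rw [h1, h2, h3, h4]
  exact h

section

variable {v1 v2 v3 v4 v5 z z3 l1 l5 : V} {kA kB : ℕ}
  {pA uA vA qA yA pB uB vB qB yB : ℕ → V}

/-- mirror image of a `U_5` -/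
theorem U5.rev {z1 z5 : V}
    (h : U5 G X Z S v1 v2 v3 v4 v5 z1 z3 z5 l1 l5 kA kB pA uA vA qA yA pB uB vB qB yB) :
    U5 G X Z S v5 v4 v3 v2 v1 z5 z3 z1 l5 l1 kB kA pB uB vB qB yB pA uA vA qA yA where
  o12 := Helper33.L9.ownR_symm h.o45
  o23 := Helper33.L9.ownR_symm h.o34
  o34 := Helper33.L9.ownR_symm h.o23
  o45 := Helper33.L9.ownR_symm h.o12
  c1 := h.c5
  c2 := h.c4
  c3 := h.c3
  c4 := h.c2
  c5 := h.c1
  nd := by
    have := h.nd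
    have h2 := List.nodup_reverse.mpr this
    simpa using h2
  mem := ⟨h.mem.2.2.2.2, h.mem.2.2.2.1, h.mem.2.2.1, h.mem.2.1, h.mem.1⟩
  A := h.B
  B := h.A
  cr1 := h.cr5
  cr2 := h.cr4
  cr3 := h.cr3
  cr4 := h.cr2
  cr5 := h.cr1
  cz1 := h.cz5
  cz3 := h.cz3
  cz5 := h.cz1
  e1 := h.e5
  e3 := h.e3
  e5 := h.e1
  z1y := h.z5y'
  z1y' := h.z5y
  z5y := h.z1y'
  z5y' := h.z1y
  dAB := fun i hi j hj => by
    obtain ⟨h1, h2, h3, h4⟩ := h.dAB j hj i hi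
    exact ⟨h1.symm, h3.symm, h2.symm, h4.symm⟩
  dy := fun i hi j hj => (h.dy j hj i hi).symm
  noA := fun i hi => by
    obtain ⟨h1, h2⟩ := h.noB i hi
    simp only [List.mem_cons, List.not_mem_nil, or_false, not_or] at h1 h2 ⊢
    tauto
  noB := fun i hi => by
    obtain ⟨h1, h2⟩ := h.noA i hi
    simp only [List.mem_cons, List.not_mem_nil, or_false, not_or] at h1 h2 ⊢
    tauto

end

end Pool.Agent.helper58.L9
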