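import Pool.Agent.helper58.L9.KgFrame

/-!
# K4 configurations

`Rn`: the three kinds of rungs, `Cfg`: the data of a configuration, `Good`: the conditions.
-/

set_option autoImplicit false
set_option linter.unusedSectionVars false
set_option linter.unusedVariables false

namespace Pool.Agent.helper58.L9

open Finset Classical Helper33.L9
open Helper42.L9 hiding near

variable {V : Type*} {G : SimpleGraph V} {X : V → Prop}

/-- the kinds of rungs: the ends are adjacent, or have a common own neighbour `u`, or are the ends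
of an own path with six vertices whose second and fifth vertex have a common cross neighbour -/
inductive Rn (V : Type*) where
  | two : Rn V
  | three (u : V) : Rn V
  | six (v2 v3 v4 v5 y : V) : Rn V

namespace Rn

/-- the own neighbour of the first end -/
def fst (r : Rn V) (t' : V) : V :=
  match r with
  | two => t'
  | three u => u
  | six v2 _ _ _ _ => v2

/-- the own neighbour of the second end -/
def lst (r : Rn V) (t : V) : V :=
  match r with
  | two => t
  | three u => u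
  | six _ _ _ v5 _ => v5

/-- reversal -/
def rev : Rn V → Rn V
  | two => two
  | three u => three u
  | six v2 v3 v4 v5 y => six v5 v4 v3 v2 y

/-- the inner vertices of the own path -/
def M : Rn V → V → Prop
  | two => fun _ => False
  | three u => fun x => x = u
  | six v2 v3 v4 v5 _ => fun x => x = v2 ∨ x = v3 ∨ x = v4 ∨ x = v5

/-- all vertices of the rung besides its ends -/
def inn : Rn V → V → Prop
  | two => fun _ => False
  | three u => fun x => x = u
  | six v2 v3 v4 v5 y => fun x => P5 v2 v3 v4 v5 y x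

theorem fst_rev (r : Rn V) (t' : V) : r.rev.fst t' = r.lst t' := by
  cases r <;> rfl

theorem lst_rev (r : Rn V) (t : V) : r.rev.lst t = r.fst t := by
  cases r <;> rfl

theorem rev_rev (r : Rn V) : r.rev.rev = r := by
  cases r <;> rfl

theorem M_rev (r : Rn V) (x : V) : r.rev.M x ↔ r.M x := by
  cases r
  · exact Iff.rfl
  · exact Iff.rfl
  · simp only [rev, M]
    tauto

theorem inn_rev (r : Rn V) (x : V) : r.rev.inn x ↔ r.inn x := by
  cases r
  · exact Iff.rfl
  · exact Iff.rfl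
  · simp only [rev, inn, P5]
    tauto

theorem M_inn (r : Rn V) (x : V) (h : r.M x) : r.inn x := by
  cases r
  · exact h
  · exact h
  · simp only [M, inn, P5] at h ⊢
    tauto

end Rn

/-- `r` is a rung between `t` and `t'` -/
def Rung (G : SimpleGraph V) (X : V → Prop) (t t' : V) : Rn V → Prop
  | .two => G.Adj t t'
  | .three u => (X u ↔ X t) ∧ ∃ z, Nb G u t t' z
  | .six v2 v3 v4 v5 y => ((X v2 ↔ X t) ∧ (X v3 ↔ X t) ∧ (X v4 ↔ X t) ∧ (X v5 ↔ X t) ∧
      ¬ (X y ↔ X t)) ∧ Nb G v2 t v3 y ∧ Nb G v5 t' v4 y ∧ (∃ z, Nb G v3 v2 v4 z) ∧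
      (∃ z, Nb G v4 v5 v3 z) ∧ ∃ b, Nb G y v2 v5 b

theorem Rung.rev {t t' : V} {r : Rn V} (hXt' : X t' ↔ X t) (h : Rung G X t t' r) :
    Rung G X t' t r.rev := by
  cases r with
  | two => exact G.adj_symm h
  | three u =>
    obtain ⟨h1, z, h2⟩ := h
    exact ⟨h1.trans hXt'.symm, z, h2.swap⟩
  | six v2 v3 v4 v5 y =>
    obtain ⟨⟨h2, h3, h4, h5, hy⟩, n2, n5, ⟨z3, n3⟩, ⟨z4, n4⟩, b, n⟩ := h
    exact ⟨⟨h5.trans hXt'.symm, h4.trans hXt'.symm, h3.trans hXt'.symm, h2.trans hXt'.symm,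
      fun hh => hy (hh.trans hXt')⟩, n5, n2, ⟨z4, n4⟩, ⟨z3, n3⟩, b, n.swap⟩

theorem Rung.refl {t t' : V} {r : Rn V} (h : Rung G X t t' r) :
    Rung G (fun v => ¬ X v) t t' r := by
  cases r with
  | two => exact h
  | three u =>
    obtain ⟨h1, z, h2⟩ := h
    exact ⟨not_congr h1, z, h2⟩
  | six v2 v3 v4 v5 y =>
    obtain ⟨⟨h2, h3, h4, h5, hy⟩, n2, n5, n3, n4, n⟩ := h
    exact ⟨⟨not_congr h2, not_congr h3, not_congr h4, not_congr h5,
      fun hh => hy (not_iff_not.mp hh)⟩, n2, n5, n3, n4, n⟩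

/-- the data of a configuration -/
structure Cfg (V : Type*) where
  t : V
  t' : V
  s : V
  s' : V
  y1 : V
  y2 : V
  y3 : V
  y4 : V
  b1 : V
  b2 : V
  b3 : V
  b4 : V
  r : Rn V
  r' : Rn V

/-- the conditions -/
structure Good (G : SimpleGraph V) (X : V → Prop) (K : Cfg V) : Prop where
  fr : Fr G X K.t K.t' K.s K.s' K.y1 K.y2 K.y3 K.y4 (K.r.fst K.t') (K.r.lst K.t)
    (K.r'.fst K.s') (K.r'.lst K.s) K.b1 K.b2 K.b3 K.b4
  rt : Rung G X K.t K.t' K.r
  rs : Rung G X K.s K.s' K.r'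

namespace Cfg

/-- exchange `s`, `s'` -/
def sw1 (K : Cfg V) : Cfg V :=
  ⟨K.t, K.t', K.s', K.s, K.y2, K.y1, K.y4, K.y3, K.b2, K.b1, K.b4, K.b3, K.r, K.r'.rev⟩

/-- exchange `t`, `t'` -/
def sw2 (K : Cfg V) : Cfg V :=
  ⟨K.t', K.t, K.s, K.s', K.y3, K.y4, K.y1, K.y2, K.b3, K.b4, K.b1, K.b2, K.r.rev, K.r'⟩

/-- exchange the rungs -/
def sw3 (K : Cfg V) : Cfg V :=
  ⟨K.s, K.s', K.t, K.t', K.y1, K.y3, K.y2, K.y4, K.b1, K.b3, K.b2, K.b4, K.r', K.r⟩

/-- the region -/
def Lam (K : Cfg V) (x : V) : Prop :=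
  R8 K.t K.t' K.s K.s' K.y1 K.y2 K.y3 K.y4 x ∨ K.r.inn x ∨ K.r'.inn x

end Cfg

variable [Fintype V]

theorem Good.sw1 {K : Cfg V} (h : Good G X K) : Good G X K.sw1 where
  fr := by
    have := h.fr.sw1
    simpa only [Cfg.sw1, Rn.fst_rev, Rn.lst_rev] using this
  rt := h.rt
  rs := h.rs.rev (h.fr.Xs'.trans h.fr.Xs.symm)

theorem Good.sw2 {K : Cfg V} (h : Good G X K) : Good G X K.sw2 where
  fr := by
    have := h.fr.sw2
    simpa only [Cfg.sw2, Rn.fst_rev, Rn.lst_rev] using this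
  rt := h.rt.rev h.fr.Xt'
  rs := h.rs

theorem Good.sw3 {K : Cfg V} (h : Good G X K) : Good G X K.sw3 where
  fr := h.fr.sw3
  rt := h.rs
  rs := h.rt

theorem Good.refl {K : Cfg V} (h : Good G X K) : Good G (fun v => ¬ X v) K where
  fr := h.fr.refl
  rt := h.rt.refl
  rs := h.rs.refl

theorem lam_sw1 (K : Cfg V) (x : V) : K.sw1.Lam x ↔ K.Lam x := by
  simp only [Cfg.Lam, Cfg.sw1, Rn.inn_rev, R8]
  tauto

theorem lam_sw2 (K : Cfg V) (x : V) : K.sw2.Lam x ↔ K.Lam x := by
  simp only [Cfg.Lam, Cfg.sw2, Rn.inn_rev, R8]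
  tauto

theorem lam_sw3 (K : Cfg V) (x : V) : K.sw3.Lam x ↔ K.Lam x := by
  simp only [Cfg.Lam, Cfg.sw3, R8]
  tauto

section

variable {t t' : V} {r : Rn V}

/-- the own neighbour of the first end is on its side -/
theorem Rung.side (hXt' : X t' ↔ X t) (h : Rung G X t t' r) : X (r.fst t') ↔ X t := by
  cases r with
  | two => exact hXt'
  | three u => exact h.1
  | six v2 v3 v4 v5 y => exact h.1.1

theorem Rung.side' (hXt' : X t' ↔ X t) (h : Rung G X t t' r) : X (r.lst t) ↔ X t := by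
  cases r with
  | two => exact Iff.rfl
  | three u => exact h.1
  | six v2 v3 v4 v5 y => exact h.1.2.2.2.1

theorem Rung.fst_M (r : Rn V) (t' : V) : r.fst t' = t' ∨ r.M (r.fst t') := by
  cases r with
  | two => exact Or.inl rfl
  | three u => exact Or.inr rfl
  | six v2 v3 v4 v5 y => exact Or.inr (Or.inl rfl)

end

variable {K : Cfg V}

/-- the own neighbour of `t` -/
theorem Good.own_t (h : Good G X K) : X (K.r.fst K.t') ↔ X K.t := h.rt.side h.fr.Xt'

theorem Good.own_s (h : Good G X K) : X (K.r'.fst K.s') ↔ X K.t :=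
  (h.rs.side (h.fr.Xs'.trans h.fr.Xs.symm)).trans h.fr.Xs

/-- what `t` sees on its side -/
theorem Good.qt (hX : NoMono G X) (h : Good G X K) {x : V} (hq : qadj G X K.t x) :
    x = K.t' ∨ x = K.s ∨ x = K.s' ∨ K.r.M x := by
  obtain ⟨hs, hne, hadj | ⟨w, hw1, hw2⟩⟩ := hq
  · rcases h.fr.nt.all x hadj with h1 | h1 | h1
    · exact absurd (by rw [h1] at hs; exact hs.symm) h.fr.Y1
    · exact absurd (by rw [h1] at hs; exact hs.symm) h.fr.Y2
    · rcases Rung.fst_M K.r K.t' with h2 | h2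
      · exact Or.inl (h1.trans h2)
      · rw [← h1] at h2
        exact Or.inr (Or.inr (Or.inr h2))
  · rcases h.fr.nt.all w hw1 with h1 | h1 | h1
    · rw [h1] at hw2
      rcases h.fr.n1.all x hw2 with h2 | h2 | h2
      · exact absurd h2.symm hne
      · exact Or.inr (Or.inl h2)
      · have h3 := h.fr.sb1 hX
        rw [← h2] at h3
        exact absurd (h3.symm.trans hs.symm) h.fr.Y1
    · rw [h1] at hw2
      rcases h.fr.n2.all x hw2 with h2 | h2 | h2
      · exact absurd h2.symm hne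
      · exact Or.inr (Or.inr (Or.inl h2))
      · have h3 := h.fr.sw1.sb1 hX
        rw [← h2] at h3
        exact absurd (h3.symm.trans hs.symm) h.fr.Y2
    · rw [h1] at hw2
      have hr := h.rt
      have hnt' := h.fr.nt'
      cases hrr : K.r with
      | two =>
        rw [hrr] at hw2 hnt'
        simp only [Rn.fst, Rn.lst] at hw2 hnt'
        rcases hnt'.all x hw2 with h2 | h2 | h2
        · rw [h2] at hs
          exact absurd hs.symm h.fr.Y3
        · rw [h2] at hs
          exact absurd hs.symm h.fr.Y4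
        · exact absurd h2.symm hne
      | three u =>
        rw [hrr] at hw2 hr
        simp only [Rn.fst, Rung] at hw2 hr
        obtain ⟨h3, z, h4⟩ := hr
        rcases h4.all x hw2 with h2 | h2 | h2
        · exact absurd h2.symm hne
        · exact Or.inl h2
        · rw [h2] at hs
          exact absurd hs.symm (h4.side hX h.fr.Xt'.symm)
      | six v2 v3 v4 v5 y =>
        rw [hrr] at hw2 hr
        simp only [Rn.fst, Rung] at hw2 hr
        rcases hr.2.1.all x hw2 with h2 | h2 | h2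
        · exact absurd h2.symm hne
        · exact Or.inr (Or.inr (Or.inr (Or.inr (Or.inl h2))))
        · rw [h2] at hs
          exact absurd hs.symm hr.1.2.2.2.2

/-- what `y1` sees on its side -/
theorem Good.qy1 (hX : NoMono G X) (h : Good G X K) {B C : V}
    (hBC : ∀ x, Cd G X K.y1 K.b1 x → Ys K.y1 K.y2 K.y3 K.y4 x ∨ x = B ∨ x = C) {x : V}
    (hq : qadj G X K.y1 x) :
    x = K.y2 ∨ x = K.y3 ∨ (x = K.y4 ∧ qadj G X K.y1 K.y4) ∨
    ((x = B ∨ x = C) ∧ x ≠ K.y1 ∧ x ≠ K.y2 ∧ x ≠ K.y3 ∧ x ≠ K.y4) := by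
  by_cases hY : Ys K.y1 K.y2 K.y3 K.y4 x
  · rcases hY with h1 | h1 | h1 | h1
    · exact absurd h1.symm hq.2.1
    · exact Or.inl h1
    · exact Or.inr (Or.inl h1)
    · exact Or.inr (Or.inr (Or.inl ⟨h1, by rw [← h1]; exact hq⟩))
  · rcases h.fr.q1 hX hq h.own_t h.own_s with h1 | h1 | h1
    · exact Or.inl h1
    · exact Or.inr (Or.inl h1)
    · rcases hBC x h1 with h2 | h2
      · exact absurd h2 hY
      · unfold Ys at hY
        rw [not_or, not_or, not_or] at hY
        exact Or.inr (Or.inr (Or.inr ⟨h2, hY⟩))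

end Pool.Agent.helper58.L9
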