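import Pool.Agent.helper58.L9.KgNear

/-!
# Closure properties of the regions
-/

set_option autoImplicit false
set_option linter.unusedSectionVars false
set_option linter.unusedVariables false

namespace Pool.Agent.helper58.L9

open Finset Classical Helper33.L9
open Helper42.L9 hiding near

variable {V : Type*} [Fintype V] {G : SimpleGraph V} {X : V → Prop} {K : Cfg V}

section cc

variable (hX : NoMono G X) (hcub : ∀ v, (univ.filter fun b => G.Adj v b).card = 3)

include hX hcub in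
theorem cc_end {v a b : V} (ha : G.Adj v a) (hb : G.Adj v b) (hab : a ≠ b)
    (h1 : ¬ (X a ↔ X v)) (h2 : ¬ (X b ↔ X v)) : cc G X v = 2 := by
  rw [cc_two hX hcub]
  have hsub : ({a, b} : Finset V) ⊆ cr G X v := by
    intro w hw
    rw [Finset.mem_insert, Finset.mem_singleton] at hw
    rcases hw with rfl | rfl
    · exact mem_cr.mpr ⟨ha, h1⟩
    · exact mem_cr.mpr ⟨hb, h2⟩
  have h3 := Finset.card_le_card hsub
  rw [Finset.card_pair hab] at h3
  have h4 := cr_bounds hX hcub v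
  omega

include hX hcub in
theorem cc_inner {v a b : V} (ha : G.Adj v a) (hb : G.Adj v b) (hab : a ≠ b)
    (h1 : X a ↔ X v) (h2 : X b ↔ X v) : cc G X v = 3 := by
  rw [cc_three hX hcub]
  have hsub : ({a, b} : Finset V) ⊆ ow G X v := by
    intro w hw
    rw [Finset.mem_insert, Finset.mem_singleton] at hw
    rcases hw with rfl | rfl
    · exact mem_ow.mpr ⟨ha, h1⟩
    · exact mem_ow.mpr ⟨hb, h2⟩
  have h3 := Finset.card_le_card hsub
  rw [Finset.card_pair hab] at h3
  have h4 := cr_bounds hX hcub v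
  have h5 := cr_ow (X := X) hcub v
  omega

end cc

/-- the closure condition at `v` -/
def Pc (G : SimpleGraph V) (X : V → Prop) (Lam : V → Prop) (v : V) : Prop :=
  (cc G X v = 2 → ∀ w, G.Adj v w → ¬ (X w ↔ X v) → Lam w) ∧
    (cc G X v = 3 → ∀ w, G.Adj v w → (X w ↔ X v) → Lam w)

/-- closed sets: with an end all its cross neighbours, with an inner vertex its own neighbours -/
def Cl (G : SimpleGraph V) (X : V → Prop) (Lam : V → Prop) : Prop :=
  ∀ v, Lam v → Pc G X Lam v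

theorem lamf_sw1 (K : Cfg V) : K.sw1.Lam = K.Lam := by
  funext x
  exact propext (lam_sw1 K x)

theorem lamf_sw2 (K : Cfg V) : K.sw2.Lam = K.Lam := by
  funext x
  exact propext (lam_sw2 K x)

theorem lamf_sw3 (K : Cfg V) : K.sw3.Lam = K.Lam := by
  funext x
  exact propext (lam_sw3 K x)

namespace Cfg

theorem lam_t (K : Cfg V) : K.Lam K.t := Or.inl (Or.inl rfl)
theorem lam_t' (K : Cfg V) : K.Lam K.t' := Or.inl (Or.inr (Or.inl rfl))
theorem lam_s (K : Cfg V) : K.Lam K.s := Or.inl (Or.inr (Or.inr (Or.inl rfl)))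
theorem lam_s' (K : Cfg V) : K.Lam K.s' := Or.inl (Or.inr (Or.inr (Or.inr (Or.inl rfl))))
theorem lam_y1 (K : Cfg V) : K.Lam K.y1 :=
  Or.inl (Or.inr (Or.inr (Or.inr (Or.inr (Or.inl rfl)))))
theorem lam_y2 (K : Cfg V) : K.Lam K.y2 :=
  Or.inl (Or.inr (Or.inr (Or.inr (Or.inr (Or.inr (Or.inl rfl))))))
theorem lam_y3 (K : Cfg V) : K.Lam K.y3 :=
  Or.inl (Or.inr (Or.inr (Or.inr (Or.inr (Or.inr (Or.inr (Or.inl rfl)))))))
theorem lam_y4 (K : Cfg V) : K.Lam K.y4 :=
  Or.inl (Or.inr (Or.inr (Or.inr (Or.inr (Or.inr (Or.inr (Or.inr rfl)))))))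

end Cfg

section closed

variable (hX : NoMono G X) (hcub : ∀ v, (univ.filter fun b => G.Adj v b).card = 3)

include hX hcub

theorem Good.cc_t (h : Good G X K) : cc G X K.t = 2 :=
  cc_end hX hcub h.fr.nt.ha h.fr.nt.hb h.fr.nt.ab h.fr.Y1 h.fr.Y2

theorem Good.cc_y1 (h : Good G X K) : cc G X K.y1 = 2 :=
  cc_end hX hcub h.fr.n1.ha h.fr.n1.hb h.fr.n1.ab (fun hh => h.fr.Y1 hh.symm)
    (fun hh => h.fr.Y1 (hh.symm.trans h.fr.Xs))

theorem Good.pc_t (h : Good G X K) : Pc G X K.Lam K.t := by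
  have h1 := h.cc_t hX hcub
  refine ⟨fun _ w hw hs => ?_, fun h2 => by omega⟩
  rcases h.fr.nt.all w hw with h3 | h3 | h3
  · rw [h3]; exact K.lam_y1
  · rw [h3]; exact K.lam_y2
  · exact absurd (by rw [h3]; exact h.own_t) hs

theorem Good.pc_y1 (h : Good G X K) : Pc G X K.Lam K.y1 := by
  have h1 := h.cc_y1 hX hcub
  refine ⟨fun _ w hw hs => ?_, fun h2 => by omega⟩
  rcases h.fr.n1.all w hw with h3 | h3 | h3
  · rw [h3]; exact K.lam_t
  · rw [h3]; exact K.lam_s
  · exact absurd (by rw [h3]; exact h.fr.sb1 hX) hs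

/-- closure at the inner part of the first rung -/
theorem Good.pc_inn (h : Good G X K) {v : V} (hv : K.r.inn v) : Pc G X K.Lam v := by
  have rt := h.rt
  have hin : ∀ x, K.r.inn x → K.Lam x := fun x hx => Or.inr (Or.inl hx)
  cases hrr : K.r with
  | two =>
    rw [hrr] at hv
    exact hv.elim
  | three u =>
    rw [hrr] at hv rt
    simp only [Rn.inn, Rung] at hv rt
    subst hv
    obtain ⟨h1, z, hz⟩ := rt
    have hc : cc G X v = 3 := cc_inner hX hcub hz.ha hz.hb hz.ab h1.symm (h.fr.Xt'.trans h1.symm)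
    refine ⟨fun h2 => by omega, fun _ w hw hs => ?_⟩
    rcases hz.all w hw with h3 | h3 | h3
    · rw [h3]; exact K.lam_t
    · rw [h3]; exact K.lam_t'
    · exact absurd (by rw [h3] at hs; exact hs.trans h1) (hz.side hX h.fr.Xt'.symm)
  | six v2 v3 v4 v5 y =>
    rw [hrr] at hv rt hin
    simp only [Rn.inn, Rung] at hv rt hin
    obtain ⟨⟨h2, h3, h4, h5, hy⟩, n2, n5, ⟨z3, n3⟩, ⟨z4, n4⟩, b, n⟩ := rt
    have p2 : K.Lam v2 := hin _ (Or.inl rfl)
    have p3 : K.Lam v3 := hin _ (Or.inr (Or.inl rfl))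
    have p4 : K.Lam v4 := hin _ (Or.inr (Or.inr (Or.inl rfl)))
    have p5 : K.Lam v5 := hin _ (Or.inr (Or.inr (Or.inr (Or.inl rfl))))
    have py : K.Lam y := hin _ (Or.inr (Or.inr (Or.inr (Or.inr rfl))))
    rcases hv with rfl | rfl | rfl | rfl | rfl
    · have hc : cc G X v = 3 := cc_inner hX hcub n2.ha n2.hb n2.ab h2.symm (h3.trans h2.symm)
      refine ⟨fun h2 => by omega, fun _ w hw hs => ?_⟩
      rcases n2.all w hw with h6 | h6 | h6
      · rw [h6]; exact K.lam_t
      · rw [h6]; exact p3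
      · exact absurd (by rw [h6] at hs; exact hs.trans h2) hy
    · have hc : cc G X v = 3 := cc_inner hX hcub n3.ha n3.hb n3.ab (h2.trans h3.symm)
        (h4.trans h3.symm)
      refine ⟨fun h2 => by omega, fun _ w hw hs => ?_⟩
      rcases n3.all w hw with h6 | h6 | h6
      · rw [h6]; exact p2
      · rw [h6]; exact p4
      · exact absurd (by rw [h6] at hs; exact (hs.trans h3).trans h2.symm)
          (n3.side hX (h2.trans h4.symm))
    · have hc : cc G X v = 3 := cc_inner hX hcub n4.ha n4.hb n4.ab (h5.trans h4.symm)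
        (h3.trans h4.symm)
      refine ⟨fun h2 => by omega, fun _ w hw hs => ?_⟩
      rcases n4.all w hw with h6 | h6 | h6
      · rw [h6]; exact p5
      · rw [h6]; exact p3
      · exact absurd (by rw [h6] at hs; exact (hs.trans h4).trans h5.symm)
          (n4.side hX (h5.trans h3.symm))
    · have hc : cc G X v = 3 := cc_inner hX hcub n5.ha n5.hb n5.ab (h.fr.Xt'.trans h5.symm)
        (h4.trans h5.symm)
      refine ⟨fun h2 => by omega, fun _ w hw hs => ?_⟩
      rcases n5.all w hw with h6 | h6 | h6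
      · rw [h6]; exact K.lam_t'
      · rw [h6]; exact p4
      · exact absurd (by rw [h6] at hs; exact hs.trans h5) hy
    · have hc : cc G X v = 2 := cc_end hX hcub n.ha n.hb n.ab
        (fun hh => hy (hh.symm.trans h2)) (fun hh => hy (hh.symm.trans h5))
      refine ⟨fun _ w hw hs => ?_, fun h2 => by omega⟩
      rcases n.all w hw with h6 | h6 | h6
      · rw [h6]; exact p2
      · rw [h6]; exact p5
      · exfalso
        apply hs
        rw [h6]
        refine iff_of_ne_iff (c := X v2) (n.side hX (h2.trans h5.symm)) (fun hh => hy (hh.trans h2))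

theorem Good.cl (h : Good G X K) : Cl G X K.Lam := by
  intro v hv
  rcases hv with (h1 | h1 | h1 | h1 | h1 | h1 | h1 | h1) | h1 | h1
  · rw [h1]; exact h.pc_t hX hcub
  · rw [h1, ← lamf_sw2]; exact h.sw2.pc_t hX hcub
  · rw [h1, ← lamf_sw3]; exact h.sw3.pc_t hX hcub
  · rw [h1, ← lamf_sw3, ← lamf_sw2]; exact h.sw3.sw2.pc_t hX hcub
  · rw [h1]; exact h.pc_y1 hX hcub
  · rw [h1, ← lamf_sw1]; exact h.sw1.pc_y1 hX hcub
  · rw [h1, ← lamf_sw2]; exact h.sw2.pc_y1 hX hcub
  · rw [h1, ← lamf_sw1, ← lamf_sw2]; exact h.sw1.sw2.pc_y1 hX hcub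
  · exact h.pc_inn hX hcub h1
  · rw [← lamf_sw3]
    exact h.sw3.pc_inn hX hcub h1

/-- a closed set which meets the first rung contains an end of it -/
theorem Good.meet_inn (h : Good G X K) {D : V → Prop} (hD : Cl G X D) {v : V} (hv : K.r.inn v)
    (hDv : D v) : D K.t ∨ D K.t' := by
  have rt := h.rt
  cases hrr : K.r with
  | two =>
    rw [hrr] at hv
    exact hv.elim
  | three u =>
    rw [hrr] at hv rt
    simp only [Rn.inn, Rung] at hv rt
    subst hv
    obtain ⟨h1, z, hz⟩ := rt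
    have hc : cc G X v = 3 := cc_inner hX hcub hz.ha hz.hb hz.ab h1.symm (h.fr.Xt'.trans h1.symm)
    exact Or.inl ((hD v hDv).2 hc K.t hz.ha h1.symm)
  | six v2 v3 v4 v5 y =>
    rw [hrr] at hv rt
    simp only [Rn.inn, Rung] at hv rt
    obtain ⟨⟨h2, h3, h4, h5, hy⟩, n2, n5, ⟨z3, n3⟩, ⟨z4, n4⟩, b, n⟩ := rt
    have c2 : cc G X v2 = 3 := cc_inner hX hcub n2.ha n2.hb n2.ab h2.symm (h3.trans h2.symm)
    have c3 : cc G X v3 = 3 := cc_inner hX hcub n3.ha n3.hb n3.ab (h2.trans h3.symm)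
      (h4.trans h3.symm)
    have c4 : cc G X v4 = 3 := cc_inner hX hcub n4.ha n4.hb n4.ab (h5.trans h4.symm)
      (h3.trans h4.symm)
    have c5 : cc G X v5 = 3 := cc_inner hX hcub n5.ha n5.hb n5.ab (h.fr.Xt'.trans h5.symm)
      (h4.trans h5.symm)
    have cy : cc G X y = 2 := cc_end hX hcub n.ha n.hb n.ab
      (fun hh => hy (hh.symm.trans h2)) (fun hh => hy (hh.symm.trans h5))
    have k2 : D v2 → D K.t := fun hh => (hD v2 hh).2 c2 K.t n2.ha h2.symm
    have k5 : D v5 → D K.t' := fun hh => (hD v5 hh).2 c5 K.t' n5.ha (h.fr.Xt'.trans h5.symm)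
    rcases hv with rfl | rfl | rfl | rfl | rfl
    · exact Or.inl (k2 hDv)
    · exact Or.inl (k2 ((hD v hDv).2 c3 v2 n3.ha (h2.trans h3.symm)))
    · exact Or.inr (k5 ((hD v hDv).2 c4 v5 n4.ha (h5.trans h4.symm)))
    · exact Or.inr (k5 hDv)
    · exact Or.inl (k2 ((hD v hDv).1 cy v2 n.ha (fun hh => hy (hh.symm.trans h2))))

/-- a closed set which meets the region contains one of the four ends -/
theorem Good.meet (h : Good G X K) {D : V → Prop} (hD : Cl G X D) {v : V} (hv : K.Lam v)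
    (hDv : D v) : D K.t ∨ D K.t' ∨ D K.s ∨ D K.s' := by
  have ky1 : ∀ {K : Cfg V}, Good G X K → D K.y1 → D K.t := by
    intro K h hh
    exact (hD _ hh).1 (h.cc_y1 hX hcub) K.t h.fr.n1.ha (fun hh => h.fr.Y1 hh.symm)
  rcases hv with (h1 | h1 | h1 | h1 | h1 | h1 | h1 | h1) | h1 | h1
  · rw [h1] at hDv; exact Or.inl hDv
  · rw [h1] at hDv; exact Or.inr (Or.inl hDv)
  · rw [h1] at hDv; exact Or.inr (Or.inr (Or.inl hDv))
  · rw [h1] at hDv; exact Or.inr (Or.inr (Or.inr hDv))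
  · rw [h1] at hDv; exact Or.inl (ky1 h hDv)
  · rw [h1] at hDv; exact Or.inl (ky1 (K := K.sw1) h.sw1 hDv)
  · rw [h1] at hDv; exact Or.inr (Or.inl (ky1 (K := K.sw2) h.sw2 hDv))
  · rw [h1] at hDv; exact Or.inr (Or.inl (ky1 (K := K.sw1.sw2) h.sw1.sw2 hDv))
  · rcases h.meet_inn hX hcub hD h1 hDv with h2 | h2
    · exact Or.inl h2
    · exact Or.inr (Or.inl h2)
  · rcases h.sw3.meet_inn hX hcub hD h1 hDv with h2 | h2
    · exact Or.inr (Or.inr (Or.inl h2))
    · exact Or.inr (Or.inr (Or.inr h2))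

end closed

end Pool.Agent.helper58.L9
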