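import Pool.Agent.helper58.L9.KgExtract

/-!
# The configuration found in a stuck set
-/

set_option autoImplicit false
set_option linter.unusedSectionVars false
set_option linter.unusedVariables false

namespace Pool.Agent.helper58.L9

open Finset Classical Helper33.L9
open Helper42.L9 hiding near

variable {V : Type*} [Fintype V] {G : SimpleGraph V} {X : V → Prop}

section

variable (hX : NoMono G X) (hcub : ∀ v, (univ.filter fun b => G.Adj v b).card = 3)
  (hst : ∀ v, StarAt G X v)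

include hX hcub hst in
/-- own neighbours of an inner vertex of a stuck set are in it -/
theorem stuck_own {Z S : Finset V} (hS : StuckZ G X Z S) {v w : V} (hv : v ∈ S)
    (hc : cc G X v = 3) (hw : ownR G X v w) : w ∈ S := by
  have h1 := (cc_three hX hcub).mp hc
  have hcore : CoreAt G X S v := by
    unfold CoreAt
    have h2 := hS.2 v hv
    have h3 := crW_card_le (G := G) (X := X) (W := Z) v
    omega
  exact (core_I hX (fun v => (hcub v).le) hcore (hst v) h1).2.1 w (mem_ow_iff.mpr hw)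

include hX hcub in
theorem way_of_qadj {Z S : Finset V} (hI : InvZ G X Z) {a b : V} (ha : a ∈ Z) (hb : b ∈ Z)
    (h : qadj G X a b) : RW G X (fun x => x ∈ Z) a b ∨ CW G X a b := by
  obtain ⟨h1, h2, h3 | ⟨w, h3, h4⟩⟩ := h
  · exact Or.inl ⟨h1.symm, h2, Rn.two, h3, fun x hx => hx.elim⟩
  · by_cases hw : X w ↔ X a
    · obtain ⟨z, hz⟩ := nb_third hcub h3.symm h4 h2
      refine Or.inl ⟨h1.symm, h2, Rn.three w, ⟨hw, z, hz⟩, ?_⟩
      intro x hx
      simp only [Rn.M] at hx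
      subst hx
      by_contra hxZ
      exact h2 (hI.own1 x hxZ a b ⟨h3.symm, hw⟩ ⟨h4, hw.trans h1⟩ ha hb)
    · exact Or.inr ⟨h1.symm, h2, w, h3, h4.symm, hw⟩

include hX hcub hst in
theorem way_of_VR {Z S : Finset V} (hS : StuckZ G X Z S) {a b : V} (ha : cc G X a = 2)
    (hb : cc G X b = 2) (h : VR (ownR G X) (cc G X) (QE G X S).val a b) :
    RW G X (fun x => x ∈ Z) a b ∧ a ∈ S ∧ b ∈ S := by
  have hdeg : ∀ v, (univ.filter fun b => G.Adj v b).card ≤ 3 := fun v => (hcub v).le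
  obtain ⟨u, v, t, t', cu, cv, ct, ct', o1, o2, o3, o4, o5, hut, hvt', hP⟩ := h
  obtain ⟨s, v1, v', y, k1, k2, k3, k4, k5, k6, k7, k8, k9, k10, k11, k12, k13, k14, k15, k16,
    k17, k18, k19, k20⟩ := port_graph hX hcub hP
  have hau : ownR G X u a := ⟨o1.1.symm, o1.2.symm⟩
  have hsa : s = a := by
    rcases own_two hX k1 k3 hau with h | h | h
    · exact absurd h k5
    · exact h
    · rw [h, ha] at k4
      exact absurd k4 (by decide)
  have haS : a ∈ S := hsa ▸ k20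
  have hbS : b ∈ S := stuck_own hX hcub hst hS k17 ct' o5
  have sXa : X u ↔ X a := o1.2.symm
  have sv : X v ↔ X a := o2.2.symm.trans sXa
  have stt : X t ↔ X a := o3.2.symm.trans sv
  have st' : X t' ↔ X a := o4.2.symm.trans stt
  have sb : X b ↔ X a := o5.2.symm.trans st'
  have sy : ¬ (X y ↔ X a) := fun hh => k11 (hh.trans sXa.symm)
  have ny : ∀ o, (X o ↔ X a) → o ≠ y := by
    rintro o h rfl
    exact sy h
  have nav : a ≠ v := by
    rintro rfl
    rw [ha] at cv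
    exact absurd cv (by decide)
  have nbt : b ≠ t := by
    rintro rfl
    rw [hb] at ct
    exact absurd ct (by decide)
  have nab : a ≠ b := by
    -- otherwise `u`, `t'` are own neighbours of the end `a`
    rintro rfl
    exact k13 (own_one hX hcub ha ⟨o5.1.symm, o5.2.symm⟩ ⟨o1.1, o1.2⟩)
  obtain ⟨z3, n3⟩ := nb_third hcub o2.1.symm o3.1 hut
  obtain ⟨z4, n4⟩ := nb_third hcub o4.1 o3.1.symm hvt'.symm
  obtain ⟨c, n⟩ := nb_third hcub k9.symm k10 k13.symm
  refine ⟨⟨sb, nab, Rn.six u v t t' y, ⟨⟨sXa, sv, stt, st', sy⟩, ?_, ?_, ⟨z3, n3⟩,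
    ⟨z4, n4⟩, c, n⟩, ?_⟩, haS, hbS⟩
  · exact nb_of hdeg o1.1.symm o2.1 k9 nav (ny _ Iff.rfl) (ny _ sv)
  · exact nb_of hdeg o5.1 o4.1.symm k10.symm nbt (ny _ sb) (ny _ stt)
  · have huS : u ∈ S := k16
    have hvS : v ∈ S := stuck_own hX hcub hst hS huS cu o2
    have htS : t ∈ S := stuck_own hX hcub hst hS hvS cv o3
    rintro x (rfl | rfl | rfl | rfl)
    · exact hS.1 huS
    · exact hS.1 hvS
    · exact hS.1 htS
    · exact hS.1 k17

include hX hcub hst in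
theorem way_of_Rg {Z S : Finset V} (hI : InvZ G X Z) (hS : StuckZ G X Z S) {a b : V} (ha : cc G X a = 2)
    (hb : cc G X b = 2) (h : Rg (ownR G X) (cc G X) (QE G X S).val a b) :
    (RW G X (fun x => x ∈ Z) a b ∨ CW G X a b) ∧ a ∈ S ∧ b ∈ S := by
  rcases h with h | h | h
  · have h1 := mem_QE.mp h
    exact ⟨way_of_qadj hX hcub (S := S) hI (hS.1 h1.1) (hS.1 h1.2.1) h1.2.2, h1.1, h1.2.1⟩
  · obtain ⟨h1, h2, h3⟩ := way_of_VR hX hcub hst hS ha hb h
    exact ⟨Or.inl h1, h2, h3⟩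
  · obtain ⟨h1, h2, h3⟩ := way_of_VR hX hcub hst hS hb ha h
    exact ⟨Or.inl h1.symm, h3, h2⟩

include hX hcub hst in
/-- **The configuration.** -/
theorem find_k4 {Z S : Finset V} (hI : InvZ G X Z) (hS : StuckZ G X Z S) {a b d e : V} (ha : cc G X a = 2)
    (hb : cc G X b = 2) (hd : cc G X d = 2) (he : cc G X e = 2) (hn : [a, b, d, e].Nodup)
    (h1 : Rg (ownR G X) (cc G X) (QE G X S).val a b)
    (h2 : Rg (ownR G X) (cc G X) (QE G X S).val a d)
    (h3 : Rg (ownR G X) (cc G X) (QE G X S).val a e)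
    (h4 : Rg (ownR G X) (cc G X) (QE G X S).val b d)
    (h5 : Rg (ownR G X) (cc G X) (QE G X S).val b e)
    (h6 : Rg (ownR G X) (cc G X) (QE G X S).val d e) :
    ∃ K : Cfg V, Good G X K ∧ (K.t ∈ S ∧ K.t' ∈ S ∧ K.s ∈ S ∧ K.s' ∈ S) ∧
      (∀ x, K.r.M x → x ∈ Z) ∧ ∀ x, K.r'.M x → x ∈ Z := by
  simp only [List.nodup_cons, List.mem_cons, List.not_mem_nil, or_false, not_or,
    List.nodup_nil, and_true, not_false_eq_true] at hn
  obtain ⟨⟨n1, n2, n3⟩, ⟨n4, n5⟩, n6⟩ := hn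
  obtain ⟨w1, sa, sb⟩ := way_of_Rg hX hcub hst hI hS ha hb h1
  obtain ⟨w2, _, sd⟩ := way_of_Rg hX hcub hst hI hS ha hd h2
  obtain ⟨w3, _, se⟩ := way_of_Rg hX hcub hst hI hS ha he h3
  obtain ⟨w4, _, _⟩ := way_of_Rg hX hcub hst hI hS hb hd h4
  obtain ⟨w5, _, _⟩ := way_of_Rg hX hcub hst hI hS hb he h5
  obtain ⟨w6, _, _⟩ := way_of_Rg hX hcub hst hI hS hd he h6
  obtain ⟨K, hK, e1, e2, e3, e4, p1, p2⟩ := good_of_k4 hX hcub ha hb hd he n1 n2 n3 n4 n5 n6 w1
    w2 w3 w4 w5 w6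
  have key : ∀ x, (x = a ∨ x = b ∨ x = d ∨ x = e) → x ∈ S := by
    rintro x (rfl | rfl | rfl | rfl) <;> assumption
  exact ⟨K, hK, ⟨key _ e1, key _ e2, key _ e3, key _ e4⟩, p1, p2⟩

variable {K : Cfg V}

/-- `y1` is in `Z` -/
theorem Good.y1_mem {Z : Finset V} (hX : NoMono G X)
    (hcub : ∀ v, (univ.filter fun b => G.Adj v b).card = 3) (hK : Good G X K)
    (hI : InvZ G X Z) (ht : K.t ∈ Z) (hs : K.s ∈ Z) : K.y1 ∈ Z := by
  by_contra hy
  obtain ⟨x, x1, x2, x3⟩ := hI.crs _ hy (hK.cc_y1 hX hcub)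
  rcases hK.fr.n1.all x x1 with h | h | h
  · exact x3 (h ▸ ht)
  · exact x3 (h ▸ hs)
  · exact x2 (by rw [h]; exact hK.fr.sb1 hX)

theorem Good.inn_mem {Z : Finset V} (hX : NoMono G X)
    (hcub : ∀ v, (univ.filter fun b => G.Adj v b).card = 3) (hK : Good G X K)
    (hI : InvZ G X Z) (hM : ∀ x, K.r.M x → x ∈ Z) : ∀ x, K.r.inn x → x ∈ Z := by
  intro x hx
  have rt := hK.rt
  cases hr : K.r with
  | two =>
    rw [hr] at hx
    exact hx.elim
  | three u =>
    rw [hr] at hx hM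
    exact hM x hx
  | six v2 v3 v4 v5 y =>
    rw [hr] at hx hM rt
    simp only [Rn.inn, Rn.M, Rung] at hx hM rt
    obtain ⟨⟨h2, h3, h4, h5, hy⟩, n2, n5, ⟨z3, n3⟩, ⟨z4, n4⟩, c, n⟩ := rt
    rcases hx with hx | hx | hx | hx | hx
    · exact hM x (Or.inl hx)
    · exact hM x (Or.inr (Or.inl hx))
    · exact hM x (Or.inr (Or.inr (Or.inl hx)))
    · exact hM x (Or.inr (Or.inr (Or.inr hx)))
    · rw [hx]
      by_contra hyZ
      have cy : cc G X y = 2 := cc_end hX hcub n.ha n.hb n.ab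
        (fun hh => hy (hh.symm.trans h2)) (fun hh => hy (hh.symm.trans h5))
      obtain ⟨w, w1, w2, w3⟩ := hI.crs _ hyZ cy
      rcases n.all w w1 with h | h | h
      · exact w3 (by rw [h]; exact hM _ (Or.inl rfl))
      · exact w3 (by rw [h]; exact hM _ (Or.inr (Or.inr (Or.inr rfl))))
      · apply w2
        rw [h]
        exact iff_of_ne_iff (c := X v2) (n.side hX (h2.trans h5.symm)) (fun hh => hy (hh.trans h2))

/-- all vertices of the region are in `Z` -/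
theorem Good.lam_sub {Z : Finset V} (hX : NoMono G X)
    (hcub : ∀ v, (univ.filter fun b => G.Adj v b).card = 3) (hK : Good G X K)
    (hI : InvZ G X Z) (ht : K.t ∈ Z) (ht' : K.t' ∈ Z) (hs : K.s ∈ Z) (hs' : K.s' ∈ Z)
    (hM : ∀ x, K.r.M x → x ∈ Z) (hM' : ∀ x, K.r'.M x → x ∈ Z) : ∀ v, K.Lam v → v ∈ Z := by
  rintro v ((h | h | h | h | h | h | h | h) | h | h)
  · rw [h]; exact ht
  · rw [h]; exact ht'
  · rw [h]; exact hs
  · rw [h]; exact hs'
  · rw [h]; exact hK.y1_mem hX hcub hI ht hs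
  · rw [h]; exact hK.sw1.y1_mem hX hcub hI ht hs'
  · rw [h]; exact hK.sw2.y1_mem hX hcub hI ht' hs
  · rw [h]; exact hK.sw1.sw2.y1_mem hX hcub hI ht' hs'
  · exact hK.inn_mem hX hcub hI hM v h
  · exact hK.sw3.inn_mem hX hcub hI hM' v h

end

end Pool.Agent.helper58.L9
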