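import Pool.Agent.helper58.L9.P6Ext
import Pool.Agent.helper33.L9.Stack

/-!
# The K4 obstacle in the graph

`Nb G v a b c`: the neighbours of `v` are `a, b, c`.  `Fr`: four ends `t, t', s, s'` on one side,
joined crosswise through `y1, ..., y4`; `o, o', p, p'` are the own neighbours of the ends, `b1`,
..., `b4` those of the `y`.
-/

set_option autoImplicit false
set_option linter.unusedSectionVars false
set_option linter.unusedVariables false

namespace Pool.Agent.helper58.L9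

open Finset Classical Helper33.L9
open Helper42.L9 hiding near

variable {V : Type*} {G : SimpleGraph V} {X : V → Prop}

theorem iff_of_ne_iff {a b c : Prop} (h1 : ¬ (a ↔ c)) (h2 : ¬ (b ↔ c)) : a ↔ b := by
  tauto

/-- the neighbours of `v` -/
structure Nb (G : SimpleGraph V) (v a b c : V) : Prop where
  ab : a ≠ b
  ac : a ≠ c
  bc : b ≠ c
  ha : G.Adj v a
  hb : G.Adj v b
  hc : G.Adj v c
  all : ∀ x, G.Adj v x → x = a ∨ x = b ∨ x = c

theorem Nb.swap {v a b c : V} (h : Nb G v a b c) : Nb G v b a c :=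
  ⟨h.ab.symm, h.bc, h.ac, h.hb, h.ha, h.hc, fun x hx => by
    rcases h.all x hx with h1 | h1 | h1
    · exact Or.inr (Or.inl h1)
    · exact Or.inl h1
    · exact Or.inr (Or.inr h1)⟩

theorem Nb.rot {v a b c : V} (h : Nb G v a b c) : Nb G v b c a :=
  ⟨h.bc, h.ab.symm, h.ac.symm, h.hb, h.hc, h.ha, fun x hx => by
    rcases h.all x hx with h1 | h1 | h1
    · exact Or.inr (Or.inr h1)
    · exact Or.inl h1
    · exact Or.inr (Or.inl h1)⟩

variable [Fintype V]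

theorem nb_of (hdeg : ∀ v, (univ.filter fun b => G.Adj v b).card ≤ 3) {v a b c : V}
    (ha : G.Adj v a) (hb : G.Adj v b) (hc : G.Adj v c) (hab : a ≠ b) (hac : a ≠ c)
    (hbc : b ≠ c) : Nb G v a b c := by
  refine ⟨hab, hac, hbc, ha, hb, hc, fun x hx => ?_⟩
  by_contra hcon
  rw [not_or, not_or] at hcon
  exact no_four hdeg ha hb hc hx hab hac (Ne.symm hcon.1) hbc (Ne.symm hcon.2.1)
    (Ne.symm hcon.2.2)

theorem nb_third (hcub : ∀ v, (univ.filter fun b => G.Adj v b).card = 3) {v a b : V}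
    (ha : G.Adj v a) (hb : G.Adj v b) (hab : a ≠ b) : ∃ c, Nb G v a b c := by
  have h1 : ({a, b} : Finset V) ⊆ univ.filter fun b => G.Adj v b := by
    intro x hx
    rw [Finset.mem_insert, Finset.mem_singleton] at hx
    rw [Finset.mem_filter]
    rcases hx with rfl | rfl
    · exact ⟨Finset.mem_univ _, ha⟩
    · exact ⟨Finset.mem_univ _, hb⟩
  have h2 : ¬ (univ.filter fun b => G.Adj v b) ⊆ ({a, b} : Finset V) := by
    intro h
    have h3 := Finset.card_le_card h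
    rw [hcub v, Finset.card_pair hab] at h3
    omega
  rw [Finset.not_subset] at h2
  obtain ⟨c, hc, hc'⟩ := h2
  rw [Finset.mem_filter] at hc
  rw [Finset.mem_insert, Finset.mem_singleton, not_or] at hc'
  exact ⟨c, nb_of (fun v => (hcub v).le) ha hb hc.2 hab (Ne.symm hc'.1) (Ne.symm hc'.2)⟩

omit [Fintype V] in
/-- the third neighbour of `v` is not on the side of the two others -/
theorem Nb.side (hX : NoMono G X) {v a b c : V} (h : Nb G v a b c) (h1 : X a ↔ X b) :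
    ¬ (X c ↔ X a) := fun h2 =>
  hX v a b c h.ha h.hb h.hc h.ab h.ac h.bc ⟨h1, h2.symm⟩

/-- the frame -/
structure Fr (G : SimpleGraph V) (X : V → Prop) (t t' s s' y1 y2 y3 y4 o o' p p'
    b1 b2 b3 b4 : V) : Prop where
  nt : Nb G t y1 y2 o
  nt' : Nb G t' y3 y4 o'
  ns : Nb G s y1 y3 p
  ns' : Nb G s' y2 y4 p'
  n1 : Nb G y1 t s b1
  n2 : Nb G y2 t s' b2
  n3 : Nb G y3 t' s b3
  n4 : Nb G y4 t' s' b4
  tt : t ≠ t'
  ss : s ≠ s'
  y14 : y1 ≠ y4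
  y23 : y2 ≠ y3
  Xt' : X t' ↔ X t
  Xs : X s ↔ X t
  Xs' : X s' ↔ X t
  Y1 : ¬ (X y1 ↔ X t)
  Y2 : ¬ (X y2 ↔ X t)
  Y3 : ¬ (X y3 ↔ X t)
  Y4 : ¬ (X y4 ↔ X t)

section Fr

variable {t t' s s' y1 y2 y3 y4 o o' p p' b1 b2 b3 b4 : V}

omit [Fintype V] in
theorem Fr.ts (h : Fr G X t t' s s' y1 y2 y3 y4 o o' p p' b1 b2 b3 b4) : t ≠ s := h.n1.ab

/-- exchange `s`, `s'` -/
theorem Fr.sw1 (h : Fr G X t t' s s' y1 y2 y3 y4 o o' p p' b1 b2 b3 b4) :
    Fr G X t t' s' s y2 y1 y4 y3 o o' p' p b2 b1 b4 b3 where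
  nt := h.nt.swap
  nt' := h.nt'.swap
  ns := h.ns'
  ns' := h.ns
  n1 := h.n2
  n2 := h.n1
  n3 := h.n4
  n4 := h.n3
  tt := h.tt
  ss := h.ss.symm
  y14 := h.y23
  y23 := h.y14
  Xt' := h.Xt'
  Xs := h.Xs'
  Xs' := h.Xs
  Y1 := h.Y2
  Y2 := h.Y1
  Y3 := h.Y4
  Y4 := h.Y3

/-- exchange `t`, `t'` -/
theorem Fr.sw2 (h : Fr G X t t' s s' y1 y2 y3 y4 o o' p p' b1 b2 b3 b4) :
    Fr G X t' t s s' y3 y4 y1 y2 o' o p p' b3 b4 b1 b2 where
  nt := h.nt'
  nt' := h.nt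
  ns := h.ns.swap
  ns' := h.ns'.swap
  n1 := h.n3
  n2 := h.n4
  n3 := h.n1
  n4 := h.n2
  tt := h.tt.symm
  ss := h.ss
  y14 := h.y23.symm
  y23 := h.y14.symm
  Xt' := h.Xt'.symm
  Xs := h.Xs.trans h.Xt'.symm
  Xs' := h.Xs'.trans h.Xt'.symm
  Y1 := fun hh => h.Y3 (hh.trans h.Xt')
  Y2 := fun hh => h.Y4 (hh.trans h.Xt')
  Y3 := fun hh => h.Y1 (hh.trans h.Xt')
  Y4 := fun hh => h.Y2 (hh.trans h.Xt')

/-- exchange the rungs -/
theorem Fr.sw3 (h : Fr G X t t' s s' y1 y2 y3 y4 o o' p p' b1 b2 b3 b4) :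
    Fr G X s s' t t' y1 y3 y2 y4 p p' o o' b1 b3 b2 b4 where
  nt := h.ns
  nt' := h.ns'
  ns := h.nt
  ns' := h.nt'
  n1 := h.n1.swap
  n2 := h.n3.swap
  n3 := h.n2.swap
  n4 := h.n4.swap
  tt := h.ss
  ss := h.tt
  y14 := h.y14
  y23 := h.y23.symm
  Xt' := h.Xs'.trans h.Xs.symm
  Xs := h.Xs.symm
  Xs' := h.Xt'.trans h.Xs.symm
  Y1 := fun hh => h.Y1 (hh.trans h.Xs)
  Y2 := fun hh => h.Y3 (hh.trans h.Xs)
  Y3 := fun hh => h.Y2 (hh.trans h.Xs)
  Y4 := fun hh => h.Y4 (hh.trans h.Xs)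

/-- the other side -/
theorem Fr.refl (h : Fr G X t t' s s' y1 y2 y3 y4 o o' p p' b1 b2 b3 b4) :
    Fr G (fun v => ¬ X v) t t' s s' y1 y2 y3 y4 o o' p p' b1 b2 b3 b4 where
  nt := h.nt
  nt' := h.nt'
  ns := h.ns
  ns' := h.ns'
  n1 := h.n1
  n2 := h.n2
  n3 := h.n3
  n4 := h.n4
  tt := h.tt
  ss := h.ss
  y14 := h.y14
  y23 := h.y23
  Xt' := not_congr h.Xt'
  Xs := not_congr h.Xs
  Xs' := not_congr h.Xs'
  Y1 := fun hh => h.Y1 (not_iff_not.mp hh)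
  Y2 := fun hh => h.Y2 (not_iff_not.mp hh)
  Y3 := fun hh => h.Y3 (not_iff_not.mp hh)
  Y4 := fun hh => h.Y4 (not_iff_not.mp hh)

/-- the `y`'s -/
def Ys (y1 y2 y3 y4 x : V) : Prop := x = y1 ∨ x = y2 ∨ x = y3 ∨ x = y4

/-- a candidate: `Q`-neighbour of `y` which is `b` or behind `b` -/
def Cd (G : SimpleGraph V) (X : V → Prop) (y b x : V) : Prop :=
  x = b ∨ (G.Adj b x ∧ (X x ↔ X b) ∧ x ≠ y)

theorem Cd.side {y b x : V} (hb : X b ↔ X y) (h : Cd G X y b x) : X x ↔ X y := by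
  rcases h with rfl | h
  · exact hb
  · exact h.2.1.trans hb

/-- the `Q`-neighbours of `y1` -/
theorem Fr.q1 (hX : NoMono G X) (h : Fr G X t t' s s' y1 y2 y3 y4 o o' p p' b1 b2 b3 b4)
    {x : V} (hq : qadj G X y1 x) (ho : X o ↔ X t) (hp : X p ↔ X t) :
    x = y2 ∨ x = y3 ∨ Cd G X y1 b1 x := by
  obtain ⟨hs, hne, hadj | ⟨w, hw1, hw2⟩⟩ := hq
  · rcases h.n1.all x hadj with rfl | rfl | rfl
    · exact absurd hs h.Y1
    · exact absurd (hs.trans h.Xs) h.Y1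
    · exact Or.inr (Or.inr (Or.inl rfl))
  · rcases h.n1.all w hw1 with rfl | rfl | rfl
    · rcases h.nt.all x hw2 with rfl | rfl | rfl
      · exact absurd rfl hne
      · exact Or.inl rfl
      · exact absurd (hs.trans ho) h.Y1
    · rcases h.ns.all x hw2 with rfl | rfl | rfl
      · exact absurd rfl hne
      · exact Or.inr (Or.inl rfl)
      · exact absurd (hs.trans hp) h.Y1
    · exact Or.inr (Or.inr (Or.inr ⟨hw2, hs.symm.trans
        (iff_of_ne_iff h.Y1 (h.n1.side hX h.Xs.symm)), hne.symm⟩))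

/-- own neighbours of the `y`'s are on their side -/
theorem Fr.sb1 (hX : NoMono G X) (h : Fr G X t t' s s' y1 y2 y3 y4 o o' p p' b1 b2 b3 b4) :
    X b1 ↔ X y1 := iff_of_ne_iff (h.n1.side hX h.Xs.symm) h.Y1

theorem Fr.sb4 (hX : NoMono G X) (h : Fr G X t t' s s' y1 y2 y3 y4 o o' p p' b1 b2 b3 b4) :
    X b4 ↔ X y4 :=
  iff_of_ne_iff (h.n4.side hX (h.Xt'.trans h.Xs'.symm)) (fun hh => h.Y4 (hh.trans h.Xt'))

/-- information on a pair `B ≠ C` -/
def BI (G : SimpleGraph V) (X : V → Prop) (Y : V → Prop) (y b B C : V) : Prop :=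
  B = b ∧ ¬ Y b ∧ G.Adj b C ∧ (X C ↔ X b) ∧ C ≠ y ∧ ¬ Y C

/-- reduction of the candidates of one vertex -/
theorem oneBC (hX : NoMono G X) {y b : V} {Y : V → Prop} (hb : X b ↔ X y) (hyb : G.Adj y b)
    (hY : Y y) :
    ∃ B C : V, (X B ↔ X y) ∧ (X C ↔ X y) ∧ (∀ x, Cd G X y b x → Y x ∨ x = B ∨ x = C) ∧
      (B ≠ C → BI G X Y y b B C) := by
  have huniq : ∀ c x, G.Adj b c → (X c ↔ X b) → c ≠ y → G.Adj b x → (X x ↔ X b) → x ≠ y →
      x = c := by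
    intro c x h1 h2 h3 h4 h5 h6
    by_contra hne
    exact hX b y c x hyb.symm h1 h4 h3.symm h6.symm (Ne.symm hne)
      ⟨hb.symm.trans h2.symm, hb.symm.trans h5.symm⟩
  by_cases hc : ∃ c, G.Adj b c ∧ (X c ↔ X b) ∧ c ≠ y
  · obtain ⟨c, c1, c2, c3⟩ := hc
    by_cases hYb : Y b
    · refine ⟨c, c, c2.trans hb, c2.trans hb, ?_, fun h => absurd rfl h⟩
      rintro x (rfl | ⟨h1, h2, h3⟩)
      · exact Or.inl hYb
      · exact Or.inr (Or.inl (huniq c x c1 c2 c3 h1 h2 h3))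
    · by_cases hYc : Y c
      · refine ⟨b, b, hb, hb, ?_, fun h => absurd rfl h⟩
        rintro x (rfl | ⟨h1, h2, h3⟩)
        · exact Or.inr (Or.inl rfl)
        · left
          rw [huniq c x c1 c2 c3 h1 h2 h3]
          exact hYc
      · refine ⟨b, c, hb, c2.trans hb, ?_, fun _ => ⟨rfl, hYb, c1, c2, c3, hYc⟩⟩
        rintro x (rfl | ⟨h1, h2, h3⟩)
        · exact Or.inr (Or.inl rfl)
        · exact Or.inr (Or.inr (huniq c x c1 c2 c3 h1 h2 h3))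
  · push Not at hc
    refine ⟨b, b, hb, hb, ?_, fun h => absurd rfl h⟩
    rintro x (rfl | ⟨h1, h2, h3⟩)
    · exact Or.inr (Or.inl rfl)
    · exact absurd (hc x h1 h2) h3

/-- the pair `y1`, `y4` -/
theorem Fr.pair14 (hX : NoMono G X) (h : Fr G X t t' s s' y1 y2 y3 y4 o o' p p' b1 b2 b3 b4)
    (ho : X o ↔ X t) (hp : X p ↔ X t) :
    ∃ B1 C1 B4 C4 : V, ((X B1 ↔ X y1) ∧ (X C1 ↔ X y1) ∧ (X B4 ↔ X y4) ∧ (X C4 ↔ X y4)) ∧
      (∀ x, Cd G X y1 b1 x → Ys y1 y2 y3 y4 x ∨ x = B1 ∨ x = C1) ∧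
      (∀ x, Cd G X y4 b4 x → Ys y1 y2 y3 y4 x ∨ x = B4 ∨ x = C4) ∧
      (qadj G X y1 y4 → B1 = C1 ∧ B4 = C4 ∧ B1 = B4) ∧
      (B1 ≠ C1 → BI G X (Ys y1 y2 y3 y4) y1 b1 B1 C1) ∧
      (B4 ≠ C4 → BI G X (Ys y1 y2 y3 y4) y4 b4 B4 C4) := by
  have hb1 := h.sb1 hX
  have hb4 := h.sb4 hX
  have hYt' : ¬ (X y1 ↔ X t') := fun hh => h.Y1 (hh.trans h.Xt')
  have hYs' : ¬ (X y1 ↔ X s') := fun hh => h.Y1 (hh.trans h.Xs')
  have hY4t' : ¬ (X y4 ↔ X t') := fun hh => h.Y4 (hh.trans h.Xt')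
  have hY4s' : ¬ (X y4 ↔ X s') := fun hh => h.Y4 (hh.trans h.Xs')
  have h14 : X y4 ↔ X y1 := iff_of_ne_iff h.Y4 h.Y1
  by_cases hq : qadj G X y1 y4
  · rcases h.q1 hX hq ho hp with h1 | h1 | h1 | ⟨h1, h2, h3⟩
    · exact absurd h1.symm h.ns'.ab
    · exact absurd h1.symm h.nt'.ab
    · -- adjacent
      have e : b4 = y1 := by
        have hadj : G.Adj y4 y1 := by
          rw [h1]
          exact h.n1.hc.symm
        rcases h.n4.all y1 hadj with h2 | h2 | h2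
        · exact absurd (by rw [h2]) hYt'
        · exact absurd (by rw [h2]) hYs'
        · exact h2.symm
      refine ⟨y1, y1, y1, y1, ⟨Iff.rfl, Iff.rfl, h14.symm, h14.symm⟩, ?_, ?_,
        fun _ => ⟨rfl, rfl, rfl⟩, fun hh => absurd rfl hh, fun hh => absurd rfl hh⟩
      · rintro x (rfl | ⟨h2, h3, h4⟩)
        · exact Or.inl (Or.inr (Or.inr (Or.inr h1.symm)))
        · exfalso
          rw [← h1] at h2 h3
          rcases h.n4.all x h2 with rfl | rfl | rfl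
          · exact hY4t' h3.symm
          · exact hY4s' h3.symm
          · exact h4 e
      · rintro x (rfl | ⟨h2, h3, h4⟩)
        · exact Or.inr (Or.inl e)
        · exfalso
          rw [e] at h2 h3
          rcases h.n1.all x h2 with rfl | rfl | rfl
          · exact h.Y1 h3.symm
          · exact h.Y1 (h3.symm.trans h.Xs)
          · exact h4 h1.symm
    · -- a common neighbour
      have e : b4 = b1 := by
        rcases h.n4.all b1 h1.symm with h4 | h4 | h4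
        · exact absurd (hb1.symm.trans (by rw [h4])) hYt'
        · exact absurd (hb1.symm.trans (by rw [h4])) hYs'
        · exact h4.symm
      have huniq : ∀ x, G.Adj b1 x → (X x ↔ X b1) → x = y1 ∨ x = y4 := by
        intro x h4 h5
        by_contra hcon
        rw [not_or] at hcon
        exact hX b1 y1 y4 x h.n1.hc.symm h1 h4 h.y14 (Ne.symm hcon.1) (Ne.symm hcon.2)
          ⟨h14.symm, hb1.symm.trans h5.symm⟩
      refine ⟨b1, b1, b1, b1, ⟨hb1, hb1, hb1.trans h14.symm, hb1.trans h14.symm⟩, ?_, ?_,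
        fun _ => ⟨rfl, rfl, rfl⟩, fun hh => absurd rfl hh, fun hh => absurd rfl hh⟩
      · rintro x (rfl | ⟨h4, h5, h6⟩)
        · exact Or.inr (Or.inl rfl)
        · rcases huniq x h4 h5 with h7 | h7
          · exact absurd h7 h6
          · exact Or.inl (Or.inr (Or.inr (Or.inr h7)))
      · rintro x (h7 | ⟨h4, h5, h6⟩)
        · exact Or.inr (Or.inl (h7.trans e))
        · rw [e] at h4 h5
          rcases huniq x h4 h5 with h7 | h7
          · exact Or.inl (Or.inl h7)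
          · exact absurd h7 h6
  · obtain ⟨B1, C1, k1, k2, k3, k4⟩ := oneBC (Y := Ys y1 y2 y3 y4) hX hb1 h.n1.hc (Or.inl rfl)
    obtain ⟨B4, C4, l1, l2, l3, l4⟩ := oneBC (Y := Ys y1 y2 y3 y4) hX hb4 h.n4.hc
      (Or.inr (Or.inr (Or.inr rfl)))
    exact ⟨B1, C1, B4, C4, ⟨k1, k2, l1, l2⟩, k3, l3, fun hh => absurd hh hq, k4, l4⟩

end Fr

end Pool.Agent.helper58.L9
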