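import Pool.Agent.helper58.L9.KgReg

/-!
# What the ends and the middles see
-/

set_option autoImplicit false
set_option linter.unusedSectionVars false
set_option linter.unusedVariables false

namespace Pool.Agent.helper58.L9

open Finset Classical Helper33.L9
open Helper42.L9 hiding near

variable {V : Type*} [Fintype V] {G : SimpleGraph V} {X : V → Prop} {K : Cfg V}

/-- what `t'` sees -/
theorem Good.near_t' (h : Good G X K) {x : V} (hn : near G K.t' x) :
    x = K.y3 ∨ x = K.y4 ∨ x = K.r.lst K.t ∨ x = K.s ∨ x = K.s' ∨ x = K.b3 ∨ x = K.b4 ∨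
      G.Adj (K.r.lst K.t) x := by
  have := h.sw2.near_t hn
  simpa only [Cfg.sw2, Rn.fst_rev] using this

theorem Good.near2 (h : Good G X K) (hr : K.r = Rn.two) :
    Near2 G.Adj (near G) K.t K.t' K.s K.s' K.y1 K.y2 K.y3 K.y4 K.b1 K.b2 K.b3 K.b4 := by
  have n1 := h.fr.nt
  have n2 := h.fr.nt'
  have k1 := fun x => h.near_t (x := x)
  have k2 := fun x => h.near_t' (x := x)
  rw [hr] at n1 n2 k1 k2
  simp only [Rn.fst, Rn.lst] at n1 n2 k1 k2
  refine ⟨?_, ?_, ?_, ?_⟩
  · intro x hx
    rcases k1 x hx with h1 | h1 | h1 | h1 | h1 | h1 | h1 | h1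
    · exact Or.inr (Or.inr (Or.inr (Or.inl h1)))
    · exact Or.inr (Or.inr (Or.inr (Or.inr (Or.inl h1))))
    · exact Or.inl h1
    · exact Or.inr (Or.inl h1)
    · exact Or.inr (Or.inr (Or.inl h1))
    · exact Or.inr (Or.inr (Or.inr (Or.inr (Or.inr (Or.inr (Or.inr (Or.inl h1)))))))
    · exact Or.inr (Or.inr (Or.inr (Or.inr (Or.inr (Or.inr (Or.inr (Or.inr h1)))))))
    · rcases n2.all x h1 with h2 | h2 | h2
      · exact Or.inr (Or.inr (Or.inr (Or.inr (Or.inr (Or.inl h2)))))
      · exact Or.inr (Or.inr (Or.inr (Or.inr (Or.inr (Or.inr (Or.inl h2))))))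
      · exact absurd h2.symm hx.1
  · intro x hx
    rcases k2 x hx with h1 | h1 | h1 | h1 | h1 | h1 | h1 | h1
    · exact Or.inr (Or.inr (Or.inr (Or.inl h1)))
    · exact Or.inr (Or.inr (Or.inr (Or.inr (Or.inl h1))))
    · exact Or.inl h1
    · exact Or.inr (Or.inl h1)
    · exact Or.inr (Or.inr (Or.inl h1))
    · exact Or.inr (Or.inr (Or.inr (Or.inr (Or.inr (Or.inr (Or.inr (Or.inl h1)))))))
    · exact Or.inr (Or.inr (Or.inr (Or.inr (Or.inr (Or.inr (Or.inr (Or.inr h1)))))))
    · rcases n1.all x h1 with h2 | h2 | h2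
      · exact Or.inr (Or.inr (Or.inr (Or.inr (Or.inr (Or.inl h2)))))
      · exact Or.inr (Or.inr (Or.inr (Or.inr (Or.inr (Or.inr (Or.inl h2))))))
      · exact absurd h2.symm hx.1
  · exact n1.all
  · exact n2.all

theorem Good.near3 (h : Good G X K) {u z : V} (hr : K.r = Rn.three u) (hz : Nb G u K.t K.t' z) :
    Near3 G.Adj (near G) K.t K.t' K.s K.s' K.y1 K.y2 K.y3 K.y4 K.b1 K.b2 K.b3 K.b4 u z := by
  have n1 := h.fr.nt
  have n2 := h.fr.nt'
  have k1 := fun x => h.near_t (x := x)
  have k2 := fun x => h.near_t' (x := x)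
  rw [hr] at n1 n2 k1 k2
  simp only [Rn.fst, Rn.lst] at n1 n2 k1 k2
  refine ⟨?_, ?_, ?_, ?_⟩
  · intro x hx
    rcases k1 x hx with h1 | h1 | h1 | h1 | h1 | h1 | h1 | h1
    · exact Or.inr (Or.inr (Or.inr (Or.inl h1)))
    · exact Or.inr (Or.inr (Or.inr (Or.inr (Or.inl h1))))
    · exact Or.inr (Or.inr (Or.inr (Or.inr (Or.inr (Or.inr (Or.inr (Or.inl h1)))))))
    · exact Or.inr (Or.inl h1)
    · exact Or.inr (Or.inr (Or.inl h1))
    · exact Or.inr (Or.inr (Or.inr (Or.inr (Or.inr (Or.inl h1)))))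
    · exact Or.inr (Or.inr (Or.inr (Or.inr (Or.inr (Or.inr (Or.inl h1))))))
    · rcases hz.all x h1 with h2 | h2 | h2
      · exact absurd h2.symm hx.1
      · exact Or.inl h2
      · exact Or.inr (Or.inr (Or.inr (Or.inr (Or.inr (Or.inr (Or.inr (Or.inr h2)))))))
  · intro x hx
    rcases k2 x hx with h1 | h1 | h1 | h1 | h1 | h1 | h1 | h1
    · exact Or.inr (Or.inr (Or.inr (Or.inl h1)))
    · exact Or.inr (Or.inr (Or.inr (Or.inr (Or.inl h1))))
    · exact Or.inr (Or.inr (Or.inr (Or.inr (Or.inr (Or.inr (Or.inr (Or.inl h1)))))))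
    · exact Or.inr (Or.inl h1)
    · exact Or.inr (Or.inr (Or.inl h1))
    · exact Or.inr (Or.inr (Or.inr (Or.inr (Or.inr (Or.inl h1)))))
    · exact Or.inr (Or.inr (Or.inr (Or.inr (Or.inr (Or.inr (Or.inl h1))))))
    · rcases hz.all x h1 with h2 | h2 | h2
      · exact Or.inl h2
      · exact absurd h2.symm hx.1
      · exact Or.inr (Or.inr (Or.inr (Or.inr (Or.inr (Or.inr (Or.inr (Or.inr h2)))))))
  · exact n1.all
  · exact n2.all

theorem Good.near6 (h : Good G X K) {v2 v3 v4 v5 y : V} (hr : K.r = Rn.six v2 v3 v4 v5 y) :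
    Near6 G.Adj (near G) K.t K.t' K.s K.s' K.y1 K.y2 K.y3 K.y4 K.b1 K.b2 K.b3 K.b4
      v2 v3 v4 v5 y := by
  have n1 := h.fr.nt
  have n2 := h.fr.nt'
  have k1 := fun x => h.near_t (x := x)
  have k2 := fun x => h.near_t' (x := x)
  have rt := h.rt
  rw [hr] at n1 n2 k1 k2 rt
  simp only [Rn.fst, Rn.lst, Rung] at n1 n2 k1 k2 rt
  obtain ⟨_, m2, m5, _⟩ := rt
  refine ⟨?_, ?_, ?_, ?_⟩
  · intro x hx
    rcases k1 x hx with h1 | h1 | h1 | h1 | h1 | h1 | h1 | h1
    · exact Or.inr (Or.inr (Or.inl h1))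
    · exact Or.inr (Or.inr (Or.inr (Or.inl h1)))
    · exact Or.inr (Or.inr (Or.inr (Or.inr (Or.inr (Or.inr (Or.inl h1))))))
    · exact Or.inl h1
    · exact Or.inr (Or.inl h1)
    · exact Or.inr (Or.inr (Or.inr (Or.inr (Or.inl h1))))
    · exact Or.inr (Or.inr (Or.inr (Or.inr (Or.inr (Or.inl h1)))))
    · rcases m2.all x h1 with h2 | h2 | h2
      · exact absurd h2.symm hx.1
      · exact Or.inr (Or.inr (Or.inr (Or.inr (Or.inr (Or.inr (Or.inr (Or.inl h2)))))))
      · exact Or.inr (Or.inr (Or.inr (Or.inr (Or.inr (Or.inr (Or.inr (Or.inr h2)))))))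
  · intro x hx
    rcases k2 x hx with h1 | h1 | h1 | h1 | h1 | h1 | h1 | h1
    · exact Or.inr (Or.inr (Or.inl h1))
    · exact Or.inr (Or.inr (Or.inr (Or.inl h1)))
    · exact Or.inr (Or.inr (Or.inr (Or.inr (Or.inr (Or.inr (Or.inl h1))))))
    · exact Or.inl h1
    · exact Or.inr (Or.inl h1)
    · exact Or.inr (Or.inr (Or.inr (Or.inr (Or.inl h1))))
    · exact Or.inr (Or.inr (Or.inr (Or.inr (Or.inr (Or.inl h1)))))
    · rcases m5.all x h1 with h2 | h2 | h2
      · exact absurd h2.symm hx.1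
      · exact Or.inr (Or.inr (Or.inr (Or.inr (Or.inr (Or.inr (Or.inr (Or.inl h2)))))))
      · exact Or.inr (Or.inr (Or.inr (Or.inr (Or.inr (Or.inr (Or.inr (Or.inr h2)))))))
  · exact n1.all
  · exact n2.all

/-- the middle of a rung with three vertices -/
theorem mid_of (hX : NoMono G X) {t t' u z y y' o : V} {y3 y4 o' : V} (Xu : X u)
    (hXt : X t) (hXt' : X t') (hz : Nb G u t t' z) (nt : Nb G t y y' u) (nt' : Nb G t' y3 y4 u)
    (Y1 : ¬ X y) (Y2 : ¬ X y') (Y3 : ¬ X y3) (Y4 : ¬ X y4) :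
    ¬ X z ∧ ∃ w, Mid G.Adj (qadj G X) X t t' u z w := by
  have hXz : ¬ X z := fun hh => hz.side hX (iff_of_true hXt hXt') (iff_of_true hh hXt)
  refine ⟨hXz, ?_⟩
  have hc : ∀ x, G.Adj u x → ¬ X x → x = z := by
    intro x hx hXx
    rcases hz.all x hx with h1 | h1 | h1
    · exact absurd (by rw [h1]; exact hXt) hXx
    · exact absurd (by rw [h1]; exact hXt') hXx
    · exact h1
  have hq : ∀ x, qadj G X u x → x = t ∨ x = t' ∨ (G.Adj z x ∧ X x ∧ x ≠ u) := by
    rintro x ⟨hs, hne, hadj | ⟨w, hw1, hw2⟩⟩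
    · rcases hz.all x hadj with h1 | h1 | h1
      · exact Or.inl h1
      · exact Or.inr (Or.inl h1)
      · exact absurd (hs.mp Xu) (by rw [h1]; exact hXz)
    · have hXx := hs.mp Xu
      rcases hz.all w hw1 with h1 | h1 | h1
      · rw [h1] at hw2
        rcases nt.all x hw2 with h2 | h2 | h2
        · exact absurd hXx (by rw [h2]; exact Y1)
        · exact absurd hXx (by rw [h2]; exact Y2)
        · exact absurd h2.symm hne
      · rw [h1] at hw2
        rcases nt'.all x hw2 with h2 | h2 | h2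
        · exact absurd hXx (by rw [h2]; exact Y3)
        · exact absurd hXx (by rw [h2]; exact Y4)
        · exact absurd h2.symm hne
      · rw [h1] at hw2
        exact Or.inr (Or.inr ⟨hw2, hXx, hne.symm⟩)
  by_cases hw : ∃ w, G.Adj z w ∧ X w ∧ w ≠ u
  · obtain ⟨w, w1, w2, w3⟩ := hw
    refine ⟨w, Xu, ?_, hc⟩
    intro x hx
    rcases hq x hx with h1 | h1 | ⟨h1, h2, h3⟩
    · exact Or.inl h1
    · exact Or.inr (Or.inl h1)
    · right
      right
      by_contra hne
      exact hX z u w x hz.hc.symm w1 h1 w3.symm h3.symm (Ne.symm hne)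
        ⟨iff_of_true Xu w2, iff_of_true Xu h2⟩
  · refine ⟨u, Xu, ?_, hc⟩
    intro x hx
    rcases hq x hx with h1 | h1 | h1
    · exact Or.inl h1
    · exact Or.inr (Or.inl h1)
    · exact absurd ⟨x, h1⟩ hw

/-- the pentagon of a rung with six vertices -/
theorem pent_of (hX : NoMono G X) {t t' v2 v3 v4 v5 y : V}
    (hst : ∀ v, StarAt G X v)
    (hr : Rung G X t t' (.six v2 v3 v4 v5 y)) (hXt : X t) (hXt' : X t') {y1 y2 y3 y4 : V}
    (nt : Nb G t y1 y2 v2) (nt' : Nb G t' y3 y4 v5) (Y1 : ¬ X y1) (Y2 : ¬ X y2) (Y3 : ¬ X y3)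
    (Y4 : ¬ X y4) :
    ∃ z3 z4 b c, Pent G.Adj (qadj G X) X t t' v2 v3 v4 v5 y z3 z4 b c := by
  simp only [Rung] at hr
  obtain ⟨⟨h2, h3, h4, h5, hy⟩, n2, n5, ⟨z3, n3⟩, ⟨z4, n4⟩, b, n⟩ := hr
  have X2 : X v2 := h2.mpr hXt
  have X3 : X v3 := h3.mpr hXt
  have X4 : X v4 := h4.mpr hXt
  have X5 : X v5 := h5.mpr hXt
  have Yy : ¬ X y := fun hh => hy (iff_of_true hh hXt)
  have hz3 : ¬ X z3 := fun hh => n3.side hX (iff_of_true X2 X4) (iff_of_true hh X2)
  have hz4 : ¬ X z4 := fun hh => n4.side hX (iff_of_true X5 X3) (iff_of_true hh X5)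
  have hb : ¬ X b := fun hh => n.side hX (iff_of_true X2 X5) (iff_of_true hh X2)
  -- `star`: the outer neighbours of `v3`, `v4` have no further neighbour in `X`
  have key : ∀ v a a' d d' z, Nb G v a a' z → X v → X a → X a' → ¬ X z → G.Adj a d → d ≠ v → X d →
      G.Adj a' d' → d' ≠ v → X d' → ∀ x, G.Adj z x → X x → x = v := by
    intro v a a' d d' z hn Xv Xa Xa' Xz had hdv Xd had' hdv' Xd' x hx hXx
    by_contra hne
    have hs := hst v (by
      intro w hw
      rw [mem_pt]
      refine ⟨hw, ?_⟩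
      rcases hn.all w hw with h1 | h1 | h1
      · exact ⟨d, hdv, by rw [h1]; exact had, iff_of_true Xd Xv⟩
      · exact ⟨d', hdv', by rw [h1]; exact had', iff_of_true Xd' Xv⟩
      · exact ⟨x, hne, by rw [h1]; exact hx, iff_of_true hXx Xv⟩)
    have c1 : 2 ≤ (ow G X v).card := by
      have hsub : ({a, a'} : Finset V) ⊆ ow G X v := by
        intro w hw
        rw [Finset.mem_insert, Finset.mem_singleton] at hw
        rcases hw with rfl | rfl
        · exact mem_ow.mpr ⟨hn.ha, iff_of_true Xa Xv⟩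
        · exact mem_ow.mpr ⟨hn.hb, iff_of_true Xa' Xv⟩
      have := Finset.card_le_card hsub
      rwa [Finset.card_pair hn.ab] at this
    have c2 : (cr G X v).card ≤ 1 := by
      have hsub : cr G X v ⊆ {z} := by
        intro w hw
        rw [mem_cr] at hw
        rw [Finset.mem_singleton]
        rcases hn.all w hw.1 with h1 | h1 | h1
        · exact absurd (by rw [h1]; exact iff_of_true Xa Xv) hw.2
        · exact absurd (by rw [h1]; exact iff_of_true Xa' Xv) hw.2
        · exact h1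
      have := Finset.card_le_card hsub
      rwa [Finset.card_singleton] at this
    omega
  have d24 : v2 ≠ v4 := n3.ab
  have d23 : v2 ≠ v3 := n3.ha.ne'
  have d34 : v3 ≠ v4 := n4.hb.ne'
  have d35 : v3 ≠ v5 := n4.ab.symm
  have d45 : v4 ≠ v5 := n5.hb.ne'
  have d25 : v2 ≠ v5 := n.ab
  have s3 := key v3 v2 v4 t v5 z3 n3 X3 X2 X4 hz3 n2.ha (by
      rintro rfl
      exact n2.ab rfl) hXt n4.ha d35.symm X5
  have s4 := key v4 v5 v3 t' v2 z4 n4 X4 X5 X3 hz4 n5.ha (by
      rintro rfl
      exact n5.ab rfl) hXt' n3.ha d24 X2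
  -- the neighbours of `y`
  have hqy : ∃ c, ∀ x, qadj G X y x → (x = b ∨ x = c) ∧ x ≠ y := by
    have hq : ∀ x, qadj G X y x → x = b ∨ (G.Adj b x ∧ ¬ X x ∧ x ≠ y) := by
      rintro x ⟨hs, hne, hadj | ⟨w, hw1, hw2⟩⟩
      · rcases n.all x hadj with h1 | h1 | h1
        · exact absurd (hs.mpr (by rw [h1]; exact X2)) Yy
        · exact absurd (hs.mpr (by rw [h1]; exact X5)) Yy
        · exact Or.inl h1
      · have hXx : ¬ X x := fun hh => Yy (hs.mpr hh)
        rcases n.all w hw1 with h1 | h1 | h1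
        · rw [h1] at hw2
          rcases n2.all x hw2 with h2 | h2 | h2
          · exact absurd (by rw [h2]; exact hXt) hXx
          · exact absurd (by rw [h2]; exact X3) hXx
          · exact absurd h2.symm hne
        · rw [h1] at hw2
          rcases n5.all x hw2 with h2 | h2 | h2
          · exact absurd (by rw [h2]; exact hXt') hXx
          · exact absurd (by rw [h2]; exact X4) hXx
          · exact absurd h2.symm hne
        · rw [h1] at hw2
          exact Or.inr ⟨hw2, hXx, hne.symm⟩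
    by_cases hw : ∃ w, G.Adj b w ∧ ¬ X w ∧ w ≠ y
    · obtain ⟨c, c1, c2, c3⟩ := hw
      refine ⟨c, fun x hx => ⟨?_, hx.2.1.symm⟩⟩
      rcases hq x hx with h1 | ⟨h1, h2, h3⟩
      · exact Or.inl h1
      · right
        by_contra hne
        exact hX b y c x n.hc.symm c1 h1 c3.symm h3.symm (Ne.symm hne)
          ⟨iff_of_false Yy c2, iff_of_false Yy h2⟩
    · refine ⟨b, fun x hx => ⟨?_, hx.2.1.symm⟩⟩
      rcases hq x hx with h1 | h1
      · exact Or.inl h1
      · exact absurd ⟨x, h1⟩ hw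
  obtain ⟨c, hqy⟩ := hqy
  refine ⟨z3, z4, b, c, {
    X2 := X2, X3 := X3, X4 := X4, X5 := X5, Yy := Yy
    d23 := d23, d24 := d24, d25 := d25, d34 := d34, d35 := d35, d45 := d45
    q2 := ?_, q3 := ?_, q4 := ?_, q5 := ?_, qy := hqy, c2 := ?_, c3 := ?_, c4 := ?_, c5 := ?_
    cy := ?_ }⟩
  · rintro x ⟨hs, hne, hadj | ⟨w, hw1, hw2⟩⟩
    · rcases n2.all x hadj with h1 | h1 | h1
      · exact Or.inl h1
      · exact Or.inr (Or.inl h1)
      · exact absurd (hs.mp X2) (by rw [h1]; exact Yy)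
    · have hXx := hs.mp X2
      rcases n2.all w hw1 with h1 | h1 | h1
      · rw [h1] at hw2
        rcases nt.all x hw2 with h2 | h2 | h2
        · exact absurd hXx (by rw [h2]; exact Y1)
        · exact absurd hXx (by rw [h2]; exact Y2)
        · exact absurd h2.symm hne
      · rw [h1] at hw2
        rcases n3.all x hw2 with h2 | h2 | h2
        · exact absurd h2.symm hne
        · exact Or.inr (Or.inr (Or.inl h2))
        · exact absurd hXx (by rw [h2]; exact hz3)
      · rw [h1] at hw2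
        rcases n.all x hw2 with h2 | h2 | h2
        · exact absurd h2.symm hne
        · exact Or.inr (Or.inr (Or.inr h2))
        · exact absurd hXx (by rw [h2]; exact hb)
  · rintro x ⟨hs, hne, hadj | ⟨w, hw1, hw2⟩⟩
    · rcases n3.all x hadj with h1 | h1 | h1
      · exact Or.inr (Or.inl h1)
      · exact Or.inr (Or.inr (Or.inl h1))
      · exact absurd (hs.mp X3) (by rw [h1]; exact hz3)
    · have hXx := hs.mp X3
      rcases n3.all w hw1 with h1 | h1 | h1
      · rw [h1] at hw2
        rcases n2.all x hw2 with h2 | h2 | h2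
        · exact Or.inl h2
        · exact absurd h2.symm hne
        · exact absurd hXx (by rw [h2]; exact Yy)
      · rw [h1] at hw2
        rcases n4.all x hw2 with h2 | h2 | h2
        · exact Or.inr (Or.inr (Or.inr h2))
        · exact absurd h2.symm hne
        · exact absurd hXx (by rw [h2]; exact hz4)
      · rw [h1] at hw2
        exact absurd (s3 x hw2 hXx).symm hne
  · rintro x ⟨hs, hne, hadj | ⟨w, hw1, hw2⟩⟩
    · rcases n4.all x hadj with h1 | h1 | h1
      · exact Or.inr (Or.inr (Or.inr h1))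
      · exact Or.inr (Or.inr (Or.inl h1))
      · exact absurd (hs.mp X4) (by rw [h1]; exact hz4)
    · have hXx := hs.mp X4
      rcases n4.all w hw1 with h1 | h1 | h1
      · rw [h1] at hw2
        rcases n5.all x hw2 with h2 | h2 | h2
        · exact Or.inl h2
        · exact absurd h2.symm hne
        · exact absurd hXx (by rw [h2]; exact Yy)
      · rw [h1] at hw2
        rcases n3.all x hw2 with h2 | h2 | h2
        · exact Or.inr (Or.inl h2)
        · exact absurd h2.symm hne
        · exact absurd hXx (by rw [h2]; exact hz3)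
      · rw [h1] at hw2
        exact absurd (s4 x hw2 hXx).symm hne
  · rintro x ⟨hs, hne, hadj | ⟨w, hw1, hw2⟩⟩
    · rcases n5.all x hadj with h1 | h1 | h1
      · exact Or.inl h1
      · exact Or.inr (Or.inr (Or.inr h1))
      · exact absurd (hs.mp X5) (by rw [h1]; exact Yy)
    · have hXx := hs.mp X5
      rcases n5.all w hw1 with h1 | h1 | h1
      · rw [h1] at hw2
        rcases nt'.all x hw2 with h2 | h2 | h2
        · exact absurd hXx (by rw [h2]; exact Y3)
        · exact absurd hXx (by rw [h2]; exact Y4)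
        · exact absurd h2.symm hne
      · rw [h1] at hw2
        rcases n4.all x hw2 with h2 | h2 | h2
        · exact absurd h2.symm hne
        · exact Or.inr (Or.inr (Or.inl h2))
        · exact absurd hXx (by rw [h2]; exact hz4)
      · rw [h1] at hw2
        rcases n.all x hw2 with h2 | h2 | h2
        · exact Or.inr (Or.inl h2)
        · exact absurd h2.symm hne
        · exact absurd hXx (by rw [h2]; exact hb)
  · intro x hx hXx
    rcases n2.all x hx with h1 | h1 | h1
    · exact absurd (by rw [h1]; exact hXt) hXx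
    · exact absurd (by rw [h1]; exact X3) hXx
    · exact h1
  · intro x hx hXx
    rcases n3.all x hx with h1 | h1 | h1
    · exact absurd (by rw [h1]; exact X2) hXx
    · exact absurd (by rw [h1]; exact X4) hXx
    · exact h1
  · intro x hx hXx
    rcases n4.all x hx with h1 | h1 | h1
    · exact absurd (by rw [h1]; exact X5) hXx
    · exact absurd (by rw [h1]; exact X3) hXx
    · exact h1
  · intro x hx hXx
    rcases n5.all x hx with h1 | h1 | h1
    · exact absurd (by rw [h1]; exact hXt') hXx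
    · exact absurd (by rw [h1]; exact X4) hXx
    · exact h1
  · intro x hx hXx
    rcases n.all x hx with h1 | h1 | h1
    · exact Or.inl h1
    · exact Or.inr h1
    · exact absurd hXx (by rw [h1]; exact hb)

end Pool.Agent.helper58.L9
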