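import Pool.Agent.helper58.L9.KgFind
import Pool.Agent.helper58.L9.K4Dyn

/-!
# Reflection, disjointness, regions
-/

set_option autoImplicit false
set_option linter.unusedSectionVars false
set_option linter.unusedVariables false

namespace Pool.Agent.helper58.L9

open Finset Classical Helper33.L9
open Helper42.L9 hiding near

variable {V : Type*} [Fintype V] {G : SimpleGraph V} {X : V → Prop}

/-- the states on `Z` outside `Lm` extend to `Z` -/
def ExtZ (G : SimpleGraph V) (X : V → Prop) (Z : Finset V) (Lm : V → Prop) : Prop :=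
  ∀ (E : V → Prop) (f : V → ℕ), StG G X (fun v => v ∈ Z ∧ ¬ Lm v) E f →
    ∃ (E' : V → Prop) (f' : V → ℕ), StG G X (fun v => v ∈ Z) E' f'

theorem qadj_refl : qadj G (fun v => ¬ X v) = qadj G X := by
  funext u v
  unfold qadj
  rw [not_iff_not]

theorem ExtZ.refl {Z : Finset V} {Lm : V → Prop} (h : ExtZ G (fun v => ¬ X v) Z Lm) :
    ExtZ G X Z Lm := by
  intro E f hst
  have h1 : StG G (fun v => ¬ X v) (fun v => v ∈ Z ∧ ¬ Lm v) E (fun v => 9 - f v) := by
    have := hst.refl relG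
    rw [← qadj_refl] at this
    exact this
  obtain ⟨E', f', st⟩ := h E _ h1
  refine ⟨E', fun v => 9 - f' v, ?_⟩
  have st2 := st.refl relG
  have e : (fun v => ¬ ¬ X v) = X := by
    funext v
    simp
  rw [e, qadj_refl] at st2
  exact st2

theorem noMono_refl (hX : NoMono G X) : NoMono G (fun v => ¬ X v) := by
  intro w a b c h1 h2 h3 h4 h5 h6 ⟨h7, h8⟩
  exact hX w a b c h1 h2 h3 h4 h5 h6 ⟨not_iff_not.mp h7, not_iff_not.mp h8⟩

theorem starAt_refl {v : V} (h : StarAt G X v) : StarAt G (fun v => ¬ X v) v := by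
  unfold StarAt at h ⊢
  have e1 : pt G (fun v => ¬ X v) v = pt G X v := by
    unfold pt
    ext w
    simp only [Finset.mem_filter, Finset.mem_univ, true_and, not_iff_not]
  have e2 : ow G (fun v => ¬ X v) v = ow G X v := by
    unfold ow
    ext w
    simp only [Finset.mem_filter, Finset.mem_univ, true_and, not_iff_not]
  have e3 : cr G (fun v => ¬ X v) v = cr G X v := by
    unfold cr
    ext w
    simp only [Finset.mem_filter, Finset.mem_univ, true_and, not_iff_not]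
  rw [e1, e2, e3]
  exact h

/-- extension of all states gives extension to `Z` -/
theorem extZ_of_kext {Z : Finset V} {Lm : V → Prop} (hsub : ∀ v, Lm v → v ∈ Z)
    (h : ∀ (E : V → Prop) (f : V → ℕ), StG G X (fun v => v ∈ Z ∧ ¬ Lm v) E f →
      ∃ (g : V → ℕ) (E' : V → Prop), StG G X (fun v => (v ∈ Z ∧ ¬ Lm v) ∨ Lm v) E' g) :
    ExtZ G X Z Lm := by
  intro E f hst
  obtain ⟨g, E', st⟩ := h E f hst
  refine ⟨E', g, st.congr (fun v => ?_) (fun v => Iff.rfl)⟩
  constructor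
  · rintro (hv | hv)
    · exact hv.1
    · exact hsub v hv
  · intro hv
    by_cases hl : Lm v
    · exact Or.inr hl
    · exact Or.inl ⟨hv, hl⟩

variable {K : Cfg V}

section

variable (hX : NoMono G X) (hcub : ∀ v, (univ.filter fun b => G.Adj v b).card = 3)

include hX hcub

/-- the vertices of a rung -/
theorem Good.inn_info (h : Good G X K) {x : V} (hx : K.r.inn x) :
    (cc G X x = 3 ∧ (X x ↔ X K.t)) ∨
    (cc G X x = 2 ∧ ¬ (X x ↔ X K.t) ∧ ∃ w, G.Adj x w ∧ cc G X w = 3 ∧ (X w ↔ X K.t)) := by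
  have rt := h.rt
  cases hrr : K.r with
  | two =>
    rw [hrr] at hx
    exact hx.elim
  | three u =>
    rw [hrr] at hx rt
    simp only [Rn.inn, Rung] at hx rt
    subst hx
    obtain ⟨h1, z, hz⟩ := rt
    exact Or.inl ⟨cc_inner hX hcub hz.ha hz.hb hz.ab h1.symm (h.fr.Xt'.trans h1.symm), h1⟩
  | six v2 v3 v4 v5 y =>
    rw [hrr] at hx rt
    simp only [Rn.inn, Rung] at hx rt
    obtain ⟨⟨h2, h3, h4, h5, hy⟩, n2, n5, ⟨z3, n3⟩, ⟨z4, n4⟩, b, n⟩ := rt
    have c2 : cc G X v2 = 3 := cc_inner hX hcub n2.ha n2.hb n2.ab h2.symm (h3.trans h2.symm)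
    have c3 : cc G X v3 = 3 := cc_inner hX hcub n3.ha n3.hb n3.ab (h2.trans h3.symm)
      (h4.trans h3.symm)
    have c4 : cc G X v4 = 3 := cc_inner hX hcub n4.ha n4.hb n4.ab (h5.trans h4.symm)
      (h3.trans h4.symm)
    have c5 : cc G X v5 = 3 := cc_inner hX hcub n5.ha n5.hb n5.ab (h.fr.Xt'.trans h5.symm)
      (h4.trans h5.symm)
    have cy : cc G X y = 2 := cc_end hX hcub n.ha n.hb n.ab
      (fun hh => hy (hh.symm.trans h2)) (fun hh => hy (hh.symm.trans h5))
    rcases hx with rfl | rfl | rfl | rfl | rfl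
    · exact Or.inl ⟨c2, h2⟩
    · exact Or.inl ⟨c3, h3⟩
    · exact Or.inl ⟨c4, h4⟩
    · exact Or.inl ⟨c5, h5⟩
    · exact Or.inr ⟨cy, hy, v2, n.ha, c2, h2⟩

theorem Good.y1_nb (h : Good G X K) {w : V} (hw : G.Adj K.y1 w) (hs : X w ↔ X K.t) :
    cc G X w = 2 := by
  rcases h.fr.n1.all w hw with h1 | h1 | h1
  · rw [h1]; exact h.cc_t hX hcub
  · rw [h1]; exact h.sw3.cc_t hX hcub
  · exfalso
    rw [h1] at hs
    exact h.fr.Y1 ((h.fr.sb1 hX).symm.trans hs)

/-- the rungs are outside the eight vertices -/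
theorem Good.inn_r8 (h : Good G X K) {x : V} (hx : K.r.inn x) :
    ¬ R8 K.t K.t' K.s K.s' K.y1 K.y2 K.y3 K.y4 x := by
  have hy : ∀ {K : Cfg V}, Good G X K → ∀ {x t : V}, (X t ↔ X K.t) → x = K.y1 → ((cc G X x = 3 ∧ (X x ↔ X t)) ∨
    (cc G X x = 2 ∧ ¬ (X x ↔ X t) ∧ ∃ w, G.Adj x w ∧ cc G X w = 3 ∧ (X w ↔ X t))) → False := by
    intro K h x t ht hx hh
    rw [hx] at hh
    rcases hh with ⟨h1, h2⟩ | ⟨h1, h2, w, h3, h4, h5⟩
    · exact h.fr.Y1 (h2.trans ht)
    · have := h.y1_nb hX hcub h3 (h5.trans ht)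
      omega
  have ht : ∀ {K : Cfg V}, Good G X K → ∀ {x t : V}, (X t ↔ X K.t) → x = K.t → ((cc G X x = 3 ∧ (X x ↔ X t)) ∨
    (cc G X x = 2 ∧ ¬ (X x ↔ X t) ∧ ∃ w, G.Adj x w ∧ cc G X w = 3 ∧ (X w ↔ X t))) → False := by
    intro K h x t ht hx hh
    rw [hx] at hh
    rcases hh with ⟨h1, h2⟩ | ⟨h1, h2, w, h3, h4, h5⟩
    · have := h.cc_t hX hcub
      omega
    · exact h2 ht.symm
  have hi := h.inn_info hX hcub hx
  rintro (h1 | h1 | h1 | h1 | h1 | h1 | h1 | h1)
  · exact ht h Iff.rfl h1 hi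
  · exact ht h.sw2 h.fr.Xt'.symm h1 hi
  · exact ht h.sw3 h.fr.Xs.symm h1 hi
  · exact ht h.sw3.sw2 h.fr.Xs'.symm h1 hi
  · exact hy h Iff.rfl h1 hi
  · exact hy h.sw1 Iff.rfl h1 hi
  · exact hy h.sw2 h.fr.Xt'.symm h1 hi
  · exact hy h.sw1.sw2 h.fr.Xt'.symm h1 hi

theorem Good.inn_r8' (h : Good G X K) {x : V} (hx : K.r'.inn x) :
    ¬ R8 K.t K.t' K.s K.s' K.y1 K.y2 K.y3 K.y4 x := by
  have := h.sw3.inn_r8 hX hcub (x := x) hx
  intro hh
  apply this
  simp only [Cfg.sw3, R8] at hh ⊢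
  tauto

/-- closure of a rung under the own relation -/
theorem Good.pc_inn' (h : Good G X K) {v : V} (hv : K.r.inn v) :
    Pc G X (fun x => x = K.t ∨ x = K.t' ∨ K.r.inn x) v := by
  have rt := h.rt
  set D : V → Prop := fun x => x = K.t ∨ x = K.t' ∨ K.r.inn x with hDdef
  have hin : ∀ x, K.r.inn x → D x := fun x hx => Or.inr (Or.inr hx)
  have dt : D K.t := Or.inl rfl
  have dt' : D K.t' := Or.inr (Or.inl rfl)
  cases hrr : K.r with
  | two =>
    rw [hrr] at hv
    exact hv.elim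
  | three u =>
    rw [hrr] at hv rt
    simp only [Rn.inn, Rung] at hv rt
    subst hv
    obtain ⟨h1, z, hz⟩ := rt
    have hc : cc G X v = 3 := cc_inner hX hcub hz.ha hz.hb hz.ab h1.symm (h.fr.Xt'.trans h1.symm)
    refine ⟨fun h2 => by omega, fun _ w hw hs => ?_⟩
    rcases hz.all w hw with h3 | h3 | h3
    · rw [h3]; exact dt
    · rw [h3]; exact dt'
    · exact absurd (by rw [h3] at hs; exact hs.trans h1) (hz.side hX h.fr.Xt'.symm)
  | six v2 v3 v4 v5 y =>
    rw [hrr] at hv rt hin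
    simp only [Rn.inn, Rung] at hv rt hin
    obtain ⟨⟨h2, h3, h4, h5, hy⟩, n2, n5, ⟨z3, n3⟩, ⟨z4, n4⟩, b, n⟩ := rt
    have p2 : D v2 := hin _ (Or.inl rfl)
    have p3 : D v3 := hin _ (Or.inr (Or.inl rfl))
    have p4 : D v4 := hin _ (Or.inr (Or.inr (Or.inl rfl)))
    have p5 : D v5 := hin _ (Or.inr (Or.inr (Or.inr (Or.inl rfl))))
    have py : D y := hin _ (Or.inr (Or.inr (Or.inr (Or.inr rfl))))
    rcases hv with rfl | rfl | rfl | rfl | rfl
    · have hc : cc G X v = 3 := cc_inner hX hcub n2.ha n2.hb n2.ab h2.symm (h3.trans h2.symm)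
      refine ⟨fun h2 => by omega, fun _ w hw hs => ?_⟩
      rcases n2.all w hw with h6 | h6 | h6
      · rw [h6]; exact dt
      · rw [h6]; exact p3
      · exact absurd (by rw [h6] at hs; exact hs.trans h2) hy
    · have hc : cc G X v = 3 := cc_inner hX hcub n3.ha n3.hb n3.ab (h2.trans h3.symm)
        (h4.trans h3.symm)
      refine ⟨fun h2 => by omega, fun _ w hw hs => ?_⟩
      rcases n3.all w hw with h6 | h6 | h6
      · rw [h6]; exact p2
      · rw [h6]; exact p4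
      · exact absurd (by rw [h6] at hs; exact (hs.trans h3).trans h2.symm)
          (n3.side hX (h2.trans h4.symm))
    · have hc : cc G X v = 3 := cc_inner hX hcub n4.ha n4.hb n4.ab (h5.trans h4.symm)
        (h3.trans h4.symm)
      refine ⟨fun h2 => by omega, fun _ w hw hs => ?_⟩
      rcases n4.all w hw with h6 | h6 | h6
      · rw [h6]; exact p5
      · rw [h6]; exact p3
      · exact absurd (by rw [h6] at hs; exact (hs.trans h4).trans h5.symm)
          (n4.side hX (h5.trans h3.symm))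
    · have hc : cc G X v = 3 := cc_inner hX hcub n5.ha n5.hb n5.ab (h.fr.Xt'.trans h5.symm)
        (h4.trans h5.symm)
      refine ⟨fun h2 => by omega, fun _ w hw hs => ?_⟩
      rcases n5.all w hw with h6 | h6 | h6
      · rw [h6]; exact dt'
      · rw [h6]; exact p4
      · exact absurd (by rw [h6] at hs; exact hs.trans h5) hy
    · have hc : cc G X v = 2 := cc_end hX hcub n.ha n.hb n.ab
        (fun hh => hy (hh.symm.trans h2)) (fun hh => hy (hh.symm.trans h5))
      refine ⟨fun _ w hw hs => ?_, fun h2 => by omega⟩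
      rcases n.all w hw with h6 | h6 | h6
      · rw [h6]; exact p2
      · rw [h6]; exact p5
      · exfalso
        apply hs
        rw [h6]
        refine iff_of_ne_iff (c := X v2) (n.side hX (h2.trans h5.symm)) (fun hh => hy (hh.trans h2))

/-- a set which is closed at the first rung and meets it contains an end of it -/
theorem Good.meet_inn' (h : Good G X K) {D : V → Prop} (hD : ∀ v, K.r.inn v → D v → Pc G X D v)
    {v : V} (hv : K.r.inn v) (hDv : D v) : D K.t ∨ D K.t' := by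
  have rt := h.rt
  cases hrr : K.r with
  | two =>
    rw [hrr] at hv
    exact hv.elim
  | three u =>
    rw [hrr] at hv rt hD
    simp only [Rn.inn, Rung] at hv rt hD
    subst hv
    obtain ⟨h1, z, hz⟩ := rt
    have hc : cc G X v = 3 := cc_inner hX hcub hz.ha hz.hb hz.ab h1.symm (h.fr.Xt'.trans h1.symm)
    exact Or.inl ((hD v rfl hDv).2 hc K.t hz.ha h1.symm)
  | six v2 v3 v4 v5 y =>
    rw [hrr] at hv rt hD
    simp only [Rn.inn, Rung] at hv rt hD
    obtain ⟨⟨h2, h3, h4, h5, hy⟩, n2, n5, ⟨z3, n3⟩, ⟨z4, n4⟩, b, n⟩ := rt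
    have c2 : cc G X v2 = 3 := cc_inner hX hcub n2.ha n2.hb n2.ab h2.symm (h3.trans h2.symm)
    have c3 : cc G X v3 = 3 := cc_inner hX hcub n3.ha n3.hb n3.ab (h2.trans h3.symm)
      (h4.trans h3.symm)
    have c4 : cc G X v4 = 3 := cc_inner hX hcub n4.ha n4.hb n4.ab (h5.trans h4.symm)
      (h3.trans h4.symm)
    have c5 : cc G X v5 = 3 := cc_inner hX hcub n5.ha n5.hb n5.ab (h.fr.Xt'.trans h5.symm)
      (h4.trans h5.symm)
    have cy : cc G X y = 2 := cc_end hX hcub n.ha n.hb n.ab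
      (fun hh => hy (hh.symm.trans h2)) (fun hh => hy (hh.symm.trans h5))
    have i2 : P5 v2 v3 v4 v5 y v2 := Or.inl rfl
    have i3 : P5 v2 v3 v4 v5 y v3 := Or.inr (Or.inl rfl)
    have i4 : P5 v2 v3 v4 v5 y v4 := Or.inr (Or.inr (Or.inl rfl))
    have i5 : P5 v2 v3 v4 v5 y v5 := Or.inr (Or.inr (Or.inr (Or.inl rfl)))
    have iy : P5 v2 v3 v4 v5 y y := Or.inr (Or.inr (Or.inr (Or.inr rfl)))
    have k2 : D v2 → D K.t := fun hh => (hD v2 i2 hh).2 c2 K.t n2.ha h2.symm
    have k5 : D v5 → D K.t' := fun hh => (hD v5 i5 hh).2 c5 K.t' n5.ha (h.fr.Xt'.trans h5.symm)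
    rcases hv with hv | hv | hv | hv | hv
    · rw [hv] at hDv; exact Or.inl (k2 hDv)
    · rw [hv] at hDv; exact Or.inl (k2 ((hD v3 i3 hDv).2 c3 v2 n3.ha (h2.trans h3.symm)))
    · rw [hv] at hDv; exact Or.inr (k5 ((hD v4 i4 hDv).2 c4 v5 n4.ha (h5.trans h4.symm)))
    · rw [hv] at hDv; exact Or.inr (k5 hDv)
    · rw [hv] at hDv
      exact Or.inl (k2 ((hD y iy hDv).1 cy v2 n.ha (fun hh => hy (hh.symm.trans h2))))

/-- the rungs are disjoint -/
theorem Good.inn_inn (h : Good G X K) {x : V} (hx : K.r.inn x) (hx' : K.r'.inn x) : False := by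
  have r8 : ∀ v, K.r.inn v → v ≠ K.s ∧ v ≠ K.s' := by
    intro v hv
    have := h.inn_r8 hX hcub hv
    unfold R8 at this
    tauto
  have key := h.meet_inn' hX hcub (D := fun x => x = K.s ∨ x = K.s' ∨ K.r'.inn x)
    (by
      intro v hv hDv
      have := r8 v hv
      rcases hDv with h1 | h1 | h1
      · exact absurd h1 this.1
      · exact absurd h1 this.2
      · exact h.sw3.pc_inn' hX hcub h1) hx (Or.inr (Or.inr hx'))
  rcases key with (h1 | h1 | h1) | (h1 | h1 | h1)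
  · exact h.fr.n1.ab h1
  · exact h.fr.n2.ab h1
  · exact h.inn_r8' hX hcub h1 (Or.inl rfl)
  · exact h.fr.n3.ab h1
  · exact h.fr.n4.ab h1
  · exact h.inn_r8' hX hcub h1 (Or.inr (Or.inl rfl))

end

end Pool.Agent.helper58.L9
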