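import Pool.Agent.helper58.L9.KgCfg

/-!
# From the graph to the region
-/

set_option autoImplicit false
set_option linter.unusedSectionVars false
set_option linter.unusedVariables false

namespace Pool.Agent.helper58.L9

open Finset Classical Helper33.L9
open Helper42.L9 hiding near

variable {V : Type*} [Fintype V] {G : SimpleGraph V} {X : V → Prop}

/-- the standing relations of a graph -/
theorem rel_graph (G : SimpleGraph V) (X : V → Prop) : Rel G.Adj (qadj G X) (near G) X := relG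

theorem qadj_irr (v : V) : ¬ qadj G X v v := fun h => h.2.1 rfl

variable {K : Cfg V}

/-- the adjusted outer neighbours of the `y`'s -/
structure Out (G : SimpleGraph V) (X : V → Prop) (K : Cfg V) (B1 B2 B3 B4 C1 C2 C3 C4 : V) :
    Prop where
  reg : K4Reg G.Adj (qadj G X) X K.r.M K.r'.M (qadj G X K.y1 K.y4) (qadj G X K.y2 K.y3)
    K.t K.t' K.s K.s' K.y1 K.y2 K.y3 K.y4 B1 B2 B3 B4 C1 C2 C3 C4
  h14 : qadj G X K.y1 K.y4 → B1 = C1 ∧ B4 = C4 ∧ B1 = B4
  h23 : qadj G X K.y2 K.y3 → B2 = C2 ∧ B3 = C3 ∧ B2 = B3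
  i1 : B1 ≠ C1 → BI G X (Ys K.y1 K.y2 K.y3 K.y4) K.y1 K.b1 B1 C1
  i2 : B2 ≠ C2 → BI G X (Ys K.y1 K.y2 K.y3 K.y4) K.y2 K.b2 B2 C2
  i3 : B3 ≠ C3 → BI G X (Ys K.y1 K.y2 K.y3 K.y4) K.y3 K.b3 B3 C3
  i4 : B4 ≠ C4 → BI G X (Ys K.y1 K.y2 K.y3 K.y4) K.y4 K.b4 B4 C4

theorem ys_sw1 {y1 y2 y3 y4 : V} : Ys y2 y1 y4 y3 = Ys y1 y2 y3 y4 := by
  funext x
  unfold Ys
  exact propext (by tauto)

theorem ys_sw2 {y1 y2 y3 y4 : V} : Ys y3 y4 y1 y2 = Ys y1 y2 y3 y4 := by
  funext x
  unfold Ys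
  exact propext (by tauto)

theorem ys_p1 {y1 y2 y3 y4 x : V} (h : Ys y2 y1 y4 y3 x) : Ys y3 y4 y1 y2 x := by
  rcases h with h | h | h | h
  · exact Or.inr (Or.inr (Or.inr h))
  · exact Or.inr (Or.inr (Or.inl h))
  · exact Or.inr (Or.inl h)
  · exact Or.inl h

theorem ys_p2 {y1 y2 y3 y4 x : V} (h : Ys y1 y2 y3 y4 x) : Ys y4 y3 y2 y1 x := by
  rcases h with h | h | h | h
  · exact Or.inr (Or.inr (Or.inr h))
  · exact Or.inr (Or.inr (Or.inl h))
  · exact Or.inr (Or.inl h)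
  · exact Or.inl h

theorem Good.out (hX : NoMono G X) (h : Good G X K) (hXt : X K.t) :
    ∃ B1 B2 B3 B4 C1 C2 C3 C4, Out G X K B1 B2 B3 B4 C1 C2 C3 C4 := by
  obtain ⟨B1, C1, B4, C4, ⟨xB1, xC1, xB4, xC4⟩, cd1, cd4, e14, i1, i4⟩ :=
    h.fr.pair14 hX h.own_t h.own_s
  obtain ⟨B2, C2, B3, C3, ⟨xB2, xC2, xB3, xC3⟩, cd2, cd3, e23, i2, i3⟩ :=
    h.sw1.fr.pair14 hX h.sw1.own_t h.sw1.own_s
  have Y1 : ¬ X K.y1 := fun hh => h.fr.Y1 (iff_of_true hh hXt)
  have Y2 : ¬ X K.y2 := fun hh => h.fr.Y2 (iff_of_true hh hXt)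
  have Y3 : ¬ X K.y3 := fun hh => h.fr.Y3 (iff_of_true hh hXt)
  have Y4 : ¬ X K.y4 := fun hh => h.fr.Y4 (iff_of_true hh hXt)
  have Xt' : X K.t' := h.fr.Xt'.mpr hXt
  have Xs : X K.s := h.fr.Xs.mpr hXt
  have Xs' : X K.s' := h.fr.Xs'.mpr hXt
  have Xo : X (K.r.fst K.t') := h.own_t.mpr hXt
  have Xo' : X (K.r.lst K.t) := (h.rt.side' h.fr.Xt').mpr hXt
  have Xp : X (K.r'.fst K.s') := h.own_s.mpr hXt
  have Xp' : X (K.r'.lst K.s) := (h.rs.side' (h.fr.Xs'.trans h.fr.Xs.symm)).mpr Xs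
  have Xb1 : ¬ X K.b1 := fun hh => Y1 ((h.fr.sb1 hX).mp hh)
  have Xb4 : ¬ X K.b4 := fun hh => Y4 ((h.fr.sb4 hX).mp hh)
  have Xb2 : ¬ X K.b2 := fun hh => Y2 ((h.sw1.fr.sb1 hX).mp hh)
  have Xb3 : ¬ X K.b3 := fun hh => Y3 ((h.sw1.fr.sb4 hX).mp hh)
  refine ⟨B1, B2, B3, B4, C1, C2, C3, C4, ⟨?_, e14, e23, i1, ?_, ?_, i4⟩⟩
  · exact {
      Xt := hXt, Xt' := Xt', Xs := Xs, Xs' := Xs', Y1 := Y1, Y2 := Y2, Y3 := Y3, Y4 := Y4
      B1 := fun hh => Y1 (xB1.mp hh)
      B2 := fun hh => Y2 (xB2.mp hh)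
      B3 := fun hh => Y3 (xB3.mp hh)
      B4 := fun hh => Y4 (xB4.mp hh)
      C1 := fun hh => Y1 (xC1.mp hh)
      C2 := fun hh => Y2 (xC2.mp hh)
      C3 := fun hh => Y3 (xC3.mp hh)
      C4 := fun hh => Y4 (xC4.mp hh)
      tt := h.fr.tt, ts := h.fr.n1.ab, ts' := h.fr.n2.ab, t's := h.fr.n3.ab, t's' := h.fr.n4.ab
      ss := h.fr.ss
      y12 := h.fr.nt.ab, y13 := h.fr.ns.ab, y14 := h.fr.y14, y23 := h.fr.y23
      y24 := h.fr.ns'.ab, y34 := h.fr.nt'.ab
      qt := fun x hx => h.qt hX hx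
      qt' := fun x hx => by
        rcases h.sw2.qt hX hx with h1 | h1 | h1 | h1
        · exact Or.inl h1
        · exact Or.inr (Or.inl h1)
        · exact Or.inr (Or.inr (Or.inl h1))
        · exact Or.inr (Or.inr (Or.inr ((Rn.M_rev _ _).mp h1)))
      qs := fun x hx => by
        rcases h.sw3.qt hX hx with h1 | h1 | h1 | h1
        · exact Or.inl h1
        · exact Or.inr (Or.inl h1)
        · exact Or.inr (Or.inr (Or.inl h1))
        · exact Or.inr (Or.inr (Or.inr h1))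
      qs' := fun x hx => by
        rcases h.sw3.sw2.qt hX hx with h1 | h1 | h1 | h1
        · exact Or.inl h1
        · exact Or.inr (Or.inl h1)
        · exact Or.inr (Or.inr (Or.inl h1))
        · exact Or.inr (Or.inr (Or.inr ((Rn.M_rev _ _).mp h1)))
      qy1 := fun x hx => h.qy1 hX cd1 hx
      qy2 := fun x hx => by
        rcases h.sw1.qy1 hX cd2 hx with h1 | h1 | h1 | h1
        · exact Or.inl h1
        · exact Or.inr (Or.inl h1)
        · exact Or.inr (Or.inr (Or.inl h1))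
        · exact Or.inr (Or.inr (Or.inr ⟨h1.1, h1.2.2.1, h1.2.1, h1.2.2.2.2, h1.2.2.2.1⟩))
      qy3 := fun x hx => by
        rcases h.sw2.qy1 hX (B := B3) (C := C3) (fun x hx => by
          rcases cd3 x hx with h1 | h1
          · exact Or.inl (ys_p1 h1)
          · exact Or.inr h1) hx with h1 | h1 | h1 | h1
        · exact Or.inr (Or.inl h1)
        · exact Or.inl h1
        · exact Or.inr (Or.inr (Or.inl ⟨h1.1, qadj_symm h1.2⟩))
        · exact Or.inr (Or.inr (Or.inr ⟨h1.1, h1.2.2.2.1, h1.2.2.2.2, h1.2.1, h1.2.2.1⟩))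
      qy4 := fun x hx => by
        rcases h.sw1.sw2.qy1 hX (B := B4) (C := C4) (fun x hx => by
          rcases cd4 x hx with h1 | h1
          · exact Or.inl (ys_p2 h1)
          · exact Or.inr h1) hx with h1 | h1 | h1 | h1
        · exact Or.inr (Or.inl h1)
        · exact Or.inl h1
        · exact Or.inr (Or.inr (Or.inl ⟨h1.1, qadj_symm h1.2⟩))
        · exact Or.inr (Or.inr (Or.inr ⟨h1.1, h1.2.2.2.2, h1.2.2.2.1, h1.2.2.1, h1.2.1⟩))
      ct := fun x hx hXx => by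
        rcases h.fr.nt.all x hx with h1 | h1 | h1
        · exact Or.inl h1
        · exact Or.inr h1
        · exact absurd (by rw [h1]; exact Xo) hXx
      ct' := fun x hx hXx => by
        rcases h.fr.nt'.all x hx with h1 | h1 | h1
        · exact Or.inl h1
        · exact Or.inr h1
        · exact absurd (by rw [h1]; exact Xo') hXx
      cs := fun x hx hXx => by
        rcases h.fr.ns.all x hx with h1 | h1 | h1
        · exact Or.inl h1
        · exact Or.inr h1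
        · exact absurd (by rw [h1]; exact Xp) hXx
      cs' := fun x hx hXx => by
        rcases h.fr.ns'.all x hx with h1 | h1 | h1
        · exact Or.inl h1
        · exact Or.inr h1
        · exact absurd (by rw [h1]; exact Xp') hXx
      cy1 := fun x hx hXx => by
        rcases h.fr.n1.all x hx with h1 | h1 | h1
        · exact Or.inl h1
        · exact Or.inr h1
        · exact absurd hXx (by rw [h1]; exact Xb1)
      cy2 := fun x hx hXx => by
        rcases h.fr.n2.all x hx with h1 | h1 | h1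
        · exact Or.inl h1
        · exact Or.inr h1
        · exact absurd hXx (by rw [h1]; exact Xb2)
      cy3 := fun x hx hXx => by
        rcases h.fr.n3.all x hx with h1 | h1 | h1
        · exact Or.inl h1
        · exact Or.inr h1
        · exact absurd hXx (by rw [h1]; exact Xb3)
      cy4 := fun x hx hXx => by
        rcases h.fr.n4.all x hx with h1 | h1 | h1
        · exact Or.inl h1
        · exact Or.inr h1
        · exact absurd hXx (by rw [h1]; exact Xb4) }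
  · intro hh
    have := i2 hh
    rw [← ys_sw1]
    exact this
  · intro hh
    have := i3 hh
    rw [← ys_sw1]
    exact this

/-- what `t` sees -/
theorem Good.near_t (h : Good G X K) {x : V} (hn : near G K.t x) :
    x = K.y1 ∨ x = K.y2 ∨ x = K.r.fst K.t' ∨ x = K.s ∨ x = K.s' ∨ x = K.b1 ∨ x = K.b2 ∨
      G.Adj (K.r.fst K.t') x := by
  obtain ⟨hne, hadj | ⟨w, hw1, hw2⟩⟩ := hn
  · rcases h.fr.nt.all x hadj with h1 | h1 | h1
    · exact Or.inl h1
    · exact Or.inr (Or.inl h1)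
    · exact Or.inr (Or.inr (Or.inl h1))
  · rcases h.fr.nt.all w hw1 with h1 | h1 | h1
    · rw [h1] at hw2
      rcases h.fr.n1.all x hw2 with h2 | h2 | h2
      · exact absurd h2.symm hne
      · exact Or.inr (Or.inr (Or.inr (Or.inl h2)))
      · exact Or.inr (Or.inr (Or.inr (Or.inr (Or.inr (Or.inl h2)))))
    · rw [h1] at hw2
      rcases h.fr.n2.all x hw2 with h2 | h2 | h2
      · exact absurd h2.symm hne
      · exact Or.inr (Or.inr (Or.inr (Or.inr (Or.inl h2))))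
      · exact Or.inr (Or.inr (Or.inr (Or.inr (Or.inr (Or.inr (Or.inl h2))))))
    · rw [h1] at hw2
      exact Or.inr (Or.inr (Or.inr (Or.inr (Or.inr (Or.inr (Or.inr hw2))))))

end Pool.Agent.helper58.L9
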