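import Pool.Agent.helper58.L9.KgSix
import Pool.Agent.helper58.L9.KgLists

/-!
# The labels of the middles
-/

set_option autoImplicit false
set_option linter.unusedSectionVars false
set_option linter.unusedVariables false

namespace Pool.Agent.helper58.L9

open Finset Classical Helper33.L9
open Helper42.L9 hiding near
open K4

variable {V : Type*} [Fintype V] {G : SimpleGraph V} {X : V → Prop} {K : Cfg V}
  {L E : V → Prop} {f : V → ℕ}

/-- the choice of labels for the middles -/
structure Sel (G : SimpleGraph V) (X : V → Prop) (K : Cfg V) (L E : V → Prop) (f : V → ℕ)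
    (zz : ℕ) (l1 l2 : List ℕ) : Prop where
  kn : (zz, l1, l2) ∈ knd
  c1 : (l1 = [] ∧ K.r = Rn.two) ∨ (l1 ≠ [] ∧ ∃ u, K.r = Rn.three u)
  c2 : (l2 = [] ∧ K.r' = Rn.two) ∨ (l2 ≠ [] ∧ ∃ v, K.r' = Rn.three v)
  lab : ∀ U W : ℕ, (l1 ≠ [] → U ∈ l1) → (l2 ≠ [] → W ∈ l2) → ∃ f2 : V → ℕ,
    (∀ x, ¬ K.r.M x → ¬ K.r'.M x → f2 x = f x) ∧ (∀ x, K.r.M x → f2 x = U) ∧
    (∀ x, K.r'.M x → f2 x = W) ∧ StG G X (fun x => L x ∨ K.r.M x ∨ K.r'.M x) E f2
  z : zz ≠ 21 → ∃ u z, K.r = Rn.three u ∧ Nb G u K.t K.t' z ∧ ¬ X z ∧ L z ∧ f z = zz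

/-- the middle of the second rung -/
theorem Good.mid' (hX : NoMono G X) (h : Good G X K) (hXt : X K.t) {v : V}
    (hr' : K.r' = Rn.three v) : X v ∧ ∃ z, Nb G v K.s K.s' z ∧ ¬ X z ∧
      ∃ w, Mid G.Adj (qadj G X) X K.s K.s' v z w := by
  have rs := h.rs
  have n1 := h.fr.ns
  have n2 := h.fr.ns'
  rw [hr'] at rs n1 n2
  simp only [Rung, Rn.fst, Rn.lst] at rs n1 n2
  obtain ⟨hvs, z, hz⟩ := rs
  have Xs : X K.s := h.fr.Xs.mpr hXt
  have Xs' : X K.s' := h.fr.Xs'.mpr hXt
  have Xv : X v := hvs.mpr Xs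
  obtain ⟨h1, w, hm⟩ := mid_of hX (o := v) (o' := v) Xv Xs Xs' hz n1 n2
    (fun hh => h.fr.Y1 (iff_of_true hh hXt)) (fun hh => h.fr.Y3 (iff_of_true hh hXt))
    (fun hh => h.fr.Y2 (iff_of_true hh hXt)) (fun hh => h.fr.Y4 (iff_of_true hh hXt))
  exact ⟨Xv, z, hz, h1, w, hm⟩

theorem Good.mid (hX : NoMono G X) (h : Good G X K) (hXt : X K.t) {u : V}
    (hr : K.r = Rn.three u) : X u ∧ ∃ z, Nb G u K.t K.t' z ∧ ¬ X z ∧
      ∃ w, Mid G.Adj (qadj G X) X K.t K.t' u z w :=
  h.sw3.mid' hX (K := K.sw3) (h.fr.Xs.mpr hXt) hr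

/-- the label of the cross neighbour of an unlabelled middle -/
theorem lab_z {u z : V} (st : StG G X L E f) (hn : ∀ v, ¬ L v → f v = 100) (hu : ¬ L u)
    (hz : G.Adj u z) (hXz : ¬ X z) : f z ∈ odds ∨ f z = 100 := by
  by_cases hL : L z
  · left
    have hE : ¬ E z := fun hE => hu (st.inv z u hE ⟨hz.ne', Or.inl hz.symm⟩)
    have h1 := st.par.le z ⟨hL, hE⟩
    have h2 := st.par.par z ⟨hL, hE⟩
    rw [mem_odds]
    have h3 : ¬ Even (f z) := fun hh => hXz (h2.mpr hh)
    rw [Nat.not_even_iff] at h3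
    exact ⟨h3, h1⟩
  · exact Or.inr (hn z hL)

/-- **The choice exists.** -/
theorem Good.sel (hX : NoMono G X) (hcub : ∀ v, (univ.filter fun b => G.Adj v b).card = 3)
    (h : Good G X K) (hXt : X K.t)
    (hr : (K.r = Rn.two ∧ (K.r' = Rn.two ∨ ∃ v, K.r' = Rn.three v)) ∨
      ((∃ u, K.r = Rn.three u) ∧ ∃ v, K.r' = Rn.three v))
    (hL : ∀ v, K.Lam v → ¬ L v) (st : StG G X L E f) (hn : ∀ v, ¬ L v → f v = 100) :
    ∃ zz l1 l2, Sel G X K L E f zz l1 l2 := by
  rcases hr with ⟨hr, hr' | ⟨v, hr'⟩⟩ | ⟨⟨u, hr⟩, v, hr'⟩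
  · refine ⟨21, [], [], by decide +kernel, Or.inl ⟨rfl, hr⟩, Or.inl ⟨rfl, hr'⟩, ?_,
      fun hh => absurd rfl hh⟩
    intro U W _ _
    rw [hr, hr']
    refine ⟨f, fun _ _ _ => rfl, fun _ hx => hx.elim, fun _ hx => hx.elim,
      st.congr (fun x => ?_) (fun x => Iff.rfl)⟩
    simp [Rn.M]
  · obtain ⟨Xv, z, hz, Xz, w, hm⟩ := h.mid' hX hXt hr'
    obtain ⟨a, ha, _⟩ := adm_ex (f z) (f w) 0
    have hv : K.Lam v := Or.inr (Or.inr (by rw [hr']; rfl))
    refine ⟨21, [], [a], one_knd a ?_, Or.inl ⟨rfl, hr⟩, Or.inr ⟨by simp, v, hr'⟩, ?_,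
      fun hh => absurd rfl hh⟩
    · have h1 := ha.1
      have h2 := ha.2.1
      simp only [List.mem_cons, List.not_mem_nil, or_false]
      omega
    · intro U W _ hW
      have hW' : W = a := by simpa using hW (by simp)
      subst hW'
      obtain ⟨f1, f1v, f1x, st1⟩ := hm.add (relG (X := X)) qadj_irr st (hL v hv)
        (hL _ K.lam_s) (hL _ K.lam_s') ha
      rw [hr, hr']
      refine ⟨f1, fun x _ hx => f1x x hx, fun _ hx => hx.elim, ?_,
        st1.congr (fun x => ?_) (fun x => Iff.rfl)⟩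
      · intro x hx
        simp only [Rn.M] at hx
        rw [hx]
        exact f1v
      · simp [Rn.M]
  · obtain ⟨Xv, z', hz', Xz', w', hm'⟩ := h.mid' hX hXt hr'
    obtain ⟨Xu, z, hz, Xz, w, hm⟩ := h.mid hX hXt hr
    have hu : K.Lam u := Or.inr (Or.inl (by rw [hr]; rfl))
    have hv : K.Lam v := Or.inr (Or.inr (by rw [hr']; rfl))
    have hui : K.r.inn u := by rw [hr]; rfl
    have hvi : K.r'.inn v := by rw [hr']; rfl
    have huv : u ≠ v := by
      rintro rfl
      exact h.inn_inn hX hcub hui hvi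
    have hv8 := h.inn_r8' hX hcub hvi
    have oz := lab_z st hn (hL u hu) hz.hc Xz
    have oz' := lab_z st hn (hL v hv) hz'.hc Xz'
    -- labelling
    have labm : ∀ {w w' : V}, Mid G.Adj (qadj G X) X K.t K.t' u z w →
        Mid G.Adj (qadj G X) X K.s K.s' v z' w' → ∀ U W : ℕ, Adm (f z') (f w') W →
        Adm (f z) (if w = v then W else f w) U → ∃ f2 : V → ℕ,
        (∀ x, ¬ K.r.M x → ¬ K.r'.M x → f2 x = f x) ∧ (∀ x, K.r.M x → f2 x = U) ∧
        (∀ x, K.r'.M x → f2 x = W) ∧ StG G X (fun x => L x ∨ K.r.M x ∨ K.r'.M x) E f2 := by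
      intro w w' hm hm' U W hW hU
      obtain ⟨f1, f1v, f1x, st1⟩ := hm'.add (relG (X := X)) qadj_irr st (hL v hv)
        (hL _ K.lam_s) (hL _ K.lam_s') hW
      have tv : ∀ x, x = K.t ∨ x = K.t' → ¬ (L x ∨ x = v) := by
        rintro x (rfl | rfl) (h1 | h1)
        · exact hL _ K.lam_t h1
        · exact hv8 (Or.inl h1.symm)
        · exact hL _ K.lam_t' h1
        · exact hv8 (Or.inr (Or.inl h1.symm))
      have huL : ¬ (L u ∨ u = v) := by
        rintro (h1 | h1)
        · exact hL u hu h1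
        · exact huv h1
      have hzv : z ≠ v := fun hh => Xz (hh ▸ Xv)
      have hU' : Adm (f1 z) (f1 w) U := by
        rw [f1x z hzv]
        by_cases hw : w = v
        · rw [if_pos hw] at hU
          rw [hw, f1v]
          exact hU
        · rw [if_neg hw] at hU
          rw [f1x w hw]
          exact hU
      obtain ⟨f2, f2u, f2x, st2⟩ := hm.add (relG (X := X)) qadj_irr st1 huL (tv _ (Or.inl rfl))
        (tv _ (Or.inr rfl)) hU'
      rw [hr, hr']
      refine ⟨f2, ?_, ?_, ?_, st2.congr (fun x => ?_) (fun x => Iff.rfl)⟩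
      · intro x h1 h2
        rw [f2x x h1, f1x x h2]
      · intro x hx
        simp only [Rn.M] at hx
        rw [hx]
        exact f2u
      · intro x hx
        simp only [Rn.M] at hx
        rw [hx, f2x v huv.symm]
        exact f1v
      · simp only [Rn.M]
        tauto
    by_cases hq : qadj G X u v
    · -- linked
      have hzz : z = z' := by
        obtain ⟨_, _, h1 | ⟨x, h1, h2⟩⟩ := hq
        · rcases hz.all v h1 with h2 | h2 | h2
          · exact absurd (Or.inl h2) hv8
          · exact absurd (Or.inr (Or.inl h2)) hv8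
          · exact absurd Xv (by rw [h2]; exact Xz)
        · have h3 : x = z' := by
            rcases hz'.all x h2.symm with h3 | h3 | h3
            · exfalso
              rw [h3] at h1
              rcases hz.all K.s h1 with h4 | h4 | h4
              · exact h.fr.n1.ab h4.symm
              · exact h.fr.n3.ab h4.symm
              · exact Xz (by rw [← h4]; exact h.fr.Xs.mpr hXt)
            · exfalso
              rw [h3] at h1
              rcases hz.all K.s' h1 with h4 | h4 | h4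
              · exact h.fr.n2.ab h4.symm
              · exact h.fr.n4.ab h4.symm
              · exact Xz (by rw [← h4]; exact h.fr.Xs'.mpr hXt)
            · exact h3
          rw [h3] at h1
          rcases hz.all z' h1 with h4 | h4 | h4
          · exact absurd (by rw [h4]; exact hXt) Xz'
          · exact absurd (by rw [h4]; exact h.fr.Xt'.mpr hXt) Xz'
          · exact h4.symm
      subst hzz
      -- the neighbours of `z` on the side of `u`
      have huniq : ∀ x, G.Adj z x → X x → x = u ∨ x = v := by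
        intro x h1 h2
        by_contra hcon
        rw [not_or] at hcon
        exact hX z u v x hz.hc.symm hz'.hc.symm h1 huv (Ne.symm hcon.1) (Ne.symm hcon.2)
          ⟨iff_of_true Xu Xv, iff_of_true Xu h2⟩
      obtain ⟨l, l', hk, ⟨hl, hl'⟩, a1, a2⟩ := sel_link (f z) oz
      have hmu : Mid G.Adj (qadj G X) X K.t K.t' u z v := by
        refine ⟨Xu, ?_, hm.c⟩
        intro x hx
        by_cases hxt : x = K.t ∨ x = K.t'
        · rcases hxt with h1 | h1
          · exact Or.inl h1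
          · exact Or.inr (Or.inl h1)
        · right
          right
          rcases hm.q x hx with h1 | h1 | h1
          · exact absurd (Or.inl h1) hxt
          · exact absurd (Or.inr h1) hxt
          · rcases hm.q v hq with h2 | h2 | h2
            · exact absurd (Or.inl h2) hv8
            · exact absurd (Or.inr (Or.inl h2)) hv8
            · rw [h1, h2]
      have hu8 := h.inn_r8 hX hcub hui
      have hmv : Mid G.Adj (qadj G X) X K.s K.s' v z u := by
        refine ⟨Xv, ?_, hm'.c⟩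
        intro x hx
        by_cases hxt : x = K.s ∨ x = K.s'
        · rcases hxt with h1 | h1
          · exact Or.inl h1
          · exact Or.inr (Or.inl h1)
        · right
          right
          rcases hm'.q x hx with h1 | h1 | h1
          · exact absurd (Or.inl h1) hxt
          · exact absurd (Or.inr h1) hxt
          · rcases hm'.q u (qadj_symm hq) with h2 | h2 | h2
            · exact absurd (Or.inr (Or.inr (Or.inl h2))) hu8
            · exact absurd (Or.inr (Or.inr (Or.inr (Or.inl h2)))) hu8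
            · rw [h1, h2]
      refine ⟨21, l, l', hk, Or.inr ⟨hl, u, hr⟩, Or.inr ⟨hl', v, hr'⟩, ?_,
        fun hh => absurd rfl hh⟩
      intro U W hU hW
      refine labm hmu hmv U W ?_ ?_
      · rw [hn u (hL u hu)]
        exact a1 W (hW hl')
      · rw [if_pos rfl]
        exact a2 U (hU hl) W (hW hl')
    · -- not linked
      have hmu : ∃ w, Mid G.Adj (qadj G X) X K.t K.t' u z w ∧ w ≠ v := by
        by_cases hw : w = v
        · refine ⟨u, ⟨Xu, ?_, hm.c⟩, huv⟩
          intro x hx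
          rcases hm.q x hx with h1 | h1 | h1
          · exact Or.inl h1
          · exact Or.inr (Or.inl h1)
          · exact absurd (by rw [h1, hw] at hx; exact hx) hq
        · exact ⟨w, hm, hw⟩
      obtain ⟨w1, hmu, hw1⟩ := hmu
      obtain ⟨l, hl, l1, l2, l3, l4⟩ := sel_list (f z) (f w1) oz
      obtain ⟨l', hl', l1', _⟩ := sel_list (f z') (f w') oz'
      have hlab : ∀ U W : ℕ, (l ≠ [] → U ∈ l) → (l' ≠ [] → W ∈ l') → ∃ f2 : V → ℕ,
        (∀ x, ¬ K.r.M x → ¬ K.r'.M x → f2 x = f x) ∧ (∀ x, K.r.M x → f2 x = U) ∧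
        (∀ x, K.r'.M x → f2 x = W) ∧ StG G X (fun x => L x ∨ K.r.M x ∨ K.r'.M x) E f2 := by
        intro U W hU hW
        refine labm hmu hm' U W (l1' W (hW (ls_ne l' hl'))) ?_
        rw [if_neg hw1]
        exact l1 U (hU (ls_ne l hl))
      have hc1 : (l = [] ∧ K.r = Rn.two) ∨ (l ≠ [] ∧ ∃ u, K.r = Rn.three u) :=
        Or.inr ⟨ls_ne l hl, u, hr⟩
      have hc2 : (l' = [] ∧ K.r' = Rn.two) ∨ (l' ≠ [] ∧ ∃ v, K.r' = Rn.three v) :=
        Or.inr ⟨ls_ne l' hl', v, hr'⟩
      obtain ⟨k1, k2, k3, k4, _⟩ := eq_knd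
      have hLz : f z ≠ 100 → L z := by
        intro hh
        by_contra hnl
        exact hh (hn z hnl)
      rcases ls_knd l hl l' hl' with hk | ⟨he, hk | hk | hk⟩
      · exact ⟨21, l, l', hk, hc1, hc2, hlab, fun hh => absurd rfl hh⟩
      · have e := l2 hk
        refine ⟨7, l, l', ?_, hc1, hc2, hlab, fun _ => ⟨u, z, hr, hz, Xz, hLz (by omega), e⟩⟩
        rw [← he, hk]
        exact k1
      · have e := l3 hk
        refine ⟨1, l, l', ?_, hc1, hc2, hlab, fun _ => ⟨u, z, hr, hz, Xz, hLz (by omega), e⟩⟩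
        rw [← he, hk]
        exact k2
      · rcases l4 hk with e | e
        · refine ⟨1, l, l', ?_, hc1, hc2, hlab, fun _ => ⟨u, z, hr, hz, Xz, hLz (by omega), e⟩⟩
          rw [← he, hk]
          exact k3
        · refine ⟨3, l, l', ?_, hc1, hc2, hlab, fun _ => ⟨u, z, hr, hz, Xz, hLz (by omega), e⟩⟩
          rw [← he, hk]
          exact k4

end Pool.Agent.helper58.L9
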