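import Pool.Agent.helper17.L9.Off

/-!
# K4 configurations off a set of roots

`GW G X D K`: a configuration with `OffW G X D` (monochromatic neighbourhoods only at the vertices
of `D`, all of whose neighbours are on their side) such that the vertices `b_i` and the middles of
the rungs are not in `D`.
-/

set_option autoImplicit false
set_option linter.unusedSectionVars false
set_option linter.unusedVariables false

namespace Pool.Agent.helper58.L9

open Finset Classical Helper33.L9 Helper17.L9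
open Helper42.L9 hiding near

variable {V : Type*} [Fintype V] {G : SimpleGraph V} {X D : V → Prop}

section Fr

variable {t t' s s' y1 y2 y3 y4 o o' p p' b1 b2 b3 b4 : V}

/-- the neighbourhood of `y1` -/
theorem Fr.nm1 (hW : OffW G X D) (h : Fr G X t t' s s' y1 y2 y3 y4 o o' p p' b1 b2 b3 b4) :
    NMAt G X y1 := hW.crs h.n1.ha (fun hh => h.Y1 hh.symm)

theorem Fr.nm4 (hW : OffW G X D) (h : Fr G X t t' s s' y1 y2 y3 y4 o o' p p' b1 b2 b3 b4) :
    NMAt G X y4 := hW.crs h.n4.ha (fun hh => h.Y4 (hh.symm.trans h.Xt'))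

/-- the `Q`-neighbours of `y1` -/
theorem Fr.q1W (hW : OffW G X D) (h : Fr G X t t' s s' y1 y2 y3 y4 o o' p p' b1 b2 b3 b4)
    {x : V} (hq : qadj G X y1 x) (ho : X o ↔ X t) (hp : X p ↔ X t) :
    x = y2 ∨ x = y3 ∨ Cd G X y1 b1 x := by
  obtain ⟨hs, hne, hadj | ⟨w, hw1, hw2⟩⟩ := hq
  · rcases h.n1.all x hadj with rfl | rfl | rfl
    · exact absurd hs h.Y1
    · exact absurd (hs.trans h.Xs) h.Y1
    · exact Or.inr (Or.inr (Or.inl rfl))
  · rcases h.n1.all w hw1 with rfl | rfl | rfl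
    · rcases h.nt.all x hw2 with rfl | rfl | rfl
      · exact absurd rfl hne
      · exact Or.inl rfl
      · exact absurd (hs.trans ho) h.Y1
    · rcases h.ns.all x hw2 with rfl | rfl | rfl
      · exact absurd rfl hne
      · exact Or.inr (Or.inl rfl)
      · exact absurd (hs.trans hp) h.Y1
    · exact Or.inr (Or.inr (Or.inr ⟨hw2, hs.symm.trans
        (iff_of_ne_iff h.Y1 (side_at (h.nm1 hW) h.n1 h.Xs.symm)), hne.symm⟩))

/-- own neighbours of the `y`'s are on their side -/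
theorem Fr.sb1W (hW : OffW G X D) (h : Fr G X t t' s s' y1 y2 y3 y4 o o' p p' b1 b2 b3 b4) :
    X b1 ↔ X y1 := iff_of_ne_iff (side_at (h.nm1 hW) h.n1 h.Xs.symm) h.Y1

theorem Fr.sb4W (hW : OffW G X D) (h : Fr G X t t' s s' y1 y2 y3 y4 o o' p p' b1 b2 b3 b4) :
    X b4 ↔ X y4 :=
  iff_of_ne_iff (side_at (h.nm4 hW) h.n4 (h.Xt'.trans h.Xs'.symm)) (fun hh => h.Y4 (hh.trans h.Xt'))

/-- reduction of the candidates of one vertex -/
theorem oneBCW {y b : V} (hX : NMAt G X b) {Y : V → Prop} (hb : X b ↔ X y) (hyb : G.Adj y b)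
    (hY : Y y) :
    ∃ B C : V, (X B ↔ X y) ∧ (X C ↔ X y) ∧ (∀ x, Cd G X y b x → Y x ∨ x = B ∨ x = C) ∧
      (B ≠ C → BI G X Y y b B C) := by
  have huniq : ∀ c x, G.Adj b c → (X c ↔ X b) → c ≠ y → G.Adj b x → (X x ↔ X b) → x ≠ y →
      x = c := by
    intro c x h1 h2 h3 h4 h5 h6
    by_contra hne
    exact hX y c x hyb.symm h1 h4 h3.symm h6.symm (Ne.symm hne)
      ⟨hb.symm.trans h2.symm, hb.symm.trans h5.symm⟩
  by_cases hc : ∃ c, G.Adj b c ∧ (X c ↔ X b) ∧ c ≠ y
  · obtain ⟨c, c1, c2, c3⟩ := hc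
    by_cases hYb : Y b
    · refine ⟨c, c, c2.trans hb, c2.trans hb, ?_, fun h => absurd rfl h⟩
      rintro x (rfl | ⟨h1, h2, h3⟩)
      · exact Or.inl hYb
      · exact Or.inr (Or.inl (huniq c x c1 c2 c3 h1 h2 h3))
    · by_cases hYc : Y c
      · refine ⟨b, b, hb, hb, ?_, fun h => absurd rfl h⟩
        rintro x (rfl | ⟨h1, h2, h3⟩)
        · exact Or.inr (Or.inl rfl)
        · left
          rw [huniq c x c1 c2 c3 h1 h2 h3]
          exact hYc
      · refine ⟨b, c, hb, c2.trans hb, ?_, fun _ => ⟨rfl, hYb, c1, c2, c3, hYc⟩⟩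
        rintro x (rfl | ⟨h1, h2, h3⟩)
        · exact Or.inr (Or.inl rfl)
        · exact Or.inr (Or.inr (huniq c x c1 c2 c3 h1 h2 h3))
  · push Not at hc
    refine ⟨b, b, hb, hb, ?_, fun h => absurd rfl h⟩
    rintro x (rfl | ⟨h1, h2, h3⟩)
    · exact Or.inr (Or.inl rfl)
    · exact absurd (hc x h1 h2) h3

/-- the pair `y1`, `y4` -/
theorem Fr.pair14W (hW : OffW G X D) (h : Fr G X t t' s s' y1 y2 y3 y4 o o' p p' b1 b2 b3 b4)
    (d1 : ¬ D b1) (d4 : ¬ D b4) (ho : X o ↔ X t) (hp : X p ↔ X t) :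
    ∃ B1 C1 B4 C4 : V, ((X B1 ↔ X y1) ∧ (X C1 ↔ X y1) ∧ (X B4 ↔ X y4) ∧ (X C4 ↔ X y4)) ∧
      (∀ x, Cd G X y1 b1 x → Ys y1 y2 y3 y4 x ∨ x = B1 ∨ x = C1) ∧
      (∀ x, Cd G X y4 b4 x → Ys y1 y2 y3 y4 x ∨ x = B4 ∨ x = C4) ∧
      (qadj G X y1 y4 → B1 = C1 ∧ B4 = C4 ∧ B1 = B4) ∧
      (B1 ≠ C1 → BI G X (Ys y1 y2 y3 y4) y1 b1 B1 C1) ∧
      (B4 ≠ C4 → BI G X (Ys y1 y2 y3 y4) y4 b4 B4 C4) := by
  have hb1 := h.sb1W hW
  have hb4 := h.sb4W hW
  have hYt' : ¬ (X y1 ↔ X t') := fun hh => h.Y1 (hh.trans h.Xt')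
  have hYs' : ¬ (X y1 ↔ X s') := fun hh => h.Y1 (hh.trans h.Xs')
  have hY4t' : ¬ (X y4 ↔ X t') := fun hh => h.Y4 (hh.trans h.Xt')
  have hY4s' : ¬ (X y4 ↔ X s') := fun hh => h.Y4 (hh.trans h.Xs')
  have h14 : X y4 ↔ X y1 := iff_of_ne_iff h.Y4 h.Y1
  by_cases hq : qadj G X y1 y4
  · rcases h.q1W hW hq ho hp with h1 | h1 | h1 | ⟨h1, h2, h3⟩
    · exact absurd h1.symm h.ns'.ab
    · exact absurd h1.symm h.nt'.ab
    · -- adjacent
      have e : b4 = y1 := by
        have hadj : G.Adj y4 y1 := by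
          rw [h1]
          exact h.n1.hc.symm
        rcases h.n4.all y1 hadj with h2 | h2 | h2
        · exact absurd (by rw [h2]) hYt'
        · exact absurd (by rw [h2]) hYs'
        · exact h2.symm
      refine ⟨y1, y1, y1, y1, ⟨Iff.rfl, Iff.rfl, h14.symm, h14.symm⟩, ?_, ?_,
        fun _ => ⟨rfl, rfl, rfl⟩, fun hh => absurd rfl hh, fun hh => absurd rfl hh⟩
      · rintro x (rfl | ⟨h2, h3, h4⟩)
        · exact Or.inl (Or.inr (Or.inr (Or.inr h1.symm)))
        · exfalso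
          rw [← h1] at h2 h3
          rcases h.n4.all x h2 with rfl | rfl | rfl
          · exact hY4t' h3.symm
          · exact hY4s' h3.symm
          · exact h4 e
      · rintro x (rfl | ⟨h2, h3, h4⟩)
        · exact Or.inr (Or.inl e)
        · exfalso
          rw [e] at h2 h3
          rcases h.n1.all x h2 with rfl | rfl | rfl
          · exact h.Y1 h3.symm
          · exact h.Y1 (h3.symm.trans h.Xs)
          · exact h4 h1.symm
    · -- a common neighbour
      have e : b4 = b1 := by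
        rcases h.n4.all b1 h1.symm with h4 | h4 | h4
        · exact absurd (hb1.symm.trans (by rw [h4])) hYt'
        · exact absurd (hb1.symm.trans (by rw [h4])) hYs'
        · exact h4.symm
      have huniq : ∀ x, G.Adj b1 x → (X x ↔ X b1) → x = y1 ∨ x = y4 := by
        intro x h4 h5
        by_contra hcon
        rw [not_or] at hcon
        exact hW.off b1 d1 y1 y4 x h.n1.hc.symm h1 h4 h.y14 (Ne.symm hcon.1) (Ne.symm hcon.2)
          ⟨h14.symm, hb1.symm.trans h5.symm⟩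
      refine ⟨b1, b1, b1, b1, ⟨hb1, hb1, hb1.trans h14.symm, hb1.trans h14.symm⟩, ?_, ?_,
        fun _ => ⟨rfl, rfl, rfl⟩, fun hh => absurd rfl hh, fun hh => absurd rfl hh⟩
      · rintro x (rfl | ⟨h4, h5, h6⟩)
        · exact Or.inr (Or.inl rfl)
        · rcases huniq x h4 h5 with h7 | h7
          · exact absurd h7 h6
          · exact Or.inl (Or.inr (Or.inr (Or.inr h7)))
      · rintro x (h7 | ⟨h4, h5, h6⟩)
        · exact Or.inr (Or.inl (h7.trans e))
        · rw [e] at h4 h5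
          rcases huniq x h4 h5 with h7 | h7
          · exact Or.inl (Or.inl h7)
          · exact absurd h7 h6
  · obtain ⟨B1, C1, k1, k2, k3, k4⟩ := oneBCW (Y := Ys y1 y2 y3 y4) (hW.off b1 d1) hb1 h.n1.hc
      (Or.inl rfl)
    obtain ⟨B4, C4, l1, l2, l3, l4⟩ := oneBCW (Y := Ys y1 y2 y3 y4) (hW.off b4 d4) hb4 h.n4.hc
      (Or.inr (Or.inr (Or.inr rfl)))
    exact ⟨B1, C1, B4, C4, ⟨k1, k2, l1, l2⟩, k3, l3, fun hh => absurd hh hq, k4, l4⟩

end Fr

/-- the middles of the rung are not in `D` -/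
def RD (G : SimpleGraph V) (D : V → Prop) : Rn V → Prop
  | .two => True
  | .three u => ¬ D u
  | .six _ v3 v4 _ y => ¬ D v3 ∧ ¬ D v4 ∧ ∀ b, G.Adj y b → ¬ D b

theorem RD.rev {r : Rn V} (h : RD G D r) : RD G D r.rev := by
  cases r with
  | two => exact h
  | three u => exact h
  | six v2 v3 v4 v5 y => exact ⟨h.2.1, h.1, h.2.2⟩

/-- a configuration off `D` -/
structure GW (G : SimpleGraph V) (X D : V → Prop) (K : Cfg V) : Prop extends Good G X K where
  off : OffW G X D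
  d1 : ¬ D K.b1
  d2 : ¬ D K.b2
  d3 : ¬ D K.b3
  d4 : ¬ D K.b4
  rd : RD G D K.r
  rd' : RD G D K.r'

namespace GW

variable {K : Cfg V}

theorem sw1 (h : GW G X D K) : GW G X D K.sw1 :=
  ⟨h.toGood.sw1, h.off, h.d2, h.d1, h.d4, h.d3, h.rd, h.rd'.rev⟩

theorem sw2 (h : GW G X D K) : GW G X D K.sw2 :=
  ⟨h.toGood.sw2, h.off, h.d3, h.d4, h.d1, h.d2, h.rd.rev, h.rd'⟩

theorem sw3 (h : GW G X D K) : GW G X D K.sw3 :=
  ⟨h.toGood.sw3, h.off, h.d1, h.d3, h.d2, h.d4, h.rd', h.rd⟩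

theorem refl (h : GW G X D K) : GW G (fun v => ¬ X v) D K :=
  ⟨h.toGood.refl, h.off.refl, h.d1, h.d2, h.d3, h.d4, h.rd, h.rd'⟩

/-- the side of `b1` -/
theorem sb1 (h : GW G X D K) : X K.b1 ↔ X K.y1 := h.fr.sb1W h.off

theorem sb4 (h : GW G X D K) : X K.b4 ↔ X K.y4 := h.fr.sb4W h.off

theorem nu (h : GW G X D K) {u : V} (hr : K.r = Rn.three u) : NMAt G X u :=
  h.off.off u (by have := h.rd; rw [hr] at this; exact this)

/-- what `t` sees on its side -/
theorem qt (h : GW G X D K) {x : V} (hq : qadj G X K.t x) :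
    x = K.t' ∨ x = K.s ∨ x = K.s' ∨ K.r.M x := by
  obtain ⟨hs, hne, hadj | ⟨w, hw1, hw2⟩⟩ := hq
  · rcases h.fr.nt.all x hadj with h1 | h1 | h1
    · exact absurd (by rw [h1] at hs; exact hs.symm) h.fr.Y1
    · exact absurd (by rw [h1] at hs; exact hs.symm) h.fr.Y2
    · rcases Rung.fst_M K.r K.t' with h2 | h2
      · exact Or.inl (h1.trans h2)
      · rw [← h1] at h2
        exact Or.inr (Or.inr (Or.inr h2))
  · rcases h.fr.nt.all w hw1 with h1 | h1 | h1
    · rw [h1] at hw2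
      rcases h.fr.n1.all x hw2 with h2 | h2 | h2
      · exact absurd h2.symm hne
      · exact Or.inr (Or.inl h2)
      · have h3 := h.sb1
        rw [← h2] at h3
        exact absurd (h3.symm.trans hs.symm) h.fr.Y1
    · rw [h1] at hw2
      rcases h.fr.n2.all x hw2 with h2 | h2 | h2
      · exact absurd h2.symm hne
      · exact Or.inr (Or.inr (Or.inl h2))
      · have h3 := h.sw1.sb1
        rw [show K.sw1.b1 = K.b2 from rfl, ← h2] at h3
        exact absurd (h3.symm.trans hs.symm) h.fr.Y2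
    · rw [h1] at hw2
      have hr := h.rt
      have hnt' := h.fr.nt'
      cases hrr : K.r with
      | two =>
        rw [hrr] at hw2 hnt'
        simp only [Rn.fst, Rn.lst] at hw2 hnt'
        rcases hnt'.all x hw2 with h2 | h2 | h2
        · rw [h2] at hs
          exact absurd hs.symm h.fr.Y3
        · rw [h2] at hs
          exact absurd hs.symm h.fr.Y4
        · exact absurd h2.symm hne
      | three u =>
        rw [hrr] at hw2 hr
        simp only [Rn.fst, Rung] at hw2 hr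
        obtain ⟨h3, z, h4⟩ := hr
        rcases h4.all x hw2 with h2 | h2 | h2
        · exact absurd h2.symm hne
        · exact Or.inl h2
        · rw [h2] at hs
          exact absurd hs.symm (side_at (h.nu hrr) h4 h.fr.Xt'.symm)
      | six v2 v3 v4 v5 y =>
        rw [hrr] at hw2 hr
        simp only [Rn.fst, Rung] at hw2 hr
        rcases hr.2.1.all x hw2 with h2 | h2 | h2
        · exact absurd h2.symm hne
        · exact Or.inr (Or.inr (Or.inr (Or.inr (Or.inl h2))))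
        · rw [h2] at hs
          exact absurd hs.symm hr.1.2.2.2.2

/-- what `y1` sees on its side -/
theorem qy1 (h : GW G X D K) {B C : V}
    (hBC : ∀ x, Cd G X K.y1 K.b1 x → Ys K.y1 K.y2 K.y3 K.y4 x ∨ x = B ∨ x = C) {x : V}
    (hq : qadj G X K.y1 x) :
    x = K.y2 ∨ x = K.y3 ∨ (x = K.y4 ∧ qadj G X K.y1 K.y4) ∨
    ((x = B ∨ x = C) ∧ x ≠ K.y1 ∧ x ≠ K.y2 ∧ x ≠ K.y3 ∧ x ≠ K.y4) := by
  by_cases hY : Ys K.y1 K.y2 K.y3 K.y4 x
  · rcases hY with h1 | h1 | h1 | h1
    · exact absurd h1.symm hq.2.1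
    · exact Or.inl h1
    · exact Or.inr (Or.inl h1)
    · exact Or.inr (Or.inr (Or.inl ⟨h1, by rw [← h1]; exact hq⟩))
  · rcases h.fr.q1W h.off hq h.own_t h.own_s with h1 | h1 | h1
    · exact Or.inl h1
    · exact Or.inr (Or.inl h1)
    · rcases hBC x h1 with h2 | h2
      · exact absurd h2 hY
      · unfold Ys at hY
        rw [not_or, not_or, not_or] at hY
        exact Or.inr (Or.inr (Or.inr ⟨h2, hY⟩))

theorem out (h : GW G X D K) (hXt : X K.t) :
    ∃ B1 B2 B3 B4 C1 C2 C3 C4, Out G X K B1 B2 B3 B4 C1 C2 C3 C4 := by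
  obtain ⟨B1, C1, B4, C4, ⟨xB1, xC1, xB4, xC4⟩, cd1, cd4, e14, i1, i4⟩ :=
    h.fr.pair14W h.off h.d1 h.d4 h.own_t h.own_s
  obtain ⟨B2, C2, B3, C3, ⟨xB2, xC2, xB3, xC3⟩, cd2, cd3, e23, i2, i3⟩ :=
    h.sw1.fr.pair14W h.off h.d2 h.d3 h.sw1.own_t h.sw1.own_s
  have Y1 : ¬ X K.y1 := fun hh => h.fr.Y1 (iff_of_true hh hXt)
  have Y2 : ¬ X K.y2 := fun hh => h.fr.Y2 (iff_of_true hh hXt)
  have Y3 : ¬ X K.y3 := fun hh => h.fr.Y3 (iff_of_true hh hXt)
  have Y4 : ¬ X K.y4 := fun hh => h.fr.Y4 (iff_of_true hh hXt)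
  have Xt' : X K.t' := h.fr.Xt'.mpr hXt
  have Xs : X K.s := h.fr.Xs.mpr hXt
  have Xs' : X K.s' := h.fr.Xs'.mpr hXt
  have Xo : X (K.r.fst K.t') := h.own_t.mpr hXt
  have Xo' : X (K.r.lst K.t) := (h.rt.side' h.fr.Xt').mpr hXt
  have Xp : X (K.r'.fst K.s') := h.own_s.mpr hXt
  have Xp' : X (K.r'.lst K.s) := (h.rs.side' (h.fr.Xs'.trans h.fr.Xs.symm)).mpr Xs
  have Xb1 : ¬ X K.b1 := fun hh => Y1 (h.sb1.mp hh)
  have Xb4 : ¬ X K.b4 := fun hh => Y4 (h.sb4.mp hh)
  have Xb2 : ¬ X K.b2 := fun hh => Y2 (h.sw1.sb1.mp hh)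
  have Xb3 : ¬ X K.b3 := fun hh => Y3 (h.sw1.sb4.mp hh)
  refine ⟨B1, B2, B3, B4, C1, C2, C3, C4, ⟨?_, e14, e23, i1, ?_, ?_, i4⟩⟩
  · exact {
      Xt := hXt, Xt' := Xt', Xs := Xs, Xs' := Xs', Y1 := Y1, Y2 := Y2, Y3 := Y3, Y4 := Y4
      B1 := fun hh => Y1 (xB1.mp hh)
      B2 := fun hh => Y2 (xB2.mp hh)
      B3 := fun hh => Y3 (xB3.mp hh)
      B4 := fun hh => Y4 (xB4.mp hh)
      C1 := fun hh => Y1 (xC1.mp hh)
      C2 := fun hh => Y2 (xC2.mp hh)
      C3 := fun hh => Y3 (xC3.mp hh)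
      C4 := fun hh => Y4 (xC4.mp hh)
      tt := h.fr.tt, ts := h.fr.n1.ab, ts' := h.fr.n2.ab, t's := h.fr.n3.ab, t's' := h.fr.n4.ab
      ss := h.fr.ss
      y12 := h.fr.nt.ab, y13 := h.fr.ns.ab, y14 := h.fr.y14, y23 := h.fr.y23
      y24 := h.fr.ns'.ab, y34 := h.fr.nt'.ab
      qt := fun x hx => h.qt hx
      qt' := fun x hx => by
        rcases h.sw2.qt hx with h1 | h1 | h1 | h1
        · exact Or.inl h1
        · exact Or.inr (Or.inl h1)
        · exact Or.inr (Or.inr (Or.inl h1))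
        · exact Or.inr (Or.inr (Or.inr ((Rn.M_rev _ _).mp h1)))
      qs := fun x hx => by
        rcases h.sw3.qt hx with h1 | h1 | h1 | h1
        · exact Or.inl h1
        · exact Or.inr (Or.inl h1)
        · exact Or.inr (Or.inr (Or.inl h1))
        · exact Or.inr (Or.inr (Or.inr h1))
      qs' := fun x hx => by
        rcases h.sw3.sw2.qt hx with h1 | h1 | h1 | h1
        · exact Or.inl h1
        · exact Or.inr (Or.inl h1)
        · exact Or.inr (Or.inr (Or.inl h1))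
        · exact Or.inr (Or.inr (Or.inr ((Rn.M_rev _ _).mp h1)))
      qy1 := fun x hx => h.qy1 cd1 hx
      qy2 := fun x hx => by
        rcases h.sw1.qy1 cd2 hx with h1 | h1 | h1 | h1
        · exact Or.inl h1
        · exact Or.inr (Or.inl h1)
        · exact Or.inr (Or.inr (Or.inl h1))
        · exact Or.inr (Or.inr (Or.inr ⟨h1.1, h1.2.2.1, h1.2.1, h1.2.2.2.2, h1.2.2.2.1⟩))
      qy3 := fun x hx => by
        rcases h.sw2.qy1 (B := B3) (C := C3) (fun x hx => by
          rcases cd3 x hx with h1 | h1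
          · exact Or.inl (ys_p1 h1)
          · exact Or.inr h1) hx with h1 | h1 | h1 | h1
        · exact Or.inr (Or.inl h1)
        · exact Or.inl h1
        · exact Or.inr (Or.inr (Or.inl ⟨h1.1, qadj_symm h1.2⟩))
        · exact Or.inr (Or.inr (Or.inr ⟨h1.1, h1.2.2.2.1, h1.2.2.2.2, h1.2.1, h1.2.2.1⟩))
      qy4 := fun x hx => by
        rcases h.sw1.sw2.qy1 (B := B4) (C := C4) (fun x hx => by
          rcases cd4 x hx with h1 | h1
          · exact Or.inl (ys_p2 h1)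
          · exact Or.inr h1) hx with h1 | h1 | h1 | h1
        · exact Or.inr (Or.inl h1)
        · exact Or.inl h1
        · exact Or.inr (Or.inr (Or.inl ⟨h1.1, qadj_symm h1.2⟩))
        · exact Or.inr (Or.inr (Or.inr ⟨h1.1, h1.2.2.2.2, h1.2.2.2.1, h1.2.2.1, h1.2.1⟩))
      ct := fun x hx hXx => by
        rcases h.fr.nt.all x hx with h1 | h1 | h1
        · exact Or.inl h1
        · exact Or.inr h1
        · exact absurd (by rw [h1]; exact Xo) hXx
      ct' := fun x hx hXx => by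
        rcases h.fr.nt'.all x hx with h1 | h1 | h1
        · exact Or.inl h1
        · exact Or.inr h1
        · exact absurd (by rw [h1]; exact Xo') hXx
      cs := fun x hx hXx => by
        rcases h.fr.ns.all x hx with h1 | h1 | h1
        · exact Or.inl h1
        · exact Or.inr h1
        · exact absurd (by rw [h1]; exact Xp) hXx
      cs' := fun x hx hXx => by
        rcases h.fr.ns'.all x hx with h1 | h1 | h1
        · exact Or.inl h1
        · exact Or.inr h1
        · exact absurd (by rw [h1]; exact Xp') hXx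
      cy1 := fun x hx hXx => by
        rcases h.fr.n1.all x hx with h1 | h1 | h1
        · exact Or.inl h1
        · exact Or.inr h1
        · exact absurd hXx (by rw [h1]; exact Xb1)
      cy2 := fun x hx hXx => by
        rcases h.fr.n2.all x hx with h1 | h1 | h1
        · exact Or.inl h1
        · exact Or.inr h1
        · exact absurd hXx (by rw [h1]; exact Xb2)
      cy3 := fun x hx hXx => by
        rcases h.fr.n3.all x hx with h1 | h1 | h1
        · exact Or.inl h1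
        · exact Or.inr h1
        · exact absurd hXx (by rw [h1]; exact Xb3)
      cy4 := fun x hx hXx => by
        rcases h.fr.n4.all x hx with h1 | h1 | h1
        · exact Or.inl h1
        · exact Or.inr h1
        · exact absurd hXx (by rw [h1]; exact Xb4) }
  · intro hh
    have := i2 hh
    rw [← ys_sw1]
    exact this
  · intro hh
    have := i3 hh
    rw [← ys_sw1]
    exact this

end GW

end Pool.Agent.helper58.L9
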