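import Pool.Agent.helper58.L9.KhClosed

/-!
# A K4 of real and virtual rungs gives a configuration
-/

set_option autoImplicit false
set_option linter.unusedSectionVars false
set_option linter.unusedVariables false

namespace Pool.Agent.helper58.L9

open Finset Classical Helper33.L9 Helper17.L9
open Helper42.L9 hiding near


variable {V : Type*} [Fintype V] {G : SimpleGraph V} {X D P : V → Prop}

section

variable (hW : OffW G X D) (hcub : ∀ v, (univ.filter fun b => G.Adj v b).card = 3)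

include hW hcub in
theorem Rung.ocW {a b : V} {r : Rn V} (hM : ∀ x, r.M x → ¬ D x) (ha : cc G X a = 2) (hb : cc G X b = 2) (hs : X b ↔ X a)
    (h : Rung G X a b r) : OC G X (PathD a b r) := by
  intro v w hv hvw
  cases r with
  | two =>
    simp only [Rung] at h
    have h1 : ownR G X a b := ⟨h, hs.symm⟩
    rcases hv with rfl | rfl | hv
    · exact Or.inr (Or.inl (own_one' hcub ha hvw h1))
    · exact Or.inl (own_one' hcub hb hvw ⟨h.symm, hs⟩)
    · exact hv.elim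
  | three u =>
    simp only [Rung] at h
    obtain ⟨h1, z, hz⟩ := h
    rcases hv with rfl | rfl | hv
    · exact Or.inr (Or.inr (own_one' hcub ha hvw ⟨hz.ha.symm, h1.symm⟩))
    · exact Or.inr (Or.inr (own_one' hcub hb hvw ⟨hz.hb.symm, hs.trans h1.symm⟩))
    · simp only [Rn.M] at hv
      subst hv
      rcases hz.all w hvw.1 with h2 | h2 | h2
      · exact Or.inl h2
      · exact Or.inr (Or.inl h2)
      · exfalso
        have := hvw.2
        rw [h2] at this
        exact side_at (hW.off _ (hM _ rfl)) hz hs.symm (this.symm.trans h1)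
  | six v2 v3 v4 v5 y =>
    simp only [Rung] at h
    obtain ⟨⟨h2, h3, h4, h5, hy⟩, n2, n5, ⟨z3, n3⟩, ⟨z4, n4⟩, c, n⟩ := h
    simp only [PathD, Rn.M] at hv ⊢
    rcases hv with rfl | rfl | rfl | rfl | rfl | rfl
    · exact Or.inr (Or.inr (Or.inl (own_one' hcub ha hvw ⟨n2.ha.symm, h2.symm⟩)))
    · exact Or.inr (Or.inr (Or.inr (Or.inr (Or.inr
        (own_one' hcub hb hvw ⟨n5.ha.symm, hs.trans h5.symm⟩)))))
    · rcases n2.all w hvw.1 with h6 | h6 | h6
      · exact Or.inl h6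
      · exact Or.inr (Or.inr (Or.inr (Or.inl h6)))
      · exfalso
        have := hvw.2
        rw [h6] at this
        exact hy (this.symm.trans h2)
    · rcases n3.all w hvw.1 with h6 | h6 | h6
      · exact Or.inr (Or.inr (Or.inl h6))
      · exact Or.inr (Or.inr (Or.inr (Or.inr (Or.inl h6))))
      · exfalso
        have := hvw.2
        rw [h6] at this
        exact side_at (hW.off _ (hM _ (Or.inr (Or.inl rfl)))) n3 (h2.trans h4.symm) ((this.symm.trans h3).trans h2.symm)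
    · rcases n4.all w hvw.1 with h6 | h6 | h6
      · exact Or.inr (Or.inr (Or.inr (Or.inr (Or.inr h6))))
      · exact Or.inr (Or.inr (Or.inr (Or.inl h6)))
      · exfalso
        have := hvw.2
        rw [h6] at this
        exact side_at (hW.off _ (hM _ (Or.inr (Or.inr (Or.inl rfl))))) n4 (h5.trans h3.symm) ((this.symm.trans h4).trans h5.symm)
    · rcases n5.all w hvw.1 with h6 | h6 | h6
      · exact Or.inr (Or.inl h6)
      · exact Or.inr (Or.inr (Or.inr (Or.inr (Or.inl h6))))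
      · exfalso
        have := hvw.2
        rw [h6] at this
        exact hy (this.symm.trans h5)

include hcub in
/-- inner vertices of a rung -/
theorem Rung.innerW {a b : V} {r : Rn V} (hs : X b ↔ X a) (h : Rung G X a b r) {v : V}
    (hv : r.M v) : cc G X v = 3 := by
  cases r with
  | two => exact hv.elim
  | three u =>
    simp only [Rung] at h
    obtain ⟨h1, z, hz⟩ := h
    simp only [Rn.M] at hv
    subst hv
    exact cc_inner' hcub hz.ha hz.hb hz.ab h1.symm (hs.trans h1.symm)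
  | six v2 v3 v4 v5 y =>
    simp only [Rung] at h
    obtain ⟨⟨h2, h3, h4, h5, hy⟩, n2, n5, ⟨z3, n3⟩, ⟨z4, n4⟩, c, n⟩ := h
    simp only [Rn.M] at hv
    rcases hv with rfl | rfl | rfl | rfl
    · exact cc_inner' hcub n2.ha n2.hb n2.ab h2.symm (h3.trans h2.symm)
    · exact cc_inner' hcub n3.ha n3.hb n3.ab (h2.trans h3.symm) (h4.trans h3.symm)
    · exact cc_inner' hcub n4.ha n4.hb n4.ab (h5.trans h4.symm) (h3.trans h4.symm)
    · exact cc_inner' hcub n5.ha n5.hb n5.ab (hs.trans h5.symm) (h4.trans h5.symm)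

include hW hcub in
/-- the rung partner is unique -/
theorem RW.uniqW (hP : ∀ x, P x → ¬ D x) {a b d : V} (ha : cc G X a = 2) (hb : cc G X b = 2) (hd : cc G X d = 2)
    (h1 : RW G X P a b) (h2 : RW G X P a d) : b = d := by
  obtain ⟨s1, n1, r, k1, m1⟩ := h1
  obtain ⟨s2, n2, r', k2, _⟩ := h2
  rcases k2.reach s2 (k1.ocW hW hcub (fun x hx => hP x (m1 x hx)) ha hb s1) (Or.inl rfl) with h3 | h3 | h3
  · exact absurd h3.symm n2
  · exact h3.symm
  · have := k1.innerW hcub s1 h3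
    omega

include hW hcub in
/-- three different partners: one of them by a rung -/
theorem one_rungW {a b d e : V} (ha : cc G X a = 2) (hbd : b ≠ d) (hbe : b ≠ e) (hde : d ≠ e)
    (h1 : RW G X P a b ∨ CW G X a b) (h2 : RW G X P a d ∨ CW G X a d) (h3 : RW G X P a e ∨ CW G X a e) :
    RW G X P a b ∨ RW G X P a d ∨ RW G X P a e := by
  rcases h1 with h1 | h1
  · exact Or.inl h1
  rcases h2 with h2 | h2
  · exact Or.inr (Or.inl h2)
  rcases h3 with h3 | h3
  · exact Or.inr (Or.inr h3)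
  exfalso
  obtain ⟨s1, n1, y1, a1, b1, c1⟩ := h1
  obtain ⟨s2, n2, y2, a2, b2, c2⟩ := h2
  obtain ⟨s3, n3, y3, a3, b3, c3⟩ := h3
  have key : ∀ p q y, ¬ (X y ↔ X a) → G.Adj a y → p ≠ q → a ≠ p → a ≠ q → G.Adj p y → G.Adj q y → (X p ↔ X a) →
      (X q ↔ X a) → False := fun p q y hc ha hpq hap haq hp hq hsp hsq =>
    hW.crs' ha hc a p q ha.symm hp.symm hq.symm hap haq hpq ⟨hsp.symm, hsq.symm⟩
  have e12 : y1 ≠ y2 := by
    rintro rfl
    exact key b d y1 c1 a1 hbd n1 n2 b1 b2 s1 s2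
  have e13 : y1 ≠ y3 := by
    rintro rfl
    exact key b e y1 c1 a1 hbe n1 n3 b1 b3 s1 s3
  have e23 : y2 ≠ y3 := by
    rintro rfl
    exact key d e y2 c2 a2 hde n2 n3 b2 b3 s2 s3
  have hsub : ({y1, y2, y3} : Finset V) ⊆ cr G X a := by
    intro w hw
    simp only [Finset.mem_insert, Finset.mem_singleton] at hw
    rcases hw with rfl | rfl | rfl
    · exact mem_cr.mpr ⟨a1, c1⟩
    · exact mem_cr.mpr ⟨a2, c2⟩
    · exact mem_cr.mpr ⟨a3, c3⟩
  have h4 := Finset.card_le_card hsub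
  have h5 : ({y1, y2, y3} : Finset V).card = 3 := by
    rw [Finset.card_eq_three]
    exact ⟨y1, y2, y3, e12, e13, e23, rfl⟩
  have h6 := cc_two'.mp ha
  omega

include hW hcub in
/-- **Assembling a configuration.** -/
theorem good_of_waysW {a b d e : V} (hab : RW G X P a b) (hde : RW G X P d e) (had : CW G X a d)
    (hae : CW G X a e) (hbd : CW G X b d) (hbe : CW G X b e) :
    ∃ K : Cfg V, Good G X K ∧ (K.t = a ∧ K.t' = b ∧ K.s = d ∧ K.s' = e) ∧
      (∀ x, K.r.M x → P x) ∧ ∀ x, K.r'.M x → P x := by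
  obtain ⟨sab, nab, r, hr, hrP⟩ := hab
  obtain ⟨sde, nde, r', hr', hrP'⟩ := hde
  obtain ⟨sad, nad, y1, a1, d1, c1⟩ := had
  obtain ⟨sae, nae, y2, a2, e2, c2⟩ := hae
  obtain ⟨sbd, nbd, y3, b3, d3, c3⟩ := hbd
  obtain ⟨sbe, nbe, y4, b4, e4, c4⟩ := hbe
  have hdeg : ∀ v, (univ.filter fun b => G.Adj v b).card ≤ 3 := fun v => (hcub v).le
  have key : ∀ p q s y, ¬ (X y ↔ X p) → p ≠ q → p ≠ s → q ≠ s → G.Adj p y → G.Adj q y → G.Adj s y →
      (X q ↔ X p) → (X s ↔ X p) → False := fun p q s y hc hpq hps hqs hp hq hs h1 h2 =>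
    hW.crs' hp hc p q s hp.symm hq.symm hs.symm hpq hps hqs ⟨h1.symm, h2.symm⟩
  have e12 : y1 ≠ y2 := by
    rintro rfl
    exact key a d e y1 c1 nad nae nde a1 d1 e2 sad sae
  have e13 : y1 ≠ y3 := by
    rintro rfl
    exact key a b d y1 c1 nab nad nbd a1 b3 d1 sab sad
  have e24 : y2 ≠ y4 := by
    rintro rfl
    exact key a b e y2 c2 nab nae nbe a2 b4 e2 sab sae
  have e34 : y3 ≠ y4 := by
    rintro rfl
    exact key b d e y3 c3 nbd nbe nde b3 d3 e4 sbd sbe
  have e14 : y1 ≠ y4 := by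
    rintro rfl
    exact key a b d y1 c1 nab nad nbd a1 b4 d1 sab sad
  have e23 : y2 ≠ y3 := by
    rintro rfl
    exact key a b e y2 c2 nab nae nbe a2 b3 e2 sab sae
  have o1 := hr.side sab
  have o2 := hr.side' sab
  have o3 := hr'.side sde
  have o4 := hr'.side' sde
  have c3' : ¬ (X y3 ↔ X a) := fun hh => c3 (hh.trans sab.symm)
  have c4' : ¬ (X y4 ↔ X a) := fun hh => c4 (hh.trans sab.symm)
  -- the own neighbours are not among the `y`
  have ny : ∀ o y, (X o ↔ X a) → ¬ (X y ↔ X a) → y ≠ o := by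
    rintro o y h1 h2 rfl
    exact h2 h1
  obtain ⟨w1, m1⟩ := nb_third hcub a1.symm d1.symm nad
  obtain ⟨w2, m2⟩ := nb_third hcub a2.symm e2.symm nae
  obtain ⟨w3, m3⟩ := nb_third hcub b3.symm d3.symm nbd
  obtain ⟨w4, m4⟩ := nb_third hcub b4.symm e4.symm nbe
  refine ⟨⟨a, b, d, e, y1, y2, y3, y4, w1, w2, w3, w4, r, r'⟩, ⟨?_, hr, hr'⟩, ⟨rfl, rfl, rfl, rfl⟩,
    hrP, hrP'⟩
  exact {
    nt := nb_of hdeg a1 a2 hr.fst_adj e12 (ny _ _ o1 c1) (ny _ _ o1 c2)
    nt' := nb_of hdeg b3 b4 hr.lst_adj e34 (ny _ _ o2 c3') (ny _ _ o2 c4')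
    ns := nb_of hdeg d1 d3 hr'.fst_adj e13 (ny _ _ (o3.trans sad) c1) (ny _ _ (o3.trans sad) c3')
    ns' := nb_of hdeg e2 e4 hr'.lst_adj e24 (ny _ _ (o4.trans sad) c2)
      (ny _ _ (o4.trans sad) c4')
    n1 := m1, n2 := m2, n3 := m3, n4 := m4
    tt := nab, ss := nde, y14 := e14, y23 := e23
    Xt' := sab, Xs := sad, Xs' := sae
    Y1 := c1, Y2 := c2, Y3 := c3', Y4 := c4' }

include hW hcub in
/-- **A K4 gives a configuration.** -/
theorem good_of_k4W (hP : ∀ x, P x → ¬ D x) {a b d e : V} (ha : cc G X a = 2) (hb : cc G X b = 2) (hd : cc G X d = 2)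
    (he : cc G X e = 2) (nab : a ≠ b) (nad : a ≠ d) (nae : a ≠ e) (nbd : b ≠ d) (nbe : b ≠ e)
    (nde : d ≠ e) (h1 : RW G X P a b ∨ CW G X a b) (h2 : RW G X P a d ∨ CW G X a d)
    (h3 : RW G X P a e ∨ CW G X a e) (h4 : RW G X P b d ∨ CW G X b d)
    (h5 : RW G X P b e ∨ CW G X b e) (h6 : RW G X P d e ∨ CW G X d e) :
    ∃ K : Cfg V, Good G X K ∧ (K.t = a ∨ K.t = b ∨ K.t = d ∨ K.t = e) ∧
      (K.t' = a ∨ K.t' = b ∨ K.t' = d ∨ K.t' = e) ∧ (K.s = a ∨ K.s = b ∨ K.s = d ∨ K.s = e) ∧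
      (K.s' = a ∨ K.s' = b ∨ K.s' = d ∨ K.s' = e) ∧
      (∀ x, K.r.M x → P x) ∧ ∀ x, K.r'.M x → P x := by
  have sw : ∀ {p q : V}, (RW G X P p q ∨ CW G X p q) → (RW G X P q p ∨ CW G X q p) := by
    rintro p q (h | h)
    · exact Or.inl h.symm
    · exact Or.inr h.symm
  -- the case of a rung between `p` and `q`
  have main : ∀ p q r s : V, cc G X p = 2 → cc G X q = 2 → cc G X r = 2 → cc G X s = 2 →
      p ≠ q → p ≠ r → p ≠ s → q ≠ r → q ≠ s → r ≠ s → RW G X P p q →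
      (RW G X P p r ∨ CW G X p r) → (RW G X P p s ∨ CW G X p s) → (RW G X P q r ∨ CW G X q r) →
      (RW G X P q s ∨ CW G X q s) → (RW G X P r s ∨ CW G X r s) →
      ∃ K : Cfg V, Good G X K ∧ (K.t = p ∧ K.t' = q ∧ K.s = r ∧ K.s' = s) ∧
        (∀ x, K.r.M x → P x) ∧ ∀ x, K.r'.M x → P x := by
    intro p q r s cp cq cr cs npq npr nps nqr nqs nrs k1 k2 k3 k4 k5 k6
    have k2' : CW G X p r := k2.resolve_left (fun h => nqr (k1.uniqW hW hcub hP cp cq cr h))
    have k3' : CW G X p s := k3.resolve_left (fun h => nqs (k1.uniqW hW hcub hP cp cq cs h))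
    have k4' : CW G X q r := k4.resolve_left (fun h => npr (k1.symm.uniqW hW hcub hP cq cp cr h))
    have k5' : CW G X q s := k5.resolve_left (fun h => nps (k1.symm.uniqW hW hcub hP cq cp cs h))
    -- the partner of `r` by a rung is `s`
    have k6' : RW G X P r s := by
      rcases one_rungW hW hcub cr npq nps nqs (sw k2) (sw k4) k6 with h | h | h
      · exact absurd (k1.uniqW hW hcub hP cp cq cr h.symm) nqr
      · exact absurd (k1.symm.uniqW hW hcub hP cq cp cr h.symm) npr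
      · exact h
    exact good_of_waysW hW hcub k1 k6' k2' k3' k4' k5'
  rcases one_rungW hW hcub ha nbd nbe nde h1 h2 h3 with h | h | h
  · obtain ⟨K, hK, ⟨e1, e2, e3, e4⟩, p1, p2⟩ := main a b d e ha hb hd he nab nad nae nbd nbe nde h h2 h3 h4
      h5 h6
    exact ⟨K, hK, Or.inl e1, Or.inr (Or.inl e2), Or.inr (Or.inr (Or.inl e3)),
      Or.inr (Or.inr (Or.inr e4)), p1, p2⟩
  · obtain ⟨K, hK, ⟨e1, e2, e3, e4⟩, p1, p2⟩ := main a d b e ha hd hb he nad nab nae nbd.symm nde nbe h h1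
      h3 (sw h4) h6 h5
    exact ⟨K, hK, Or.inl e1, Or.inr (Or.inr (Or.inl e2)), Or.inr (Or.inl e3),
      Or.inr (Or.inr (Or.inr e4)), p1, p2⟩
  · obtain ⟨K, hK, ⟨e1, e2, e3, e4⟩, p1, p2⟩ := main a e b d ha he hb hd nae nab nad nbe.symm nde.symm nbd h
      h1 h2 (sw h5) (sw h6) h4
    exact ⟨K, hK, Or.inl e1, Or.inr (Or.inr (Or.inr e2)), Or.inr (Or.inl e3),
      Or.inr (Or.inr (Or.inl e4)), p1, p2⟩

end

end Pool.Agent.helper58.L9
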