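import Pool.Agent.helper58.L9.KhExtract
import Pool.Agent.helper33.L9.OffWire

/-!
# The configuration found in a stuck set, off a set of roots
-/

set_option autoImplicit false
set_option linter.unusedSectionVars false
set_option linter.unusedVariables false

namespace Pool.Agent.helper58.L9

open Finset Classical Helper33.L9 Helper17.L9
open Helper42.L9 hiding near
open Helper33.Off (ownN Far)

variable {V : Type*} [Fintype V] {G : SimpleGraph V} {X D N : V → Prop}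

theorem fr_of_far (hW : OffW G X D) {v : V} (h : Far G D v) : Helper33.Off.Fr G X v :=
  ⟨hW.off v h.1, fun w hw => hW.off w fun hd => h.2 w hd hw.symm⟩

section

variable (hW : OffW G X D) (hcub : ∀ v, (univ.filter fun b => G.Adj v b).card = 3)
  (hN : ∀ v, N v → Far G D v) (hst : ∀ v, N v → StarAt G X v)

include hW hcub in
theorem way_of_qadjW {Z S : Finset V} (hI : InvZ G X Z) {a b : V} (ha : a ∈ Z) (hb : b ∈ Z)
    (hfa : Far G D a) (h : qadj G X a b) : RW G X (fun x => x ∈ Z ∧ ¬ D x) a b ∨ CW G X a b := by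
  obtain ⟨h1, h2, h3 | ⟨w, h3, h4⟩⟩ := h
  · exact Or.inl ⟨h1.symm, h2, Rn.two, h3, fun x hx => hx.elim⟩
  · by_cases hw : X w ↔ X a
    · obtain ⟨z, hz⟩ := nb_third hcub h3.symm h4 h2
      refine Or.inl ⟨h1.symm, h2, Rn.three w, ⟨hw, z, hz⟩, ?_⟩
      intro x hx
      simp only [Rn.M] at hx
      subst hx
      refine ⟨?_, fun hd => hfa.2 x hd h3.symm⟩
      by_contra hxZ
      exact h2 (hI.own1 x hxZ a b ⟨h3.symm, hw⟩ ⟨h4, hw.trans h1⟩ ha hb)
    · exact Or.inr ⟨h1.symm, h2, w, h3, h4.symm, hw⟩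

include hW hcub hN hst in
theorem way_of_VRW {Z S : Finset V} (hS : StuckZ G X Z S) {a b : V} (ha : cc G X a = 2)
    (hb : cc G X b = 2) (h : VR (ownN G X N) (cc G X) (QE G X S).val a b) :
    RW G X (fun x => x ∈ Z ∧ ¬ D x) a b ∧ a ∈ S ∧ b ∈ S := by
  have hdeg : ∀ v, (univ.filter fun b => G.Adj v b).card ≤ 3 := fun v => (hcub v).le
  have hFr : ∀ v, N v → Helper33.Off.Fr G X v := fun v hv => fr_of_far hW (hN v hv)
  obtain ⟨u, v, t, t', cu, cv, ct, ct', ⟨o1, Na, Nu⟩, ⟨o2, _, Nv⟩, ⟨o3, _, Nt⟩, ⟨o4, _, Nt'⟩,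
    ⟨o5, _, Nb'⟩, hut, hvt', hP⟩ := h
  obtain ⟨s, v1, v', y, k1, k2, k3, k4, k5, k6, k7, k8, k9, k10, k11, k12, k13, k14, k15, k16,
    k17, k18, k19, k20, _⟩ := Helper33.Off.port_graphN hFr hcub hP
  have hau : ownR G X u a := ⟨o1.1.symm, o1.2.symm⟩
  have hsa : s = a := by
    rcases Helper33.Off.own_two (hFr u Nu).self k1 k3 hau with h | h | h
    · exact absurd h k5
    · exact h
    · rw [h, ha] at k4
      exact absurd k4 (by decide)
  have haS : a ∈ S := hsa ▸ k20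
  have hbS : b ∈ S := Helper33.Off.inner_own hcub hS (hFr t' Nt') (hst t' Nt') k17 ct' o5
  have sXa : X u ↔ X a := o1.2.symm
  have sv : X v ↔ X a := o2.2.symm.trans sXa
  have stt : X t ↔ X a := o3.2.symm.trans sv
  have st' : X t' ↔ X a := o4.2.symm.trans stt
  have sb : X b ↔ X a := o5.2.symm.trans st'
  have sy : ¬ (X y ↔ X a) := fun hh => k11 (hh.trans sXa.symm)
  have ny : ∀ o, (X o ↔ X a) → o ≠ y := by
    rintro o h rfl
    exact sy h
  have nav : a ≠ v := by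
    rintro rfl
    rw [ha] at cv
    exact absurd cv (by decide)
  have nbt : b ≠ t := by
    rintro rfl
    rw [hb] at ct
    exact absurd ct (by decide)
  have nab : a ≠ b := by
    -- otherwise `u`, `t'` are own neighbours of the end `a`
    rintro rfl
    exact k13 (own_one' hcub ha ⟨o5.1.symm, o5.2.symm⟩ ⟨o1.1, o1.2⟩)
  obtain ⟨z3, n3⟩ := nb_third hcub o2.1.symm o3.1 hut
  obtain ⟨z4, n4⟩ := nb_third hcub o4.1 o3.1.symm hvt'.symm
  obtain ⟨c, n⟩ := nb_third hcub k9.symm k10 k13.symm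
  refine ⟨⟨sb, nab, Rn.six u v t t' y, ⟨⟨sXa, sv, stt, st', sy⟩, ?_, ?_, ⟨z3, n3⟩,
    ⟨z4, n4⟩, c, n⟩, ?_⟩, haS, hbS⟩
  · exact nb_of hdeg o1.1.symm o2.1 k9 nav (ny _ Iff.rfl) (ny _ sv)
  · exact nb_of hdeg o5.1 o4.1.symm k10.symm nbt (ny _ sb) (ny _ stt)
  · have huS : u ∈ S := k16
    have hvS : v ∈ S := Helper33.Off.inner_own hcub hS (hFr u Nu) (hst u Nu) huS cu o2
    have htS : t ∈ S := Helper33.Off.inner_own hcub hS (hFr v Nv) (hst v Nv) hvS cv o3
    rintro x (rfl | rfl | rfl | rfl)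
    · exact ⟨hS.1 huS, (hN _ Nu).1⟩
    · exact ⟨hS.1 hvS, (hN _ Nv).1⟩
    · exact ⟨hS.1 htS, (hN _ Nt).1⟩
    · exact ⟨hS.1 k17, (hN _ Nt').1⟩

include hW hcub hN hst in
theorem way_of_RgW {Z S : Finset V} (hI : InvZ G X Z) (hS : StuckZ G X Z S) {a b : V}
    (ha : cc G X a = 2) (hb : cc G X b = 2) (hfa : Far G D a)
    (h : Rg (ownN G X N) (cc G X) (QE G X S).val a b) :
    (RW G X (fun x => x ∈ Z ∧ ¬ D x) a b ∨ CW G X a b) ∧ a ∈ S ∧ b ∈ S := by
  rcases h with h | h | h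
  · have h1 := mem_QE.mp h
    exact ⟨way_of_qadjW hW hcub (S := S) hI (hS.1 h1.1) (hS.1 h1.2.1) hfa h1.2.2, h1.1, h1.2.1⟩
  · obtain ⟨h1, h2, h3⟩ := way_of_VRW hW hcub hN hst hS ha hb h
    exact ⟨Or.inl h1, h2, h3⟩
  · obtain ⟨h1, h2, h3⟩ := way_of_VRW hW hcub hN hst hS hb ha h
    exact ⟨Or.inl h1.symm, h3, h2⟩

include hW hcub hN hst in
/-- **The configuration.** -/
theorem find_k4W {Z S : Finset V} (hI : InvZ G X Z) (hS : StuckZ G X Z S) {a b d e : V}
    (ha : cc G X a = 2) (hb : cc G X b = 2) (hd : cc G X d = 2) (he : cc G X e = 2)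
    (fa : Far G D a) (fb : Far G D b) (fd : Far G D d) (fe : Far G D e)
    (hn : [a, b, d, e].Nodup)
    (h1 : Rg (ownN G X N) (cc G X) (QE G X S).val a b)
    (h2 : Rg (ownN G X N) (cc G X) (QE G X S).val a d)
    (h3 : Rg (ownN G X N) (cc G X) (QE G X S).val a e)
    (h4 : Rg (ownN G X N) (cc G X) (QE G X S).val b d)
    (h5 : Rg (ownN G X N) (cc G X) (QE G X S).val b e)
    (h6 : Rg (ownN G X N) (cc G X) (QE G X S).val d e) :
    ∃ K : Cfg V, Good G X K ∧ (K.t ∈ S ∧ K.t' ∈ S ∧ K.s ∈ S ∧ K.s' ∈ S) ∧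
      (Far G D K.t ∧ Far G D K.t' ∧ Far G D K.s ∧ Far G D K.s') ∧
      (∀ x, K.r.M x → x ∈ Z ∧ ¬ D x) ∧ ∀ x, K.r'.M x → x ∈ Z ∧ ¬ D x := by
  simp only [List.nodup_cons, List.mem_cons, List.not_mem_nil, or_false, not_or,
    List.nodup_nil, and_true, not_false_eq_true] at hn
  obtain ⟨⟨n1, n2, n3⟩, ⟨n4, n5⟩, n6⟩ := hn
  obtain ⟨w1, sa, sb⟩ := way_of_RgW hW hcub hN hst hI hS ha hb fa h1
  obtain ⟨w2, _, sd⟩ := way_of_RgW hW hcub hN hst hI hS ha hd fa h2
  obtain ⟨w3, _, se⟩ := way_of_RgW hW hcub hN hst hI hS ha he fa h3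
  obtain ⟨w4, _, _⟩ := way_of_RgW hW hcub hN hst hI hS hb hd fb h4
  obtain ⟨w5, _, _⟩ := way_of_RgW hW hcub hN hst hI hS hb he fb h5
  obtain ⟨w6, _, _⟩ := way_of_RgW hW hcub hN hst hI hS hd he fd h6
  obtain ⟨K, hK, e1, e2, e3, e4, p1, p2⟩ := good_of_k4W hW hcub
    (P := fun x => x ∈ Z ∧ ¬ D x) (fun x hx => hx.2) ha hb hd he n1 n2 n3 n4 n5 n6 w1
    w2 w3 w4 w5 w6
  have key : ∀ x, (x = a ∨ x = b ∨ x = d ∨ x = e) → x ∈ S := by
    rintro x (rfl | rfl | rfl | rfl) <;> assumption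
  have kf : ∀ x, (x = a ∨ x = b ∨ x = d ∨ x = e) → Far G D x := by
    rintro x (rfl | rfl | rfl | rfl) <;> assumption
  exact ⟨K, hK, ⟨key _ e1, key _ e2, key _ e3, key _ e4⟩, ⟨kf _ e1, kf _ e2, kf _ e3, kf _ e4⟩,
    p1, p2⟩

end

section

variable (hW : OffW G X D) (hcub : ∀ v, (univ.filter fun b => G.Adj v b).card = 3)
  (hR : NoRepair G X D)

include hW hcub hR in
/-- a vertex between two ends with a further cross neighbour on its side is not a leg -/
theorem no_leg {y t s b z z' : V} (n : Nb G y t s b) (Xt : ¬ (X t ↔ X y))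
    (Xs : ¬ (X s ↔ X y)) (hz : G.Adj t z) (hzy : z ≠ y) (Xz : X z ↔ X y) (hz' : G.Adj s z')
    (hzy' : z' ≠ y) (Xz' : X z' ↔ X y) : ¬ D b := by
  intro hb
  obtain ⟨w, hDw, hw⟩ := hR b y hb n.hc.symm (hW.nD n.ha Xt) (fun v => v = y) rfl
    (fun v hv => Or.inl hv)
  apply hw
  have fy : Helper33.Off.flipS X (fun v => v = y) y ↔ ¬ X y := Helper33.Off.flipS_pos rfl
  have fo : ∀ r, r ≠ y → (Helper33.Off.flipS X (fun v => v = y) r ↔ X r) := fun r hr =>
    Helper33.Off.flipS_neg hr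
  by_cases hyw : G.Adj w y
  · rcases n.all w hyw.symm with h1 | h1 | h1
    · subst h1
      obtain ⟨e, he⟩ := nb_third hcub hyw hz hzy.symm
      refine nm_of_nb he (fun hh => ?_)
      rw [fy, fo z hzy] at hh
      exact not_iff_self (hh.trans Xz)
    · subst h1
      obtain ⟨e, he⟩ := nb_third hcub hyw hz' hzy'.symm
      refine nm_of_nb he (fun hh => ?_)
      rw [fy, fo z' hzy'] at hh
      exact not_iff_self (hh.trans Xz')
    · exact absurd (h1 ▸ hb) hDw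
  · exact Helper33.Off.nm_flip_off (hW.off w hDw) (fun v hv hwv => by
      rw [hv] at hwv
      exact hyw hwv)

variable {K : Cfg V}

include hW hcub hR in
/-- `b1` is not a root -/
theorem Good.nb1 (h : Good G X K) : ¬ D K.b1 :=
  no_leg hW hcub hR h.fr.n1 (fun hh => h.fr.Y1 hh.symm)
    (fun hh => h.fr.Y1 (hh.symm.trans h.fr.Xs)) h.fr.nt.hb h.fr.nt.ab.symm
    (iff_of_ne_iff h.fr.Y2 h.fr.Y1) h.fr.ns.hb h.fr.ns.ab.symm (iff_of_ne_iff h.fr.Y3 h.fr.Y1)

include hW hcub hR in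
/-- the own neighbour of the link of a rung with six vertices is not a root -/
theorem Good.six_link (h : Good G X K) (ft : Far G D K.t) (ft' : Far G D K.t')
    {v2 v3 v4 v5 y : V} (hr : K.r = Rn.six v2 v3 v4 v5 y) (d2 : ¬ D v2) (d5 : ¬ D v5) :
    ∀ b, G.Adj y b → ¬ D b := by
  have rt := h.rt
  have nt := h.fr.nt
  have nt' := h.fr.nt'
  rw [hr] at rt nt nt'
  simp only [Rung, Rn.fst, Rn.lst] at rt nt nt'
  obtain ⟨⟨h2, h3, h4, h5, hy⟩, n2, n5, ⟨z3, n3⟩, ⟨z4, n4⟩, b, n⟩ := rt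
  have key : ¬ D b := by
    intro hb
    have hyD : ¬ D y := hW.nD n.ha (fun hh => hy (hh.symm.trans h2))
    have hby : X y ↔ X b := hW.noc b hb y n.hc.symm
    have Xt : ¬ (X K.t ↔ X b) := fun hh => hy (hby.trans hh.symm)
    have Xt' : ¬ (X K.t' ↔ X b) := fun hh => hy ((hby.trans hh.symm).trans h.fr.Xt')
    obtain ⟨F, hF⟩ : ∃ F : V → Prop, ∀ r, F r ↔ (r = y ∨ r = K.t ∨ r = K.t') :=
      ⟨_, fun _ => Iff.rfl⟩
    obtain ⟨w, hDw, hw⟩ := hR b y hb n.hc.symm hyD F ((hF y).mpr (Or.inl rfl))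
      (by
        intro v hv
        rcases (hF v).mp hv with h1 | h1 | h1
        · exact Or.inl h1
        · rw [h1]; exact Or.inr ⟨Xt, ft⟩
        · rw [h1]; exact Or.inr ⟨Xt', ft'⟩)
    apply hw
    have fp : ∀ r, (r = y ∨ r = K.t ∨ r = K.t') → (Helper33.Off.flipS X F r ↔ ¬ X r) :=
      fun r hr => Helper33.Off.flipS_pos ((hF r).mpr hr)
    have fo : ∀ r, ¬ (r = y ∨ r = K.t ∨ r = K.t') → (Helper33.Off.flipS X F r ↔ X r) :=
      fun r hr => Helper33.Off.flipS_neg (fun hh => hr ((hF r).mp hh))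
    have X1' : ¬ (X K.t ↔ X y) := fun hh => hy hh.symm
    have c3 : cc G X v3 = 3 := cc_inner' hcub n3.ha n3.hb n3.ab (h2.trans h3.symm)
      (h4.trans h3.symm)
    have c4 : cc G X v4 = 3 := cc_inner' hcub n4.ha n4.hb n4.ab (h5.trans h4.symm)
      (h3.trans h4.symm)
    have ct : cc G X K.t = 2 := cc_end' hW hcub nt.ha nt.hb nt.ab h.fr.Y1 h.fr.Y2
    have ct' : cc G X K.t' = 2 := cc_end' hW hcub nt'.ha nt'.hb nt'.ab
      (fun hh => h.fr.Y3 (hh.trans h.fr.Xt')) (fun hh => h.fr.Y4 (hh.trans h.fr.Xt'))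
    have cs : cc G X K.s = 2 := cc_end' hW hcub h.fr.ns.ha h.fr.ns.hb h.fr.ns.ab
      (fun hh => h.fr.Y1 (hh.trans h.fr.Xs)) (fun hh => h.fr.Y3 (hh.trans h.fr.Xs))
    have cs' : cc G X K.s' = 2 := cc_end' hW hcub h.fr.ns'.ha h.fr.ns'.hb h.fr.ns'.ab
      (fun hh => h.fr.Y2 (hh.trans h.fr.Xs')) (fun hh => h.fr.Y4 (hh.trans h.fr.Xs'))
    have no3 : ¬ (v3 = y ∨ v3 = K.t ∨ v3 = K.t') := by
      rintro (e | e | e)
      · rw [e] at h3; exact hy h3
      · rw [e] at c3; omega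
      · rw [e] at c3; omega
    have no4 : ¬ (v4 = y ∨ v4 = K.t ∨ v4 = K.t') := by
      rintro (e | e | e)
      · rw [e] at h4; exact hy h4
      · rw [e] at c4; omega
      · rw [e] at c4; omega
    have nos : ¬ (K.s = y ∨ K.s = K.t ∨ K.s = K.t') := by
      rintro (e | e | e)
      · exact hy (by rw [← e]; exact h.fr.Xs)
      · exact h.fr.n1.ab e.symm
      · exact h.fr.n3.ab e.symm
    have nos' : ¬ (K.s' = y ∨ K.s' = K.t ∨ K.s' = K.t') := by
      rintro (e | e | e)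
      · exact hy (by rw [← e]; exact h.fr.Xs')
      · exact h.fr.n2.ab e.symm
      · exact h.fr.n4.ab e.symm
    have pt : Helper33.Off.flipS X F K.t ↔ ¬ X K.t := fp _ (Or.inr (Or.inl rfl))
    have pt' : Helper33.Off.flipS X F K.t' ↔ ¬ X K.t' := fp _ (Or.inr (Or.inr rfl))
    have ps := fo K.s nos
    have ps' := fo K.s' nos'
    have p3 := fo v3 no3
    have p4 := fo v4 no4
    have e1 : ¬ (Helper33.Off.flipS X F K.t ↔ Helper33.Off.flipS X F K.s) := by
      rw [pt, ps]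
      exact fun hh => not_iff_self (hh.trans h.fr.Xs)
    have e2 : ¬ (Helper33.Off.flipS X F K.t ↔ Helper33.Off.flipS X F K.s') := by
      rw [pt, ps']
      exact fun hh => not_iff_self (hh.trans h.fr.Xs')
    have e3 : ¬ (Helper33.Off.flipS X F K.t' ↔ Helper33.Off.flipS X F K.s) := by
      rw [pt', ps]
      exact fun hh => not_iff_self (hh.trans (h.fr.Xs.trans h.fr.Xt'.symm))
    have e4 : ¬ (Helper33.Off.flipS X F K.t' ↔ Helper33.Off.flipS X F K.s') := by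
      rw [pt', ps']
      exact fun hh => not_iff_self (hh.trans (h.fr.Xs'.trans h.fr.Xt'.symm))
    have e5 : ¬ (Helper33.Off.flipS X F K.t ↔ Helper33.Off.flipS X F v3) := by
      rw [pt, p3]
      exact fun hh => not_iff_self (hh.trans h3)
    have e6 : ¬ (Helper33.Off.flipS X F K.t' ↔ Helper33.Off.flipS X F v4) := by
      rw [pt', p4]
      exact fun hh => not_iff_self (hh.trans (h4.trans h.fr.Xt'.symm))
    have m2 : NMAt G (Helper33.Off.flipS X F) v2 := nm_of_nb n2 e5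
    have m5 : NMAt G (Helper33.Off.flipS X F) v5 := nm_of_nb n5 e6
    have m1 : ∀ r, G.Adj K.t r → NMAt G (Helper33.Off.flipS X F) r := by
      intro r hr
      rcases nt.all r hr with h1 | h1 | h1
      · rw [h1]; exact nm_of_nb h.fr.n1 e1
      · rw [h1]; exact nm_of_nb h.fr.n2 e2
      · rw [h1]; exact m2
    have m1' : ∀ r, G.Adj K.t' r → NMAt G (Helper33.Off.flipS X F) r := by
      intro r hr
      rcases nt'.all r hr with h1 | h1 | h1
      · rw [h1]; exact nm_of_nb h.fr.n3 e3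
      · rw [h1]; exact nm_of_nb h.fr.n4 e4
      · rw [h1]; exact m5
    by_cases hwy : G.Adj y w
    · rcases n.all w hwy with h1 | h1 | h1
      · rw [h1]; exact m2
      · rw [h1]; exact m5
      · exact absurd (h1 ▸ hb) hDw
    · by_cases hwt : G.Adj K.t w
      · exact m1 w hwt
      · by_cases hwt' : G.Adj K.t' w
        · exact m1' w hwt'
        · exact Helper33.Off.nm_flip_off (hW.off w hDw) (fun v hv hwv => by
            rcases (hF v).mp hv with h1 | h1 | h1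
            · exact hwy (h1 ▸ hwv.symm)
            · exact hwt (h1 ▸ hwv.symm)
            · exact hwt' (h1 ▸ hwv.symm))
  intro b' hb'
  rcases n.all b' hb' with h1 | h1 | h1
  · rw [h1]; exact d2
  · rw [h1]; exact d5
  · rw [h1]; exact key

include hW hcub hR in
theorem Good.rdW (h : Good G X K) (ft : Far G D K.t) (ft' : Far G D K.t')
    (hM : ∀ x, K.r.M x → ¬ D x) : RD G D K.r := by
  cases hr : K.r with
  | two => trivial
  | three u => exact hM u (by rw [hr]; rfl)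
  | six v2 v3 v4 v5 y =>
    have h1 : ∀ x, (x = v2 ∨ x = v3 ∨ x = v4 ∨ x = v5) → ¬ D x := by
      intro x hx
      exact hM x (by rw [hr]; exact hx)
    exact ⟨h1 _ (Or.inr (Or.inl rfl)), h1 _ (Or.inr (Or.inr (Or.inl rfl))),
      h.six_link hW hcub hR ft ft' hr (h1 _ (Or.inl rfl)) (h1 _ (Or.inr (Or.inr (Or.inr rfl))))⟩

include hW hcub hR in
/-- the configuration is off `D` -/
theorem Good.gw (h : Good G X K)
    (hf : Far G D K.t ∧ Far G D K.t' ∧ Far G D K.s ∧ Far G D K.s')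
    (hM : ∀ x, K.r.M x → ¬ D x) (hM' : ∀ x, K.r'.M x → ¬ D x) : GW G X D K :=
  ⟨h, hW, h.nb1 hW hcub hR, h.sw1.nb1 hW hcub hR, h.sw2.nb1 hW hcub hR,
    h.sw1.sw2.nb1 hW hcub hR, h.rdW hW hcub hR hf.1 hf.2.1 hM,
    h.sw3.rdW hW hcub hR hf.2.2.1 hf.2.2.2 hM'⟩

end

namespace GW

variable {K : Cfg V}

theorem far_t (h : GW G X D K) : Far G D K.t := by
  have k1 : ¬ D K.t := h.off.nD h.fr.nt.ha h.fr.Y1
  refine ⟨k1, fun d hd hadj => ?_⟩
  rcases h.fr.nt.all d hadj.symm with h1 | h1 | h1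
  · rw [h1] at hd
    exact h.off.nD h.fr.n1.ha (fun hh => h.fr.Y1 hh.symm) hd
  · rw [h1] at hd
    exact h.off.nD h.fr.n2.ha (fun hh => h.fr.Y2 hh.symm) hd
  · have rt := h.rt
    have rd := h.rd
    cases hr : K.r with
    | two =>
      rw [hr] at h1
      simp only [Rn.fst] at h1
      rw [h1] at hd
      exact h.off.nD h.fr.nt'.ha (fun hh => h.fr.Y3 (hh.trans h.fr.Xt')) hd
    | three u =>
      rw [hr] at h1 rd
      simp only [Rn.fst] at h1
      rw [h1] at hd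
      exact rd hd
    | six v2 v3 v4 v5 y =>
      rw [hr] at h1 rt
      simp only [Rn.fst, Rung] at h1 rt
      rw [h1] at hd
      exact h.off.nD rt.2.1.hc (fun hh => rt.1.2.2.2.2 (hh.trans rt.1.1)) hd

theorem far_y1 (h : GW G X D K) : Far G D K.y1 := by
  refine ⟨h.off.nD h.fr.n1.ha (fun hh => h.fr.Y1 hh.symm), fun d hd hadj => ?_⟩
  rcases h.fr.n1.all d hadj.symm with h1 | h1 | h1
  · exact h.far_t.1 (h1 ▸ hd)
  · have ns : ¬ D K.s := h.sw3.far_t.1
    exact ns (h1 ▸ hd)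
  · exact h.d1 (h1 ▸ hd)

theorem far_inn (h : GW G X D K) {x : V} (hx : K.r.inn x) : Far G D x := by
  have rt := h.rt
  have rd := h.rd
  have nt := h.far_t.1
  have nt' : ¬ D K.t' := h.sw2.far_t.1
  cases hr : K.r with
  | two => rw [hr] at hx; exact hx.elim
  | three u =>
    rw [hr] at hx rt rd
    simp only [Rn.inn, Rung, RD] at hx rt rd
    subst hx
    obtain ⟨h1, z, hz⟩ := rt
    have Xz : ¬ (X z ↔ X x) := fun hh =>
      side_at (h.nu hr) hz h.fr.Xt'.symm (hh.trans h1)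
    refine ⟨rd, fun d hd hadj => ?_⟩
    rcases hz.all d hadj.symm with h2 | h2 | h2
    · exact nt (h2 ▸ hd)
    · exact nt' (h2 ▸ hd)
    · exact h.off.nD hz.hc.symm (fun hh => Xz hh.symm) (h2 ▸ hd)
  | six v2 v3 v4 v5 y =>
    rw [hr] at hx rt rd
    simp only [Rn.inn, Rung, RD, P5] at hx rt rd
    obtain ⟨⟨h2, h3, h4, h5, hy⟩, n2, n5, ⟨z3, n3⟩, ⟨z4, n4⟩, b, n⟩ := rt
    have dy : ¬ D y := h.off.nD n.ha (fun hh => hy (hh.symm.trans h2))
    have d2 : ¬ D v2 := h.off.nD n2.hc (fun hh => hy (hh.trans h2))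
    have d5 : ¬ D v5 := h.off.nD n5.hc (fun hh => hy (hh.trans h5))
    have Xz3 : ¬ (X z3 ↔ X v3) := fun hh =>
      side_at (h.off.off _ rd.1) n3 (h2.trans h4.symm) ((hh.trans h3).trans h2.symm)
    have Xz4 : ¬ (X z4 ↔ X v4) := fun hh =>
      side_at (h.off.off _ rd.2.1) n4 (h5.trans h3.symm) ((hh.trans h4).trans h5.symm)
    rcases hx with hx | hx | hx | hx | hx
    · rw [hx]
      refine ⟨d2, fun d hd hadj => ?_⟩
      rcases n2.all d hadj.symm with e | e | e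
      · exact nt (e ▸ hd)
      · exact rd.1 (e ▸ hd)
      · exact dy (e ▸ hd)
    · rw [hx]
      refine ⟨rd.1, fun d hd hadj => ?_⟩
      rcases n3.all d hadj.symm with e | e | e
      · exact d2 (e ▸ hd)
      · exact rd.2.1 (e ▸ hd)
      · exact h.off.nD n3.hc.symm (fun hh => Xz3 hh.symm) (e ▸ hd)
    · rw [hx]
      refine ⟨rd.2.1, fun d hd hadj => ?_⟩
      rcases n4.all d hadj.symm with e | e | e
      · exact d5 (e ▸ hd)
      · exact rd.1 (e ▸ hd)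
      · exact h.off.nD n4.hc.symm (fun hh => Xz4 hh.symm) (e ▸ hd)
    · rw [hx]
      refine ⟨d5, fun d hd hadj => ?_⟩
      rcases n5.all d hadj.symm with e | e | e
      · exact nt' (e ▸ hd)
      · exact rd.2.1 (e ▸ hd)
      · exact dy (e ▸ hd)
    · rw [hx]
      exact ⟨dy, fun d hd hadj => rd.2.2 d hadj.symm hd⟩

/-- the region is far from `D` -/
theorem far (h : GW G X D K) : ∀ v, K.Lam v → Far G D v := by
  rintro v ((e | e | e | e | e | e | e | e) | e | e)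
  · rw [e]; exact h.far_t
  · rw [e]; exact h.sw2.far_t
  · rw [e]; exact h.sw3.far_t
  · rw [e]; exact h.sw3.sw2.far_t
  · rw [e]; exact h.far_y1
  · rw [e]; exact h.sw1.far_y1
  · rw [e]; exact h.sw2.far_y1
  · rw [e]; exact h.sw1.sw2.far_y1
  · exact h.far_inn e
  · exact h.sw3.far_inn e

/-- `y1` is in `Z` -/
theorem y1_mem {Z : Finset V} (hcub : ∀ v, (univ.filter fun b => G.Adj v b).card = 3)
    (hK : GW G X D K) (hI : InvZ G X Z) (ht : K.t ∈ Z) (hs : K.s ∈ Z) : K.y1 ∈ Z := by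
  by_contra hy
  obtain ⟨x, x1, x2, x3⟩ := hI.crs _ hy (hK.cc_y1 hcub)
  rcases hK.fr.n1.all x x1 with h | h | h
  · exact x3 (h ▸ ht)
  · exact x3 (h ▸ hs)
  · exact x2 (by rw [h]; exact hK.sb1)

theorem inn_mem {Z : Finset V} (hcub : ∀ v, (univ.filter fun b => G.Adj v b).card = 3)
    (hK : GW G X D K) (hI : InvZ G X Z) (hM : ∀ x, K.r.M x → x ∈ Z) :
    ∀ x, K.r.inn x → x ∈ Z := by
  intro x hx
  have rt := hK.rt
  cases hr : K.r with
  | two =>
    rw [hr] at hx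
    exact hx.elim
  | three u =>
    rw [hr] at hx hM
    exact hM x hx
  | six v2 v3 v4 v5 y =>
    rw [hr] at hx hM rt
    simp only [Rn.inn, Rn.M, Rung] at hx hM rt
    obtain ⟨⟨h2, h3, h4, h5, hy⟩, n2, n5, ⟨z3, n3⟩, ⟨z4, n4⟩, c, n⟩ := rt
    rcases hx with hx | hx | hx | hx | hx
    · exact hM x (Or.inl hx)
    · exact hM x (Or.inr (Or.inl hx))
    · exact hM x (Or.inr (Or.inr (Or.inl hx)))
    · exact hM x (Or.inr (Or.inr (Or.inr hx)))
    · rw [hx]
      by_contra hyZ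
      have hyc : ¬ (X v2 ↔ X y) := fun hh => hy (hh.symm.trans h2)
      have cy : cc G X y = 2 := cc_end' hK.off hcub n.ha n.hb n.ab hyc
        (fun hh => hy (hh.symm.trans h5))
      obtain ⟨w, w1, w2, w3⟩ := hI.crs _ hyZ cy
      rcases n.all w w1 with h | h | h
      · exact w3 (by rw [h]; exact hM _ (Or.inl rfl))
      · exact w3 (by rw [h]; exact hM _ (Or.inr (Or.inr (Or.inr rfl))))
      · apply w2
        rw [h]
        exact iff_of_ne_iff (c := X v2) (side_at (hK.off.crs n.ha hyc) n (h2.trans h5.symm))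
          (fun hh => hy (hh.trans h2))

/-- all vertices of the region are in `Z` -/
theorem lam_sub {Z : Finset V} (hcub : ∀ v, (univ.filter fun b => G.Adj v b).card = 3)
    (hK : GW G X D K)
    (hI : InvZ G X Z) (ht : K.t ∈ Z) (ht' : K.t' ∈ Z) (hs : K.s ∈ Z) (hs' : K.s' ∈ Z)
    (hM : ∀ x, K.r.M x → x ∈ Z) (hM' : ∀ x, K.r'.M x → x ∈ Z) : ∀ v, K.Lam v → v ∈ Z := by
  rintro v ((h | h | h | h | h | h | h | h) | h | h)
  · rw [h]; exact ht
  · rw [h]; exact ht'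
  · rw [h]; exact hs
  · rw [h]; exact hs'
  · rw [h]; exact hK.y1_mem hcub hI ht hs
  · rw [h]; exact hK.sw1.y1_mem hcub hI ht hs'
  · rw [h]; exact hK.sw2.y1_mem hcub hI ht' hs
  · rw [h]; exact hK.sw1.sw2.y1_mem hcub hI ht' hs'
  · exact hK.inn_mem hcub hI hM v h
  · exact hK.sw3.inn_mem hcub hI hM' v h

end GW

end Pool.Agent.helper58.L9
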