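import Pool.Agent.helper58.L9.KhStep

/-!
# The region theorem for K4, off a set of roots
-/

set_option autoImplicit false
set_option linter.unusedSectionVars false
set_option linter.unusedVariables false

namespace Pool.Agent.helper58.L9

open Finset Classical Helper33.L9 Helper17.L9
open Helper42.L9 hiding near
open Helper33.Off (ownN Far)
open K4

namespace K4

theorem SP.symm {a b c d : ℕ} (h : SP a b c d) : SP c d a b := by
  rcases h with ⟨rfl, rfl⟩ | ⟨rfl, rfl⟩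
  · exact Or.inl ⟨rfl, rfl⟩
  · exact Or.inr ⟨rfl, rfl⟩

theorem SP.trans {a b c d e f : ℕ} (h : SP a b c d) (h' : SP c d e f) : SP a b e f := by
  rcases h with ⟨rfl, rfl⟩ | ⟨rfl, rfl⟩ <;> rcases h' with ⟨rfl, rfl⟩ | ⟨rfl, rfl⟩
  · exact Or.inl ⟨rfl, rfl⟩
  · exact Or.inr ⟨rfl, rfl⟩
  · exact Or.inr ⟨rfl, rfl⟩
  · exact Or.inl ⟨rfl, rfl⟩

theorem SP.not {a b c d : ℕ} (h : b = d) (h' : a ≠ c) (h'' : a ≠ b) : ¬ SP a b c d := by
  rintro (⟨h1, h2⟩ | ⟨h1, h2⟩)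
  · exact h' h1
  · exact h'' (h1.trans h.symm)

end K4

variable {V : Type*} [Fintype V] {G : SimpleGraph V} {X D : V → Prop} {K : Cfg V}

/-- a vertex with an unlabelled cross neighbour can be labelled -/
theorem St.add_bW {L E : V → Prop} {f : V → ℕ} {y b c d t s : V} (hc : NMAt G X c)
    (hdn : NMAt G X d)
    (st : StG G X L E f) (hb : Nb G b y c d) (hy : Nb G y t s b) (Yb : ¬ X b) (Yy : ¬ X y)
    (Yc : ¬ X c) (Xt : X t) (Xs : X s) (hL : ¬ L b) (hd : ¬ L d) :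
    ∃ g : V → ℕ, StG G X (fun v => L v ∨ v = b) E g := by
  obtain ⟨q1, h1⟩ := partner_at (X := X) hc hb.hb.symm
  obtain ⟨q2, h2⟩ := partner_at (X := X) hdn hb.hc.symm
  obtain ⟨a, ⟨ho, h9⟩, a1, a2, a3, a4⟩ := five_odd (f y) (f c) (f q1) (f q2)
  obtain ⟨g, _, _, st'⟩ := st.one relG qadj_irr b a hL h9
    ⟨fun hh => absurd hh Yb, fun hh => by rw [Nat.even_iff] at hh; omega⟩
    (by
      rintro x ⟨hs, hne, hadj | ⟨w, hw1, hw2⟩⟩ hl _
      · rcases hb.all x hadj with h3 | h3 | h3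
        · rw [h3]; exact a1.symm
        · rw [h3]; exact a2.symm
        · exact absurd (h3 ▸ hl) hd
      · rcases hb.all w hw1 with h3 | h3 | h3
        · rw [h3] at hw2
          rcases hy.all x hw2 with h4 | h4 | h4
          · exact absurd (hs.mpr (by rw [h4]; exact Xt)) Yb
          · exact absurd (hs.mpr (by rw [h4]; exact Xs)) Yb
          · exact absurd h4.symm hne
        · rw [h3] at hw2
          rw [h1 x hw2 hs.symm hne.symm]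
          exact a3.symm
        · rw [h3] at hw2
          rw [h2 x hw2 hs.symm hne.symm]
          exact a4.symm)
    (by
      intro x hadj hs hl _
      rcases hb.all x hadj with h3 | h3 | h3
      · exact absurd (iff_of_false Yb (by rw [h3]; exact Yy)) hs
      · exact absurd (iff_of_false Yb (by rw [h3]; exact Yc)) hs
      · exact absurd (h3 ▸ hl) hd)
  exact ⟨g, st'⟩

/-- the alternative for a configuration -/
def AltW (G : SimpleGraph V) (X D : V → Prop) (K : Cfg V) (Z : Finset V) : Prop :=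
  ExtZ G X Z K.Lam ∨ (K.b1 ∈ Z ∧ Far G D K.b1 ∧
    (∃ c, G.Adj K.b1 c ∧ (X c ↔ X K.b1) ∧ c ≠ K.y1) ∧
      ExtZ G X Z (fun v => K.Lam v ∨ v = K.b1))

/-- the types with small rungs -/
def Ty (K : Cfg V) : Prop := (K.r = Rn.two ∧ (K.r' = Rn.two ∨ ∃ v, K.r' = Rn.three v)) ∨
  ((∃ u, K.r = Rn.three u) ∧ ∃ v, K.r' = Rn.three v)

theorem Ty.sw1 (h : Ty K) : Ty K.sw1 := by
  rcases h with ⟨h1, h2 | ⟨v, h2⟩⟩ | ⟨⟨u, h1⟩, v, h2⟩
  · exact Or.inl ⟨h1, Or.inl (by simp [Cfg.sw1, h2, Rn.rev])⟩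
  · exact Or.inl ⟨h1, Or.inr ⟨v, by simp [Cfg.sw1, h2, Rn.rev]⟩⟩
  · exact Or.inr ⟨⟨u, h1⟩, v, by simp [Cfg.sw1, h2, Rn.rev]⟩

theorem Ty.sw2 (h : Ty K) : Ty K.sw2 := by
  rcases h with ⟨h1, h2⟩ | ⟨⟨u, h1⟩, h2⟩
  · exact Or.inl ⟨by simp [Cfg.sw2, h1, Rn.rev], h2⟩
  · exact Or.inr ⟨⟨u, by simp [Cfg.sw2, h1, Rn.rev]⟩, h2⟩

/-- the vertices of the region on the side of the `y` -/
theorem GW.hX8 (h : GW G X D K) (hXt : X K.t) (hr : Ty K) :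
    ∀ x, K.Lam x → ¬ X x → Ys K.y1 K.y2 K.y3 K.y4 x := by
  have Xt' : X K.t' := h.fr.Xt'.mpr hXt
  have Xs : X K.s := h.fr.Xs.mpr hXt
  have Xs' : X K.s' := h.fr.Xs'.mpr hXt
  have hu : ∀ x, K.r.inn x ∨ K.r'.inn x → X x := by
    rcases hr with ⟨h1, h2 | ⟨v, h2⟩⟩ | ⟨⟨u, h1⟩, v, h2⟩
    · rw [h1, h2]
      rintro x (hx | hx) <;> exact hx.elim
    · have Xv := (h.mid' hXt h2).1
      rw [h1, h2]
      rintro x (hx | hx)
      · exact hx.elim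
      · simp only [Rn.inn] at hx
        rw [hx]
        exact Xv
    · have Xu := (h.mid hXt h1).1
      have Xv := (h.mid' hXt h2).1
      rw [h1, h2]
      rintro x (hx | hx)
      · simp only [Rn.inn] at hx
        rw [hx]
        exact Xu
      · simp only [Rn.inn] at hx
        rw [hx]
        exact Xv
  intro x hx hXx
  rcases hx with (h1 | h1 | h1 | h1 | h1 | h1 | h1 | h1) | h1
  · exact absurd (by rw [h1]; exact hXt) hXx
  · exact absurd (by rw [h1]; exact Xt') hXx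
  · exact absurd (by rw [h1]; exact Xs) hXx
  · exact absurd (by rw [h1]; exact Xs') hXx
  · exact Or.inl h1
  · exact Or.inr (Or.inl h1)
  · exact Or.inr (Or.inr (Or.inl h1))
  · exact Or.inr (Or.inr (Or.inr h1))
  · exact absurd (hu x h1) hXx

/-- behind `b1` -/
def Bh (G : SimpleGraph V) (X : V → Prop) (y b c : V) : Prop :=
  G.Adj b c ∧ (X c ↔ X b) ∧ c ≠ y

/-- **Regions with rungs with two or three vertices**, `b1` is no leg. -/
theorem GW.ext1 (hcub : ∀ v, (univ.filter fun b => G.Adj v b).card = 3)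
    (h : GW G X D K) (hXt : X K.t) (hr : Ty K) {Z : Finset V} (hsub : ∀ v, K.Lam v → v ∈ Z)
    (hb : ∀ c, Bh G X K.y1 K.b1 c → ¬ D c) : AltW G X D K Z := by
  obtain ⟨B1, B2, B3, B4, C1, C2, C3, C4, ho⟩ := h.out hXt
  have hM : ∀ x, (K.r.M x ∨ K.r'.M x) → K.Lam x := by
    rintro x (hx | hx)
    · exact Or.inr (Or.inl (Rn.M_inn _ _ hx))
    · exact Or.inr (Or.inr (Rn.M_inn _ _ hx))
  have hX8 := h.hX8 hXt hr
  by_cases hall : (B1 ≠ C1 ∧ B1 ∈ Z ∧ C1 ∈ Z) ∧ (B2 ≠ C2 ∧ B2 ∈ Z ∧ C2 ∈ Z) ∧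
      (B3 ≠ C3 ∧ B3 ∈ Z ∧ C3 ∈ Z) ∧ (B4 ≠ C4 ∧ B4 ∈ Z ∧ C4 ∈ Z)
  · obtain ⟨⟨n1, zB1, zC1⟩, ⟨n2, zB2, zC2⟩, ⟨n3, zB3, zC3⟩, n4, zB4, zC4⟩ := hall
    obtain ⟨e1, yb1, adj1, Xc1, cy1, yc1⟩ := ho.i1 n1
    obtain ⟨d, hd⟩ := nb_third hcub h.fr.n1.hc.symm adj1 cy1.symm
    by_cases hdZ : d ∈ Z
    · -- everything is labelled
      left
      apply extZ_of_kext hsub
      intro E f st0
      obtain ⟨f1, hn, st⟩ := norm_st st0
      have hL : ∀ v, K.Lam v → ¬ (v ∈ Z ∧ ¬ K.Lam v) := fun v hv hh => hh.2 hv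
      obtain ⟨zz, l1, l2, hs⟩ := h.sel kok_knd hcub hXt hr hL st hn
      obtain ⟨e2, yb2, -, -, -, yc2⟩ := ho.i2 n2
      obtain ⟨e3, yb3, -, -, -, yc3⟩ := ho.i3 n3
      obtain ⟨e4, yb4, -, -, -, yc4⟩ := ho.i4 n4
      have out : ∀ x, x ∈ Z → ¬ X x → ¬ Ys K.y1 K.y2 K.y3 K.y4 x → x ∈ Z ∧ ¬ K.Lam x :=
        fun x h1 h2 h3 => ⟨h1, fun h4 => h3 (hX8 x h4 h2)⟩
      exact h.stepF hcub hXt ho hL st hs n1 n2 n3 n4
        (out _ zB1 ho.reg.B1 (by rw [e1]; exact yb1)) (out _ zC1 ho.reg.C1 yc1)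
        (out _ zB2 ho.reg.B2 (by rw [e2]; exact yb2)) (out _ zC2 ho.reg.C2 yc2)
        (out _ zB3 ho.reg.B3 (by rw [e3]; exact yb3)) (out _ zC3 ho.reg.C3 yc3)
        (out _ zB4 ho.reg.B4 (by rw [e4]; exact yb4)) (out _ zC4 ho.reg.C4 yc4) hd
        (by
          by_cases hl : K.Lam d
          · exact Or.inr hl
          · exact Or.inl ⟨hdZ, hl⟩)
    · -- `b1` belongs to the region
      right
      have hC1D : ¬ D C1 := hb C1 ⟨adj1, Xc1, cy1⟩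
      have Xd : ¬ (X d ↔ X K.b1) := fun hh =>
        side_at (h.off.off _ h.d1) hd (h.sb1.symm.trans Xc1.symm) (hh.trans h.sb1)
      have hdD : ¬ D d := h.off.nD hd.hc.symm (fun hh => Xd hh.symm)
      refine ⟨e1 ▸ zB1, ⟨h.d1, fun e he hadj => ?_⟩, ⟨C1, adj1, Xc1, cy1⟩, ?_⟩
      · rcases hd.all e hadj.symm with h1 | h1 | h1
        · exact h.far_y1.1 (h1 ▸ he)
        · exact hC1D (h1 ▸ he)
        · exact hdD (h1 ▸ he)
      have Yb : ¬ X K.b1 := e1 ▸ ho.reg.B1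
      have hsub' : ∀ v, (K.Lam v ∨ v = K.b1) → v ∈ Z := by
        rintro v (hv | hv)
        · exact hsub v hv
        · rw [hv]; exact e1 ▸ zB1
      apply extZ_of_kext hsub'
      intro E f st0
      obtain ⟨f1, hn, st⟩ := norm_st st0
      have hL : ∀ v, K.Lam v → ¬ (v ∈ Z ∧ ¬ (K.Lam v ∨ v = K.b1)) :=
        fun v hv hh => hh.2 (Or.inl hv)
      obtain ⟨zz, l1, l2, hs⟩ := h.sel kok_knd hcub hXt hr hL st hn
      have hbL : ¬ K.Lam K.b1 := fun hh => yb1 (hX8 _ hh Yb)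
      obtain ⟨g, st1⟩ := h.stepP kok_knd hcub ho hL hs (by
        rintro ⟨⟨hh, _⟩, _⟩
        rw [e1] at hh
        rcases hh with hh | hh
        · exact hh.2 (Or.inr rfl)
        · exact hbL (hM _ hh))
      obtain ⟨g', st2⟩ := St.add_bW (h.off.off _ hC1D) (h.off.off _ hdD) st1 hd h.fr.n1 Yb
        ho.reg.Y1 ho.reg.C1 ho.reg.Xt ho.reg.Xs
        (by
          rintro (hh | hh)
          · exact hh.2 (Or.inr rfl)
          · exact hbL hh)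
        (by
          rintro (hh | hh)
          · exact hdZ hh.1
          · exact hdZ (hsub _ hh))
      exact ⟨g', E, st2.congr (fun v => or_assoc) (fun v => Iff.rfl)⟩
  · -- parity
    left
    apply extZ_of_kext hsub
    intro E f st0
    obtain ⟨f1, hn, st⟩ := norm_st st0
    have hL : ∀ v, K.Lam v → ¬ (v ∈ Z ∧ ¬ K.Lam v) := fun v hv hh => hh.2 hv
    obtain ⟨zz, l1, l2, hs⟩ := h.sel kok_knd hcub hXt hr hL st hn
    have hT : ∀ x, ((x ∈ Z ∧ ¬ K.Lam x) ∨ K.r.M x ∨ K.r'.M x) → x ∈ Z := by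
      rintro x (hx | hx)
      · exact hx.1
      · exact hsub x (hM x hx)
    obtain ⟨g, st1⟩ := h.stepP kok_knd hcub ho hL hs (by
      rintro ⟨⟨p1, p2, p3⟩, ⟨q1, q2, q3⟩, ⟨r1, r2, r3⟩, s1, s2, s3⟩
      exact hall ⟨⟨p3, hT _ p1, hT _ p2⟩, ⟨q3, hT _ q1, hT _ q2⟩, ⟨r3, hT _ r1, hT _ r2⟩,
        s3, hT _ s1, hT _ s2⟩)
    exact ⟨g, E, st1⟩

/-- two vertices with a common vertex behind them have different labels -/
theorem GW.lab_ne {L E : V → Prop} {f : V → ℕ} (h : GW G X D K) (hL : ∀ v, K.Lam v → ¬ L v)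
    (st : StG G X L E f) {y b y' b' c : V} (hy : K.Lam y) (hy' : K.Lam y') (hyb : G.Adj y b)
    (hyb' : G.Adj y' b') (hb : NMAt G X b) (hs : X b ↔ X y) (hyy : y ≠ y')
    (hs' : X b' ↔ X y') (h1 : Bh G X y b c) (h2 : Bh G X y' b' c) (lb : L b) (lb' : L b') :
    f b ≠ f b' := by
  have hbb : b ≠ b' := by
    rintro rfl
    exact hb y y' c hyb.symm hyb'.symm h1.1 hyy h1.2.2.symm h2.2.2.symm
      ⟨hs.symm.trans hs', hs.symm.trans h1.2.1.symm⟩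
  have hE : ∀ y x, K.Lam y → near G y x → ¬ E x := fun y x hy hn hE =>
    hL _ hy (st.inv x _ hE (near_symm hn))
  exact st.par.q _ _ ⟨lb, hE y b hy ⟨hyb.ne, Or.inl hyb⟩⟩ ⟨lb', hE y' b' hy' ⟨hyb'.ne, Or.inl hyb'⟩⟩
    ⟨h1.2.1.symm.trans h2.2.1, hbb, Or.inr ⟨c, h1.1, h2.1.symm⟩⟩

/-- the vertex behind `b` is unique -/
theorem Bh.uniq {y b c c' : V} (hb : NMAt G X b) (hyb : G.Adj y b) (hs : X b ↔ X y)
    (h1 : Bh G X y b c) (h2 : Bh G X y b c') : c = c' := by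
  by_contra hne
  exact hb y c c' hyb.symm h1.1 h2.1 h1.2.2.symm h2.2.2.symm hne
    ⟨hs.symm.trans h1.2.1.symm, hs.symm.trans h2.2.1.symm⟩

/-- **Regions with rungs with two or three vertices**, two of the `b` are legs of one root. -/
theorem GW.extA (hcub : ∀ v, (univ.filter fun b => G.Adj v b).card = 3)
    (h : GW G X D K) (hXt : X K.t) (hr : Ty K) {Z : Finset V} (hsub : ∀ v, K.Lam v → v ∈ Z)
    (hb : (∃ c, Bh G X K.y1 K.b1 c ∧ Bh G X K.y2 K.b2 c) ∨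
      (∃ c, Bh G X K.y1 K.b1 c ∧ Bh G X K.y3 K.b3 c) ∨
      (∃ c, Bh G X K.y2 K.b2 c ∧ Bh G X K.y3 K.b3 c)) : ExtZ G X Z K.Lam := by
  obtain ⟨B1, B2, B3, B4, C1, C2, C3, C4, ho⟩ := h.out hXt
  have hM : ∀ x, (K.r.M x ∨ K.r'.M x) → K.Lam x := by
    rintro x (hx | hx)
    · exact Or.inr (Or.inl (Rn.M_inn _ _ hx))
    · exact Or.inr (Or.inr (Rn.M_inn _ _ hx))
  have hX8 := h.hX8 hXt hr
  apply extZ_of_kext hsub
  intro E f st0
  obtain ⟨f1, hn, st⟩ := norm_st st0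
  have hL : ∀ v, K.Lam v → ¬ (v ∈ Z ∧ ¬ K.Lam v) := fun v hv hh => hh.2 hv
  obtain ⟨zz, l1, l2, hs⟩ := h.sel kok_kndQ hcub hXt hr hL st hn
  by_cases hall : (B1 ≠ C1 ∧ B1 ∈ Z ∧ C1 ∈ Z) ∧ (B2 ≠ C2 ∧ B2 ∈ Z ∧ C2 ∈ Z) ∧
      (B3 ≠ C3 ∧ B3 ∈ Z ∧ C3 ∈ Z) ∧ (B4 ≠ C4 ∧ B4 ∈ Z ∧ C4 ∈ Z)
  · obtain ⟨⟨n1, zB1, zC1⟩, ⟨n2, zB2, zC2⟩, ⟨n3, zB3, zC3⟩, n4, zB4, zC4⟩ := hall
    obtain ⟨e1, yb1, a1, Xc1, cy1, yc1⟩ := ho.i1 n1
    obtain ⟨e2, yb2, a2, Xc2, cy2, yc2⟩ := ho.i2 n2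
    obtain ⟨e3, yb3, a3, Xc3, cy3, yc3⟩ := ho.i3 n3
    obtain ⟨e4, yb4, -, -, -, yc4⟩ := ho.i4 n4
    have out : ∀ x, x ∈ Z → ¬ X x → ¬ Ys K.y1 K.y2 K.y3 K.y4 x → x ∈ Z ∧ ¬ K.Lam x :=
      fun x h1 h2 h3 => ⟨h1, fun h4 => h3 (hX8 x h4 h2)⟩
    have lB1 := out _ zB1 ho.reg.B1 (by rw [e1]; exact yb1)
    have lB2 := out _ zB2 ho.reg.B2 (by rw [e2]; exact yb2)
    have lB3 := out _ zB3 ho.reg.B3 (by rw [e3]; exact yb3)
    have lB4 := out _ zB4 ho.reg.B4 (by rw [e4]; exact yb4)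
    have lC1 := out _ zC1 ho.reg.C1 yc1
    have lC2 := out _ zC2 ho.reg.C2 yc2
    have lC3 := out _ zC3 ho.reg.C3 yc3
    have lC4 := out _ zC4 ho.reg.C4 yc4
    refine h.stepQ hcub hXt ho hL st hs n1 n2 n3 n4 lB1 lC1 lB2 lC2 lB3 lC3 lB4 lC4 ?_
    rintro ⟨s14, s23, s12⟩
    have g1 : Bh G X K.y1 K.b1 C1 := ⟨a1, Xc1, cy1⟩
    have g2 : Bh G X K.y2 K.b2 C2 := ⟨a2, Xc2, cy2⟩
    have g3 : Bh G X K.y3 K.b3 C3 := ⟨a3, Xc3, cy3⟩
    have x1 := h.sb1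
    have x2 : X K.b2 ↔ X K.y2 := h.sw1.sb1
    have x3 : X K.b3 ↔ X K.y3 := h.sw2.sb1
    have m1 := h.off.off _ h.d1
    have m2 := h.off.off _ h.d2
    have m3 := h.off.off _ h.d3
    have u1 : ∀ c, Bh G X K.y1 K.b1 c → C1 = c := fun c hc => g1.uniq m1 h.fr.n1.hc x1 hc
    have u2 : ∀ c, Bh G X K.y2 K.b2 c → C2 = c := fun c hc => g2.uniq m2 h.fr.n2.hc x2 hc
    have u3 : ∀ c, Bh G X K.y3 K.b3 c → C3 = c := fun c hc => g3.uniq m3 h.fr.n3.hc x3 hc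
    have nbc : ∀ {y b C : V}, K.Lam y → G.Adj y b → Bh G X y b C →
        (b ∈ Z ∧ ¬ K.Lam b) → (C ∈ Z ∧ ¬ K.Lam C) →
        f1 b ≠ f1 C := by
      intro y b C hy hyb hB lb lC
      have hE : ∀ x, near G y x → ¬ E x := fun x hn hE => hL _ hy (st.inv x _ hE (near_symm hn))
      exact st.par.q _ _ ⟨lb, hE _ ⟨hyb.ne, Or.inl hyb⟩⟩
        ⟨lC, hE _ ⟨hB.2.2.symm, Or.inr ⟨b, hyb, hB.1⟩⟩⟩ ⟨hB.2.1.symm, hB.1.ne, Or.inl hB.1⟩
    rcases hb with ⟨c, c1, c2⟩ | ⟨c, c1, c2⟩ | ⟨c, c1, c2⟩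
    · have e := (u1 c c1).trans (u2 c c2).symm
      have hne := h.lab_ne hL st K.lam_y1 K.lam_y2 h.fr.n1.hc h.fr.n2.hc m1 x1 h.fr.nt.ab x2
        c1 c2 (e1 ▸ lB1) (e2 ▸ lB2)
      have hn1 := nbc K.lam_y1 h.fr.n1.hc g1 (e1 ▸ lB1) lC1
      rw [← e1, ← e2] at hne
      rw [← e1] at hn1
      exact SP.not (by rw [e]) hne hn1 s12
    · have e := (u1 c c1).trans (u3 c c2).symm
      have hne := h.lab_ne hL st K.lam_y1 K.lam_y3 h.fr.n1.hc h.fr.n3.hc m1 x1 h.fr.ns.ab x3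
        c1 c2 (e1 ▸ lB1) (e3 ▸ lB3)
      have hn1 := nbc K.lam_y1 h.fr.n1.hc g1 (e1 ▸ lB1) lC1
      rw [← e1, ← e3] at hne
      rw [← e1] at hn1
      exact SP.not (by rw [e]) hne hn1 (s12.trans s23)
    · have e := (u2 c c1).trans (u3 c c2).symm
      have hne := h.lab_ne hL st K.lam_y2 K.lam_y3 h.fr.n2.hc h.fr.n3.hc m2 x2 h.fr.y23 x3
        c1 c2 (e2 ▸ lB2) (e3 ▸ lB3)
      have hn1 := nbc K.lam_y2 h.fr.n2.hc g2 (e2 ▸ lB2) lC2
      rw [← e2, ← e3] at hne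
      rw [← e2] at hn1
      exact SP.not (by rw [e]) hne hn1 s23
  · -- parity
    have hT : ∀ x, ((x ∈ Z ∧ ¬ K.Lam x) ∨ K.r.M x ∨ K.r'.M x) → x ∈ Z := by
      rintro x (hx | hx)
      · exact hx.1
      · exact hsub x (hM x hx)
    obtain ⟨g, st1⟩ := h.stepP kok_kndQ hcub ho hL hs (by
      rintro ⟨⟨p1, p2, p3⟩, ⟨q1, q2, q3⟩, ⟨r1, r2, r3⟩, s1, s2, s3⟩
      exact hall ⟨⟨p3, hT _ p1, hT _ p2⟩, ⟨q3, hT _ q1, hT _ q2⟩, ⟨r3, hT _ r1, hT _ r2⟩,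
        s3, hT _ s1, hT _ s2⟩)
    exact ⟨g, E, st1⟩

/-- some version of the configuration has the alternative -/
def AnyW (G : SimpleGraph V) (X D : V → Prop) (K : Cfg V) (Z : Finset V) : Prop :=
  ∃ K' : Cfg V, GW G X D K' ∧ (∀ v, K'.Lam v ↔ K.Lam v) ∧ AltW G X D K' Z

/-- small types -/
theorem GW.ext_23 (hcub : ∀ v, (univ.filter fun b => G.Adj v b).card = 3)
    (htwo : ∃ x z, ∀ d, D d → d = x ∨ d = z)
    (h : GW G X D K) (hXt : X K.t) (hr : Ty K) {Z : Finset V} (hsub : ∀ v, K.Lam v → v ∈ Z) :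
    AnyW G X D K Z := by
  by_cases hb1 : ∀ c, Bh G X K.y1 K.b1 c → ¬ D c
  · exact ⟨K, h, fun v => Iff.rfl, h.ext1 hcub hXt hr hsub hb1⟩
  by_cases hb2 : ∀ c, Bh G X K.y2 K.b2 c → ¬ D c
  · refine ⟨K.sw1, h.sw1, fun v => lam_sw1 K v, h.sw1.ext1 hcub hXt hr.sw1
      (fun v hv => hsub v ((lam_sw1 K v).mp hv)) hb2⟩
  by_cases hb3 : ∀ c, Bh G X K.y3 K.b3 c → ¬ D c
  · refine ⟨K.sw2, h.sw2, fun v => lam_sw2 K v, h.sw2.ext1 hcub (h.fr.Xt'.mpr hXt) hr.sw2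
      (fun v hv => hsub v ((lam_sw2 K v).mp hv)) hb3⟩
  push Not at hb1 hb2 hb3
  obtain ⟨c1, k1, d1⟩ := hb1
  obtain ⟨c2, k2, d2⟩ := hb2
  obtain ⟨c3, k3, d3⟩ := hb3
  obtain ⟨x, z, hxz⟩ := htwo
  refine ⟨K, h, fun v => Iff.rfl, Or.inl (h.extA hcub hXt hr hsub ?_)⟩
  by_cases e12 : c1 = c2
  · exact Or.inl ⟨c1, k1, e12 ▸ k2⟩
  by_cases e13 : c1 = c3
  · exact Or.inr (Or.inl ⟨c1, k1, e13 ▸ k3⟩)
  · have e23 : c2 = c3 := by
      rcases hxz c1 d1 with r1 | r1 <;> rcases hxz c2 d2 with r2 | r2 <;>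
        rcases hxz c3 d3 with r3 | r3
      · exact absurd (r1.trans r2.symm) e12
      · exact absurd (r1.trans r2.symm) e12
      · exact absurd (r1.trans r3.symm) e13
      · exact r2.trans r3.symm
      · exact r2.trans r3.symm
      · exact absurd (r1.trans r3.symm) e13
      · exact absurd (r1.trans r2.symm) e12
      · exact absurd (r1.trans r2.symm) e12
    exact Or.inr (Or.inr ⟨c2, k2, e23 ▸ k3⟩)

/-- all types, `t` in `X` -/
theorem GW.alt_X (hcub : ∀ v, (univ.filter fun b => G.Adj v b).card = 3)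
    (hst : ∀ v, ¬ D v → StarAt G X v) (htwo : ∃ x z, ∀ d, D d → d = x ∨ d = z)
    (h : GW G X D K) (hXt : X K.t) {Z : Finset V}
    (hsub : ∀ v, K.Lam v → v ∈ Z) : AnyW G X D K Z := by
  have hXs : X K.sw3.t := h.fr.Xs.mpr hXt
  have hsub3 : ∀ v, K.sw3.Lam v → v ∈ Z := fun v hv => hsub v ((lam_sw3 K v).mp hv)
  have tr : AnyW G X D K.sw3 Z → AnyW G X D K Z := by
    rintro ⟨K', k1, k2, k3⟩
    exact ⟨K', k1, fun v => (k2 v).trans (lam_sw3 K v), k3⟩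
  cases hr : K.r with
  | two =>
    cases hr' : K.r' with
    | two => exact h.ext_23 hcub htwo hXt (Or.inl ⟨hr, Or.inl hr'⟩) hsub
    | three v => exact h.ext_23 hcub htwo hXt (Or.inl ⟨hr, Or.inr ⟨v, hr'⟩⟩) hsub
    | six v2 v3 v4 v5 y =>
      exact ⟨K.sw3, h.sw3, fun v => lam_sw3 K v,
        Or.inl (h.sw3.ext_six hcub hst hXs (K := K.sw3) hr' hsub3)⟩
  | three u =>
    cases hr' : K.r' with
    | two =>
      exact tr (h.sw3.ext_23 hcub htwo hXs (K := K.sw3) (Or.inl ⟨hr', Or.inr ⟨u, hr⟩⟩) hsub3)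
    | three v => exact h.ext_23 hcub htwo hXt (Or.inr ⟨⟨u, hr⟩, v, hr'⟩) hsub
    | six v2 v3 v4 v5 y =>
      exact ⟨K.sw3, h.sw3, fun v => lam_sw3 K v,
        Or.inl (h.sw3.ext_six hcub hst hXs (K := K.sw3) hr' hsub3)⟩
  | six v2 v3 v4 v5 y =>
    exact ⟨K, h, fun v => Iff.rfl, Or.inl (h.ext_six hcub hst hXt hr hsub)⟩

theorem AltW.refl {Z : Finset V} (h : AltW G (fun v => ¬ X v) D K Z) : AltW G X D K Z := by
  rcases h with h | ⟨h1, h0, ⟨c, h2, h3, h4⟩, h5⟩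
  · exact Or.inl h.refl
  · exact Or.inr ⟨h1, h0, ⟨c, h2, not_iff_not.mp h3, h4⟩, h5.refl⟩

theorem offW_refl' (h : OffW G (fun v => ¬ X v) D) : OffW G X D := by
  have := h.refl
  have e : (fun v => ¬ ¬ X v) = X := by
    funext v
    simp
  rw [e] at this
  exact this

theorem GW.refl' (h : GW G (fun v => ¬ X v) D K) : GW G X D K := by
  have := h.refl
  have e : (fun v => ¬ ¬ X v) = X := by
    funext v
    simp
  rw [e] at this
  exact this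

/-- all types -/
theorem GW.alt (hcub : ∀ v, (univ.filter fun b => G.Adj v b).card = 3)
    (hst : ∀ v, ¬ D v → StarAt G X v) (htwo : ∃ x z, ∀ d, D d → d = x ∨ d = z)
    (h : GW G X D K) {Z : Finset V}
    (hsub : ∀ v, K.Lam v → v ∈ Z) : AnyW G X D K Z := by
  by_cases hXt : X K.t
  · exact h.alt_X hcub hst htwo hXt hsub
  · obtain ⟨K', k1, k2, k3⟩ := h.refl.alt_X hcub (fun v hv => starAt_refl (hst v hv)) htwo hXt hsub
    exact ⟨K', k1.refl', k2, k3.refl⟩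

/-- **A configuration gives a region.** -/
theorem GW.region (hcub : ∀ v, (univ.filter fun b => G.Adj v b).card = 3)
    (h : GW G X D K) {Z : Finset V} (hI : InvZ G X Z) (hsub : ∀ v, K.Lam v → v ∈ Z)
    (ha : AltW G X D K Z) : ∃ Lam, Region G X Z Lam ∧ ∀ v ∈ Lam, Far G D v := by
  have hcl := h.cl hcub
  have hfar := h.far
  have k1 : ∀ w, K.Lam w → ∀ a b, ownR G X w a → ownR G X w b → ¬ K.Lam a → ¬ K.Lam b → a = b := by
    intro w hw a b h1 h2 h3 h4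
    rcases cc_23 G X w with h5 | h5
    · exact own_one' hcub h5 h1 h2
    · exact absurd ((hcl w hw).2 h5 a h1.1 h1.2.symm) h3
  have k2 : ∀ y, K.Lam y → cc G X y = 2 → ∃ x, G.Adj y x ∧ ¬ (X x ↔ X y) ∧ K.Lam x := by
    intro y hy h2
    have h3 := cc_two'.mp h2
    have h4 : (cr G X y).Nonempty := by
      rw [← Finset.card_pos]
      omega
    obtain ⟨x, hx⟩ := h4
    rw [mem_cr] at hx
    exact ⟨x, hx.1, hx.2, (hcl y hy).1 h2 x hx.1 hx.2⟩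
  rcases ha with he | ⟨h1, h0, ⟨c, h2, h3, h4⟩, he⟩
  · obtain ⟨Lam, l1, l2⟩ := region_of' hI hsub K.lam_t k1 k2 he
    exact ⟨Lam, l1, fun v hv => hfar v ((l2 v).mp hv)⟩
  · have Yy : X K.y1 ↔ X K.b1 := h.sb1.symm
    obtain ⟨Lam, l1, l2⟩ := region_of' (Lm := fun v => K.Lam v ∨ v = K.b1) (t := K.t) hI (by
        rintro v (hv | hv)
        · exact hsub v hv
        · rw [hv]; exact h1) (Or.inl K.lam_t) (by
        rintro w (hw | hw) a b h5 h6 h7 h8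
        · exact k1 w hw a b h5 h6 (fun hh => h7 (Or.inl hh)) (fun hh => h8 (Or.inl hh))
        · rw [hw] at h5 h6
          by_contra hne
          have ya : K.y1 ≠ a := fun hh => h7 (Or.inl (hh ▸ K.lam_y1))
          have yb : K.y1 ≠ b := fun hh => h8 (Or.inl (hh ▸ K.lam_y1))
          exact h.off.off _ h.d1 K.y1 a b h.fr.n1.hc.symm h5.1 h6.1 ya yb hne
            ⟨Yy.trans h5.2, Yy.trans h6.2⟩) (by
        rintro y (hy | hy) h5
        · obtain ⟨x, h6, h7, h8⟩ := k2 y hy h5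
          exact ⟨x, h6, h7, Or.inl h8⟩
        · exfalso
          rw [hy] at h5
          have := cc_inner' hcub h.fr.n1.hc.symm h2 h4.symm Yy h3
          omega) he
    refine ⟨Lam, l1, fun v hv => ?_⟩
    rcases (l2 v).mp hv with hv | hv
    · exact hfar v hv
    · rw [hv]; exact h0

/-- **The region theorem for K4, off a set of roots.** -/
theorem k4_region_off {N : V → Prop} (hW : OffW G X D) (hR : NoRepair G X D)
    (hcub : ∀ v, (univ.filter fun b => G.Adj v b).card = 3)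
    (hst : ∀ v, ¬ D v → StarAt G X v) (htwo : ∃ x z, ∀ d, D d → d = x ∨ d = z)
    (hN : ∀ v, N v → Far G D v) {Z S : Finset V} (hI : InvZ G X Z) (hS : StuckZ G X Z S)
    {a b d e : V} (ha : cc G X a = 2) (hb : cc G X b = 2) (hd : cc G X d = 2)
    (he : cc G X e = 2) (na : N a) (nb : N b) (nd : N d) (ne : N e) (hn : [a, b, d, e].Nodup)
    (h1 : Rg (ownN G X N) (cc G X) (QE G X S).val a b)
    (h2 : Rg (ownN G X N) (cc G X) (QE G X S).val a d)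
    (h3 : Rg (ownN G X N) (cc G X) (QE G X S).val a e)
    (h4 : Rg (ownN G X N) (cc G X) (QE G X S).val b d)
    (h5 : Rg (ownN G X N) (cc G X) (QE G X S).val b e)
    (h6 : Rg (ownN G X N) (cc G X) (QE G X S).val d e) :
    ∃ Lam, Region G X Z Lam ∧ ∀ v ∈ Lam, Far G D v := by
  obtain ⟨K, hK, ⟨st, st', ss, ss'⟩, hf, m1, m2⟩ :=
    find_k4W hW hcub hN (fun v hv => hst v (hN v hv).1) hI hS ha hb hd he (hN a na) (hN b nb)
      (hN d nd) (hN e ne) hn h1 h2 h3 h4 h5 h6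
  have hg : GW G X D K := hK.gw hW hcub hR hf (fun x hx => (m1 x hx).2) (fun x hx => (m2 x hx).2)
  have hsub := hg.lam_sub hcub hI (hS.1 st) (hS.1 st') (hS.1 ss) (hS.1 ss')
    (fun x hx => (m1 x hx).1) (fun x hx => (m2 x hx).1)
  obtain ⟨K', k1, k2, k3⟩ := hg.alt hcub hst htwo hsub
  exact k1.region hcub hI (fun v hv => hsub v ((k2 v).mp hv)) k3

end Pool.Agent.helper58.L9
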