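import Pool.Agent.helper58.L9.KhFind

/-!
# Disjointness of the parts
-/

set_option autoImplicit false
set_option linter.unusedSectionVars false
set_option linter.unusedVariables false

namespace Pool.Agent.helper58.L9

open Finset Classical Helper33.L9 Helper17.L9
open Helper42.L9 hiding near


variable {V : Type*} [Fintype V] {G : SimpleGraph V} {X D : V → Prop}

variable {K : Cfg V}

section

variable (hcub : ∀ v, (univ.filter fun b => G.Adj v b).card = 3)

include hcub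

/-- the vertices of a rung -/
theorem GW.inn_info (h : GW G X D K) {x : V} (hx : K.r.inn x) :
    (cc G X x = 3 ∧ (X x ↔ X K.t)) ∨
    (cc G X x = 2 ∧ ¬ (X x ↔ X K.t) ∧ ∃ w, G.Adj x w ∧ cc G X w = 3 ∧ (X w ↔ X K.t)) := by
  have rt := h.rt
  cases hrr : K.r with
  | two =>
    rw [hrr] at hx
    exact hx.elim
  | three u =>
    rw [hrr] at hx rt
    simp only [Rn.inn, Rung] at hx rt
    subst hx
    obtain ⟨h1, z, hz⟩ := rt
    exact Or.inl ⟨cc_inner' hcub hz.ha hz.hb hz.ab h1.symm (h.fr.Xt'.trans h1.symm), h1⟩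
  | six v2 v3 v4 v5 y =>
    rw [hrr] at hx rt
    simp only [Rn.inn, Rung] at hx rt
    obtain ⟨⟨h2, h3, h4, h5, hy⟩, n2, n5, ⟨z3, n3⟩, ⟨z4, n4⟩, b, n⟩ := rt
    have c2 : cc G X v2 = 3 := cc_inner' hcub n2.ha n2.hb n2.ab h2.symm (h3.trans h2.symm)
    have c3 : cc G X v3 = 3 := cc_inner' hcub n3.ha n3.hb n3.ab (h2.trans h3.symm)
      (h4.trans h3.symm)
    have c4 : cc G X v4 = 3 := cc_inner' hcub n4.ha n4.hb n4.ab (h5.trans h4.symm)
      (h3.trans h4.symm)
    have c5 : cc G X v5 = 3 := cc_inner' hcub n5.ha n5.hb n5.ab (h.fr.Xt'.trans h5.symm)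
      (h4.trans h5.symm)
    have cy : cc G X y = 2 := cc_end' h.off hcub n.ha n.hb n.ab
      (fun hh => hy (hh.symm.trans h2)) (fun hh => hy (hh.symm.trans h5))
    rcases hx with rfl | rfl | rfl | rfl | rfl
    · exact Or.inl ⟨c2, h2⟩
    · exact Or.inl ⟨c3, h3⟩
    · exact Or.inl ⟨c4, h4⟩
    · exact Or.inl ⟨c5, h5⟩
    · exact Or.inr ⟨cy, hy, v2, n.ha, c2, h2⟩

theorem GW.y1_nb (h : GW G X D K) {w : V} (hw : G.Adj K.y1 w) (hs : X w ↔ X K.t) :
    cc G X w = 2 := by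
  rcases h.fr.n1.all w hw with h1 | h1 | h1
  · rw [h1]; exact h.cc_t hcub
  · rw [h1]; exact h.sw3.cc_t hcub
  · exfalso
    rw [h1] at hs
    exact h.fr.Y1 ((h.sb1).symm.trans hs)

/-- the rungs are outside the eight vertices -/
theorem GW.inn_r8 (h : GW G X D K) {x : V} (hx : K.r.inn x) :
    ¬ R8 K.t K.t' K.s K.s' K.y1 K.y2 K.y3 K.y4 x := by
  have hy : ∀ {K : Cfg V}, GW G X D K → ∀ {x t : V}, (X t ↔ X K.t) → x = K.y1 → ((cc G X x = 3 ∧ (X x ↔ X t)) ∨
    (cc G X x = 2 ∧ ¬ (X x ↔ X t) ∧ ∃ w, G.Adj x w ∧ cc G X w = 3 ∧ (X w ↔ X t))) → False := by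
    intro K h x t ht hx hh
    rw [hx] at hh
    rcases hh with ⟨h1, h2⟩ | ⟨h1, h2, w, h3, h4, h5⟩
    · exact h.fr.Y1 (h2.trans ht)
    · have := h.y1_nb hcub h3 (h5.trans ht)
      omega
  have ht : ∀ {K : Cfg V}, GW G X D K → ∀ {x t : V}, (X t ↔ X K.t) → x = K.t → ((cc G X x = 3 ∧ (X x ↔ X t)) ∨
    (cc G X x = 2 ∧ ¬ (X x ↔ X t) ∧ ∃ w, G.Adj x w ∧ cc G X w = 3 ∧ (X w ↔ X t))) → False := by
    intro K h x t ht hx hh
    rw [hx] at hh
    rcases hh with ⟨h1, h2⟩ | ⟨h1, h2, w, h3, h4, h5⟩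
    · have := h.cc_t hcub
      omega
    · exact h2 ht.symm
  have hi := h.inn_info hcub hx
  rintro (h1 | h1 | h1 | h1 | h1 | h1 | h1 | h1)
  · exact ht h Iff.rfl h1 hi
  · exact ht h.sw2 h.fr.Xt'.symm h1 hi
  · exact ht h.sw3 h.fr.Xs.symm h1 hi
  · exact ht h.sw3.sw2 h.fr.Xs'.symm h1 hi
  · exact hy h Iff.rfl h1 hi
  · exact hy h.sw1 Iff.rfl h1 hi
  · exact hy h.sw2 h.fr.Xt'.symm h1 hi
  · exact hy h.sw1.sw2 h.fr.Xt'.symm h1 hi

theorem GW.inn_r8' (h : GW G X D K) {x : V} (hx : K.r'.inn x) :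
    ¬ R8 K.t K.t' K.s K.s' K.y1 K.y2 K.y3 K.y4 x := by
  have := h.sw3.inn_r8 hcub (x := x) hx
  intro hh
  apply this
  simp only [Cfg.sw3, R8] at hh ⊢
  tauto

/-- closure of a rung under the own relation -/
theorem GW.pc_inn' (h : GW G X D K) {v : V} (hv : K.r.inn v) :
    Pc G X (fun x => x = K.t ∨ x = K.t' ∨ K.r.inn x) v := by
  have rt := h.rt
  set Cs : V → Prop := fun x => x = K.t ∨ x = K.t' ∨ K.r.inn x with hDdef
  have hin : ∀ x, K.r.inn x → Cs x := fun x hx => Or.inr (Or.inr hx)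
  have dt : Cs K.t := Or.inl rfl
  have dt' : Cs K.t' := Or.inr (Or.inl rfl)
  cases hrr : K.r with
  | two =>
    rw [hrr] at hv
    exact hv.elim
  | three u =>
    rw [hrr] at hv rt
    simp only [Rn.inn, Rung] at hv rt
    subst hv
    obtain ⟨h1, z, hz⟩ := rt
    have hc : cc G X v = 3 := cc_inner' hcub hz.ha hz.hb hz.ab h1.symm (h.fr.Xt'.trans h1.symm)
    refine ⟨fun h2 => by omega, fun _ w hw hs => ?_⟩
    rcases hz.all w hw with h3 | h3 | h3
    · rw [h3]; exact dt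
    · rw [h3]; exact dt'
    · exact absurd (by rw [h3] at hs; exact hs.trans h1) (side_at (h.nu hrr) hz h.fr.Xt'.symm)
  | six v2 v3 v4 v5 y =>
    have rd := h.rd
    rw [hrr] at hv rt hin rd
    simp only [Rn.inn, Rung] at hv rt hin
    simp only [RD] at rd
    obtain ⟨⟨h2, h3, h4, h5, hy⟩, n2, n5, ⟨z3, n3⟩, ⟨z4, n4⟩, b, n⟩ := rt
    have p2 : Cs v2 := hin _ (Or.inl rfl)
    have p3 : Cs v3 := hin _ (Or.inr (Or.inl rfl))
    have p4 : Cs v4 := hin _ (Or.inr (Or.inr (Or.inl rfl)))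
    have p5 : Cs v5 := hin _ (Or.inr (Or.inr (Or.inr (Or.inl rfl))))
    have py : Cs y := hin _ (Or.inr (Or.inr (Or.inr (Or.inr rfl))))
    rcases hv with rfl | rfl | rfl | rfl | rfl
    · have hc : cc G X v = 3 := cc_inner' hcub n2.ha n2.hb n2.ab h2.symm (h3.trans h2.symm)
      refine ⟨fun h2 => by omega, fun _ w hw hs => ?_⟩
      rcases n2.all w hw with h6 | h6 | h6
      · rw [h6]; exact dt
      · rw [h6]; exact p3
      · exact absurd (by rw [h6] at hs; exact hs.trans h2) hy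
    · have hc : cc G X v = 3 := cc_inner' hcub n3.ha n3.hb n3.ab (h2.trans h3.symm)
        (h4.trans h3.symm)
      refine ⟨fun h2 => by omega, fun _ w hw hs => ?_⟩
      rcases n3.all w hw with h6 | h6 | h6
      · rw [h6]; exact p2
      · rw [h6]; exact p4
      · exact absurd (by rw [h6] at hs; exact (hs.trans h3).trans h2.symm)
          (side_at (h.off.off _ rd.1) n3 (h2.trans h4.symm))
    · have hc : cc G X v = 3 := cc_inner' hcub n4.ha n4.hb n4.ab (h5.trans h4.symm)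
        (h3.trans h4.symm)
      refine ⟨fun h2 => by omega, fun _ w hw hs => ?_⟩
      rcases n4.all w hw with h6 | h6 | h6
      · rw [h6]; exact p5
      · rw [h6]; exact p3
      · exact absurd (by rw [h6] at hs; exact (hs.trans h4).trans h5.symm)
          (side_at (h.off.off _ rd.2.1) n4 (h5.trans h3.symm))
    · have hc : cc G X v = 3 := cc_inner' hcub n5.ha n5.hb n5.ab (h.fr.Xt'.trans h5.symm)
        (h4.trans h5.symm)
      refine ⟨fun h2 => by omega, fun _ w hw hs => ?_⟩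
      rcases n5.all w hw with h6 | h6 | h6
      · rw [h6]; exact dt'
      · rw [h6]; exact p4
      · exact absurd (by rw [h6] at hs; exact hs.trans h5) hy
    · have hc : cc G X v = 2 := cc_end' h.off hcub n.ha n.hb n.ab
        (fun hh => hy (hh.symm.trans h2)) (fun hh => hy (hh.symm.trans h5))
      refine ⟨fun _ w hw hs => ?_, fun h2 => by omega⟩
      rcases n.all w hw with h6 | h6 | h6
      · rw [h6]; exact p2
      · rw [h6]; exact p5
      · exfalso
        apply hs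
        rw [h6]
        refine iff_of_ne_iff (c := X v2) (side_at (h.off.crs n.ha (fun hh => hy (hh.symm.trans h2))) n (h2.trans h5.symm)) (fun hh => hy (hh.trans h2))

/-- a set which is closed at the first rung and meets it contains an end of it -/
theorem GW.meet_inn' (h : GW G X D K) {Cs : V → Prop} (hD : ∀ v, K.r.inn v → Cs v → Pc G X Cs v)
    {v : V} (hv : K.r.inn v) (hDv : Cs v) : Cs K.t ∨ Cs K.t' := by
  have rt := h.rt
  cases hrr : K.r with
  | two =>
    rw [hrr] at hv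
    exact hv.elim
  | three u =>
    rw [hrr] at hv rt hD
    simp only [Rn.inn, Rung] at hv rt hD
    subst hv
    obtain ⟨h1, z, hz⟩ := rt
    have hc : cc G X v = 3 := cc_inner' hcub hz.ha hz.hb hz.ab h1.symm (h.fr.Xt'.trans h1.symm)
    exact Or.inl ((hD v rfl hDv).2 hc K.t hz.ha h1.symm)
  | six v2 v3 v4 v5 y =>
    rw [hrr] at hv rt hD
    simp only [Rn.inn, Rung] at hv rt hD
    obtain ⟨⟨h2, h3, h4, h5, hy⟩, n2, n5, ⟨z3, n3⟩, ⟨z4, n4⟩, b, n⟩ := rt
    have c2 : cc G X v2 = 3 := cc_inner' hcub n2.ha n2.hb n2.ab h2.symm (h3.trans h2.symm)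
    have c3 : cc G X v3 = 3 := cc_inner' hcub n3.ha n3.hb n3.ab (h2.trans h3.symm)
      (h4.trans h3.symm)
    have c4 : cc G X v4 = 3 := cc_inner' hcub n4.ha n4.hb n4.ab (h5.trans h4.symm)
      (h3.trans h4.symm)
    have c5 : cc G X v5 = 3 := cc_inner' hcub n5.ha n5.hb n5.ab (h.fr.Xt'.trans h5.symm)
      (h4.trans h5.symm)
    have cy : cc G X y = 2 := cc_end' h.off hcub n.ha n.hb n.ab
      (fun hh => hy (hh.symm.trans h2)) (fun hh => hy (hh.symm.trans h5))
    have i2 : P5 v2 v3 v4 v5 y v2 := Or.inl rfl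
    have i3 : P5 v2 v3 v4 v5 y v3 := Or.inr (Or.inl rfl)
    have i4 : P5 v2 v3 v4 v5 y v4 := Or.inr (Or.inr (Or.inl rfl))
    have i5 : P5 v2 v3 v4 v5 y v5 := Or.inr (Or.inr (Or.inr (Or.inl rfl)))
    have iy : P5 v2 v3 v4 v5 y y := Or.inr (Or.inr (Or.inr (Or.inr rfl)))
    have k2 : Cs v2 → Cs K.t := fun hh => (hD v2 i2 hh).2 c2 K.t n2.ha h2.symm
    have k5 : Cs v5 → Cs K.t' := fun hh => (hD v5 i5 hh).2 c5 K.t' n5.ha (h.fr.Xt'.trans h5.symm)
    rcases hv with hv | hv | hv | hv | hv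
    · rw [hv] at hDv; exact Or.inl (k2 hDv)
    · rw [hv] at hDv; exact Or.inl (k2 ((hD v3 i3 hDv).2 c3 v2 n3.ha (h2.trans h3.symm)))
    · rw [hv] at hDv; exact Or.inr (k5 ((hD v4 i4 hDv).2 c4 v5 n4.ha (h5.trans h4.symm)))
    · rw [hv] at hDv; exact Or.inr (k5 hDv)
    · rw [hv] at hDv
      exact Or.inl (k2 ((hD y iy hDv).1 cy v2 n.ha (fun hh => hy (hh.symm.trans h2))))

/-- the rungs are disjoint -/
theorem GW.inn_inn (h : GW G X D K) {x : V} (hx : K.r.inn x) (hx' : K.r'.inn x) : False := by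
  have r8 : ∀ v, K.r.inn v → v ≠ K.s ∧ v ≠ K.s' := by
    intro v hv
    have := h.inn_r8 hcub hv
    unfold R8 at this
    tauto
  have key := h.meet_inn' hcub (Cs := fun x => x = K.s ∨ x = K.s' ∨ K.r'.inn x)
    (by
      intro v hv hDv
      have := r8 v hv
      rcases hDv with h1 | h1 | h1
      · exact absurd h1 this.1
      · exact absurd h1 this.2
      · exact h.sw3.pc_inn' hcub h1) hx (Or.inr (Or.inr hx'))
  rcases key with (h1 | h1 | h1) | (h1 | h1 | h1)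
  · exact h.fr.n1.ab h1
  · exact h.fr.n2.ab h1
  · exact h.inn_r8' hcub h1 (Or.inl rfl)
  · exact h.fr.n3.ab h1
  · exact h.fr.n4.ab h1
  · exact h.inn_r8' hcub h1 (Or.inr (Or.inl rfl))

end

end Pool.Agent.helper58.L9
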