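import Pool.Agent.helper58.L9.KhSix
import Pool.Agent.helper58.L9.K4QSel

/-!
# The labels of the middles
-/

set_option autoImplicit false
set_option linter.unusedSectionVars false
set_option linter.unusedVariables false

namespace Pool.Agent.helper58.L9

open Finset Classical Helper33.L9 Helper17.L9
open Helper42.L9 hiding near
open K4


variable {V : Type*} [Fintype V] {G : SimpleGraph V} {X D : V → Prop} {K : Cfg V}
  {L E : V → Prop} {f : V → ℕ}

/-- the choice of labels for the middles -/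
structure SelG (kn0 : List (ℕ × List ℕ × List ℕ)) (G : SimpleGraph V) (X : V → Prop) (K : Cfg V)
    (L E : V → Prop) (f : V → ℕ) (zz : ℕ) (l1 l2 : List ℕ) : Prop where
  kn : (zz, l1, l2) ∈ kn0
  c1 : (l1 = [] ∧ K.r = Rn.two) ∨ (l1 ≠ [] ∧ ∃ u, K.r = Rn.three u)
  c2 : (l2 = [] ∧ K.r' = Rn.two) ∨ (l2 ≠ [] ∧ ∃ v, K.r' = Rn.three v)
  lab : ∀ U W : ℕ, (l1 ≠ [] → U ∈ l1) → (l2 ≠ [] → W ∈ l2) → ∃ f2 : V → ℕ,
    (∀ x, ¬ K.r.M x → ¬ K.r'.M x → f2 x = f x) ∧ (∀ x, K.r.M x → f2 x = U) ∧
    (∀ x, K.r'.M x → f2 x = W) ∧ StG G X (fun x => L x ∨ K.r.M x ∨ K.r'.M x) E f2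
  z : zz ≠ 21 → ∃ u z, K.r = Rn.three u ∧ Nb G u K.t K.t' z ∧ ¬ X z ∧ L z ∧ f z = zz

/-- the middle of the second rung -/
theorem GW.mid' (h : GW G X D K) (hXt : X K.t) {v : V}
    (hr' : K.r' = Rn.three v) : X v ∧ ∃ z, Nb G v K.s K.s' z ∧ ¬ X z ∧
      ∃ w, Mid G.Adj (qadj G X) X K.s K.s' v z w := by
  have rs := h.rs
  have n1 := h.fr.ns
  have n2 := h.fr.ns'
  rw [hr'] at rs n1 n2
  simp only [Rung, Rn.fst, Rn.lst] at rs n1 n2
  obtain ⟨hvs, z, hz⟩ := rs
  have Xs : X K.s := h.fr.Xs.mpr hXt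
  have Xs' : X K.s' := h.fr.Xs'.mpr hXt
  have Xv : X v := hvs.mpr Xs
  obtain ⟨h1, w, hm⟩ := mid_ofW h.off (h.sw3.nu (K := K.sw3) hr') Xv Xs Xs' hz n1 n2
    (fun hh => h.fr.Y1 (iff_of_true hh hXt)) (fun hh => h.fr.Y3 (iff_of_true hh hXt))
    (fun hh => h.fr.Y2 (iff_of_true hh hXt)) (fun hh => h.fr.Y4 (iff_of_true hh hXt))
  exact ⟨Xv, z, hz, h1, w, hm⟩

theorem GW.mid (h : GW G X D K) (hXt : X K.t) {u : V}
    (hr : K.r = Rn.three u) : X u ∧ ∃ z, Nb G u K.t K.t' z ∧ ¬ X z ∧
      ∃ w, Mid G.Adj (qadj G X) X K.t K.t' u z w :=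
  h.sw3.mid' (K := K.sw3) (h.fr.Xs.mpr hXt) hr

/-- **The choice exists.** -/
theorem GW.sel {kn0 : List (ℕ × List ℕ × List ℕ)} (hk0 : KOK kn0)
    (hcub : ∀ v, (univ.filter fun b => G.Adj v b).card = 3) (h : GW G X D K) (hXt : X K.t)
    (hr : (K.r = Rn.two ∧ (K.r' = Rn.two ∨ ∃ v, K.r' = Rn.three v)) ∨
      ((∃ u, K.r = Rn.three u) ∧ ∃ v, K.r' = Rn.three v))
    (hL : ∀ v, K.Lam v → ¬ L v) (st : StG G X L E f) (hn : ∀ v, ¬ L v → f v = 100) :
    ∃ zz l1 l2, SelG kn0 G X K L E f zz l1 l2 := by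
  rcases hr with ⟨hr, hr' | ⟨v, hr'⟩⟩ | ⟨⟨u, hr⟩, v, hr'⟩
  · refine ⟨21, [], [], hk0.e, Or.inl ⟨rfl, hr⟩, Or.inl ⟨rfl, hr'⟩, ?_,
      fun hh => absurd rfl hh⟩
    intro U W _ _
    rw [hr, hr']
    refine ⟨f, fun _ _ _ => rfl, fun _ hx => hx.elim, fun _ hx => hx.elim,
      st.congr (fun x => ?_) (fun x => Iff.rfl)⟩
    simp [Rn.M]
  · obtain ⟨Xv, z, hz, Xz, w, hm⟩ := h.mid' hXt hr'
    obtain ⟨a, ha, _⟩ := adm_ex (f z) (f w) 0
    have hv : K.Lam v := Or.inr (Or.inr (by rw [hr']; rfl))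
    refine ⟨21, [], [a], hk0.one a ?_, Or.inl ⟨rfl, hr⟩, Or.inr ⟨by simp, v, hr'⟩, ?_,
      fun hh => absurd rfl hh⟩
    · have h1 := ha.1
      have h2 := ha.2.1
      simp only [List.mem_cons, List.not_mem_nil, or_false]
      omega
    · intro U W _ hW
      have hW' : W = a := by simpa using hW (by simp)
      subst hW'
      obtain ⟨f1, f1v, f1x, st1⟩ := hm.add (relG (X := X)) qadj_irr st (hL v hv)
        (hL _ K.lam_s) (hL _ K.lam_s') ha
      rw [hr, hr']
      refine ⟨f1, fun x _ hx => f1x x hx, fun _ hx => hx.elim, ?_,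
        st1.congr (fun x => ?_) (fun x => Iff.rfl)⟩
      · intro x hx
        simp only [Rn.M] at hx
        rw [hx]
        exact f1v
      · simp [Rn.M]
  · obtain ⟨Xv, z', hz', Xz', w', hm'⟩ := h.mid' hXt hr'
    obtain ⟨Xu, z, hz, Xz, w, hm⟩ := h.mid hXt hr
    have hu : K.Lam u := Or.inr (Or.inl (by rw [hr]; rfl))
    have hv : K.Lam v := Or.inr (Or.inr (by rw [hr']; rfl))
    have hui : K.r.inn u := by rw [hr]; rfl
    have hvi : K.r'.inn v := by rw [hr']; rfl
    have huv : u ≠ v := by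
      rintro rfl
      exact h.inn_inn hcub hui hvi
    have hv8 := h.inn_r8' hcub hvi
    have oz := lab_z st hn (hL u hu) hz.hc Xz
    have oz' := lab_z st hn (hL v hv) hz'.hc Xz'
    -- labelling
    have labm : ∀ {w w' : V}, Mid G.Adj (qadj G X) X K.t K.t' u z w →
        Mid G.Adj (qadj G X) X K.s K.s' v z' w' → ∀ U W : ℕ, Adm (f z') (f w') W →
        Adm (f z) (if w = v then W else f w) U → ∃ f2 : V → ℕ,
        (∀ x, ¬ K.r.M x → ¬ K.r'.M x → f2 x = f x) ∧ (∀ x, K.r.M x → f2 x = U) ∧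
        (∀ x, K.r'.M x → f2 x = W) ∧ StG G X (fun x => L x ∨ K.r.M x ∨ K.r'.M x) E f2 := by
      intro w w' hm hm' U W hW hU
      obtain ⟨f1, f1v, f1x, st1⟩ := hm'.add (relG (X := X)) qadj_irr st (hL v hv)
        (hL _ K.lam_s) (hL _ K.lam_s') hW
      have tv : ∀ x, x = K.t ∨ x = K.t' → ¬ (L x ∨ x = v) := by
        rintro x (rfl | rfl) (h1 | h1)
        · exact hL _ K.lam_t h1
        · exact hv8 (Or.inl h1.symm)
        · exact hL _ K.lam_t' h1
        · exact hv8 (Or.inr (Or.inl h1.symm))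
      have huL : ¬ (L u ∨ u = v) := by
        rintro (h1 | h1)
        · exact hL u hu h1
        · exact huv h1
      have hzv : z ≠ v := fun hh => Xz (hh ▸ Xv)
      have hU' : Adm (f1 z) (f1 w) U := by
        rw [f1x z hzv]
        by_cases hw : w = v
        · rw [if_pos hw] at hU
          rw [hw, f1v]
          exact hU
        · rw [if_neg hw] at hU
          rw [f1x w hw]
          exact hU
      obtain ⟨f2, f2u, f2x, st2⟩ := hm.add (relG (X := X)) qadj_irr st1 huL (tv _ (Or.inl rfl))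
        (tv _ (Or.inr rfl)) hU'
      rw [hr, hr']
      refine ⟨f2, ?_, ?_, ?_, st2.congr (fun x => ?_) (fun x => Iff.rfl)⟩
      · intro x h1 h2
        rw [f2x x h1, f1x x h2]
      · intro x hx
        simp only [Rn.M] at hx
        rw [hx]
        exact f2u
      · intro x hx
        simp only [Rn.M] at hx
        rw [hx, f2x v huv.symm]
        exact f1v
      · simp only [Rn.M]
        tauto
    by_cases hq : qadj G X u v
    · -- linked
      have hzz : z = z' := by
        obtain ⟨_, _, h1 | ⟨x, h1, h2⟩⟩ := hq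
        · rcases hz.all v h1 with h2 | h2 | h2
          · exact absurd (Or.inl h2) hv8
          · exact absurd (Or.inr (Or.inl h2)) hv8
          · exact absurd Xv (by rw [h2]; exact Xz)
        · have h3 : x = z' := by
            rcases hz'.all x h2.symm with h3 | h3 | h3
            · exfalso
              rw [h3] at h1
              rcases hz.all K.s h1 with h4 | h4 | h4
              · exact h.fr.n1.ab h4.symm
              · exact h.fr.n3.ab h4.symm
              · exact Xz (by rw [← h4]; exact h.fr.Xs.mpr hXt)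
            · exfalso
              rw [h3] at h1
              rcases hz.all K.s' h1 with h4 | h4 | h4
              · exact h.fr.n2.ab h4.symm
              · exact h.fr.n4.ab h4.symm
              · exact Xz (by rw [← h4]; exact h.fr.Xs'.mpr hXt)
            · exact h3
          rw [h3] at h1
          rcases hz.all z' h1 with h4 | h4 | h4
          · exact absurd (by rw [h4]; exact hXt) Xz'
          · exact absurd (by rw [h4]; exact h.fr.Xt'.mpr hXt) Xz'
          · exact h4.symm
      subst hzz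
      -- the neighbours of `z` on the side of `u`
      have huniq : ∀ x, G.Adj z x → X x → x = u ∨ x = v := by
        intro x h1 h2
        by_contra hcon
        rw [not_or] at hcon
        exact h.off.crs' hz.hc (fun hh => Xz (hh.mpr Xu)) u v x hz.hc.symm hz'.hc.symm h1 huv (Ne.symm hcon.1) (Ne.symm hcon.2)
          ⟨iff_of_true Xu Xv, iff_of_true Xu h2⟩
      obtain ⟨l, l', hk, ⟨hl, hl'⟩, a1, a2⟩ := hk0.link (f z) oz
      have hmu : Mid G.Adj (qadj G X) X K.t K.t' u z v := by
        refine ⟨Xu, ?_, hm.c⟩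
        intro x hx
        by_cases hxt : x = K.t ∨ x = K.t'
        · rcases hxt with h1 | h1
          · exact Or.inl h1
          · exact Or.inr (Or.inl h1)
        · right
          right
          rcases hm.q x hx with h1 | h1 | h1
          · exact absurd (Or.inl h1) hxt
          · exact absurd (Or.inr h1) hxt
          · rcases hm.q v hq with h2 | h2 | h2
            · exact absurd (Or.inl h2) hv8
            · exact absurd (Or.inr (Or.inl h2)) hv8
            · rw [h1, h2]
      have hu8 := h.inn_r8 hcub hui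
      have hmv : Mid G.Adj (qadj G X) X K.s K.s' v z u := by
        refine ⟨Xv, ?_, hm'.c⟩
        intro x hx
        by_cases hxt : x = K.s ∨ x = K.s'
        · rcases hxt with h1 | h1
          · exact Or.inl h1
          · exact Or.inr (Or.inl h1)
        · right
          right
          rcases hm'.q x hx with h1 | h1 | h1
          · exact absurd (Or.inl h1) hxt
          · exact absurd (Or.inr h1) hxt
          · rcases hm'.q u (qadj_symm hq) with h2 | h2 | h2
            · exact absurd (Or.inr (Or.inr (Or.inl h2))) hu8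
            · exact absurd (Or.inr (Or.inr (Or.inr (Or.inl h2)))) hu8
            · rw [h1, h2]
      refine ⟨21, l, l', hk, Or.inr ⟨hl, u, hr⟩, Or.inr ⟨hl', v, hr'⟩, ?_,
        fun hh => absurd rfl hh⟩
      intro U W hU hW
      refine labm hmu hmv U W ?_ ?_
      · rw [hn u (hL u hu)]
        exact a1 W (hW hl')
      · rw [if_pos rfl]
        exact a2 U (hU hl) W (hW hl')
    · -- not linked
      have hmu : ∃ w, Mid G.Adj (qadj G X) X K.t K.t' u z w ∧ w ≠ v := by
        by_cases hw : w = v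
        · refine ⟨u, ⟨Xu, ?_, hm.c⟩, huv⟩
          intro x hx
          rcases hm.q x hx with h1 | h1 | h1
          · exact Or.inl h1
          · exact Or.inr (Or.inl h1)
          · exact absurd (by rw [h1, hw] at hx; exact hx) hq
        · exact ⟨w, hm, hw⟩
      obtain ⟨w1, hmu, hw1⟩ := hmu
      obtain ⟨zz, l, l', hk, ⟨hl, hl'⟩, l1, l1', hzz⟩ := hk0.two (f z) (f w1) (f z') (f w') oz oz'
      have hLz : f z ≠ 100 → L z := by
        intro hh
        by_contra hnl
        exact hh (hn z hnl)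
      refine ⟨zz, l, l', hk, Or.inr ⟨hl, u, hr⟩, Or.inr ⟨hl', v, hr'⟩, ?_, fun hh =>
        ⟨u, z, hr, hz, Xz, hLz (hzz hh).2, (hzz hh).1⟩⟩
      intro U W hU hW
      refine labm hmu hm' U W (l1' W (hW hl')) ?_
      rw [if_neg hw1]
      exact l1 U (hU hl)

end Pool.Agent.helper58.L9
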