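import Pool.Agent.helper58.L9.KhRef

/-!
# Regions with a rung with six vertices
-/

set_option autoImplicit false
set_option linter.unusedSectionVars false
set_option linter.unusedVariables false

namespace Pool.Agent.helper58.L9

open Finset Classical Helper33.L9 Helper17.L9
open Helper42.L9 hiding near


variable {V : Type*} [Fintype V] {G : SimpleGraph V} {X D : V → Prop} {K : Cfg V}

/-- the pentagon -/
theorem GW.pent (hst : ∀ v, ¬ D v → StarAt G X v) (h : GW G X D K) (hXt : X K.t)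
    {v2 v3 v4 v5 y : V} (hr : K.r = Rn.six v2 v3 v4 v5 y) :
    ∃ z3 z4 b c, Pent G.Adj (qadj G X) X K.t K.t' v2 v3 v4 v5 y z3 z4 b c := by
  have n1 := h.fr.nt
  have n2 := h.fr.nt'
  have rt := h.rt
  have rd := h.rd
  rw [hr] at n1 n2 rt rd
  simp only [Rn.fst, Rn.lst] at n1 n2
  exact pent_ofW h.off hst rd rt hXt (h.fr.Xt'.mpr hXt) n1 n2 (fun hh => h.fr.Y1 (iff_of_true hh hXt))
    (fun hh => h.fr.Y2 (iff_of_true hh hXt)) (fun hh => h.fr.Y3 (iff_of_true hh hXt))
    (fun hh => h.fr.Y4 (iff_of_true hh hXt))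

/-- **Regions with a rung with six vertices.** -/
theorem GW.ext_six (hcub : ∀ v, (univ.filter fun b => G.Adj v b).card = 3)
    (hst : ∀ v, ¬ D v → StarAt G X v) (h : GW G X D K) (hXt : X K.t)
    {v2 v3 v4 v5 y : V} (hr : K.r = Rn.six v2 v3 v4 v5 y) {Z : Finset V}
    (hsub : ∀ v, K.Lam v → v ∈ Z) : ExtZ G X Z K.Lam := by
  have hR := rel_graph G X
  obtain ⟨B1, B2, B3, B4, C1, C2, C3, C4, ho⟩ := h.out hXt
  obtain ⟨z3, z4, b, c, hp⟩ := h.pent hst hXt hr
  have hreg := ho.reg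
  have hn6 := h.near6 hr
  have hn : B1 ≠ C1 → B2 ≠ C2 → B3 ≠ C3 → B4 ≠ C4 →
      Near6 G.Adj (near G) K.t K.t' K.s K.s' K.y1 K.y2 K.y3 K.y4 B1 B2 B3 B4 v2 v3 v4 v5 y := by
    intro h1 h2 h3 h4
    rw [(ho.i1 h1).1, (ho.i2 h2).1, (ho.i3 h3).1, (ho.i4 h4).1]
    exact hn6
  have hin : ∀ x, P5 v2 v3 v4 v5 y x → K.r.inn x := by
    intro x hx
    rw [hr]
    exact hx
  have hd : ∀ x, P5 v2 v3 v4 v5 y x → ¬ R8 K.t K.t' K.s K.s' K.y1 K.y2 K.y3 K.y4 x :=
    fun x hx => h.inn_r8 hcub (hin x hx)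
  have eM : K.r.M = fun x => x = v2 ∨ x = v3 ∨ x = v4 ∨ x = v5 := by
    rw [hr]
    rfl
  have eI : K.r.inn = P5 v2 v3 v4 v5 y := by
    rw [hr]
    rfl
  rw [eM] at hreg
  apply extZ_of_kext hsub
  intro E f st
  cases hr' : K.r' with
  | two =>
    have eM' : K.r'.M = fun _ => False := by
      rw [hr']
      rfl
    have eI' : K.r'.inn = fun _ => False := by
      rw [hr']
      rfl
    rw [eM'] at hreg
    obtain ⟨g, E', st', _⟩ := hreg.kext62 hR hp hn ho.h14 ho.h23 hd (W := fun _ => False)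
      (f0 := fun _ => 0) _ E f st (fun v hv => hv.elim) (by
        intro v hv hh
        apply hh.2
        unfold Cfg.Lam
        rw [eI]
        rcases hv with hv | hv
        · exact Or.inl hv
        · exact Or.inr (Or.inl hv))
    refine ⟨g, E', st'.congr (fun v => ?_) (fun v => Iff.rfl)⟩
    simp only [Cfg.Lam, eI, eI']
    tauto
  | three v =>
    have eM' : K.r'.M = fun x => x = v := by
      rw [hr']
      rfl
    have eI' : K.r'.inn = fun x => x = v := by
      rw [hr']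
      rfl
    have hv : K.r'.inn v := by
      rw [eI']
    rw [eM'] at hreg
    have rs := h.rs
    have n1 := h.fr.ns
    have n2 := h.fr.ns'
    rw [hr'] at rs n1 n2
    simp only [Rung, Rn.fst, Rn.lst] at rs n1 n2
    obtain ⟨hvs, z, hz⟩ := rs
    have Xs : X K.s := h.fr.Xs.mpr hXt
    have Xs' : X K.s' := h.fr.Xs'.mpr hXt
    have Xv : X v := hvs.mpr Xs
    obtain ⟨_, w, hm⟩ := mid_ofW h.off (h.sw3.nu (K := K.sw3) hr') Xv Xs Xs' hz n1 n2
      (fun hh => h.fr.Y1 (iff_of_true hh hXt)) (fun hh => h.fr.Y3 (iff_of_true hh hXt))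
      (fun hh => h.fr.Y2 (iff_of_true hh hXt)) (fun hh => h.fr.Y4 (iff_of_true hh hXt))
    have hLam : ∀ x, K.Lam x → ¬ (x ∈ Z ∧ ¬ K.Lam x) := fun x hx hh => hh.2 hx
    obtain ⟨a, ha, _⟩ := adm_ex (f z) (f w) 0
    obtain ⟨f1, f1v, f1x, st1⟩ := hm.add hR qadj_irr st (hLam v (Or.inr (Or.inr hv)))
      (hLam _ K.lam_s) (hLam _ K.lam_s') ha
    have hv8 := h.inn_r8' hcub hv
    have hv5 : ¬ P5 v2 v3 v4 v5 y v := fun hh => h.inn_inn hcub (hin v hh) hv
    obtain ⟨g, E', st', _⟩ := hreg.kext63 hR hp hn ho.h14 ho.h23 hd Xv hv8 hv5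
      (W := fun _ => False) (f0 := fun _ => 0) _ E f1 st1 (fun v hv => hv.elim) (by
        rintro x hx (hh | rfl)
        · apply hh.2
          unfold Cfg.Lam
          rw [eI]
          rcases hx with hx | hx
          · exact Or.inl hx
          · exact Or.inr (Or.inl hx)
        · rcases hx with hx | hx
          · exact hv8 hx
          · exact hv5 hx)
    refine ⟨g, E', st'.congr (fun v => ?_) (fun v => Iff.rfl)⟩
    simp only [Cfg.Lam, eI, eI']
    tauto
  | six v2' v3' v4' v5' y' =>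
    have eM' : K.r'.M = fun x => x = v2' ∨ x = v3' ∨ x = v4' ∨ x = v5' := by
      rw [hr']
      rfl
    have eI' : K.r'.inn = P5 v2' v3' v4' v5' y' := by
      rw [hr']
      rfl
    rw [eM'] at hreg
    obtain ⟨z3', z4', b', c', hp'⟩ := h.sw3.pent hst (K := K.sw3)
      (h.fr.Xs.mpr hXt) hr'
    have hin' : ∀ x, P5 v2' v3' v4' v5' y' x → K.r'.inn x := by
      intro x hx
      rw [hr']
      exact hx
    obtain ⟨g, E', st', _⟩ := hreg.kext66 hR hp hp' hn ho.h14 ho.h23 hd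
      (fun x hx => h.inn_r8' hcub (hin' x hx))
      (fun x hx hh => h.inn_inn hcub (hin x hh) (hin' x hx)) (W := fun _ => False)
      (f0 := fun _ => 0) _ E f st (fun v hv => hv.elim) (by
        intro v hv hh
        apply hh.2
        unfold Cfg.Lam
        rw [eI, eI']
        exact hv)
    refine ⟨g, E', st'.congr (fun v => ?_) (fun v => Iff.rfl)⟩
    simp only [Cfg.Lam, eI, eI']

end Pool.Agent.helper58.L9
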