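import Pool.Agent.helper58.L9.KhSel
import Pool.Agent.helper58.L9.KgStep

/-!
# The labelling steps
-/

set_option autoImplicit false
set_option linter.unusedSectionVars false
set_option linter.unusedVariables false

namespace Pool.Agent.helper58.L9

open Finset Classical Helper33.L9 Helper17.L9
open Helper42.L9 hiding near
open K4


variable {V : Type*} [Fintype V] {G : SimpleGraph V} {X D : V → Prop} {K : Cfg V}
  {L E : V → Prop} {f : V → ℕ}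

variable {zz : ℕ} {l1 l2 : List ℕ} {B1 B2 B3 B4 C1 C2 C3 C4 : V}

theorem SelG.lam {kn0 : List (ℕ × List ℕ × List ℕ)} (hs : SelG kn0 G X K L E f zz l1 l2) (x : V) :
    K.Lam x ↔ R8 K.t K.t' K.s K.s' K.y1 K.y2 K.y3 K.y4 x ∨ K.r.M x ∨ K.r'.M x := by
  unfold Cfg.Lam
  rcases hs.c1 with ⟨_, h1⟩ | ⟨_, u, h1⟩ <;> rcases hs.c2 with ⟨_, h2⟩ | ⟨_, v, h2⟩ <;>
    rw [h1, h2] <;> simp only [Rn.inn, Rn.M]

/-- **The parity step.** -/
theorem GW.stepP {kn0 : List (ℕ × List ℕ × List ℕ)} (hk0 : KOK kn0)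
    (hcub : ∀ v, (univ.filter fun b => G.Adj v b).card = 3) (h : GW G X D K) (ho : Out G X K B1 B2 B3 B4 C1 C2 C3 C4) (hL : ∀ v, K.Lam v → ¬ L v)
    (hs : SelG kn0 G X K L E f zz l1 l2)
    (hex : ¬ (((L B1 ∨ K.r.M B1 ∨ K.r'.M B1) ∧ (L C1 ∨ K.r.M C1 ∨ K.r'.M C1) ∧ B1 ≠ C1) ∧
      ((L B2 ∨ K.r.M B2 ∨ K.r'.M B2) ∧ (L C2 ∨ K.r.M C2 ∨ K.r'.M C2) ∧ B2 ≠ C2) ∧
      ((L B3 ∨ K.r.M B3 ∨ K.r'.M B3) ∧ (L C3 ∨ K.r.M C3 ∨ K.r'.M C3) ∧ B3 ≠ C3) ∧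
      ((L B4 ∨ K.r.M B4 ∨ K.r'.M B4) ∧ (L C4 ∨ K.r.M C4 ∨ K.r'.M C4) ∧ B4 ≠ C4))) :
    ∃ g : V → ℕ, StG G X (fun v => L v ∨ K.Lam v) E g := by
  obtain ⟨U, W, hU, hW, huv⟩ := hk0.uv _ hs.kn
  obtain ⟨f2, g0, g1, g2, st2⟩ := hs.lab U W hU hW
  have hM1' : ∀ x, K.r.M x → ¬ R8 K.t K.t' K.s K.s' K.y1 K.y2 K.y3 K.y4 x :=
    fun x hx => h.inn_r8 hcub (Rn.M_inn _ _ hx)
  have hM2' : ∀ x, K.r'.M x → ¬ R8 K.t K.t' K.s K.s' K.y1 K.y2 K.y3 K.y4 x :=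
    fun x hx => h.inn_r8' hcub (Rn.M_inn _ _ hx)
  obtain ⟨g, _, _, _, st3⟩ := ho.reg.dynP relG ho.h14 ho.h23 st2
    (by
      rintro v hv (h1 | h1 | h1)
      · exact hL v (Or.inl hv) h1
      · exact hM1' v h1 hv
      · exact hM2' v h1 hv) huv (fun x hx _ _ => g1 x hx) (fun x hx _ _ => g2 x hx) hM1' hM2' hex
  refine ⟨g, st3.congr (fun v => ?_) (fun v => Iff.rfl)⟩
  rw [hs.lam]
  exact or_perm _ _ _ _

/-- the parity branch -/
theorem GW.brP {kn0 : List (ℕ × List ℕ × List ℕ)}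
    (hcub : ∀ v, (univ.filter fun b => G.Adj v b).card = 3)
    (h : GW G X D K) (hXt : X K.t) (ho : Out G X K B1 B2 B3 B4 C1 C2 C3 C4)
    (hL : ∀ v, K.Lam v → ¬ L v)
    (st : StG G X L E f) (hs : SelG kn0 G X K L E f zz l1 l2)
    (n1 : B1 ≠ C1) (n2 : B2 ≠ C2) (n3 : B3 ≠ C3) (n4 : B4 ≠ C4)
    (lB1 : L B1) (lC1 : L C1) (lB2 : L B2) (lC2 : L C2) (lB3 : L B3) (lC3 : L C3) (lB4 : L B4)
    (lC4 : L C4) {a1 a2 a3 a4 m1 m2 m3 m4 : ℕ}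
    (halt : AltP (f B1) (f C1) l1 l2 a1 a2 a3 a4 m1 m2 m3 m4)
    (q2 : m2 ≠ f B2 ∧ m2 ≠ f C2) (q3 : m3 ≠ f B3 ∧ m3 ≠ f C3) (q4 : m4 ≠ f B4 ∧ m4 ≠ f C4) :
    ∃ (g : V → ℕ) (E' : V → Prop), StG G X (fun v => L v ∨ K.Lam v) E' g := by
  have hR := rel_graph G X
  have hr := ho.reg
  have h14 : ¬ qadj G X K.y1 K.y4 := fun hh => n1 (ho.h14 hh).1
  have h23 : ¬ qadj G X K.y2 K.y3 := fun hh => n2 (ho.h23 hh).1
  have hM1' : ∀ x, K.r.M x → ¬ R8 K.t K.t' K.s K.s' K.y1 K.y2 K.y3 K.y4 x :=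
    fun x hx => h.inn_r8 hcub (Rn.M_inn _ _ hx)
  have hM2' : ∀ x, K.r'.M x → ¬ R8 K.t K.t' K.s K.s' K.y1 K.y2 K.y3 K.y4 x :=
    fun x hx => h.inn_r8' hcub (Rn.M_inn _ _ hx)
  have lM1 : ∀ x, L x → ¬ K.r.M x := fun x h1 h2 => hL x ((hs.lam x).mpr (Or.inr (Or.inl h2))) h1
  have lM2 : ∀ x, L x → ¬ K.r'.M x := fun x h1 h2 => hL x ((hs.lam x).mpr (Or.inr (Or.inr h2))) h1
  -- the lists
  have c1e : l1 = [] → K.r = Rn.two := by
    intro hl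
    rcases hs.c1 with ⟨_, h1⟩ | ⟨h1, _⟩
    · exact h1
    · exact absurd hl h1
  have c2e : l2 = [] → K.r' = Rn.two := by
    intro hl
    rcases hs.c2 with ⟨_, h1⟩ | ⟨h1, _⟩
    · exact h1
    · exact absurd hl h1
  have mne1 : ∀ x, K.r.M x → l1 ≠ [] := by
    intro x hx hl
    rw [c1e hl] at hx
    exact hx
  have mne2 : ∀ x, K.r'.M x → l2 ≠ [] := by
    intro x hx hl
    rw [c2e hl] at hx
    exact hx
  have h8 : ∀ v, R8 K.t K.t' K.s K.s' K.y1 K.y2 K.y3 K.y4 v →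
      ¬ (L v ∨ K.r.M v ∨ K.r'.M v) := by
    rintro v hv (h1 | h1 | h1)
    · exact hL v (Or.inl hv) h1
    · exact hM1' v h1 hv
    · exact hM2' v h1 hv
  have fin : ∀ (g : V → ℕ) (E' : V → Prop), StG G X (fun v => (L v ∨ K.r.M v ∨ K.r'.M v) ∨
      R8 K.t K.t' K.s K.s' K.y1 K.y2 K.y3 K.y4 v) E' g →
      ∃ (g : V → ℕ) (E' : V → Prop), StG G X (fun v => L v ∨ K.Lam v) E' g := by
    intro g E' st3
    refine ⟨g, E', st3.congr (fun v => ?_) (fun v => Iff.rfl)⟩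
    rw [hs.lam]
    exact or_perm _ _ _ _
  obtain ⟨sol, ⟨ev1, ev2⟩, k1, p1, p2⟩ := halt
  obtain ⟨U, hU, hU'⟩ := midP_ex p1
  obtain ⟨W, hW, hW'⟩ := midP_ex p2
  obtain ⟨f2, g0, g1, g2, st2⟩ := hs.lab U W hU hW
  have f2L : ∀ x, L x → f2 x = f x := fun x hx => g0 x (lM1 x hx) (lM2 x hx)
  obtain ⟨g, _, st3⟩ := hr.coreP hR st2 h8 sol ev1 ev2
    (fun x hx _ _ => by
      rw [g1 x hx]
      exact ⟨(hU' (mne1 x hx)).1.symm, (hU' (mne1 x hx)).2.symm⟩)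
    (fun x hx _ _ => by
      rw [g2 x hx]
      exact ⟨(hW' (mne2 x hx)).1.symm, (hW' (mne2 x hx)).2.symm⟩) hM1' hM2'
    (by rw [f2L _ lB1, f2L _ lC1]; exact k1) (by rw [f2L _ lB2, f2L _ lC2]; exact q2)
    (by rw [f2L _ lB3, f2L _ lC3]; exact q3) (by rw [f2L _ lB4, f2L _ lC4]; exact q4)
    (fun hh => absurd hh h14) (fun hh => absurd hh h23)
  exact fin g E st3
/-- the branch with `t` odd -/
theorem GW.brT {kn0 : List (ℕ × List ℕ × List ℕ)}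
    (hcub : ∀ v, (univ.filter fun b => G.Adj v b).card = 3)
    (h : GW G X D K) (hXt : X K.t) (ho : Out G X K B1 B2 B3 B4 C1 C2 C3 C4)
    (hL : ∀ v, K.Lam v → ¬ L v)
    (st : StG G X L E f) (hs : SelG kn0 G X K L E f zz l1 l2)
    (n1 : B1 ≠ C1) (n2 : B2 ≠ C2) (n3 : B3 ≠ C3) (n4 : B4 ≠ C4)
    (lB1 : L B1) (lC1 : L C1) (lB2 : L B2) (lC2 : L C2) (lB3 : L B3) (lC3 : L C3) (lB4 : L B4)
    (lC4 : L C4) {a1 a2 a3 a4 m1 m2 m3 m4 : ℕ}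
    (halt : AltT (f B1) (f C1) (f B2) zz l1 l2 a1 a2 a3 a4 m1 m2 m3 m4)
    (q2 : m2 ≠ f B2 ∧ m2 ≠ f C2) (q3 : m3 ≠ f B3 ∧ m3 ≠ f C3) (q4 : m4 ≠ f B4 ∧ m4 ≠ f C4) :
    ∃ (g : V → ℕ) (E' : V → Prop), StG G X (fun v => L v ∨ K.Lam v) E' g := by
  have hR := rel_graph G X
  have hr := ho.reg
  obtain ⟨e1, -, -, Xc1, -, -⟩ := ho.i1 n1
  obtain ⟨e2, -, -, -, -, -⟩ := ho.i2 n2
  obtain ⟨e3, -, -, -, -, -⟩ := ho.i3 n3
  obtain ⟨e4, -, -, -, -, -⟩ := ho.i4 n4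
  subst e1
  subst e2
  subst e3
  subst e4
  have h14 : ¬ qadj G X K.y1 K.y4 := fun hh => n1 (ho.h14 hh).1
  have h23 : ¬ qadj G X K.y2 K.y3 := fun hh => n2 (ho.h23 hh).1
  have hM1' : ∀ x, K.r.M x → ¬ R8 K.t K.t' K.s K.s' K.y1 K.y2 K.y3 K.y4 x :=
    fun x hx => h.inn_r8 hcub (Rn.M_inn _ _ hx)
  have hM2' : ∀ x, K.r'.M x → ¬ R8 K.t K.t' K.s K.s' K.y1 K.y2 K.y3 K.y4 x :=
    fun x hx => h.inn_r8' hcub (Rn.M_inn _ _ hx)
  have lM1 : ∀ x, L x → ¬ K.r.M x := fun x h1 h2 => hL x ((hs.lam x).mpr (Or.inr (Or.inl h2))) h1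
  have lM2 : ∀ x, L x → ¬ K.r'.M x := fun x h1 h2 => hL x ((hs.lam x).mpr (Or.inr (Or.inr h2))) h1
  -- visible vertices
  have hE1 : ∀ x, near G K.y1 x → L x → ¬ E x := fun x hn hl hE =>
    hL _ K.lam_y1 (st.inv x _ hE (near_symm hn))
  have hE2 : ∀ x, near G K.y3 x → L x → ¬ E x := fun x hn hl hE =>
    hL _ K.lam_y3 (st.inv x _ hE (near_symm hn))
  have hE3 : ∀ x, near G K.y4 x → L x → ¬ E x := fun x hn hl hE =>
    hL _ K.lam_y4 (st.inv x _ hE (near_symm hn))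
  have oddL : ∀ x, L x → ¬ E x → ¬ X x → f x ∈ odds := by
    intro x h1 h2 h3
    have h4 := st.par.le x ⟨h1, h2⟩
    have h5 := st.par.par x ⟨h1, h2⟩
    rw [mem_odds]
    have h6 : ¬ Even (f x) := fun hh => h3 (h5.mpr hh)
    rw [Nat.not_even_iff] at h6
    exact ⟨h6, h4⟩
  have nb1 : near G K.y1 K.b1 := ⟨h.fr.n1.hc.ne, Or.inl h.fr.n1.hc⟩
  have nb3 : near G K.y3 K.b3 := ⟨h.fr.n3.hc.ne, Or.inl h.fr.n3.hc⟩
  have nb4 : near G K.y4 K.b4 := ⟨h.fr.n4.hc.ne, Or.inl h.fr.n4.hc⟩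
  have o1 := oddL _ lB1 (hE1 _ nb1 lB1) hr.B1
  have o3 := oddL _ lB3 (hE2 _ nb3 lB3) hr.B3
  have o4 := oddL _ lB4 (hE3 _ nb4 lB4) hr.B4
  -- the lists
  have c1e : l1 = [] → K.r = Rn.two := by
    intro hl
    rcases hs.c1 with ⟨_, h1⟩ | ⟨h1, _⟩
    · exact h1
    · exact absurd hl h1
  have c2e : l2 = [] → K.r' = Rn.two := by
    intro hl
    rcases hs.c2 with ⟨_, h1⟩ | ⟨h1, _⟩
    · exact h1
    · exact absurd hl h1
  have mne1 : ∀ x, K.r.M x → l1 ≠ [] := by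
    intro x hx hl
    rw [c1e hl] at hx
    exact hx
  have mne2 : ∀ x, K.r'.M x → l2 ≠ [] := by
    intro x hx hl
    rw [c2e hl] at hx
    exact hx
  have h8 : ∀ v, R8 K.t K.t' K.s K.s' K.y1 K.y2 K.y3 K.y4 v →
      ¬ (L v ∨ K.r.M v ∨ K.r'.M v) := by
    rintro v hv (h1 | h1 | h1)
    · exact hL v (Or.inl hv) h1
    · exact hM1' v h1 hv
    · exact hM2' v h1 hv
  have fin : ∀ (g : V → ℕ) (E' : V → Prop), StG G X (fun v => (L v ∨ K.r.M v ∨ K.r'.M v) ∨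
      R8 K.t K.t' K.s K.s' K.y1 K.y2 K.y3 K.y4 v) E' g →
      ∃ (g : V → ℕ) (E' : V → Prop), StG G X (fun v => L v ∨ K.Lam v) E' g := by
    intro g E' st3
    refine ⟨g, E', st3.congr (fun v => ?_) (fun v => Iff.rfl)⟩
    rw [hs.lam]
    exact or_perm _ _ _ _
  obtain ⟨sol, ⟨od1, ev2⟩, k1, ⟨db1, db2⟩, ⟨hz21, hzn⟩, ⟨U, hU, hU1, hU2⟩, p2⟩ := halt
  obtain ⟨u, z, hru, hnz, hXz, hLz, hfz⟩ := hs.z hz21
  obtain ⟨W, hW, hW'⟩ := midP_ex p2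
  obtain ⟨f2, g0, g1, g2, st2⟩ := hs.lab U W (fun _ => hU) hW
  have f2L : ∀ x, L x → f2 x = f x := fun x hx => g0 x (lM1 x hx) (lM2 x hx)
  have hn3 := h.near3 hru hnz
  have hMu : K.r.M u := by
    rw [hru]
    rfl
  have Xu : X u := by
    have := h.rt
    rw [hru] at this
    exact this.1.mpr hXt
  have Luu : ¬ L u := fun hh => lM1 u hh hMu
  have oz := oddL z hLz (fun hE => Luu (st.inv z u hE ⟨hnz.hc.ne', Or.inl hnz.hc.symm⟩)) hXz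
  have onz := mem_odds.mp oz
  have on3 := mem_odds.mp o3
  have on4 := mem_odds.mp o4
  -- the label of `u` is even
  have hEu : ¬ E u := fun hE => by
    have := st.sub u hE
    exact Luu this
  have evU : U % 2 = 0 := by
    have h1 := (st2.par.par u ⟨Or.inr (Or.inl hMu), hEu⟩).mp Xu
    rw [g1 u hMu, Nat.even_iff] at h1
    exact h1
  obtain ⟨g, E', st3, _⟩ := hr.fin3 hR hn3 st2 h8 h14 h23 sol
    (fun x hx _ _ => by
      rw [g2 x hx]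
      exact ⟨(hW' (mne2 x hx)).1.symm, (hW' (mne2 x hx)).2.symm⟩) hM1' hM2'
    (by rw [f2L _ lB1, f2L _ lC1]; exact k1) (by rw [f2L _ lB2, f2L _ lC2]; exact q2)
    (by rw [f2L _ lB3, f2L _ lC3]; exact q3) (by rw [f2L _ lB4, f2L _ lC4]; exact q4)
    (Or.inl lB1) (Or.inl lB2) (Or.inl lB3) (Or.inl lB4) (Or.inr (Or.inl hMu)) (Or.inl hLz)
    (by
      rw [f2L _ lB1, f2L _ lB2, f2L _ lB3, f2L _ lB4]
      exact ⟨db1, db2, by omega, by omega⟩)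
    (by
      rw [f2L _ hLz, hfz]
      exact ⟨hzn, by omega⟩)
    (by rw [g1 u hMu]; exact hU1)
    (by rw [g1 u hMu]; omega)
  exact fin g E' st3

/-- **The step with everything outside labelled.** -/
theorem GW.stepF (hcub : ∀ v, (univ.filter fun b => G.Adj v b).card = 3)
    (h : GW G X D K) (hXt : X K.t) (ho : Out G X K B1 B2 B3 B4 C1 C2 C3 C4)
    (hL : ∀ v, K.Lam v → ¬ L v)
    (st : StG G X L E f) (hs : SelG knd G X K L E f zz l1 l2)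
    (n1 : B1 ≠ C1) (n2 : B2 ≠ C2) (n3 : B3 ≠ C3) (n4 : B4 ≠ C4)
    (lB1 : L B1) (lC1 : L C1) (lB2 : L B2) (lC2 : L C2) (lB3 : L B3) (lC3 : L C3) (lB4 : L B4)
    (lC4 : L C4) {d : V} (hd : Nb G K.b1 K.y1 C1 d) (ld : L d ∨ K.Lam d) :
    ∃ (g : V → ℕ) (E' : V → Prop), StG G X (fun v => L v ∨ K.Lam v) E' g := by
  have hR := rel_graph G X
  have hr := ho.reg
  obtain ⟨e1, -, -, Xc1, -, -⟩ := ho.i1 n1
  obtain ⟨e2, -, -, -, -, -⟩ := ho.i2 n2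
  obtain ⟨e3, -, -, -, -, -⟩ := ho.i3 n3
  obtain ⟨e4, -, -, -, -, -⟩ := ho.i4 n4
  subst e1
  subst e2
  subst e3
  subst e4
  have h14 : ¬ qadj G X K.y1 K.y4 := fun hh => n1 (ho.h14 hh).1
  have h23 : ¬ qadj G X K.y2 K.y3 := fun hh => n2 (ho.h23 hh).1
  have hM1' : ∀ x, K.r.M x → ¬ R8 K.t K.t' K.s K.s' K.y1 K.y2 K.y3 K.y4 x :=
    fun x hx => h.inn_r8 hcub (Rn.M_inn _ _ hx)
  have hM2' : ∀ x, K.r'.M x → ¬ R8 K.t K.t' K.s K.s' K.y1 K.y2 K.y3 K.y4 x :=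
    fun x hx => h.inn_r8' hcub (Rn.M_inn _ _ hx)
  have lM1 : ∀ x, L x → ¬ K.r.M x := fun x h1 h2 => hL x ((hs.lam x).mpr (Or.inr (Or.inl h2))) h1
  have lM2 : ∀ x, L x → ¬ K.r'.M x := fun x h1 h2 => hL x ((hs.lam x).mpr (Or.inr (Or.inr h2))) h1
  -- visible vertices
  have hE1 : ∀ x, near G K.y1 x → L x → ¬ E x := fun x hn hl hE =>
    hL _ K.lam_y1 (st.inv x _ hE (near_symm hn))
  have hE2 : ∀ x, near G K.y3 x → L x → ¬ E x := fun x hn hl hE =>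
    hL _ K.lam_y3 (st.inv x _ hE (near_symm hn))
  have hE3 : ∀ x, near G K.y4 x → L x → ¬ E x := fun x hn hl hE =>
    hL _ K.lam_y4 (st.inv x _ hE (near_symm hn))
  have oddL : ∀ x, L x → ¬ E x → ¬ X x → f x ∈ odds := by
    intro x h1 h2 h3
    have h4 := st.par.le x ⟨h1, h2⟩
    have h5 := st.par.par x ⟨h1, h2⟩
    rw [mem_odds]
    have h6 : ¬ Even (f x) := fun hh => h3 (h5.mpr hh)
    rw [Nat.not_even_iff] at h6
    exact ⟨h6, h4⟩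
  have nb1 : near G K.y1 K.b1 := ⟨h.fr.n1.hc.ne, Or.inl h.fr.n1.hc⟩
  have nc1 : near G K.y1 C1 := ⟨hd.ab, Or.inr ⟨K.b1, h.fr.n1.hc, hd.hb⟩⟩
  have nd1 : near G K.y1 d := ⟨hd.ac, Or.inr ⟨K.b1, h.fr.n1.hc, hd.hc⟩⟩
  have nb3 : near G K.y3 K.b3 := ⟨h.fr.n3.hc.ne, Or.inl h.fr.n3.hc⟩
  have nb4 : near G K.y4 K.b4 := ⟨h.fr.n4.hc.ne, Or.inl h.fr.n4.hc⟩
  have o1 := oddL _ lB1 (hE1 _ nb1 lB1) hr.B1
  have o1' := oddL _ lC1 (hE1 _ nc1 lC1) hr.C1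
  have o3 := oddL _ lB3 (hE2 _ nb3 lB3) hr.B3
  have o4 := oddL _ lB4 (hE3 _ nb4 lB4) hr.B4
  have hne : f K.b1 ≠ f C1 :=
    st.par.q _ _ ⟨lB1, hE1 _ nb1 lB1⟩ ⟨lC1, hE1 _ nc1 lC1⟩ ⟨Xc1.symm, hd.hb.ne, Or.inl hd.hb⟩
  have Xd : X d := by
    by_contra hh
    exact side_at (h.off.off _ h.d1) hd (iff_of_false hr.Y1 hr.C1) (iff_of_false hh hr.Y1)
  -- the label of `d`
  obtain ⟨dd, hdd, hdd1, hdd2, hddL⟩ : ∃ dd, (dd % 2 = 0 ∧ dd ≤ 8) ∧ dd + 1 ≠ f K.b1 ∧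
      f K.b1 + 1 ≠ dd ∧ (L d → f d = dd) := by
    by_cases hl : L d
    · have hEd := hE1 _ nd1 hl
      have h1 := st.par.le d ⟨hl, hEd⟩
      have h2 := (st.par.par d ⟨hl, hEd⟩).mp Xd
      rw [Nat.even_iff] at h2
      have hXd : ¬ (X K.b1 ↔ X d) := fun hh => hr.B1 (hh.mpr Xd)
      have h3 := st.par.cross _ _ ⟨lB1, hE1 _ nb1 lB1⟩ ⟨hl, hEd⟩ hd.hc hXd
      have h4 := st.par.cross _ _ ⟨hl, hEd⟩ ⟨lB1, hE1 _ nb1 lB1⟩ hd.hc.symm
        (fun hh => hXd hh.symm)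
      exact ⟨f d, by omega, h4, h3, fun _ => rfl⟩
    · obtain ⟨dd, h1, h2, h3⟩ := dummy_d _ o1
      exact ⟨dd, h1, h2, h3, fun hh => absurd hh hl⟩
  have hdm : dd ∈ ([0, 2, 4, 6, 8] : List ℕ) := by
    simp only [List.mem_cons, List.not_mem_nil, or_false]
    omega
  obtain ⟨a1, a2, a3, a4, m1, m2, m3, m4, q2, q3, q4, halt⟩ := numY hs.kn o1 o1' hne hdm hdd1
    hdd2 (f K.b2) (f C2) (f K.b3) (f C3) (f K.b4) (f C4)
  -- the lists
  have c1e : l1 = [] → K.r = Rn.two := by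
    intro hl
    rcases hs.c1 with ⟨_, h1⟩ | ⟨h1, _⟩
    · exact h1
    · exact absurd hl h1
  have c2e : l2 = [] → K.r' = Rn.two := by
    intro hl
    rcases hs.c2 with ⟨_, h1⟩ | ⟨h1, _⟩
    · exact h1
    · exact absurd hl h1
  have mne1 : ∀ x, K.r.M x → l1 ≠ [] := by
    intro x hx hl
    rw [c1e hl] at hx
    exact hx
  have mne2 : ∀ x, K.r'.M x → l2 ≠ [] := by
    intro x hx hl
    rw [c2e hl] at hx
    exact hx
  have h8 : ∀ v, R8 K.t K.t' K.s K.s' K.y1 K.y2 K.y3 K.y4 v →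
      ¬ (L v ∨ K.r.M v ∨ K.r'.M v) := by
    rintro v hv (h1 | h1 | h1)
    · exact hL v (Or.inl hv) h1
    · exact hM1' v h1 hv
    · exact hM2' v h1 hv
  have fin : ∀ (g : V → ℕ) (E' : V → Prop), StG G X (fun v => (L v ∨ K.r.M v ∨ K.r'.M v) ∨
      R8 K.t K.t' K.s K.s' K.y1 K.y2 K.y3 K.y4 v) E' g →
      ∃ (g : V → ℕ) (E' : V → Prop), StG G X (fun v => L v ∨ K.Lam v) E' g := by
    intro g E' st3
    refine ⟨g, E', st3.congr (fun v => ?_) (fun v => Iff.rfl)⟩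
    rw [hs.lam]
    exact or_perm _ _ _ _
  rcases halt with halt | halt | halt
  · exact h.brP hcub hXt ho hL st hs n1 n2 n3 n4 lB1 lC1 lB2 lC2 lB3 lC3 lB4 lC4 halt q2 q3 q4
  · -- `y1` even
    obtain ⟨sol, kb, kd, p1, p2⟩ := halt
    obtain ⟨U, hU, hU', hU''⟩ := midY_ex p1
    obtain ⟨W, hW, hW', hW''⟩ := midY_ex p2
    obtain ⟨f2, g0, g1, g2, st2⟩ := hs.lab U W hU hW
    have f2L : ∀ x, L x → f2 x = f x := fun x hx => g0 x (lM1 x hx) (lM2 x hx)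
    have o1n := mem_odds.mp o1
    have o1n' := mem_odds.mp o1'
    have evm := sol.ee
    obtain ⟨g, E', st3, _⟩ := hr.coreY hR st2 h8 sol
      (fun x hx _ _ => by
        rw [g1 x hx]
        exact ⟨(hU' (mne1 x hx)).1.symm, (hU' (mne1 x hx)).2.1.symm⟩)
      (fun x hx _ _ => by
        rw [g2 x hx]
        exact ⟨(hW' (mne2 x hx)).1.symm, (hW' (mne2 x hx)).2.1.symm⟩) hM1' hM2'
      (by rw [f2L _ lB2, f2L _ lC2]; exact q2) (by rw [f2L _ lB3, f2L _ lC3]; exact q3)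
      (by rw [f2L _ lB4, f2L _ lC4]; exact q4) h23
      (by
        intro x hx
        have key1 : ∀ x, K.r.M x → (L x ∨ K.r.M x ∨ K.r'.M x) ∧ m1 ≠ f2 x := by
          intro x hx
          refine ⟨Or.inr (Or.inl hx), ?_⟩
          rw [g1 x hx]
          exact (hU' (mne1 x hx)).2.2
        have key2 : ∀ x, K.r'.M x → (L x ∨ K.r.M x ∨ K.r'.M x) ∧ m1 ≠ f2 x := by
          intro x hx
          refine ⟨Or.inr (Or.inr hx), ?_⟩
          rw [g2 x hx]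
          exact (hW' (mne2 x hx)).2.2
        rcases h.near_y1 hd hx with h1 | h1 | h1 | h1 | h1 | h1 | h1 | h1 | h1
        · exact Or.inl h1
        · exact Or.inr (Or.inl h1)
        · refine Or.inr (Or.inr (Or.inr (Or.inr (Or.inr (Or.inr ⟨Or.inl (h1 ▸ lB1), ?_⟩)))))
          rw [h1, f2L _ lB1]
          omega
        · exact Or.inr (Or.inr (Or.inl h1))
        · exact Or.inr (Or.inr (Or.inr (Or.inl h1)))
        · -- the own neighbour of `t`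
          rcases hs.c1 with ⟨hl, h2⟩ | ⟨hl, u, h2⟩
          · rw [h2] at h1
            simp only [Rn.fst] at h1
            exact Or.inr (Or.inr (Or.inr (Or.inr (Or.inl ⟨h1, hU'' hl⟩))))
          · have h3 : K.r.M x := by
              rw [h2] at h1 ⊢
              exact h1
            exact Or.inr (Or.inr (Or.inr (Or.inr (Or.inr (Or.inr (key1 x h3))))))
        · rcases hs.c2 with ⟨hl, h2⟩ | ⟨hl, u, h2⟩
          · rw [h2] at h1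
            simp only [Rn.fst] at h1
            exact Or.inr (Or.inr (Or.inr (Or.inr (Or.inr (Or.inl ⟨h1, hW'' hl⟩)))))
          · have h3 : K.r'.M x := by
              rw [h2] at h1 ⊢
              exact h1
            exact Or.inr (Or.inr (Or.inr (Or.inr (Or.inr (Or.inr (key2 x h3))))))
        · refine Or.inr (Or.inr (Or.inr (Or.inr (Or.inr (Or.inr ⟨Or.inl (h1 ▸ lC1), ?_⟩)))))
          rw [h1, f2L _ lC1]
          omega
        · refine Or.inr (Or.inr (Or.inr (Or.inr (Or.inr (Or.inr ?_)))))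
          rcases ld with hl | hl
          · rw [h1]
            refine ⟨Or.inl hl, ?_⟩
            rw [f2L _ hl, hddL hl]
            exact kd
          · rw [hs.lam] at hl
            rw [h1]
            rcases hl with hl | hl | hl
            · -- `d` is not one of the eight vertices
              exfalso
              have hX1 : ¬ X K.b1 := hr.B1
              have nY := (ho.i1 n1).2.1
              have hadj := hd.hc.symm
              have hnot : ∀ {t y y' o : V}, Nb G t y y' o → d = t → Ys K.y1 K.y2 K.y3 K.y4 y →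
                  Ys K.y1 K.y2 K.y3 K.y4 y' → X o → False := by
                intro t y y' o ht hdt h1 h2 h3
                rw [hdt] at hadj
                rcases ht.all _ hadj with h4 | h4 | h4
                · exact nY (by rw [h4]; exact h1)
                · exact nY (by rw [h4]; exact h2)
                · exact hX1 (by rw [h4]; exact h3)
              have Xs : X K.s := hr.Xs
              have Xo : X (K.r.fst K.t') := h.own_t.mpr hXt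
              have Xo' : X (K.r.lst K.t) := (h.rt.side' h.fr.Xt').mpr hXt
              have Xp : X (K.r'.fst K.s') := h.own_s.mpr hXt
              have Xp' : X (K.r'.lst K.s) := (h.rs.side' (h.fr.Xs'.trans h.fr.Xs.symm)).mpr Xs
              have y1' : Ys K.y1 K.y2 K.y3 K.y4 K.y1 := Or.inl rfl
              have y2' : Ys K.y1 K.y2 K.y3 K.y4 K.y2 := Or.inr (Or.inl rfl)
              have y3' : Ys K.y1 K.y2 K.y3 K.y4 K.y3 := Or.inr (Or.inr (Or.inl rfl))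
              have y4' : Ys K.y1 K.y2 K.y3 K.y4 K.y4 := Or.inr (Or.inr (Or.inr rfl))
              rcases hl with hl | hl | hl | hl | hl | hl | hl | hl
              · exact hnot h.fr.nt hl y1' y2' Xo
              · exact hnot h.fr.nt' hl y3' y4' Xo'
              · exact hnot h.fr.ns hl y1' y3' Xp
              · exact hnot h.fr.ns' hl y2' y4' Xp'
              · exact hr.Y1 (hl ▸ Xd)
              · exact hr.Y2 (hl ▸ Xd)
              · exact hr.Y3 (hl ▸ Xd)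
              · exact hr.Y4 (hl ▸ Xd)
            · exact key1 d hl
            · exact key2 d hl)
      (by
        intro x hx
        rcases h.fr.n1.all x hx with h1 | h1 | h1
        · exact Or.inl h1
        · exact Or.inr (Or.inl h1)
        · refine Or.inr (Or.inr ⟨Or.inl (h1 ▸ lB1), ?_⟩)
          rw [h1, f2L _ lB1]
          exact kb)
    exact fin g E' st3
  · exact h.brT hcub hXt ho hL st hs n1 n2 n3 n4 lB1 lC1 lB2 lC2 lB3 lC3 lB4 lC4 halt q2 q3 q4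

/-- **The step with the eight vertices labelled, `b1` not used.** -/
theorem GW.stepQ (hcub : ∀ v, (univ.filter fun b => G.Adj v b).card = 3)
    (h : GW G X D K) (hXt : X K.t) (ho : Out G X K B1 B2 B3 B4 C1 C2 C3 C4)
    (hL : ∀ v, K.Lam v → ¬ L v)
    (st : StG G X L E f) (hs : SelG kndQ G X K L E f zz l1 l2)
    (n1 : B1 ≠ C1) (n2 : B2 ≠ C2) (n3 : B3 ≠ C3) (n4 : B4 ≠ C4)
    (lB1 : L B1) (lC1 : L C1) (lB2 : L B2) (lC2 : L C2) (lB3 : L B3) (lC3 : L C3) (lB4 : L B4)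
    (lC4 : L C4)
    (hne : ¬ (SP (f B1) (f C1) (f B4) (f C4) ∧ SP (f B2) (f C2) (f B3) (f C3) ∧
      SP (f B1) (f C1) (f B2) (f C2))) :
    ∃ (g : V → ℕ) (E' : V → Prop), StG G X (fun v => L v ∨ K.Lam v) E' g := by
  have hr := ho.reg
  obtain ⟨e1, -, a1, Xc1, cy1, -⟩ := ho.i1 n1
  obtain ⟨e2, -, a2, Xc2, cy2, -⟩ := ho.i2 n2
  obtain ⟨e3, -, a3, Xc3, cy3, -⟩ := ho.i3 n3
  obtain ⟨e4, -, a4, Xc4, cy4, -⟩ := ho.i4 n4
  have key : ∀ {y b B C : V}, K.Lam y → B = b → G.Adj y b → G.Adj b C → (X C ↔ X b) → C ≠ y →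
      ¬ X B → ¬ X C → L B → L C → f B ∈ odds ∧ f C ∈ odds ∧ f B ≠ f C := by
    intro y b B C hy hBb hyb hbC hXC hCy XB XC lB lC
    subst hBb
    have nb : near G y B := ⟨hyb.ne, Or.inl hyb⟩
    have nc : near G y C := ⟨hCy.symm, Or.inr ⟨B, hyb, hbC⟩⟩
    have hE : ∀ x, near G y x → ¬ E x := fun x hn hE => hL _ hy (st.inv x _ hE (near_symm hn))
    have odd : ∀ x, L x → ¬ E x → ¬ X x → f x ∈ odds := by
      intro x h1 h2 h3
      have h4 := st.par.le x ⟨h1, h2⟩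
      have h5 := st.par.par x ⟨h1, h2⟩
      rw [mem_odds]
      have h6 : ¬ Even (f x) := fun hh => h3 (h5.mpr hh)
      rw [Nat.not_even_iff] at h6
      exact ⟨h6, h4⟩
    exact ⟨odd _ lB (hE _ nb) XB, odd _ lC (hE _ nc) XC,
      st.par.q _ _ ⟨lB, hE _ nb⟩ ⟨lC, hE _ nc⟩ ⟨hXC.symm, hbC.ne, Or.inl hbC⟩⟩
  obtain ⟨o1, o1', p1⟩ := key K.lam_y1 e1 h.fr.n1.hc a1 Xc1 cy1 hr.B1 hr.C1 lB1 lC1
  obtain ⟨o2, o2', p2⟩ := key K.lam_y2 e2 h.fr.n2.hc a2 Xc2 cy2 hr.B2 hr.C2 lB2 lC2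
  obtain ⟨o3, o3', p3⟩ := key K.lam_y3 e3 h.fr.n3.hc a3 Xc3 cy3 hr.B3 hr.C3 lB3 lC3
  obtain ⟨o4, o4', p4⟩ := key K.lam_y4 e4 h.fr.n4.hc a4 Xc4 cy4 hr.B4 hr.C4 lB4 lC4
  obtain ⟨a1, a2, a3, a4, m1, m2, m3, m4, q2, q3, q4, halt⟩ :=
    numQ hs.kn o1 o1' p1 o2 o2' p2 o3 o3' p3 o4 o4' p4 hne
  rcases halt with halt | halt
  · exact h.brP hcub hXt ho hL st hs n1 n2 n3 n4 lB1 lC1 lB2 lC2 lB3 lC3 lB4 lC4 halt q2 q3 q4
  · exact h.brT hcub hXt ho hL st hs n1 n2 n3 n4 lB1 lC1 lB2 lC2 lB3 lC3 lB4 lC4 halt q2 q3 q4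

end Pool.Agent.helper58.L9
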