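import Pool.Agent.helper58.L9.K4Fin

/-!
# The finite lemmas for K4 regions with a rung P6(25)

`rowsP`: the pentagon `v2, v3, v4, v5, y` (fields `t, t', s, s', y1`); outer data `z3`, `z4`,
the pair of `y`, the labels `(l1, l6)` of `v1`, `v6`.
`rows6`: the K4 region with `t = v1` arbitrary and `t' = v6` even.
-/

set_option autoImplicit false

namespace Pool.Agent.helper58.L9.K4

/-- the excluded pairs `(l1, l6)` -/
def cmp6 (k : ℕ) : List (ℕ × ℕ) :=
  if k = 0 then [(0, 0), (2, 2), (3, 4), (7, 6), (8, 8)]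
  else if k = 1 then [(0, 0), (1, 2), (5, 4), (6, 6), (8, 8)]
  else [(0, 0), (2, 2), (4, 4), (5, 6), (9, 8)]

/-- the even labels -/
def evs : List ℕ := [0, 2, 4, 6, 8]

/-- all labels -/
def labs : List ℕ := [0, 1, 2, 3, 4, 5, 6, 7, 8, 9]

/-- ordered pairs of different odd labels -/
def ops : List (ℕ × ℕ) :=
  [(1, 3), (1, 5), (1, 7), (1, 9), (3, 1), (3, 5), (3, 7), (3, 9), (5, 1), (5, 3), (5, 7), (5, 9),
   (7, 1), (7, 3), (7, 5), (7, 9), (9, 1), (9, 3), (9, 5), (9, 7)]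

/-- the rows of the pentagon -/
def rowsP : List Row := [
  ⟨2, 8, 0, 4, 7, 0, 0, 0, 7, 30, 347, 914822491275290⟩,
  ⟨6, 0, 2, 8, 3, 0, 0, 0, 30, 28, 910, 471690501961120⟩,
  ⟨2, 0, 8, 6, 9, 0, 0, 0, 30, 7, 183, 7944857976832⟩,
  ⟨8, 4, 0, 2, 5, 0, 0, 0, 25, 30, 621, 30065718172⟩,
  ⟨8, 0, 4, 6, 1, 0, 0, 0, 30, 25, 1008, 21059193856⟩,
  ⟨4, 0, 8, 2, 7, 0, 0, 0, 30, 7, 347, 471704446973344⟩,
  ⟨4, 8, 0, 6, 9, 0, 0, 0, 7, 30, 183, 779536587478⟩,
  ⟨4, 2, 0, 6, 1, 0, 0, 0, 28, 30, 1008, 799024978329622⟩,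
  ⟨0, 6, 4, 8, 5, 0, 0, 0, 19, 25, 621, 399500689910784⟩,
  ⟨6, 2, 0, 4, 9, 0, 0, 0, 28, 30, 183, 28587330437978⟩,
  ⟨0, 4, 6, 8, 3, 0, 0, 0, 25, 19, 910, 254235455265792⟩,
  ⟨0, 8, 6, 2, 5, 0, 0, 0, 7, 19, 621, 739615939679232⟩,
  ⟨8, 6, 0, 4, 1, 0, 0, 0, 19, 30, 1008, 900556826⟩,
  ⟨8, 2, 4, 0, 3, 0, 0, 0, 28, 25, 910, 28816966490⟩,
  ⟨0, 8, 2, 6, 3, 0, 0, 0, 7, 28, 910, 739616643634176⟩,
  ⟨6, 0, 8, 4, 1, 0, 0, 0, 30, 7, 1008, 399122732788736⟩,
  ⟨0, 4, 2, 6, 9, 0, 0, 0, 25, 28, 183, 23834552620032⟩,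
  ⟨2, 6, 8, 0, 7, 0, 0, 0, 19, 7, 347, 507974856474638⟩,
  ⟨6, 8, 4, 2, 9, 0, 0, 0, 7, 25, 183, 27060025⟩,
  ⟨0, 4, 6, 2, 7, 0, 0, 0, 25, 19, 347, 761984811979776⟩,
  ⟨8, 2, 6, 0, 5, 0, 0, 0, 28, 19, 621, 23646110422⟩,
  ⟨4, 6, 0, 8, 1, 0, 0, 0, 19, 30, 1008, 508455408384014⟩,
  ⟨0, 2, 4, 8, 5, 0, 0, 0, 28, 25, 621, 399512501059584⟩,
  ⟨8, 6, 4, 0, 3, 0, 0, 0, 19, 25, 910, 899705690⟩,
  ⟨6, 4, 8, 2, 9, 0, 0, 0, 25, 7, 183, 14293651600813⟩,
  ⟨8, 2, 0, 4, 1, 0, 0, 0, 28, 30, 1008, 28817817626⟩,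
  ⟨0, 2, 8, 6, 3, 0, 0, 0, 28, 7, 910, 254235462598656⟩,
  ⟨0, 6, 8, 4, 9, 0, 0, 0, 19, 7, 183, 12472966032384⟩,
  ⟨4, 0, 6, 2, 9, 0, 0, 0, 30, 19, 183, 23833847289504⟩,
  ⟨4, 8, 6, 0, 7, 0, 0, 0, 7, 19, 347, 774079808297686⟩,
  ⟨8, 0, 2, 6, 1, 0, 0, 0, 30, 28, 1008, 23275951104⟩,
  ⟨0, 6, 2, 4, 7, 0, 0, 0, 19, 28, 347, 907097958835200⟩,
  ⟨8, 0, 4, 2, 5, 0, 0, 0, 30, 25, 621, 26870605600⟩,
  ⟨8, 2, 0, 6, 3, 0, 0, 0, 28, 30, 910, 24383587030⟩,
  ⟨0, 2, 4, 6, 3, 0, 0, 0, 28, 25, 910, 690067684196352⟩,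
  ⟨0, 2, 8, 4, 7, 0, 0, 0, 28, 7, 347, 399134913036288⟩,
  ⟨2, 6, 0, 8, 5, 0, 0, 0, 19, 30, 621, 508455423049742⟩,
  ⟨2, 8, 6, 0, 9, 0, 0, 0, 7, 19, 183, 780297830422⟩,
  ⟨0, 4, 8, 2, 5, 0, 0, 0, 25, 7, 621, 472151123997696⟩,
  ⟨4, 8, 0, 2, 9, 0, 0, 0, 7, 30, 183, 992137474972⟩,
  ⟨4, 8, 0, 6, 1, 0, 0, 0, 7, 30, 1008, 774835722541078⟩,
  ⟨0, 8, 6, 4, 7, 0, 0, 0, 7, 19, 347, 668524128881664⟩,
  ⟨4, 6, 8, 2, 7, 0, 0, 0, 19, 7, 347, 471690488329645⟩,
  ⟨4, 0, 2, 8, 1, 0, 0, 0, 30, 28, 1008, 472151123571712⟩,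
  ⟨2, 4, 6, 0, 5, 0, 0, 0, 25, 19, 621, 799024978329622⟩,
  ⟨4, 2, 8, 0, 7, 0, 0, 0, 28, 7, 347, 507989404418510⟩,
  ⟨4, 8, 0, 2, 7, 0, 0, 0, 7, 30, 347, 985192483287964⟩,
  ⟨8, 4, 6, 2, 5, 0, 0, 0, 25, 19, 621, 22549288629⟩,
  ⟨0, 2, 8, 4, 9, 0, 0, 0, 28, 7, 183, 12484777181184⟩,
  ⟨0, 4, 2, 6, 3, 0, 0, 0, 25, 28, 910, 762706365797376⟩,
  ⟨2, 0, 4, 6, 9, 0, 0, 0, 30, 25, 183, 21564614508544⟩,
  ⟨4, 0, 2, 6, 9, 0, 0, 0, 30, 28, 183, 23833847289504⟩,
  ⟨0, 8, 4, 6, 3, 0, 0, 0, 7, 25, 910, 669176963288064⟩,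
  ⟨4, 6, 8, 0, 7, 0, 0, 0, 19, 7, 347, 507974372047310⟩,
  ⟨8, 6, 0, 2, 5, 0, 0, 0, 19, 30, 621, 30307228⟩,
  ⟨0, 8, 4, 2, 7, 0, 0, 0, 7, 25, 347, 879637011686400⟩,
  ⟨6, 4, 2, 8, 3, 0, 0, 0, 25, 28, 910, 471690488329645⟩,
  ⟨8, 6, 4, 0, 5, 0, 0, 0, 19, 25, 621, 28142426⟩,
  ⟨0, 8, 2, 6, 9, 0, 0, 0, 7, 28, 183, 744830456832⟩,
  ⟨4, 0, 6, 8, 1, 0, 0, 0, 30, 19, 1008, 254235220384768⟩,
  ⟨6, 4, 0, 8, 3, 0, 0, 0, 25, 30, 910, 507974372047310⟩,
  ⟨8, 0, 6, 2, 5, 0, 0, 0, 30, 19, 621, 22571308704⟩,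
  ⟨0, 6, 8, 4, 7, 0, 0, 0, 19, 7, 347, 399123101887488⟩,
  ⟨0, 8, 4, 2, 9, 0, 0, 0, 7, 25, 183, 886702924800⟩,
  ⟨0, 8, 4, 6, 9, 0, 0, 0, 7, 25, 183, 673894222848⟩,
  ⟨0, 8, 6, 2, 7, 0, 0, 0, 7, 19, 347, 738895089816576⟩,
  ⟨2, 4, 6, 0, 7, 0, 0, 0, 25, 19, 347, 798269802283030⟩,
  ⟨6, 2, 0, 8, 3, 0, 0, 0, 28, 30, 910, 507974386713038⟩,
  ⟨8, 2, 4, 0, 5, 0, 0, 0, 28, 25, 621, 27945403226⟩,
  ⟨0, 4, 2, 8, 5, 0, 0, 0, 25, 28, 621, 472151123997696⟩,
  ⟨0, 6, 4, 8, 3, 0, 0, 0, 19, 25, 910, 399501058649088⟩,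
  ⟨0, 8, 2, 4, 7, 0, 0, 0, 7, 28, 347, 879637011686400⟩,
  ⟨2, 6, 8, 0, 5, 0, 0, 0, 19, 7, 621, 508455423049742⟩,
  ⟨8, 0, 6, 4, 1, 0, 0, 0, 30, 19, 1008, 21059193856⟩,
  ⟨8, 4, 0, 6, 1, 0, 0, 0, 25, 30, 1008, 24361261078⟩,
  ⟨8, 6, 4, 2, 5, 0, 0, 0, 19, 25, 621, 27060025⟩]

/-- the rows of the region -/
def rows6_0 : List Row := [
  ⟨7, 0, 2, 6, 9, 1, 7, 3, 1911, 921312, 347, 1268698493772555068333861639494848868646092800⟩,
  ⟨9, 0, 4, 2, 7, 5, 9, 7, 3003, 45277, 183, 42884882867948400332157592651423665094151⟩,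
  ⟨5, 0, 8, 6, 3, 1, 5, 3, 905230, 975072, 621, 22257868311799211725155467359558752081510400⟩,
  ⟨7, 0, 8, 2, 3, 5, 5, 7, 855310, 721117, 621, 5368751879975315033988919713575928565703⟩,
  ⟨7, 2, 8, 0, 3, 5, 5, 7, 855310, 721117, 621, 5433884051829434973742684770759691997176⟩,
  ⟨9, 4, 2, 0, 7, 5, 9, 7, 3003, 45277, 183, 43471072414635479789941478166077535977408⟩,
  ⟨1, 8, 0, 6, 7, 3, 3, 1, 461744, 908544, 910, 1270832809912078783219597503922264237821394944⟩,
  ⟨3, 0, 2, 4, 7, 9, 5, 7, 461579, 30471, 621, 42884882867948400332157592651423665094151⟩,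
  ⟨5, 2, 4, 0, 7, 3, 9, 7, 458939, 905230, 183, 42950015039802520271911357708607428525624⟩,
  ⟨6, 2, 0, 4, 9, 1, 5, 9, 30583, 978656, 621, 1310730439447135649032730528511196728⟩,
  ⟨4, 8, 0, 6, 7, 1, 5, 3, 461755, 978656, 621, 1270832809912042663978739561022477790078566400⟩,
  ⟨8, 4, 6, 0, 3, 5, 1, 9, 908558, 766173, 1008, 1183519166294554026249657894894858744⟩,
  ⟨1, 6, 8, 0, 3, 5, 1, 3, 908544, 766160, 1008, 178062946494393693801243738876470016652083200⟩,
  ⟨7, 2, 0, 8, 9, 1, 7, 5, 1911, 921312, 347, 178057512444523004999020122817347528643579896⟩,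
  ⟨9, 0, 4, 2, 1, 7, 7, 9, 61152, 3003, 347, 1308742763304126561176745018610941447⟩,
  ⟨9, 0, 8, 2, 3, 5, 5, 9, 56590, 45277, 621, 163841304930891956129091316063899591⟩,
  ⟨6, 4, 0, 2, 3, 9, 9, 7, 908558, 30583, 183, 43471072414635479789941478166077535977408⟩,
  ⟨7, 0, 2, 8, 5, 1, 7, 5, 721117, 921312, 347, 175923261439194818295264744632893020594769863⟩,
  ⟨0, 6, 2, 8, 5, 3, 9, 1, 766173, 908558, 183, 175928630354911098348778253302098480139862016⟩,
  ⟨3, 6, 4, 8, 7, 1, 1, 3, 461579, 978432, 1008, 158854101239005332997342445127809723759820800⟩]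

def rows6_1 : List Row := [
  ⟨5, 8, 6, 0, 1, 3, 3, 5, 975072, 905230, 910, 1270794027172554597321773753258055649634316792⟩,
  ⟨3, 8, 2, 0, 7, 5, 5, 3, 461579, 765965, 621, 1424503571955149550409949911011760133216665600⟩,
  ⟨9, 2, 4, 0, 7, 5, 9, 7, 3003, 45277, 183, 42950015039802520271911357708607428525624⟩,
  ⟨3, 8, 4, 6, 9, 1, 1, 3, 30471, 978432, 1008, 1251623964656654303174838267273817497186304000⟩,
  ⟨4, 8, 0, 6, 7, 9, 3, 1, 461755, 30583, 910, 1270832809912078783219597503922264237821394944⟩,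
  ⟨6, 2, 8, 4, 3, 1, 5, 9, 908558, 978656, 621, 147939895786819253281207236861857343⟩,
  ⟨0, 4, 2, 8, 5, 3, 7, 1, 766173, 908558, 347, 175928630354911098348778253302098480139862016⟩,
  ⟨0, 4, 6, 2, 9, 5, 1, 7, 30583, 766173, 1008, 38716423869284724187916628991662805479879⟩,
  ⟨4, 0, 2, 6, 7, 1, 5, 9, 461755, 978656, 621, 1181531490151544938393672384994603463⟩,
  ⟨2, 6, 4, 0, 7, 9, 9, 3, 461755, 30583, 183, 1407429042839248785250926538790728761756876800⟩,
  ⟨1, 8, 6, 0, 3, 7, 1, 3, 908544, 461744, 1008, 1270832809912042663978739561022477790078566400⟩,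
  ⟨0, 4, 2, 6, 9, 3, 7, 9, 30583, 908558, 347, 1181531490151544938393672384994603463⟩,
  ⟨5, 2, 4, 0, 1, 7, 7, 5, 975072, 458939, 347, 1407386091513558546362117957063144164758158904⟩,
  ⟨5, 8, 0, 6, 3, 9, 5, 3, 905230, 28791, 621, 1270832809912042663978739561022477790078566400⟩,
  ⟨8, 2, 0, 4, 3, 1, 5, 7, 908558, 978656, 621, 42950015039802520271911357708607428525624⟩,
  ⟨4, 0, 6, 8, 9, 1, 3, 5, 30583, 978656, 910, 22257189055565375624877515352168441080447487⟩,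
  ⟨2, 0, 4, 8, 9, 5, 7, 3, 30583, 766173, 347, 158854101239005332997342445127809723759820800⟩,
  ⟨4, 8, 6, 2, 1, 9, 3, 5, 978656, 30583, 910, 1268659776167226410618018375073601141585506759⟩,
  ⟨2, 8, 0, 4, 9, 7, 3, 1, 30583, 461755, 910, 1407429042839288786790226026416787841118896128⟩,
  ⟨2, 4, 0, 6, 5, 9, 7, 1, 766173, 30583, 347, 1270832809912078783219597503922264237821394944⟩]

def rows6_2 : List Row := [
  ⟨4, 0, 6, 2, 1, 7, 9, 5, 978656, 461755, 183, 1268659776167226410618018375073601141585506759⟩,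
  ⟨2, 8, 4, 0, 7, 5, 1, 3, 461755, 766173, 1008, 1407429042839248785250926538790728761756876800⟩,
  ⟨0, 6, 2, 4, 5, 9, 9, 1, 766173, 30583, 183, 1405294726699801130484434955752810909817372672⟩,
  ⟨4, 6, 0, 8, 7, 1, 9, 3, 461755, 978656, 183, 178062946494393693801243738876470016652083200⟩,
  ⟨8, 4, 6, 2, 3, 5, 9, 7, 908558, 766173, 183, 38716423869284724187916628991662805479879⟩,
  ⟨4, 2, 0, 8, 7, 1, 9, 5, 461755, 978656, 183, 178057512444523004999020122817347528643579896⟩,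
  ⟨1, 6, 0, 8, 9, 3, 3, 1, 30576, 908544, 910, 178062946494398754654569323966075411441385472⟩,
  ⟨0, 8, 2, 6, 7, 3, 5, 1, 461755, 908558, 621, 1268698493772591126913806433258287306519871488⟩,
  ⟨6, 2, 8, 4, 1, 9, 5, 7, 978656, 30583, 621, 4847694505142355515958799256105821113919⟩,
  ⟨6, 2, 4, 0, 9, 3, 7, 9, 30583, 908558, 347, 1310730439447135649032730528511196728⟩,
  ⟨0, 6, 8, 2, 3, 5, 1, 9, 908558, 766173, 1008, 163841304930891956129091316063899591⟩,
  ⟨6, 2, 0, 8, 3, 1, 7, 5, 908558, 978656, 347, 178057512444523004999020122817347528643579896⟩,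
  ⟨0, 6, 8, 2, 5, 7, 1, 9, 766173, 461755, 1008, 163841304930891956129091316063899591⟩,
  ⟨8, 6, 0, 4, 5, 1, 3, 9, 766173, 978656, 910, 1310730439447135649032730528511196728⟩,
  ⟨4, 8, 2, 0, 9, 7, 5, 3, 30583, 461755, 621, 1424503571955149550409949911011760133216665600⟩,
  ⟨2, 0, 8, 4, 5, 9, 3, 7, 766173, 30583, 910, 4847694505142355515958799256105821113919⟩,
  ⟨2, 4, 6, 0, 9, 7, 1, 9, 30583, 461755, 1008, 1183519166294554026249657894894858744⟩,
  ⟨0, 4, 6, 8, 3, 5, 9, 1, 908558, 766173, 183, 22257868311799844331821165495759426430173184⟩,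
  ⟨4, 8, 0, 2, 7, 9, 3, 5, 461755, 30583, 910, 1424460099556184039992160982538780229148639168⟩,
  ⟨0, 6, 2, 8, 7, 5, 9, 3, 461755, 766173, 183, 175928630354906098156365817348841095219609600⟩]

def rows6_3 : List Row := [
  ⟨6, 2, 4, 8, 1, 3, 7, 5, 978656, 908558, 347, 158849253396569324665221719157256956204289599⟩,
  ⟨0, 8, 2, 6, 9, 3, 5, 1, 30583, 908558, 621, 1268698493772591126913806433258287306519871488⟩,
  ⟨0, 2, 6, 4, 3, 9, 9, 7, 908558, 30583, 183, 38195366494451764669886508534192698028095⟩,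
  ⟨2, 6, 4, 0, 7, 5, 1, 9, 461755, 766173, 1008, 1310730439447135649032730528511196728⟩,
  ⟨2, 8, 0, 6, 5, 9, 3, 1, 766173, 30583, 910, 1270832809912078783219597503922264237821394944⟩,
  ⟨6, 0, 4, 8, 9, 1, 7, 3, 30583, 978656, 347, 158854101239005332997342445127809723759820800⟩,
  ⟨0, 8, 6, 2, 3, 7, 1, 5, 908558, 461755, 1008, 1268659776167226410618018375073601141585506759⟩,
  ⟨0, 2, 8, 4, 3, 7, 5, 9, 908558, 461755, 621, 147939895786819253281207236861857343⟩,
  ⟨8, 0, 6, 2, 1, 5, 3, 7, 978656, 766173, 910, 38716423869284724187916628991662805479879⟩,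
  ⟨2, 6, 8, 0, 5, 9, 1, 3, 766173, 30583, 1008, 178062946494393693801243738876470016652083200⟩,
  ⟨0, 2, 4, 8, 7, 3, 9, 5, 461755, 908558, 183, 158849253396569324665221719157256956204289599⟩,
  ⟨8, 0, 2, 6, 5, 1, 7, 3, 766173, 978656, 347, 1268698493772555068333861639494848868646092800⟩,
  ⟨4, 0, 2, 6, 9, 1, 5, 9, 30583, 978656, 621, 1181531490151544938393672384994603463⟩,
  ⟨2, 8, 4, 6, 7, 9, 1, 3, 461755, 30583, 1008, 1251623964656654303174838267273817497186304000⟩,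
  ⟨6, 2, 8, 0, 1, 3, 5, 7, 978656, 908558, 621, 5433884051829434973742684770759691997176⟩,
  ⟨0, 4, 2, 6, 7, 3, 9, 1, 461755, 908558, 183, 1268698493772591126913806433258287306519871488⟩,
  ⟨8, 4, 6, 0, 3, 5, 1, 7, 908558, 766173, 1008, 38781556041138844127670394048846568911352⟩,
  ⟨2, 6, 8, 4, 5, 7, 3, 1, 766173, 461755, 910, 158854101239009847902449687990283029727674368⟩,
  ⟨6, 8, 4, 0, 9, 3, 1, 5, 30583, 908558, 1008, 1407386091513558546362117957063144164758158904⟩,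
  ⟨4, 0, 6, 2, 1, 9, 9, 5, 978656, 30583, 183, 1268659776167226410618018375073601141585506759⟩]

def rows6_4 : List Row := [
  ⟨8, 2, 0, 4, 5, 1, 9, 7, 766173, 978656, 183, 42950015039802520271911357708607428525624⟩,
  ⟨4, 6, 8, 2, 1, 7, 3, 9, 978656, 461755, 910, 163841304930891956129091316063899591⟩,
  ⟨0, 4, 2, 8, 9, 5, 7, 1, 30583, 766173, 347, 175928630354911098348778253302098480139862016⟩,
  ⟨8, 2, 0, 4, 3, 1, 7, 9, 908558, 978656, 347, 1310730439447135649032730528511196728⟩,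
  ⟨2, 8, 0, 4, 7, 9, 5, 1, 461755, 30583, 621, 1407429042839288786790226026416787841118896128⟩,
  ⟨4, 0, 2, 8, 7, 1, 5, 3, 461755, 978656, 621, 175928630354906098156365817348841095219609600⟩,
  ⟨4, 8, 6, 0, 9, 7, 3, 5, 30583, 461755, 910, 1270794027172554597321773753258055649634316792⟩,
  ⟨6, 4, 8, 2, 3, 9, 1, 7, 908558, 30583, 1008, 5368751879975315033988919713575928565703⟩,
  ⟨8, 4, 2, 6, 5, 3, 7, 9, 766173, 908558, 347, 1181531490151544938393672384994603463⟩,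
  ⟨8, 6, 4, 0, 1, 5, 9, 3, 978656, 766173, 183, 1407429042839248785250926538790728761756876800⟩]

def rows6 : List Row :=
  rows6_0 ++ (rows6_1 ++ (rows6_2 ++ (rows6_3 ++ (rows6_4))))

/-- the constraints inside the pentagon -/
def basePe (x : Row) : Bool :=
  (ev8 x.t && (ev8 x.t' && (ev8 x.s && (ev8 x.s' && odd9 x.y1)))) &&
  ((nq x.t x.t' && (nq x.t x.s && (nq x.t x.s' && (nq x.t' x.s && (nq x.t' x.s' && nq x.s x.s'))))) &&
  (far x.y1 x.t && far x.y1 x.s'))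

/-- the constraints with `v1`, `v6` -/
def peOK (x : Row) (l : ℕ × ℕ) : Bool :=
  (far x.t l.1 && (nq x.t' l.1 && nq x.y1 l.1)) && (far x.s' l.2 && (nq x.s l.2 && nq x.y1 l.2))

/-- the allowed pairs -/
def full6 (k : ℕ) : ℕ := if k = 0 then 1108032842758142 else if k = 1 then 1108298996645822 else 562949680789502

/-- the pentagon cover check -/
def coverP (L : List Row) (J1 J2 J3 : List ℕ) : Bool :=
  J1.all fun p => let L1 := L.filter (fun m => tb m.a p)
    J2.all fun q => let L2 := L1.filter (fun m => tb m.b q)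
      J3.all fun r => let M := f3 r L2 0
        (Nat.beq (Nat.land M (full6 0)) (full6 0) || (Nat.beq (Nat.land M (full6 1)) (full6 1) ||
          Nat.beq (Nat.land M (full6 2)) (full6 2)))

set_option maxRecDepth 100000 in
theorem dP : dataOK rowsP basePe odds odds pairs (lprod labs evs)
    (fun x z => far x.t' z) (fun x z => far x.s z) (fun x c => av x.y1 c) peOK = true := by
  decide +kernel

set_option maxRecDepth 100000 in
theorem cP : coverP rowsP (List.range odds.length) (List.range odds.length)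
    (List.range pairs.length) = true := by
  decide +kernel

set_option maxRecDepth 100000 in
theorem fP : ∀ k ∈ [0, 1, 2], ∀ j ∈ List.range (lprod labs evs).length,
    (lprod labs evs)[j]? ∉ (cmp6 k).map some → Nat.testBit (full6 k) j = true := by
  decide +kernel

/-- `t` arbitrary, `t'` even -/
def base6 (x : Row) : Bool := Nat.beq (x.t' % 2) 0 && base0 x

/-- the middle `V` is avoided by `s`, `s'`; the pair `(t, t')` is allowed -/
def vk6 (x : Row) (l : ℕ × ℕ) : Bool :=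
  (nq x.s l.1 && nq x.s' l.1) && !((cmp6 l.2).contains (x.t, x.t'))

set_option maxRecDepth 100000 in
theorem d6_0 : dataOK rows6_0 base6 ops ops pairs (lprod pairs (lprod evs [0, 1, 2]))
    (fun x c => avb x.y1 x.t c) (fun x c => avb x.y2 x.t c) (fun x c => av x.y3 c)
    (fun x l => av x.y4 l.1 && vk6 x l.2) = true := by
  decide +kernel

set_option maxRecDepth 100000 in
theorem d6_1 : dataOK rows6_1 base6 ops ops pairs (lprod pairs (lprod evs [0, 1, 2]))
    (fun x c => avb x.y1 x.t c) (fun x c => avb x.y2 x.t c) (fun x c => av x.y3 c)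
    (fun x l => av x.y4 l.1 && vk6 x l.2) = true := by
  decide +kernel

set_option maxRecDepth 100000 in
theorem d6_2 : dataOK rows6_2 base6 ops ops pairs (lprod pairs (lprod evs [0, 1, 2]))
    (fun x c => avb x.y1 x.t c) (fun x c => avb x.y2 x.t c) (fun x c => av x.y3 c)
    (fun x l => av x.y4 l.1 && vk6 x l.2) = true := by
  decide +kernel

set_option maxRecDepth 100000 in
theorem d6_3 : dataOK rows6_3 base6 ops ops pairs (lprod pairs (lprod evs [0, 1, 2]))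
    (fun x c => avb x.y1 x.t c) (fun x c => avb x.y2 x.t c) (fun x c => av x.y3 c)
    (fun x l => av x.y4 l.1 && vk6 x l.2) = true := by
  decide +kernel

set_option maxRecDepth 100000 in
theorem d6_4 : dataOK rows6_4 base6 ops ops pairs (lprod pairs (lprod evs [0, 1, 2]))
    (fun x c => avb x.y1 x.t c) (fun x c => avb x.y2 x.t c) (fun x c => av x.y3 c)
    (fun x l => av x.y4 l.1 && vk6 x l.2) = true := by
  decide +kernel

theorem d6 : dataOK rows6 base6 ops ops pairs (lprod pairs (lprod evs [0, 1, 2]))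
    (fun x c => avb x.y1 x.t c) (fun x c => avb x.y2 x.t c) (fun x c => av x.y3 c)
    (fun x l => av x.y4 l.1 && vk6 x l.2) = true := by
  simp only [rows6, dataOK_append, d6_0, d6_1, d6_2, d6_3, d6_4, Bool.and_self]

set_option maxRecDepth 100000 in
theorem c6_0 : coverM rows6 [0] (List.range ops.length)
    (List.range pairs.length) (2 ^ (lprod pairs (lprod evs [0, 1, 2])).length - 1) = true := by
  decide +kernel

set_option maxRecDepth 100000 in
theorem c6_1 : coverM rows6 [1] (List.range ops.length)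
    (List.range pairs.length) (2 ^ (lprod pairs (lprod evs [0, 1, 2])).length - 1) = true := by
  decide +kernel

set_option maxRecDepth 100000 in
theorem c6_2 : coverM rows6 [2] (List.range ops.length)
    (List.range pairs.length) (2 ^ (lprod pairs (lprod evs [0, 1, 2])).length - 1) = true := by
  decide +kernel

set_option maxRecDepth 100000 in
theorem c6_3 : coverM rows6 [3] (List.range ops.length)
    (List.range pairs.length) (2 ^ (lprod pairs (lprod evs [0, 1, 2])).length - 1) = true := by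
  decide +kernel

set_option maxRecDepth 100000 in
theorem c6_4 : coverM rows6 [4] (List.range ops.length)
    (List.range pairs.length) (2 ^ (lprod pairs (lprod evs [0, 1, 2])).length - 1) = true := by
  decide +kernel

set_option maxRecDepth 100000 in
theorem c6_5 : coverM rows6 [5] (List.range ops.length)
    (List.range pairs.length) (2 ^ (lprod pairs (lprod evs [0, 1, 2])).length - 1) = true := by
  decide +kernel

set_option maxRecDepth 100000 in
theorem c6_6 : coverM rows6 [6] (List.range ops.length)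
    (List.range pairs.length) (2 ^ (lprod pairs (lprod evs [0, 1, 2])).length - 1) = true := by
  decide +kernel

set_option maxRecDepth 100000 in
theorem c6_7 : coverM rows6 [7] (List.range ops.length)
    (List.range pairs.length) (2 ^ (lprod pairs (lprod evs [0, 1, 2])).length - 1) = true := by
  decide +kernel

set_option maxRecDepth 100000 in
theorem c6_8 : coverM rows6 [8] (List.range ops.length)
    (List.range pairs.length) (2 ^ (lprod pairs (lprod evs [0, 1, 2])).length - 1) = true := by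
  decide +kernel

set_option maxRecDepth 100000 in
theorem c6_9 : coverM rows6 [9] (List.range ops.length)
    (List.range pairs.length) (2 ^ (lprod pairs (lprod evs [0, 1, 2])).length - 1) = true := by
  decide +kernel

set_option maxRecDepth 100000 in
theorem c6_10 : coverM rows6 [10] (List.range ops.length)
    (List.range pairs.length) (2 ^ (lprod pairs (lprod evs [0, 1, 2])).length - 1) = true := by
  decide +kernel

set_option maxRecDepth 100000 in
theorem c6_11 : coverM rows6 [11] (List.range ops.length)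
    (List.range pairs.length) (2 ^ (lprod pairs (lprod evs [0, 1, 2])).length - 1) = true := by
  decide +kernel

set_option maxRecDepth 100000 in
theorem c6_12 : coverM rows6 [12] (List.range ops.length)
    (List.range pairs.length) (2 ^ (lprod pairs (lprod evs [0, 1, 2])).length - 1) = true := by
  decide +kernel

set_option maxRecDepth 100000 in
theorem c6_13 : coverM rows6 [13] (List.range ops.length)
    (List.range pairs.length) (2 ^ (lprod pairs (lprod evs [0, 1, 2])).length - 1) = true := by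
  decide +kernel

set_option maxRecDepth 100000 in
theorem c6_14 : coverM rows6 [14] (List.range ops.length)
    (List.range pairs.length) (2 ^ (lprod pairs (lprod evs [0, 1, 2])).length - 1) = true := by
  decide +kernel

set_option maxRecDepth 100000 in
theorem c6_15 : coverM rows6 [15] (List.range ops.length)
    (List.range pairs.length) (2 ^ (lprod pairs (lprod evs [0, 1, 2])).length - 1) = true := by
  decide +kernel

set_option maxRecDepth 100000 in
theorem c6_16 : coverM rows6 [16] (List.range ops.length)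
    (List.range pairs.length) (2 ^ (lprod pairs (lprod evs [0, 1, 2])).length - 1) = true := by
  decide +kernel

set_option maxRecDepth 100000 in
theorem c6_17 : coverM rows6 [17] (List.range ops.length)
    (List.range pairs.length) (2 ^ (lprod pairs (lprod evs [0, 1, 2])).length - 1) = true := by
  decide +kernel

set_option maxRecDepth 100000 in
theorem c6_18 : coverM rows6 [18] (List.range ops.length)
    (List.range pairs.length) (2 ^ (lprod pairs (lprod evs [0, 1, 2])).length - 1) = true := by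
  decide +kernel

set_option maxRecDepth 100000 in
theorem c6_19 : coverM rows6 [19] (List.range ops.length)
    (List.range pairs.length) (2 ^ (lprod pairs (lprod evs [0, 1, 2])).length - 1) = true := by
  decide +kernel

theorem c6 : coverM rows6 (List.range ops.length) (List.range ops.length)
    (List.range pairs.length) (2 ^ (lprod pairs (lprod evs [0, 1, 2])).length - 1) = true := by
  have e : List.range ops.length =
      [0] ++ ([1] ++ ([2] ++ ([3] ++ ([4] ++ ([5] ++ ([6] ++ ([7] ++ ([8] ++ ([9] ++ ([10] ++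
      ([11] ++ ([12] ++ ([13] ++ ([14] ++ ([15] ++ ([16] ++ ([17] ++ ([18] ++
      ([19]))))))))))))))))))) := by
    decide +kernel
  refine coverM_congr e ?_
  simp only [coverM_append, c6_0, c6_1, c6_2, c6_3, c6_4, c6_5, c6_6, c6_7, c6_8, c6_9, c6_10,
    c6_11, c6_12, c6_13, c6_14, c6_15, c6_16, c6_17, c6_18, c6_19, Bool.and_self]

end Pool.Agent.helper58.L9.K4
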