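import Pool.Agent.helper58.L9.YWire

/-!
# The Y-mode of the joint stage, in the context `JC`: wire `B`, the links, the path
-/

set_option autoImplicit false
set_option linter.unusedSectionVars false
set_option linter.unusedSimpArgs false
set_option linter.unusedVariables false

namespace Helper58.L9.Y

open Finset Classical Helper33.L9
open Helper42.L9 hiding near gp
open Pool.Agent.helper58.L9 hiding Fr
open Helper17.L9
open Helper97.L9.F
open Pool.Agent.helper45.L9 (JC)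
open Pool.Agent.helper40.L9 (ParOK JSt Bad Tol LamU JExt)
open Pool.Agent.helper40.L9.J (kk M3 nbm gp Core SdR SdV)

variable {V : Type*} [Fintype V] {G : SimpleGraph V} {X L L2 : V → Prop} {f f1 f2 g : V → ℕ}
  {Z S : Finset V}

section

variable {v1 v2 v3 v4 v5 z1 z3 z5 l1 l5 : V} {kA kB : ℕ}
  {pA uA vA qA yA pB uB vB qB yB : ℕ → V} {w1 w3 w3' w5 ba0 bak bb0 bbk : V}
  (hcub : ∀ v, (univ.filter fun b => G.Adj v b).card = 3)
  (H : JC G X Z S L f v1 v2 v3 v4 v5 z1 z3 z5 l1 l5 kA kB pA uA vA qA yA pB uB vB qB yB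
    w1 w3 w3' w5 ba0 bak bb0 bbk)

include hcub H

theorem yfin (hkA : kA ≠ 0) (hkB : kB ≠ 0)
    (hNMB : ∀ i, 0 < i → i < kB → ∀ b, ownR G X (yB i) b → NMAt G X b)
    (Lz1 : L z1) (Lz3 : L z3) (Lz5 : L z5) (Ll1 : L l1) (Ll5 : L l5) (Lw1 : L w1) (Lw5 : L w5)
    (Lbak : L bak) (LqA : L (qA (kA - 1)))
    {c d cA0 dA0 cBk dBk cB0 dB0 : V} {n1 n2 n3 n4 n5 nAk nA0 nBk nB0 cA cB uk T : ℕ}
    (nb : Nb G bak (yA kA) c d) (Lc : L c) (Ld : L d)
    (sA0 : Slot G X L f nA0 (yA 0) ba0 cA0 dA0)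
    (sBk : Slot G X L f nBk (yB kB) bbk cBk dBk) (sB0 : Slot G X L f nB0 (yB 0) bb0 cB0 dB0)
    (core : Core (f z3) n1 n2 n3 n4 n5)
    (A : NA (f z1) (f w1) (f bak) (f l1) (f ba0) (f c) (f d) n1 n2 n3 n4 n5 nAk nA0)
    (B : FA (f z5) (f w5) (f bbk) (f l5) (f bb0) n5 n4 n3 n2 n1 nBk nB0) (o5 : n5 % 2 = 1)
    (h4 : n4 ≠ cA) (hx : gp cA nA0) (wB1 : n2 ≠ cB)
    (wB : WData f (pB 0) (qB 0) cB nBk nB0)
    (hq : f (qA (kA - 1)) ≠ nAk) (hu : uk ≠ nAk) (hT : T ≠ nAk) (hT1 : n1 ≠ T)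
    (st1 : JSt G X (fun x => L x ∨ WS kA uA vA yA x) f1)
    (o1 : ∀ x, ¬ WS kA uA vA yA x → f1 x = f x)
    (e0 : f1 (uA 0) = cA) (ek : f1 (uA (kA - 1)) = uk) (eT : f1 (vA (kA - 1)) = T)
    (p1 : ∀ x, WS kA uA vA yA x → (X x ↔ Even (f1 x))) :
    ∃ f', JSt G X (fun x => L x ∨ LamU v1 v2 v3 v4 v5 kA kB uA vA yA uB vB yB x) f' := by
  have R := H.rev
  obtain ⟨n12, n13, n14, n15, n23, n24, n25, n34, n35, n45⟩ := H.nd5
  have kA0 : 0 < kA := Nat.pos_of_ne_zero hkA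
  have kB0 : 0 < kB := Nat.pos_of_ne_zero hkB
  have kA1 : kA - 1 < kA := by omega
  have kB1 : kB - 1 < kB := by omega
  have ekA : kA - 1 + 1 = kA := by omega
  have ekB : kB - 1 + 1 = kB := by omega
  have iA0 : ¬ (0 = kA) := fun hh => hkA hh.symm
  have iB0 : ¬ (0 = kB) := fun hh => hkB hh.symm
  -- positions
  have XuA : ∀ i, i < kA → X (uA i) := fun i hi => wX_u H.h.A H.n.X4 hi
  have XvA : ∀ i, i < kA → X (vA i) := fun i hi => wX_v H.h.A H.n.X4 hi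
  have XuB : ∀ i, i < kB → X (uB i) := fun i hi => wX_u H.h.B H.n.X2 hi
  have XvB : ∀ i, i < kB → X (vB i) := fun i hi => wX_v H.h.B H.n.X2 hi
  have YA : ∀ i, i ≤ kA → ¬ X (yA i) := fun i hi => wY H.h.A H.n.X4 hi
  have YB : ∀ i, i ≤ kB → ¬ X (yB i) := fun i hi => wY H.h.B H.n.X2 hi
  have WAL : ∀ x, WS kA uA vA yA x → ¬ L x := by
    rintro x (⟨i, hi, rfl | rfl⟩ | ⟨i, _, hi, rfl⟩)
    exacts [H.uuA hi, H.uvA hi, H.uyA hi.le]
  have WBL : ∀ x, WS kB uB vB yB x → ¬ L x := by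
    rintro x (⟨i, hi, rfl | rfl⟩ | ⟨i, _, hi, rfl⟩)
    exacts [R.uuA hi, R.uvA hi, R.uyA hi.le]
  have cuA : ∀ i, i < kA → cc G X (uA i) = 3 ∧ cc G X (vA i) = 3 := fun i hi =>
    ⟨(H.h.A.unit i hi).cu, (H.h.A.unit i hi).cv⟩
  -- members of the wires are different from other vertices
  have WAx : ∀ x, WS kA uA vA yA x → X x → ∃ i, i < kA ∧ (x = uA i ∨ x = vA i) := by
    rintro x (h1 | ⟨i, _, hi, rfl⟩) hx
    · exact h1
    · exact absurd hx (YA i hi.le)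
  have WBx : ∀ x, WS kB uB vB yB x → X x → ∃ i, i < kB ∧ (x = uB i ∨ x = vB i) := by
    rintro x (h1 | ⟨i, _, hi, rfl⟩) hx
    · exact h1
    · exact absurd hx (YB i hi.le)
  have WAy : ∀ x, WS kA uA vA yA x → ¬ X x → ∃ i, 0 < i ∧ i < kA ∧ x = yA i := by
    rintro x (⟨i, hi, rfl | rfl⟩ | h1) hx
    · exact absurd (XuA i hi) hx
    · exact absurd (XvA i hi) hx
    · exact h1
  have WBy : ∀ x, WS kB uB vB yB x → ¬ X x → ∃ i, 0 < i ∧ i < kB ∧ x = yB i := by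
    rintro x (⟨i, hi, rfl | rfl⟩ | h1) hx
    · exact absurd (XuB i hi) hx
    · exact absurd (XvB i hi) hx
    · exact h1
  have WAv : ∀ x, WS kA uA vA yA x → x ∉ [v1, v2, v3, v4, v5] := by
    intro x hx
    simp only [List.mem_cons, List.not_mem_nil, or_false, not_or]
    rcases hx with ⟨i, hi, rfl | rfl⟩ | ⟨i, _, hi, rfl⟩
    · exact (H.nA hi).1
    · exact (H.nA hi).2
    · have := YA i hi.le
      exact ⟨fun e => this (e ▸ H.n.X1), fun e => this (e ▸ H.n.X2), fun e => this (e ▸ H.n.X3),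
        fun e => this (e ▸ H.n.X4), fun e => this (e ▸ H.n.X5)⟩
  have WBv : ∀ x, WS kB uB vB yB x → x ∉ [v1, v2, v3, v4, v5] := by
    intro x hx
    simp only [List.mem_cons, List.not_mem_nil, or_false, not_or]
    rcases hx with ⟨i, hi, rfl | rfl⟩ | ⟨i, _, hi, rfl⟩
    · have := (R.nA hi).1
      exact ⟨this.2.2.2.2, this.2.2.2.1, this.2.2.1, this.2.1, this.1⟩
    · have := (R.nA hi).2
      exact ⟨this.2.2.2.2, this.2.2.2.1, this.2.2.1, this.2.1, this.1⟩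
    · have := YB i hi.le
      exact ⟨fun e => this (e ▸ H.n.X1), fun e => this (e ▸ H.n.X2), fun e => this (e ▸ H.n.X3),
        fun e => this (e ▸ H.n.X4), fun e => this (e ▸ H.n.X5)⟩
  have WAB : ∀ x, WS kA uA vA yA x → ¬ WS kB uB vB yB x := by
    intro x hx hy
    by_cases hX : X x
    · obtain ⟨i, hi, h1⟩ := WAx x hx hX
      obtain ⟨j, hj, h2⟩ := WBx x hy hX
      have h3 := H.h.dAB i hi j hj
      rcases h1 with h1 | h1 <;> rcases h2 with h2 | h2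
      · exact h3.1 (h1.symm.trans h2)
      · exact h3.2.1 (h1.symm.trans h2)
      · exact h3.2.2.1 (h1.symm.trans h2)
      · exact h3.2.2.2 (h1.symm.trans h2)
    · obtain ⟨i, _, hi, h1⟩ := WAy x hx hX
      obtain ⟨j, _, hj, h2⟩ := WBy x hy hX
      exact H.h.dy i hi.le j hj.le (h1.symm.trans h2)
  have yAW : ∀ i, (i = 0 ∨ i = kA) → ¬ WS kA uA vA yA (yA i) ∧ ¬ WS kB uB vB yB (yA i) := by
    intro i hi
    have hi' : i ≤ kA := by omega
    refine ⟨fun hx => ?_, fun hx => ?_⟩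
    · obtain ⟨j, h0, hj, h1⟩ := WAy _ hx (YA i hi')
      have := H.h.A.nyy i hi' j hj.le h1
      omega
    · obtain ⟨j, h0, hj, h1⟩ := WBy _ hx (YA i hi')
      exact H.h.dy i hi' j hj.le h1
  have yBW : ∀ i, (i = 0 ∨ i = kB) → ¬ WS kA uA vA yA (yB i) ∧ ¬ WS kB uB vB yB (yB i) := by
    intro i hi
    have hi' : i ≤ kB := by omega
    refine ⟨fun hx => ?_, fun hx => ?_⟩
    · obtain ⟨j, h0, hj, h1⟩ := WAy _ hx (YB i hi')
      exact H.h.dy j hj.le i hi' h1.symm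
    · obtain ⟨j, h0, hj, h1⟩ := WBy _ hx (YB i hi')
      have := H.h.B.nyy i hi' j hj.le h1
      omega
  -- wire `B`
  have pBf : f1 (pB 0) = f (pB 0) ∧ f1 (qB 0) = f (qB 0) := by
    have h1 := H.h.B.unit 0 kB0
    have key : ∀ x, X x → cc G X x = 2 → f1 x = f x := by
      intro x hX h2
      refine o1 x fun hx => ?_
      obtain ⟨i, hi, e | e⟩ := WAx x hx hX
      · have := (cuA i hi).1
        rw [← e] at this
        omega
      · have := (cuA i hi).2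
        rw [← e] at this
        omega
    exact ⟨key _ (wX_p H.h.B H.n.X2 kB0) h1.cp, key _ (wX_q H.h.B H.n.X2 kB0) h1.cq⟩
  have wB' : WData f1 (pB 0) (qB 0) cB nBk nB0 := by
    obtain ⟨M, h1, h2, h3⟩ := wB
    refine ⟨M, h1, ?_, h3⟩
    rw [pBf.1, pBf.2]
    exact h2
  obtain ⟨f2, st2, o2, q2, p2⟩ := wire_step hcub H.h.B H.n.X2 st1
    (fun i hi => by
      rintro (h1 | h1)
      · exact R.uuA hi h1
      · exact WAB _ h1 (Or.inl ⟨i, hi, Or.inl rfl⟩))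
    (fun i hi => by
      rintro (h1 | h1)
      · exact R.uvA hi h1
      · exact WAB _ h1 (Or.inl ⟨i, hi, Or.inr rfl⟩))
    (fun i hi => by
      rintro (h1 | h1)
      · exact R.uyA hi h1
      · obtain ⟨j, h0, hj, h2⟩ := WAy _ h1 (YB i hi)
        exact H.h.dy j hj.le i hi h2.symm)
    (by
      rintro (h1 | h1)
      · exact H.u2 h1
      · exact WAv _ h1 (by simp))
    (by
      rintro (h1 | h1)
      · exact H.u5 h1
      · exact WAv _ h1 (by simp)) hNMB B.y9 B.yo (c := cB) (x := nB0) (fun _ => wB')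
  -- the state before the links
  have oL : ∀ x, L x → f2 x = f x := fun x hx => by
    rw [o2 x (fun hh => WBL x hh hx), o1 x (fun hh => WAL x hh hx)]
  have oA : ∀ x, WS kA uA vA yA x → f2 x = f1 x := fun x hx => o2 x (WAB x hx)
  have par : ∀ x, ((L x ∨ WS kA uA vA yA x) ∨ WS kB uB vB yB x) → ¬ L x →
      (X x ↔ Even (f2 x)) := by
    rintro x ((h1 | h1) | h1) h2
    · exact absurd h1 h2
    · rw [oA x h1]
      exact p1 x h1
    · exact p2 x h1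
  have notv : ∀ x, x ∈ [v1, v2, v3, v4, v5] → ¬ L x →
      ¬ ((L x ∨ WS kA uA vA yA x) ∨ WS kB uB vB yB x) := by
    rintro x hx hL ((h1 | h1) | h1)
    · exact hL h1
    · exact WAv x h1 hx
    · exact WBv x h1 hx
  have notyA : ∀ i, (i = 0 ∨ i = kA) →
      ¬ ((L (yA i) ∨ WS kA uA vA yA (yA i)) ∨ WS kB uB vB yB (yA i)) := by
    rintro i hi ((h1 | h1) | h1)
    · exact H.uyA (by omega) h1
    · exact (yAW i hi).1 h1
    · exact (yAW i hi).2 h1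
  have notyB : ∀ i, (i = 0 ∨ i = kB) →
      ¬ ((L (yB i) ∨ WS kA uA vA yA (yB i)) ∨ WS kB uB vB yB (yB i)) := by
    rintro i hi ((h1 | h1) | h1)
    · exact R.uyA (by omega) h1
    · exact (yBW i hi).1 h1
    · exact (yBW i hi).2 h1
  obtain ⟨svb, tvb, mvb, xsvb, xtvb⟩ := nb_va hcub R
  have mva := wN_v hcub H.h.A H.n.X4 kA1
  rw [ekA] at mva
  have mua := wN_u hcub H.h.A H.n.X4 kA0
  have mub := wN_u hcub H.h.B H.n.X2 kB0
  have hN := H.n
  rw [if_neg iA0, if_neg hkA, if_neg iB0] at hN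
  have od : ∀ {n : ℕ}, ¬ Even n → n % 2 = 1 := fun h => by
    rw [Nat.even_iff] at h
    omega
  have Wva : WS kA uA vA yA (vA (kA - 1)) := Or.inl ⟨kA - 1, kA1, Or.inr rfl⟩
  have Wsva : WS kA uA vA yA (uA (kA - 1)) := Or.inl ⟨kA - 1, kA1, Or.inl rfl⟩
  have Wua : WS kA uA vA yA (uA 0) := Or.inl ⟨0, kA0, Or.inl rfl⟩
  have Wub : WS kB uB vB yB (uB 0) := Or.inl ⟨0, kB0, Or.inl rfl⟩
  have Lvb := R.uva
  have hvbk : ¬ (kB = 0) := hkB
  obtain ⟨g, hg⟩ := yframe (L2 := fun x => (L x ∨ WS kA uA vA yA x) ∨ WS kB uB vB yB x) hN H.st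
    st2 (fun x hx => Or.inl (Or.inl hx)) oL par H.h.c3
    (notv v1 (by simp) H.u1) (notv v2 (by simp) H.u2) (notv v3 (by simp) H.u3)
    (notv v4 (by simp) H.u4) (notv v5 (by simp) H.u5)
    (notyA kA (Or.inr rfl)) (notyA 0 (Or.inl rfl)) (notyB kB (Or.inr rfl)) (notyB 0 (Or.inl rfl))
    Lz1 Lz3 Lz5 Ll1 Ll5 Lw1 Lw5 Lbak (H.uvA kA1) (H.uuA kA0) Lvb (R.uuA kB0)
    (od (H.par_w1 hcub Lw1)) (od (H.par_z1 Lz1)) (od (H.par_z5 Lz5)) (od (H.par_z3 Lz3))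
    (od (H.par_bak Lbak)) (od (H.par_ba0 sA0.Lb)) (od (R.par_ba0 sB0.Lb))
    mva.rot.rot mua.rot.rot mvb mub.rot.rot
    (wX_p H.h.A H.n.X4 kA0) (wX_v H.h.A H.n.X4 kA0) xsvb xtvb
    (wX_p H.h.B H.n.X2 kB0) (wX_v H.h.B H.n.X2 kB0)
    (fun e => by
      have := H.h.A.nyy 0 (Nat.zero_le _) kA le_rfl e
      omega)
    (fun e => by
      have := H.h.B.nyy 0 (Nat.zero_le _) kB le_rfl e
      omega)
    nb Lc Ld (n1 := n1) (n2 := n2) (n3 := n3) (n4 := n4) (n5 := n5)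
    ⟨Or.inl (Or.inr Wsva), XuA _ kA1, WAv _ Wsva, by rw [oA _ Wsva, ek]; exact hu⟩
    ⟨LqA, hq⟩ sA0 sBk sB0 core A B o5
    ⟨Or.inl (Or.inr Wva), WAv _ Wva, by rw [oA _ Wva, eT]; exact hT,
      by rw [oA _ Wva, eT]; exact hT1⟩
    ⟨Or.inl (Or.inr Wua), WAv _ Wua, by rw [oA _ Wua, e0]; exact hx,
      by rw [oA _ Wua, e0]; exact h4⟩
    (by
      rw [if_neg hvbk]
      have hW : WS kB uB vB yB (vB (kB - 1)) := Or.inl ⟨kB - 1, kB1, Or.inr rfl⟩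
      exact ⟨Or.inr hW, WBv _ hW, (q2 hkB).2⟩)
    (by
      refine ⟨Or.inr Wub, WBv _ Wub, ?_, ?_⟩
      · rw [(q2 hkB).1]
        obtain ⟨M, _, _, _, _, _, h6⟩ := wB
        exact h6
      · rw [(q2 hkB).1]
        exact wB1)
  refine ⟨g, jst_congr hg fun x => ?_⟩
  unfold LamU WS
  constructor
  · rintro ((((h1 | h1 | ⟨i, h0, hi, h1⟩) | h1 | ⟨i, h0, hi, h1⟩) | h1) | h1)
    · exact Or.inl h1
    · exact Or.inr (Or.inr (Or.inr (Or.inr (Or.inr (Or.inr (Or.inl h1))))))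
    · exact Or.inr (Or.inr (Or.inr (Or.inr (Or.inr (Or.inr (Or.inr (Or.inl ⟨i, hi.le, h1⟩)))))))
    · exact Or.inr (Or.inr (Or.inr (Or.inr (Or.inr (Or.inr (Or.inr (Or.inr (Or.inl h1))))))))
    · exact Or.inr (Or.inr (Or.inr (Or.inr (Or.inr (Or.inr (Or.inr (Or.inr (Or.inr
        ⟨i, hi.le, h1⟩))))))))
    · rcases h1 with h1 | h1 | h1
      · exact Or.inr (Or.inr (Or.inr (Or.inr (Or.inr (Or.inr (Or.inr (Or.inl
          ⟨0, Nat.zero_le _, h1⟩)))))))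
      · exact Or.inr (Or.inr (Or.inr (Or.inr (Or.inr (Or.inr (Or.inr (Or.inr (Or.inr
          ⟨kB, le_rfl, h1⟩))))))))
      · exact Or.inr (Or.inr (Or.inr (Or.inr (Or.inr (Or.inr (Or.inr (Or.inr (Or.inr
          ⟨0, Nat.zero_le _, h1⟩))))))))
    · rcases h1 with h1 | h1 | h1 | h1 | h1 | h1
      · exact Or.inr (Or.inr (Or.inr (Or.inr (Or.inr (Or.inr (Or.inr (Or.inl
          ⟨kA, le_rfl, h1⟩)))))))
      · exact Or.inr (Or.inl h1)
      · exact Or.inr (Or.inr (Or.inl h1))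
      · exact Or.inr (Or.inr (Or.inr (Or.inl h1)))
      · exact Or.inr (Or.inr (Or.inr (Or.inr (Or.inl h1))))
      · exact Or.inr (Or.inr (Or.inr (Or.inr (Or.inr (Or.inl h1)))))
  · rintro (h1 | h1 | h1 | h1 | h1 | h1 | h1 | ⟨i, hi, h1⟩ | h1 | ⟨i, hi, h1⟩)
    · exact Or.inl (Or.inl (Or.inl (Or.inl h1)))
    · exact Or.inr (Or.inr (Or.inl h1))
    · exact Or.inr (Or.inr (Or.inr (Or.inl h1)))
    · exact Or.inr (Or.inr (Or.inr (Or.inr (Or.inl h1))))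
    · exact Or.inr (Or.inr (Or.inr (Or.inr (Or.inr (Or.inl h1)))))
    · exact Or.inr (Or.inr (Or.inr (Or.inr (Or.inr (Or.inr h1)))))
    · exact Or.inl (Or.inl (Or.inl (Or.inr (Or.inl h1))))
    · by_cases h2 : i = kA
      · exact Or.inr (Or.inl (h2 ▸ h1))
      by_cases h3 : i = 0
      · exact Or.inl (Or.inr (Or.inl (h3 ▸ h1)))
      · exact Or.inl (Or.inl (Or.inl (Or.inr (Or.inr ⟨i, Nat.pos_of_ne_zero h3,
          lt_of_le_of_ne hi h2, h1⟩))))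
    · exact Or.inl (Or.inl (Or.inr (Or.inl h1)))
    · by_cases h2 : i = kB
      · exact Or.inl (Or.inr (Or.inr (Or.inl (h2 ▸ h1))))
      by_cases h3 : i = 0
      · exact Or.inl (Or.inr (Or.inr (Or.inr (h3 ▸ h1))))
      · exact Or.inl (Or.inl (Or.inr (Or.inr ⟨i, Nat.pos_of_ne_zero h3,
          lt_of_le_of_ne hi h2, h1⟩)))

end

end Helper58.L9.Y
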