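import Pool.Agent.helper97.L9.FMode2

/-!
# The Y-mode of the joint stage: the last two steps

The last link `yAk` of the wire `A` gets an even label, `v5` an odd label, everything else is in
parity.  `yframe`: given a state in which the wires are labelled, the three odd links, `yAk` and
`v1 .. v5` can be labelled.
-/

set_option autoImplicit false
set_option linter.unusedSectionVars false
set_option linter.unusedSimpArgs false
set_option linter.unusedVariables false

namespace Helper58.L9.Y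

open Finset Classical Helper33.L9
open Helper42.L9 hiding near gp
open Pool.Agent.helper58.L9 hiding Fr
open Helper17.L9
open Helper97.L9.F
open Pool.Agent.helper45.L9 (JC)
open Pool.Agent.helper40.L9 (ParOK JSt Bad Tol LamU JExt)
open Pool.Agent.helper40.L9.J (kk M3 nbm gp Core SdR SdV)

variable {V : Type*} [Fintype V] {G : SimpleGraph V} {X L L2 : V → Prop} {f f2 g : V → ℕ}

theorem gp_ev {m n : ℕ} (hm : m % 2 = 0) (hn : n % 2 = 0) (h : m ≠ n) : gp m n := by
  unfold gp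
  omega

section frame

variable {v1 v2 v3 v4 v5 z1 z3 z5 l1 l5 w1 w3 w3' w5 yA0 yAk yB0 yBk ua va ub vb ba0 bak bb0
  bbk : V}

/-- numerical conditions of side `A` -/
structure NA (z w b l b0 c d n1 n2 n3 n4 n5 y x : ℕ) : Prop where
  y9 : y ≤ 9
  ye : y % 2 = 0
  yb : gp y b
  yc : y ≠ c
  yd : y ≠ d
  y1 : y ≠ n1
  y2 : y ≠ n2
  x9 : x ≤ 9
  xo : x % 2 = 1
  x4 : gp x n4
  x5 : x ≠ n5
  e1 : n1 % 2 = 0
  e2 : n2 % 2 = 0
  e4 : n4 % 2 = 0
  g1 : gp n1 z
  l1 : n1 ≠ l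

/-- the last two steps, in the frame of `UNb` -/
theorem yframe (hN : UNb G X v1 v2 v3 v4 v5 z1 z3 z5 l1 l5 w1 w3 w3' w5 yA0 yAk yB0 yBk ua va ub
      vb ba0 bak bb0 bbk)
    (h : JSt G X L f) (h2 : JSt G X L2 f2) (sub : ∀ x, L x → L2 x) (eqL : ∀ x, L x → f2 x = f x)
    (par : ∀ x, L2 x → ¬ L x → (X x ↔ Even (f2 x))) (c3 : cc G X v3 = 3)
    (N1 : ¬ L2 v1) (N2 : ¬ L2 v2) (N3 : ¬ L2 v3) (N4 : ¬ L2 v4) (N5 : ¬ L2 v5)
    (NAk : ¬ L2 yAk) (NA0 : ¬ L2 yA0) (NBk : ¬ L2 yBk) (NB0 : ¬ L2 yB0)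
    (Lz1 : L z1) (Lz3 : L z3) (Lz5 : L z5) (Ll1 : L l1) (Ll5 : L l5) (Lw1 : L w1) (Lw5 : L w5)
    (Lbak : L bak) (Lva : ¬ L va) (Lua : ¬ L ua) (Lvb : ¬ L vb) (Lub : ¬ L ub)
    (ow1 : f w1 % 2 = 1) (oz1 : f z1 % 2 = 1) (oz5 : f z5 % 2 = 1) (oz3 : f z3 % 2 = 1)
    (obak : f bak % 2 = 1) (oba0 : f ba0 % 2 = 1) (obb0 : f bb0 % 2 = 1)
    {sva tva sua tua svb tvb sub' tub c d cA0 dA0 cBk dBk cB0 dB0 : V}
    (mva : Nb G va yAk sva tva) (mua : Nb G ua yA0 sua tua)
    (mvb : Nb G vb yBk svb tvb) (mub : Nb G ub yB0 sub' tub)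
    (xsua : X sua) (xtua : X tua) (xsvb : X svb) (xtvb : X tvb) (xsub : X sub') (xtub : X tub)
    (nA : yA0 ≠ yAk) (nB : yB0 ≠ yBk)
    (nb : Nb G bak yAk c d) (Lc : L c) (Ld : L d)
    {n1 n2 n3 n4 n5 nAk nA0 nBk nB0 : ℕ}
    (hsva : L2 sva ∧ X sva ∧ sva ∉ [v1, v2, v3, v4, v5] ∧ f2 sva ≠ nAk)
    (htva : L tva ∧ f tva ≠ nAk)
    (sA0 : Slot G X L f nA0 yA0 ba0 cA0 dA0)
    (sBk : Slot G X L f nBk yBk bbk cBk dBk) (sB0 : Slot G X L f nB0 yB0 bb0 cB0 dB0)
    (core : Core (f z3) n1 n2 n3 n4 n5)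
    (A : NA (f z1) (f w1) (f bak) (f l1) (f ba0) (f c) (f d) n1 n2 n3 n4 n5 nAk nA0)
    (B : FA (f z5) (f w5) (f bbk) (f l5) (f bb0) n5 n4 n3 n2 n1 nBk nB0) (o5 : n5 % 2 = 1)
    (hva : L2 va ∧ va ∉ [v1, v2, v3, v4, v5] ∧ f2 va ≠ nAk ∧ n1 ≠ f2 va)
    (hua : L2 ua ∧ ua ∉ [v1, v2, v3, v4, v5] ∧ gp (f2 ua) nA0 ∧ n4 ≠ f2 ua)
    (hvb : L2 vb ∧ vb ∉ [v1, v2, v3, v4, v5] ∧ gp (f2 vb) nBk)
    (hub : L2 ub ∧ ub ∉ [v1, v2, v3, v4, v5] ∧ gp (f2 ub) nB0 ∧ n2 ≠ f2 ub) :
    ∃ g : V → ℕ, JSt G X (fun x => (L2 x ∨ (x = yA0 ∨ x = yBk ∨ x = yB0)) ∨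
      (x = yAk ∨ x = v1 ∨ x = v2 ∨ x = v3 ∨ x = v4 ∨ x = v5)) g := by
  have hnd := hN.nd
  simp only [List.nodup_cons, List.mem_cons, List.not_mem_nil, or_false, not_or,
    List.nodup_nil, and_true, not_false_eq_true] at hnd
  obtain ⟨⟨n12, n13, n14, n15⟩, ⟨n23, n24, n25⟩, ⟨n34, n35⟩, n45⟩ := hnd
  -- the links
  set P : V → Prop := fun x => x = yA0 ∨ x = yBk ∨ x = yB0 with hPdef
  set g3 : V → ℕ := fun x => if x = yA0 then nA0 else
    if x = yBk then nBk else if x = yB0 then nB0 else f2 x with hg3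
  have dAB := hN.dAB
  have gA0 : g3 yA0 = nA0 := by simp [hg3]
  have gBk : g3 yBk = nBk := by
    simp [hg3, dAB.2.1.symm]
  have gB0 : g3 yB0 = nB0 := by
    simp [hg3, dAB.1.symm, nB]
  have PX : ∀ x, P x → ¬ X x := by
    rintro x (rfl | rfl | rfl)
    exacts [hN.A0, hN.Bk, hN.B0]
  have PL2 : ∀ x, P x → ¬ L2 x := by
    rintro x (rfl | rfl | rfl)
    exacts [NA0, NBk, NB0]
  have base : Base G X L L2 f f2 P g3 := by
    refine ⟨h, sub, eqL, par, ?_, ?_⟩
    · rintro x (hx | hx) hp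
      · exact PX x hp hx
      · exact PL2 x hp (sub x hx)
    · intro x hx
      rw [hPdef] at hx
      simp only [not_or] at hx
      simp [hg3, hx.1, hx.2.1, hx.2.2]
  have nL : ∀ {x}, ¬ L2 x → ¬ L x := fun hx hh => hx (sub _ hh)
  have keyA0 := base.link A.xo hN.a0 (a1 := v3) (a2 := v5) hN.n4.rot.rot mua sA0 (nL NA0) (nL N4)
    Lua hN.X4 hN.Xua (Or.inl hN.X3) (Or.inl hN.X5) (Or.inl xsua) (Or.inl xtua)
  have keyBk := base.link B.yo hN.bk (a1 := v4) (a2 := z5) hN.n5.rot.rot mvb sBk (nL NBk) (nL N5)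
    Lvb hN.X5 hN.Xvb (Or.inl hN.X4) (Or.inr ⟨Lz5, B.yz.symm⟩) (Or.inl xsvb) (Or.inl xtvb)
  have keyB0 := base.link B.xo hN.b0 (a1 := v1) (a2 := v3) hN.n2.rot.rot mub sB0 (nL NB0) (nL N2)
    Lub hN.X2 hN.Xub (Or.inl hN.X1) (Or.inl hN.X3) (Or.inl xsub) (Or.inl xtub)
  have st3 : JSt G X (fun x => L2 x ∨ P x) g3 := by
    refine jst_set h2 P PL2 base.eqP ?_ ?_ ?_ ?_
    · rintro x (rfl | rfl | rfl)
      · rw [gA0]; exact A.x9
      · rw [gBk]; exact B.y9
      · rw [gB0]; exact B.x9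
    · intro x hx
      have h1 := PX x hx
      have h3 : ¬ Even (g3 x) := by
        rw [Nat.even_iff]
        rcases hx with rfl | rfl | rfl
        · rw [gA0, A.xo]; omega
        · rw [gBk, B.yo]; omega
        · rw [gB0, B.xo]; omega
      exact iff_of_false h1 h3
    · rintro x y (rfl | rfl | rfl) hn hy
      · rw [gA0]; exact (keyA0 y hn hy).symm
      · rw [gBk]; exact (keyBk y hn hy).symm
      · rw [gB0]; exact (keyB0 y hn hy).symm
    · rintro x y (rfl | rfl | rfl) hn hs hy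
      · rcases hN.a0.all y hn with r | r | r
        · subst r
          exact absurd (hy.resolve_right fun hp => PX _ hp hN.X4) N4
        · subst r
          rw [gA0, base.eqP y (fun hp => PX _ hp hN.Xua)]
          exact gp_one hua.2.2.1
        · subst r
          exact absurd (iff_of_false hN.Ca0 hN.A0) hs
      · rcases hN.bk.all y hn with r | r | r
        · subst r
          exact absurd (hy.resolve_right fun hp => PX _ hp hN.X5) N5
        · subst r
          rw [gBk, base.eqP y (fun hp => PX _ hp hN.Xvb)]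
          exact gp_one hvb.2.2
        · subst r
          exact absurd (iff_of_false hN.Cbk hN.Bk) hs
      · rcases hN.b0.all y hn with r | r | r
        · subst r
          exact absurd (hy.resolve_right fun hp => PX _ hp hN.X2) N2
        · subst r
          rw [gB0, base.eqP y (fun hp => PX _ hp hN.Xub)]
          exact gp_one hub.2.2.1
        · subst r
          exact absurd (iff_of_false hN.Cb0 hN.B0) hs
  -- the core
  obtain ⟨k1, k2, k3, k4, k5, k3e, k12, k23, k34, k45, k13, k24, k35, kz3, k2z, k4z⟩ := core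
  have yX : ∀ {x}, X x → yAk ≠ x := fun hx e => hN.Ak (e ▸ hx)
  set Q : V → Prop := fun x => x = yAk ∨ x = v1 ∨ x = v2 ∨ x = v3 ∨ x = v4 ∨ x = v5 with hQdef
  set g4 : V → ℕ := fun x => if x = yAk then nAk else if x = v1 then n1 else if x = v2 then n2
    else if x = v3 then n3 else if x = v4 then n4 else if x = v5 then n5 else g3 x with hg4
  have e0 : g4 yAk = nAk := by simp [hg4]
  have e1 : g4 v1 = n1 := by simp [hg4, (yX hN.X1).symm]
  have e2 : g4 v2 = n2 := by simp [hg4, Ne.symm n12, (yX hN.X2).symm]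
  have e3 : g4 v3 = n3 := by simp [hg4, Ne.symm n13, Ne.symm n23, (yX hN.X3).symm]
  have e4 : g4 v4 = n4 := by
    simp [hg4, Ne.symm n14, Ne.symm n24, Ne.symm n34, (yX hN.X4).symm]
  have e5 : g4 v5 = n5 := by
    simp [hg4, Ne.symm n15, Ne.symm n25, Ne.symm n35, Ne.symm n45, (yX hN.X5).symm]
  have eqQ : ∀ x, ¬ Q x → g4 x = g3 x := by
    intro x hx
    rw [hQdef] at hx
    simp only [not_or] at hx
    simp [hg4, hx.1, hx.2.1, hx.2.2.1, hx.2.2.2.1, hx.2.2.2.2.1, hx.2.2.2.2.2]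
  have PnQ : ∀ x, P x → ¬ Q x := by
    intro x hp hq
    have h1 := PX x hp
    rcases hq with r | r | r | r | r | r
    · rcases hp with r' | r' | r'
      · exact nA (r'.symm.trans r)
      · exact dAB.2.2.2 (r.symm.trans r')
      · exact dAB.2.2.1 (r.symm.trans r')
    · exact h1 (r ▸ hN.X1)
    · exact h1 (r ▸ hN.X2)
    · exact h1 (r ▸ hN.X3)
    · exact h1 (r ▸ hN.X4)
    · exact h1 (r ▸ hN.X5)
  have QL2 : ∀ x, Q x → ¬ L2 x := by
    intro x hx h3
    rcases hx with rfl | rfl | rfl | rfl | rfl | rfl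
    exacts [NAk h3, N1 h3, N2 h3, N3 h3, N4 h3, N5 h3]
  have QL : ∀ x, Q x → ¬ (L2 x ∨ P x) := by
    intro x hx
    rintro (h3 | h3)
    · exact QL2 x hx h3
    · exact PnQ x h3 hx
  -- labels around
  have oL : ∀ x, L x → g4 x = f x := by
    intro x hx
    rw [eqQ x (fun hq => QL x hq (Or.inl (sub x hx))), base.eqP x (base.nP x (Or.inr hx)),
      eqL x hx]
  have oP : ∀ x, P x → g4 x = g3 x := fun x hx => eqQ x (PnQ x hx)
  have oA0 : g4 yA0 = nA0 := by rw [oP _ (Or.inl rfl), gA0]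
  have oBk : g4 yBk = nBk := by rw [oP _ (Or.inr (Or.inl rfl)), gBk]
  have oB0 : g4 yB0 = nB0 := by rw [oP _ (Or.inr (Or.inr rfl)), gB0]
  have o2 : ∀ x, X x → x ∉ [v1, v2, v3, v4, v5] → g4 x = f2 x := by
    intro x hx hn
    simp only [List.mem_cons, List.not_mem_nil, or_false, not_or] at hn
    have hq' : ¬ Q x := by
      rintro (e | e | e | e | e | e)
      exacts [hN.Ak (e ▸ hx), hn.1 e, hn.2.1 e, hn.2.2.1 e, hn.2.2.2.1 e, hn.2.2.2.2 e]
    rw [eqQ x hq', base.eqP x (base.nP x (Or.inl hx))]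
  -- the third neighbours of `z3`
  have ow3 : ∀ x, ¬ X x → Helper33.L9.near G v3 x → ((L2 x ∨ P x) ∨ Q x) → x ≠ yAk →
      g4 x % 2 = 1 := by
    intro x hx hn hL hne
    have hnQ : ¬ Q x := by
      rintro (e | e | e | e | e | e)
      exacts [hne e, hx (e ▸ hN.X1), hx (e ▸ hN.X2), hx (e ▸ hN.X3), hx (e ▸ hN.X4),
        hx (e ▸ hN.X5)]
    have h3 : L2 x ∨ P x := hL.resolve_right hnQ
    rw [eqQ x hnQ]
    rcases h3 with h3 | h3
    · rw [base.eqP x (fun hp => PL2 x hp h3)]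
      have h4 : X x ↔ Even (f2 x) := by
        by_cases h5 : L x
        · rw [eqL x h5]
          exact near_par h (nL N3) c3 hn h5
        · exact par x h3 h5
      have h6 : ¬ Even (f2 x) := fun e => hx (h4.mpr e)
      rw [Nat.even_iff] at h6
      omega
    · rcases h3 with r | r | r
      · rw [r, gA0]; exact A.xo
      · rw [r, gBk]; exact B.yo
      · rw [r, gB0]; exact B.xo
  have tB : g4 vb ≠ n5 := by
    obtain ⟨e, e', e''⟩ := hvb
    rw [o2 vb hN.Xvb e']
    have := base.evn hN.Xvb (nL NBk) hN.bk.hb e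
    rw [Nat.even_iff] at this
    omega
  have uA' : g4 ua ≠ n4 := by
    rw [o2 ua hN.Xua hua.2.1]; exact hua.2.2.2.symm
  have uB' : g4 ub ≠ n2 := by
    rw [o2 ub hN.Xub hub.2.1]; exact hub.2.2.2.symm
  have tA : g4 va = f2 va := o2 va hN.Xva hva.2.1
  have eva : f2 va % 2 = 0 := Nat.even_iff.mp (base.evn hN.Xva (nL NAk) hN.ak.hb hva.1)
  have tS : g4 sva = f2 sva := o2 sva hsva.2.1 hsva.2.2.1
  have Lba0 := sA0.Lb
  have Lbbk := sBk.Lb
  have Lbb0 := sB0.Lb
  have inL : ∀ {x}, L x → ((L2 x ∨ P x) ∨ Q x) := fun hx => Or.inl (Or.inl (sub _ hx))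
  have inP : ∀ {x}, P x → ((L2 x ∨ P x) ∨ Q x) := fun hx => Or.inl (Or.inr hx)
  have inQ : ∀ {x}, Q x → ((L2 x ∨ P x) ∨ Q x) := fun hx => Or.inr hx
  have iA0 : P yA0 := Or.inl rfl
  have iBk : P yBk := Or.inr (Or.inl rfl)
  have iB0 : P yB0 := Or.inr (Or.inr rfl)
  have q0 : Q yAk := Or.inl rfl
  have q1 : Q v1 := Or.inr (Or.inl rfl)
  have q2 : Q v2 := Or.inr (Or.inr (Or.inl rfl))
  have q3 : Q v3 := Or.inr (Or.inr (Or.inr (Or.inl rfl)))
  have q4 : Q v4 := Or.inr (Or.inr (Or.inr (Or.inr (Or.inl rfl))))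
  have q5 : Q v5 := Or.inr (Or.inr (Or.inr (Or.inr (Or.inr rfl))))
  have iva : (L2 va ∨ P va) ∨ Q va := Or.inl (Or.inl hva.1)
  have ivb : (L2 vb ∨ P vb) ∨ Q vb := Or.inl (Or.inl hvb.1)
  have isva : (L2 sva ∨ P sva) ∨ Q sva := Or.inl (Or.inl hsva.1)
  have hw : ∀ {x}, x = w3 ∨ x = w3' → Helper33.L9.near G v3 x → ((L2 x ∨ P x) ∨ Q x) →
      n3 ≠ g4 x := by
    intro x hx hn' hL
    have hX : ¬ X x := by
      rcases hx with rfl | rfl
      exacts [hN.W3, hN.W3']
    by_cases hy : x = yAk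
    · -- `z3` would be the own neighbour of `yAk`
      exfalso
      have hz : G.Adj yAk z3 := by
        rcases hx with rfl | rfl
        · exact hy ▸ hN.m3.hb.symm
        · exact hy ▸ hN.m3.hc.symm
      have hb : bak = z3 := by
        rcases hN.ak.all z3 hz with r | r | r
        · exact absurd (r ▸ hN.X1) hN.Z3
        · exact absurd (r ▸ hN.Xva) hN.Z3
        · exact r.symm
      have hv3 : v3 = c ∨ v3 = d := by
        have hadj : G.Adj bak v3 := hb ▸ hN.m3.ha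
        rcases nb.all v3 hadj with r | r | r
        · exact absurd (r ▸ hN.X3) hN.Ak
        · exact Or.inl r
        · exact Or.inr r
      rcases hv3 with r | r
      · exact nL N3 (r ▸ Lc)
      · exact nL N3 (r ▸ Ld)
    · have := ow3 x hX hn' hL hy
      omega
  refine ⟨g4, jst_any st3 Q QL eqQ ?_ ?_ ?_ ?_⟩
  · rintro x (rfl | rfl | rfl | rfl | rfl | rfl)
    · rw [e0]; exact A.y9
    · rw [e1]; exact k1
    · rw [e2]; exact k2
    · rw [e3]; exact k3
    · rw [e4]; exact k4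
    · rw [e5]; exact k5
  · rintro x y (rfl | rfl | rfl | rfl | rfl | rfl) hn hb
    · rcases near9 hN.ak hN.n1.rot.rot mva nb hn with r | r | r | r | r | r | r | r | r <;> rw [r]
      exacts [inQ q1, iva, inL Lbak, inQ q2, inL Lz1, isva, inL htva.1, inL Lc, inL Ld]
    · exfalso
      rw [e1] at hb
      exact hb (iff_of_true hN.X1 (Nat.even_iff.mpr A.e1))
    · exfalso
      rw [e2] at hb
      exact hb (iff_of_true hN.X2 (Nat.even_iff.mpr A.e2))
    · exfalso
      rw [e3] at hb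
      exact hb (iff_of_true hN.X3 (Nat.even_iff.mpr k3e))
    · exfalso
      rw [e4] at hb
      exact hb (iff_of_true hN.X4 (Nat.even_iff.mpr A.e4))
    · rcases hN.near5 hn with r | r | r | r | r | r | r | r | r <;> rw [r]
      exacts [inQ q4, inL Lz5, inP iBk, inP iA0, inQ q3, inL Ll5, inL Lw5, ivb, inL Lbbk]
  · rintro x y (rfl | rfl | rfl | rfl | rfl | rfl) hn hy
    · rw [e0]
      rcases near9 hN.ak hN.n1.rot.rot mva nb hn with r | r | r | r | r | r | r | r | r <;> rw [r]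
      · rw [e1]; exact A.y1
      · rw [tA]; exact hva.2.2.1.symm
      · rw [oL _ Lbak]; exact gp_ne A.yb
      · rw [e2]; exact A.y2
      · rw [oL _ Lz1]; have := A.ye; omega
      · rw [tS]; exact hsva.2.2.2.symm
      · rw [oL _ htva.1]; exact htva.2.symm
      · rw [oL _ Lc]; exact A.yc
      · rw [oL _ Ld]; exact A.yd
    · rw [e1]
      have hn1 := A.e1
      rcases hN.near1 hn with r | r | r | r | r | r | r | r | r <;> rw [r]
      · rw [e2]; exact gp_ne k12
      · rw [oL _ Lz1]; exact gp_ne A.g1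
      · rw [e0]; exact A.y1.symm
      · rw [e3]; exact k13
      · rw [oB0]; have := B.xo; omega
      · rw [oL _ Ll1]; exact A.l1
      · rw [oL _ Lw1]; omega
      · rw [tA]; exact hva.2.2.2
      · rw [oL _ Lbak]; omega
    · rw [e2]
      have hn2 := A.e2
      rcases hN.near2 hn with r | r | r | r | r | r | r | r | r <;> rw [r]
      · rw [e1]; exact (gp_ne k12).symm
      · rw [e3]; exact gp_ne k23
      · rw [oB0]; exact (gp_ne B.x4).symm
      · rw [oL _ Lz1]; omega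
      · rw [e0]; exact A.y2.symm
      · rw [e4]; exact k24
      · rw [oL _ Lz3]; exact k2z
      · exact uB'.symm
      · rw [oL _ Lbb0]; exact B.b4
    · rw [e3]
      rcases hN.near3 hn with r | r | r | r | r | r | r | r | r
      · rw [r, e2]; exact (gp_ne k23).symm
      · rw [r, e4]; exact gp_ne k34
      · rw [r, oL _ Lz3]; exact gp_ne kz3
      · rw [r, oB0]; exact B.x3.symm
      · rw [r, e1]; exact k13.symm
      · rw [r, e5]; exact k35
      · rw [r, oA0]; have := A.xo; omega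
      · exact hw (Or.inl r) hn hy
      · exact hw (Or.inr r) hn hy
    · rw [e4]
      have hn4 := A.e4
      rcases hN.near4 hn with r | r | r | r | r | r | r | r | r <;> rw [r]
      · rw [e3]; exact (gp_ne k34).symm
      · rw [e5]; exact gp_ne k45
      · rw [oA0]; exact (gp_ne A.x4).symm
      · rw [oL _ Lz3]; exact k4z
      · rw [e2]; exact k24.symm
      · rw [oL _ Lz5]; exact B.z2
      · rw [oBk]; exact B.y2.symm
      · exact uA'.symm
      · rw [oL _ Lba0]; omega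
    · rw [e5]
      rcases hN.near5 hn with r | r | r | r | r | r | r | r | r <;> rw [r]
      · rw [e4]; exact (gp_ne k45).symm
      · rw [oL _ Lz5]; exact gp_ne B.g1
      · rw [oBk]; exact (gp_ne B.y1).symm
      · rw [oA0]; exact A.x5.symm
      · rw [e3]; exact k35.symm
      · rw [oL _ Ll5]; exact B.l1
      · rw [oL _ Lw5]; exact B.w1
      · exact tB.symm
      · rw [oL _ Lbbk]; exact B.b1
  · rintro x y (rfl | rfl | rfl | rfl | rfl | rfl) hn hy
    · rw [e0]
      rcases hN.ak.all y hn with r | r | r <;> rw [r]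
      · rw [e1]; exact gp_ev A.ye A.e1 A.y1
      · rw [tA]; exact gp_ev A.ye eva hva.2.2.1.symm
      · rw [oL _ Lbak]; exact A.yb
    · rw [e1]
      rcases hN.n1.all y hn with r | r | r <;> rw [r]
      · rw [e2]; exact k12
      · rw [oL _ Lz1]; exact A.g1
      · rw [e0]; exact gp_ev A.e1 A.ye A.y1.symm
    · rw [e2]
      rcases hN.n2.all y hn with r | r | r <;> rw [r]
      · rw [e1]; exact gp_symm k12
      · rw [e3]; exact k23
      · rw [oB0]; exact gp_symm B.x4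
    · rw [e3]
      rcases hN.n3.all y hn with r | r | r <;> rw [r]
      · rw [e2]; exact gp_symm k23
      · rw [e4]; exact k34
      · rw [oL _ Lz3]; exact kz3
    · rw [e4]
      rcases hN.n4.all y hn with r | r | r <;> rw [r]
      · rw [e3]; exact gp_symm k34
      · rw [e5]; exact k45
      · rw [oA0]; exact gp_symm A.x4
    · rw [e5]
      rcases hN.n5.all y hn with r | r | r <;> rw [r]
      · rw [e4]; exact gp_symm k45
      · rw [oL _ Lz5]; exact B.g1
      · rw [oBk]; exact gp_symm B.y1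

end frame

end Helper58.L9.Y
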