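import Pool.Agent.helper58.L9.YFin
import Pool.Agent.helper38.L9.J2Y
import Pool.Agent.helper38.L9.J2Z
import Pool.Agent.helper40.L9.JFin
import Pool.Agent.helper97.L9.JY

/-!
# The Y-mode of the joint stage
-/

set_option autoImplicit false
set_option linter.unusedSectionVars false
set_option linter.unusedSimpArgs false
set_option linter.unusedVariables false

namespace Helper58.L9.Y

open Finset Classical Helper33.L9
open Helper42.L9 hiding near gp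
open Pool.Agent.helper58.L9 hiding Fr
open Helper17.L9
open Helper97.L9.F
open Pool.Agent.helper45.L9 (JC)
open Pool.Agent.helper40.L9 (ParOK JSt Bad Tol LamU JExt AC YDat YMode)
open Pool.Agent.helper40.L9.J (kk M2 M3 nbm gp Core SdR SdV SdY dVV ev2 al3 al2)

variable {V : Type*} [Fintype V] {G : SimpleGraph V} {X L L2 : V → Prop} {f f1 f2 g : V → ℕ}
  {Z S : Finset V} {k : ℕ} {p u v q y : ℕ → V} {σ τ : V}

theorem dVV_M3 : ∀ t ∈ dVV, t.2.2.1 ∈ M3 ∧ t.2.2.2.2.2.1 ∈ M3 := by decide +kernel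

theorem and_bit {C l j : ℕ} (h : C &&& l = C) (hj : C.testBit j = true) : l.testBit j = true := by
  rw [← h, Nat.testBit_and, Bool.and_eq_true] at hj
  exact hj.2

section

variable (hcub : ∀ v, (univ.filter fun b => G.Adj v b).card = 3)
  (hw : Helper33.L9.Wire G X Z S k p u v q y σ τ) (Xσ : X σ)

include hcub hw Xσ

/-- the odd conflicts of the last inner link -/
theorem inner_conf (hk : k ≠ 0) (hk2 : k ≠ 1) (h : JSt G X L f) (hu : ∀ i, i < k → ¬ L (u i))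
    (hv : ∀ i, i < k → ¬ L (v i)) (hy : ∀ i, i ≤ k → ¬ L (y i))
    (hNM : ∀ i, 0 < i → i < k → ∀ b, ownR G X (y i) b → NMAt G X b) :
    ∃ o o' : V, ∀ r, Helper33.L9.near G (y (k - 1)) r → L r → ¬ Even (f r) → r = o ∨ r = o' := by
  obtain ⟨i, rfl⟩ : ∃ i, k = i + 2 := ⟨k - 2, by omega⟩
  have hi : i + 1 < i + 2 := by omega
  have hi0 : i < i + 2 := by omega
  obtain ⟨b, Yb, hb⟩ := wN_y' hcub hw Xσ hi
  have Yy := wY hw Xσ (i := i + 1) hi.le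
  obtain ⟨o, o', ho⟩ := link_conf hcub h (hNM (i + 1) (Nat.succ_pos _) hi b
    ⟨hb.hc, iff_of_false Yy Yb⟩) (hy (i + 1) hi.le) (hv i hi0)
    (hu (i + 1) hi) hb (wN_v hcub hw Xσ (i := i) hi0) (wN_u hcub hw Xσ hi) Yy Yb
    (wX_v hw Xσ hi0) (wX_u hw Xσ hi) (wX_u hw Xσ hi0)
    (wX_q hw Xσ hi0) (wX_p hw Xσ hi) (wX_v hw Xσ hi)
  refine ⟨o, o', fun r hr hL hodd => ho r ⟨?_, hr⟩⟩
  show cutX X L f (y (i + 1)) ↔ cutX X L f r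
  rw [cutX_nL (hy (i + 1) hi.le), cutX_L hL]
  exact iff_of_false Yy hodd

/-- **The choice at the last inner link.** -/
theorem ypick (hk : k ≠ 0) (hk2 : k ≠ 1) (h : JSt G X L f) (hu : ∀ i, i < k → ¬ L (u i))
    (hv : ∀ i, i < k → ¬ L (v i)) (hy : ∀ i, i ≤ k → ¬ L (y i))
    (hNM : ∀ i, 0 < i → i < k → ∀ b, ownR G X (y i) b → NMAt G X b)
    {u1 u2 l : ℕ} (h1 : u1 ∈ evs) (h2 : u2 ∈ evs) (h12 : u1 = 0 ∨ u1 ≠ u2) (hl : l ∈ M3)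
    (hlp : ∀ j, j < 5 → l.testBit j = true → 2 * j ≠ f (p 0) ∧ 2 * j ≠ f (q 0)) :
    ∃ uk yk, (uk = u1 ∨ uk = u2) ∧ YK G L f (y (k - 1)) uk yk ∧ ∃ C ∈ M2, C &&& l = C ∧
      ∀ c, C.testBit c = true → ∃ a b T, SW f (p 0) (q 0) (p (k - 2)) (q (k - 2)) (2 * c) uk yk
        a b T ∧ (k ≠ 2 ∨ T ≠ 2 * c) := by
  obtain ⟨o, o', ho⟩ := inner_conf hcub hw Xσ hk hk2 h hu hv hy hNM
  obtain ⟨pq, hpq, hn⟩ := nrmE' (f (p (k - 2))) (f (q (k - 2)))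
  obtain ⟨uk, v', yk, huk, ⟨hv', e1, e2, e3⟩, ⟨hyk, e4, e5⟩, e6, e7⟩ :=
    lnk_num (f o) (f o') hpq h1 h2 h12
  obtain ⟨C, hC, hCl, hc⟩ := cnd_num hl hpq hn hv' e1 e2
  have hyk' := mem_ods.mp hyk
  have huk' : uk ∈ evs := by
    rcases huk with r | r
    · rw [r]; exact h1
    · rw [r]; exact h2
  have huk'' := mem_evs.mp huk'
  refine ⟨uk, yk, huk, ⟨hyk'.1, hyk'.2, ?_, ?_⟩, C, hC, hCl, ?_⟩
  · unfold gp
    omega
  · intro r hr hL he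
    by_cases hev : Even (f r)
    · rw [Nat.even_iff] at hev
      omega
    · rcases ho r hr hL hev with r' | r'
      · rw [r'] at he
        exact e4 he.symm
      · rw [r'] at he
        exact e5 he.symm
  · intro c hcb
    obtain ⟨d1, a, b, hab, la, lb, ac, bc, hcn⟩ := hc c hcb
    have hc5 := bit_lt (M2_lt hC) hcb
    obtain ⟨ae, be, _⟩ := evp_evs hab
    have ae' := mem_evs.mp ae
    have be' := mem_evs.mp be
    have fa := hlp (a / 2) (by omega) la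
    have fb := hlp (b / 2) (by omega) lb
    have ea : 2 * (a / 2) = a := by omega
    have eb : 2 * (b / 2) = b := by omega
    rw [ea] at fa
    rw [eb] at fb
    exact ⟨a, b, v', ⟨hab, mem_evs.mpr ⟨by omega, by omega⟩, hlp c hc5 (and_bit hCl hcb),
      ⟨ac, fa⟩, ⟨bc, fb⟩, hcn, e3, e6⟩, Or.inr d1⟩

end

theorem NA.of {z w b l b0 c d q cc' v1 v2 v3 v4 v5 y x u T : ℕ} (hc : c % 2 = 1)
    (h : SdY z b d q l b0 cc' v1 v2 v3 v4 v5 y x u T) :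
    NA z w b l b0 c d v1 v2 v3 v4 v5 y x := by
  obtain ⟨h1, h2, h3, h4, h5, h6, h7, h8, h9, h10, h11, h12, h13, h14, h15, h16, h17, h18, h19,
    h20, h21, h22, h23⟩ := h
  exact ⟨h1, h2, h3, by omega, h4, gp_ne h7, h8, h9, h10, h13, h16, h17, h23, h21, h18, h19⟩

section

variable {v1 v2 v3 v4 v5 z1 z3 z5 l1 l5 : V} {kA kB : ℕ}
  {pA uA vA qA yA pB uB vB qB yB : ℕ → V} {w1 w3 w3' w5 ba0 bak bb0 bbk : V}
  (hcub : ∀ v, (univ.filter fun b => G.Adj v b).card = 3)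
  (H : AC G X Z S L f v1 v2 v3 v4 v5 z1 z3 z5 l1 l5 kA kB pA uA vA qA yA pB uB vB qB yB
    w1 w3 w3' w5 ba0 bak bb0 bbk)

include hcub H

/-- from the numbers to the labelling -/
theorem yend (hA : kA ≠ 0) (hB : kB ≠ 0) {c d c' d' c0 d0 c0' d0' : V} {O a l b a' l' b' : ℕ}
    (D : YDat G X L f v1 v5 z1 z5 kA kB pA qA yA pB qB yB w1 w5 ba0 bak bb0 bbk c d c' d' c0 d0
      c0' d0' O a l b a' l' b') (Ld : L d) (Lq : L (qA (kA - 1)))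
    {n1 n2 n3 n4 n5 ya xa cu T yb xb cu' uk yk : ℕ} (core : Core (f z3) n1 n2 n3 n4 n5)
    (sy : SdY (f z1) (f bak) (f d) (f (qA (kA - 1))) (f l1) (f ba0) (f c0) n1 n2 n3 n4 n5 ya xa
      cu T)
    (sv : SdV (f z5) (f w5) (f bbk) (f c') (f l5) (f bb0) (f c0') l' n5 n4 n3 n2 n1 yb xb cu')
    (hu : UK L f (pA (kA - 1)) (qA (kA - 1)) uk) (huy : uk ≠ ya)
    (hT : UK L f (pA (kA - 1)) (qA (kA - 1)) T) (hTu : T ≠ uk)
    (hyk : kA = 1 ∨ YK G L f (yA (kA - 1)) uk yk) (h1 : kA ≠ 1 ∨ uk = cu)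
    (hW : kA = 1 ∨ ∃ a b T', SW f (pA 0) (qA 0) (pA (kA - 2)) (qA (kA - 2)) cu uk yk a b T' ∧
      (kA ≠ 2 ∨ T' ≠ cu)) :
    ∃ f' : V → ℕ, JSt G X (fun x => L x ∨ LamU v1 v2 v3 v4 v5 kA kB uA vA yA uB vB yB x) f' := by
  have J := H.j
  have R := H.j.rev
  have od : ∀ {n : ℕ}, ¬ Even n → n % 2 = 1 := fun h => by
    rw [Nat.even_iff] at h
    omega
  obtain ⟨g, st1, o1, e0, ek, eT, p1⟩ := ywire hcub J.h.A J.n.X4 hA J.st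
    (fun i hi => J.uuA hi) (fun i hi => J.uvA hi) (fun i hi => J.uyA hi) J.u4 J.u1
    (fun i _ hi => H.nA i hi.le) hu hT hTu hyk h1 hW
  have hNA : NA (f z1) (f w1) (f bak) (f l1) (f ba0) (f c) (f d) n1 n2 n3 n4 n5 ya xa :=
    NA.of (od D.EA.oc) sy
  have hFA := FA.ofV sv
  obtain ⟨s1, s2, s3, s4, s5, s6, s7, s8, s9, s10, s11, s12, s13, s14, s15, s16, s17, s18, s19,
    s20, s21, s22, s23⟩ := sy
  obtain ⟨t1, t2, t3, t4, t5, t6, t7, t8, t9, t10, t11, t12, t13, t14, t15, t16, t17, t18, t19,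
    t20, t21, t22, t23, t24, t25⟩ := sv
  have hl' : l' ∈ M3 := (dVV_M3 _ D.mem).2
  have h5 := M3_bit hl' (kk_sub t17)
  have hlp' : ∀ j, j < 5 → l'.testBit j = true → 2 * j ≠ f (pB 0) ∧ 2 * j ≠ f (qB 0) := by
    intro j _ hj
    rw [← D.ev', Pool.Agent.helper40.L9.J.tb_ev2] at hj
    exact hj.2
  have sA0 : Slot G X L f xa (yA 0) ba0 c0 d0 :=
    ⟨D.nb0, D.Xd0, D.E0.la, Or.inl D.E0.lb, s11.symm, fun _ => s12.symm, D.ed0⟩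
  have sBk : Slot G X L f yb (yB kB) bbk c' d' :=
    ⟨D.nb', D.Xd', D.EB.lb, Or.inl D.EB.lc, t4.symm, fun _ => t5.symm, D.ed'⟩
  have sB0 : Slot G X L f xb (yB 0) bb0 c0' d0' :=
    ⟨D.nb0', D.Xd0', D.E0'.la, Or.inl D.E0'.lb, t10.symm, fun _ => t11.symm, D.ed0'⟩
  exact yfin hcub J hA hB (fun i _ hi => H.nB i hi.le) H.lz1 H.lz3 H.lz5 H.ll1 H.ll5 D.E1.lb
    D.E5.lb D.E1.lc Lq D.nb D.EA.lc Ld sA0 sBk sB0 core hNA hFA t18 s22 s14.symm t25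
    ⟨l', hl', hlp', t16, by omega, t17, t13.symm⟩ s5.symm huy s6.symm s20 st1 o1 e0 ek eT p1

/-- **The `Y`-mode.** -/
theorem ymode (hA : kA ≠ 0) (hB : kB ≠ 0) {c d c' d' c0 d0 c0' d0' : V}
    {O a l b a' l' b' : ℕ}
    (D : YDat G X L f v1 v5 z1 z5 kA kB pA qA yA pB qB yB w1 w5 ba0 bak bb0 bbk c d c' d' c0 d0
      c0' d0' O a l b a' l' b') (Ld : L d) (Lq : L (qA (kA - 1))) :
    ∃ f' : V → ℕ, JSt G X (fun x => L x ∨ LamU v1 v2 v3 v4 v5 kA kB uA vA yA uB vB yB x) f' := by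
  have J := H.j
  have R := H.j.rev
  have le := H.j.st.le
  have od : ∀ {n : ℕ}, ¬ Even n → n % 2 = 1 := fun h => by
    rw [Nat.even_iff] at h
    omega
  have hz1 : f z1 ≤ 9 ∧ f z1 % 2 = 1 := ⟨le _ H.lz1, od D.E1.oa⟩
  have hw1 : f w1 ≤ 9 ∧ f w1 % 2 = 1 := ⟨le _ D.E1.lb, od D.E1.ob⟩
  have hb : f bak ≤ 9 ∧ f bak % 2 = 1 := ⟨le _ D.E1.lc, od D.E1.oc⟩
  have hc : f c ≤ 9 ∧ f c % 2 = 1 := ⟨le _ D.EA.lc, od D.EA.oc⟩
  have hd : f d ≤ 9 ∧ f d % 2 = 0 := ⟨le _ Ld, Nat.even_iff.mp (D.ed Ld)⟩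
  have hl1 : f l1 ≤ 9 ∧ f l1 % 2 = 0 := ⟨le _ H.ll1, Nat.even_iff.mp (J.par_l1 hcub H.ll1)⟩
  have hb0 : f ba0 ≤ 9 ∧ f ba0 % 2 = 1 := ⟨le _ D.E0.la, od D.E0.oa⟩
  have hc0 : f c0 ≤ 9 ∧ f c0 % 2 = 1 := ⟨le _ D.E0.lb, od D.E0.ob⟩
  have hz5 : f z5 ≤ 9 ∧ f z5 % 2 = 1 := ⟨le _ H.lz5, od D.E5.oa⟩
  have hw5 : f w5 ≤ 9 ∧ f w5 % 2 = 1 := ⟨le _ D.E5.lb, od D.E5.ob⟩
  have hbb : f bbk ≤ 9 ∧ f bbk % 2 = 1 := ⟨le _ D.E5.lc, od D.E5.oc⟩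
  have hc' : f c' ≤ 9 ∧ f c' % 2 = 1 := ⟨le _ D.EB.lc, od D.EB.oc⟩
  have hl5 : f l5 ≤ 9 ∧ f l5 % 2 = 0 := ⟨le _ H.ll5, Nat.even_iff.mp (J.par_l5 hcub H.ll5)⟩
  have hb0' : f bb0 ≤ 9 ∧ f bb0 % 2 = 1 := ⟨le _ D.E0'.la, od D.E0'.oa⟩
  have hc0' : f c0' ≤ 9 ∧ f c0' % 2 = 1 := ⟨le _ D.E0'.lb, od D.E0'.ob⟩
  have hz3 : f z3 ≤ 9 ∧ f z3 % 2 = 1 := ⟨le _ H.lz3, od (J.par_z3 H.lz3)⟩
  have g1 : gp (f z1) (f l1) := J.st.adj z1 l1 H.lz1 H.ll1 J.n.m1.hb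
  have g5 : gp (f z5) (f l5) := J.st.adj z5 l5 H.lz5 H.ll5 J.n.m5.hb
  have g7 : gp (f bak) (f d) := J.st.adj bak d D.E1.lc Ld D.nb.hc
  have hk1 : kA - 1 < kA := by omega
  have hqe := Nat.even_iff.mp ((J.par_pA hk1).2 Lq)
  have hl : l ∈ M3 := (dVV_M3 _ D.mem).1
  have hlp : ∀ j, j < 5 → l.testBit j = true → 2 * j ≠ f (pA 0) ∧ 2 * j ≠ f (qA 0) := by
    intro j _ hj
    rw [← D.ev, Pool.Agent.helper40.L9.J.tb_ev2] at hj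
    exact hj.2
  by_cases hk : kA = 1
  · have e0 : kA - 1 = 0 := by omega
    obtain ⟨n1, n2, n3, n4, n5, ya, xa, cu, T, yb, xb, cu', core, sy, u1, u2, u3, u4, u5, T1, T2,
      T3, T4, T5, sv⟩ := Helper38.J.Y1 D.mem (f z1) (f w1) (f bak) (f c) (f d) (f l1) (f (pA 0))
      (f (qA 0)) (f ba0) (f c0) (f z5) (f w5) (f bbk) (f c') (f l5) (f bb0) (f c0') (f z3)
      hz1 hw1 hb hc hd hl1 ⟨D.fp.2.1, D.fp.1⟩ ⟨D.fp.2.2.2, D.fp.2.2.1⟩ hb0 hc0 hz5 hw5 hbb hc'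
      hl5 hb0' hc0' hz3 D.E1.al D.EA.al D.E0.al D.ev D.E5.al D.EB.al D.E0'.al g1 g5 g7
    have hu : UK L f (pA (kA - 1)) (qA (kA - 1)) cu := by
      rw [e0]
      exact ⟨u2, by omega, fun _ => u3, fun _ => u4⟩
    have hT : UK L f (pA (kA - 1)) (qA (kA - 1)) T := by
      rw [e0]
      exact ⟨T2, by omega, fun _ => T3, fun _ => T4⟩
    exact yend hcub H hA hB D Ld Lq core (by rw [e0]; exact sy) sv hu u5 hT T5 (Or.inl hk)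
      (Or.inr rfl) (Or.inl hk) (yk := 1)
  · obtain ⟨pp, hp9, hpe, hpp⟩ : ∃ pp : ℕ, pp ≤ 9 ∧ pp % 2 = 0 ∧
        (L (pA (kA - 1)) → pp = f (pA (kA - 1))) := by
      by_cases hLp : L (pA (kA - 1))
      · exact ⟨f (pA (kA - 1)), le _ hLp, Nat.even_iff.mp ((J.par_pA hk1).1 hLp), fun _ => rfl⟩
      · exact ⟨0, by omega, by omega, fun hh => absurd hh hLp⟩
    obtain ⟨ya, u1, u2, h12, hY⟩ := Helper38.J.Y2 D.mem (f z1) (f w1) (f bak) (f c) (f d) (f l1)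
      pp (f (qA (kA - 1))) (f ba0) (f c0) (f z5) (f w5) (f bbk) (f c') (f l5) (f bb0) (f c0')
      (f z3) hz1 hw1 hb hc hd hl1 ⟨hp9, hpe⟩ ⟨le _ Lq, hqe⟩ hb0 hc0 hz5 hw5 hbb hc'
      hl5 hb0' hc0' hz3 D.E1.al D.EA.al D.E0.al D.E5.al D.EB.al D.E0'.al g1 g5 g7
    obtain ⟨a1, a2, _⟩ := hY u1 (Or.inl rfl)
    obtain ⟨b1, b2, _⟩ := hY u2 (Or.inr rfl)
    obtain ⟨uk, yk, huk, hYK, C, hC, hCl, hCc⟩ := ypick hcub J.h.A J.n.X4 hA hk J.st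
      (fun i hi => J.uuA hi) (fun i hi => J.uvA hi) (fun i hi => J.uyA hi)
      (fun i _ hi => H.nA i hi.le) (mem_evs.mpr ⟨a2, by omega⟩) (mem_evs.mpr ⟨b2, by omega⟩) h12
      hl hlp
    obtain ⟨k1, k2, k3, k4, k5, T, T1, T2, T3, T4, T5, hC2⟩ := hY uk huk
    obtain ⟨n1, n2, n3, n4, n5, xa, cu, yb, xb, cu', c1, c2, core, sy, sv⟩ := hC2 C hC hCl
    have ec : 2 * (cu / 2) = cu := by omega
    obtain ⟨a, b, T', hSW, hT'⟩ := hCc (cu / 2) c2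
    rw [ec] at hSW hT'
    have hu : UK L f (pA (kA - 1)) (qA (kA - 1)) uk :=
      ⟨k2, by omega, fun hh => by rw [← hpp hh]; exact k3, fun _ => k4⟩
    have hT : UK L f (pA (kA - 1)) (qA (kA - 1)) T :=
      ⟨T2, by omega, fun hh => by rw [← hpp hh]; exact T3, fun _ => T4⟩
    exact yend hcub H hA hB D Ld Lq core sy sv hu k5 hT T5 (Or.inr hYK) (Or.inl hk)
      (Or.inr ⟨a, b, T', hSW, hT'⟩)

end

theorem ymode_G (hcub : ∀ v, (univ.filter fun b => G.Adj v b).card = 3) : YMode G X := by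
  intro Z S L f v1 v2 v3 v4 v5 z1 z3 z5 l1 l5 kA kB pA uA vA qA yA pB uB vB qB yB w1 w3 w3' w5
    ba0 bak bb0 bbk H hA hB c d c' d' c0 d0 c0' d0' O a l b a' l' b' D Ld Lq
  exact ymode hcub H hA hB D Ld Lq

universe w

/-- **The `Y`-mode for all cubic graphs.** -/
theorem yAll : Helper97.L9.YAll.{w} := fun _ _ _ hcub _ => ymode_G hcub

end Helper58.L9.Y
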