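import Pool.Agent.helper17.L9.JSet

/-!
# The Y-mode of the joint stage: the last inner link, finite checks
-/

set_option autoImplicit false

namespace Helper58.L9.Y

open Helper17.L9
open Pool.Agent.helper40.L9.J (kk M2 M3 nbm gp)

/-- one of the two candidates of `u (k-1)` can be continued through the last inner link -/
def chkL : Bool :=
  odp.all fun cd => evp.all fun pq => evs.all fun u1 => evs.all fun u2 =>
    (!(Nat.beq u1 0) && Nat.beq u1 u2) ||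
    [u1, u2].any fun uk => evs.any fun v => dif v pq.1 && dif v pq.2 && dif v uk &&
      ods.any fun y => dif y cd.1 && dif y cd.2 && far v y && far uk y

theorem chkL_true : chkL = true := by decide +kernel

theorem lnk_num (c d : ℕ) {pq : ℕ × ℕ} (hpq : pq ∈ evp) {u1 u2 : ℕ} (h1 : u1 ∈ evs)
    (h2 : u2 ∈ evs) (h : u1 = 0 ∨ u1 ≠ u2) :
    ∃ uk v y, (uk = u1 ∨ uk = u2) ∧ (v ∈ evs ∧ v ≠ pq.1 ∧ v ≠ pq.2 ∧ v ≠ uk) ∧
      (y ∈ ods ∧ y ≠ c ∧ y ≠ d) ∧ (v + 1 ≠ y ∧ y + 1 ≠ v) ∧ (uk + 1 ≠ y ∧ y + 1 ≠ uk) := by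
  obtain ⟨cd, hcd, hc⟩ := nrmO c d
  have hh := chkL_true
  unfold chkL at hh
  rw [List.all_eq_true] at hh
  have hh := hh _ hcd
  rw [List.all_eq_true] at hh
  have hh := hh _ hpq
  rw [List.all_eq_true] at hh
  have hh := hh _ h1
  rw [List.all_eq_true] at hh
  have hh := hh _ h2
  rw [Bool.or_eq_true, Bool.and_eq_true, Bool.not_eq_true', ← Bool.not_eq_true, Nat.beq_eq,
    Nat.beq_eq] at hh
  rcases hh with hh | hh
  · tauto
  · rw [List.any_eq_true] at hh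
    obtain ⟨uk, huk, hh⟩ := hh
    simp only [List.mem_cons, List.not_mem_nil, or_false] at huk
    rw [List.any_eq_true] at hh
    obtain ⟨v, hv, hh⟩ := hh
    simp only [Bool.and_eq_true, List.any_eq_true, dif_iff, far_iff] at hh
    obtain ⟨⟨⟨h3, h4⟩, h5⟩, y, hy, ⟨⟨h6, h7⟩, h8⟩, h9⟩ := hh
    exact ⟨uk, v, y, huk, ⟨hv, h3, h4, h5⟩, ⟨hy, hc y hy h6 h7⟩, h8, h9⟩

/-- two of the three labels of the first unit are reachable -/
def chkC : Bool :=
  M3.all fun L => evp.all fun pq => evs.all fun v =>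
    !(dif v pq.1 && dif v pq.2) ||
    M2.any fun C => Nat.beq (C &&& L) C && (List.range 5).all fun c =>
      !(C.testBit c) || (dif v (2 * c) && evp.any fun ab => L.testBit (ab.1 / 2) &&
        L.testBit (ab.2 / 2) && dif ab.1 (2 * c) && dif ab.2 (2 * c) &&
        (Nat.beq v ab.1 || Nat.beq v ab.2 || Nat.beq ab.1 pq.1 || Nat.beq ab.1 pq.2 ||
          Nat.beq ab.2 pq.1 || Nat.beq ab.2 pq.2))

theorem chkC_true : chkC = true := by decide +kernel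

theorem M2_lt {C : ℕ} (h : C ∈ M2) : C < 32 := by
  have : ∀ m ∈ M2, m < 32 := by decide
  exact this C h

theorem bit_lt {C j : ℕ} (h1 : C < 32) (h : C.testBit j = true) : j < 5 := by
  by_contra hj
  have h2 : C < 2 ^ j := lt_of_lt_of_le h1 (by
    calc 32 = 2 ^ 5 := rfl
      _ ≤ 2 ^ j := Nat.pow_le_pow_right (by norm_num) (by omega))
  rw [Nat.testBit_lt_two_pow h2] at h
  exact Bool.false_ne_true h

theorem cnd_num {L : ℕ} (hL : L ∈ M3) {pq : ℕ × ℕ} (hpq : pq ∈ evp) {v p q : ℕ}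
    (hn : ∀ w ∈ evs, w ≠ pq.1 → w ≠ pq.2 → w ≠ p ∧ w ≠ q) (hv : v ∈ evs) (h1 : v ≠ pq.1)
    (h2 : v ≠ pq.2) :
    ∃ C ∈ M2, C &&& L = C ∧ ∀ c, C.testBit c = true → v ≠ 2 * c ∧ ∃ a b, (a, b) ∈ evp ∧
      L.testBit (a / 2) = true ∧ L.testBit (b / 2) = true ∧ a ≠ 2 * c ∧ b ≠ 2 * c ∧
      CndS a b p q v := by
  have hh := chkC_true
  unfold chkC at hh
  rw [List.all_eq_true] at hh
  have hh := hh _ hL
  rw [List.all_eq_true] at hh
  have hh := hh _ hpq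
  rw [List.all_eq_true] at hh
  have hh := hh _ hv
  rw [Bool.or_eq_true, Bool.not_eq_true', ← Bool.not_eq_true, Bool.and_eq_true, dif_iff,
    dif_iff] at hh
  have hh := hh.resolve_left (fun hc => hc ⟨h1, h2⟩)
  rw [List.any_eq_true] at hh
  obtain ⟨C, hC, hh⟩ := hh
  rw [Bool.and_eq_true, Nat.beq_eq, List.all_eq_true] at hh
  refine ⟨C, hC, hh.1, fun c hc => ?_⟩
  have h3 := hh.2 c (List.mem_range.mpr (bit_lt (M2_lt hC) hc))
  rw [hc, Bool.not_true, Bool.false_or, Bool.and_eq_true, dif_iff, List.any_eq_true] at h3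
  obtain ⟨h4, ⟨a, b⟩, hab, h5⟩ := h3
  simp only [Bool.and_eq_true, Bool.or_eq_true, dif_iff, Nat.beq_eq] at h5
  obtain ⟨⟨⟨⟨h6, h7⟩, h8⟩, h9⟩, h10⟩ := h5
  exact ⟨h4, a, b, hab, h6, h7, h8, h9, pq, hpq, hn, hv, h1, h2, by tauto⟩

end Helper58.L9.Y
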