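import Pool.Agent.helper58.L9.YFrame
import Pool.Agent.helper58.L9.YNum

/-!
# The Y-mode of the joint stage: the wire with an even last link
-/

set_option autoImplicit false
set_option linter.unusedSectionVars false
set_option linter.unusedSimpArgs false
set_option linter.unusedVariables false

namespace Helper58.L9.Y

open Finset Classical Helper33.L9
open Helper42.L9 hiding near gp
open Pool.Agent.helper58.L9 hiding Fr
open Helper17.L9
open Helper97.L9.F
open Pool.Agent.helper45.L9 (JC)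
open Pool.Agent.helper40.L9 (ParOK JSt Bad Tol LamU JExt)
open Pool.Agent.helper40.L9.J (kk M3 nbm gp Core SdR SdV)

variable {V : Type*} [Fintype V] {G : SimpleGraph V} {X L L2 : V → Prop} {f f2 g : V → ℕ}
  {Z S : Finset V} {k : ℕ} {p u v q y : ℕ → V} {σ τ : V}

/-- the first `k'` units of a wire -/
theorem sub_wire (hw : Helper33.L9.Wire G X Z S k p u v q y σ τ) {k' : ℕ} (hk : k' < k) :
    Helper33.L9.Wire G X Z S k' p u v q y σ (u k') where
  σS := hw.σS
  τS := (hw.mem k' hk).2.1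
  side := hw.sides k' hk
  unit := fun i hi => hw.unit i (hi.trans hk)
  sides := fun i hi => hw.sides i (hi.trans hk)
  mem := fun i hi => hw.mem i (hi.trans hk)
  cu := fun i hi => hw.cu i (hi.trans hk)
  cv := fun i hi => hw.cv i (hi.trans hk)
  link := fun i hi => by
    have h1 := hw.link i (by omega)
    have h2 : ¬ (i = k) := by omega
    rw [if_neg h2] at h1
    rw [h1]
    by_cases h3 : i = k'
    · rw [if_pos h3, h3]
    · rw [if_neg h3]
  lne := fun i hi => by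
    have h1 := hw.lne i (by omega)
    have h2 : ¬ (i = k) := by omega
    rw [if_neg h2] at h1
    by_cases h3 : i = k'
    · rw [if_pos h3]
      rw [h3] at h1 ⊢
      exact h1
    · rw [if_neg h3]
      exact h1
  yZ := fun i hi => hw.yZ i (by omega)
  y2 := fun i hi => hw.y2 i (by omega)
  nuu := fun i hi j hj => hw.nuu i (hi.trans hk) j (hj.trans hk)
  nvv := fun i hi j hj => hw.nvv i (hi.trans hk) j (hj.trans hk)
  nuv := fun i hi j hj => hw.nuv i (hi.trans hk) j (hj.trans hk)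
  nσ := fun i hi => hw.nσ i (hi.trans hk)
  nτ := fun i hi => ⟨fun he => by
    have := hw.nuu i (hi.trans hk) k' hk he
    omega, fun he => hw.nuv k' hk i (hi.trans hk) he.symm⟩
  nyy := fun i hi j hj => hw.nyy i (by omega) j (by omega)
  p0 := fun h0 => hw.p0 (by omega)
  pk := fun h0 => by
    have h1 := (hw.unit k' hk).cu
    have h2 := hw.unit (k' - 1) (by omega)
    have h3 := h2.cp
    have h4 := h2.cq
    exact ⟨fun he => by rw [he] at h1; omega, fun he => by rw [he] at h1; omega⟩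

section

variable (hcub : ∀ v, (univ.filter fun b => G.Adj v b).card = 3)
  (hw : Helper33.L9.Wire G X Z S k p u v q y σ τ) (Xσ : X σ)

include hcub hw Xσ

/-- an even label of `u i` -/
theorem u_ok (h : JSt G X L f) (hu : ∀ i, i < k → ¬ L (u i)) (hv : ∀ i, i < k → ¬ L (v i))
    (hσ : ¬ L σ) {i : ℕ} (hi : i < k) {n : ℕ} (hn : n % 2 = 0) (hp : L (p i) → n ≠ f (p i))
    (hq : L (q i) → n ≠ f (q i)) {r : V} (hr : Helper33.L9.near G (u i) r) (hL : L r) :
    n ≠ f r := by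
  intro he
  have hev : Even (f r) := by rw [← he, Nat.even_iff]; exact hn
  have hc : qadj G (cutX X L f) (u i) r := by
    refine ⟨?_, hr⟩
    rw [cutX_nL (hu i hi), cutX_L hL]
    exact iff_of_true (wX_u hw Xσ hi) hev
  obtain ⟨h1, h2, h3⟩ := w_conf_u hcub hw Xσ h hi (hu i hi) hc
  rcases h3 with h3 | h3 | h3 | h3
  · rw [h3] at hL he
    exact hp hL he
  · rw [h3] at hL he
    exact hq hL he
  · rw [h3] at hL
    exact hv i hi hL
  · obtain ⟨b, Yb, hb⟩ := wN_y hcub hw Xσ (i := i) (by omega)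
    have hik : ¬ (i = k) := by omega
    rw [if_neg hik] at hb
    rcases hb.all r h3 with h4 | h4 | h4
    · by_cases h0 : i = 0
      · rw [if_pos h0] at h4
        exact hσ (h4 ▸ hL)
      · rw [if_neg h0] at h4
        exact hv (i - 1) (by omega) (h4 ▸ hL)
    · exact h2 h4.symm
    · exact Yb (h4 ▸ h1)

/-- an even label of `v i` -/
theorem v_ok (h : JSt G X L f) (hu : ∀ i, i < k → ¬ L (u i)) (hv : ∀ i, i < k → ¬ L (v i))
    (hτ : ¬ L τ) {i : ℕ} (hi : i < k) {n : ℕ} (hn : n % 2 = 0) (hp : L (p i) → n ≠ f (p i))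
    (hq : L (q i) → n ≠ f (q i)) {r : V} (hr : Helper33.L9.near G (v i) r) (hL : L r) :
    n ≠ f r := by
  intro he
  have hev : Even (f r) := by rw [← he, Nat.even_iff]; exact hn
  have hc : qadj G (cutX X L f) (v i) r := by
    refine ⟨?_, hr⟩
    rw [cutX_nL (hv i hi), cutX_L hL]
    exact iff_of_true (wX_v hw Xσ hi) hev
  obtain ⟨h1, h2, h3⟩ := w_conf_v hcub hw Xσ h hi (hv i hi) hc
  rcases h3 with h3 | h3 | h3 | h3
  · rw [h3] at hL he
    exact hp hL he
  · rw [h3] at hL he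
    exact hq hL he
  · rw [h3] at hL
    exact hu i hi hL
  · obtain ⟨b, Yb, hb⟩ := wN_y hcub hw Xσ (i := i + 1) (by omega)
    have hik : ¬ (i + 1 = 0) := by omega
    rw [if_neg hik, Nat.add_sub_cancel] at hb
    rcases hb.all r h3 with h4 | h4 | h4
    · exact h2 h4.symm
    · by_cases h0 : i + 1 = k
      · rw [if_pos h0] at h4
        exact hτ (h4 ▸ hL)
      · rw [if_neg h0] at h4
        exact hu (i + 1) (by omega) (h4 ▸ hL)
    · exact Yb (h4 ▸ h1)

/-- `n` is a label of a vertex of the last unit -/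
structure UK (L : V → Prop) (f : V → ℕ) (p q : V) (n : ℕ) : Prop where
  e : n % 2 = 0
  le : n ≤ 8
  hp : L p → n ≠ f p
  hq : L q → n ≠ f q

/-- `n` is a label of the last inner link -/
structure YK (G : SimpleGraph V) (L : V → Prop) (f : V → ℕ) (y : V) (uk n : ℕ) : Prop where
  o : n % 2 = 1
  le : n ≤ 9
  g : gp uk n
  c : ∀ r, Helper33.L9.near G y r → L r → f r ≠ n

/-- the data of the sub-wire -/
structure SW (f : V → ℕ) (p0 q0 pk qk : V) (cA uk yk a b T : ℕ) : Prop where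
  hab : (a, b) ∈ evp
  hc : cA ∈ evs
  hcp : cA ≠ f p0 ∧ cA ≠ f q0
  ha : a ≠ cA ∧ a ≠ f p0 ∧ a ≠ f q0
  hb : b ≠ cA ∧ b ≠ f p0 ∧ b ≠ f q0
  hC : CndS a b (f pk) (f qk) T
  hTu : T ≠ uk
  hTy : T + 1 ≠ yk ∧ yk + 1 ≠ T

/-- the last unit and, if there are at least two units, the last inner link -/
def LU (k : ℕ) (u v y : ℕ → V) (x : V) : Prop :=
  x = u (k - 1) ∨ x = v (k - 1) ∨ (k ≠ 1 ∧ x = y (k - 1))

/-- the last unit is labelled -/
theorem ywire_one (hk : k ≠ 0) (h : JSt G X L f) (hu : ∀ i, i < k → ¬ L (u i))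
    (hv : ∀ i, i < k → ¬ L (v i)) (hy : ∀ i, i ≤ k → ¬ L (y i)) (hσ : ¬ L σ) (hτ : ¬ L τ)
    {uk T yk : ℕ}
    (hu' : UK L f (p (k - 1)) (q (k - 1)) uk)
    (hT : UK L f (p (k - 1)) (q (k - 1)) T) (hTu : T ≠ uk)
    (hyk : k = 1 ∨ YK G L f (y (k - 1)) uk yk) :
    ∃ g1 : V → ℕ, JSt G X (fun x => L x ∨ LU k u v y x) g1 ∧ (∀ x, ¬ LU k u v y x → g1 x = f x) ∧
      g1 (u (k - 1)) = uk ∧ g1 (v (k - 1)) = T ∧ (k = 1 ∨ g1 (y (k - 1)) = yk) := by
  have hk1 : k - 1 < k := by omega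
  have ek : k - 1 + 1 = k := by omega
  have Xu := wX_u hw Xσ hk1
  have Xv := wX_v hw Xσ hk1
  have Yk : ¬ X (y (k - 1)) := wY hw Xσ (by omega)
  have huv : u (k - 1) ≠ v (k - 1) := hw.nuv _ hk1 _ hk1
  have huy : u (k - 1) ≠ y (k - 1) := fun e => Yk (e ▸ Xu)
  have hvy : v (k - 1) ≠ y (k - 1) := fun e => Yk (e ▸ Xv)
  obtain ⟨g1, gu, gv, gy, gf⟩ : ∃ g1 : V → ℕ, g1 (u (k - 1)) = uk ∧ g1 (v (k - 1)) = T ∧
      (k = 1 ∨ g1 (y (k - 1)) = yk) ∧ ∀ x, ¬ LU k u v y x → g1 x = f x := by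
    refine ⟨fun x => if x = u (k - 1) then uk else if x = v (k - 1) then T else
      if x = y (k - 1) ∧ k ≠ 1 then yk else f x, ?_, ?_, ?_, ?_⟩
    · simp
    · simp [huv.symm]
    · by_cases h : k = 1
      · exact Or.inl h
      · right
        simp [huy.symm, hvy.symm, h]
    · intro x hx
      unfold LU at hx
      simp only [not_or, not_and] at hx
      have h3 : ¬ (x = y (k - 1) ∧ k ≠ 1) := fun hh => hx.2.2 hh.2 hh.1
      simp only
      rw [if_neg hx.1, if_neg hx.2.1, if_neg h3]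
  have PL : ∀ x, LU k u v y x → ¬ L x := by
    rintro x (rfl | rfl | ⟨_, rfl⟩)
    exacts [hu _ hk1, hv _ hk1, hy _ (by omega)]
  have ue := hu'.e
  have ul := hu'.le
  have te := hT.e
  have tl := hT.le
  have K : k ≠ 1 → YK G L f (y (k - 1)) uk yk ∧ g1 (y (k - 1)) = yk := fun h =>
    ⟨hyk.resolve_left h, gy.resolve_left h⟩
  refine ⟨g1, jst_set h (LU k u v y) PL gf ?_ ?_ ?_ ?_, gf, gu, gv, gy⟩
  · rintro x (rfl | rfl | ⟨h0, rfl⟩)
    · rw [gu]; omega
    · rw [gv]; omega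
    · rw [(K h0).2]; exact (K h0).1.le
  · rintro x (rfl | rfl | ⟨h0, rfl⟩)
    · rw [gu]; exact iff_of_true Xu (Nat.even_iff.mpr ue)
    · rw [gv]; exact iff_of_true Xv (Nat.even_iff.mpr te)
    · rw [(K h0).2]
      refine iff_of_false Yk ?_
      rw [Nat.even_iff]
      have := (K h0).1.o
      omega
  · rintro x r (rfl | rfl | ⟨h0, rfl⟩) hn hr
    · rw [gu]
      rcases hr with hr | (rfl | rfl | ⟨h1, rfl⟩)
      · rw [gf r (fun hp => PL r hp hr)]
        exact u_ok hcub hw Xσ h hu hv hσ hk1 ue hu'.hp hu'.hq hn hr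
      · exact absurd rfl hn.1
      · rw [gv]; exact hTu.symm
      · rw [(K h1).2]
        have := (K h1).1.o
        omega
    · rw [gv]
      rcases hr with hr | (rfl | rfl | ⟨h1, rfl⟩)
      · rw [gf r (fun hp => PL r hp hr)]
        exact v_ok hcub hw Xσ h hu hv hτ hk1 te hT.hp hT.hq hn hr
      · rw [gu]; exact hTu
      · exact absurd rfl hn.1
      · rw [(K h1).2]
        have := (K h1).1.o
        omega
    · rw [(K h0).2]
      have h2 := (K h0).1.o
      rcases hr with hr | (rfl | rfl | ⟨h1, rfl⟩)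
      · rw [gf r (fun hp => PL r hp hr)]
        exact ((K h0).1.c r hn hr).symm
      · rw [gu]
        omega
      · rw [gv]
        omega
      · exact absurd rfl hn.1
  · rintro x r (rfl | rfl | ⟨h0, rfl⟩) hn hs hr
    · rw [gu]
      rcases (wN_u hcub hw Xσ hk1).all r hn with e | e | e
      · exact absurd (e ▸ iff_of_true (wX_p hw Xσ hk1) Xu) hs
      · exact absurd (e ▸ iff_of_true Xv Xu) hs
      · rw [e] at hr ⊢
        rcases hr with hr | (h3 | h3 | ⟨h3, _⟩)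
        · exact absurd hr (hy _ (by omega))
        · exact absurd h3.symm huy
        · exact absurd h3.symm hvy
        · rw [(K h3).2]
          exact (gp_one (K h3).1.g).symm
    · rw [gv]
      rcases (wN_v hcub hw Xσ hk1).all r hn with e | e | e
      · exact absurd (e ▸ iff_of_true Xu Xv) hs
      · exact absurd (e ▸ iff_of_true (wX_q hw Xσ hk1) Xv) hs
      · exfalso
        rw [ek] at e
        rw [e] at hr
        have Y1 := wY hw Xσ (i := k) le_rfl
        rcases hr with hr | (h3 | h3 | ⟨h3, h4⟩)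
        · exact hy _ le_rfl hr
        · exact Y1 (h3 ▸ Xu)
        · exact Y1 (h3 ▸ Xv)
        · have := hw.nyy k le_rfl (k - 1) (by omega) h4
          omega
    · rw [(K h0).2]
      obtain ⟨b, Yb, hb⟩ := wN_y hcub hw Xσ (i := k - 1) (by omega)
      have h2 : ¬ (k - 1 = 0) := by omega
      have h3 : ¬ (k - 1 = k) := by omega
      rw [if_neg h2, if_neg h3] at hb
      rcases hb.all r hn with e | e | e
      · exfalso
        rw [e] at hr
        have hlt : k - 1 - 1 < k := by omega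
        rcases hr with hr | (h4 | h4 | ⟨_, h4⟩)
        · exact hv _ hlt hr
        · exact hw.nuv _ hk1 _ hlt h4.symm
        · have := hw.nvv _ hlt _ hk1 h4
          omega
        · exact Yk (h4 ▸ wX_v hw Xσ hlt)
      · rw [e, gu]
        exact gp_one (K h0).1.g
      · exact absurd (e ▸ iff_of_false Yb Yk) hs

omit hcub in
/-- position facts for the last unit -/
theorem lu_pos (hk : k ≠ 0) (hu : ∀ i, i < k → ¬ L (u i))
    (hv : ∀ i, i < k → ¬ L (v i)) (hy : ∀ i, i ≤ k → ¬ L (y i)) :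
    (∀ x, LU k u v y x → WS k u v y x) ∧
    (∀ i, i < k → ¬ LU k u v y (p i) ∧ ¬ LU k u v y (q i)) ∧
    (∀ i, i < k - 1 → ¬ (L (u i) ∨ LU k u v y (u i))) ∧
    (∀ i, i < k - 1 → ¬ (L (v i) ∨ LU k u v y (v i))) ∧
    (∀ i, i < k - 1 → ¬ (L (y i) ∨ LU k u v y (y i))) ∧ ¬ LU k u v y σ := by
  have hk1 : k - 1 < k := by omega
  have Xu := wX_u hw Xσ hk1
  have Xv := wX_v hw Xσ hk1
  have Yk : ¬ X (y (k - 1)) := wY hw Xσ (by omega)
  have hlt : ∀ {i}, i < k - 1 → i < k := fun hi => by omega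
  refine ⟨?_, ?_, ?_, ?_, ?_, ?_⟩
  · rintro x (rfl | rfl | ⟨h0, rfl⟩)
    exacts [Or.inl ⟨k - 1, hk1, Or.inl rfl⟩, Or.inl ⟨k - 1, hk1, Or.inr rfl⟩,
      Or.inr ⟨k - 1, by omega, hk1, rfl⟩]
  · intro i hi
    have a1 := (hw.unit i hi).cp
    have a2 := (hw.unit i hi).cq
    have b1 := (hw.unit _ hk1).cu
    have b2 := (hw.unit _ hk1).cv
    have x1 := wX_p hw Xσ hi
    have x2 := wX_q hw Xσ hi
    refine ⟨?_, ?_⟩
    · rintro (e | e | ⟨_, e⟩)
      · rw [e] at a1; omega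
      · rw [e] at a1; omega
      · exact Yk (e ▸ x1)
    · rintro (e | e | ⟨_, e⟩)
      · rw [e] at a2; omega
      · rw [e] at a2; omega
      · exact Yk (e ▸ x2)
  · rintro i hi (h2 | (e | e | ⟨_, e⟩))
    · exact hu i (hlt hi) h2
    · have := hw.nuu i (hlt hi) _ hk1 e
      omega
    · exact hw.nuv i (hlt hi) _ hk1 e
    · exact Yk (e ▸ wX_u hw Xσ (hlt hi))
  · rintro i hi (h2 | (e | e | ⟨_, e⟩))
    · exact hv i (hlt hi) h2
    · exact hw.nuv _ hk1 i (hlt hi) e.symm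
    · have := hw.nvv i (hlt hi) _ hk1 e
      omega
    · exact Yk (e ▸ wX_v hw Xσ (hlt hi))
  · rintro i hi (h2 | (e | e | ⟨_, e⟩))
    · exact hy i (by omega) h2
    · exact wY hw Xσ (i := i) (by omega) (e ▸ Xu)
    · exact wY hw Xσ (i := i) (by omega) (e ▸ Xv)
    · have := hw.nyy i (by omega) (k - 1) (by omega) e
      omega
  · rintro (e | e | ⟨_, e⟩)
    · exact (hw.nσ _ hk1).1 e.symm
    · exact (hw.nσ _ hk1).2 e.symm
    · exact Yk (e ▸ Xσ)

omit hcub hw Xσ in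
theorem ws_split (hk2 : k ≠ 1) (hk : k ≠ 0) (x : V) :
    ((L x ∨ LU k u v y x) ∨ WS (k - 1) u v y x) ↔ (L x ∨ WS k u v y x) := by
  constructor
  · rintro ((h3 | (rfl | rfl | ⟨_, rfl⟩)) | (⟨i, hi, e⟩ | ⟨i, h0, hi, e⟩))
    · exact Or.inl h3
    · exact Or.inr (Or.inl ⟨k - 1, by omega, Or.inl rfl⟩)
    · exact Or.inr (Or.inl ⟨k - 1, by omega, Or.inr rfl⟩)
    · exact Or.inr (Or.inr ⟨k - 1, by omega, by omega, rfl⟩)
    · exact Or.inr (Or.inl ⟨i, by omega, e⟩)
    · exact Or.inr (Or.inr ⟨i, h0, by omega, e⟩)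
  · rintro (h3 | (⟨i, hi, e⟩ | ⟨i, h0, hi, e⟩))
    · exact Or.inl (Or.inl h3)
    · by_cases h4 : i = k - 1
      · rw [h4] at e
        rcases e with e | e
        · exact Or.inl (Or.inr (Or.inl e))
        · exact Or.inl (Or.inr (Or.inr (Or.inl e)))
      · exact Or.inr (Or.inl ⟨i, by omega, e⟩)
    · by_cases h4 : i = k - 1
      · rw [h4] at e
        exact Or.inl (Or.inr (Or.inr (Or.inr ⟨hk2, e⟩)))
      · exact Or.inr (Or.inr ⟨i, h0, by omega, e⟩)

/-- **The wire with given labels of the last unit and of the last inner link.** -/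
theorem ywire (hk : k ≠ 0) (h : JSt G X L f) (hu : ∀ i, i < k → ¬ L (u i))
    (hv : ∀ i, i < k → ¬ L (v i)) (hy : ∀ i, i ≤ k → ¬ L (y i)) (hσ : ¬ L σ) (hτ : ¬ L τ)
    (hNM : ∀ i, 0 < i → i < k → ∀ b, ownR G X (y i) b → NMAt G X b) {cA uk T yk : ℕ}
    (hu' : UK L f (p (k - 1)) (q (k - 1)) uk)
    (hT : UK L f (p (k - 1)) (q (k - 1)) T) (hTu : T ≠ uk)
    (hyk : k = 1 ∨ YK G L f (y (k - 1)) uk yk)
    (h1 : k ≠ 1 ∨ uk = cA)
    (hW : k = 1 ∨ ∃ a b T', SW f (p 0) (q 0) (p (k - 2)) (q (k - 2)) cA uk yk a b T' ∧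
      (k ≠ 2 ∨ T' ≠ cA)) :
    ∃ g : V → ℕ, JSt G X (fun x => L x ∨ WS k u v y x) g ∧ (∀ x, ¬ WS k u v y x → g x = f x) ∧
      g (u 0) = cA ∧ g (u (k - 1)) = uk ∧ g (v (k - 1)) = T ∧
      ∀ x, WS k u v y x → (X x ↔ Even (g x)) := by
  have hk1 : k - 1 < k := by omega
  have k0 : k ≠ 1 → 0 < k - 1 ∧ 0 < k ∧ k - 2 < k ∧ (k - 1 = 1 → k = 2) := fun _ => by omega
  have e2 : k - 1 - 1 = k - 2 := by omega
  have kin : ∀ {i}, i < k - 1 → i < k := fun hi => by omega
  have k1 : k = 1 → ∀ i, (i < k → i = k - 1) ∧ ¬ (0 < i ∧ i < k) := fun hk i => by omega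
  obtain ⟨g1, st1, gf, gu, gv, gy⟩ := ywire_one hcub hw Xσ hk h hu hv hy hσ hτ hu' hT hTu hyk
  obtain ⟨PW, npe, nu, nv, ny, nσ⟩ := lu_pos hw Xσ hk hu hv hy
  have Xu := wX_u hw Xσ hk1
  have Xv := wX_v hw Xσ hk1
  have Yk : ¬ X (y (k - 1)) := wY hw Xσ hk1.le
  have parP : ∀ x, LU k u v y x → (X x ↔ Even (g1 x)) := by
    rintro x (rfl | rfl | ⟨h0, rfl⟩)
    · rw [gu]; exact iff_of_true Xu (Nat.even_iff.mpr hu'.e)
    · rw [gv]; exact iff_of_true Xv (Nat.even_iff.mpr hT.e)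
    · rw [gy.resolve_left h0]
      refine iff_of_false Yk ?_
      rw [Nat.even_iff]
      have := (hyk.resolve_left h0).o
      omega
  by_cases hk2 : k = 1
  · -- one unit
    have hPW : ∀ x, LU k u v y x ↔ WS k u v y x := by
      intro x
      refine ⟨PW x, ?_⟩
      rintro (⟨i, hi, e | e⟩ | ⟨i, h0, hi, e⟩)
      · have : i = k - 1 := (k1 hk2 i).1 hi
        rw [this] at e
        exact Or.inl e
      · have : i = k - 1 := (k1 hk2 i).1 hi
        rw [this] at e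
        exact Or.inr (Or.inl e)
      · exact absurd ⟨h0, hi⟩ (k1 hk2 i).2
    refine ⟨g1, jst_congr st1 fun x => or_congr Iff.rfl (hPW x),
      fun x hx => gf x fun hp => hx (PW x hp), ?_, gu, gv,
      fun x hx => parP x ((hPW x).mpr hx)⟩
    have : (0 : ℕ) = k - 1 := (k1 hk2 0).1 (Nat.pos_of_ne_zero hk)
    rw [this, gu]
    exact h1.resolve_left fun hh => hh hk2
  · -- the sub-wire
    have hs := sub_wire hw hk1
    obtain ⟨a, b, T', ⟨hab, hc0, hcp, ha, hb, hC, hTu', hTy⟩, hT2⟩ := hW.resolve_left hk2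
    have gy := gy.resolve_left hk2
    obtain ⟨k01, k02, k03, k04⟩ := k0 hk2
    have eP := npe 0 k02
    have eK := npe (k - 2) k03
    have c1 : cA ≠ g1 (p 0) ∧ cA ≠ g1 (q 0) := by
      rw [gf _ eP.1, gf _ eP.2]; exact hcp
    have c2 : a ≠ cA ∧ a ≠ g1 (p 0) ∧ a ≠ g1 (q 0) := by
      rw [gf _ eP.1, gf _ eP.2]; exact ha
    have c3 : b ≠ cA ∧ b ≠ g1 (p 0) ∧ b ≠ g1 (q 0) := by
      rw [gf _ eP.1, gf _ eP.2]; exact hb
    have c4 : CndS a b (g1 (p (k - 1 - 1))) (g1 (q (k - 1 - 1))) T' := by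
      rw [e2, gf _ eK.1, gf _ eK.2]; exact hC
    have c5 : (L σ ∨ LU k u v y σ) → g1 σ ≠ cA := fun h3 => absurd h3 (not_or.mpr ⟨hσ, nσ⟩)
    have c6 : (L (u (k - 1)) ∨ LU k u v y (u (k - 1))) → g1 (u (k - 1)) ≠ T' := fun _ => by
      rw [gu]; exact hTu'.symm
    have c7 : (L (y 0) ∨ LU k u v y (y 0)) → cA + 1 ≠ g1 (y 0) ∧ g1 (y 0) + 1 ≠ cA :=
      fun h3 => absurd h3 (ny 0 k01)
    have c8 : (L (y (k - 1)) ∨ LU k u v y (y (k - 1))) →
        T' + 1 ≠ g1 (y (k - 1)) ∧ g1 (y (k - 1)) + 1 ≠ T' := fun _ => by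
      rw [gy]; exact hTy
    obtain ⟨g, s1, s2, s3, s4, s5⟩ := wire_fill_jst (c0 := cA) (T := T') hcub hs Xσ
      k01 st1 nu nv
      (fun i _ hi => ny i hi) (fun i h0 hi b hb => hNM i h0 (kin hi) b hb) hab hc0
      c1 c2 c3 c4 (fun h3 => hT2.resolve_left (fun hh => hh (k04 h3))) c5 c6 c7 c8
    have hWS := ws_split (L := L) (u := u) (v := v) (y := y) hk2 hk
    have nWP : ∀ x, LU k u v y x → ¬ WS (k - 1) u v y x := by
      rintro x hx (⟨i, hi, e | e⟩ | ⟨i, _, hi, e⟩)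
      · exact nu i hi (Or.inr (e ▸ hx))
      · exact nv i hi (Or.inr (e ▸ hx))
      · exact ny i hi (Or.inr (e ▸ hx))
    have WP : ∀ x, WS k u v y x → LU k u v y x ∨ WS (k - 1) u v y x := by
      intro x hx
      have hnL : ¬ L x := by
        rcases hx with ⟨i, hi, rfl | rfl⟩ | ⟨i, _, hi, rfl⟩
        exacts [hu i hi, hv i hi, hy i hi.le]
      rcases (hWS x).mpr (Or.inr hx) with (h3 | h3) | h3
      · exact absurd h3 hnL
      · exact Or.inl h3
      · exact Or.inr h3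
    have oP : ∀ x, LU k u v y x → g x = g1 x := fun x hx => s2 x (nWP x hx)
    refine ⟨g, jst_congr s1 hWS, ?_, s3, ?_, ?_, ?_⟩
    · intro x hx
      rw [s2 x, gf x (fun hp => hx (PW x hp))]
      rintro (⟨i, hi, e⟩ | ⟨i, h0, hi, e⟩)
      · exact hx (Or.inl ⟨i, kin hi, e⟩)
      · exact hx (Or.inr ⟨i, h0, kin hi, e⟩)
    · rw [oP _ (Or.inl rfl), gu]
    · rw [oP _ (Or.inr (Or.inl rfl)), gv]
    · intro x hx
      rcases WP x hx with h3 | h3
      · rw [oP x h3]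
        exact parP x h3
      · exact s5 x h3

end

end Helper58.L9.Y
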